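import Pool.Agent.Lib.MP_ecd4e3_gt.NB.Defs

/-! Calculus of solutions. -/

namespace Pool.Agent.Lib.MP_ecd4e3_gt.NB

open Set Filter Topology Metric MeasureTheory
open scoped NNReal ENNReal

theorem Ap.rfl {Y : Type} {U : Set Y} {a : Y} : Ap U a a := fun _ => Eq.refl a
theorem Ap.of_eq {Y : Type} {U : Set Y} {a b : Y} (h : a = b) : Ap U a b := fun _ => h
theorem Ap.symm {Y : Type} {U : Set Y} {a b : Y} (h : Ap U a b) : Ap U b a := fun k => (h k.symm).symm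
theorem Ap.trans {Y : Type} {U : Set Y} {a b c : Y} (h : Ap U a b) (h' : Ap U b c) : Ap U a c := by
  rintro (k | k)
  · have e := h (Or.inl k)
    exact e.trans (h' (Or.inl (e ▸ k)))
  · have e := h' (Or.inr k)
    exact (h (Or.inr (e ▸ k))).trans e
theorem Ap.of_not {Y : Type} {U : Set Y} {a b : Y} (h : a ∉ U) (h' : b ∉ U) : Ap U a b := fun k =>
  (k.elim h h').elim
theorem Ap.map {Y Y' : Type} {U : Set Y} {U' : Set Y'} {φ : Y → Y'} (hφ : ∀ y, φ y ∈ U' ↔ y ∈ U)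
    {a b : Y} (h : Ap U a b) : Ap U' (φ a) (φ b) := fun k =>
  congrArg φ (h (k.imp (hφ a).1 (hφ b).1))

/-- Transport along a map which has its values in the right set near the point. -/
theorem Dm.comp_ev {α α' β γ : Type} [TopologicalSpace α] [TopologicalSpace α']
    [PseudoMetricSpace β] [PseudoMetricSpace γ] {R : Set α} {P : α → Prop} {F : α → β} {G : α → γ}
    {R' : Set α'} {P' : α' → Prop} {Φ : α' → α} {z : α'} (h : Dm R P F G (Φ z))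
    (hm : ∀ᶠ w in 𝓝[R'] z, Φ w ∈ R) (hz : ContinuousWithinAt Φ R' z)
    (hc : ∀ᶠ w in 𝓝[R'] z, P' w → P (Φ w) ∧ ContinuousWithinAt Φ R' w) :
    Dm R' P' (fun w => F (Φ w)) (fun w => G (Φ w)) z :=
  (h.comp (R' := {w | w ∈ R' ∧ Φ w ∈ R}) (fun _ k => k.2) (hz.mono fun _ k => k.1)
    ((hc.filter_mono (nhdsWithin_mono z fun _ k => k.1)).mono fun _ a k =>
      ⟨(a k).1, (a k).2.mono fun _ k => k.1⟩)).of_mem (eventually_mem_nhdsWithin.and hm)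

variable {T X Y T' X' Y' : Type} [MetricSpace T] [MetricSpace X] [MetricSpace Y] [MetricSpace T']
  [MetricSpace X'] [MetricSpace Y']

theorem Wo_zero (U : Set Y) (c : ℝ) : Wo U c (some 0) = univ := by
  ext y
  simp [Wo, infDist_nonneg]

theorem Wo_mono (U : Set Y) {c c' : ℝ} (h : c ≤ c') (o : Option ℝ≥0) : Wo U c' o ⊆ Wo U c o := by
  cases o with
  | none => exact fun _ k => k
  | some r => exact fun _ k => (mul_le_mul_of_nonneg_left h r.2).trans k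

theorem Sol.ap {U : Set Y} {p : Pb T X Y} {Z : T × X → Y} (h : Sol U p univ Z) :
    ∀ z ∈ p.B, Ap U (Z z) (p.β z) := fun z hz k =>
  k.elim (h.bd z hz) fun k => h.bd' z hz k trivial

theorem Sol.mono {U W W' : Set Y} {p q : Pb T X Y} {Z : T × X → Y} (h : Sol U q W' Z)
    (hR : p.R = q.R) (hB : p.B ⊆ q.B) (hβ : ∀ z ∈ p.B, Ap U (p.β z) (q.β z))
    (hS : ∀ t y, y ∈ U → (y ∈ p.S t ↔ y ∈ q.S t))
    (hg : ∀ z ∈ p.R, ∀ᶠ z' in 𝓝[p.R] z, q.g z z' ≤ p.g z z') (hW : W ⊆ W') : Sol U p W Z := by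
  refine ⟨fun z hz k => (hS _ _ k).2 (h.maps z (hR ▸ hz) k), fun z hz k => ?_,
    fun z hz k k' => ?_, fun t y k1 k2 k3 => hR ▸ h.ex t y ((hS _ _ k2).1 k1) k2 (hW k3),
    fun t x x' k1 k2 k3 k4 => h.uq t x x' (hR ▸ k1) (hR ▸ k2) k3 (hW k4), fun z hz k k' => ?_,
    fun z hz k k' => hR ▸ (h.lo z (hR ▸ hz) k (hW k')).imp fun _ _ a => ⟨a.1, hW a.2⟩⟩
  · have e := h.bd z (hB hz) k
    exact e.trans (hβ z hz (Or.inr (e ▸ k))).symm
  · have e := hβ z hz (Or.inl k)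
    exact (h.bd' z (hB hz) (e ▸ k) (e ▸ hW k')).trans e.symm
  · have k1 := h.lip z (hR ▸ hz) k (hW k')
    rw [← hR] at k1
    exact ⟨k1.1, (k1.2.and (hg z hz)).mono fun _ e => e.1.trans e.2⟩

theorem Sol.monoW {U W W' : Set Y} {p : Pb T X Y} {Z : T × X → Y} (h : Sol U p W' Z)
    (hW : W ⊆ W') : Sol U p W Z :=
  h.mono rfl (fun _ k => k) (fun _ _ => Ap.rfl) (fun _ _ _ => Iff.rfl)
    (fun _ _ => Eventually.of_forall fun _ => le_rfl) hW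

/-- A fully resolved solution solves the problem with any compatible boundary data. -/
theorem Sol.setB {U W : Set Y} {p q : Pb T X Y} {Z : T × X → Y} (h : Sol U q univ Z)
    (hR : p.R = q.R) (hβ : ∀ z ∈ p.B, Ap U (Z z) (p.β z))
    (hS : ∀ t y, y ∈ U → (y ∈ p.S t ↔ y ∈ q.S t))
    (hg : ∀ z ∈ p.R, ∀ᶠ z' in 𝓝[p.R] z, q.g z z' ≤ p.g z z') : Sol U p W Z := by
  refine ⟨fun z hz k => (hS _ _ k).2 (h.maps z (hR ▸ hz) k), fun z hz k => hβ z hz (Or.inl k),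
    fun z hz k _ => hβ z hz (Or.inr k),
    fun t y k1 k2 _ => hR ▸ h.ex t y ((hS _ _ k2).1 k1) k2 trivial,
    fun t x x' k1 k2 k3 _ => h.uq t x x' (hR ▸ k1) (hR ▸ k2) k3 trivial, fun z hz k _ => ?_,
    fun z hz k _ => hR ▸ (h.lo z (hR ▸ hz) k trivial).imp fun _ _ a => ⟨a.1, trivial⟩⟩
  have k1 := h.lip z (hR ▸ hz) k trivial
  rw [← hR] at k1
  exact ⟨k1.1, (k1.2.and (hg z hz)).mono fun _ e => e.1.trans e.2⟩

theorem Sol.congr {U W : Set Y} (hU : IsOpen U) {p : Pb T X Y} {Z Z' : T × X → Y}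
    (h : Sol U p W Z) (hB : p.B ⊆ p.R) (he : ∀ z ∈ p.R, Ap U (Z' z) (Z z)) : Sol U p W Z' := by
  refine ⟨fun z hz k => ?_, fun z hz k => ?_, fun z hz k k' => ?_, fun t y k1 k2 k3 => ?_,
    fun t x x' k1 k2 k3 k4 k5 => ?_, fun z hz k k' => ?_, fun z hz k k' => ?_⟩
  · have e := he z hz (Or.inl k)
    rw [e] at k ⊢
    exact h.maps z hz k
  · have e := he z (hB hz) (Or.inl k)
    rw [e] at k ⊢
    exact h.bd z hz k
  · have e := h.bd' z hz k k'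
    exact (he z (hB hz) (Or.inr (e ▸ k))).trans e
  · obtain ⟨x, hx, e⟩ := h.ex t y k1 k2 k3
    exact ⟨x, hx, (he _ hx (Or.inr (e ▸ k2))).trans e⟩
  · have e := he _ k1 (Or.inl k3)
    have e' := he _ k2 (Or.inl (k5 ▸ k3))
    exact h.uq t x x' k1 k2 (e ▸ k3) (e ▸ k4) (e'.symm.trans (k5.trans e))
  · have e := he z hz (Or.inl k)
    rw [e] at k k'
    obtain ⟨k1, k2⟩ := h.lip z hz k k'
    have k3 : Z' =ᶠ[𝓝[p.R] z] Z := by
      filter_upwards [k1.eventually (hU.mem_nhds k), self_mem_nhdsWithin] with z' a1 a2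
      exact he z' a2 (Or.inr a1)
    refine ⟨k1.congr_of_eventuallyEq k3 e, ?_⟩
    filter_upwards [k2, k3] with z' a1 a2
    rwa [a2, e]
  · have e := he z hz (Or.inl k)
    rw [e] at k k'
    have k3 : ∀ᶠ z' in 𝓝[p.R] z, Z' z' = Z z' := by
      filter_upwards [(h.lip z hz k k').1.eventually (hU.mem_nhds k), self_mem_nhdsWithin]
        with z' a1 a2
      exact he z' a2 (Or.inr a1)
    exact ((h.lo z hz k k').congr_ev (k3.mono fun w a => ⟨rfl, by rw [a]⟩)).monoP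
      (k3.mono fun w a b => a ▸ b)

theorem Sol.congr_eq {U W : Set Y} {p : Pb T X Y} {Z Z' : T × X → Y}
    (h : Sol U p W Z) (hB : p.B ⊆ p.R) (he : ∀ z ∈ p.R, Z' z = Z z) : Sol U p W Z' := by
  refine ⟨fun z hz k => ?_, fun z hz k => ?_, fun z hz k k' => ?_, fun t y k1 k2 k3 => ?_,
    fun t x x' k1 k2 k3 k4 k5 => ?_, fun z hz k k' => ?_, fun z hz k k' => ?_⟩
  · rw [he z hz] at k ⊢
    exact h.maps z hz k
  · rw [he z (hB hz)] at k ⊢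
    exact h.bd z hz k
  · exact (he z (hB hz)).trans (h.bd' z hz k k')
  · obtain ⟨x, hx, e⟩ := h.ex t y k1 k2 k3
    exact ⟨x, hx, (he _ hx).trans e⟩
  · rw [he _ k1] at k3 k4 k5
    rw [he _ k2] at k5
    exact h.uq t x x' k1 k2 k3 k4 k5
  · rw [he z hz] at k k'
    obtain ⟨k1, k2⟩ := h.lip z hz k k'
    refine ⟨k1.congr he (he z hz), ?_⟩
    filter_upwards [k2, self_mem_nhdsWithin] with z' a1 a2
    rwa [he z' a2, he z hz]
  · rw [he z hz] at k k'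
    exact ((h.lo z hz k k').congr (fun _ _ => rfl) fun w a => by rw [he w a]).imp
      fun w a b => he w a ▸ b

theorem sol_bot {U : Set Y} (p : Pb T X Y) {Z : T × X → Y} (h : ∀ z, Z z ∉ U) : Sol U p ∅ Z := ⟨fun z _ k => (h z k).elim, fun z _ k => (h z k).elim, fun _ _ _ k => k.elim,
    fun _ _ _ _ k => k.elim, fun _ _ _ _ _ _ k => k.elim, fun _ _ _ k => k.elim,
    fun _ _ _ k => k.elim⟩

theorem Sol.vac {U W : Set Y} {p : Pb T X Y} {Z : T × X → Y} (h : Sol U p ∅ Z) (hp : p.WF U)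
    (hv : ∀ t y, y ∈ p.S t → y ∈ U → y ∉ W) : Sol U p W Z :=
  ⟨h.maps, h.bd, fun z hz k k' => (hv _ _ (hp.2.1 z hz k) k k').elim,
    fun t y k1 k2 k3 => (hv t y k1 k2 k3).elim,
    fun _ _ _ k1 _ k3 k4 => (hv _ _ (h.maps _ k1 k3) k3 k4).elim,
    fun z hz k k' => (hv _ _ (h.maps z hz k) k k').elim,
    fun z hz k k' => (hv _ _ (h.maps z hz k) k k').elim⟩

/-- Near a resolved point the values stay in `U` and in the source. -/
theorem Sol.ev {U W : Set Y} (hU : IsOpen U) {p : Pb T X Y} {Z : T × X → Y} (h : Sol U p W Z)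
    {z : T × X} (hz : z ∈ p.R) (h1 : Z z ∈ U) (h2 : Z z ∈ W) :
    ∀ᶠ z' in 𝓝[p.R] z, z' ∈ p.R ∧ Z z' ∈ U ∧ Z z' ∈ p.S z'.1 := by
  filter_upwards [(h.lip z hz h1 h2).1.eventually (hU.mem_nhds h1), self_mem_nhdsWithin]
    with z' a1 a2
  exact ⟨a2, a1, h.maps z' a2 a1⟩

/-- A domination on the source is a domination along a solution. -/
theorem Sol.along {U W : Set Y} (hU : IsOpen U) {p : Pb T X Y} {Z : T × X → Y} (h : Sol U p W Z)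
    {z : T × X} (hz : z ∈ p.R) (h1 : Z z ∈ U) (h2 : Z z ∈ W) {A A' : Type} [PseudoMetricSpace A]
    [PseudoMetricSpace A'] {F : T × Y → A} {G : T × Y → A'}
    (hd : Dm {w : T × Y | w.2 ∈ p.S w.1} (fun w => w.2 ∈ U) F G (z.1, Z z)) {P : T × X → Prop}
    (hP : ∀ w ∈ p.R, P w → Z w ∈ U ∧ Z w ∈ W) :
    Dm p.R P (fun w => F (w.1, Z w)) (fun w => G (w.1, Z w)) z := by
  have hc : ∀ w ∈ p.R, Z w ∈ U → Z w ∈ W →
      ContinuousWithinAt (fun w : T × X => (w.1, Z w)) {w | w ∈ p.R ∧ Z w ∈ U} w :=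
    fun w hw a b => (continuousWithinAt_fst.prodMk (h.lip w hw a b).1).mono fun _ k => k.1
  refine (hd.comp (R' := {w | w ∈ p.R ∧ Z w ∈ U}) (Φ := fun w : T × X => (w.1, Z w))
    (fun w k => h.maps w k.1 k.2) (hc z hz h1 h2) (eventually_nhdsWithin_of_forall
      fun w k a => ⟨k.2, hc w k.1 k.2 (hP w k.1 a).2⟩)).of_mem ?_
  exact (h.ev hU hz h1 h2).mono fun w a => ⟨a.1, a.2.1⟩

/-- Pull back along a map which respects the time slices. -/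
theorem Sol.comp {U W : Set Y} {q : Pb T X Y} {Z : T × X → Y} (h : Sol U q W Z)
    (τ : T' → T) (φ : T' × X' → X) {p : Pb T' X' Y}
    (hm : ∀ z ∈ p.R, (τ z.1, φ z) ∈ q.R)
    (hS1 : ∀ z ∈ p.R, Z (τ z.1, φ z) ∈ U → Z (τ z.1, φ z) ∈ q.S (τ z.1) → Z (τ z.1, φ z) ∈ p.S z.1)
    (hS2 : ∀ t y, y ∈ p.S t → y ∈ U → y ∈ q.S (τ t))
    (hsur : ∀ t y, y ∈ p.S t → y ∈ U → y ∈ W → ∀ x, (τ t, x) ∈ q.R → Z (τ t, x) = y →
      ∃ x', (t, x') ∈ p.R ∧ φ (t, x') = x)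
    (hinj : ∀ t x x', (t, x) ∈ p.R → (t, x') ∈ p.R → Z (τ t, φ (t, x)) ∈ U →
      φ (t, x') = φ (t, x) → x' = x)
    (hc : ∀ z ∈ p.R, Z (τ z.1, φ z) ∈ U →
      ContinuousWithinAt (fun w : T' × X' => (τ w.1, φ w)) p.R z ∧
        ∀ᶠ z' in 𝓝[p.R] z, q.g (τ z.1, φ z) (τ z'.1, φ z') ≤ p.g z z')
    (hB : ∀ z ∈ p.B, ((τ z.1, φ z) ∈ q.B ∧ Ap U (p.β z) (q.β (τ z.1, φ z))) ∨
      Ap U (Z (τ z.1, φ z)) (p.β z))
    (hlo : ∀ z ∈ p.R, Z (τ z.1, φ z) ∈ U →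
      Dm p.R (fun w => Z (τ w.1, φ w) ∈ U) (fun w => τ w.1) (fun w => w.1) z ∧
      Dm p.R (fun w => Z (τ w.1, φ w) ∈ U) (fun w => w.2) (fun w => (w.1, φ w)) z) :
    Sol U p W fun z => Z (τ z.1, φ z) := by
  refine ⟨fun z hz k => hS1 z hz k (h.maps _ (hm z hz) k), fun z hz k => ?_, fun z hz k k' => ?_,
    fun t y k1 k2 k3 => ?_, fun t x x' k1 k2 k3 k4 k5 => ?_, fun z hz k k' => ?_,
    fun z hz k k' => ?_⟩
  · rcases hB z hz with ⟨a1, a2⟩ | a1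
    · have e := h.bd _ a1 k
      exact e.trans (a2 (Or.inr (e ▸ k))).symm
    · exact a1 (Or.inl k)
  · rcases hB z hz with ⟨a1, a2⟩ | a1
    · have e := a2 (Or.inl k)
      exact (h.bd' _ a1 (e ▸ k) (e ▸ k')).trans e.symm
    · exact a1 (Or.inr k)
  · obtain ⟨x, hx, e⟩ := h.ex (τ t) y (hS2 t y k1 k2) k2 k3
    obtain ⟨x', hx', e'⟩ := hsur t y k1 k2 k3 x hx e
    exact ⟨x', hx', by simp only [e', e]⟩
  · exact hinj t x x' k1 k2 k3 (h.uq (τ t) _ _ (hm _ k1) (hm _ k2) k3 k4 k5)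
  · obtain ⟨k1, k2⟩ := h.lip _ (hm z hz) k k'
    obtain ⟨k3, k4⟩ := hc z hz k
    have k5 : Tendsto (fun w : T' × X' => (τ w.1, φ w)) (𝓝[p.R] z) (𝓝[q.R] (τ z.1, φ z)) :=
      k3.tendsto_nhdsWithin hm
    exact ⟨k1.tendsto.comp k5, ((k5.eventually k2).and k4).mono fun _ e => e.1.trans e.2⟩
  · obtain ⟨k1, k2⟩ := hlo z hz k
    have k3 := (h.lo _ (hm z hz) k k').comp (Φ := fun w : T' × X' => (τ w.1, φ w))
      (P' := fun w => Z (τ w.1, φ w) ∈ U ∧ Z (τ w.1, φ w) ∈ W) hm (hc z hz k).1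
      (eventually_nhdsWithin_of_forall fun w hw a => ⟨a, (hc w hw a.1).1⟩)
    exact (k2.imp fun _ _ a => a.1).trans (Dm.pr1.prod
      (k3.trans (((k1.imp fun _ _ a => a.1).trans Dm.pr1).prod Dm.pr2)))

/-- Push forward along a time dependent map of the source. -/
theorem Sol.post {U W : Set Y} {U' W' : Set Y'} (hU : IsOpen U) {q : Pb T X Y} {Z : T × X → Y}
    (h : Sol U q W Z) (hq : q.WF U) (φ : T → Y → Y') {p : Pb T X Y'} {l1 l2 : ℝ} (hl : 0 ≤ l1)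
    (hR : p.R = q.R) (hB : p.B ⊆ q.B)
    (hφ : ∀ t y, φ t y ∈ U' ↔ y ∈ U)
    (hβ : ∀ z ∈ p.B, Ap U' (p.β z) (φ z.1 (q.β z)))
    (hS : ∀ t y', y' ∈ U' → (y' ∈ p.S t ↔ ∃ y ∈ q.S t, φ t y = y'))
    (hinj : ∀ t, ∀ y ∈ q.S t, ∀ y' ∈ q.S t, y ∈ U → φ t y' = φ t y → y' = y)
    (hW : ∀ t, ∀ y ∈ q.S t, y ∈ U → φ t y ∈ W' → y ∈ W)
    (hlip : ∀ t, ∀ y ∈ q.S t, y ∈ U → ∀ᶠ w in 𝓝[{w : T × Y | w.2 ∈ q.S w.1}] (t, y),
      dist (φ w.1 w.2) (φ t y) ≤ l1 * dist w.2 y + l2 * dist w.1 t)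
    (hg : ∀ z ∈ p.R, ∀ᶠ z' in 𝓝[p.R] z, l1 * q.g z z' + l2 * dist z'.1 z.1 ≤ p.g z z')
    (hlo : ∀ t, ∀ y ∈ q.S t, y ∈ U → Dm {w : T × Y | w.2 ∈ q.S w.1} (fun w => w.2 ∈ U)
      (fun w => w.2) (fun w => (w.1, φ w.1 w.2)) (t, y)) :
    Sol U' p W' fun z => φ z.1 (Z z) := by
  refine ⟨fun z hz k => (hS _ _ k).2 ⟨Z z, h.maps z (hR ▸ hz) ((hφ _ _).1 k), rfl⟩,
    fun z hz k => ?_, fun z hz k k' => ?_, fun t y k1 k2 k3 => ?_,
    fun t x x' k1 k2 k3 k4 k5 => ?_, fun z hz k k' => ?_, fun z hz k k' => ?_⟩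
  · have e := h.bd z (hB hz) ((hφ _ _).1 k)
    rw [e] at k ⊢
    exact (hβ z hz (Or.inr k)).symm
  · have e := hβ z hz (Or.inl k)
    rw [e] at k k' ⊢
    have a1 := (hφ _ _).1 k
    rw [h.bd' z (hB hz) a1 (hW _ _ (hq.2.1 z (hB hz) a1) a1 k')]
  · obtain ⟨y0, a1, rfl⟩ := (hS _ _ k2).1 k1
    have a2 := (hφ _ _).1 k2
    obtain ⟨x, hx, e⟩ := h.ex t y0 a1 a2 (hW _ _ a1 a2 k3)
    exact ⟨x, hR ▸ hx, congrArg (φ t) e⟩
  · rw [hR] at k1 k2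
    have a1 := (hφ _ _).1 k3
    have a2 := h.maps _ k1 a1
    have a3 : Z (t, x') ∈ U := (hφ t _).1 (by
      have k6 : φ t (Z (t, x')) = φ t (Z (t, x)) := k5
      rw [k6]; exact k3)
    exact h.uq t x x' k1 k2 a1 (hW _ _ a2 a1 k4) (hinj t _ a2 _ (h.maps _ k2 a3) a1 k5)
  · have hg' := hg z hz
    rw [hR] at hz hg' ⊢
    have a1 := (hφ _ _).1 k
    have a2 := h.maps _ hz a1
    have a3 := hW _ _ a2 a1 k'
    obtain ⟨k1, k2⟩ := h.lip z hz a1 a3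
    have t1 : Tendsto (fun w : T × X => w.1) (𝓝[q.R] z) (𝓝 z.1) :=
      continuous_fst.continuousWithinAt
    have k3 : Tendsto (fun w : T × X => (w.1, Z w)) (𝓝[q.R] z)
        (𝓝[{w : T × Y | w.2 ∈ q.S w.1}] (z.1, Z z)) :=
      tendsto_nhdsWithin_iff.2 ⟨t1.prodMk_nhds k1, (h.ev hU hz a1 a3).mono fun _ e => e.2.2⟩
    have k4 := k3.eventually (hlip _ _ a2 a1)
    refine ⟨tendsto_iff_dist_tendsto_zero.2 (squeeze_zero' (Eventually.of_forall fun _ =>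
      dist_nonneg) k4 ?_), ?_⟩
    · have := ((tendsto_iff_dist_tendsto_zero.1 k1).const_mul l1).add
        ((tendsto_iff_dist_tendsto_zero.1 t1).const_mul l2)
      simpa using this
    · filter_upwards [k4, k2, hg'] with z' b1 b2 b3
      exact b1.trans (le_trans (add_le_add_left (mul_le_mul_of_nonneg_left b2 hl) _) b3)
  · rw [hR] at hz ⊢
    have a1 := (hφ _ _).1 k
    have a2 := h.maps _ hz a1
    have a3 := hW _ _ a2 a1 k'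
    have hP : ∀ w ∈ q.R, φ w.1 (Z w) ∈ U' ∧ φ w.1 (Z w) ∈ W' → Z w ∈ U ∧ Z w ∈ W :=
      fun w hw a => ⟨(hφ _ _).1 a.1, hW _ _ (h.maps _ hw ((hφ _ _).1 a.1)) ((hφ _ _).1 a.1) a.2⟩
    exact ((h.lo z hz a1 a3).imp hP).trans (Dm.pr1.prod (h.along hU hz a1 a3 (hlo _ _ a2 a1) hP))

/-- The local estimate on a piece of a glued map. -/
theorem Sol.piece {U W : Set Y} {q : Pb T X Y} {Z G : T × X → Y} (h : Sol U q W Z)
    {A : Set (T × X)} (hA : A ⊆ q.R) (hG : ∀ z' ∈ A, G z' = Z z') {z : T × X}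
    (hc : z ∈ closure q.R → z ∈ q.R) (hz : z ∈ q.R → Z z = G z) (h1 : G z ∈ U) (h2 : G z ∈ W)
    {g : T × X → ℝ} (hg : z ∈ q.R → ∀ᶠ z' in 𝓝[q.R] z, q.g z z' ≤ g z') :
    ContinuousWithinAt G A z ∧ ∀ᶠ z' in 𝓝[A] z, dist (G z') (G z) ≤ g z' := by
  have hle : 𝓝[A] z ≤ 𝓝[q.R] z := nhdsWithin_mono z hA
  by_cases k : z ∈ q.R
  · have e := hz k
    obtain ⟨k1, k2⟩ := h.lip z k (e ▸ h1) (e ▸ h2)
    refine ⟨(k1.mono hA).congr hG e.symm, ?_⟩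
    filter_upwards [hle k2, hle (hg k), self_mem_nhdsWithin] with z' a1 a2 a3
    rw [hG z' a3, ← e]
    exact le_trans a1 a2
  · have e : 𝓝[q.R] z = ⊥ :=
      not_neBot.1 fun k' => k (hc (mem_closure_iff_nhdsWithin_neBot.2 k'))
    have e' : 𝓝[A] z = ⊥ := le_bot_iff.1 (e ▸ hle)
    unfold ContinuousWithinAt
    rw [e']
    exact ⟨tendsto_bot, eventually_bot⟩

/-- The lower estimate on a piece of a glued map. -/
theorem Sol.pieceLo {U W : Set Y} {q : Pb T X Y} {Z G : T × X → Y} (h : Sol U q W Z)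
    {A R : Set (T × X)} (hA : A ⊆ q.R) (hG : ∀ z' ∈ A, G z' = Z z')
    (hc : ∀ w ∈ R, w ∈ closure q.R → w ∈ q.R)
    (he : ∀ w ∈ R, w ∈ q.R → G w ∈ U → G w ∈ W → Z w = G w) {z : T × X} (hz : z ∈ R)
    (h1 : G z ∈ U) (h2 : G z ∈ W) :
    Dp R A (fun w => G w ∈ U ∧ G w ∈ W) (fun w => w.2) (fun w => (w.1, G w)) z :=
  Dp.piece hA hc hz (fun k => h.lo z k (he z hz k h1 h2 ▸ h1) (he z hz k h1 h2 ▸ h2))
    (fun w hw k a => by
      have e := he w hw k a.1 a.2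
      exact ⟨e ▸ a, rfl, by rw [e]⟩) fun w hw => ⟨rfl, by rw [hG w hw]⟩

theorem Sol.bds {U W : Set Y} {q : Pb T X Y} {Z : T × X → Y} (h : Sol U q W Z) {z : T × X}
    (hz : z ∈ q.B) {y : Y} (hy : Ap U y (q.β z)) :
    (Z z ∈ U → Z z = y) ∧ (y ∈ U → y ∈ W → Z z = y) := by
  constructor
  · intro k
    have e := h.bd z hz k
    exact e.trans (hy (Or.inr (e ▸ k))).symm
  · intro k k'
    have e := hy (Or.inl k)
    exact (h.bd' z hz (e ▸ k) (e ▸ k')).trans e.symm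

open Classical in
/-- Gluing two solutions, with the compatibility stated for the solutions. -/
theorem Sol.glue' {U W : Set Y} {p q1 q2 : Pb T X Y} {Z1 Z2 : T × X → Y} (h1 : Sol U q1 W Z1)
    (h2 : Sol U q2 W Z2) (hR : p.R = q1.R ∪ q2.R)
    (c1 : ∀ z ∈ p.R, z ∈ closure q1.R → z ∈ q1.R) (c2 : ∀ z ∈ p.R, z ∈ closure q2.R → z ∈ q2.R)
    (hS : ∀ t y, y ∈ U → (y ∈ p.S t ↔ y ∈ q1.S t ∨ y ∈ q2.S t))
    (hov : ∀ z ∈ q1.R, z ∈ q2.R → ∀ y ∈ U, y ∈ W → (Z1 z = y ↔ Z2 z = y))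
    (hsep : ∀ t y, y ∈ q1.S t → y ∈ q2.S t → y ∈ U → y ∈ W →
      ∃ x, (t, x) ∈ q1.R ∧ (t, x) ∈ q2.R ∧ Z1 (t, x) = y)
    (hb1 : ∀ z ∈ p.B, z ∈ q1.R → (Z1 z ∈ U → Z1 z = p.β z) ∧
      (p.β z ∈ U → p.β z ∈ W → Z1 z = p.β z))
    (hb2 : ∀ z ∈ p.B, z ∉ q1.R → (Z2 z ∈ U → Z2 z = p.β z) ∧
      (p.β z ∈ U → p.β z ∈ W → Z2 z = p.β z))
    (g1 : ∀ z ∈ q1.R, ∀ᶠ z' in 𝓝[q1.R] z, q1.g z z' ≤ p.g z z')
    (g2 : ∀ z ∈ q2.R, ∀ᶠ z' in 𝓝[q2.R] z, q2.g z z' ≤ p.g z z') :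
    Sol U p W fun z => if z ∈ q1.R then Z1 z else Z2 z := by
  have hm : ∀ z ∈ p.R, z ∉ q1.R → z ∈ q2.R := fun z hz k => (hR ▸ hz : z ∈ q1.R ∪ q2.R).resolve_left k
  have hv : ∀ z ∈ p.R, ∀ y, (if z ∈ q1.R then Z1 z else Z2 z) = y →
      (z ∈ q1.R ∧ Z1 z = y) ∨ (z ∈ q2.R ∧ Z2 z = y) := by
    intro z hz y e
    by_cases k : z ∈ q1.R
    · exact Or.inl ⟨k, by rwa [if_pos k] at e⟩
    · exact Or.inr ⟨hm z hz k, by rwa [if_neg k] at e⟩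
  have hx : ∀ t x x' y, y ∈ U → y ∈ W → (t, x) ∈ q1.R → Z1 (t, x) = y → (t, x') ∈ q2.R →
      Z2 (t, x') = y → x' = x := by
    intro t x x' y k1 k2 a1 a2 b1 b2
    obtain ⟨x0, d1, d2, d3⟩ := hsep t y (a2 ▸ h1.maps _ a1 (a2 ▸ k1))
      (b2 ▸ h2.maps _ b1 (b2 ▸ k1)) k1 k2
    have d4 := (hov _ d1 d2 y k1 k2).1 d3
    exact (h2.uq t x0 x' d2 b1 (d4 ▸ k1) (d4 ▸ k2) (b2.trans d4.symm)).trans
      (h1.uq t x x0 a1 d1 (a2 ▸ k1) (a2 ▸ k2) (d3.trans a2.symm))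
  refine ⟨fun z hz k => ?_, fun z hz k => ?_, fun z hz k k' => ?_, fun t y k1 k2 k3 => ?_,
    fun t x x' k1 k2 k3 k4 k5 => ?_, fun z hz k k' => ?_, fun z hz k k' => ?_⟩
  · refine (hS _ _ k).2 ?_
    rcases hv z hz _ rfl with ⟨a1, a2⟩ | ⟨a1, a2⟩
    · exact Or.inl (a2 ▸ h1.maps z a1 (a2 ▸ k))
    · exact Or.inr (a2 ▸ h2.maps z a1 (a2 ▸ k))
  · by_cases a : z ∈ q1.R
    · simp only [if_pos a] at k ⊢
      exact (hb1 z hz a).1 k
    · simp only [if_neg a] at k ⊢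
      exact (hb2 z hz a).1 k
  · by_cases a : z ∈ q1.R
    · simp only [if_pos a]
      exact (hb1 z hz a).2 k k'
    · simp only [if_neg a]
      exact (hb2 z hz a).2 k k'
  · rcases (hS _ _ k2).1 k1 with a | a
    · obtain ⟨x, b1, b2⟩ := h1.ex t y a k2 k3
      exact ⟨x, hR ▸ Or.inl b1, by simp only [if_pos b1, b2]⟩
    · obtain ⟨x, b1, b2⟩ := h2.ex t y a k2 k3
      refine ⟨x, hR ▸ Or.inr b1, ?_⟩
      by_cases b3 : (t, x) ∈ q1.R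
      · simp only [if_pos b3]
        exact (hov _ b3 b1 y k2 k3).2 b2
      · simp only [if_neg b3, b2]
  · rcases hv _ k1 _ rfl with ⟨a1, a2⟩ | ⟨a1, a2⟩ <;> rcases hv _ k2 _ k5 with ⟨b1, b2⟩ | ⟨b1, b2⟩
    · exact h1.uq t x x' a1 b1 (a2 ▸ k3) (a2 ▸ k4) (b2.trans a2.symm)
    · exact hx t x x' _ k3 k4 a1 a2 b1 b2
    · exact (hx t x' x _ k3 k4 b1 b2 a1 a2).symm
    · exact h2.uq t x x' a1 b1 (a2 ▸ k3) (a2 ▸ k4) (b2.trans a2.symm)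
  · have e : p.R = q1.R ∪ (q2.R \ q1.R) := by rw [hR, union_sdiff_self]
    obtain ⟨a1, a2⟩ := h1.piece (A := q1.R) (G := fun z => if z ∈ q1.R then Z1 z else Z2 z)
      (fun _ k => k) (fun _ k => if_pos k) (c1 z hz) (fun k => (if_pos k).symm) k k' (g1 z)
    obtain ⟨b1, b2⟩ := h2.piece (A := q2.R \ q1.R) (G := fun z => if z ∈ q1.R then Z1 z else Z2 z)
      (fun _ k => k.1) (fun _ k => if_neg k.2) (c2 z hz) (fun k0 => by
        by_cases a : z ∈ q1.R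
        · exact (hov z a k0 _ k k').1 (if_pos a).symm
        · exact (if_neg a).symm) k k' (g2 z)
    rw [e]
    exact ⟨a1.union b1, by rw [nhdsWithin_union]; exact eventually_sup.2 ⟨a2, b2⟩⟩
  · have e2 : ∀ w ∈ q2.R, (if w ∈ q1.R then Z1 w else Z2 w) ∈ U →
        (if w ∈ q1.R then Z1 w else Z2 w) ∈ W → Z2 w = if w ∈ q1.R then Z1 w else Z2 w := by
      intro w k0 b b'
      by_cases a : w ∈ q1.R
      · exact (hov w a k0 _ b b').1 (if_pos a).symm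
      · exact (if_neg a).symm
    refine Dp.monoA (A := q1.R ∪ (q2.R \ q1.R)) (Dp.union
      (h1.pieceLo (G := fun z => if z ∈ q1.R then Z1 z else Z2 z) Subset.rfl
        (fun _ a => if_pos a) c1 (fun _ _ a _ _ => (if_pos a).symm) hz k k')
      (h2.pieceLo (G := fun z => if z ∈ q1.R then Z1 z else Z2 z) (fun _ a => a.1)
        (fun _ a => if_neg a.2) c2 (fun w _ a => e2 w a) hz k k')) ?_
    rw [hR, union_sdiff_self]

open Classical in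
/-- Gluing two solutions along a common boundary part. -/
theorem Sol.glue {U W : Set Y} {p q1 q2 : Pb T X Y} {Z1 Z2 : T × X → Y} (h1 : Sol U q1 W Z1)
    (h2 : Sol U q2 W Z2) (hR : p.R = q1.R ∪ q2.R)
    (c1 : ∀ z ∈ p.R, z ∈ closure q1.R → z ∈ q1.R) (c2 : ∀ z ∈ p.R, z ∈ closure q2.R → z ∈ q2.R)
    (hS : ∀ t y, y ∈ U → (y ∈ p.S t ↔ y ∈ q1.S t ∨ y ∈ q2.S t))
    (hov : ∀ z ∈ q1.R, z ∈ q2.R → z ∈ q1.B ∧ z ∈ q2.B ∧ Ap U (q1.β z) (q2.β z))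
    (hsep : ∀ t y, y ∈ q1.S t → y ∈ q2.S t → y ∈ U →
      ∃ x, (t, x) ∈ q1.R ∧ (t, x) ∈ q2.R ∧ q1.β (t, x) = y)
    (hb : ∀ z ∈ p.B, (z ∈ q1.B ∧ z ∈ q1.R ∧ Ap U (p.β z) (q1.β z)) ∨
      (z ∈ q2.B ∧ z ∈ q2.R ∧ Ap U (p.β z) (q2.β z)))
    (g1 : ∀ z ∈ q1.R, ∀ᶠ z' in 𝓝[q1.R] z, q1.g z z' ≤ p.g z z')
    (g2 : ∀ z ∈ q2.R, ∀ᶠ z' in 𝓝[q2.R] z, q2.g z z' ≤ p.g z z') :
    Sol U p W fun z => if z ∈ q1.R then Z1 z else Z2 z := by
  refine h1.glue' h2 hR c1 c2 hS (fun z a1 a2 y k1 k2 => ?_) (fun t y a1 a2 k1 k2 => ?_)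
    (fun z hz a => ?_) (fun z hz a => ?_) g1 g2
  · obtain ⟨b1, b2, b3⟩ := hov z a1 a2
    constructor
    · intro e
      have e1 : q1.β z = y := (h1.bd z b1 (e ▸ k1)).symm.trans e
      have e2 : q2.β z = y := (b3 (Or.inl (e1 ▸ k1))).symm.trans e1
      exact (h2.bd' z b2 (e2 ▸ k1) (e2 ▸ k2)).trans e2
    · intro e
      have e1 : q2.β z = y := (h2.bd z b2 (e ▸ k1)).symm.trans e
      have e2 : q1.β z = y := (b3 (Or.inr (e1 ▸ k1))).trans e1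
      exact (h1.bd' z b1 (e2 ▸ k1) (e2 ▸ k2)).trans e2
  · obtain ⟨x, b1, b2, b3⟩ := hsep t y a1 a2 k1
    exact ⟨x, b1, b2, (h1.bd' _ (hov _ b1 b2).1 (b3 ▸ k1) (b3 ▸ k2)).trans b3⟩
  · have k : z ∈ q1.B ∧ Ap U (p.β z) (q1.β z) := by
      rcases hb z hz with ⟨b1, -, b3⟩ | ⟨-, b2, b3⟩
      · exact ⟨b1, b3⟩
      · exact ⟨(hov z a b2).1, b3.trans (hov z a b2).2.2.symm⟩
    exact h1.bds k.1 k.2
  · rcases hb z hz with ⟨-, b2, -⟩ | ⟨b1, -, b3⟩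
    · exact (a b2).elim
    · exact h2.bds b1 b3

/-- One map which solves finitely many problems solves their union. -/
theorem Sol.union {I : Type} {s : Set I} (hs : s.Finite) {U W : Set Y} {p : Pb T X Y}
    {q : I → Pb T X Y} {Z : T × X → Y} (h : ∀ i ∈ s, Sol U (q i) W Z)
    (hR : p.R = ⋃ i ∈ s, (q i).R) (hc : ∀ i ∈ s, ∀ z ∈ p.R, z ∈ closure (q i).R → z ∈ (q i).R)
    (hS : ∀ t y, y ∈ U → (y ∈ p.S t ↔ ∃ i ∈ s, y ∈ (q i).S t))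
    (hsep : ∀ i ∈ s, ∀ j ∈ s, ∀ t y, y ∈ (q i).S t → y ∈ (q j).S t → y ∈ U → y ∈ W →
      ∃ x, (t, x) ∈ (q i).R ∧ (t, x) ∈ (q j).R ∧ Z (t, x) = y)
    (hb : ∀ z ∈ p.B, Ap U (Z z) (p.β z))
    (hg : ∀ i ∈ s, ∀ z ∈ (q i).R, ∀ᶠ z' in 𝓝[(q i).R] z, (q i).g z z' ≤ p.g z z') :
    Sol U p W Z := by
  have hm : ∀ z ∈ p.R, ∃ i ∈ s, z ∈ (q i).R := fun z hz => by
    rw [hR] at hz
    simpa only [mem_iUnion, exists_prop] using hz
  have hm' : ∀ i ∈ s, (q i).R ⊆ p.R := fun i hi => hR ▸ subset_biUnion_of_mem (u := fun i => (q i).R) hi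
  refine ⟨fun z hz k => ?_, fun z hz k => hb z hz (Or.inl k), fun z hz k _ => hb z hz (Or.inr k),
    fun t y k1 k2 k3 => ?_, fun t x x' k1 k2 k3 k4 k5 => ?_, fun z hz k k' => ?_,
    fun z hz k k' => ?_⟩
  · obtain ⟨i, hi, a⟩ := hm z hz
    exact (hS _ _ k).2 ⟨i, hi, (h i hi).maps z a k⟩
  · obtain ⟨i, hi, a⟩ := (hS _ _ k2).1 k1
    obtain ⟨x, b1, b2⟩ := (h i hi).ex t y a k2 k3
    exact ⟨x, hm' i hi b1, b2⟩
  · obtain ⟨i, hi, a⟩ := hm _ k1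
    obtain ⟨j, hj, b⟩ := hm _ k2
    obtain ⟨x0, d1, d2, d3⟩ := hsep i hi j hj t _ ((h i hi).maps _ a k3)
      (k5 ▸ (h j hj).maps _ b (k5 ▸ k3)) k3 k4
    exact ((h j hj).uq t x0 x' d2 b (d3 ▸ k3) (d3 ▸ k4) (k5.trans d3.symm)).trans
      ((h i hi).uq t x x0 a d1 k3 k4 d3)
  · have key := fun i hi => (h i hi).piece (A := (q i).R) (G := Z) (fun _ k => k)
      (fun _ _ => rfl) (hc i hi z hz) (fun _ => rfl) k k' (hg i hi z)
    unfold ContinuousWithinAt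
    rw [hR, nhdsWithin_biUnion hs]
    simp only [tendsto_iSup, eventually_iSup]
    exact ⟨fun i hi => (key i hi).1, fun i hi => (key i hi).2⟩
  · exact (Dp.biUnion hs fun i hi => (h i hi).pieceLo (G := Z) Subset.rfl (fun _ _ => rfl)
      (hc i hi) (fun _ _ _ _ _ => rfl) hz k k').monoA hR.subset

/-- Restriction to a set of times. -/
theorem Sol.restrict {U W : Set Y} {J J' : Set T} {R B : Set X} {β : T × X → Y} {S : Set Y}
    {g : T × X → T × X → ℝ} {c : ℝ} {Z : T × X → Y} (h : Sol U (pbP J R B β S g c) W Z)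
    (hJ : J' ⊆ J) : Sol U (pbP J' R B β S g c) W Z :=
  h.comp (p := pbP J' R B β S g c) id Prod.snd (fun _ k => ⟨hJ k.1, k.2⟩)
    (fun _ hz _ k => ⟨hz.1, k.2⟩) (fun _ _ k _ => ⟨hJ k.1, k.2⟩)
    (fun _ _ k _ _ x hx _ => ⟨x, ⟨k.1, hx.2⟩, rfl⟩) (fun _ _ _ _ _ _ k => k)
    (fun _ _ _ => ⟨continuousWithinAt_id, Eventually.of_forall fun _ => le_rfl⟩)
    (fun _ k => Or.inl ⟨⟨hJ k.1, k.2⟩, Ap.rfl⟩) fun _ _ _ => ⟨Dm.refl, Dm.pr2⟩

/-- A time slice of a product problem. -/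
theorem Sol.slice {U W : Set Y} {J : Set T} {R B : Set X} {β : T × X → Y} {S : Set Y}
    {g : T × X → T × X → ℝ} {c a c' : ℝ} {Z : T × X → Y} (h : Sol U (pbP J R B β S g c) W Z)
    {t : T} (ht : t ∈ J) (hg : ∀ x ∈ R, ∀ x' ∈ R, g (t, x) (t, x') ≤ a * dist x' x) :
    Sol U (pbP (univ : Set Unit) R B (fun z => β (t, z.2)) S (gs a 0) c') W
      fun z => Z (t, z.2) :=
  h.comp (p := pbP (univ : Set Unit) R B (fun z => β (t, z.2)) S (gs a 0) c') (fun _ => t)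
    Prod.snd (fun _ k => ⟨ht, k.2⟩) (fun _ _ _ k => ⟨trivial, k.2⟩) (fun _ _ k _ => ⟨ht, k.2⟩)
    (fun _ _ _ _ _ x hx _ => ⟨x, ⟨trivial, hx.2⟩, rfl⟩) (fun _ _ _ _ _ _ k => k)
    (fun z hz _ => ⟨(continuous_const.prodMk continuous_snd).continuousWithinAt, by
      filter_upwards [self_mem_nhdsWithin] with z' hz'
      simpa [pbP, gs] using hg z.2 hz.2 z'.2 hz'.2⟩)
    (fun _ k => Or.inl ⟨⟨ht, k.2⟩, Ap.rfl⟩) fun _ _ _ => ⟨Dm.const _, Dm.pr2⟩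

/-- A static solution as a constant family. -/
theorem Sol.const {U W : Set Y} {R B : Set X} {β : Unit × X → Y} {S : Set Y} {a c c' : ℝ}
    {Z : Unit × X → Y} (h : Sol U (pbP univ R B β S (gs a 0) c) W Z) (J : Set T) :
    Sol U (pbP J R B (fun z => β ((), z.2)) S (gs a 0) c') W fun z => Z ((), z.2) :=
  h.comp (p := pbP J R B (fun z => β ((), z.2)) S (gs a 0) c') (fun _ => ())
    Prod.snd (fun _ k => ⟨trivial, k.2⟩) (fun _ hz _ k => ⟨hz.1, k.2⟩)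
    (fun _ _ k _ => ⟨trivial, k.2⟩) (fun _ _ k _ _ x hx _ => ⟨x, ⟨k.1, hx.2⟩, rfl⟩)
    (fun _ _ _ _ _ _ k => k)
    (fun _ _ _ => ⟨(continuous_const.prodMk continuous_snd).continuousWithinAt,
      Eventually.of_forall fun _ => by simp [pbP, gs]⟩)
    (fun _ k => Or.inl ⟨⟨trivial, k.2⟩, Ap.rfl⟩) fun _ _ _ => ⟨Dm.const _, Dm.pr2⟩

/-- Transport of a static solution by a bijection of the targets. -/
theorem Sol.chart {U W : Set Y} {R B : Set X} {β : Unit × X → Y} {S : Set Y} {a c : ℝ}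
    {Z : Unit × X → Y} (h : Sol U (pbP univ R B β S (gs a 0) c) W Z) (ha : 0 ≤ a)
    {R' B' : Set X'} {φ : X' → X} (hφ : BijOn φ R' R) (hB : ∀ x ∈ B', φ x ∈ B) {L : ℝ}
    (hL : ∀ x ∈ R', ∀ x' ∈ R', dist (φ x) (φ x') ≤ L * dist x x') {β' : Unit × X' → Y}
    (hβ : ∀ x ∈ B', Ap U (β' ((), x)) (β ((), φ x))) {a' c' : ℝ} (ha' : a * L ≤ a')
    (hL' : ∃ L' : ℝ, ∀ x ∈ R', ∀ x' ∈ R', dist x x' ≤ L' * dist (φ x) (φ x')) :
    Sol U (pbP univ R' B' β' S (gs a' 0) c') W fun z => Z ((), φ z.2) := by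
  refine h.comp (p := pbP univ R' B' β' S (gs a' 0) c') (fun _ => ()) (fun z => φ z.2)
    (fun _ k => ⟨trivial, hφ.mapsTo k.2⟩) (fun _ _ _ k => k) (fun _ _ k _ => k)
    (fun _ _ _ _ _ x hx _ => ?_) (fun _ _ _ k1 k2 _ k => hφ.injOn k2.2 k1.2 k)
    (fun z hz _ => ⟨?_, ?_⟩) (fun z k => Or.inl ⟨⟨trivial, hB _ k.2⟩, hβ _ k.2⟩)
    fun _ _ _ => ⟨Dm.const _, hL'.elim fun _ a => Dm.toR (Dm.of_le fun w b v d => a _ d.2 _ b.2)⟩
  · obtain ⟨x', a1, a2⟩ := hφ.surjOn hx.2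
    exact ⟨x', ⟨trivial, a1⟩, a2⟩
  · refine continuousWithinAt_const.prodMk (tendsto_iff_dist_tendsto_zero.2
      (squeeze_zero' (g := fun w => L * dist w.2 z.2) (Eventually.of_forall fun _ => dist_nonneg)
        ?_ ?_))
    · filter_upwards [self_mem_nhdsWithin] with z' hz' using hL _ hz'.2 _ hz.2
    · have t1 : Tendsto (fun w : Unit × X' => w.2)
          (𝓝[(pbP univ R' B' β' S (gs a' 0) c').R] z) (𝓝 z.2) :=
        continuous_snd.continuousWithinAt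
      simpa using (tendsto_iff_dist_tendsto_zero.1 t1).const_mul L
  · filter_upwards [self_mem_nhdsWithin] with z' hz'
    have a1 := mul_le_mul_of_nonneg_left (hL _ hz'.2 _ hz.2) ha
    have a2 := mul_le_mul_of_nonneg_right ha' (dist_nonneg (x := z'.2) (y := z.2))
    simp only [pbP, gs, zero_mul, add_zero]
    linarith only [a1, a2]

/-- An explicit family of bijections is a solution. -/
theorem sol_of_bij {U W : Set Y} {J : Set T} {R B : Set X} {β : T × X → Y} {S : Set Y}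
    {a b c : ℝ} {Z : T × X → Y} (hb : ∀ t ∈ J, BijOn (fun x => Z (t, x)) R S)
    (hβ : ∀ t ∈ J, ∀ x ∈ B, Ap U (Z (t, x)) (β (t, x)))
    (hl : ∀ z ∈ J ×ˢ R, ∀ z' ∈ J ×ˢ R, dist (Z z') (Z z) ≤ gs a b z z')
    (hlo : ∀ z ∈ J ×ˢ R, Z z ∈ U →
      Dm (J ×ˢ R) (fun w => Z w ∈ U) (fun w => w.2) (fun w => (w.1, Z w)) z) :
    Sol U (pbP J R B β S (gs a b) c) W Z := by
  refine ⟨fun z hz _ => ⟨hz.1, (hb _ hz.1).mapsTo hz.2⟩,
    fun z hz k => hβ _ hz.1 _ hz.2 (Or.inl k), fun z hz k _ => hβ _ hz.1 _ hz.2 (Or.inr k),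
    fun t y k _ _ => ?_, fun t x x' k1 k2 _ _ k => (hb t k1.1).injOn k2.2 k1.2 k,
    fun z hz _ _ => ?_, fun z hz k _ => (hlo z hz k).imp fun _ _ a => a.1⟩
  · obtain ⟨x, a1, a2⟩ := (hb t k.1).surjOn k.2
    exact ⟨x, ⟨k.1, a1⟩, a2⟩
  · have k : ∀ᶠ z' in 𝓝[J ×ˢ R] z, dist (Z z') (Z z) ≤ gs a b z z' := by
      filter_upwards [self_mem_nhdsWithin] with z' hz' using hl z hz z' hz'
    refine ⟨tendsto_iff_dist_tendsto_zero.2
      (squeeze_zero' (Eventually.of_forall fun _ => dist_nonneg) k ?_), k⟩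
    have t1 : Continuous (gs a b z) := by unfold gs; fun_prop
    have t2 : gs a b z z = 0 := by simp [gs]
    exact t2 ▸ t1.continuousWithinAt

/-- Concatenation of two movies of length one into a movie of length one. -/
theorem Sol.cat {U : Set Y} (hU : IsOpen U) {R B : Set X} {β : X → Y} {S : Set Y} {a b c : ℝ}
    (hb : 0 ≤ b) {H1 H2 : ℝ × X → Y}
    (h1 : Sol U (pbP (Icc 0 1) R B (fun z => β z.2) S (gs a b) c) univ H1)
    (h2 : Sol U (pbP (Icc 0 1) R B (fun z => β z.2) S (gs a b) c) univ H2)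
    (he : ∀ x ∈ R, Ap U (H1 (1, x)) (H2 (0, x))) :
    Sol U (pbP (Icc 0 1) R B (fun z => β z.2) S (gs a (2 * b)) c) univ
      fun z => if z.1 ≤ 1 / 2 then H1 (2 * z.1, z.2) else H2 (2 * z.1 - 1, z.2) := by
  classical
  have _ := hU
  have _ := hb
  have s1 : Sol U (pbP (Icc 0 (1 / 2)) R ∅ (fun z => β z.2) S (gs a (2 * b)) c) univ
      fun z : ℝ × X => H1 (2 * z.1, z.2) := by
    have m : ∀ t ∈ Icc (0 : ℝ) (1 / 2), 2 * t ∈ Icc (0 : ℝ) 1 := fun t k =>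
      ⟨by linarith only [k.1], by linarith only [k.2]⟩
    refine h1.comp (p := pbP (Icc 0 (1 / 2)) R ∅ (fun z => β z.2) S (gs a (2 * b)) c)
      (fun t => 2 * t) Prod.snd (fun _ k => ⟨m _ k.1, k.2⟩) (fun _ hz _ k => ⟨hz.1, k.2⟩)
      (fun _ _ k _ => ⟨m _ k.1, k.2⟩) (fun _ _ k _ _ x hx _ => ⟨x, ⟨k.1, hx.2⟩, rfl⟩)
      (fun _ _ _ _ _ _ k => k) (fun z _ _ => ⟨Continuous.continuousWithinAt (by fun_prop),
        Eventually.of_forall fun z' => ?_⟩) (fun _ k => k.2.elim)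
      fun _ _ _ => ⟨Dm.refl.cmul 2, Dm.pr2⟩
    simp only [pbP, gs, Real.dist_eq]
    rw [← mul_sub, abs_mul, abs_two]
    exact le_of_eq (by ring)
  have s2 : Sol U (pbP (Icc (1 / 2) 1) R ∅ (fun z => β z.2) S (gs a (2 * b)) c) univ
      fun z : ℝ × X => H2 (2 * z.1 - 1, z.2) := by
    have m : ∀ t ∈ Icc (1 / 2 : ℝ) 1, 2 * t - 1 ∈ Icc (0 : ℝ) 1 := fun t k =>
      ⟨by linarith only [k.1], by linarith only [k.2]⟩
    refine h2.comp (p := pbP (Icc (1 / 2) 1) R ∅ (fun z => β z.2) S (gs a (2 * b)) c)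
      (fun t => 2 * t - 1) Prod.snd (fun _ k => ⟨m _ k.1, k.2⟩) (fun _ hz _ k => ⟨hz.1, k.2⟩)
      (fun _ _ k _ => ⟨m _ k.1, k.2⟩) (fun _ _ k _ _ x hx _ => ⟨x, ⟨k.1, hx.2⟩, rfl⟩)
      (fun _ _ _ _ _ _ k => k) (fun z _ _ => ⟨Continuous.continuousWithinAt (by fun_prop),
        Eventually.of_forall fun z' => ?_⟩) (fun _ k => k.2.elim)
      fun _ _ _ => ⟨(Dm.refl.cmul 2).sub (Dm.const 1), Dm.pr2⟩
    simp only [pbP, gs, Real.dist_eq]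
    rw [sub_sub_sub_cancel_right, ← mul_sub, abs_mul, abs_two]
    exact le_of_eq (by ring)
  have cl : ∀ {l r : ℝ} {z : ℝ × X}, z.2 ∈ R → z ∈ closure (Icc l r ×ˢ R) → z ∈ Icc l r ×ˢ R := by
    intro l r z k1 k2
    rw [closure_prod_eq, isClosed_Icc.closure_eq] at k2
    exact ⟨k2.1, k1⟩
  have s3 := s1.glue' (p := pbP (Icc 0 1) R ∅ (fun z => β z.2) S (gs a (2 * b)) c) s2
    (by
      simp only [pbP]
      rw [← union_prod, Icc_union_Icc_eq_Icc (by norm_num) (by norm_num)])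
    (fun z hz => cl hz.2) (fun z hz => cl hz.2)
    (fun t y _ => by
      simp only [pbP, mem_ofPred_eq]
      rw [← or_and_right, ← mem_union, Icc_union_Icc_eq_Icc (by norm_num) (by norm_num)])
    (fun z k1 k2 y k3 _ => by
      have e : z.1 = 1 / 2 := le_antisymm k1.1.2 k2.1.1
      have e1 : 2 * z.1 - 1 = 0 := by rw [e]; norm_num
      have e2 : 2 * z.1 = 1 := by rw [e]; norm_num
      simp only [e1]
      simp only [e2]
      exact ⟨fun k => (he _ k1.2 (Or.inl (k ▸ k3))).symm.trans k,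
        fun k => (he _ k1.2 (Or.inr (k ▸ k3))).trans k⟩)
    (fun t y k1 k2 k3 k4 => by
      obtain ⟨x, a1, a2⟩ := s1.ex t y k1 k3 k4
      exact ⟨x, a1, ⟨k2.1, a1.2⟩, a2⟩)
    (fun _ k => k.2.elim) (fun _ k => k.2.elim)
    (fun _ _ => Eventually.of_forall fun _ => le_rfl)
    (fun _ _ => Eventually.of_forall fun _ => le_rfl)
  have s4 := s3.congr_eq
    (Z' := fun z => if z.1 ≤ 1 / 2 then H1 (2 * z.1, z.2) else H2 (2 * z.1 - 1, z.2))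
    (fun _ k => k.2.elim) (fun z hz => by
      refine if_congr ⟨fun k => ⟨⟨hz.1.1, k⟩, hz.2⟩, fun k => k.1.2⟩ rfl rfl)
  refine s4.setB rfl (fun z hz => ?_) (fun _ _ _ => Iff.rfl)
    (fun _ _ => Eventually.of_forall fun _ => le_rfl)
  by_cases k : z.1 ≤ 1 / 2
  · simp only [if_pos k]
    exact h1.ap (2 * z.1, z.2) ⟨⟨by linarith only [hz.1.1], by linarith only [k]⟩, hz.2⟩
  · simp only [if_neg k]
    exact h2.ap (2 * z.1 - 1, z.2) ⟨⟨by linarith only [not_le.1 k, k], by linarith only [hz.1.2]⟩, hz.2⟩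

end Pool.Agent.Lib.MP_ecd4e3_gt.NB
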