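import Pool.Agent.Lib.MP_ecd4e3_gt.NB.Grid
import Pool.Agent.Lib.MP_ecd4e3_gt.NB.Sol

/-! Consequences of the boundary data for lattice boxes. -/

namespace Pool.Agent.Lib.MP_ecd4e3_gt.NB

open Set Filter Topology Metric MeasureTheory
open scoped NNReal ENNReal

variable {ι : Type} [Fintype ι] [DecidableEq ι] {Y : Type} [MetricSpace Y] {U : Set Y}
  {e : E ι → Y} {ok : ℤ → Prop} {B u K : ℝ} {T : ℤ} {lo sp : ℤ → Bx ι → ℝ}
  {P : ℤ → ℝ × E ι → Y}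

theorem BD.ok_le (h : BD U e ok B u K T lo sp P) {k j : ℤ} (hk : ok k) (hj : j ≤ k) : ok j :=
  Int.le_induction_down (motive := fun n _ => ok n) hk (fun n _ hn => h.okm n hn) j hj

theorem LB.cube_bd {k : ℤ} {Q : Bx ι} (hQ : LB k Q) {x : E ι} (hx : x ∈ Q.set) (hs : x ∈ Sk k) :
    ∃ G, Cube k G ∧ G.set ⊆ Q.set ∧ x ∈ G.bd := by
  obtain ⟨G, hG, h1, h2⟩ := hQ.exists_cube hx
  exact ⟨G, hG, h1, hG.bd_eq ▸ ⟨h2, hs⟩⟩

theorem LB.faceAt_bd {k : ℤ} {Q : Bx ι} (hQ : LB k Q) {x : E ι} (hx : x ∈ Q.bd) :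
    (faceAt k x).set ⊆ Q.bd := fun y hy => by
  refine ⟨faceAt_subset (fun i => ⟨(hQ i).1, (hQ i).2.1⟩) hx.1 hy, ?_⟩
  obtain ⟨i, hi⟩ := hx.2
  have : Lat k (x i) := hi.elim (fun a => a ▸ (hQ i).1) fun a => a ▸ (hQ i).2.1
  exact ⟨i, faceAt_lat hy this ▸ hi⟩

theorem LB.face_cube {k : ℤ} {Q F : Bx ι} (hQ : LB k Q) (hF : Face k F) (hs : F.set ⊆ Q.bd) :
    ∃ G, Cube k G ∧ G.set ⊆ Q.set ∧ F.set ⊆ G.bd := by
  have hm : F.mid ∈ F.set := Bx.mem_set.2 fun i => by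
    have := hF.le i
    constructor <;> simp only [Bx.mid] <;> linarith only [this]
  obtain ⟨G, hG, h1, h2⟩ := hQ.exists_cube (hs hm).1
  refine ⟨G, hG, h1, fun y hy => hG.bd_eq ▸ ⟨?_, hQ.bd_sk (hs hy)⟩⟩
  refine (Bx.subset_iff hF.le).2 (fun i => ?_) hy
  obtain ⟨a1, a2⟩ := Bx.mem_set.1 h2 i
  simp only [Bx.mid] at a1 a2
  have hp : (0 : ℝ) < 2 ^ k := by positivity
  rcases (hF i).2 with c | c
  · constructor <;> linarith only [a1, c, a2]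
  · constructor
    · by_contra hlt
      have := (hF i).1.gap (hG i).1 (not_le.1 hlt)
      linarith only [a1, c, hlt, this]
    · have := (hF i).1.gap (hG.lb i).2.1 (by linarith only [a2, hp, c])
      linarith only [c, this]

theorem BD.solface (h : BD U e ok B u K T lo sp P) {k : ℤ} (hk : ok k) {Q : Bx ι} (hQ : LB k Q)
    {t : ℝ} (ht : ∀ G, Cube k G → G.set ⊆ Q.set → lo k G ≤ t) {x : E ι} (hx : x ∈ Q.set)
    (hs : x ∈ Sk k) : (faceAt k x).set ⊆ Q.set ∧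
      ∃ t0 ≤ t, Sol U (pbF e t0 (faceAt k x).set K k) univ (P k) := by
  obtain ⟨G, hG, h1, h2⟩ := hQ.cube_bd hx hs
  exact ⟨faceAt_subset (fun i => ⟨(hQ i).1, (hQ i).2.1⟩) hx, lo k G, ht G hG h1,
    h.sol k G _ hk hG (face_faceAt k x) (hG.lb.faceAt_bd h2)⟩

theorem BD.solbd (h : BD U e ok B u K T lo sp P) (he : Function.Injective e) {k : ℤ} (hk : ok k)
    {Q : Bx ι} (hQ : LB k Q) {t0 : ℝ} (ht : ∀ G, Cube k G → G.set ⊆ Q.set → lo k G ≤ t0) :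
    Sol U (pbF e t0 Q.bd K k) univ (P k) := by
  have key : ∀ F ∈ {F | Face k F ∧ F.set ⊆ Q.bd}, Sol U (pbF e t0 F.set K k) univ (P k) := by
    rintro F ⟨hF, hs⟩
    obtain ⟨G, hG, h1, h2⟩ := hQ.face_cube hF hs
    exact (h.sol k G F hk hG hF h2).restrict (Ici_subset_Ici.2 (ht G hG h1))
  refine Sol.union (s := {F | Face k F ∧ F.set ⊆ Q.bd}) (q := fun F => pbF e t0 F.set K k)
    ((LB.finite_faces (k := k) Q).subset fun F hF => ⟨hF.1, hF.2.trans Q.bd_subset⟩) key ?_ ?_ ?_ ?_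
    (fun z hz => hz.2.elim) fun _ _ _ _ => Eventually.of_forall fun _ => le_rfl
  · ext z
    simp only [mem_iUnion]
    exact ⟨fun hz => ⟨faceAt k z.2, ⟨face_faceAt k _, hQ.faceAt_bd hz.2⟩, hz.1, mem_faceAt k _⟩,
      fun ⟨F, hF, hz⟩ => ⟨hz.1, hF.2 hz.2⟩⟩
  · intro F _ z _ hz
    exact (isClosed_Ici.prod F.isClosed_set).closure_subset hz
  · intro t y _
    refine ⟨?_, fun ⟨F, hF, hy⟩ => ⟨hy.1, image_mono hF.2 hy.2⟩⟩
    rintro ⟨h1, x, hx, rfl⟩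
    exact ⟨faceAt k x, ⟨face_faceAt k _, hQ.faceAt_bd hx⟩, h1, x, mem_faceAt k _, rfl⟩
  · rintro F hF F' hF' t y ⟨h1, x, hx, rfl⟩ ⟨-, x', hx', e'⟩ hU -
    obtain rfl := he e'
    obtain ⟨x'', h2, h3⟩ := (key (faceAt k x') ⟨face_faceAt k _, hQ.faceAt_bd (hF.2 hx)⟩).ex t (e x')
      ⟨h1, x', mem_faceAt k _, rfl⟩ hU trivial
    exact ⟨x'', ⟨h1, faceAt_subset hF.1.lat hx h2.2⟩, ⟨h1, faceAt_subset hF'.1.lat hx' h2.2⟩, h3⟩

theorem BD.pre (h : BD U e ok B u K T lo sp P) {k : ℤ} (hk : ok k) {Q : Bx ι} (hQ : LB k Q)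
    {t : ℝ} (ht : ∀ G, Cube k G → G.set ⊆ Q.set → lo k G ≤ t) {x : E ι} (hx : x ∈ Q.set)
    (hs : x ∈ Sk k) (hU : e x ∈ U) :
    ∃ x' ∈ Q.set, P k (t, x') = e x ∧ ∀ i, Lat k (x i) → x' i = x i := by
  obtain ⟨h1, t0, h2, h3⟩ := h.solface hk hQ ht hx hs
  obtain ⟨x', h4, h5⟩ := h3.ex t (e x) ⟨h2, x, mem_faceAt k x, rfl⟩ hU trivial
  exact ⟨x', h1 h4.2, h5, fun i hi => faceAt_lat h4.2 hi⟩

theorem BD.img (h : BD U e ok B u K T lo sp P) {k : ℤ} (hk : ok k) {Q : Bx ι} (hQ : LB k Q)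
    {t : ℝ} (ht : ∀ G, Cube k G → G.set ⊆ Q.set → lo k G ≤ t) {x : E ι} (hx : x ∈ Q.set)
    (hs : x ∈ Sk k) (hU : P k (t, x) ∈ U) :
    ∃ x' ∈ Q.set, P k (t, x) = e x' ∧ ∀ i, Lat k (x i) → x' i = x i := by
  obtain ⟨h1, t0, h2, h3⟩ := h.solface hk hQ ht hx hs
  obtain ⟨-, x', h4, h5⟩ := h3.maps (t, x) ⟨h2, mem_faceAt k x⟩ hU
  exact ⟨x', h1 h4, h5.symm, fun i hi => faceAt_lat h4 hi⟩

/-- Lattice vertices outside `U` have values outside `U`. -/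
theorem BD.vertex [Nonempty ι] (h : BD U e ok B u K T lo sp P) {k : ℤ} (hk : ok k) {Q : Bx ι}
    (hQ : LB k Q) {t : ℝ} (ht : ∀ G, Cube k G → G.set ⊆ Q.set → lo k G ≤ t) {x : E ι}
    (hx : x ∈ Q.set) (hv : ∀ i, Lat k (x i)) (hU : e x ∉ U) : P k (t, x) ∉ U := fun hP => by
  obtain ⟨x', -, h1, h2⟩ := h.img hk hQ ht hx ⟨Classical.arbitrary ι, hv _⟩ hP
  obtain rfl : x' = x := funext fun i => h2 i (hv i)
  exact hU (h1 ▸ hP)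

theorem BD.split' (h : BD U e ok B u K T lo sp P) {k : ℤ} (hk : ok k) {Q : Bx ι} (hQ : LB k Q)
    {t : ℝ} (ht : ∀ G, Cube k G → G.set ⊆ Q.set → sp k G ≤ t) {x : E ι} (hx : x ∈ Q.set)
    (hs : x ∈ Sk k) : Ap U (P k (t, x)) (P (k - 1) (t, x)) := by
  obtain ⟨G, hG, h1, h2⟩ := hQ.cube_bd hx hs
  exact h.split k G t hk hG (ht G hG h1) x h2

theorem BD.froz' (h : BD U e ok B u K T lo sp P) {k : ℤ} (hk : ok k) {Q : Bx ι} (hQ : LB k Q)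
    {t t' : ℝ} (ht : ∀ G, Cube k G → G.set ⊆ Q.set → lo k G ≤ t ∧ lo k G ≤ t') {i : ℤ}
    (h1 : t ∈ Icc (B ^ i * u) (B ^ (i + 1))) (h2 : t' ∈ Icc (B ^ i * u) (B ^ (i + 1)))
    {x : E ι} (hx : x ∈ Q.set) (hs : x ∈ Sk k) : Ap U (P k (t, x)) (P k (t', x)) := by
  obtain ⟨G, hG, h3, h4⟩ := hQ.cube_bd hx hs
  exact h.froz k G i t t' hk hG (ht G hG h3).1 (ht G hG h3).2 h1 h2 x h4

theorem BD.idn' (h : BD U e ok B u K T lo sp P) {k : ℤ} (hk : ok k) {Q : Bx ι} (hQ : LB k Q)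
    {t : ℝ} (ht : B ^ T ≤ t) {x : E ι} (hx : x ∈ Q.set) (hs : x ∈ Sk k) :
    Ap U (P k (t, x)) (e x) := by
  obtain ⟨G, hG, -, h2⟩ := hQ.cube_bd hx hs
  exact h.idn k G t hk hG ht x h2

omit [DecidableEq ι] in
theorem Dm.nm {α γ : Type} [TopologicalSpace α] [PseudoMetricSpace γ] {R : Set α} {P : α → Prop}
    {F : α → E ι} {G : α → γ} {z : α} (h : Dm R P F G z) (Q : Bx ι) :
    Dm R P (fun w => Q.nm (F w)) G z :=
  Dm.pi fun i => ((((h.apply i).cmul 2).sub (Dm.const _)).sub (Dm.const _)).divc _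

omit [DecidableEq ι] in
theorem Dm.af {α γ : Type} [TopologicalSpace α] [PseudoMetricSpace γ] {R : Set α} {P : α → Prop}
    {F : α → E ι} {G : α → γ} {z : α} (h : Dm R P F G z) (Q : Bx ι) :
    Dm R P (fun w => Q.af (F w)) G z :=
  Dm.pi fun i => (Dm.const _).add ((h.apply i).cmul _)

theorem Dm.unaf {α γ : Type} [TopologicalSpace α] [PseudoMetricSpace γ] {R : Set α} {P : α → Prop}
    {F : α → E ι} {G : α → γ} {z : α} {Q : Bx ι} (hQ : Q.Pos)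
    (h : Dm R P (fun w => Q.af (F w)) G z) : Dm R P F G z :=
  (h.nm Q).congrL fun _ _ => (hQ.nm_af _).symm

theorem Dm.unnm {α γ : Type} [TopologicalSpace α] [PseudoMetricSpace γ] {R : Set α} {P : α → Prop}
    {F : α → E ι} {G : α → γ} {z : α} {Q : Bx ι} (hQ : Q.Pos)
    (h : Dm R P (fun w => Q.nm (F w)) G z) : Dm R P F G z :=
  (h.af Q).congrL fun _ _ => (hQ.af_nm _).symm

theorem BD.path0 [Nonempty ι] (h : BD U e ok B u K T lo sp P) (he : Function.Injective e) {k : ℤ}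
    (hk : ok k) {Q : Bx ι} (hQ : LB k Q) {t0 t1 S : ℝ} (hS : ∀ i, Q.sd i ≤ S)
    (ht : ∀ G, Cube k G → G.set ⊆ Q.set → lo k G ≤ t0) {T' : Type} [MetricSpace T'] {J : Set T'}
    {π : T' → ℝ} (hπ : ∀ w ∈ J, π w ∈ Icc t0 t1) {b : T' → T' → ℝ}
    (hl : ∀ w ∈ J, ∀ w' ∈ J, |π w' - π w| ≤ b w w') (hb : ∀ w, Continuous (b w))
    (hb0 : ∀ w, b w w = 0) (β0 : T' × E ι → Y) {g : T' × E ι → T' × E ι → ℝ}
    (hg : ∀ z z', g z z' = K * t1 * S / 2 * dist z'.2 z.2 + K * 2 ^ k * b z.1 z'.1)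
    {L : ℝ} (hL : ∀ w w', b w w' ≤ L * dist w' w) :
    Sol U (pbP J (sphere 0 1) ∅ β0 (e '' Q.bd) g 1) univ fun w => P k (π w.1, Q.af w.2) := by
  have hb' := hQ.pos.bijOn_af_bd
  have hS0 : 0 ≤ S := (sub_pos.2 (hQ.pos (Classical.arbitrary ι))).le.trans (hS _)
  have ht0 : 0 < t0 := by
    obtain ⟨G, hG, h1, -⟩ := hQ.exists_cube (x := Q.lo)
      (Bx.mem_set.2 fun i => ⟨le_rfl, (hQ.pos i).le⟩)
    exact (h.pos k G hk hG).trans_le (ht G hG h1)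
  refine (h.solbd he hk hQ ht).comp π (fun w => Q.af w.2)
    (fun z hz => ⟨(hπ _ hz.1).1, hb'.mapsTo hz.2⟩) (fun z hz _ h1 => ⟨hz.1, h1.2⟩)
    (fun t y hy _ => ⟨(hπ _ hy.1).1, hy.2⟩) (fun t y hy _ _ x hx _ => ?_)
    (fun t x x' hx hx' _ h1 => hb'.injOn hx'.2 hx.2 h1) (fun z hz _ => ⟨?_, ?_⟩)
    (fun z hz => hz.2.elim) fun z _ _ => ⟨Dm.of_le (K := L) fun w a v d =>
      (hl _ a.1 _ d.1).trans (hL _ _), Dm.unaf hQ.pos Dm.pr2⟩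
  · obtain ⟨x', h1, h2⟩ := hb'.surjOn hx.2
    exact ⟨x', ⟨hy.1, h1⟩, h2⟩
  · have c1 : ContinuousWithinAt π J z.1 := by
      refine tendsto_iff_dist_tendsto_zero.2 (squeeze_zero' (g := b z.1)
        (Eventually.of_forall fun _ => dist_nonneg) ?_ ?_)
      · filter_upwards [self_mem_nhdsWithin] with w hw using hl _ hz.1 w hw
      · exact hb0 z.1 ▸ ((hb z.1).tendsto z.1).mono_left nhdsWithin_le_nhds
    have c2 : Continuous Q.af := continuous_pi fun i => by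
      unfold Bx.af
      fun_prop
    exact (c1.comp continuous_fst.continuousWithinAt fun w hw => hw.1).prodMk
      (c2.comp continuous_snd).continuousWithinAt
  · filter_upwards [self_mem_nhdsWithin] with z' hz'
    change K * (π z.1 * dist (Q.af z'.2) (Q.af z.2) + 2 ^ k * |π z'.1 - π z.1|) ≤ g z z'
    have a1 := Bx.af_lip hQ.pos hS0 hS z'.2 z.2
    have a2 := hl _ hz.1 _ hz'.1
    obtain ⟨a3, a4⟩ := hπ _ hz.1
    have a5 : π z.1 * dist (Q.af z'.2) (Q.af z.2) ≤ t1 * (S / 2 * dist z'.2 z.2) :=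
      mul_le_mul a4 a1 dist_nonneg (by linarith only [ht0, a3, a4])
    have a6 : (2 : ℝ) ^ k * |π z'.1 - π z.1| ≤ 2 ^ k * b z.1 z'.1 :=
      mul_le_mul_of_nonneg_left a2 (by positivity)
    refine (mul_le_mul_of_nonneg_left (add_le_add a5 a6) (zero_le_one.trans h.pK)).trans_eq ?_
    rw [hg]
    ring

/-- The data on the model sphere along a path of times. -/
theorem BD.path [Nonempty ι] (h : BD U e ok B u K T lo sp P) (he : Function.Injective e) {k : ℤ}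
    (hk : ok k) {Q : Bx ι} (hQ : LB k Q) {t0 t1 S : ℝ} (hS : ∀ i, Q.sd i ≤ S)
    (ht : ∀ G, Cube k G → G.set ⊆ Q.set → lo k G ≤ t0) {T' : Type} [MetricSpace T'] {J : Set T'}
    {π : T' × ℝ → ℝ} {p2 p3 : ℝ} (hπ : ∀ w ∈ J ×ˢ Icc (0 : ℝ) 1, π w ∈ Icc t0 t1)
    (hl : ∀ w ∈ J ×ˢ Icc (0 : ℝ) 1, ∀ w' ∈ J ×ˢ Icc (0 : ℝ) 1,
      |π w' - π w| ≤ p2 * |w'.2 - w.2| + p3 * dist w'.1 w.1) (β0 : (T' × ℝ) × E ι → Y) :
    Sol U (pbP (J ×ˢ Icc (0 : ℝ) 1) (sphere 0 1) ∅ β0 (e '' Q.bd)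
        (gm (K * t1 * S / 2) (K * 2 ^ k * p2) (K * 2 ^ k * p3)) 1) univ
      fun w => P k (π w.1, Q.af w.2) :=
  h.path0 he hk hQ hS ht hπ (b := fun w w' => p2 * |w'.2 - w.2| + p3 * dist w'.1 w.1) hl
    (fun _ => by fun_prop) (fun _ => by simp) β0 (fun _ _ => by
      simp only [gm]
      ring) (L := |p2| + |p3|) fun w w' => by
      have a1 : |w'.2 - w.2| ≤ dist w' w := le_max_right _ _
      have a2 : dist w'.1 w.1 ≤ dist w' w := le_max_left _ _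
      rw [add_mul]
      exact add_le_add (mul_le_mul (le_abs_self _) a1 (abs_nonneg _) (abs_nonneg _))
        (mul_le_mul (le_abs_self _) a2 dist_nonneg (abs_nonneg _))

/-- The same for one real parameter. -/
theorem BD.path1 [Nonempty ι] (h : BD U e ok B u K T lo sp P) (he : Function.Injective e) {k : ℤ}
    (hk : ok k) {Q : Bx ι} (hQ : LB k Q) {t0 t1 S : ℝ} (hS : ∀ i, Q.sd i ≤ S)
    (ht : ∀ G, Cube k G → G.set ⊆ Q.set → lo k G ≤ t0) {π : ℝ → ℝ} {p2 : ℝ}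
    (hπ : ∀ r ∈ Icc (0 : ℝ) 1, π r ∈ Icc t0 t1)
    (hl : ∀ r ∈ Icc (0 : ℝ) 1, ∀ r' ∈ Icc (0 : ℝ) 1, |π r' - π r| ≤ p2 * |r' - r|)
    (β0 : ℝ × E ι → Y) :
    Sol U (pbP (Icc (0 : ℝ) 1) (sphere 0 1) ∅ β0 (e '' Q.bd)
        (gs (K * t1 * S / 2) (K * 2 ^ k * p2)) 1) univ fun w => P k (π w.1, Q.af w.2) :=
  h.path0 he hk hQ hS ht hπ (b := fun r r' => p2 * |r' - r|) hl
    (fun _ => by fun_prop) (fun _ => by simp) β0 (fun _ _ => by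
      simp only [gs, Real.dist_eq]
      ring) (L := p2) fun _ _ => le_rfl

/-- Change of the ambient space by an isometric embedding. -/
theorem BD.map (h : BD U e ok B u K T lo sp P) (hU : IsOpen U) {Y' : Type} [MetricSpace Y']
    {U' : Set Y'} {φ : Y → Y'} (hφ : Isometry φ) (hm : ∀ y, φ y ∈ U' ↔ y ∈ U) :
    BD U' (φ ∘ e) ok B u K T lo sp fun k z => φ (P k z) where
  okm := h.okm
  pK := h.pK
  pos := h.pos
  loT := h.loT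
  sol k G F hk hG hF hs := by
    refine (h.sol k G F hk hG hF hs).post hU ⟨fun _ hz => hz.2.elim, fun _ hz => hz.2.elim, one_pos⟩
      (fun _ => φ) (l1 := 1) (l2 := 0) zero_le_one rfl Subset.rfl (fun _ => hm)
      (fun _ hz => hz.2.elim) (fun t y' _ => ?_) (fun _ _ _ _ _ _ h1 => hφ.injective h1)
      (fun _ _ _ _ _ => trivial) (fun _ _ _ _ => Eventually.of_forall fun w => ?_)
      (fun _ _ => Eventually.of_forall fun w => ?_) fun _ _ _ _ => Dm.toR (Dm.refl.uniso hφ)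
    · exact ⟨fun ⟨h1, x, hx, h2⟩ => ⟨e x, ⟨h1, x, hx, rfl⟩, h2⟩,
        fun ⟨y, ⟨h1, x, hx, h2⟩, h3⟩ => ⟨h1, x, hx, (congrArg φ h2).trans h3⟩⟩
    · rw [hφ.dist_eq, one_mul, zero_mul, add_zero]
    · rw [one_mul, zero_mul, add_zero]
      exact le_rfl
  split k G t hk hG ht x hx := (h.split k G t hk hG ht x hx).map hm
  froz k G i t t' hk hG h1 h2 h3 h4 x hx := (h.froz k G i t t' hk hG h1 h2 h3 h4 x hx).map hm
  idn k G t hk hG ht x hx := (h.idn k G t hk hG ht x hx).map hm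

theorem Bx.wall_L {Q : Bx ι} {j : ι} {x : E ι} (hx : x ∈ (Q.L j).set) (h : x j = Q.mid j) :
    x ∈ (Q.L j).bd := ⟨hx, j, Or.inr (by simp [Bx.L, h])⟩

theorem Bx.wall_R {Q : Bx ι} {j : ι} {x : E ι} (hx : x ∈ (Q.R j).set) (h : x j = Q.mid j) :
    x ∈ (Q.R j).bd := ⟨hx, j, Or.inl (by simp [Bx.R, h])⟩

theorem Bx.Pos.bd_half {Q : Bx ι} (h : Q.Pos) (j : ι) {x : E ι} (hx : x ∈ Q.bd) :
    x ∈ (Q.L j).bd ∨ x ∈ (Q.R j).bd := by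
  obtain ⟨h1, i, hi⟩ := hx
  have hj := h j
  have hL : x j ≤ Q.mid j → x ∈ (Q.L j).set := fun a => h.set_L j ▸ ⟨h1, a⟩
  have hR : Q.mid j ≤ x j → x ∈ (Q.R j).set := fun a => h.set_R j ▸ ⟨h1, a⟩
  by_cases hij : i = j
  · subst hij
    rcases hi with hi | hi
    · exact Or.inl ⟨hL (by rw [hi, Bx.mid]; linarith only [hj]), i, Or.inl hi⟩
    · exact Or.inr ⟨hR (by rw [hi, Bx.mid]; linarith only [hj]), i, Or.inr hi⟩
  · rcases le_total (x j) (Q.mid j) with a | a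
    · exact Or.inl ⟨hL a, i, by simpa [Bx.L, hij] using hi⟩
    · exact Or.inr ⟨hR a, i, by simpa [Bx.R, hij] using hi⟩

open Classical in
/-- Gluing two solutions along the wall between the halves of a lattice box. -/
theorem BD.glue_half (h : BD U e ok B u K T lo sp P) (he : Function.Injective e) {k : ℤ}
    (hk : ok k) {Q : Bx ι} (hQ : LB k Q) {j : ι} (hm : Lat k (Q.mid j)) {t : ℝ}
    (ht : ∀ G, Cube k G → G.set ⊆ Q.set → lo k G ≤ t)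
    {T' X : Type} [MetricSpace T'] [MetricSpace X] {J : Set T'} {R R1 R2 Bd B1 B2 : Set X}
    {y : X → E ι} (hR : R = R1 ∪ R2) (c1 : IsClosed R1) (c2 : IsClosed R2)
    (hy : BijOn y R Q.set) (m1 : ∀ x ∈ R, x ∈ R1 ↔ y x ∈ (Q.L j).set)
    (m2 : ∀ x ∈ R, x ∈ R2 ↔ y x ∈ (Q.R j).set) (b0 : ∀ x ∈ Bd, x ∈ R ∧ y x ∈ Q.bd)
    (b1 : ∀ x ∈ R1, y x ∈ (Q.L j).bd → x ∈ B1) (b2 : ∀ x ∈ R2, y x ∈ (Q.R j).bd → x ∈ B2)
    {β β1 β2 : T' × X → Y} (e0 : ∀ z ∈ J ×ˢ Bd, Ap U (β z) (P k (t, y z.2)))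
    (e1 : ∀ z ∈ J ×ˢ (B1 ∩ R1), Ap U (β1 z) (P k (t, y z.2)))
    (e2 : ∀ z ∈ J ×ˢ (B2 ∩ R2), Ap U (β2 z) (P k (t, y z.2)))
    {g : T' × X → T' × X → ℝ} {c c1' c2' : ℝ} {W : Set Y} {Z1 Z2 : T' × X → Y}
    (h1 : Sol U (pbP J R1 B1 β1 (e '' (Q.L j).set) g c1') W Z1)
    (h2 : Sol U (pbP J R2 B2 β2 (e '' (Q.R j).set) g c2') W Z2) :
    Sol U (pbP J R Bd β (e '' Q.set) g c) W fun z => if z.2 ∈ R1 then Z1 z else Z2 z := by
  have hp := hQ.pos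
  have sL := hp.set_L j
  have sR := hp.set_R j
  have r1 : R1 ⊆ R := hR ▸ subset_union_left
  have wall : ∀ w ∈ (Q.L j).set, w ∈ (Q.R j).set → w j = Q.mid j := fun w a1 a2 =>
    le_antisymm (sL ▸ a1).2 (sR ▸ a2).2
  have ov : ∀ x ∈ R1, x ∈ R2 → x ∈ B1 ∧ x ∈ B2 := fun x a1 a2 => by
    have a3 := (m1 x (r1 a1)).1 a1
    have a4 := (m2 x (r1 a1)).1 a2
    exact ⟨b1 x a1 (Bx.wall_L a3 (wall _ a3 a4)), b2 x a2 (Bx.wall_R a4 (wall _ a3 a4))⟩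
  refine (Sol.glue (p := pbP J R Bd β (e '' Q.set) g c) h1 h2 ?_ (fun z hz a => ?_)
    (fun z hz a => ?_) (fun s w _ => ?_) (fun z a1 a2 => ?_) ?_ (fun z hz => ?_)
    (fun _ _ => Eventually.of_forall fun _ => le_rfl)
    fun _ _ => Eventually.of_forall fun _ => le_rfl).congr_eq
      (fun z hz => ⟨hz.1, (b0 _ hz.2).1⟩) fun z hz => if_congr ⟨fun a => ⟨hz.1, a⟩, fun a => a.2⟩ rfl rfl
  · exact hR ▸ prod_union
  · exact ⟨hz.1, c1.closure_subset (closure_prod_eq.subset a).2⟩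
  · exact ⟨hz.1, c2.closure_subset (closure_prod_eq.subset a).2⟩
  · refine ⟨?_, fun a => a.elim (fun a => ⟨a.1, image_mono (sL ▸ inter_subset_left) a.2⟩)
      fun a => ⟨a.1, image_mono (sR ▸ inter_subset_left) a.2⟩⟩
    rintro ⟨a, x, hx, rfl⟩
    exact (le_total (x j) (Q.mid j)).imp (fun b => ⟨a, x, sL ▸ ⟨hx, b⟩, rfl⟩)
      fun b => ⟨a, x, sR ▸ ⟨hx, b⟩, rfl⟩
  · obtain ⟨a3, a4⟩ := ov _ a1.2 a2.2
    exact ⟨⟨a1.1, a3⟩, ⟨a1.1, a4⟩, (e1 z ⟨a1.1, a3, a1.2⟩).trans (e2 z ⟨a1.1, a4, a2.2⟩).symm⟩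
  · rintro s _ ⟨hs, w, hw, rfl⟩ ⟨-, w', hw', e'⟩ hU
    obtain rfl := he e'
    have a0 := wall _ hw hw'
    obtain ⟨x', a1, a2, a3⟩ := h.pre hk hQ ht (sL ▸ hw).1 ⟨j, a0 ▸ hm⟩ hU
    obtain ⟨x, hx, rfl⟩ := hy.surjOn a1
    have a4 : y x j = Q.mid j := (a3 j (a0 ▸ hm)).trans a0
    have a5 : x ∈ R1 := (m1 x hx).2 (sL ▸ ⟨a1, a4.le⟩)
    have a6 : x ∈ R2 := (m2 x hx).2 (sR ▸ ⟨a1, a4.ge⟩)
    exact ⟨x, ⟨hs, a5⟩, ⟨hs, a6⟩,
      (e1 (s, x) ⟨hs, (ov x a5 a6).1, a5⟩ (Or.inr (a2 ▸ hU))).trans a2⟩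
  · obtain ⟨a1, a2⟩ := b0 _ hz.2
    refine (hp.bd_half j a2).imp (fun a => ?_) fun a => ?_
    · have a3 := (m1 _ a1).2 a.1
      have a4 := b1 _ a3 a
      exact ⟨⟨hz.1, a4⟩, ⟨hz.1, a3⟩, (e0 z hz).trans (e1 z ⟨hz.1, a4, a3⟩).symm⟩
    · have a3 := (m2 _ a1).2 a.1
      have a4 := b2 _ a3 a
      exact ⟨⟨hz.1, a4⟩, ⟨hz.1, a3⟩, (e0 z hz).trans (e2 z ⟨hz.1, a4, a3⟩).symm⟩

end Pool.Agent.Lib.MP_ecd4e3_gt.NB
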