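import Pool.Agent.Lib.MP_ecd4e3_gt.NB.FVol
import Pool.Agent.Lib.MP_ecd4e3_gt.NB.GBox

/-! Clearing lattice points out of an open set. -/

namespace Pool.Agent.Lib.MP_ecd4e3_gt.NB

open Set Filter Topology Metric MeasureTheory
open scoped NNReal ENNReal

variable {ι : Type} [Fintype ι] [DecidableEq ι] [Nonempty ι]

set_option linter.unusedSectionVars false

/-- The union of the enlarged Whitney balls. -/
def fat (R : ℝ) (U : Set (E ι)) : Set (E ι) := ⋃ x ∈ U, ball x (R * infDist x Uᶜ)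

theorem isOpen_fat (R : ℝ) (U : Set (E ι)) : IsOpen (fat R U) :=
  isOpen_biUnion fun _ _ => isOpen_ball

theorem mem_fat {R : ℝ} {U : Set (E ι)} {x z : E ι} (hx : x ∈ U)
    (h : dist z x < R * infDist x Uᶜ) : z ∈ fat R U := mem_biUnion hx h

theorem compl_nonempty {U : Set (E ι)} (h : volume U ≠ ∞) : Uᶜ.Nonempty := by
  refine nonempty_compl.2 fun hU => h ?_
  rw [hU]
  exact measure_univ_of_isAddLeftInvariant _

theorem clr_pos {U : Set (E ι)} (hU : IsOpen U) (hn : Uᶜ.Nonempty) {x : E ι} (hx : x ∈ U) :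
    0 < infDist x Uᶜ := (hU.isClosed_compl.notMem_iff_infDist_pos hn).1 fun h => h hx

theorem fat_vol {R : ℝ} (hR : 0 ≤ R) {U : Set (E ι)} (hU : IsOpen U) (h : volume U ≠ ∞) :
    volume (fat R U) ≤ ENNReal.ofReal ((2 * R + 3) ^ Fintype.card ι) * volume U := by
  have hn := compl_nonempty h
  have hbd : ∀ x ∈ U, infDist x Uᶜ ≤ max 1 (volume U).toReal := by
    intro x hx
    have h0 := clr_pos hU hn hx
    have h1 : volume (ball x (infDist x Uᶜ)) ≤ volume U :=
      measure_mono ball_infDist_compl_subset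
    rw [Real.volume_pi_ball _ h0, ENNReal.ofReal_le_iff_le_toReal h] at h1
    rcases le_total (infDist x Uᶜ) 1 with h2 | h2
    · exact h2.trans (le_max_left _ _)
    · have h3 := le_self_pow₀ (show (1 : ℝ) ≤ 2 * infDist x Uᶜ by linarith only [h0, h2])
        (Fintype.card_ne_zero (α := ι))
      exact le_trans (by linarith only [h0, h1, h3]) (le_max_right _ _)
  obtain ⟨u, hu, hd, hc⟩ := Vitali.exists_disjoint_subfamily_covering_enlargement
    (fun x : E ι => ball x (infDist x Uᶜ)) U (fun x => infDist x Uᶜ) 2 one_lt_two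
    (fun _ _ => infDist_nonneg) _ hbd fun x hx => nonempty_ball.2 (clr_pos hU hn hx)
  have hcount : u.Countable := hd.countable_of_isOpen (fun _ _ => isOpen_ball)
    fun x hx => nonempty_ball.2 (clr_pos hU hn (hu hx))
  have hsub : fat R U ⊆ ⋃ b ∈ u, ball b ((2 * R + 3) * infDist b Uᶜ) := by
    intro z hz
    obtain ⟨a, ha, hz⟩ := mem_iUnion₂.1 hz
    obtain ⟨b, hb, ⟨w, h1, h2⟩, h3⟩ := hc a ha
    refine mem_biUnion hb ?_
    rw [mem_ball] at hz h1 h2 ⊢
    have h4 := dist_triangle4 z a w b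
    rw [dist_comm a w] at h4
    have h5 := mul_le_mul_of_nonneg_left h3 hR
    linarith only [hz, h3, h1, h2, h4, h5]
  calc volume (fat R U) ≤ ∑' b : u, volume (ball (b : E ι) ((2 * R + 3) * infDist b.1 Uᶜ)) :=
        (measure_mono hsub).trans (measure_biUnion_le _ hcount _)
    _ = ∑' b : u, ENNReal.ofReal ((2 * R + 3) ^ Fintype.card ι) *
          volume (ball (b : E ι) (infDist b.1 Uᶜ)) := by
        refine tsum_congr fun b => ?_
        have h0 := clr_pos hU hn (hu b.2)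
        rw [Real.volume_pi_ball _ h0, Real.volume_pi_ball _ (by positivity),
          ← ENNReal.ofReal_mul (by positivity), ← mul_pow, mul_left_comm]
    _ = ENNReal.ofReal ((2 * R + 3) ^ Fintype.card ι) *
          volume (⋃ b ∈ u, ball b (infDist b Uᶜ)) := by
        rw [ENNReal.tsum_mul_left, measure_biUnion hcount hd fun _ _ => measurableSet_ball]
    _ ≤ _ := by
        gcongr
        exact iUnion₂_subset fun _ _ => ball_infDist_compl_subset

theorem fat_pre {U : Set (E ι)} (hn : Uᶜ.Nonempty) {A : E ι → E ι} (hA : Function.Bijective A)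
    (h : ∀ x y, dist (A x) (A y) ≤ 5 / 4 * dist x y ∧ 3 / 4 * dist x y ≤ dist (A x) (A y)) :
    fat 130 (A ⁻¹' U) ⊆ A ⁻¹' fat 220 U := by
  intro z hz
  obtain ⟨x, hx, hz⟩ := mem_iUnion₂.1 hz
  have h1 : 3 / 4 * infDist x (A ⁻¹' U)ᶜ ≤ infDist (A x) Uᶜ := by
    refine (le_infDist hn).2 fun y hy => ?_
    obtain ⟨w, rfl⟩ := hA.2 y
    have h2 : infDist x (A ⁻¹' U)ᶜ ≤ dist x w := infDist_le_dist_of_mem hy
    linarith only [(h x w).2, h2]
  rw [mem_ball] at hz
  refine mem_fat hx ?_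
  linarith only [(h z x).1, infDist_nonneg (x := A x) (s := Uᶜ), hz, h1]

theorem clr_sep {j : ℤ} {v w : E ι} (hv : ∀ i, Lat j (v i)) (hw : ∀ i, Lat j (w i)) (h : v ≠ w) :
    2 ^ j ≤ dist v w := by
  obtain ⟨i, hi⟩ := Function.ne_iff.1 h
  refine le_trans ?_ (dist_le_pi_dist v w i)
  rw [Real.dist_eq, le_abs]
  rcases lt_or_gt_of_ne hi with h1 | h1
  · right; linarith only [(hv i).gap (hw i) h1, h1]
  · left; linarith only [(hw i).gap (hv i) h1, h1]

theorem clr_sep' {a b : ℤ} {v w : E ι} (hv : ∀ i, Lat a (v i)) (hw : ∀ i, Lat b (w i))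
    (h : v ≠ w) (h' : dist v w < 2 ^ b) : 2 ^ a ≤ dist v w := by
  rcases le_total a b with h1 | h1
  · exact clr_sep hv (fun i => (hw i).of_le h1) h
  · exact absurd (clr_sep (fun i => (hv i).of_le h1) hw h) (not_le.2 h')

/-- A bump of height `e` supported in the ball of radius `10 r`. -/
noncomputable def clrB (r : ℝ) (v e x : E ι) : E ι := max 0 (1 - dist x v / (10 * r)) • e

theorem clrB_self (r : ℝ) (v e : E ι) : clrB r v e v = e := by simp [clrB]

theorem clrB_out {r : ℝ} (hr : 0 < r) {v x : E ι} (e : E ι) (h : x ∉ ball v (10 * r)) :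
    clrB r v e x = 0 := by
  rw [mem_ball, not_lt] at h
  rw [clrB, max_eq_left, zero_smul]
  rw [sub_nonpos, le_div_iff₀ (by positivity)]
  linarith only [h]

theorem clrB_lip {r : ℝ} (hr : 0 < r) (v : E ι) {e : E ι} (he : ‖e‖ ≤ r) (x x' : E ι) :
    dist (clrB r v e x) (clrB r v e x') ≤ 1 / 10 * dist x x' := by
  have h1 : |max 0 (1 - dist x v / (10 * r)) - max 0 (1 - dist x' v / (10 * r))| ≤
      dist x x' / (10 * r) := by
    rw [max_comm 0, max_comm 0]
    refine (abs_max_sub_max_le_abs _ _ _).trans ?_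
    rw [sub_sub_sub_cancel_left, ← sub_div, abs_div, abs_of_pos (show 0 < 10 * r by positivity),
      abs_sub_comm]
    gcongr
    exact abs_dist_sub_le _ _ _
  rw [dist_eq_norm, clrB, clrB, ← sub_smul, norm_smul, Real.norm_eq_abs]
  refine (mul_le_mul h1 he (norm_nonneg _) (by positivity)).trans_eq ?_
  field_simp

theorem exists_clear {U : Set (E ι)} (hU : IsOpen U) (hn : Uᶜ.Nonempty) :
    ∃ Φ : E ι → E ι, Function.Bijective Φ ∧ (∀ x y, dist (Φ x) (Φ y) ≤ 2 * dist x y) ∧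
      (∀ x y, dist x y ≤ 2 * dist (Φ x) (Φ y)) ∧
      Φ ⁻¹' U ⊆ fat 130 U ∧ ∀ (k : ℤ) (Q : Bx ι), BX k Q → ∀ v ∈ Q.set,
        (∀ i, Lat (k - 1) (v i)) → Φ v ∈ U → Q.set ⊆ fat 130 U := by
  classical
  choose y hy hy' using fun v : E ι => hU.isClosed_compl.exists_infDist_eq_dist hn v
  obtain ⟨Bad, hBad⟩ : ∃ Bad : E ι → Prop, ∀ v, Bad v ↔
      v ∈ U ∧ ∃ j : ℤ, (∀ i, Lat j (v i)) ∧ 32 * infDist v Uᶜ ≤ 2 ^ j := ⟨_, fun _ => Iff.rfl⟩
  obtain ⟨D, hD⟩ : ∃ D : E ι → Prop, ∀ v, D v ↔ Bad v ∧ ¬ ∃ v0, Bad v0 ∧ v ≠ v0 ∧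
      dist v v0 ≤ 10 * infDist v0 Uᶜ + 10 * infDist v Uᶜ ∧ infDist v Uᶜ ≤ infDist v0 Uᶜ :=
    ⟨_, fun _ => Iff.rfl⟩
  have hDU : ∀ v, D v → v ∈ U := fun v hv => ((hBad v).1 ((hD v).1 hv).1).1
  have hdis : ∀ v w x, D v → D w → x ∈ ball v (10 * infDist v Uᶜ) →
      x ∈ ball w (10 * infDist w Uᶜ) → v = w := by
    intro v w x hv hw h1 h2
    by_contra hne
    rw [mem_ball] at h1 h2
    have h3 := dist_triangle_left v w x
    rcases le_total (infDist v Uᶜ) (infDist w Uᶜ) with h4 | h4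
    · exact ((hD v).1 hv).2 ⟨w, ((hD w).1 hw).1, hne, by linarith only [h1, h2, h3], h4⟩
    · exact ((hD w).1 hw).2 ⟨v, ((hD v).1 hv).1, Ne.symm hne, by rw [dist_comm]; linarith only [h1, h2, h3], h4⟩
  obtain ⟨u, hu1, hu0⟩ : ∃ u : E ι → E ι,
      (∀ v x, D v → x ∈ ball v (10 * infDist v Uᶜ) →
        u x = clrB (infDist v Uᶜ) v (y v - v) x) ∧
      ∀ x, (¬ ∃ v, D v ∧ x ∈ ball v (10 * infDist v Uᶜ)) → u x = 0 := by
    refine ⟨fun x => if h : ∃ v, D v ∧ x ∈ ball v (10 * infDist v Uᶜ) then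
      clrB (infDist h.choose Uᶜ) h.choose (y h.choose - h.choose) x else 0, fun v x hv hx => ?_,
      fun x hx => dif_neg hx⟩
    have h : ∃ v, D v ∧ x ∈ ball v (10 * infDist v Uᶜ) := ⟨v, hv, hx⟩
    simp only [dif_pos h]
    rw [hdis _ _ x h.choose_spec.1 hv h.choose_spec.2 hx]
  have hl : ∀ v, D v → ∀ x x', dist (clrB (infDist v Uᶜ) v (y v - v) x)
      (clrB (infDist v Uᶜ) v (y v - v) x') ≤ 1 / 10 * dist x x' := fun v hv =>
    clrB_lip (clr_pos hU hn (hDU v hv)) v (by rw [hy' v, dist_comm, dist_eq_norm])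
  have hK : ∀ x x', (∃ v, D v ∧ x ∈ ball v (10 * infDist v Uᶜ) ∧
      x' ∈ ball v (10 * infDist v Uᶜ)) ∨ dist (u x) 0 ≤ 1 / 10 * dist x x' := by
    intro x x'
    by_cases h : ∃ v, D v ∧ x ∈ ball v (10 * infDist v Uᶜ)
    · obtain ⟨v, hv, hx⟩ := h
      by_cases hx' : x' ∈ ball v (10 * infDist v Uᶜ)
      · exact Or.inl ⟨v, hv, hx, hx'⟩
      · right
        rw [hu1 v x hv hx, ← clrB_out (clr_pos hU hn (hDU v hv)) (y v - v) hx']
        exact hl v hv x x'
    · right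
      rw [hu0 x h, dist_self]
      positivity
  have hlip : ∀ x x', dist (u x) (u x') ≤ 1 / 5 * dist x x' := by
    intro x x'
    have h0 := dist_nonneg (x := x) (y := x')
    rcases hK x x' with ⟨v, hv, h1, h2⟩ | h1
    · rw [hu1 v x hv h1, hu1 v x' hv h2]
      linarith only [hl v hv x x', h0]
    rcases hK x' x with ⟨v, hv, h2, h3⟩ | h2
    · rw [hu1 v x hv h3, hu1 v x' hv h2]
      linarith only [hl v hv x x', h0]
    · rw [dist_comm x' x] at h2
      linarith only [dist_triangle_right (u x) (u x') 0, h1, h2]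
  refine ⟨fun x => x + u x, bij_of_small (by norm_num) hlip, fun x x' => ?_, fun x x' => ?_,
    fun x hx => ?_, ?_⟩
  · linarith only [dist_add_add_le x (u x) x' (u x'), hlip x x', dist_nonneg (x := x) (y := x')]
  · have h1 := dist_sub_sub_le (x + u x) (u x) (x' + u x') (u x')
    rw [add_sub_cancel_right, add_sub_cancel_right] at h1
    linarith only [h1, hlip x x', dist_nonneg (x := x + u x) (y := x' + u x')]
  · by_cases h : ∃ v, D v ∧ x ∈ ball v (10 * infDist v Uᶜ)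
    · obtain ⟨v, hv, h1⟩ := h
      rw [mem_ball] at h1
      exact mem_fat (hDU v hv) (by linarith only [infDist_nonneg (x := v) (s := Uᶜ), h1])
    · have h1 : x + u x ∈ U := hx
      rw [hu0 x h, add_zero] at h1
      exact mem_fat h1 (by rw [dist_self]; linarith only [clr_pos hU hn h1])
  · intro k Q hQ v hv hlat hΦ z hz
    have hzv : dist z v ≤ 4 * 2 ^ (k - 1) := by
      have h1 := Bx.dist_le (S := 2 * 2 ^ k) (by positivity) (fun i => (hQ.sd i).2) hz hv
      linarith only [two_pred_g k, h1]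
    have key : ∀ v0, Bad v0 → v ≠ v0 → dist v v0 ≤ 20 * infDist v0 Uᶜ → z ∈ fat 130 U := by
      intro v0 h0 hne hd
      obtain ⟨h1, j, h2, h3⟩ := (hBad v0).1 h0
      have h4 := clr_pos hU hn h1
      have h5 := clr_sep' hlat h2 hne (by linarith only [hd, h3, h4])
      exact mem_fat h1 (by linarith only [dist_triangle z v v0, hzv, hd, h4, h5])
    have hΦ' : v + u v ∈ U := hΦ
    by_cases h : ∃ v0, D v0 ∧ v ∈ ball v0 (10 * infDist v0 Uᶜ)
    · obtain ⟨v0, h0, h1⟩ := h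
      by_cases hne : v = v0
      · subst hne
        rw [hu1 v v h0 h1, clrB_self, add_sub_cancel] at hΦ'
        exact absurd hΦ' (hy v)
      · rw [mem_ball] at h1
        exact key v0 ((hD v0).1 h0).1 hne (by linarith only [infDist_nonneg (x := v0) (s := Uᶜ), h1])
    · rw [hu0 v h, add_zero] at hΦ'
      have h1 := clr_pos hU hn hΦ'
      have h2 : ¬ D v := fun h2 => h ⟨v, h2, mem_ball_self (by linarith only [h1])⟩
      by_cases hb : Bad v
      · obtain ⟨v0, h3, h4, h5, h6⟩ := not_not.1 fun h3 => h2 ((hD v).2 ⟨hb, h3⟩)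
        exact key v0 h3 h4 (by linarith only [h5, h6])
      · have h3 : ¬ 32 * infDist v Uᶜ ≤ 2 ^ (k - 1) := fun h3 =>
          hb ((hBad v).2 ⟨hΦ', k - 1, hlat, h3⟩)
        exact mem_fat hΦ' (by linarith only [not_le.1 h3, hzv, h1, h3])

end Pool.Agent.Lib.MP_ecd4e3_gt.NB
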