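import Pool.Agent.Lib.MP_ecd4e3_gt.NB.GBox

/-! Cutting a graph box. -/

namespace Pool.Agent.Lib.MP_ecd4e3_gt.NB

open Set Filter Topology Metric MeasureTheory
open scoped NNReal ENNReal

variable {ι : Type} [Fintype ι] [DecidableEq ι] [Nonempty ι] {f : ℝ}

set_option linter.unusedSectionVars false

namespace CutAux

theorem cst (hf : 0 < f) (hf' : f ≤ 1 / 16) :
    0 < eps ι f ∧ 0 < epw ι f ∧ epw ι f ≤ f / 100 ∧ 320 ≤ Mx f ∧ eps ι f * Mx f ≤ 1 / 100 ∧
      8 * eps ι f ≤ epw ι f * f ∧ eps ι f ≤ 1 / 1000 ∧ f * Mx f = 20 ∧ f * Mp f = 4 := by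
  obtain ⟨c1, c2, c3, -, -, c6, c7, -, c9, c10⟩ := consts (ι := ι) hf hf'
  have hN : (1 : ℝ) ≤ Fintype.card ι := by exact_mod_cast Fintype.card_pos
  have hM : 320 ≤ Mx f := by linarith only [c6, c7]
  have h1 : eps ι f * 320 ≤ eps ι f * Mx f := mul_le_mul_of_nonneg_left hM c1.le
  refine ⟨c1, c2, ?_, hM, by linarith only [c1, c3, c9, h1], by linarith only [c1, c10, h1], by linarith only [c1, c3, c9, h1], ?_, ?_⟩
  · unfold epw
    exact div_le_div_of_nonneg_left hf.le (by norm_num) (by linarith only [hN])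
  · unfold Mx; field_simp
  · unfold Mp; field_simp

/-- A piece bounded by two new walls in the longest direction. -/
theorem piece (hf : 0 < f) (hf' : f ≤ 1 / 16) {R : GB ι} (h : R.Valid f) {i : ι}
    (hi : ∀ j, R.w j ≤ R.w i) (a b : E ι → ℝ) (u : ℝ)
    (la : ∀ z z', |a z - a z'| ≤ eps ι f * dist z z')
    (lb : ∀ z z', |b z - b z'| ≤ eps ι f * dist z z')
    (hab : ∀ z, dist z R.o ≤ 2 * R.w i → R.lo i z ≤ a z ∧ b z ≤ R.hi i z ∧ u ≤ b z - a z ∧
      b z - a z ≤ (1 + epw ι f) * u) (hu : f / 2 * R.w i ≤ u) (hu' : u ≤ R.w i) :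
    ∃ o, (⟨Function.update R.lo i a, Function.update R.hi i b, Function.update R.w i u, o⟩ :
        GB ι).Valid f ∧
      (⟨Function.update R.lo i a, Function.update R.hi i b, Function.update R.w i u, o⟩ :
        GB ι).set = R.set ∩ {z | a z ≤ z i ∧ z i ≤ b z} := by
  obtain ⟨c1, c2, c3, c4, c5, c6, c7, c8, -⟩ := cst (ι := ι) hf hf'
  have hw := h.pos i
  have hu0 : 0 < u := lt_of_lt_of_le (by positivity) hu
  have ll : ∀ j z z', |Function.update R.lo i a j z - Function.update R.lo i a j z'| ≤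
      eps ι f * dist z z' := by
    intro j z z'
    by_cases e : j = i
    · subst e; simpa using la z z'
    · simpa [Function.update_of_ne e] using h.ll j z z'
  have lh : ∀ j z z', |Function.update R.hi i b j z - Function.update R.hi i b j z'| ≤
      eps ι f * dist z z' := by
    intro j z z'
    by_cases e : j = i
    · subst e; simpa using lb z z'
    · simpa [Function.update_of_ne e] using h.lh j z z'
  have ho := hab R.o (by rw [dist_self]; positivity)
  have hwo := h.wd R.o h.om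
  have hη : ∀ j, (1 + epw ι f) * R.w j ≤ 3 / 2 * R.w i := by
    intro j
    have t1 := hi j
    have t2 := h.pos j
    nlinarith only [t1, hf, hw, hf', c2, c3]
  have hlo : ∀ j, R.lo j R.o ≤ Function.update R.lo i a j R.o ∧
      Function.update R.hi i b j R.o ≤ R.hi j R.o ∧
      Function.update R.lo i a j R.o ≤ Function.update R.hi i b j R.o := by
    intro j
    by_cases e : j = i
    · subst e
      simp only [Function.update_self]
      exact ⟨ho.1, ho.2.1, by linarith only [ho.2.2.1, hu0, ho]⟩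
    · simp only [Function.update_of_ne e]
      exact ⟨le_rfl, le_rfl, by linarith only [(hwo j).1, h.pos j]⟩
  obtain ⟨o, ho1, ho2⟩ := GB.exists_ctr hf hf' ll lh R.o (δ := 2 * R.w i) (fun j => by
    have h1 := hlo j
    have h2 := h.ctr j
    have h3 := (hwo j).2
    have h4 := hη j
    rw [abs_le]
    constructor <;> linarith only [h1.1, h1.2.1, h1.2.2, hw, h1, h2, h3, h4])
  have hnear : ∀ z : E ι, (∀ j, Function.update R.lo i a j z ≤ z j ∧
      z j ≤ Function.update R.hi i b j z) → dist z R.o ≤ 2 * R.w i := by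
    intro z hz
    have h1 : dist z R.o ≤ 3 / 4 * R.w i + eps ι f * dist z R.o := by
      refine (dist_pi_le_iff (by positivity)).2 fun j => ?_
      have e1 := hz j
      have e2 := abs_le.1 (ll j z R.o)
      have e3 := abs_le.1 (lh j z R.o)
      have e4 := hlo j
      have e5 := h.ctr j
      have e6 := (hwo j).2
      have e7 := hη j
      rw [Real.dist_eq, abs_le]
      constructor <;> linarith only [e1.1, e1.2, e2.1, e2.2, e3.1, e3.2, e4.1, e4.2.1, e1, e2, e4, e5, e6, e7, e3]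
    have h2 : eps ι f * dist z R.o ≤ 1 / 1000 * dist z R.o :=
      mul_le_mul_of_nonneg_right c7 dist_nonneg
    linarith only [hw, h1, h2]
  have hset : (⟨Function.update R.lo i a, Function.update R.hi i b, Function.update R.w i u, o⟩ :
      GB ι).set = R.set ∩ {z | a z ≤ z i ∧ z i ≤ b z} := by
    ext z
    constructor
    · intro hz
      have e1 := hab z (hnear z hz)
      have e2 : a z ≤ z i ∧ z i ≤ b z := by simpa using hz i
      refine ⟨fun j => ?_, e2⟩
      by_cases e : j = i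
      · subst e; exact ⟨e1.1.trans e2.1, e2.2.trans e1.2.1⟩
      · simpa [Function.update_of_ne e] using hz j
    · rintro ⟨h1, h2⟩ j
      by_cases e : j = i
      · subst e; simpa using h2
      · simpa [Function.update_of_ne e] using h1 j
  refine ⟨o, ⟨ll, lh, fun j => ?_, fun z hz j => ?_, ho1, fun j => ?_, fun j l => ?_⟩, hset⟩
  · by_cases e : j = i
    · subst e; simpa using hu0
    · simpa [Function.update_of_ne e] using h.pos j
  · by_cases e : j = i
    · subst e; simpa using (hab z (hnear z hz)).2.2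
    · rw [hset] at hz
      simpa [Function.update_of_ne e] using h.wd z hz.1 j
  · have h1 : Function.update R.lo i a j o ≤ Function.update R.hi i b j o := by
      by_cases e : j = i
      · subst e
        simp only [Function.update_self]
        linarith only [(hab o ho2).2.2.1, hu0, ho2]
      · simp only [Function.update_of_ne e]
        have e2 := abs_le.1 (h.ll j o R.o)
        have e3 := abs_le.1 (h.lh j o R.o)
        have e4 : eps ι f * dist o R.o ≤ eps ι f * (2 * (Mx f * R.w j)) :=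
          mul_le_mul_of_nonneg_left (ho2.trans (by linarith only [h.asp i j])) c1.le
        have e5 : eps ι f * Mx f * R.w j ≤ 1 / 100 * R.w j :=
          mul_le_mul_of_nonneg_right c5 (h.pos j).le
        linarith only [(hwo j).1, e2.2, e3.1, h.pos j, e2, e3, e4, e5]
    have h2 := ho1 j
    show Function.update R.lo i a j o ≤ o j ∧ o j ≤ Function.update R.hi i b j o
    constructor <;> linarith only [h1, h2]
  · show Function.update R.w i u j ≤ Mx f * Function.update R.w i u l
    have h1 : Function.update R.w i u j ≤ R.w j := by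
      by_cases e : j = i
      · subst e; simpa using hu'
      · simp [Function.update_of_ne e]
    by_cases e : l = i
    · subst e
      rw [Function.update_self]
      have h2 : Mx f * (f / 2 * R.w l) ≤ Mx f * u := mul_le_mul_of_nonneg_left hu (by linarith only [hf', c2, c3, c4])
      have h3 : Mx f * (f / 2 * R.w l) = 10 * R.w l := by linear_combination R.w l / 2 * c8
      linarith only [hi j, hu0, hu', h1, h2, h3]
    · rw [Function.update_of_ne e]
      exact h1.trans (h.asp j l)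

theorem near (hf : 0 < f) (hf' : f ≤ 1 / 16) {R : GB ι} (h : R.Valid f) {i : ι}
    (hi : ∀ j, R.w j ≤ R.w i) {z : E ι} (hz : z ∈ R.set) : dist z R.o ≤ 2 * R.w i := by
  obtain ⟨j, hj⟩ := R.exists_wmax
  exact (h.dist_le hf hf' hz h.om).trans (by linarith only [hi j, hj])

/-- A cut exists at every admissible position. -/
theorem exists_cut (hf : 0 < f) (hf' : f ≤ 1 / 16) {R : GB ι} (h : R.Valid f) {i : ι}
    (hi : ∀ j, R.w j ≤ R.w i) {c : ℝ}
    (h1 : (f / 2 + epw ι f) * R.w i ≤ c - R.lo i R.o - 2 * eps ι f * R.w i)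
    (h2 : (f / 2 + epw ι f) * R.w i ≤ R.hi i R.o - c - 2 * eps ι f * R.w i) :
    ∃ R1 R2, GB.IsCut f R i c R1 R2 ∧ R1.w i = c - R.lo i R.o - 2 * eps ι f * R.w i ∧
      R2.w i = R.hi i R.o - c - 2 * eps ι f * R.w i := by
  obtain ⟨c1, c2, c3, c4, c5, c6, c7, c8, -⟩ := cst (ι := ι) hf hf'
  have hw := h.pos i
  have hwo := h.wd R.o h.om i
  have p1 : 0 < eps ι f * R.w i := by positivity
  have p2 : 0 < epw ι f * R.w i := by positivity
  have p3 : 0 < f * R.w i := by positivity
  have hd : ∀ z, dist z R.o ≤ 2 * R.w i → |R.lo i z - R.lo i R.o| ≤ 2 * eps ι f * R.w i ∧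
      |R.hi i z - R.hi i R.o| ≤ 2 * eps ι f * R.w i := by
    intro z hz
    have := mul_le_mul_of_nonneg_left hz c1.le
    exact ⟨(h.ll i z R.o).trans (by linarith only [this]), (h.lh i z R.o).trans (by linarith only [this])⟩
  have hs : ∀ u, f / 2 * R.w i ≤ u → u + 4 * eps ι f * R.w i ≤ (1 + epw ι f) * u := by
    intro u hu
    have e1 := mul_le_mul_of_nonneg_left hu c2.le
    have e2 := mul_le_mul_of_nonneg_right c6 hw.le
    linarith only [e1, e2]
  have hcc : ∀ z z' : E ι, |c - c| ≤ eps ι f * dist z z' := fun z z' => by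
    rw [sub_self, abs_zero]; positivity
  obtain ⟨o1, v1, s1⟩ := piece hf hf' h hi (R.lo i) (fun _ => c)
    (c - R.lo i R.o - 2 * eps ι f * R.w i) (h.ll i) hcc (fun z hz => by
      have e1 := abs_le.1 (hd z hz).1
      have e2 := abs_le.1 (hd z hz).2
      have e3 := hs (c - R.lo i R.o - 2 * eps ι f * R.w i) (by linarith only [h1, p2])
      exact ⟨le_rfl, by linarith only [e2.1, h2, p2, p3, e2], by linarith only [e1.2, e1], by linarith only [e1.1, e1, e3]⟩)
    (by linarith only [h1, p2]) (by linarith only [hwo.2, h2, hwo, p1, p3])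
  obtain ⟨o2, v2, s2⟩ := piece hf hf' h hi (fun _ => c) (R.hi i)
    (R.hi i R.o - c - 2 * eps ι f * R.w i) hcc (h.lh i) (fun z hz => by
      have e1 := abs_le.1 (hd z hz).1
      have e2 := abs_le.1 (hd z hz).2
      have e3 := hs (R.hi i R.o - c - 2 * eps ι f * R.w i) (by linarith only [h2, p2])
      exact ⟨by linarith only [e1.2, h1, p2, p3, e1], le_rfl, by linarith only [e2.1, e2], by linarith only [e2.2, e2, e3]⟩)
    (by linarith only [h2, p2]) (by linarith only [hwo.2, h1, hwo, p1, p3])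
  refine ⟨_, _, ⟨Function.update_eq_self _ _, rfl, rfl, Function.update_eq_self _ _, v1, v2,
    fun j e => Function.update_of_ne e _ _, fun j e => Function.update_of_ne e _ _, ?_, ?_,
    fun z hz => ?_, ?_, ?_⟩, Function.update_self _ _ _, Function.update_self _ _ _⟩
  · simp only [Function.update_self]
    constructor <;> linarith only [hwo.2, h1, p2, h2, hwo, p1]
  · simp only [Function.update_self]
    constructor <;> linarith only [hwo.2, h2, p2, h1, hwo, p1]
  · have e1 := abs_le.1 (hd z (near hf hf' h hi hz)).1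
    have e2 := abs_le.1 (hd z (near hf hf' h hi hz)).2
    constructor <;> linarith only [e1.2, e2.1, h1, p2, p3, e1, h2, e2]
  · rw [s1]
    ext z
    exact ⟨fun e => ⟨e.1, e.2.2⟩, fun e => ⟨e.1, (e.1 i).1, e.2⟩⟩
  · rw [s2]
    ext z
    exact ⟨fun e => ⟨e.1, e.2.1⟩, fun e => ⟨e.1, e.2, (e.1 i).2⟩⟩

theorem vol_add (hf : 0 < f) (hf' : f ≤ 1 / 16) {R R1 R2 : GB ι} (h : R.Valid f) {i : ι} {c : ℝ}
    (hc : GB.IsCut f R i c R1 R2) : R1.vol + R2.vol = R.vol := by
  have hfin : volume R.set ≠ ⊤ := (h.isCompact hf hf').measure_lt_top.ne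
  have h0 : volume (R1.set ∩ R2.set) = 0 := by
    refine measure_mono_null (t := {z : E ι | z i = c}) ?_
      (Measure.pi_hyperplane (fun _ : ι => (volume : Measure ℝ)) i c)
    rw [hc.s1, hc.s2]
    exact fun z hz => le_antisymm hz.1.2 hz.2.2
  have h1 : R.set = R1.set ∪ R2.set := by
    rw [hc.s1, hc.s2, ← inter_union_distrib_left]
    exact (inter_eq_left.2 fun z _ => le_total (z i) c).symm
  have h2 := measure_union_add_inter (μ := volume) R1.set hc.v2.isClosed.measurableSet
  rw [h0, add_zero, ← h1] at h2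
  unfold GB.vol
  rw [h2] at hfin ⊢
  rw [ENNReal.toReal_add (ENNReal.add_ne_top.1 hfin).1 (ENNReal.add_ne_top.1 hfin).2]

theorem vol_cont {K : Set (E ι)} (hK : IsCompact K) (i : ι) :
    Continuous fun c : ℝ => (volume (K ∩ {z | z i ≤ c})).toReal := by
  have hm : ∀ c : ℝ, MeasurableSet {z : E ι | z i ≤ c} := fun c =>
    (isClosed_le (continuous_apply i) continuous_const).measurableSet
  have e : (fun c : ℝ => (volume (K ∩ {z | z i ≤ c})).toReal) =
      fun c : ℝ => ∫ z in K, indicator {z : E ι | z i ≤ c} (fun _ => (1 : ℝ)) z := by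
    funext c
    rw [integral_indicator (hm c), Measure.restrict_restrict (hm c), inter_comm]
    simp [Measure.real]
  rw [e, continuous_iff_continuousAt]
  intro c
  refine continuousAt_of_dominated (bound := fun _ => 1)
    (Eventually.of_forall fun c => (stronglyMeasurable_const.indicator (hm c)).aestronglyMeasurable)
    (Eventually.of_forall fun c => ae_of_all _ fun z => ?_)
    (integrableOn_const hK.measure_lt_top.ne) ?_
  · by_cases hz : z ∈ {z : E ι | z i ≤ c} <;> simp [hz]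
  · refine ae_restrict_of_ae ?_
    have h0 : ∀ᵐ z : E ι, z i ≠ c := Measure.ae_eval_ne (fun _ : ι => (volume : Measure ℝ)) i c
    filter_upwards [h0] with z hz
    rcases lt_or_gt_of_ne hz with l | l
    · refine (continuousAt_const (y := (1 : ℝ))).congr ?_
      filter_upwards [Ioi_mem_nhds l] with c' hc'
      have e : z i ≤ c' := le_of_lt hc'
      rw [indicator_of_mem (show z ∈ {z : E ι | z i ≤ c'} from e)]
    · refine (continuousAt_const (y := (0 : ℝ))).congr ?_
      filter_upwards [Iio_mem_nhds l] with c' hc'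
      have e : ¬z i ≤ c' := not_le.2 hc'
      rw [indicator_of_notMem (show z ∉ {z : E ι | z i ≤ c'} from e)]

theorem small (hf : 0 < f) (hf' : f ≤ 1 / 16) {R R' : GB ι} (h : R.Valid f) (h' : R'.Valid f)
    {i : ι} (hw : ∀ j, j ≠ i → R'.w j = R.w j) (hi : R'.w i = (f / 2 + epw ι f) * R.w i) :
    R'.vol ≤ f * R.vol := by
  obtain ⟨-, c2, c3, -⟩ := cst (ι := ι) hf hf'
  have e : ∏ j, R'.w j = (f / 2 + epw ι f) * ∏ j, R.w j := by
    rw [← Finset.mul_prod_erase _ _ (Finset.mem_univ i),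
      ← Finset.mul_prod_erase _ R.w (Finset.mem_univ i), hi, mul_assoc,
      Finset.prod_congr rfl fun j hj => hw j (Finset.ne_of_mem_erase hj)]
  have hp : 0 < ∏ j, R.w j := Finset.prod_pos fun j _ => h.pos j
  have h1 := (h'.vol_bd hf hf').2
  have h2 := mul_le_mul_of_nonneg_left (h.vol_bd hf hf').1 hf.le
  rw [e] at h1
  have h3 : (1 + f / 25) * (f / 2 + epw ι f) ≤ f * (1 - f / 50) := by nlinarith only [c2, c3, hf, hf']
  have h4 := mul_le_mul_of_nonneg_right h3 hp.le
  linarith only [h1, h2, h4]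

open Classical in
/-- Number of non-flat sides. -/
noncomputable def nl (R : GB ι) (l : ι) : ℝ :=
  (if R.FlatL l then 0 else 1) + (if R.FlatH l then 0 else 1)

/-- Weight of a non-flat side. -/
noncomputable def st (f : ℝ) (R : GB ι) (l : ι) : ℝ :=
  1 + (∑ j, R.w j / R.w l) / (3 * Mx f * Fintype.card ι)

open Classical in
/-- Aspect term. -/
noncomputable def asp (f : ℝ) (R : GB ι) (l : ι) : ℝ :=
  if Mp f * R.wmin < R.w l then R.w l / (Mp f * R.wmin) else 0

/-- The gain in the weight. -/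
noncomputable def ka (ι : Type) [Fintype ι] (f : ℝ) : ℝ := f / 2 / (3 * Mx f * Fintype.card ι)

theorem phi_eq (R : GB ι) (i : ι) : R.phi f = nl R i * st f R i + asp f R i +
    ∑ l ∈ Finset.univ.erase i, (nl R l * st f R l + asp f R l) :=
  (Finset.add_sum_erase _ (fun l => nl R l * st f R l + asp f R l) (Finset.mem_univ i)).symm

theorem nl_nonneg (R : GB ι) (l : ι) : 0 ≤ nl R l := by
  unfold nl; split_ifs <;> norm_num

theorem ka_bd (hf : 0 < f) (hf' : f ≤ 1 / 16) :
    drp ι f ≤ ka ι f ∧ ka ι f ≤ 1 ∧ drp ι f ≤ f / 2 := by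
  have hN : (1 : ℝ) ≤ Fintype.card ι := by exact_mod_cast Fintype.card_pos
  have e : ka ι f = f ^ 2 / (120 * Fintype.card ι) := by
    unfold ka Mx; field_simp; ring
  rw [e]
  unfold drp
  refine ⟨div_le_div_of_nonneg_left (by positivity) (by positivity) (by linarith only [hf, hf', hN]), ?_, ?_⟩
  · rw [div_le_one (by positivity)]; nlinarith only [hf, hf', hN]
  · rw [div_le_iff₀ (by positivity)]; nlinarith only [hf, hf', hN]

theorem one_le_st (hf : 0 < f) {R : GB ι} (h : R.Valid f) (l : ι) : 1 ≤ st f R l := by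
  have h1 : 0 ≤ ∑ j, R.w j / R.w l :=
    Finset.sum_nonneg fun j _ => div_nonneg (h.pos j).le (h.pos l).le
  have h2 : 0 < Mx f := by unfold Mx; positivity
  unfold st
  have : 0 ≤ (∑ j, R.w j / R.w l) / (3 * Mx f * Fintype.card ι) := by positivity
  linarith only [this]

theorem st_le (hf : 0 < f) {R : GB ι} (h : R.Valid f) (l : ι) : st f R l ≤ 4 / 3 := by
  have hN : (0 : ℝ) < Fintype.card ι := by exact_mod_cast Fintype.card_pos
  have h2 : 0 < Mx f := by unfold Mx; positivity
  have h1 : ∑ j, R.w j / R.w l ≤ ∑ _j : ι, Mx f :=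
    Finset.sum_le_sum fun j _ => (div_le_iff₀ (h.pos l)).2 (h.asp j l)
  rw [Finset.sum_const, Finset.card_univ, nsmul_eq_mul] at h1
  unfold st
  have : (∑ j, R.w j / R.w l) / (3 * Mx f * Fintype.card ι) ≤ 1 / 3 := by
    rw [div_le_iff₀ (by positivity)]; linarith only [h1]
  linarith only [this]

theorem asp_nonneg (hf : 0 < f) {R : GB ι} (h : R.Valid f) (l : ι) : 0 ≤ asp f R l := by
  have h1 := h.wmin_pos
  have h2 := h.pos l
  have h3 : 0 < Mp f := by unfold Mp; positivity
  unfold asp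
  split_ifs
  · positivity
  · exact le_rfl

theorem st_drop (hf : 0 < f) {R R' : GB ι} (h : R.Valid f) {i : ι} (hi : ∀ j, R.w j ≤ R.w i)
    (hw : ∀ j, j ≠ i → R'.w j = R.w j) (m : R'.w i ≤ (1 - f / 2) * R.w i) {l : ι} (hl : l ≠ i) :
    st f R' l ≤ st f R l - ka ι f := by
  have hN : (0 : ℝ) < Fintype.card ι := by exact_mod_cast Fintype.card_pos
  have h2 : 0 < Mx f := by unfold Mx; positivity
  have h1 : ∑ j, R'.w j / R'.w l ≤ ∑ j, R.w j / R.w l - f / 2 := by
    rw [← Finset.add_sum_erase _ _ (Finset.mem_univ i),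
      ← Finset.add_sum_erase _ (fun j => R.w j / R.w l) (Finset.mem_univ i), hw l hl,
      Finset.sum_congr rfl fun j hj => by rw [hw j (Finset.ne_of_mem_erase hj)]]
    have e : R'.w i / R.w l ≤ R.w i / R.w l - f / 2 := by
      rw [le_sub_iff_add_le, div_add' _ _ _ (h.pos l).ne']
      refine div_le_div_of_nonneg_right ?_ (h.pos l).le
      have := mul_le_mul_of_nonneg_left (hi l) hf.le
      linarith only [m, this]
    linarith only [e]
  unfold st ka
  rw [add_sub_assoc, ← sub_div]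
  have := div_le_div_of_nonneg_right h1
    (show (0 : ℝ) ≤ 3 * Mx f * Fintype.card ι by positivity)
  linarith only [this]

theorem asp_le (hf : 0 < f) {R R' : GB ι} (h : R.Valid f) (h' : R'.Valid f) {l : ι} {t : ℝ}
    (ht : 0 ≤ t) (ht' : t ≤ 1) (hm : R.wmin ≤ R'.wmin) (hl : R'.w l ≤ t * R.w l) :
    asp f R' l ≤ t * asp f R l := by
  have h3 : 0 < Mp f := by unfold Mp; positivity
  have h1 := h.wmin_pos
  have h4 := mul_le_mul_of_nonneg_left hm h3.le
  by_cases e : Mp f * R'.wmin < R'.w l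
  · have h5 : t * R.w l ≤ 1 * R.w l := mul_le_mul_of_nonneg_right ht' (h.pos l).le
    have e' : Mp f * R.wmin < R.w l := by linarith only [hl, h4, e, h5]
    unfold asp
    rw [if_pos e, if_pos e', ← mul_div_assoc]
    exact div_le_div₀ ((h'.pos l).le.trans hl) hl (by positivity) h4
  · have := asp_nonneg hf h l
    unfold asp at this ⊢
    rw [if_neg e]
    positivity

theorem asp_drop (hf : 0 < f) (hf' : f ≤ 1 / 16) {R R' : GB ι} (h : R.Valid f) (h' : R'.Valid f)
    {i : ι} (hi : ∀ j, R.w j ≤ R.w i) (hw : ∀ j, j ≠ i → R'.w j = R.w j)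
    (m : f / 2 * R.w i ≤ R'.w i ∧ R'.w i ≤ (1 - f / 2) * R.w i) :
    asp f R' i ≤ (1 - f / 2) * asp f R i ∧ ∀ l, l ≠ i → asp f R' l ≤ asp f R l := by
  obtain ⟨j, hj⟩ := R'.exists_wmin
  by_cases e : j = i
  · subst e
    have h4 : f * Mp f = 4 := by unfold Mp; field_simp
    have h3 : 0 < Mp f := by unfold Mp; positivity
    have h5 := mul_le_mul_of_nonneg_left m.1 h3.le
    have h6 : Mp f * (f / 2 * R.w j) = 2 * R.w j := by linear_combination R.w j / 2 * h4
    have h7 := h.pos j
    have h8 : 0 ≤ f * R.w j := by positivity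
    have z : ∀ l, R'.w l ≤ R.w j → asp f R' l = 0 := fun l hl => by
      unfold asp
      rw [if_neg (not_lt.2 (by rw [← hj]; linarith only [h5, h6, h7, hl]))]
    refine ⟨?_, fun l hl => ?_⟩
    · rw [z j (by linarith only [m.2, m, h8])]
      exact mul_nonneg (by linarith only [hf, hf']) (asp_nonneg hf h j)
    · rw [z l (hw l hl ▸ hi l)]
      exact asp_nonneg hf h l
  · have hm : R.wmin ≤ R'.wmin := by rw [← hj, hw j e]; exact R.wmin_le j
    refine ⟨asp_le hf h h' (by linarith only [hf, hf']) (by linarith only [hf]) hm m.2, fun l hl => ?_⟩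
    simpa using asp_le hf h h' zero_le_one le_rfl hm (l := l) (by rw [hw l hl, one_mul])

/-- The common part of the bounds. -/
noncomputable def base (f : ℝ) (R : GB ι) (i : ι) : ℝ := (1 - f / 2) * asp f R i +
  ∑ l ∈ Finset.univ.erase i, (nl R l * (st f R l - ka ι f) + asp f R l)

theorem phi_piece (hf : 0 < f) (hf' : f ≤ 1 / 16) {R R' : GB ι} (h : R.Valid f)
    (h' : R'.Valid f) {i : ι} (hi : ∀ j, R.w j ≤ R.w i) (hw : ∀ j, j ≠ i → R'.w j = R.w j)
    (m : f / 2 * R.w i ≤ R'.w i ∧ R'.w i ≤ (1 - f / 2) * R.w i)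
    (hn : ∀ l, l ≠ i → nl R' l = nl R l) : R'.phi f ≤ base f R i + 4 / 3 * nl R' i := by
  obtain ⟨a1, a2⟩ := asp_drop hf hf' h h' hi hw m
  rw [phi_eq R' i, base]
  have h1 := mul_le_mul_of_nonneg_left (st_le hf h' i) (nl_nonneg R' i)
  have h2 : ∑ l ∈ Finset.univ.erase i, (nl R' l * st f R' l + asp f R' l) ≤
      ∑ l ∈ Finset.univ.erase i, (nl R l * (st f R l - ka ι f) + asp f R l) := by
    refine Finset.sum_le_sum fun l hl => ?_
    have e := Finset.ne_of_mem_erase hl
    rw [hn l e]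
    exact add_le_add (mul_le_mul_of_nonneg_left (st_drop hf h hi hw m.2 e) (nl_nonneg R l))
      (a2 l e)
  linarith only [a1, h1, h2]

theorem base_nonneg (hf : 0 < f) (hf' : f ≤ 1 / 16) {R : GB ι} (h : R.Valid f) (i : ι) :
    0 ≤ base f R i := by
  refine add_nonneg (mul_nonneg (by linarith only [hf, hf']) (asp_nonneg hf h i))
    (Finset.sum_nonneg fun l _ => add_nonneg (mul_nonneg (nl_nonneg R l) ?_) (asp_nonneg hf h l))
  linarith only [one_le_st hf h l, (ka_bd (ι := ι) hf hf').2.1, hf, hf']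

theorem phi_sub (R : GB ι) (i : ι) : R.phi f - base f R i = nl R i * st f R i +
    f / 2 * asp f R i + ka ι f * ∑ l ∈ Finset.univ.erase i, nl R l := by
  have e : ∑ l ∈ Finset.univ.erase i, (nl R l * st f R l + asp f R l) =
      ∑ l ∈ Finset.univ.erase i, (nl R l * (st f R l - ka ι f) + asp f R l) +
        ka ι f * ∑ l ∈ Finset.univ.erase i, nl R l := by
    rw [Finset.mul_sum, ← Finset.sum_add_distrib]
    exact Finset.sum_congr rfl fun l _ => by ring
  rw [phi_eq R i, base, e]
  ring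

theorem gap (hf : 0 < f) (hf' : f ≤ 1 / 16) {R : GB ι} (h : R.Valid f) {i : ι}
    (hi : ∀ j, R.w j ≤ R.w i) : nl R i ≤ R.phi f - base f R i ∧
      (R.FlatL i → R.FlatH i → R.drop f ≤ R.phi f - base f R i) := by
  obtain ⟨k1, -, k3⟩ := ka_bd (ι := ι) hf hf'
  have d := GB.drop_bd hf R
  have k0 : 0 ≤ ka ι f := by linarith only [d.1, d.2, k1, d]
  have h1 := mul_le_mul_of_nonneg_left (one_le_st hf h i) (nl_nonneg R i)
  have h2 : 0 ≤ f / 2 * asp f R i := mul_nonneg (by linarith only [hf]) (asp_nonneg hf h i)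
  have h3 : 0 ≤ ∑ l ∈ Finset.univ.erase i, nl R l := Finset.sum_nonneg fun l _ => nl_nonneg R l
  have h4 := mul_nonneg k0 h3
  have h5 := nl_nonneg R i
  rw [phi_sub]
  refine ⟨by linarith only [h1, h2, h4], fun fl fh => ?_⟩
  by_cases hF : R.Fin f
  · have : R.drop f = 0 := if_pos hF
    linarith only [h1, h2, h4, h5, this]
  by_cases hR : R.Rect
  · have e : ∃ a b, Mp f * R.w b < R.w a := by
      by_contra hc
      push Not at hc
      exact hF ⟨hR, hc⟩
    obtain ⟨a, b, e⟩ := e
    have h6 : 0 < Mp f := by unfold Mp; positivity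
    have h7 := mul_le_mul_of_nonneg_left (R.wmin_le b) h6.le
    have h8 : Mp f * R.wmin < R.w i := by linarith only [hi a, e, h7]
    have h9 : 1 ≤ asp f R i := by
      unfold asp
      rw [if_pos h8, le_div_iff₀ (mul_pos h6 h.wmin_pos)]
      linarith only [h8]
    have := mul_le_mul_of_nonneg_left h9 hf.le
    linarith only [d.2, k3, d, h1, h4, h5, this]
  · obtain ⟨l, hl⟩ := not_forall.1 hR
    have e : l ≠ i := by rintro rfl; exact hl ⟨fl, fh⟩
    have h6 : 1 ≤ nl R l := by
      unfold nl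
      split_ifs with a b
      · exact absurd ⟨a, b⟩ hl
      all_goals norm_num
    have h7 : nl R l ≤ ∑ l ∈ Finset.univ.erase i, nl R l :=
      Finset.single_le_sum (f := nl R) (fun l _ => nl_nonneg R l)
        (Finset.mem_erase.2 ⟨e, Finset.mem_univ l⟩)
    have := mul_le_mul_of_nonneg_left (h6.trans h7) k0
    linarith only [d.2, k1, d, h1, h2, h5, this]

end CutAux

open CutAux

namespace GB

/-- A cut across a longest side with a prescribed volume of the low piece. -/
theorem Valid.cut_vol (hf : 0 < f) (hf' : f ≤ 1 / 16) {R : GB ι} (h : R.Valid f) {i : ι}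
    (hi : ∀ j, R.w j ≤ R.w i) {a : ℝ} (h1 : f * R.vol ≤ a) (h2 : a ≤ (1 - f) * R.vol) :
    ∃ c R1 R2, IsCut f R i c R1 R2 ∧ R1.vol = a ∧ R2.vol = R.vol - a := by
  obtain ⟨c1, c2, c3, -, -, -, c7, -⟩ := cst (ι := ι) hf hf'
  have hw := h.pos i
  have hwo := (h.wd R.o h.om i).1
  have hle : R.lo i R.o + 2 * eps ι f * R.w i + (f / 2 + epw ι f) * R.w i ≤
      R.hi i R.o - 2 * eps ι f * R.w i - (f / 2 + epw ι f) * R.w i := by
    have : (4 * eps ι f + f + 2 * epw ι f) * R.w i ≤ 1 * R.w i :=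
      mul_le_mul_of_nonneg_right (by linarith only [hf', c2, c3, c7]) hw.le
    linarith only [hwo, this]
  obtain ⟨A1, A2, hA, wA, -⟩ := exists_cut hf hf' h hi
    (c := R.lo i R.o + 2 * eps ι f * R.w i + (f / 2 + epw ι f) * R.w i) (by linarith only []) (by linarith only [hle])
  obtain ⟨B1, B2, hB, -, wB⟩ := exists_cut hf hf' h hi
    (c := R.hi i R.o - 2 * eps ι f * R.w i - (f / 2 + epw ι f) * R.w i) (by linarith only [hle]) (by linarith only [])
  have eA := small hf hf' h hA.v1 hA.w1 (by rw [wA]; ring)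
  have eB := small hf hf' h hB.v2 hB.w2 (by rw [wB]; ring)
  have eB' := vol_add hf hf' h hB
  obtain ⟨c, hc, e⟩ := intermediate_value_Icc hle (vol_cont (h.isCompact hf hf') i).continuousOn
    (show a ∈ Icc _ _ from ⟨by rw [← hA.s1]; exact eA.trans h1, by
      rw [← hB.s1]
      show a ≤ B1.vol
      linarith only [h2, eB, eB']⟩)
  obtain ⟨R1, R2, hR, -⟩ := exists_cut hf hf' h hi (c := c) (by linarith only [hc.1])
    (by linarith only [hc.2])
  have e1 : R1.vol = a := by rw [← e, vol, hR.s1]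
  exact ⟨c, R1, R2, hR, e1, by linarith only [vol_add hf hf' h hR, e1, hf, hf']⟩

/-- Bounds for the shape potentials of the pieces which do not depend on the position of the cut. -/
theorem Valid.cut_phi (hf : 0 < f) (hf' : f ≤ 1 / 16) {R : GB ι} (h : R.Valid f) {i : ι}
    (hi : ∀ j, R.w j ≤ R.w i) {X1 X2 : ℝ} (x1 : 0 ≤ X1) (x2 : 0 ≤ X2)
    (hl : ¬R.FlatL i → R.FlatH i → X1 ≤ X2) (hh : R.FlatL i → ¬R.FlatH i → X2 ≤ X1) :
    ∃ φ1 φ2 : ℝ, 0 ≤ φ1 ∧ φ1 ≤ 8 * Fintype.card ι ∧ 0 ≤ φ2 ∧ φ2 ≤ 8 * Fintype.card ι ∧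
      φ1 * X1 + φ2 * X2 ≤ (R.phi f - R.drop f) * (X1 + X2) ∧
      ∀ c R1 R2, IsCut f R i c R1 R2 → R1.phi f ≤ φ1 ∧ R2.phi f ≤ φ2 := by
  classical
  obtain ⟨g1, g2⟩ := gap hf hf' h hi
  have b0 := base_nonneg hf hf' h i
  have d := drop_bd hf R
  have d1 := (consts (ι := ι) hf hf').2.2.2.2.1
  have hN : (0 : ℝ) ≤ 8 * Fintype.card ι := by positivity
  set nL : ℝ := if R.FlatL i then 0 else 1 with hnL
  set nH : ℝ := if R.FlatH i then 0 else 1 with hnH
  have pL : 0 ≤ nL := by rw [hnL]; split_ifs <;> norm_num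
  have pH : 0 ≤ nH := by rw [hnH]; split_ifs <;> norm_num
  have en : nl R i = nL + nH := by rw [hnL, hnH, nl]
  refine ⟨min (base f R i + 4 / 3 * nL) (8 * Fintype.card ι),
    min (base f R i + 4 / 3 * nH) (8 * Fintype.card ι), le_min (by linarith only [b0, pL]) hN, min_le_right _ _,
    le_min (by linarith only [b0, pH]) hN, min_le_right _ _, ?_, fun c R1 R2 hc => ⟨?_, ?_⟩⟩
  · have e1 := mul_le_mul_of_nonneg_right
      (min_le_left (base f R i + 4 / 3 * nL) (8 * Fintype.card ι)) x1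
    have e2 := mul_le_mul_of_nonneg_right
      (min_le_left (base f R i + 4 / 3 * nH) (8 * Fintype.card ι)) x2
    have key : 4 / 3 * (nL * X1 + nH * X2) ≤ (R.phi f - base f R i - R.drop f) * (X1 + X2) := by
      rw [en] at g1
      by_cases fl : R.FlatL i <;> by_cases fh : R.FlatH i
      · have := g2 fl fh
        rw [hnL, hnH, if_pos fl, if_pos fh]
        nlinarith only [hf, hf', x1, this, x2]
      · have := hh fl fh
        rw [hnL, hnH, if_pos fl, if_neg fh] at g1 ⊢
        have e : 9 / 10 * (X1 + X2) ≤ (R.phi f - base f R i - R.drop f) * (X1 + X2) :=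
          mul_le_mul_of_nonneg_right (by linarith only [d.2, hf, hf', d, d1, g1]) (by linarith only [x1, x2])
        linarith only [x1, this, e]
      · have := hl fl fh
        rw [hnL, hnH, if_neg fl, if_pos fh] at g1 ⊢
        have e : 9 / 10 * (X1 + X2) ≤ (R.phi f - base f R i - R.drop f) * (X1 + X2) :=
          mul_le_mul_of_nonneg_right (by linarith only [d.2, hf, hf', d, d1, g1]) (by linarith only [x1, x2])
        linarith only [x2, this, e]
      · rw [hnL, hnH, if_neg fl, if_neg fh] at g1 ⊢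
        have e : 4 / 3 * (X1 + X2) ≤ (R.phi f - base f R i - R.drop f) * (X1 + X2) :=
          mul_le_mul_of_nonneg_right (by linarith only [d.2, hf, hf', d, d1, g1]) (by linarith only [x1, x2])
        linarith only [e]
    linarith only [e1, e2, key]
  · refine le_min ?_ (hc.v1.phi_bd hf hf').2
    have eL : ∀ l, R1.FlatL l ↔ R.FlatL l := fun l => by unfold FlatL; rw [hc.l1]
    have eH : ∀ l, l ≠ i → (R1.FlatH l ↔ R.FlatH l) := fun l e => by
      unfold FlatH; rw [hc.h1, Function.update_of_ne e]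
    have eI : R1.FlatH i := ⟨c, fun z => by rw [hc.h1, Function.update_self]⟩
    have e := phi_piece hf hf' h hc.v1 hi hc.w1 hc.m1 fun l e => by
      unfold nl; simp only [eL l, eH l e]
    have e' : nl R1 i = nL := by
      rw [hnL, nl, if_pos eI, add_zero]; simp only [eL i]
    rwa [e'] at e
  · refine le_min ?_ (hc.v2.phi_bd hf hf').2
    have eH : ∀ l, R2.FlatH l ↔ R.FlatH l := fun l => by unfold FlatH; rw [hc.h2]
    have eL : ∀ l, l ≠ i → (R2.FlatL l ↔ R.FlatL l) := fun l e => by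
      unfold FlatL; rw [hc.l2, Function.update_of_ne e]
    have eI : R2.FlatL i := ⟨c, fun z => by rw [hc.l2, Function.update_self]⟩
    have e := phi_piece hf hf' h hc.v2 hi hc.w2 hc.m2 fun l e => by
      unfold nl; simp only [eH l, eL l e]
    have e' : nl R2 i = nH := by
      rw [hnH, nl, if_pos eI, zero_add]; simp only [eH i]
    rwa [e'] at e

/-- The cutting lemma: the piece with data `(a1, X1)` is the low one unless `s` is true. -/
theorem Valid.cut (hf : 0 < f) (hf' : f ≤ 1 / 16) {R : GB ι} (h : R.Valid f) {i : ι}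
    (hi : ∀ j, R.w j ≤ R.w i) {X1 X2 : ℝ} (x1 : 0 ≤ X1) (x2 : 0 ≤ X2) :
    ∃ (s : Bool) (φ1 φ2 : ℝ), (s = true → ¬R.Rect) ∧ 0 ≤ φ1 ∧ φ1 ≤ 8 * Fintype.card ι ∧
      0 ≤ φ2 ∧ φ2 ≤ 8 * Fintype.card ι ∧
      φ1 * X1 + φ2 * X2 ≤ (R.phi f - R.drop f) * (X1 + X2) ∧
      ∀ a1 a2 : ℝ, a1 + a2 = R.vol → f * R.vol ≤ a1 → f * R.vol ≤ a2 →
        ∃ (c : ℝ) (R1 R2 : GB ι), IsCut f R i c R1 R2 ∧
          (if s then R2 else R1).vol = a1 ∧ (if s then R1 else R2).vol = a2 ∧
          (if s then R2 else R1).phi f ≤ φ1 ∧ (if s then R1 else R2).phi f ≤ φ2 := by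
  by_cases hc : (¬R.FlatL i → R.FlatH i → X1 ≤ X2) ∧ (R.FlatL i → ¬R.FlatH i → X2 ≤ X1)
  · obtain ⟨φ1, φ2, p1, p2, p3, p4, p5, p6⟩ := h.cut_phi hf hf' hi x1 x2 hc.1 hc.2
    refine ⟨false, φ1, φ2, by simp, p1, p2, p3, p4, p5, fun a1 a2 e h1 h2 => ?_⟩
    obtain ⟨c, R1, R2, hR, e1, e2⟩ := h.cut_vol hf hf' hi h1 (by linarith only [e, h2])
    exact ⟨c, R1, R2, hR, e1, by simp only [Bool.false_eq_true, if_false]; linarith only [e, e2],
      (p6 c R1 R2 hR).1, (p6 c R1 R2 hR).2⟩
  · have q1 : ¬R.FlatL i → R.FlatH i → X2 ≤ X1 := fun a b => by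
      by_contra l
      exact hc ⟨fun _ _ => (not_le.1 l).le, fun a' => absurd a' a⟩
    have q2 : R.FlatL i → ¬R.FlatH i → X1 ≤ X2 := fun a b => by
      by_contra l
      exact hc ⟨fun a' => absurd a a', fun _ _ => (not_le.1 l).le⟩
    obtain ⟨φ1, φ2, p1, p2, p3, p4, p5, p6⟩ := h.cut_phi hf hf' hi x2 x1 q1 q2
    refine ⟨true, φ2, φ1, fun _ hr => hc ⟨fun a => absurd (hr i).1 a, fun _ b => absurd (hr i).2 b⟩,
      p3, p4, p1, p2, by rw [add_comm X1 X2]; linarith only [p5], fun a1 a2 e h1 h2 => ?_⟩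
    obtain ⟨c, R1, R2, hR, e1, e2⟩ := h.cut_vol hf hf' hi h2 (by linarith only [e, h1])
    exact ⟨c, R1, R2, hR, by simp only [if_true]; linarith only [e, e2], e1,
      (p6 c R1 R2 hR).2, (p6 c R1 R2 hR).1⟩

theorem IsCut.map {R R1 R2 : GB ι} {i : ι} {c : ℝ} (hc : IsCut f R i c R1 R2) {s : ℝ}
    (hs : 0 < s) (v : E ι) :
    IsCut f (R.map s v) i (s * c + v i) (R1.map s v) (R2.map s v) := by
  have hz : ∀ z : E ι, s • (s⁻¹ • (z - v)) + v = z := fun z => by
    rw [smul_smul, mul_inv_cancel₀ hs.ne', one_smul, sub_add_cancel]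
  have hz' : ∀ z : E ι, s⁻¹ • (s • z + v - v) = z := fun z => by
    rw [add_sub_cancel_right, smul_smul, inv_mul_cancel₀ hs.ne', one_smul]
  refine ⟨?_, ?_, ?_, ?_, hc.v1.map hs v, hc.v2.map hs v, fun j e => ?_, fun j e => ?_, ?_, ?_,
    fun z hz1 => ?_, ?_, ?_⟩
  · simp only [GB.map, hc.l1]
  · funext j
    by_cases e : j = i
    · subst e; simp [GB.map, hc.h1]
    · simp [GB.map, hc.h1, Function.update_of_ne e]
  · funext j
    by_cases e : j = i
    · subst e; simp [GB.map, hc.l2]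
    · simp [GB.map, hc.l2, Function.update_of_ne e]
  · simp only [GB.map, hc.h2]
  · simp only [GB.map, hc.w1 j e]
  · simp only [GB.map, hc.w2 j e]
  · have e1 := mul_le_mul_of_nonneg_left hc.m1.1 hs.le
    have e2 := mul_le_mul_of_nonneg_left hc.m1.2 hs.le
    simp only [GB.map]
    constructor <;> linarith only [e1, e2]
  · have e1 := mul_le_mul_of_nonneg_left hc.m2.1 hs.le
    have e2 := mul_le_mul_of_nonneg_left hc.m2.2 hs.le
    simp only [GB.map]
    constructor <;> linarith only [e1, e2]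
  · rw [← hz z, map_mem R hs] at hz1
    have e1 := mul_le_mul_of_nonneg_left (hc.mg _ hz1).1 hs.le
    have e2 := mul_le_mul_of_nonneg_left (hc.mg _ hz1).2 hs.le
    simp only [GB.map]
    constructor <;> linarith only [e1, e2]
  · ext z
    rw [← hz z, mem_inter_iff, map_mem R hs, map_mem R1 hs, hc.s1, mem_inter_iff]
    refine and_congr_right fun _ => ?_
    simp only [mem_ofPred_eq, Pi.add_apply, Pi.smul_apply, smul_eq_mul, add_le_add_iff_right]
    exact (mul_le_mul_iff_right₀ hs).symm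
  · ext z
    rw [← hz z, mem_inter_iff, map_mem R hs, map_mem R2 hs, hc.s2, mem_inter_iff]
    refine and_congr_right fun _ => ?_
    simp only [mem_ofPred_eq, Pi.add_apply, Pi.smul_apply, smul_eq_mul, add_le_add_iff_right]
    exact (mul_le_mul_iff_right₀ hs).symm

theorem IsCut.spl1 (hf : 0 < f) {R R1 R2 : GB ι} (h : R.Valid f) {i : ι} {c : ℝ}
    (hc : IsCut f R i c R1 R2) {z : E ι} (hz : z ∈ R1.set) :
    R.spl i c z = NB.hf i (-1) (R1.th z) := by
  rw [hc.s1] at hz
  have e1 := (hc.mg z hz.1).1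
  have e2 : 0 < f / 4 * R.w i := mul_pos (by positivity) (h.pos i)
  have e3 : c - R.lo i z ≠ 0 := by linarith only [e1, e2]
  have e4 : z i ≤ c := hz.2
  funext j
  by_cases e : j = i
  · subst e
    simp only [spl, NB.hf, th, Function.update_self, if_pos e4, hc.l1, hc.h1]
    field_simp
    ring
  · simp only [spl, NB.hf, th, Function.update_of_ne e, hc.l1, hc.h1]

theorem IsCut.spl2 (hf : 0 < f) {R R1 R2 : GB ι} (h : R.Valid f) {i : ι} {c : ℝ}
    (hc : IsCut f R i c R1 R2) {z : E ι} (hz : z ∈ R2.set) :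
    R.spl i c z = NB.hf i 1 (R2.th z) := by
  rw [hc.s2] at hz
  have e1 := (hc.mg z hz.1).2
  have e2 : 0 < f / 4 * R.w i := mul_pos (by positivity) (h.pos i)
  have e3 : R.hi i z - c ≠ 0 := by linarith only [e1, e2]
  have e4 : c ≤ z i := hz.2
  funext j
  by_cases e : j = i
  · subst e
    simp only [spl, NB.hf, th, Function.update_self, hc.l2, hc.h2]
    split_ifs with e5
    · rw [le_antisymm e5 e4]
      field_simp
      ring
    · field_simp
      ring
  · simp only [spl, NB.hf, th, Function.update_of_ne e, hc.l2, hc.h2]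

theorem IsCut.spl_sign (hf : 0 < f) {R R1 R2 : GB ι} (h : R.Valid f) {i : ι} {c : ℝ}
    (hc : IsCut f R i c R1 R2) {z : E ι} (hz : z ∈ R.set) :
    (z ∈ R1.set ↔ R.spl i c z i ≤ 0) ∧ (z ∈ R2.set ↔ 0 ≤ R.spl i c z i) := by
  have e1 := hc.mg z hz
  have e2 : 0 < f / 4 * R.w i := mul_pos (by positivity) (h.pos i)
  have e3 : 0 < c - R.lo i z := by linarith only [e1.1, e1, e2]
  have e4 : 0 < R.hi i z - c := by linarith only [e1.2, e1, e2]
  rw [hc.s1, hc.s2]
  simp only [mem_inter_iff, hz, true_and, mem_ofPred_eq, spl, Function.update_self]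
  split_ifs with e5
  · rw [div_le_iff₀ e3, le_div_iff₀ e3]
    constructor <;> constructor <;> intro <;> linarith
  · rw [div_le_iff₀ e4, le_div_iff₀ e4]
    constructor <;> constructor <;> intro <;> linarith

theorem IsCut.union {R R1 R2 : GB ι} {i : ι} {c : ℝ} (hc : IsCut f R i c R1 R2) :
    R.set = R1.set ∪ R2.set := by
  rw [hc.s1, hc.s2, ← inter_union_distrib_left]
  exact (inter_eq_left.2 fun z _ => le_total (z i) c).symm

theorem map_spl (R : GB ι) {s : ℝ} (hs : 0 < s) (v : E ι) (i : ι) (c : ℝ) (z : E ι) :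
    (R.map s v).spl i (s * c + v i) (s • z + v) = R.spl i c z := by
  have hz' : s⁻¹ • (s • z + v - v) = z := by
    rw [add_sub_cancel_right, smul_smul, inv_mul_cancel₀ hs.ne', one_smul]
  have e : s * z i + v i ≤ s * c + v i ↔ z i ≤ c := by
    rw [add_le_add_iff_right]; exact mul_le_mul_iff_right₀ hs
  unfold spl
  rw [map_th R hs]
  congr 1
  simp only [GB.map, hz', Pi.add_apply, Pi.smul_apply, smul_eq_mul, e, add_sub_add_right_eq_sub,
    ← mul_sub, mul_div_mul_left _ _ hs.ne']

end GB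

/-- Cutting a box at a given position. -/
theorem Bx.isCut (hf : 0 < f) (hf' : f ≤ 1 / 16) {Q : Bx ι} (hQ : Q.Pos)
    (ha : ∀ i j, Q.sd i ≤ Mx f * Q.sd j) {i : ι} (hi : ∀ j, Q.sd j ≤ Q.sd i) {c : ℝ}
    (h1 : Q.lo i + f / 2 * Q.sd i ≤ c) (h2 : c + f / 2 * Q.sd i ≤ Q.hi i) :
    GB.IsCut f Q.gb i c (⟨Q.lo, Function.update Q.hi i c⟩ : Bx ι).gb
      (⟨Function.update Q.lo i c, Q.hi⟩ : Bx ι).gb := by
  obtain ⟨-, -, -, c4, -, -, -, c8, -⟩ := cst (ι := ι) hf hf'
  have hs : 0 < Q.sd i := sub_pos.2 (hQ i)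
  have p : 0 < f * Q.sd i := by positivity
  have es : Q.sd i = Q.hi i - Q.lo i := rfl
  have key : ∀ Q' : Bx ι, (∀ j, j ≠ i → Q'.sd j = Q.sd j) → f / 2 * Q.sd i ≤ Q'.sd i →
      Q'.sd i ≤ Q.sd i → Q'.gb.Valid f := by
    intro Q' e1 e2 e3
    refine Bx.gb_valid hf (fun j => ?_) fun j l => ?_
    · refine sub_pos.1 (?_ : 0 < Q'.sd j)
      by_cases e : j = i
      · subst e; linarith only [p, e2]
      · rw [e1 j e]; exact sub_pos.2 (hQ j)
    · have e4 : Q'.sd j ≤ Q.sd j := by
        by_cases e : j = i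
        · subst e; exact e3
        · exact (e1 j e).le
      by_cases e : l = i
      · subst e
        have e5 := mul_le_mul_of_nonneg_left e2 (show 0 ≤ Mx f by linarith only [hf, hf', c4])
        have e6 : Mx f * (f / 2 * Q.sd l) = 10 * Q.sd l := by linear_combination Q.sd l / 2 * c8
        linarith only [hi j, e4, hs, e5, e6]
      · rw [e1 l e]; exact e4.trans (ha j l)
  have w1 : ∀ j, j ≠ i → (⟨Q.lo, Function.update Q.hi i c⟩ : Bx ι).sd j = Q.sd j := fun j e => by
    simp [Bx.sd, Function.update_of_ne e]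
  have w2 : ∀ j, j ≠ i → (⟨Function.update Q.lo i c, Q.hi⟩ : Bx ι).sd j = Q.sd j := fun j e => by
    simp [Bx.sd, Function.update_of_ne e]
  have u1 : (⟨Q.lo, Function.update Q.hi i c⟩ : Bx ι).sd i = c - Q.lo i := by simp [Bx.sd]
  have u2 : (⟨Function.update Q.lo i c, Q.hi⟩ : Bx ι).sd i = Q.hi i - c := by simp [Bx.sd]
  refine ⟨rfl, ?_, ?_, rfl, key _ w1 (by rw [u1]; linarith only [h1]) (by rw [u1]; linarith only [h2, p, es]),
    key _ w2 (by rw [u2]; linarith only [h2]) (by rw [u2]; linarith only [h1, p, es]), w1, w2, ?_, ?_, fun z _ => ?_, ?_, ?_⟩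
  · funext j
    by_cases e : j = i
    · subst e; simp [Bx.gb]
    · simp [Bx.gb, Function.update_of_ne e]
  · funext j
    by_cases e : j = i
    · subst e; simp [Bx.gb]
    · simp [Bx.gb, Function.update_of_ne e]
  · show f / 2 * Q.sd i ≤ Bx.sd _ i ∧ Bx.sd _ i ≤ (1 - f / 2) * Q.sd i
    rw [u1]
    constructor <;> linarith only [h1, h2, es]
  · show f / 2 * Q.sd i ≤ Bx.sd _ i ∧ Bx.sd _ i ≤ (1 - f / 2) * Q.sd i
    rw [u2]
    constructor <;> linarith only [h2, h1, es]
  · show Q.lo i + f / 4 * Q.sd i ≤ c ∧ c + f / 4 * Q.sd i ≤ Q.hi i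
    constructor <;> linarith only [h1, p, h2]
  · ext z
    constructor
    · intro hz
      have e1 : Q.lo i ≤ z i ∧ z i ≤ c := by simpa [Bx.gb] using hz i
      refine ⟨fun j => ?_, e1.2⟩
      by_cases e : j = i
      · subst e; exact ⟨e1.1, show z j ≤ Q.hi j by linarith only [e1.2, h2, p, e1]⟩
      · simpa [Bx.gb, Function.update_of_ne e] using hz j
    · rintro ⟨e1, e2⟩ j
      by_cases e : j = i
      · subst e; exact ⟨(e1 j).1, by simpa [Bx.gb] using e2⟩
      · simpa [Bx.gb, Function.update_of_ne e] using e1 j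
  · ext z
    constructor
    · intro hz
      have e1 : c ≤ z i ∧ z i ≤ Q.hi i := by simpa [Bx.gb] using hz i
      refine ⟨fun j => ?_, e1.1⟩
      by_cases e : j = i
      · subst e; exact ⟨show Q.lo j ≤ z j by linarith only [e1.1, h1, p, e1], e1.2⟩
      · simpa [Bx.gb, Function.update_of_ne e] using hz j
    · rintro ⟨e1, e2⟩ j
      by_cases e : j = i
      · subst e; exact ⟨by simpa [Bx.gb] using e2, (e1 j).2⟩
      · simpa [Bx.gb, Function.update_of_ne e] using e1 j

end Pool.Agent.Lib.MP_ecd4e3_gt.NB
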