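import Pool.Agent.Lib.MP_ecd4e3_gt.NB.DSusp
import Pool.Agent.Lib.MP_ecd4e3_gt.NB.FVol

/-! The Alexander trick for displays. -/

namespace Pool.Agent.Lib.MP_ecd4e3_gt.NB

open Set Filter Topology Metric MeasureTheory
open scoped NNReal ENNReal

namespace DA

/-- A gauge bound gives continuity. -/
theorem cw_gs {T X Y : Type} [MetricSpace T] [MetricSpace X] [MetricSpace Y] {A : Set (T × X)}
    {Z : T × X → Y} {a b : ℝ} {z : T × X}
    (h : ∀ᶠ z' in 𝓝[A] z, dist (Z z') (Z z) ≤ gs a b z z') : ContinuousWithinAt Z A z := by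
  refine tendsto_iff_dist_tendsto_zero.2 (squeeze_zero' (.of_forall fun _ => dist_nonneg) h ?_)
  have hc : Continuous fun z' : T × X => gs a b z z' := by unfold gs; fun_prop
  have := (hc.tendsto z).mono_left (nhdsWithin_le_nhds (s := A))
  rwa [show gs a b z z = 0 by simp [gs]] at this

/-- Solutions without boundary data. -/
theorem sol_mk {T X Y : Type} [MetricSpace T] [MetricSpace X] [MetricSpace Y] {U : Set Y}
    {J : Set T} {R : Set X} {β Z : T × X → Y} {S : Set Y} {a b c : ℝ}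
    (maps : ∀ t ∈ J, ∀ x ∈ R, Z (t, x) ∈ S)
    (ex : ∀ t ∈ J, ∀ y ∈ S, y ∈ U → ∃ x ∈ R, Z (t, x) = y)
    (uq : ∀ t ∈ J, ∀ x ∈ R, ∀ x' ∈ R, Z (t, x) ∈ U → Z (t, x') = Z (t, x) → x' = x)
    (lip : ∀ z ∈ J ×ˢ R, Z z ∈ U → ∀ᶠ z' in 𝓝[J ×ˢ R] z, dist (Z z') (Z z) ≤ gs a b z z')
    (lo : ∀ z ∈ J ×ˢ R, Z z ∈ U →
      Dm (J ×ˢ R) (fun w => Z w ∈ U) (fun w => w.2) (fun w => (w.1, Z w)) z) :
    Sol U (pbP J R ∅ β S (gs a b) c) univ Z := by
  refine ⟨fun z hz _ => ⟨hz.1, maps _ hz.1 _ hz.2⟩, fun z hz => hz.2.elim, fun z hz => hz.2.elim,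
    fun t y hy hU _ => ?_, fun t x x' h h' hU _ e => uq t h.1 x h.2 x' h'.2 hU e,
    fun z hz hU _ => ⟨cw_gs (lip z hz hU), lip z hz hU⟩,
    fun z hz hU _ => (lo z hz hU).imp fun _ _ k => k.1⟩
  obtain ⟨x, hx, e⟩ := ex t hy.1 y hy.2 hU
  exact ⟨x, ⟨hy.1, hx⟩, e⟩

/-- The height function of the cone. -/
noncomputable def et (n : ℝ) : ℝ := min (44 * n / 9) (min 4 ((5 + 8 * n) / 3))

theorem et_lo {n : ℝ} (h : n ≤ 3 / 4) : et n = 44 * n / 9 :=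
  min_eq_left (le_min (by linarith only [h]) (by linarith only [h]))

theorem et_hi {n : ℝ} (h : 3 / 4 ≤ n) : et n = 4 - max 0 ((7 - 8 * n) / 3) := by
  unfold et
  rcases le_total n (7 / 8) with u | u
  · rw [max_eq_right (by linarith only [u]), min_eq_right (a := 4) (by linarith only [u]),
      min_eq_right (by linarith only [h])]
    ring
  · rw [max_eq_left (by linarith only [u]), min_eq_left (a := 4) (by linarith only [u]), min_eq_right (by linarith only [u])]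
    ring

theorem et_mono : Monotone et := fun a b h =>
  min_le_min (by linarith only [h]) (min_le_min le_rfl (by linarith only [h]))

theorem et_bd {n : ℝ} (h : 0 ≤ n) : 0 ≤ et n ∧ et n ≤ 4 :=
  ⟨le_min (by linarith only [h]) (le_min (by norm_num) (by linarith only [h])),
    (min_le_right _ _).trans (min_le_left _ _)⟩

theorem et_zero : et 0 = 0 := by rw [et_lo (by norm_num)]; norm_num
theorem et_one : et 1 = 4 := by rw [et_hi (by norm_num)]; norm_num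

theorem et_cases (n : ℝ) : n ≤ 3 / 4 ∧ et n = 44 * n / 9 ∨
    3 / 4 ≤ n ∧ n ≤ 7 / 8 ∧ et n = (5 + 8 * n) / 3 ∨ 7 / 8 ≤ n ∧ et n = 4 := by
  rcases le_total n (3 / 4) with u | u
  · exact .inl ⟨u, et_lo u⟩
  rcases le_total n (7 / 8) with v | v
  · exact .inr (.inl ⟨u, v, by rw [et_hi u, max_eq_right (by linarith only [v])]; ring⟩)
  · exact .inr (.inr ⟨v, by rw [et_hi u, max_eq_left (by linarith only [v])]; ring⟩)

theorem et_inj {n n' : ℝ} (h : et n < 4) (e : et n' = et n) : n' = n := by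
  have m : StrictMono fun t : ℝ => min (44 * t / 9) ((5 + 8 * t) / 3) := fun x y h =>
    min_lt_min (by linarith only [h]) (by linarith only [h])
  have k : ∀ t, et t < 4 → et t = min (44 * t / 9) ((5 + 8 * t) / 3) := fun t ht => by
    unfold et at ht ⊢
    rw [min_left_comm] at ht ⊢
    exact min_eq_right ((min_lt_iff.1 ht).resolve_left (lt_irrefl _)).le
  exact m.injective ((k n' (e.trans_lt h)).symm.trans (e.trans (k n h)))

theorem et_lip (n n' : ℝ) : |et n' - et n| ≤ 5 * |n' - n| := by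
  have h3 := abs_nonneg (n' - n)
  refine (abs_min_sub_min_le_max _ _ _ _).trans (max_le ?_
    ((abs_min_sub_min_le_max _ _ _ _).trans (max_le (by simp) ?_)))
  · rw [show 44 * n' / 9 - 44 * n / 9 = 44 / 9 * (n' - n) by ring, abs_mul,
      abs_of_pos (by norm_num : (0 : ℝ) < 44 / 9)]
    linarith only [h3]
  · rw [show (5 + 8 * n') / 3 - (5 + 8 * n) / 3 = 8 / 3 * (n' - n) by ring, abs_mul,
      abs_of_pos (by norm_num : (0 : ℝ) < 8 / 3)]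
    linarith only [h3]

theorem et_exp {n n' : ℝ} (h : et n < 4) (h' : et n' < 4) : |n' - n| ≤ |et n' - et n| := by
  have k : ∀ a b : ℝ, et a < 4 → et b < 4 → a ≤ b → b - a ≤ et b - et a := fun a b ha hb hab => by
    rcases et_cases a with ⟨u1, u2⟩ | ⟨u1, u3, u2⟩ | ⟨u1, u2⟩ <;>
      rcases et_cases b with ⟨v1, v2⟩ | ⟨v1, v3, v2⟩ | ⟨v1, v2⟩ <;> linarith
  rcases le_total n n' with u | u
  · rw [abs_of_nonneg (sub_nonneg.2 u)]
    exact (k n n' h h' u).trans (le_abs_self _)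
  · rw [abs_sub_comm, abs_sub_comm (et n'), abs_of_nonneg (sub_nonneg.2 u)]
    exact (k n' n h' h u).trans (le_abs_self _)

theorem et_cont : Continuous et := by unfold et; fun_prop

theorem et_surj {t : ℝ} (h0 : 0 ≤ t) (h1 : t ≤ 4) : ∃ n ∈ Icc (0 : ℝ) 1, et n = t := by
  rcases le_total t (11 / 3) with u | u
  · exact ⟨9 * t / 44, ⟨by linarith only [h0], by linarith only [h1]⟩, by rw [et_lo (by linarith only [u])]; ring⟩
  · exact ⟨(3 * t - 5) / 8, ⟨by linarith only [u], by linarith only [h1]⟩, by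
      rw [et_hi (by linarith only [u]), max_eq_right (by linarith only [h1])]; ring⟩

/-- The radial profile of the suspension coordinates. -/
noncomputable def ra (t : ℝ) : ℝ := min 1 (min t (4 - t))

theorem ra_lip (t t' : ℝ) : |ra t - ra t'| ≤ |t - t'| := by
  unfold ra
  refine (abs_min_sub_min_le_max _ _ _ _).trans (max_le (by simp) ?_)
  refine (abs_min_sub_min_le_max _ _ _ _).trans (max_le le_rfl ?_)
  rw [show 4 - t - (4 - t') = -(t - t') by ring, abs_neg]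

theorem ra_bd {t : ℝ} (h0 : 0 ≤ t) (h1 : t ≤ 4) : 0 ≤ ra t ∧ ra t ≤ 1 ∧ ra t ≤ t ∧
    (t ≤ 15 / 4 → t ≤ 15 * ra t) ∧ |cl (-1) 1 (t - 2)| ≤ 1 ∧
    t = 2 + cl (-1) 1 (t - 2) + (1 - ra t) * cl (-1) 1 (t - 2) := by
  refine ⟨le_min zero_le_one (le_min h0 (by linarith only [h1])), min_le_left _ _,
    (min_le_right _ _).trans (min_le_left _ _), fun h => ?_,
    abs_le.2 (cl_mem (by norm_num) _), ?_⟩
  · have : t / 15 ≤ ra t := le_min (by linarith only [h1]) (le_min (by linarith only [h0]) (by linarith only [h]))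
    linarith only [this]
  · unfold ra cl
    rcases le_total t 1 with a | a
    · rw [min_eq_left (a := t) (by linarith only [a]), min_eq_right a,
        min_eq_right (a := 1) (b := t - 2) (by linarith only [a]), max_eq_left (by linarith only [a])]
      ring
    rcases le_total t 3 with b | b
    · rw [min_eq_left (le_min a (by linarith only [b])), min_eq_right (a := 1) (b := t - 2) (by linarith only [b]),
        max_eq_right (by linarith only [a])]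
      ring
    · rw [min_eq_right (a := t) (by linarith only [b]), min_eq_right (a := 1) (b := 4 - t) (by linarith only [b]),
        min_eq_left (a := 1) (b := t - 2) (by linarith only [b]), max_eq_right (by linarith only [])]
      ring

variable {ι : Type} [Fintype ι] [DecidableEq ι] {i0 : ι}

/-- Balls of the hyperplane orthogonal to the axis. -/
def Bf (i0 : ι) (ρ : ℝ) : Set (E ι) := {y | y i0 = 0 ∧ ‖y‖ ≤ ρ}

theorem norm_cs {t : ℝ} (ht : 0 ≤ t) {ω : E ι} (hω : ω ∈ Cs i0) : ‖t • ω‖ = t := by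
  rw [norm_smul, hω.2, mul_one, Real.norm_of_nonneg ht]

theorem mem_cs {t ρ : ℝ} (ht : 0 ≤ t) (h : t ≤ ρ) {ω : E ι} (hω : ω ∈ Cs i0) : t • ω ∈ Bf i0 ρ :=
  ⟨by simp [hω.1], (norm_cs ht hω).trans_le h⟩

theorem polar [Nontrivial ι] {y : E ι} (hy : y i0 = 0) : ∃ ω ∈ Cs i0, y = ‖y‖ • ω := by
  by_cases h : y = 0
  · obtain ⟨j, hj⟩ := exists_ne i0
    exact ⟨Pi.single j 1, ⟨by simp [hj.symm], by simp [Pi.norm_single]⟩, by simp [h]⟩
  · have h' : ‖y‖ ≠ 0 := norm_ne_zero_iff.2 h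
    exact ⟨‖y‖⁻¹ • y, ⟨by simp [hy], by rw [norm_smul, norm_inv, norm_norm, inv_mul_cancel₀ h']⟩,
      by rw [smul_inv_smul₀ h']⟩

/-- Directions against points. -/
theorem dir_le {t t' : ℝ} (ht : 0 ≤ t) (ht' : 0 ≤ t') {ω ω' : E ι} (hω : ω ∈ Cs i0)
    (hω' : ω' ∈ Cs i0) : |t - t'| ≤ ‖t • ω - t' • ω'‖ ∧
      t * ‖ω - ω'‖ ≤ ‖t • ω - t' • ω'‖ + |t - t'| ∧
      ‖t • ω - t' • ω'‖ ≤ t * ‖ω - ω'‖ + |t - t'| := by
  have e : ‖(t - t') • ω'‖ = |t - t'| := by rw [norm_smul, hω'.2, mul_one, Real.norm_eq_abs]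
  have e' : ‖t • (ω - ω')‖ = t * ‖ω - ω'‖ := by rw [norm_smul, Real.norm_of_nonneg ht]
  refine ⟨?_, ?_, ?_⟩
  · have := abs_norm_sub_norm_le (t • ω) (t' • ω')
    rwa [norm_cs ht hω, norm_cs ht' hω'] at this
  · rw [← e, ← e', show t • (ω - ω') = (t • ω - t' • ω') - (t - t') • ω' by module]
    exact norm_sub_le _ _
  · rw [← e, ← e', show t • ω - t' • ω' = t • (ω - ω') + (t - t') • ω' by module]
    exact norm_add_le _ _

/-- Folding the ball of radius four onto the sphere. -/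
noncomputable def unf (i0 : ι) (y : E ι) : E ι := usp i0 ‖y‖ (‖y‖⁻¹ • y)

theorem unf_polar {t : ℝ} (ht : 0 ≤ t) {ω : E ι} (hω : ω ∈ Cs i0) :
    unf i0 (t • ω) = usp i0 t ω := by
  unfold unf
  rw [norm_cs ht hω]
  rcases ht.eq_or_lt with rfl | h
  · rw [usp_zero, usp_zero]
  · rw [inv_smul_smul₀ h.ne']

theorem usp_sub (t t' : ℝ) (ω ω' : E ι) : usp i0 t ω - usp i0 t' ω' = (ra t • ω - ra t' • ω')
    + (cl (-1) 1 (t - 2) - cl (-1) 1 (t' - 2)) • (Pi.single i0 1 : E ι) := by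
  unfold usp ra
  module

variable [Nontrivial ι]

theorem unf_norm {y : E ι} (hy : y ∈ Bf i0 4) : ‖unf i0 y‖ = 1 := by
  obtain ⟨ω, hω, e⟩ := polar hy.1
  rw [e, unf_polar (norm_nonneg _) hω]
  exact usp_norm ⟨norm_nonneg _, hy.2⟩ hω

theorem unf_lip {y z : E ι} (hy : y ∈ Bf i0 4) (hz : z ∈ Bf i0 4) :
    dist (unf i0 y) (unf i0 z) ≤ 4 * dist y z := by
  obtain ⟨ω, hω, e⟩ := polar hy.1
  obtain ⟨ω', hω', e'⟩ := polar hz.1
  have a := norm_nonneg y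
  have a' := norm_nonneg z
  have b := hy.2
  have b' := hz.2
  generalize ‖y‖ = t at *
  generalize ‖z‖ = t' at *
  subst e e'
  obtain ⟨d1, d2, -⟩ := dir_le a a' hω hω'
  obtain ⟨r0, -, r1, -⟩ := ra_bd a b
  have d3 := (dir_le r0 (ra_bd a' b').1 hω hω').2.2
  have d4 := cl_lip (-1) 1 (t - 2) (t' - 2)
  rw [sub_sub_sub_cancel_right] at d4
  rw [unf_polar a hω, unf_polar a' hω', dist_eq_norm, dist_eq_norm, usp_sub]
  refine (norm_add_le _ _).trans ?_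
  rw [norm_smul, Pi.norm_single, norm_one, mul_one, Real.norm_eq_abs]
  have := mul_le_mul_of_nonneg_right r1 (norm_nonneg (ω - ω'))
  linarith only [ra_lip t t', d1, d2, d3, d4, this]

theorem unf_exp' {δ : ℝ} (p0 : 0 ≤ δ) (p1 : δ ≤ 1) {y z : E ι} (hy : y ∈ Bf i0 (4 - δ))
    (hz : z ∈ Bf i0 4) : δ * dist y z ≤ 11 * dist (unf i0 y) (unf i0 z) := by
  obtain ⟨ω, hω, e⟩ := polar hy.1
  obtain ⟨ω', hω', e'⟩ := polar hz.1
  have a := norm_nonneg y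
  have a' := norm_nonneg z
  have b := hy.2
  have b' := hz.2
  generalize ‖y‖ = t at *
  generalize ‖z‖ = t' at *
  subst e e'
  obtain ⟨r0, r1, -, -, -, r3⟩ := ra_bd a (by linarith only [b, p0])
  have r2 : δ * t / 4 ≤ ra t := le_min (by nlinarith only [a, b, p0, p1])
    (le_min (by nlinarith only [a, p0, p1]) (by nlinarith only [a, b, p0]))
  obtain ⟨s0, -, -, -, s2, s3⟩ := ra_bd a' b'
  rw [unf_polar a hω, unf_polar a' hω', dist_eq_norm, dist_eq_norm, usp_sub]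
  set v := ra t • ω - ra t' • ω' with hv
  set β := cl (-1) 1 (t - 2) with hβ
  set β' := cl (-1) 1 (t' - 2) with hβ'
  set d := ‖v + (β - β') • (Pi.single i0 1 : E ι)‖ with hd
  have v0 : v i0 = 0 := by simp [hv, hω.1, hω'.1]
  have d1 : |β - β'| ≤ d := by
    simpa [v0] using norm_le_pi_norm (v + (β - β') • (Pi.single i0 1 : E ι)) i0
  have d2 : ‖v‖ ≤ d := by
    refine (pi_norm_le_iff_of_nonneg (norm_nonneg _)).2 fun j => ?_
    by_cases h : j = i0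
    · simp [h, v0]
    · simpa [h] using norm_le_pi_norm (v + (β - β') • (Pi.single i0 1 : E ι)) j
  obtain ⟨d3, d4, -⟩ := dir_le r0 s0 hω hω'
  rw [← hv] at d3 d4
  have d5 : |t - t'| ≤ 3 * d := by
    have e : t - t' = (β - β') + (1 - ra t) * (β - β') - (ra t - ra t') * β' := by linarith only [r3, s3]
    have u1 : |(1 - ra t) * (β - β')| ≤ 1 * d := by
      rw [abs_mul]
      exact mul_le_mul (abs_le.2 ⟨by linarith only [r1], by linarith only [r0]⟩) d1 (abs_nonneg _) zero_le_one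
    have u2 : |(ra t - ra t') * β'| ≤ d * 1 := by
      rw [abs_mul]
      exact mul_le_mul (d3.trans d2) s2 (abs_nonneg _) (norm_nonneg _)
    rw [e, abs_le]
    constructor <;> linarith only [abs_le.1 u1, abs_le.1 u2, abs_le.1 d1, u1, u2, d1]
  have d6 := (dir_le a a' hω hω').2.2
  have := mul_le_mul_of_nonneg_right r2 (norm_nonneg (ω - ω'))
  have d7 := mul_le_mul_of_nonneg_left d6 p0
  have d8 := mul_le_mul_of_nonneg_right p1 (abs_nonneg (t - t'))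
  linarith only [norm_nonneg v, d2, d3, d4, d5, d7, d8, this]

theorem unf_exp {y z : E ι} (hy : y ∈ Bf i0 (15 / 4)) (hz : z ∈ Bf i0 4) :
    dist y z ≤ 63 * dist (unf i0 y) (unf i0 z) := by
  have := unf_exp' (δ := 1 / 4) (by norm_num) (by norm_num) ⟨hy.1, hy.2.trans (by norm_num)⟩ hz
  linarith only [this, dist_nonneg (x := unf i0 y) (y := unf i0 z)]

theorem unf_inj {y z : E ι} (hy : y ∈ Bf i0 4) (hz : z ∈ Bf i0 4) (h : unf i0 y = unf i0 z) :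
    y = z ∨ ‖y‖ = 4 ∧ ‖z‖ = 4 := by
  obtain ⟨ω, hω, e⟩ := polar hy.1
  obtain ⟨ω', hω', e'⟩ := polar hz.1
  rw [e, e', unf_polar (norm_nonneg _) hω, unf_polar (norm_nonneg _) hω'] at h
  obtain ⟨h1, h2⟩ := usp_inj ⟨norm_nonneg _, hz.2⟩ ⟨norm_nonneg _, hy.2⟩ hω' hω h
  rcases hz.2.eq_or_lt with u | u
  · exact .inr ⟨h1.trans u, u⟩
  rcases (norm_nonneg z).eq_or_lt with v | v
  · exact .inl ((norm_eq_zero.1 (h1.trans v.symm)).trans (norm_eq_zero.1 v.symm).symm)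
  · exact .inl (by rw [e, e', h1, h2 v u])

theorem unf_four {y : E ι} (h : ‖y‖ = 4) : unf i0 y = Pi.single i0 1 := by
  unfold unf
  rw [h, usp_four]

theorem unf_top {y : E ι} (hy : y ∈ Bf i0 4) (h : 3 ≤ ‖y‖) :
    dist (unf i0 y) (Pi.single i0 1) = 4 - ‖y‖ := by
  obtain ⟨ω, hω, e⟩ := polar hy.1
  have e' : unf i0 y = usp i0 ‖y‖ ω := by rw [← unf_polar (norm_nonneg _) hω, ← e]
  rw [e', usp_top ⟨h, hy.2⟩, dist_self_add_left, norm_cs (by linarith only [hy.2]) hω]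

theorem unf_surj {x : E ι} (hx : ‖x‖ = 1) : ∃ y ∈ Bf i0 4, unf i0 y = x := by
  obtain ⟨σ, hσ, ω, hω, e⟩ := usp_surj (i0 := i0) hx
  exact ⟨σ • ω, mem_cs hσ.1 hσ.2 hω, by rw [unf_polar hσ.1 hω, e]⟩

/-- Moving the origin to `c`. -/
noncomputable def mu (c y : E ι) : E ι := y + max 0 (1 - ‖y‖ / (11 / 3)) • c

omit [DecidableEq ι] [Nontrivial ι] in
theorem mu_small {c : E ι} (hc : ‖c‖ ≤ 7 / 2) (y z : E ι) :
    dist (max 0 (1 - ‖y‖ / (11 / 3)) • c) (max 0 (1 - ‖z‖ / (11 / 3)) • c) ≤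
      21 / 22 * dist y z := by
  rw [dist_eq_norm, ← sub_smul, norm_smul, Real.norm_eq_abs, dist_eq_norm]
  have h1 : |max 0 (1 - ‖y‖ / (11 / 3)) - max 0 (1 - ‖z‖ / (11 / 3))| ≤ 3 / 11 * ‖y - z‖ := by
    refine (abs_max_sub_max_le_max _ _ _ _).trans (max_le (by simp) ?_)
    have := abs_le.1 (abs_norm_sub_norm_le y z)
    rw [abs_le]
    constructor <;> linarith only [this.1, this.2, this]
  have := mul_le_mul h1 hc (norm_nonneg _) (by positivity)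
  linarith only [this]

omit [DecidableEq ι] [Nontrivial ι] in
theorem mu_far (c : E ι) {y : E ι} (h : 11 / 3 ≤ ‖y‖) : mu c y = y := by
  unfold mu
  rw [max_eq_left (by linarith only [h]), zero_smul, add_zero]

omit [Nontrivial ι] in
theorem mu_mem {c y : E ι} (hc : c ∈ Bf i0 (7 / 2)) {ρ : ℝ} (hρ : 11 / 3 ≤ ρ) (hy : y ∈ Bf i0 ρ) :
    mu c y ∈ Bf i0 ρ := by
  rcases le_total (11 / 3) ‖y‖ with h | h
  · rwa [mu_far c h]
  refine ⟨by simp [mu, hy.1, hc.1], (norm_add_le _ _).trans ?_⟩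
  rw [norm_smul, max_eq_right (by linarith only [h]), Real.norm_of_nonneg (by linarith only [h])]
  nlinarith only [hc.2, hρ, h]

omit [DecidableEq ι] [Nontrivial ι] in
theorem mu_lip {c : E ι} (hc : ‖c‖ ≤ 7 / 2) (c' y z : E ι) :
    dist (mu c y) (mu c' z) ≤ 2 * dist y z + dist c c' ∧
      dist y z ≤ 22 * dist (mu c y) (mu c z) := by
  have h1 := mu_small hc y z
  constructor
  · have h2 : dist (mu c y) (mu c z) ≤ _ := dist_add_add_le _ _ _ _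
    have h3 : dist (mu c z) (mu c' z) ≤ 1 * dist c c' := by
      unfold mu
      rw [dist_add_left, dist_smul₀, Real.norm_of_nonneg (le_max_left _ _)]
      exact mul_le_mul_of_nonneg_right (max_le zero_le_one (by linarith only [norm_nonneg z]))
        dist_nonneg
    linarith only [dist_triangle (mu c y) (mu c z) (mu c' z), dist_nonneg (x := y) (y := z), h1, h2, h3]
  · have h2 := dist_sub_sub_le (mu c y) (max 0 (1 - ‖y‖ / (11 / 3)) • c) (mu c z)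
      (max 0 (1 - ‖z‖ / (11 / 3)) • c)
    rw [mu, mu, add_sub_cancel_right, add_sub_cancel_right] at h2
    unfold mu
    linarith only [h1, h2]

theorem mu_surj {c w : E ι} (hc : c ∈ Bf i0 (7 / 2)) (hw : w ∈ Bf i0 4) :
    ∃ y ∈ Bf i0 4, mu c y = w := by
  obtain ⟨y, hy⟩ := (bij_of_small (by norm_num) (mu_small hc.2)).2 w
  have hy' : mu c y = w := hy
  refine ⟨y, ⟨by simpa [mu, hw.1, hc.1] using congrFun hy' i0, ?_⟩, hy'⟩
  rcases le_total (11 / 3) ‖y‖ with h | h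
  · rw [mu_far c h] at hy'
    exact hy' ▸ hw.2
  · linarith only [h]

/-- The chart of the sphere centred at the image of `c`. -/
noncomputable def Ph (i0 : ι) (c y : E ι) : E ι := unf i0 (mu c y)

variable {c : E ι}

theorem Ph_norm (hc : c ∈ Bf i0 (7 / 2)) {y : E ι} (hy : y ∈ Bf i0 4) : ‖Ph i0 c y‖ = 1 :=
  unf_norm (mu_mem hc (by norm_num) hy)

omit [Nontrivial ι] in
theorem Ph_far {y : E ι} (h : 11 / 3 ≤ ‖y‖) : Ph i0 c y = unf i0 y := by rw [Ph, mu_far c h]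

theorem Ph_four {y : E ι} (h : ‖y‖ = 4) : Ph i0 c y = Pi.single i0 1 := by
  rw [Ph_far (by linarith only [h]), unf_four h]

omit [Nontrivial ι] in
theorem Ph_zero : Ph i0 c 0 = unf i0 c := by simp [Ph, mu]

omit [Nontrivial ι] in
theorem Ph_id (y : E ι) : Ph i0 0 y = unf i0 y := by simp [Ph, mu]

theorem Ph_lip {c' y z : E ι} (hc : c ∈ Bf i0 (7 / 2)) (hc' : c' ∈ Bf i0 (7 / 2))
    (hy : y ∈ Bf i0 4) (hz : z ∈ Bf i0 4) :
    dist (Ph i0 c y) (Ph i0 c' z) ≤ 8 * dist y z + 4 * dist c c' := by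
  have h1 := unf_lip (mu_mem hc (by norm_num) hy) (mu_mem hc' (by norm_num) hz)
  have h2 := (mu_lip hc.2 c' y z).1
  unfold Ph
  linarith only [h1, h2]

theorem Ph_exp {y z : E ι} (hc : c ∈ Bf i0 (7 / 2)) (hy : y ∈ Bf i0 (15 / 4))
    (hz : z ∈ Bf i0 4) : dist y z ≤ 1386 * dist (Ph i0 c y) (Ph i0 c z) := by
  have h1 := unf_exp (mu_mem hc (by norm_num) hy) (mu_mem hc (by norm_num) hz)
  have h2 := (mu_lip hc.2 c y z).2
  unfold Ph
  linarith only [h1, h2]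

theorem Ph_exp' {δ : ℝ} (p0 : 0 < δ) (p1 : δ ≤ 1 / 4) {y z : E ι} (hc : c ∈ Bf i0 (7 / 2))
    (hy : y ∈ Bf i0 (4 - δ)) (hz : z ∈ Bf i0 4) :
    dist y z ≤ 242 / δ * dist (Ph i0 c y) (Ph i0 c z) := by
  have h1 := unf_exp' p0.le (by linarith only [p1]) (mu_mem hc (by linarith only [p1]) hy)
    (mu_mem hc (by norm_num) hz)
  have h2 := mul_le_mul_of_nonneg_left (mu_lip hc.2 c y z).2 p0.le
  rw [div_mul_eq_mul_div, le_div_iff₀ p0]
  unfold Ph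
  linarith only [h1, h2]

theorem Ph_inj {y z : E ι} (hc : c ∈ Bf i0 (7 / 2)) (hy : y ∈ Bf i0 4) (hz : z ∈ Bf i0 4)
    (h : Ph i0 c y = Ph i0 c z) : y = z ∨ ‖y‖ = 4 ∧ ‖z‖ = 4 := by
  have key : ∀ w ∈ Bf i0 4, ‖mu c w‖ = 4 → ‖w‖ = 4 := fun w hw e => by
    rcases le_total (11 / 3) ‖w‖ with u | u
    · rwa [mu_far c u] at e
    · linarith only [(mu_mem hc le_rfl ⟨hw.1, u⟩).2, e, u]
  rcases unf_inj (mu_mem hc (by norm_num) hy) (mu_mem hc (by norm_num) hz) h with e | e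
  · have := (mu_lip hc.2 c y z).2
    rw [e, dist_self, mul_zero] at this
    exact .inl (dist_le_zero.1 this)
  · exact .inr ⟨key y hy e.1, key z hz e.2⟩

theorem Ph_surj (hc : c ∈ Bf i0 (7 / 2)) {x : E ι} (hx : ‖x‖ = 1) :
    ∃ y ∈ Bf i0 4, Ph i0 c y = x := by
  obtain ⟨w, hw, rfl⟩ := unf_surj (i0 := i0) hx
  obtain ⟨y, hy, rfl⟩ := mu_surj hc hw
  exact ⟨y, hy, rfl⟩

omit [Nontrivial ι] in
theorem zero_mem {ρ : ℝ} (h : 0 ≤ ρ) : (0 : E ι) ∈ Bf i0 ρ := ⟨rfl, by simpa using h⟩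

/-- The junk values of the chart. -/
theorem Ph_mem (hc : c ∈ Bf i0 (7 / 2)) {y : E ι} (hy : y ∈ Bf i0 4) :
    Ph i0 c y ∈ ({unf i0 c, Pi.single i0 1}ᶜ : Set (E ι)) ↔ y ≠ 0 ∧ ‖y‖ < 4 := by
  simp only [mem_compl_iff, mem_insert_iff, mem_singleton_iff, not_or]
  constructor
  · rintro ⟨h1, h2⟩
    exact ⟨fun e => h1 (by rw [e, Ph_zero]), lt_of_le_of_ne hy.2 fun e => h2 (Ph_four e)⟩
  · rintro ⟨h1, h2⟩
    refine ⟨fun e => ?_, fun e => ?_⟩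
    · rcases Ph_inj hc hy (zero_mem (by norm_num)) (e.trans Ph_zero.symm) with u | u
      · exact h1 u
      · exact h2.ne u.1
    · obtain ⟨ω, hω, -⟩ := polar (i0 := i0) (y := (0 : E ι)) rfl
      have n4 := norm_cs (t := 4) (by norm_num) hω
      rcases Ph_inj hc hy (mem_cs (by norm_num) le_rfl hω) (e.trans (Ph_four n4).symm) with u | u
      · exact h2.ne (u ▸ n4)
      · exact h2.ne u.1

/-- The flat coordinate of a half-integral point. -/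
theorem exists_ctr {p : E ι} (hp : Hp p) (hne : p ≠ Pi.single i0 1) :
    ∃ c ∈ Bf i0 (7 / 2), unf i0 c = p := by
  obtain ⟨c, hc, rfl⟩ := unf_surj (i0 := i0) hp.1
  refine ⟨c, ⟨hc.1, ?_⟩, rfl⟩
  by_contra h
  have h1 := hp.dist (hp_single i0 (.inl rfl)) hne
  rw [unf_top hc (by linarith only [h])] at h1
  linarith only [h, h1]

/-! ### The movie of the charts -/

/-- The inverse chart. -/
noncomputable def Ps (i0 : ι) (c x : E ι) : E ι := Function.invFunOn (Ph i0 c) (Bf i0 4) x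

theorem Ps_spec (hc : c ∈ Bf i0 (7 / 2)) {x : E ι} (hx : ‖x‖ = 1) :
    Ps i0 c x ∈ Bf i0 4 ∧ Ph i0 c (Ps i0 c x) = x :=
  Function.invFunOn_pos (Ph_surj hc hx)

/-- The self-map of the sphere which moves the lower pole to the image of `c`. -/
noncomputable def Th (i0 : ι) (c x : E ι) : E ι := Ph i0 c (Ps i0 0 x)

theorem Th_unf (hc : c ∈ Bf i0 (7 / 2)) {y : E ι} (hy : y ∈ Bf i0 4) :
    Th i0 c (unf i0 y) = Ph i0 c y := by
  obtain ⟨h1, h2⟩ := Ps_spec (zero_mem (i0 := i0) (by norm_num)) (unf_norm hy)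
  rcases Ph_inj (zero_mem (by norm_num)) h1 hy (h2.trans (Ph_id y).symm) with e | e
  · rw [Th, e]
  · rw [Th, Ph_four e.1, Ph_four e.2]

theorem Th_bij (hc : c ∈ Bf i0 (7 / 2)) : BijOn (Th i0 c) (sphere 0 1) (sphere 0 1) := by
  refine ⟨fun x hx => ?_, fun x hx x' hx' e => ?_, fun x hx => ?_⟩
  · exact mem_sphere_zero_iff_norm.2
      (Ph_norm hc (Ps_spec (zero_mem (by norm_num)) (mem_sphere_zero_iff_norm.1 hx)).1)
  · obtain ⟨y, hy, rfl⟩ := unf_surj (i0 := i0) (mem_sphere_zero_iff_norm.1 hx)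
    obtain ⟨y', hy', rfl⟩ := unf_surj (i0 := i0) (mem_sphere_zero_iff_norm.1 hx')
    rw [Th_unf hc hy, Th_unf hc hy'] at e
    rcases Ph_inj hc hy hy' e with u | u
    · rw [u]
    · rw [unf_four u.1, unf_four u.2]
  · obtain ⟨y, hy, rfl⟩ := Ph_surj hc (mem_sphere_zero_iff_norm.1 hx)
    exact ⟨unf i0 y, mem_sphere_zero_iff_norm.2 (unf_norm hy), Th_unf hc hy⟩

theorem Th_lip {c' x x' : E ι} (hc : c ∈ Bf i0 (7 / 2)) (hc' : c' ∈ Bf i0 (7 / 2)) (hx : ‖x‖ = 1)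
    (hx' : ‖x'‖ = 1) : dist (Th i0 c x) (Th i0 c' x') ≤ 504 * dist x x' + 4 * dist c c' := by
  obtain ⟨y, hy, rfl⟩ := unf_surj (i0 := i0) hx
  obtain ⟨z, hz, rfl⟩ := unf_surj (i0 := i0) hx'
  rw [Th_unf hc hy, Th_unf hc' hz]
  have d0 := dist_nonneg (x := c) (y := c')
  have d1 := dist_nonneg (x := unf i0 y) (y := unf i0 z)
  rcases le_total ‖y‖ (15 / 4) with h1 | h1
  · linarith only [Ph_lip hc hc' hy hz, unf_exp ⟨hy.1, h1⟩ hz, h1]
  rcases le_total ‖z‖ (15 / 4) with h2 | h2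
  · have := unf_exp ⟨hz.1, h2⟩ hy
    rw [dist_comm z, dist_comm (unf i0 z)] at this
    linarith only [Ph_lip hc hc' hy hz, this]
  · rw [Ph_far (by linarith only [h1]), Ph_far (by linarith only [h2])]
    linarith only [d0, d1]

theorem Th_exp {x x' : E ι} (hc : c ∈ Bf i0 (7 / 2)) (hx : ‖x‖ = 1) (hx' : ‖x'‖ = 1) :
    dist x x' ≤ 5544 * dist (Th i0 c x) (Th i0 c x') := by
  obtain ⟨y, hy, rfl⟩ := unf_surj (i0 := i0) hx
  obtain ⟨z, hz, rfl⟩ := unf_surj (i0 := i0) hx'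
  rw [Th_unf hc hy, Th_unf hc hz]
  rcases le_total ‖y‖ (15 / 4) with h1 | h1
  · linarith only [unf_lip hy hz, Ph_exp hc ⟨hy.1, h1⟩ hz]
  rcases le_total ‖z‖ (15 / 4) with h2 | h2
  · have := Ph_exp hc ⟨hz.1, h2⟩ hy
    rw [dist_comm z, dist_comm (Ph i0 c z)] at this
    linarith only [unf_lip hy hz, this]
  · rw [Ph_far (by linarith only [h1]), Ph_far (by linarith only [h2])]
    linarith only [dist_nonneg (x := unf i0 y) (y := unf i0 z)]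

/-- A movie followed by a bijection of the sphere. -/
theorem smov_post {K L L' : ℝ} (hL : 0 ≤ L) {a b : E ι} {f g Θ : E ι → E ι} (h : SMov K a b f g)
    (ha : ‖a‖ = 1) (hb : ‖b‖ = 1) (hΘ : BijOn Θ (sphere 0 1) (sphere 0 1))
    (hl : ∀ x x', ‖x‖ = 1 → ‖x'‖ = 1 → dist (Θ x) (Θ x') ≤ L * dist x x')
    (hl' : ∀ x x', ‖x‖ = 1 → ‖x'‖ = 1 → dist x x' ≤ L' * dist (Θ x) (Θ x')) :
    SMov (L * K) (Θ a) (Θ b) (fun x => Θ (f x)) fun x => Θ (g x) := by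
  obtain ⟨M, hM, he⟩ := h
  have sa := mem_sphere_zero_iff_norm.2 ha
  have sb := mem_sphere_zero_iff_norm.2 hb
  have mem : ∀ z ∈ Icc (0 : ℝ) 1 ×ˢ sphere (0 : E ι) 1, M z ∈ sphere (0 : E ι) 1 := fun z hz => by
    by_cases u : M z ∈ ({a, b}ᶜ : Set (E ι))
    · exact (hM.maps z hz u).2
    · rcases not_not.1 u with e | e
      · exact e ▸ sa
      · exact e ▸ sb
  have nj : ∀ y, Θ y ∈ ({Θ a, Θ b}ᶜ : Set (E ι)) → y ∈ ({a, b}ᶜ : Set (E ι)) := by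
    rintro y hy (rfl | rfl)
    · exact hy (.inl rfl)
    · exact hy (.inr rfl)
  refine ⟨fun z => Θ (M z), sol_mk (fun t ht x hx => hΘ.1 (mem _ ⟨ht, hx⟩))
    (fun t ht y hy hU => ?_) (fun t ht x hx x' hx' hU e => ?_) (fun z hz hU => ?_)
    (fun z hz hU => ?_), fun x hx => by simp only [(he x hx).1, (he x hx).2, and_self]⟩
  · obtain ⟨y0, h0, rfl⟩ := hΘ.2.2 hy
    obtain ⟨x, hx, e⟩ := hM.ex t y0 ⟨ht, h0⟩ (nj _ hU) trivial
    exact ⟨x, hx.2, by rw [e]⟩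
  · exact hM.uq t x x' ⟨ht, hx⟩ ⟨ht, hx'⟩ (nj _ hU) trivial
      (hΘ.2.1 (mem _ ⟨ht, hx'⟩) (mem _ ⟨ht, hx⟩) e)
  · filter_upwards [(hM.lip z hz (nj _ hU) trivial).2, self_mem_nhdsWithin] with z' h1 h2
    have h3 := hl _ _ (mem_sphere_zero_iff_norm.1 (mem _ h2))
      (mem_sphere_zero_iff_norm.1 (mem _ hz))
    have h4 : dist (M z') (M z) ≤ gs K K z z' := h1
    have := mul_le_mul_of_nonneg_left h4 hL
    unfold gs at *
    linarith only [h3, this]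
  · refine ((hM.lo z hz (nj _ hU) trivial).imp fun w _ k => ⟨nj _ k, trivial⟩).trans
      (Dm.pr1.prod (Dm.toR (Dm.of_le (K := L') fun w hw v hv => ?_)))
    exact hl' _ _ (mem_sphere_zero_iff_norm.1 (mem _ hv)) (mem_sphere_zero_iff_norm.1 (mem _ hw))

/-- The cone display. -/
noncomputable def cone (i0 : ι) (c : E ι) (z : ℝ × E ι) : E ι := Ph i0 c (et z.1 • z.2)

theorem smov_cone (hc : c ∈ Bf i0 (7 / 2)) : SMov (2 * (504 * (100 * 5))) (unf i0 c)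
    (Pi.single i0 1) (hat i0 (unf i0 c) (Pi.single i0 1) (cone i0 c)) fun x => x := by
  have h0 := (smov_usp (i0 := i0) (η := et) (c := 5) (by norm_num) et_zero et_one
    (et_mono.monotoneOn _) (fun n _ n' _ _ h e => et_inj h e) (fun n _ n' _ => et_lip n n')
    fun n _ n' _ _ h _ h' => et_exp h h').symm
  have z0 : unf i0 0 = Pi.single i0 (-1) := by simp [unf, usp_zero]
  obtain ⟨ω0, hω0, -⟩ := polar (i0 := i0) (y := (0 : E ι)) rfl
  have n4 := norm_cs (t := 4) (by norm_num) hω0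
  have e1 : Th i0 c (Pi.single i0 (-1)) = unf i0 c := by
    rw [← z0, Th_unf hc (zero_mem (by norm_num)), Ph_zero]
  have e2 : Th i0 c (Pi.single i0 1) = Pi.single i0 1 := by
    rw [← unf_four n4, Th_unf hc (mem_cs (by norm_num) le_rfl hω0), Ph_four n4, unf_four n4]
  have h1 := smov_post (L := 504) (by norm_num) h0 (by simp [Pi.norm_single])
    (by simp [Pi.norm_single]) (Th_bij hc) (fun x x' hx hx' => by simpa using Th_lip hc hc hx hx')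
    fun x x' hx hx' => Th_exp hc hx hx'
  rw [e1, e2] at h1
  have sm : ∀ r ∈ Icc (0 : ℝ) 1, (1 - r) • c ∈ Bf i0 (7 / 2) := fun r hr =>
    ⟨by simp [hc.1], by
      rw [norm_smul, Real.norm_of_nonneg (by linarith only [hr.2])]
      nlinarith only [hc.2, hr.1, norm_nonneg c]⟩
  have u2 : ∀ r r' : ℝ, dist ((1 - r') • c) ((1 - r) • c) ≤ dist r' r * (7 / 2) := fun r r' => by
    rw [dist_eq_norm, ← sub_smul, norm_smul, sub_sub_sub_cancel_left, ← dist_eq_norm, dist_comm]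
    exact mul_le_mul_of_nonneg_left hc.2 dist_nonneg
  have h2 : SMov (504 * (100 * 5)) (unf i0 c) (Pi.single i0 1) (fun x => Th i0 c x) fun x => x := by
    refine ⟨fun z => Th i0 ((1 - z.1) • c) z.2, sol_of_bij
      (fun r hr => (Th_bij (sm r hr)).congr fun _ _ => by simp only) (fun _ _ _ h => h.elim)
      (fun z hz z' hz' => ?_) fun z _ _ => Dm.of_le (K := 5544 * 15) fun w hw v hv => ?_,
      fun x hx => ⟨by simp, ?_⟩⟩
    · have u1 := Th_lip (sm _ hz'.1) (sm _ hz.1) (mem_sphere_zero_iff_norm.1 hz'.2)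
        (mem_sphere_zero_iff_norm.1 hz.2)
      unfold gs
      linarith only [dist_nonneg (x := z'.1) (y := z.1), dist_nonneg (x := z'.2) (y := z.2), u1,
        u2 z.1 z'.1]
    · have n1 := mem_sphere_zero_iff_norm.1 hv.2
      have n2 := mem_sphere_zero_iff_norm.1 hw.2
      have u1 := Th_exp (sm _ hv.1) n1 n2
      have u3 := Th_lip (sm _ hw.1) (sm _ hv.1) n2 n2
      have u4 := dist_triangle (Th i0 ((1 - v.1) • c) v.2) (Th i0 ((1 - w.1) • c) w.2)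
        (Th i0 ((1 - v.1) • c) w.2)
      have u5 : dist v.1 w.1 ≤ dist (v.1, Th i0 ((1 - v.1) • c) v.2)
          (w.1, Th i0 ((1 - w.1) • c) w.2) := le_max_left _ _
      have u6 : dist (Th i0 ((1 - v.1) • c) v.2) (Th i0 ((1 - w.1) • c) w.2) ≤
          dist (v.1, Th i0 ((1 - v.1) • c) v.2) (w.1, Th i0 ((1 - w.1) • c) w.2) := le_max_right _ _
      have u7 := u2 v.1 w.1
      rw [dist_self] at u3
      rw [dist_comm w.1] at u7
      linarith only [u1, u3, u4, u5, u6, u7]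
    · simp only [sub_self, zero_smul]
      exact (Ps_spec (zero_mem (by norm_num)) (mem_sphere_zero_iff_norm.1 hx)).2
  refine (h1.trans (by norm_num) h2).congr fun x hx => ⟨Ap.of_eq ?_, Ap.rfl⟩
  unfold hat
  split_ifs with u v
  · exact e1.symm
  · exact e2.symm
  have hω : Function.update x i0 0 ∈ Cs i0 := by
    refine ⟨by simp, le_antisymm ?_ (not_lt.1 u)⟩
    refine (pi_norm_le_iff_of_nonneg zero_le_one).2 fun j => ?_
    by_cases h : j = i0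
    · simp [h]
    · simpa [h, hx] using norm_le_pi_norm x j
  have x0 := abs_le.1 ((norm_le_pi_norm x i0).trans_eq hx)
  obtain ⟨b0, b1⟩ := et_bd (n := (x i0 + 1) / 2) (by linarith only [x0.1, x0])
  beta_reduce
  rw [← unf_polar b0 hω, Th_unf hc (mem_cs b0 b1 hω)]
  rfl

/-! ### The flat Alexander trick -/

/-- A display in flat coordinates. -/
structure Flat (i0 : ι) (K : ℝ) (g : ℝ × E ι → E ι) : Prop where
  mem : ∀ m ∈ Icc (0 : ℝ) (3 / 4), ∀ ω ∈ Cs i0, g (m, ω) ∈ Bf i0 (11 / 3)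
  lt : ∀ m ∈ Ico (0 : ℝ) (3 / 4), ∀ ω ∈ Cs i0, ‖g (m, ω)‖ < 11 / 3
  zero : ∀ ω ∈ Cs i0, g (0, ω) = 0
  top : ∀ ω ∈ Cs i0, g (3 / 4, ω) = (11 / 3 : ℝ) • ω
  ex : ∀ w : E ι, w i0 = 0 → w ≠ 0 → ‖w‖ < 11 / 3 →
    ∃ m ∈ Ico (0 : ℝ) (3 / 4), ∃ ω ∈ Cs i0, g (m, ω) = w
  uq : ∀ z ∈ Icc (0 : ℝ) (3 / 4) ×ˢ Cs i0, ∀ z' ∈ Icc (0 : ℝ) (3 / 4) ×ˢ Cs i0, g z ≠ 0 →
    g z' = g z → z' = z
  lip : ∀ z ∈ Icc (0 : ℝ) (3 / 4) ×ˢ Cs i0, g z ≠ 0 →
    ∀ᶠ z' in 𝓝[Icc (0 : ℝ) (3 / 4) ×ˢ Cs i0] z, dist (g z') (g z) ≤ K * dist z' z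
  lo : ∀ z ∈ Icc (0 : ℝ) (3 / 4) ×ˢ Cs i0, g z ≠ 0 →
    Dm (Icc (0 : ℝ) (3 / 4) ×ˢ Cs i0) (fun w => g w ≠ 0) (fun w => w) g z

/-- The shrinking movie. -/
noncomputable def Al (g : ℝ × E ι → E ι) (z : ℝ × (ℝ × E ι)) : E ι :=
  if 3 * z.1 / 4 ≤ z.2.1 then et z.2.1 • z.2.2 else z.1 • g (z.2.1 / z.1, z.2.2)

section

variable {K : ℝ} {g : ℝ × E ι → E ι} {s n : ℝ} {ω : E ι}

omit [Nontrivial ι] [DecidableEq ι] [Fintype ι] in
theorem Al_out (h : 3 * s / 4 ≤ n) : Al g (s, n, ω) = et n • ω := if_pos h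

omit [Nontrivial ι] [DecidableEq ι] [Fintype ι] in
theorem div_mem (hs : 0 < s) (h0 : 0 ≤ n) (h : n ≤ 3 * s / 4) : n / s ∈ Icc (0 : ℝ) (3 / 4) :=
  ⟨div_nonneg h0 hs.le, by rw [div_le_iff₀ hs]; linarith only [h]⟩

omit [Nontrivial ι] in
theorem Flat.inn (F : Flat i0 K g) (hs : 0 < s) (hs' : s ≤ 1) (hω : ω ∈ Cs i0)
    (h : n ≤ 3 * s / 4) : Al g (s, n, ω) = s • g (n / s, ω) := by
  rcases h.eq_or_lt with e | e
  · have e' : n / s = 3 / 4 := by rw [div_eq_iff hs.ne']; linarith only [e, h]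
    rw [Al_out e.ge, e', F.top ω hω, smul_smul, et_lo (by linarith only [hs', h]), e]
    congr 1
    ring
  · exact if_neg (not_le.2 e)

omit [Nontrivial ι] in
/-- The size of the values separates the two parts. -/
theorem Flat.size (F : Flat i0 K g) (hs : s ∈ Icc (0 : ℝ) 1) (hn : n ∈ Icc (0 : ℝ) 1)
    (hω : ω ∈ Cs i0) : Al g (s, n, ω) ∈ Bf i0 4 ∧
      (3 * s / 4 ≤ n ↔ 11 / 3 * s ≤ ‖Al g (s, n, ω)‖) := by
  rcases le_or_gt (3 * s / 4) n with h | h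
  · obtain ⟨b0, b1⟩ := et_bd hn.1
    rw [Al_out h, norm_cs b0 hω]
    refine ⟨mem_cs b0 b1 hω, iff_of_true h ?_⟩
    have := et_mono h
    rw [et_lo (by linarith only [hs.2])] at this
    linarith only [this]
  · have s0 : 0 < s := by linarith only [hn.1, h]
    have m := div_mem s0 hn.1 h.le
    have l := F.lt (n / s) ⟨m.1, by rw [div_lt_iff₀ s0]; linarith only [h]⟩ ω hω
    have l' : ‖s • g (n / s, ω)‖ < 11 / 3 * s := by
      rw [norm_smul, Real.norm_of_nonneg s0.le]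
      nlinarith only [s0, l]
    rw [F.inn s0 hs.2 hω h.le]
    exact ⟨⟨by simp [(F.mem _ m ω hω).1], by linarith only [hs.2, l']⟩,
      iff_of_false (not_le.2 h) (not_le.2 l')⟩

theorem Flat.al_ex (F : Flat i0 K g) (hs : s ∈ Icc (0 : ℝ) 1) {w : E ι} (hw : w ∈ Bf i0 4)
    (h0 : w ≠ 0) : ∃ x ∈ Icc (0 : ℝ) 1 ×ˢ Cs i0, Al g (s, x) = w := by
  rcases le_or_gt (11 / 3 * s) ‖w‖ with h | h
  · obtain ⟨ω, hω, e⟩ := polar hw.1
    obtain ⟨n, hn, e'⟩ := et_surj (norm_nonneg w) hw.2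
    refine ⟨(n, ω), ⟨hn, hω⟩, ?_⟩
    rw [Al_out, e', ← e]
    by_contra u
    rw [et_lo (by linarith only [hs.2, u])] at e'
    linarith only [h, e', u]
  · have s0 : 0 < s := by linarith only [norm_nonneg w, h]
    obtain ⟨m, hm, ω, hω, e⟩ := F.ex (s⁻¹ • w) (by simp [hw.1]) (smul_ne_zero (inv_ne_zero s0.ne') h0)
      (by rw [norm_smul, norm_inv, Real.norm_of_nonneg s0.le, inv_mul_lt_iff₀ s0]; linarith only [h])
    have m1 := mul_le_mul_of_nonneg_right hm.2.le s0.le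
    refine ⟨(m * s, ω), ⟨⟨mul_nonneg hm.1 s0.le, by linarith only [hs.2, m1]⟩, hω⟩, ?_⟩
    rw [F.inn s0 hs.2 hω (by linarith only [m1]), mul_div_cancel_right₀ _ s0.ne', e, smul_inv_smul₀ s0.ne']

omit [Nontrivial ι] in
theorem Flat.al_uq (F : Flat i0 K g) (hs : s ∈ Icc (0 : ℝ) 1) {x x' : ℝ × E ι}
    (hx : x ∈ Icc (0 : ℝ) 1 ×ˢ Cs i0) (hx' : x' ∈ Icc (0 : ℝ) 1 ×ˢ Cs i0) (h0 : Al g (s, x) ≠ 0)
    (h4 : ‖Al g (s, x)‖ < 4) (e : Al g (s, x') = Al g (s, x)) : x' = x := by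
  obtain ⟨n, ω⟩ := x
  obtain ⟨n', ω'⟩ := x'
  have a := (F.size hs hx.1 hx.2).2
  have a' := (F.size hs hx'.1 hx'.2).2
  rw [e] at a'
  rcases le_or_gt (3 * s / 4) n with h | h
  · have h' := a'.2 (a.1 h)
    rw [Al_out h] at h0 h4 e
    rw [Al_out h'] at e
    have e1 := congrArg norm e
    rw [norm_cs (et_bd hx.1.1).1 hx.2] at h4 e1
    rw [norm_cs (et_bd hx'.1.1).1 hx'.2] at e1
    obtain rfl : n' = n := et_inj h4 e1
    rw [smul_right_injective _ (left_ne_zero_of_smul h0) e]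
  · have h' : n' < 3 * s / 4 := not_le.1 fun u => not_le.2 h (a.2 (a'.1 u))
    have s0 : 0 < s := by linarith only [hx.1.1, h]
    rw [F.inn s0 hs.2 hx.2 h.le] at h0 e
    rw [F.inn s0 hs.2 hx'.2 h'.le] at e
    have := F.uq (n / s, ω) ⟨div_mem s0 hx.1.1 h.le, hx.2⟩ (n' / s, ω')
      ⟨div_mem s0 hx'.1.1 h'.le, hx'.2⟩ (right_ne_zero_of_smul h0) (smul_right_injective _ s0.ne' e)
    rw [Prod.mk.injEq, div_left_inj' s0.ne'] at this
    exact Prod.ext this.1 this.2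

omit [Nontrivial ι] in
theorem Flat.al_lip (F : Flat i0 K g) (hK : 0 ≤ K) {z : ℝ × (ℝ × E ι)}
    (hz : z ∈ Icc (0 : ℝ) 1 ×ˢ (Icc (0 : ℝ) 1 ×ˢ Cs i0)) (h0 : Al g z ≠ 0) :
    ∀ᶠ z' in 𝓝[Icc (0 : ℝ) 1 ×ˢ (Icc (0 : ℝ) 1 ×ˢ Cs i0)] z,
      dist (Al g z') (Al g z) ≤ gs (2 * K + 9) (2 * K + 9) z z' := by
  obtain ⟨s, n, ω⟩ := z
  obtain ⟨hs, hn, hω⟩ : s ∈ Icc (0 : ℝ) 1 ∧ n ∈ Icc (0 : ℝ) 1 ∧ ω ∈ Cs i0 := hz
  set A := Icc (0 : ℝ) 1 ×ˢ (Icc (0 : ℝ) 1 ×ˢ Cs i0) with hA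
  have out : 3 * s / 4 ≤ n → ∀ z' ∈ A, 3 * z'.1 / 4 ≤ z'.2.1 →
      dist (Al g z') (Al g (s, n, ω)) ≤ gs (2 * K + 9) (2 * K + 9) (s, n, ω) z' := by
    rintro h ⟨s', n', ω'⟩ ⟨-, hn', hω'⟩ h'
    obtain ⟨b0, b1⟩ := et_bd hn'.1
    have u1 := (dir_le b0 (et_bd hn.1).1 hω' hω).2.2
    have u2 := et_lip n n'
    have u3 : |n' - n| ≤ dist (n', ω') (n, ω) := le_max_left _ _
    have u4 : ‖ω' - ω‖ ≤ dist (n', ω') (n, ω) := by rw [← dist_eq_norm]; exact le_max_right _ _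
    have u5 := mul_le_mul_of_nonneg_right b1 (norm_nonneg (ω' - ω))
    have u6 := mul_nonneg hK (dist_nonneg (x := (n', ω')) (y := (n, ω)))
    have u7 := mul_nonneg (show 0 ≤ 2 * K + 9 by linarith only [hK]) (dist_nonneg (x := s') (y := s))
    rw [Al_out h, Al_out h', dist_eq_norm]
    unfold gs
    linarith only [u1, u2, u3, u4, u5, u6, u7]
  have cts : Continuous fun z' : ℝ × (ℝ × E ι) => 3 * z'.1 / 4 := by fun_prop
  rcases lt_or_ge (3 * s / 4) n with h | h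
  · have ev : ∀ᶠ z' in 𝓝[A] ((s, n, ω) : ℝ × (ℝ × E ι)), 3 * z'.1 / 4 < z'.2.1 :=
      mem_nhdsWithin_of_mem_nhds ((isOpen_lt cts (by fun_prop)).mem_nhds h)
    filter_upwards [ev, self_mem_nhdsWithin] with z' h1 h2 using out h.le z' h2 h1.le
  have s0 : 0 < s := by
    refine hs.1.lt_of_ne fun e => h0 ?_
    have : n = 0 := by linarith only [hn.1, h, e]
    rw [Al_out (by linarith only [e, this]), this, et_zero, zero_smul]
  have m := div_mem s0 hn.1 h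
  rw [F.inn s0 hs.2 hω h] at h0
  set B := A ∩ {z' | 0 < z'.1 ∧ z'.2.1 ≤ 3 * z'.1 / 4} with hB
  have tend : Tendsto (fun z' : ℝ × (ℝ × E ι) => (z'.2.1 / z'.1, z'.2.2)) (𝓝[B] (s, n, ω))
      (𝓝[Icc (0 : ℝ) (3 / 4) ×ˢ Cs i0] (n / s, ω)) := by
    refine tendsto_nhdsWithin_iff.2 ⟨Tendsto.mono_left ?_ nhdsWithin_le_nhds, ?_⟩
    · exact ContinuousAt.prodMk (ContinuousAt.div (by fun_prop) (by fun_prop) s0.ne') (by fun_prop)
    · filter_upwards [self_mem_nhdsWithin] with z' h'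
      exact ⟨div_mem h'.2.1 h'.1.2.1.1 h'.2.2, h'.1.2.2⟩
  have ev1 := tend.eventually (F.lip (n / s, ω) ⟨m, hω⟩ (right_ne_zero_of_smul h0))
  rw [hB, nhdsWithin_inter', eventually_inf_principal] at ev1
  have ev2 : ∀ᶠ z' in 𝓝[A] ((s, n, ω) : ℝ × (ℝ × E ι)), 0 < z'.1 :=
    mem_nhdsWithin_of_mem_nhds ((isOpen_lt continuous_const continuous_fst).mem_nhds s0)
  have ev3 : ∀ᶠ z' in 𝓝[A] ((s, n, ω) : ℝ × (ℝ × E ι)), 3 * z'.1 / 4 ≤ z'.2.1 → 3 * s / 4 ≤ n := by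
    rcases h.eq_or_lt with e | e
    · exact .of_forall fun _ _ => e.ge
    · have ev : ∀ᶠ z' in 𝓝[A] ((s, n, ω) : ℝ × (ℝ × E ι)), z'.2.1 < 3 * z'.1 / 4 :=
        mem_nhdsWithin_of_mem_nhds ((isOpen_lt (by fun_prop) cts).mem_nhds e)
      exact ev.mono fun _ u v => absurd v (not_le.2 u)
  filter_upwards [ev1, ev2, ev3, self_mem_nhdsWithin] with z' h1 h2 h3 h4
  rcases le_total (3 * z'.1 / 4) z'.2.1 with h' | h'
  · exact out (h3 h') z' h4 h'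
  obtain ⟨s', n', ω'⟩ := z'
  obtain ⟨hs', hn', hω'⟩ : s' ∈ Icc (0 : ℝ) 1 ∧ n' ∈ Icc (0 : ℝ) 1 ∧ ω' ∈ Cs i0 := h4
  replace h1 : dist (g (n' / s', ω')) (g (n / s, ω)) ≤ K * dist (n' / s', ω') (n / s, ω) :=
    h1 ⟨h2, h'⟩
  replace h2 : 0 < s' := h2
  have u3 : |n' - n| ≤ dist (n', ω') (n, ω) := le_max_left _ _
  have u4 : dist ω' ω ≤ dist (n', ω') (n, ω) := le_max_right _ _
  have u0 := abs_nonneg (s' - s)
  have u1 : s' * dist (n' / s', ω') (n / s, ω) ≤ dist (n', ω') (n, ω) + |s' - s| := by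
    rw [Prod.dist_eq, mul_max_of_nonneg _ _ h2.le]
    refine max_le ?_ (by nlinarith only [dist_nonneg (x := ω') (y := ω), hs'.2, u4, u0])
    have e : s' * dist (n' / s') (n / s) = |n' - n - (s' - s) * (n / s)| := by
      rw [Real.dist_eq, ← abs_of_pos h2, ← abs_mul, abs_of_pos h2]
      congr 1
      field_simp
      ring
    rw [e]
    refine (abs_sub _ _).trans ?_
    rw [abs_mul, abs_of_nonneg m.1]
    nlinarith only [m.2, u3, u0]
  have u2 : dist (s' • g (n' / s', ω')) (s • g (n / s, ω)) ≤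
      s' * dist (g (n' / s', ω')) (g (n / s, ω)) + |s' - s| * ‖g (n / s, ω)‖ := by
    refine (dist_triangle _ (s' • g (n / s, ω)) _).trans (add_le_add (le_of_eq ?_) (le_of_eq ?_))
    · rw [dist_smul₀, Real.norm_of_nonneg h2.le]
    · rw [dist_eq_norm, ← sub_smul, norm_smul, Real.norm_eq_abs]
  have u5 := mul_le_mul_of_nonneg_left h1 h2.le
  have u6 := mul_le_mul_of_nonneg_left u1 hK
  have u7 := mul_le_mul_of_nonneg_left (F.mem _ m ω hω).2 u0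
  have u8 := mul_nonneg hK u0
  have u9 := dist_nonneg (x := (n', ω')) (y := (n, ω))
  have u10 := mul_nonneg hK u9
  rw [F.inn s0 hs.2 hω h, F.inn h2 hs'.2 hω' h']
  show _ ≤ (2 * K + 9) * dist (n', ω') (n, ω) + (2 * K + 9) * |s' - s|
  linarith only [u0, u2, u5, u6, u7, u8, u9, u10]

omit [Nontrivial ι] in
theorem Flat.al_lo (F : Flat i0 K g) (hK : 0 ≤ K) {z : ℝ × (ℝ × E ι)}
    (hz : z ∈ Icc (0 : ℝ) 1 ×ˢ (Icc (0 : ℝ) 1 ×ˢ Cs i0)) (h0 : Al g z ≠ 0) (h4 : ‖Al g z‖ < 4) :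
    Dm (Icc (0 : ℝ) 1 ×ˢ (Icc (0 : ℝ) 1 ×ˢ Cs i0)) (fun w => Al g w ≠ 0) (fun w => w.2)
      (fun w => (w.1, Al g w)) z := by
  have cA := cw_gs (F.al_lip hK hz h0)
  set A := Icc (0 : ℝ) 1 ×ˢ (Icc (0 : ℝ) 1 ×ˢ Cs i0) with hA
  have out : ∀ w : ℝ × (ℝ × E ι), 3 * w.1 / 4 ≤ w.2.1 → Al g w = et w.2.1 • w.2.2 :=
    fun w k => if_pos k
  have c1 : IsClosed {w : ℝ × (ℝ × E ι) | 3 * w.1 / 4 ≤ w.2.1} :=
    isClosed_le (by fun_prop) (by fun_prop)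
  have c2 : IsClosed {w : ℝ × (ℝ × E ι) | w.2.1 ≤ 3 * w.1 / 4} :=
    isClosed_le (by fun_prop) (by fun_prop)
  refine Dm.union (R1 := A ∩ {w | 3 * w.1 / 4 ≤ w.2.1}) (R2 := A ∩ {w | w.2.1 ≤ 3 * w.1 / 4})
    (fun w hw => (le_total (3 * w.1 / 4) w.2.1).imp (fun k => ⟨hw, k⟩) fun k => ⟨hw, k⟩) hz
    (fun w hw k => ⟨hw, closure_minimal inter_subset_right c1 k⟩)
    (fun w hw k => ⟨hw, closure_minimal inter_subset_right c2 k⟩) (fun k => ?_) fun k => ?_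
  · set B := A ∩ {w | 3 * w.1 / 4 ≤ w.2.1} with hB
    have nm : ∀ w ∈ B, et w.2.1 = ‖Al g w‖ := fun w hw => by
      rw [out w hw.2, norm_cs (et_bd hw.1.2.1.1).1 hw.1.2.2]
    have ce : ContinuousWithinAt (fun w : ℝ × (ℝ × E ι) => et w.2.1) B z :=
      (et_cont.comp (by fun_prop)).continuousWithinAt
    have e0 : et z.2.1 ≠ 0 := by rw [nm z k]; exact norm_ne_zero_iff.2 h0
    have d1 : Dm B (fun w => Al g w ≠ 0) (fun w => et w.2.1) (fun w => (w.1, Al g w)) z :=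
      Dm.pr2.norm.congrL nm
    refine Dm.prod (F := fun w : ℝ × (ℝ × E ι) => w.2.1) (F' := fun w => w.2.2)
      (d1.unlipOn (φ := et) (S := {n | et n < 4}) (L := 1)
        (ce.eventually (gt_mem_nhds ((nm z k).trans_lt h4))) fun a ha b hb => ?_)
      (((d1.inv ce e0).smul Dm.pr2 (ce.inv₀ e0) (cA.mono inter_subset_left)).congrL_ev ?_)
    · rw [one_mul]
      exact et_exp hb ha
    · filter_upwards [ce.eventually (isOpen_ne.mem_nhds e0), self_mem_nhdsWithin] with w a b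
      rw [out w b.2, inv_smul_smul₀ a]
  · set B := A ∩ {w | w.2.1 ≤ 3 * w.1 / 4} with hB
    have s0 : 0 < z.1 := by
      refine hz.1.1.lt_of_ne fun e => h0 ?_
      have k2 : z.2.1 ≤ 3 * z.1 / 4 := k.2
      have : z.2.1 = 0 := by linarith only [hz.2.1.1, k2, e]
      rw [out z (by linarith only [e, this]), this, et_zero, zero_smul]
    have inn : ∀ w ∈ B, 0 < w.1 → Al g w = w.1 • g (w.2.1 / w.1, w.2.2) := fun w hw a =>
      F.inn a hw.1.1.2 hw.1.2.2 hw.2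
    have mm : ∀ w ∈ B, 0 < w.1 → (w.2.1 / w.1, w.2.2) ∈ Icc (0 : ℝ) (3 / 4) ×ˢ Cs i0 :=
      fun w hw a => ⟨div_mem a hw.1.2.1.1 hw.2, hw.1.2.2⟩
    have g0 : ∀ w ∈ B, 0 < w.1 → Al g w ≠ 0 → g (w.2.1 / w.1, w.2.2) ≠ 0 := fun w hw a b =>
      right_ne_zero_of_smul (inn w hw a ▸ b)
    have cq : ∀ w : ℝ × (ℝ × E ι), 0 < w.1 →
        ContinuousWithinAt (fun w : ℝ × (ℝ × E ι) => w.2.1 / w.1) B w := fun w a =>
      (ContinuousAt.div (by fun_prop) (by fun_prop) a.ne').continuousWithinAt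
    have cΦ : ∀ w : ℝ × (ℝ × E ι), 0 < w.1 →
        ContinuousWithinAt (fun w : ℝ × (ℝ × E ι) => (w.2.1 / w.1, w.2.2)) B w := fun w a =>
      (cq w a).prodMk (by fun_prop)
    have ev : ∀ᶠ w in 𝓝[B] z, w ∈ B ∧ 0 < w.1 := eventually_mem_nhdsWithin.and
      (mem_nhdsWithin_of_mem_nhds ((isOpen_lt continuous_const continuous_fst).mem_nhds s0))
    have d1 := (F.lo _ (mm z k s0) (g0 z k s0 h0)).comp_ev (R' := B)
      (Φ := fun w : ℝ × (ℝ × E ι) => (w.2.1 / w.1, w.2.2)) (P' := fun w => Al g w ≠ 0)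
      (ev.mono fun w a => mm w a.1 a.2) (cΦ z s0)
      (ev.mono fun w a b => ⟨g0 w a.1 a.2 b, cΦ w a.2⟩)
    have d2 : Dm B (fun w => Al g w ≠ 0) (fun w => g (w.2.1 / w.1, w.2.2))
        (fun w => (w.1, Al g w)) z :=
      ((Dm.pr1.inv continuousWithinAt_fst s0.ne').smul Dm.pr2
        (continuousWithinAt_fst.inv₀ s0.ne') (cA.mono inter_subset_left)).congrL_ev
        (ev.mono fun w a => by rw [inn w a.1 a.2, inv_smul_smul₀ a.2.ne'])
    have d3 := d1.trans d2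
    exact Dm.prod (F := fun w : ℝ × (ℝ × E ι) => w.2.1) (F' := fun w => w.2.2)
      ((Dm.pr1.mul d3.fst continuousWithinAt_fst (cq z s0)).congrL_ev
        (ev.mono fun w a => (mul_div_cancel₀ _ a.2.ne').symm)) d3.snd

/-- The movie of displays. -/
theorem Flat.disp (F : Flat i0 K g) (hK : 0 ≤ K) (hc : c ∈ Bf i0 (7 / 2)) :
    DispM i0 (Icc (0 : ℝ) 1) (8 * (2 * K + 9)) (unf i0 c) (Pi.single i0 1)
      fun z => Ph i0 c (Al g z) := by
  have mem : ∀ z ∈ Icc (0 : ℝ) 1 ×ˢ (Icc (0 : ℝ) 1 ×ˢ Cs i0), Al g z ∈ Bf i0 4 :=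
    fun z hz => (F.size hz.1 hz.2.1 hz.2.2).1
  refine ⟨sol_mk (fun t ht x hx => mem_sphere_zero_iff_norm.2 (Ph_norm hc (mem _ ⟨ht, hx⟩)))
    (fun t ht y hy hU => ?_) (fun t ht x hx x' hx' hU e => ?_) (fun z hz hU => ?_)
    (fun z hz hU => ?_), fun t ht n hn ω hω => Ph_norm hc (mem _ ⟨ht, hn, hω⟩), fun t ht ω hω => ⟨?_, ?_⟩⟩
  · obtain ⟨w, hw, rfl⟩ := Ph_surj hc (mem_sphere_zero_iff_norm.1 hy)
    obtain ⟨x, hx, e⟩ := F.al_ex ht hw ((Ph_mem hc hw).1 hU).1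
    exact ⟨x, hx, by rw [e]⟩
  · obtain ⟨u1, u2⟩ := (Ph_mem hc (mem _ ⟨ht, hx⟩)).1 hU
    rcases Ph_inj hc (mem _ ⟨ht, hx'⟩) (mem _ ⟨ht, hx⟩) e with v | v
    · exact F.al_uq ht hx hx' u1 u2 v
    · exact absurd v.2 u2.ne
  · filter_upwards [F.al_lip hK hz ((Ph_mem hc (mem _ hz)).1 hU).1, self_mem_nhdsWithin]
      with z' h1 h2
    have := Ph_lip hc hc (mem _ h2) (mem _ hz)
    rw [dist_self] at this
    unfold gs at *
    linarith only [h1, this]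
  · obtain ⟨u1, u2⟩ := (Ph_mem hc (mem _ hz)).1 hU
    obtain ⟨δ, p0, p1, p2⟩ : ∃ δ : ℝ, 0 < δ ∧ δ ≤ 1 / 4 ∧ ‖Al g z‖ < 4 - δ :=
      ⟨min (1 / 4) ((4 - ‖Al g z‖) / 2), lt_min (by norm_num) (by linarith only [u2]),
        min_le_left _ _, by linarith only [u2, min_le_right (1 / 4) ((4 - ‖Al g z‖) / 2)]⟩
    refine ((F.al_lo hK hz u1 u2).imp fun w hw k => ((Ph_mem hc (mem _ hw)).1 k).1).trans
      (Dm.pr1.prod (Dm.toR (Dm.of_nhds (K := 242 / δ) (p := fun w => ‖Al g w‖ < 4 - δ)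
        ((cw_gs (F.al_lip hK hz u1)).norm.eventually (gt_mem_nhds p2)) fun w hw _ v hv k => ?_)))
    exact Ph_exp' p0 p1 hc ⟨(mem _ hv).1, k.le⟩ (mem _ hw)
  · have : Al g (t, 0, ω) = 0 := by
      unfold Al
      split_ifs
      · simp [et_zero]
      · simp [F.zero ω hω]
    simp only [this, Ph_zero]
  · show Ph i0 c (Al g (t, 1, ω)) = _
    rw [Al_out (by linarith only [ht.2]), et_one, Ph_four (norm_cs (by norm_num) hω)]

end

/-! ### Flattening a display -/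

open Classical in
/-- The display in flat coordinates. -/
noncomputable def fla (i0 : ι) (c : E ι) (Ξ : ℝ × E ι → E ι) (z : ℝ × E ι) : E ι :=
  if Ξ z ∈ ({unf i0 c, Pi.single i0 1}ᶜ : Set (E ι)) then Ps i0 c (Ξ z) else 0

section

variable {K : ℝ} {Ξ : ℝ × E ι → E ι}

theorem germ_eq (h : GXL i0 K (unf i0 c) (Pi.single i0 1) (fun x => x) Ξ) {n : ℝ}
    (hn : n ∈ Icc (3 / 4 : ℝ) 1) {ω : E ι} (hω : ω ∈ Cs i0) :
    Ξ (n, ω) = cone i0 c (n, ω) ∧ 11 / 3 ≤ et n := by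
  obtain ⟨b0, b1⟩ := et_bd (n := n) (by linarith only [hn.1])
  have b2 : 11 / 3 ≤ et n := by
    have := et_mono hn.1
    rw [et_lo le_rfl] at this
    linarith only [this]
  refine ⟨?_, b2⟩
  show _ = Ph i0 c (et n • ω)
  rw [h.2 n hn ω hω, Ph_far (by rwa [norm_cs b0 hω]), unf_polar b0 hω,
    usp_top ⟨by linarith only [b2], b1⟩, et_hi hn.1, sub_sub_cancel]

theorem disp_cone (hc : c ∈ Bf i0 (7 / 2)) {g : ℝ × E ι → E ι} (F : Flat i0 K g) (hK : 0 ≤ K) :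
    Disp i0 (8 * (2 * K + 9)) (unf i0 c) (Pi.single i0 1) (cone i0 c) :=
  ((F.disp hK hc).slice (r := 0) ⟨le_rfl, zero_le_one⟩).congr fun n hn ω _ => by
    show _ = Ph i0 c (Al g (0, n, ω))
    rw [Al_out (by linarith only [hn.1])]
    rfl

theorem fla_spec (hc : c ∈ Bf i0 (7 / 2))
    (h : GXL i0 K (unf i0 c) (Pi.single i0 1) (fun x => x) Ξ) {z : ℝ × E ι}
    (hz : z ∈ Icc (0 : ℝ) 1 ×ˢ Cs i0) : fla i0 c Ξ z ∈ Bf i0 4 ∧ ‖fla i0 c Ξ z‖ < 4 ∧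
      (fla i0 c Ξ z ≠ 0 ↔ Ξ z ∈ ({unf i0 c, Pi.single i0 1}ᶜ : Set (E ι))) ∧
      (fla i0 c Ξ z ≠ 0 → Ph i0 c (fla i0 c Ξ z) = Ξ z) := by
  obtain ⟨h1, h2⟩ := Ps_spec hc (h.1.2.1 () trivial z.1 hz.1 z.2 hz.2)
  unfold fla
  split_ifs with u
  · have := (Ph_mem hc h1).1 (h2.symm ▸ u)
    exact ⟨h1, this.2, iff_of_true this.1 u, fun _ => h2⟩
  · exact ⟨zero_mem (by norm_num), by simp, iff_of_false (fun v => v rfl) u, fun v => (v rfl).elim⟩

theorem fla_eq (hc : c ∈ Bf i0 (7 / 2))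
    (h : GXL i0 K (unf i0 c) (Pi.single i0 1) (fun x => x) Ξ) {z : ℝ × E ι}
    (hz : z ∈ Icc (0 : ℝ) 1 ×ˢ Cs i0) {w : E ι} (hw : w ∈ Bf i0 4) (h0 : w ≠ 0) (h4 : ‖w‖ < 4)
    (e : Ξ z = Ph i0 c w) : fla i0 c Ξ z = w := by
  obtain ⟨a1, -, a2, a3⟩ := fla_spec hc h hz
  rcases Ph_inj hc a1 hw ((a3 (a2.2 (e ▸ (Ph_mem hc hw).2 ⟨h0, h4⟩))).trans e) with u | u
  · exact u
  · exact absurd u.2 h4.ne

theorem flat_fla (hc : c ∈ Bf i0 (7 / 2))
    (h : GXL i0 K (unf i0 c) (Pi.single i0 1) (fun x => x) Ξ) :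
    Flat i0 (1386 * K) (fla i0 c Ξ) := by
  have sub : ∀ z ∈ Icc (0 : ℝ) (3 / 4) ×ˢ Cs i0, z ∈ Icc (0 : ℝ) 1 ×ˢ Cs i0 := fun z hz =>
    ⟨⟨hz.1.1, by linarith only [hz.1.2]⟩, hz.2⟩
  have uq : ∀ z ∈ Icc (0 : ℝ) 1 ×ˢ Cs i0, ∀ z' ∈ Icc (0 : ℝ) 1 ×ˢ Cs i0, fla i0 c Ξ z ≠ 0 →
      Ξ z' = Ξ z → z' = z := fun z hz z' hz' h0 e =>
    h.1.1.uq () z z' ⟨trivial, hz⟩ ⟨trivial, hz'⟩ ((fla_spec hc h hz).2.2.1.1 h0) trivial e
  have top : ∀ ω ∈ Cs i0, fla i0 c Ξ (3 / 4, ω) = (11 / 3 : ℝ) • ω := fun ω hω => by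
    have n1 := norm_cs (t := 11 / 3) (by norm_num) hω
    refine fla_eq hc h ⟨⟨by norm_num, by norm_num⟩, hω⟩ (mem_cs (by norm_num) (by norm_num) hω)
      (norm_ne_zero_iff.1 (by rw [n1]; norm_num)) (by rw [n1]; norm_num) ?_
    rw [(germ_eq h ⟨le_rfl, by norm_num⟩ hω).1, cone, et_lo le_rfl]
    norm_num
  have lt : ∀ m ∈ Ico (0 : ℝ) (3 / 4), ∀ ω ∈ Cs i0, ‖fla i0 c Ξ (m, ω)‖ < 11 / 3 := by
    intro m hm ω hω
    by_contra u
    have hz := sub (m, ω) ⟨⟨hm.1, hm.2.le⟩, hω⟩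
    obtain ⟨a1, -, -, a3⟩ := fla_spec hc h hz
    have h0 : fla i0 c Ξ (m, ω) ≠ 0 := norm_ne_zero_iff.1 (by linarith only [u])
    obtain ⟨ω', hω', e⟩ := polar a1.1
    obtain ⟨n, hn, e'⟩ := et_surj (norm_nonneg _) a1.2
    have n1 : 3 / 4 ≤ n := by
      by_contra v
      rw [et_lo (by linarith only [v])] at e'
      linarith only [u, e', v]
    have := uq (m, ω) hz (n, ω') ⟨hn, hω'⟩ h0 (by
      rw [(germ_eq h ⟨n1, hn.2⟩ hω').1, ← a3 h0, cone, e', ← e])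
    linarith only [(Prod.ext_iff.1 this).1, hm.2, n1, this]
  have mem : ∀ m ∈ Icc (0 : ℝ) (3 / 4), ∀ ω ∈ Cs i0, fla i0 c Ξ (m, ω) ∈ Bf i0 (11 / 3) := by
    intro m hm ω hω
    rcases hm.2.eq_or_lt with rfl | u
    · rw [top ω hω]
      exact mem_cs (by norm_num) le_rfl hω
    · exact ⟨(fla_spec hc h (sub (m, ω) ⟨hm, hω⟩)).1.1, (lt m ⟨hm.1, u⟩ ω hω).le⟩
  have op : IsOpen ({unf i0 c, Pi.single i0 1}ᶜ : Set (E ι)) :=
    (toFinite _).isClosed.isOpen_compl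
  have tend : ∀ z : ℝ × E ι, Tendsto (fun z' : ℝ × E ι => ((), z'))
      (𝓝[Icc (0 : ℝ) (3 / 4) ×ˢ Cs i0] z)
      (𝓝[(univ : Set Unit) ×ˢ (Icc (0 : ℝ) 1 ×ˢ Cs i0)] ((), z)) := fun z =>
    ContinuousWithinAt.tendsto_nhdsWithin (by fun_prop) fun z' hz' => ⟨trivial, sub z' hz'⟩
  refine ⟨mem, lt, fun ω hω => ?_, top, fun w hw h0 h1 => ?_, fun z hz z' hz' h0 e => ?_,
    fun z hz h0 => ?_, fun z hz h0 => ?_⟩
  · exact if_neg fun u => u (.inl (h.1.2.2 () trivial ω hω).1)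
  · have hw' : w ∈ Bf i0 4 := ⟨hw, by linarith only [h1]⟩
    obtain ⟨⟨m, ω⟩, hx, e⟩ := h.1.1.ex () (Ph i0 c w)
      ⟨trivial, mem_sphere_zero_iff_norm.2 (Ph_norm hc hw')⟩
      ((Ph_mem hc hw').2 ⟨h0, by linarith only [h1]⟩) trivial
    have hx' : (m, ω) ∈ Icc (0 : ℝ) 1 ×ˢ Cs i0 := hx.2
    refine ⟨m, ⟨hx'.1.1, not_le.1 fun u => ?_⟩, ω, hx'.2, fla_eq hc h hx' hw' h0 (by linarith only [h1]) e⟩
    obtain ⟨g1, g2⟩ := germ_eq h ⟨u, hx'.1.2⟩ hx'.2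
    obtain ⟨b0, b1⟩ := et_bd hx'.1.1
    rcases Ph_inj hc (mem_cs b0 b1 hx'.2) hw' (g1.symm.trans e) with v | v
    · rw [← v, norm_cs b0 hx'.2] at h1
      exact not_lt.2 g2 h1
    · linarith only [v.2, h1, v]
  · exact uq z (sub z hz) z' (sub z' hz') h0 (by
      rw [← (fla_spec hc h (sub z' hz')).2.2.2 (e ▸ h0), e, (fla_spec hc h (sub z hz)).2.2.2 h0])
  · have hU := (fla_spec hc h (sub z hz)).2.2.1.1 h0
    filter_upwards [(tend z).eventually (h.1.1.ev op (z := ((), z)) ⟨trivial, sub z hz⟩ hU trivial),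
      (tend z).eventually (h.1.1.lip ((), z) ⟨trivial, sub z hz⟩ hU trivial).2,
      self_mem_nhdsWithin] with z' h1 h2 h3
    have h4 : dist (Ξ z') (Ξ z) ≤ K * dist z' z := by simpa [pbP, gs] using h2
    have up := mem z'.1 h3.1 z'.2 h3.2
    have h5 := Ph_exp hc ⟨up.1, up.2.trans (by norm_num)⟩ (fla_spec hc h (sub z hz)).1
    obtain ⟨-, -, a2, a3⟩ := fla_spec hc h (sub z' h3)
    rw [a3 (a2.2 h1.2.1), (fla_spec hc h (sub z hz)).2.2.2 h0] at h5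
    linarith only [h4, h5]
  · have hU := (fla_spec hc h (sub z hz)).2.2.1.1 h0
    have d1 := ((h.1.1.lo ((), z) ⟨trivial, sub z hz⟩ hU trivial).comp'
      (R' := Icc (0 : ℝ) (3 / 4) ×ˢ Cs i0) (Φ := fun z' : ℝ × E ι => ((), z'))
      (fun z' hz' => ⟨trivial, sub z' hz'⟩) (by fun_prop)).imp
      (P' := fun w => fla i0 c Ξ w ≠ 0)
      fun w hw k => ⟨(fla_spec hc h (sub w hw)).2.2.1.1 k, trivial⟩
    refine d1.trans ((Dm.const ()).prod (Dm.of_nhds (K := 8)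
      (p := fun w => Ξ w ∈ ({unf i0 c, Pi.single i0 1}ᶜ : Set (E ι)))
      (((tend z).eventually (h.1.1.ev op (z := ((), z)) ⟨trivial, sub z hz⟩ hU trivial)).mono
        fun _ a => a.2.1) fun w hw k v hv k' => ?_))
    obtain ⟨a1, -, a2, a3⟩ := fla_spec hc h (sub w hw)
    obtain ⟨b1, -, b2, b3⟩ := fla_spec hc h (sub v hv)
    have := Ph_lip hc hc b1 a1
    rw [a3 (a2.2 k), b3 (b2.2 k'), dist_self, mul_zero, add_zero] at this
    exact this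

theorem dmov_cone (hK : 0 ≤ K) (hc : c ∈ Bf i0 (7 / 2))
    (h : GXL i0 K (unf i0 c) (Pi.single i0 1) (fun x => x) Ξ) :
    DMov i0 (8 * (2 * (1386 * K) + 9)) (unf i0 c) (Pi.single i0 1) Ξ (cone i0 c) := by
  have F := flat_fla hc h
  have k : 0 ≤ 1386 * K := by linarith only [hK]
  refine (DMov.of_ap (F.disp k hc) (disp_cone hc F k) h.1 fun n hn ω hω => ⟨Ap.of_eq ?_, ?_⟩).symm
  · show Ph i0 c (Al _ (0, n, ω)) = _
    rw [Al_out (by linarith only [hn.1])]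
    rfl
  show Ap _ (Ph i0 c (Al _ (1, n, ω))) _
  rcases le_total (3 / 4) n with u | u
  · rw [Al_out (by linarith only [u]), (germ_eq h ⟨u, hn.2⟩ hω).1]
    exact Ap.rfl
  rw [F.inn one_pos le_rfl hω (by linarith only [u]), one_smul, div_one]
  obtain ⟨-, -, a2, a3⟩ := fla_spec hc h (z := (n, ω)) ⟨hn, hω⟩
  by_cases v : fla i0 c Ξ (n, ω) = 0
  · refine Ap.of_not (fun w => w (.inl ?_)) fun w => a2.2 w v
    rw [v, Ph_zero]
  · exact Ap.of_eq (a3 v)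

end

end DA

variable {ι : Type} [Fintype ι] [DecidableEq ι] [Nontrivial ι]

/-- Every display with the standard germ can be moved to a canonical one. -/
theorem alex_core (i0 : ι) : ∃ (cone : E ι → ℝ × E ι → E ι) (C0 : ℝ),
    (∀ p, Hp p → p ≠ Pi.single i0 1 →
      SMov C0 p (Pi.single i0 1) (hat i0 p (Pi.single i0 1) (cone p)) fun x => x) ∧
    ∀ K : ℝ, ∃ K' : ℝ, 0 ≤ K' ∧ ∀ p Ξ, Hp p → p ≠ Pi.single i0 1 →
      GXL i0 K p (Pi.single i0 1) (fun x => x) Ξ → DMov i0 K' p (Pi.single i0 1) Ξ (cone p) := by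
  have key : ∀ p : E ι, ∃ c, Hp p → p ≠ Pi.single i0 1 →
      c ∈ DA.Bf i0 (7 / 2) ∧ DA.unf i0 c = p := fun p => by
    by_cases h : Hp p ∧ p ≠ Pi.single i0 1
    · obtain ⟨c, hc⟩ := DA.exists_ctr h.1 h.2
      exact ⟨c, fun _ _ => hc⟩
    · exact ⟨0, fun a b => (h ⟨a, b⟩).elim⟩
  choose c hc using key
  refine ⟨fun p => DA.cone i0 (c p), 2 * (504 * (100 * 5)), fun p hp hne => ?_, fun K =>
    ⟨8 * (2 * (1386 * |K|) + 9), by positivity, fun p Ξ hp hne h => ?_⟩⟩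
  · have := DA.smov_cone (hc p hp hne).1
    rwa [(hc p hp hne).2] at this
  · have := DA.dmov_cone (Ξ := Ξ) (abs_nonneg K) (hc p hp hne).1
    rw [(hc p hp hne).2] at this
    exact this ⟨h.1.mono (le_abs_self K), h.2⟩

theorem alex (i0 : ι) (K : ℝ) : ∃ K' : ℝ, 0 ≤ K' ∧ ∀ (p q : E ι) (L : E ι → E ι), Hp p → p ≠ q →
    IsSP L → L (Pi.single i0 1) = q → ∀ Ξ, GXL i0 K p q L Ξ →
      SMov K' p q (hat i0 p q Ξ) L ∧ ∀ Ξ', GXL i0 K p q L Ξ' → DMov i0 K' p q Ξ Ξ' := by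
  obtain ⟨cone, C0, h1, h2⟩ := alex_core i0
  obtain ⟨K1, k1, h2⟩ := h2 K
  have k2 : 0 ≤ max K1 C0 := k1.trans (le_max_left _ _)
  refine ⟨2 * max K1 C0, by linarith only [k2], ?_⟩
  rintro p _ L hp hne hL rfl Ξ hΞ
  obtain ⟨O, hO, e1, e2⟩ := hL.inv
  obtain ⟨p, rfl⟩ : ∃ p', p = L p' := ⟨O p, (e2 p).symm⟩
  have hp' : Hp p := e1 p ▸ hp.sp hO
  have hne' : p ≠ Pi.single i0 1 := fun e => hne (by rw [e])
  have core : ∀ Θ, GXL i0 K (L p) (L (Pi.single i0 1)) L Θ →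
      DMov i0 K1 p (Pi.single i0 1) (fun z => O (Θ z)) (cone p) := fun Θ hΘ => by
    have d := hΘ.1.sp hO
    rw [e1, e1] at d
    exact h2 p _ hp' hne' ⟨d, fun n hn ω hω => by
      simp only [hΘ.2 n hn ω hω, hO.add, hO.smul, e1]⟩
  refine ⟨?_, fun Ξ' hΞ' => ?_⟩
  · have m := ((((core Ξ hΞ).hat k1).mono (le_max_left K1 C0)).trans k2
      ((h1 p hp' hne').mono (le_max_right K1 C0))).sp hL
    refine m.congr fun x _ => ⟨Ap.of_eq ?_, Ap.rfl⟩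
    rw [← hat_sp (O := L)]
    simp only [e2]
  · have m := ((((core Ξ hΞ).trans k1 (core Ξ' hΞ').symm)).sp hL).mono
      (show 2 * K1 ≤ 2 * max K1 C0 by linarith only [le_max_left K1 C0])
    exact m.congr fun n _ ω _ => ⟨(e2 _).symm, (e2 _).symm⟩

end Pool.Agent.Lib.MP_ecd4e3_gt.NB
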