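import Pool.Agent.Lib.MP_ecd4e3_gt.NB.DDefs

/-! Calculus of displays and of their movies. -/

set_option linter.unusedSectionVars false

namespace Pool.Agent.Lib.MP_ecd4e3_gt.NB

open Set Filter Topology Metric MeasureTheory
open scoped NNReal ENNReal

section Gen

variable {T X Y T' X' : Type} [MetricSpace T] [MetricSpace X] [MetricSpace Y] [MetricSpace T']
  [MetricSpace X'] {U U' : Set Y} {J : Set T} {R : Set X} {β β' Z Z' : T × X → Y} {S : Set Y}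
  {a b a' b' c c' : ℝ}

theorem db_gauge (h : Sol U (pbP J R ∅ β S (gs a b) c) univ Z) (ha : a ≤ a') (hb : b ≤ b') :
    Sol U (pbP J R ∅ β' S (gs a' b') c') univ Z :=
  h.setB rfl (fun _ k => k.2.elim) (fun _ _ _ => Iff.rfl) fun _ _ => Eventually.of_forall fun _ =>
    add_le_add (mul_le_mul_of_nonneg_right ha dist_nonneg)
      (mul_le_mul_of_nonneg_right hb dist_nonneg)

theorem db_pre (h : Sol U (pbP J R ∅ β S (gs a b) c) univ Z) {J' : Set T'} {R' : Set X'}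
    {τ : T' → T} {φ : X' → X} (hτ : MapsTo τ J' J) (hφ : BijOn φ R' R) (cτ : Continuous τ)
    (cφ : Continuous φ) {β' : T' × X' → Y}
    (hg : ∀ z z' : T' × X', gs a b (τ z.1, φ z.2) (τ z'.1, φ z'.2) ≤ gs a' b' z z')
    (h1 : ∀ t t', dist (τ t) (τ t') ≤ 1 * dist t t')
    (h2 : ∀ x x', dist x x' ≤ 2 * dist (φ x) (φ x')) :
    Sol U (pbP J' R' ∅ β' S (gs a' b') c') univ fun z => Z (τ z.1, φ z.2) := by
  refine h.comp (p := pbP J' R' ∅ β' S (gs a' b') c') τ (fun z => φ z.2)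
    (fun _ k => ⟨hτ k.1, hφ.mapsTo k.2⟩) (fun _ hz _ k => ⟨hz.1, k.2⟩)
    (fun _ _ k _ => ⟨hτ k.1, k.2⟩) (fun _ _ k _ _ x hx _ => ?_)
    (fun _ _ _ k1 k2 _ k => hφ.injOn k2.2 k1.2 k)
    (fun z _ _ => ⟨Continuous.continuousWithinAt (by fun_prop), Eventually.of_forall (hg z)⟩)
    (fun _ k => k.2.elim) fun _ _ _ => ⟨Dm.refl.lip h1, Dm.toR (Dm.refl.unlip h2)⟩
  obtain ⟨x', a1, a2⟩ := hφ.surjOn hx.2
  exact ⟨x', ⟨k.1, a1⟩, a2⟩

theorem db_iso (hU : IsOpen U) {g : T × X → T × X → ℝ}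
    (h : Sol U (pbP J R ∅ β S g 1) univ Z) {O : Y → Y}
    (hO : ∀ y y', dist (O y) (O y') = dist y y') (hφ : ∀ y, O y ∈ U' ↔ y ∈ U) (hS : BijOn O S S) :
    Sol U' (pbP J R ∅ β' S g c) univ fun z => O (Z z) := by
  refine h.post (p := pbP J R ∅ β' S g c) (l1 := 1) (l2 := 0) hU
    ⟨fun _ k => k.2.elim, fun _ k => k.2.elim, one_pos⟩ (fun _ => O) zero_le_one rfl
    (fun _ k => k.2.elim) (fun _ => hφ) (fun _ k => k.2.elim) (fun t y _ => ⟨fun k => ?_, ?_⟩)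
    (fun _ _ k _ k' _ e => hS.injOn k'.2 k.2 e) (fun _ _ _ _ _ => trivial)
    (fun _ _ _ _ => Eventually.of_forall fun _ => by simp [hO])
    (fun _ _ => Eventually.of_forall fun _ => by simp [pbP])
    fun _ _ _ _ => Dm.toR (Dm.refl.uniso (Isometry.of_dist_eq hO))
  · obtain ⟨y0, a1, a2⟩ := hS.surjOn k.2
    exact ⟨y0, ⟨k.1, a1⟩, a2⟩
  · rintro ⟨y0, a1, rfl⟩
    exact ⟨a1.1, hS.mapsTo a1.2⟩

theorem db_ap (hU : IsOpen U) (h : Sol U (pbP J R ∅ β S (gs a b) c) univ Z)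
    (he : ∀ t ∈ J, ∀ x ∈ R, Ap U (Z' (t, x)) (Z (t, x))) :
    Sol U (pbP J R ∅ β' S (gs a b) c') univ Z' :=
  db_gauge (h.congr hU (fun _ k => k.2.elim) fun z hz => he z.1 hz.1 z.2 hz.2) le_rfl le_rfl

theorem db_sub {p : Pb T X Y} {W : Set Y} (h : Sol U p W Z) (hU : U' ⊆ U) : Sol U' p W Z :=
  ⟨fun z hz k => h.maps z hz (hU k), fun z hz k => h.bd z hz (hU k),
    fun z hz k => h.bd' z hz (hU k), fun t y k1 k2 => h.ex t y k1 (hU k2),
    fun t x x' k1 k2 k3 => h.uq t x x' k1 k2 (hU k3), fun z hz k => h.lip z hz (hU k),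
    fun z hz k k' => (h.lo z hz (hU k) k').imp fun _ _ a => ⟨hU a.1, a.2⟩⟩

theorem db_two (x x' : X) : dist x x' ≤ 2 * dist (id x) (id x') :=
  le_mul_of_one_le_left dist_nonneg one_le_two

theorem db_open (p q : Y) : IsOpen ({p, q}ᶜ : Set Y) := (toFinite _).isClosed.isOpen_compl

theorem db_symm {β β' Z : ℝ × X → Y} (h : Sol U (pbP (Icc 0 1) R ∅ β S (gs a b) c) univ Z) :
    Sol U (pbP (Icc 0 1) R ∅ β' S (gs a b) c') univ fun z => Z (1 - z.1, z.2) :=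
  db_pre h (τ := fun t => 1 - t) (φ := id) (fun t k => ⟨by linarith only [k.2], by linarith only [k.1]⟩)
    (bijOn_id R) (by fun_prop) continuous_id (fun z z' => by
      simp only [gs, dist_sub_left, id, le_refl]) (fun _ _ => by rw [dist_sub_left, one_mul]) db_two

theorem db_cat (hU : IsOpen U) (ha : 0 ≤ a) {β1 β2 β' H1 H2 : ℝ × X → Y}
    (h1 : Sol U (pbP (Icc 0 1) R ∅ β1 S (gs a a) c) univ H1)
    (h2 : Sol U (pbP (Icc 0 1) R ∅ β2 S (gs a a) c) univ H2)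
    (he : ∀ x ∈ R, H1 (1, x) = H2 (0, x)) :
    Sol U (pbP (Icc 0 1) R ∅ β' S (gs (2 * a) (2 * a)) c) univ
      fun z => if z.1 ≤ 1 / 2 then H1 (2 * z.1, z.2) else H2 (2 * z.1 - 1, z.2) :=
  db_gauge (Sol.cat (β := fun x => H1 (0, x)) (c := c) hU ha (db_gauge h1 le_rfl le_rfl)
    (db_gauge h2 le_rfl le_rfl) fun x hx => Ap.of_eq (he x hx)) (by linarith only [ha]) le_rfl

theorem db_ends (hU : IsOpen U) {β β' Z : ℝ × X → Y} {f g : X → Y}
    (h : Sol U (pbP (Icc 0 1) R ∅ β S (gs a b) c) univ Z)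
    (he : ∀ x ∈ R, Ap U (f x) (Z (0, x)) ∧ Ap U (g x) (Z (1, x))) :
    Sol U (pbP (Icc 0 1) R ∅ β' S (gs a b) c') univ
      fun z => if z.1 = 0 then f z.2 else if z.1 = 1 then g z.2 else Z z := by
  refine db_ap hU h fun t _ x hx => ?_
  dsimp only
  split_ifs with h0 h1
  · rw [h0]; exact (he x hx).1
  · rw [h1]; exact (he x hx).2
  · exact Ap.rfl

end Gen

variable {ι : Type} [Fintype ι] [DecidableEq ι] {i0 : ι} {K K' : ℝ} {p q : E ι}
  {Ξ Ξ' Ξ'' : ℝ × E ι → E ι}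

theorem isSP_rfx (i0 : ι) : IsSP (rfx i0) := by
  refine ⟨1, fun i => if i = i0 then -1 else 1, fun i => ?_, fun x i => ?_⟩
  · by_cases h : i = i0 <;> simp [h]
  · by_cases h : i = i0 <;> simp [h, rfx]

theorem Hp.sp {O : E ι → E ι} (hO : IsSP O) (h : Hp p) : Hp (O p) := by
  refine ⟨(hO.norm p).trans h.1, fun i => ?_⟩
  obtain ⟨π, s, hs, e⟩ := hO
  obtain ⟨m, hm⟩ := h.2 (π i)
  rcases hs i with a | a
  · exact ⟨m, by rw [e, a, one_mul, hm]⟩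
  · exact ⟨-m, by rw [e, a, Int.cast_neg, ← hm]; ring⟩

theorem Hp.dist (hp : Hp p) (hq : Hp q) (h : p ≠ q) : 1 / 2 ≤ dist p q := by
  obtain ⟨i, hi⟩ := Function.ne_iff.1 h
  obtain ⟨m, hm⟩ := hp.2 i
  obtain ⟨n, hn⟩ := hq.2 i
  refine le_trans ?_ (dist_le_pi_dist p q i)
  have h1 : m - n ≠ 0 := fun e => hi (by
    rw [sub_eq_zero.1 e, ← hn] at hm
    linarith only [hm])
  have h2 : (1 : ℝ) ≤ |(m : ℝ) - n| := by exact_mod_cast Int.one_le_abs h1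
  rw [← hm, ← hn, ← mul_sub, abs_mul, abs_two] at h2
  rw [Real.dist_eq]
  linarith only [h2]

theorem hp_single (j : ι) {s : ℝ} (hs : s = 1 ∨ s = -1) : Hp (Pi.single j s : E ι) := by
  refine ⟨?_, fun i => ?_⟩
  · rw [Pi.norm_single]
    rcases hs with a | a <;> simp [a]
  · by_cases h : i = j
    · rcases hs with a | a
      · exact ⟨2, by simp [h, a]⟩
      · exact ⟨-2, by simp [h, a]⟩
    · exact ⟨0, by simp [h]⟩

theorem IsSP.cs {L : E ι → E ι} (h : IsSP L) {j : ι} {s : ℝ} (hs : s = 1 ∨ s = -1)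
    (he : L (Pi.single i0 1) = Pi.single j s) : BijOn L (Cs i0) (Cs j) := by
  obtain ⟨L', h', a, b⟩ := h.inv
  have c := h.coord hs he
  refine ⟨fun x hx => ⟨by rw [c, hx.1, mul_zero], (h.norm x).trans hx.2⟩,
    (Function.LeftInverse.injective a).injOn, fun x hx => ⟨L' x, ⟨?_, (h'.norm x).trans hx.2⟩, b x⟩⟩
  have d := c (L' x)
  rw [b, hx.1] at d
  rcases hs with e | e <;> rw [e] at d <;> linarith only [d]

theorem db_mem {O : E ι → E ι} (hO : IsSP O) (y : E ι) :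
    O y ∈ ({O p, O q}ᶜ : Set (E ι)) ↔ y ∈ ({p, q}ᶜ : Set (E ι)) := by
  obtain ⟨O', -, a, -⟩ := hO.inv
  simp [(Function.LeftInverse.injective a).eq_iff]

section DispM

variable {T : Type} [MetricSpace T] {J : Set T} {M M' : T × (ℝ × E ι) → E ι}

theorem DispM.dmono (h : DispM i0 J K p q M) (hK : K ≤ K') : DispM i0 J K' p q M :=
  ⟨db_gauge h.1 hK hK, h.2⟩

theorem DispM.rev (h : DispM i0 J K p q M) :
    DispM i0 J K q p fun z => M (z.1, 1 - z.2.1, z.2.2) := by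
  have m : ∀ n ∈ Icc (0 : ℝ) 1, 1 - n ∈ Icc (0 : ℝ) 1 := fun n k =>
    ⟨by linarith only [k.2], by linarith only [k.1]⟩
  refine ⟨?_, fun t ht n hn => h.2.1 t ht _ (m n hn), fun t ht ω hω => ?_⟩
  · rw [pair_comm q p]
    refine db_pre h.1 (τ := id) (φ := fun w : ℝ × E ι => (1 - w.1, w.2)) (mapsTo_id J)
      ⟨fun w k => mem_prod.2 ⟨m _ k.1, k.2⟩, fun w _ w' _ e => ?_, fun w k => ⟨(1 - w.1, w.2),
        mem_prod.2 ⟨m _ k.1, k.2⟩, by simp⟩⟩ continuous_id (by fun_prop) (fun z z' => ?_)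
      (fun _ _ => (one_mul _).ge) fun x x' => ?_
    · obtain ⟨e1, e2⟩ := Prod.mk.inj e
      exact Prod.ext (by linarith only [e1]) e2
    · simp only [gs, Prod.dist_eq, dist_sub_left, id, le_refl]
    · simpa only [Prod.dist_eq, dist_sub_left, id] using db_two x x'
  · simpa using (h.2.2 t ht ω hω).symm

theorem DispM.congr (h : DispM i0 J K p q M) (he : ∀ t ∈ J, ∀ n ∈ Icc (0 : ℝ) 1, ∀ ω ∈ Cs i0,
    M' (t, n, ω) = M (t, n, ω)) : DispM i0 J K p q M' := by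
  refine ⟨db_ap (db_open p q) h.1 fun t ht x hx => Ap.of_eq (he t ht _ hx.1 _ hx.2),
    fun t ht n hn ω hω => ?_, fun t ht ω hω => ?_⟩
  · rw [he t ht n hn ω hω]
    exact h.2.1 t ht n hn ω hω
  · rw [he t ht 0 (by simp) ω hω, he t ht 1 (by simp) ω hω]
    exact h.2.2 t ht ω hω

theorem DispM.sp (h : DispM i0 J K p q M) {O : E ι → E ι} (hO : IsSP O) :
    DispM i0 J K (O p) (O q) fun z => O (M z) :=
  ⟨db_iso (db_open p q) h.1 hO.dist (db_mem hO) hO.bijOn.2,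
    fun t ht n hn ω hω => (hO.norm _).trans (h.2.1 t ht n hn ω hω),
    fun t ht ω hω => ⟨congrArg O (h.2.2 t ht ω hω).1, congrArg O (h.2.2 t ht ω hω).2⟩⟩

end DispM

theorem Disp.mono (h : Disp i0 K p q Ξ) (hK : K ≤ K') : Disp i0 K' p q Ξ := DispM.dmono h hK
theorem Disp.rev (h : Disp i0 K p q Ξ) : Disp i0 K q p (rev Ξ) := DispM.rev h
theorem Disp.congr (h : Disp i0 K p q Ξ) (he : ∀ n ∈ Icc (0 : ℝ) 1, ∀ ω ∈ Cs i0,
    Ξ' (n, ω) = Ξ (n, ω)) : Disp i0 K p q Ξ' := DispM.congr h fun _ _ => he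
theorem Disp.sp (h : Disp i0 K p q Ξ) {O : E ι → E ι} (hO : IsSP O) :
    Disp i0 K (O p) (O q) fun z => O (Ξ z) := DispM.sp h hO
theorem DispM.slice {M : ℝ × (ℝ × E ι) → E ι} (h : DispM i0 (Icc (0 : ℝ) 1) K p q M) {r : ℝ}
    (hr : r ∈ Icc (0 : ℝ) 1) : Disp i0 K p q fun z => M (r, z) :=
  ⟨db_pre h.1 (τ := fun _ => r) (φ := id) (fun _ _ => hr) (bijOn_id _) continuous_const
    continuous_id (fun z z' => by simp [gs]) (fun _ _ => by simp) db_two, fun _ _ => h.2.1 r hr, fun _ _ => h.2.2 r hr⟩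

omit [Fintype ι] [DecidableEq ι] in
theorem db_rev_rev (Ξ : ℝ × E ι → E ι) : rev (rev Ξ) = Ξ := by
  funext z
  simp [rev]

theorem Good.mono {j : ι} (h : Good i0 K p q j Ξ) (hK : K ≤ K') : Good i0 K' p q j Ξ :=
  h.imp (fun k => ⟨k.1.mono hK, k.2⟩) fun k => ⟨k.1.mono hK, k.2⟩
theorem Good.rev {j : ι} (h : Good i0 K p q j Ξ) : Good i0 K q p j (rev Ξ) :=
  h.symm.imp id fun k => (db_rev_rev Ξ).symm ▸ k
theorem Adapt.mono {j : ι} {ε : ℝ} {Ξ1 Ξ2 : ℝ × E ι → E ι} {p1 q2 : E ι}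
    (h : Adapt i0 K p q j ε Ξ Ξ1 Ξ2 p1 q2) (hK : K ≤ K') :
    Adapt i0 K' p q j ε Ξ Ξ1 Ξ2 p1 q2 :=
  { h with d := h.d.mono hK, g1 := h.g1.mono hK, g2 := h.g2.mono hK }

theorem Adapt.rev {j : ι} {ε : ℝ} {Ξ1 Ξ2 : ℝ × E ι → E ι} {p1 q2 : E ι}
    (h : Adapt i0 K p q j ε Ξ Ξ1 Ξ2 p1 q2) :
    Adapt i0 K q p j (-ε) (rev Ξ) (rev Ξ2) (rev Ξ1) q2 p1 := by
  have e1 : ∀ l : ℝ, 1 - (1 + l) / 2 = (1 - l) / 2 := fun l => by ring
  have e2 : ∀ l : ℝ, 1 - (1 - l) / 2 = (1 + l) / 2 := fun l => by ring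
  have w : ∀ l ∈ Icc (0 : ℝ) 1, ∀ ω ∈ Cs i0, Ξ2 ((1 - l) / 2, ω) j = -ε := fun l hl ω hω => by
    obtain ⟨a1, a2⟩ := h.wall l hl ω hω
    have a3 := congrFun a2 j
    simp only [hf, Function.update_self, a1] at a3
    linarith only [a3]
  refine ⟨h.sg.symm.imp (fun k => by rw [k, neg_neg]) fun k => by rw [k], h.d.rev, h.g2.rev, ?_,
    ?_, h.hp, fun m hm ω hω => ?_, fun m hm ω hω => ?_, fun l hl ω hω => ?_, fun y hy hj => ?_,
    fun m hm ω hω => ?_, fun m hm ω hω => ?_⟩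
  · rw [neg_neg]
    exact h.g1.rev
  · rw [neg_neg]
    exact h.hq
  · rw [neg_neg]
    exact h.e2 (1 - m) ⟨by linarith only [hm.2], by linarith only [hm.1]⟩ ω hω
  · exact h.e1 (1 - m) ⟨by linarith only [hm.2], by linarith only [hm.1]⟩ ω hω
  · simp only [NB.rev, e1, e2, neg_neg]
    exact ⟨w l hl ω hω, (h.wall l hl ω hω).2.symm⟩
  · obtain ⟨l, hl, ω, hω, a1⟩ := h.sur (Function.update y j ε)
      ((pi_norm_le_iff_of_nonneg zero_le_one).2 fun i => by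
        by_cases k : i = j
        · rcases h.sg with a | a <;> simp [k, a]
        · rw [Function.update_of_ne k]
          exact (norm_le_pi_norm y i).trans hy) (Function.update_self ..)
    refine ⟨l, hl, ω, hω, funext fun i => ?_⟩
    simp only [NB.rev, e1]
    by_cases k : i = j
    · rw [k, hj]
      exact w l hl ω hω
    · have a2 := congrFun (h.wall l hl ω hω).2 i
      simp only [hf, Function.update_of_ne k, a1] at a2
      exact a2.symm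
  · exact h.c2 (1 - m) ⟨by linarith only [hm.2], by linarith only [hm.1]⟩ ω hω
  · rw [neg_neg]
    exact h.c1 (1 - m) ⟨by linarith only [hm.2], by linarith only [hm.1]⟩ ω hω

theorem Adapt.congr {j : ι} {ε : ℝ} {Ξ1 Ξ2 : ℝ × E ι → E ι} {p1 q2 : E ι}
    (h : Adapt i0 K p q j ε Ξ Ξ1 Ξ2 p1 q2) (he : ∀ n ∈ Icc (0 : ℝ) 1, ∀ ω ∈ Cs i0,
      Ξ' (n, ω) = Ξ (n, ω)) : Adapt i0 K p q j ε Ξ' Ξ1 Ξ2 p1 q2 :=
  { h with
    d := h.d.congr he
    e1 := fun m hm ω hω => (he m ⟨hm.1, by linarith only [hm.2]⟩ ω hω).trans (h.e1 m hm ω hω)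
    e2 := fun m hm ω hω => (he m ⟨by linarith only [hm.1], hm.2⟩ ω hω).trans (h.e2 m hm ω hω) }

/-- The ends of a movie only matter up to junk. -/
theorem DMov.of_ap {M : ℝ × (ℝ × E ι) → E ι} (h : DispM i0 (Icc (0 : ℝ) 1) K p q M) {K0 K1 : ℝ}
    (h0 : Disp i0 K0 p q Ξ) (h1 : Disp i0 K1 p q Ξ')
    (he : ∀ n ∈ Icc (0 : ℝ) 1, ∀ ω ∈ Cs i0, Ap ({p, q}ᶜ : Set (E ι)) (M (0, n, ω)) (Ξ (n, ω)) ∧
      Ap ({p, q}ᶜ : Set (E ι)) (M (1, n, ω)) (Ξ' (n, ω))) : DMov i0 K p q Ξ Ξ' := by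
  refine ⟨fun z => if z.1 = 0 then Ξ z.2 else if z.1 = 1 then Ξ' z.2 else M z,
    ⟨db_ends (db_open p q) h.1 fun x hx => (he _ hx.1 _ hx.2).imp Ap.symm Ap.symm,
      fun t ht n hn ω hω => ?_, fun t ht ω hω => ?_⟩, fun n _ ω _ => by simp⟩
  · dsimp only
    split_ifs
    exacts [h0.2.1 () trivial n hn ω hω, h1.2.1 () trivial n hn ω hω, h.2.1 t ht n hn ω hω]
  · dsimp only
    split_ifs
    exacts [h0.2.2 () trivial ω hω, h1.2.2 () trivial ω hω, h.2.2 t ht ω hω]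

theorem DMov.mono (h : DMov i0 K p q Ξ Ξ') (hK : K ≤ K') : DMov i0 K' p q Ξ Ξ' :=
  h.imp fun _ k => ⟨k.1.dmono hK, k.2⟩

theorem DMov.symm (h : DMov i0 K p q Ξ Ξ') : DMov i0 K p q Ξ' Ξ := by
  obtain ⟨M, h1, h2⟩ := h
  have m : ∀ n ∈ Icc (0 : ℝ) 1, 1 - n ∈ Icc (0 : ℝ) 1 := fun n k =>
    ⟨by linarith only [k.2], by linarith only [k.1]⟩
  exact ⟨fun z => M (1 - z.1, z.2), ⟨db_symm h1.1, fun t ht => h1.2.1 _ (m t ht),
    fun t ht => h1.2.2 _ (m t ht)⟩, fun n hn ω hω => by simpa using (h2 n hn ω hω).symm⟩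

theorem DMov.trans (hK : 0 ≤ K) (h : DMov i0 K p q Ξ Ξ') (h' : DMov i0 K p q Ξ' Ξ'') :
    DMov i0 (2 * K) p q Ξ Ξ'' := by
  obtain ⟨M, h1, h2⟩ := h
  obtain ⟨M', h3, h4⟩ := h'
  refine ⟨fun z => if z.1 ≤ 1 / 2 then M (2 * z.1, z.2) else M' (2 * z.1 - 1, z.2),
    ⟨db_cat (db_open p q) hK h1.1 h3.1 fun x hx =>
      (h2 _ hx.1 _ hx.2).2.trans (h4 _ hx.1 _ hx.2).1.symm, fun t ht n hn ω hω => ?_,
      fun t ht ω hω => ?_⟩, fun n hn ω hω => ⟨?_, ?_⟩⟩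
  · dsimp only
    split_ifs with k
    · exact h1.2.1 _ ⟨by linarith only [ht.1], by linarith only [k]⟩ n hn ω hω
    · exact h3.2.1 _ ⟨by linarith only [not_le.1 k, k], by linarith only [ht.2]⟩ n hn ω hω
  · dsimp only
    split_ifs with k
    · exact h1.2.2 _ ⟨by linarith only [ht.1], by linarith only [k]⟩ ω hω
    · exact h3.2.2 _ ⟨by linarith only [not_le.1 k, k], by linarith only [ht.2]⟩ ω hω
  · dsimp only
    rw [if_pos (by norm_num), mul_zero]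
    exact (h2 n hn ω hω).1
  · dsimp only
    rw [if_neg (by norm_num), show (2 : ℝ) * 1 - 1 = 1 by norm_num]
    exact (h4 n hn ω hω).2

theorem DMov.rev (h : DMov i0 K p q Ξ Ξ') : DMov i0 K q p (rev Ξ) (rev Ξ') := by
  obtain ⟨M, h1, h2⟩ := h
  exact ⟨_, h1.rev, fun n hn => h2 (1 - n) ⟨by linarith only [hn.2], by linarith only [hn.1]⟩⟩

theorem DMov.sp (h : DMov i0 K p q Ξ Ξ') {O : E ι → E ι} (hO : IsSP O) :
    DMov i0 K (O p) (O q) (fun z => O (Ξ z)) fun z => O (Ξ' z) := by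
  obtain ⟨M, h1, h2⟩ := h
  exact ⟨_, h1.sp hO, fun n hn ω hω => (h2 n hn ω hω).imp (congrArg O) (congrArg O)⟩

theorem DMov.congr {Θ Θ' : ℝ × E ι → E ι} (h : DMov i0 K p q Ξ Ξ')
    (he : ∀ n ∈ Icc (0 : ℝ) 1, ∀ ω ∈ Cs i0, Θ (n, ω) = Ξ (n, ω) ∧ Θ' (n, ω) = Ξ' (n, ω)) :
    DMov i0 K p q Θ Θ' :=
  h.imp fun _ k => ⟨k.1, fun n hn ω hω => ⟨(k.2 n hn ω hω).1.trans (he n hn ω hω).1.symm,
    (k.2 n hn ω hω).2.trans (he n hn ω hω).2.symm⟩⟩

/-- A display followed by a movie of self-maps of the sphere which move the exit point. -/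
theorem Disp.post (hK : 0 ≤ K) (hK' : 0 ≤ K') {q0 : E ι} (h : Disp i0 K p q0 Ξ)
    {χ χ0 : ℝ × E ι → E ι}
    (hχ : Sol ({q}ᶜ : Set (E ι))
      (pbP (Icc (0 : ℝ) 1) (sphere 0 1) ∅ χ0 (sphere 0 1) (gs K' K') 1) univ χ) (hq : ‖q‖ = 1)
    (hp : ‖p‖ = 1) (hq0 : ‖q0‖ = 1) (hpq : p ≠ q)
    (he : ∀ r ∈ Icc (0 : ℝ) 1, χ (r, p) = p ∧ χ (r, q0) = q) :
    DispM i0 (Icc (0 : ℝ) 1) (K' * (K + 1)) p q fun z => χ (z.1, Ξ z.2) := by
  have _ := hp
  have _ := hq0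
  have _ := hpq
  have hs : ∀ w ∈ Icc (0 : ℝ) 1 ×ˢ Cs i0, Ξ w ∈ sphere (0 : E ι) 1 := fun w hw =>
    mem_sphere_zero_iff_norm.2 (h.2.1 () trivial _ hw.1 _ hw.2)
  have hu : ∀ r ∈ Icc (0 : ℝ) 1, ∀ x, χ (r, x) ∈ ({p, q}ᶜ : Set (E ι)) →
      x ∈ ({p, q0}ᶜ : Set (E ι)) := by
    rintro r hr x k (rfl | rfl)
    · exact k (Or.inl (he r hr).1)
    · exact k (Or.inr (he r hr).2)
  have h' : Sol ({p, q0}ᶜ : Set (E ι)) (pbP (Icc (0 : ℝ) 1) (Icc (0 : ℝ) 1 ×ˢ Cs i0) ∅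
      (fun z => Ξ z.2) (sphere 0 1) (gs K 0) 1) univ fun z => Ξ z.2 :=
    db_pre h.1 (τ := fun _ => ()) (φ := id) (fun _ _ => trivial) (bijOn_id _) continuous_const
      continuous_id (fun z z' => by simp [gs]) (fun _ _ => by simp) db_two
  refine ⟨(db_sub hχ (U' := {p, q}ᶜ) fun y k e => k (Or.inr e)).comp id (fun z => Ξ z.2)
    (fun z k => ⟨k.1, hs _ k.2⟩) (fun _ _ _ k => k) (fun _ _ k _ => k)
    (fun t y k1 k2 _ x hx e => h'.ex t x ⟨k1.1, hx.2⟩ (hu t k1.1 x (e.symm ▸ k2)) trivial)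
    (fun t x x' k1 k2 k3 => h'.uq t x x' k1 k2 (hu t k1.1 _ k3) trivial) (fun z hz k => ?_)
    (fun _ k => k.2.elim) (fun z hz k => ⟨Dm.refl, (h'.lo z hz (hu _ hz.1 _ k) trivial).imp
      fun w hw a => ⟨hu _ hw.1 _ a, trivial⟩⟩), fun t ht n hn ω hω => ?_, fun t ht ω hω => ?_⟩
  · obtain ⟨a1, a2⟩ := h'.lip z hz (hu _ hz.1 _ k) trivial
    refine ⟨continuousWithinAt_fst.prodMk a1, a2.mono fun z' a3 => ?_⟩
    simp only [pbP, gs, id, zero_mul, add_zero] at a3 ⊢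
    have a4 := mul_le_mul_of_nonneg_left a3 hK'
    have a5 := mul_nonneg hK' (dist_nonneg (x := z'.2) (y := z.2))
    have a6 := mul_nonneg (mul_nonneg hK' hK) (dist_nonneg (x := z'.1) (y := z.1))
    linarith only [a4, a5, a6]
  · by_cases k : χ (t, Ξ (n, ω)) = q
    · exact (congrArg norm k).trans hq
    · exact mem_sphere_zero_iff_norm.1 (hχ.maps (t, Ξ (n, ω)) ⟨ht, hs _ ⟨hn, hω⟩⟩ k).2
  · obtain ⟨a1, a2⟩ := h.2.2 () trivial ω hω
    dsimp only at a1 a2 ⊢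
    rw [a1, a2]
    exact he t ht

variable {f g h : E ι → E ι}

theorem SMov.mono (hm : SMov K p q f g) (hK : K ≤ K') : SMov K' p q f g :=
  hm.imp fun _ k => ⟨db_gauge k.1 hK hK, k.2⟩

theorem SMov.symm (hm : SMov K p q f g) : SMov K p q g f := by
  obtain ⟨M, h1, h2⟩ := hm
  exact ⟨fun z => M (1 - z.1, z.2), db_symm h1, fun x hx => by simpa using (h2 x hx).symm⟩

theorem SMov.swap (hm : SMov K p q f g) : SMov K q p f g := by
  unfold SMov
  rw [pair_comm q p]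
  exact hm

theorem SMov.trans (hK : 0 ≤ K) (hm : SMov K p q f g) (hm' : SMov K p q g h) :
    SMov (2 * K) p q f h := by
  obtain ⟨M, h1, h2⟩ := hm
  obtain ⟨M', h3, h4⟩ := hm'
  refine ⟨fun z => if z.1 ≤ 1 / 2 then M (2 * z.1, z.2) else M' (2 * z.1 - 1, z.2),
    db_cat (db_open p q) hK h1 h3 fun x hx => (h2 x hx).2.trans (h4 x hx).1.symm,
    fun x hx => ⟨?_, ?_⟩⟩
  · dsimp only
    rw [if_pos (by norm_num), mul_zero]
    exact (h2 x hx).1
  · dsimp only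
    rw [if_neg (by norm_num), show (2 : ℝ) * 1 - 1 = 1 by norm_num]
    exact (h4 x hx).2

theorem SMov.congr {f' g' : E ι → E ι} (hm : SMov K p q f g)
    (he : ∀ x, ‖x‖ = 1 → Ap ({p, q}ᶜ : Set (E ι)) (f' x) (f x) ∧ Ap ({p, q}ᶜ : Set (E ι)) (g' x) (g x)) :
    SMov K p q f' g' := by
  obtain ⟨M, h1, h2⟩ := hm
  refine ⟨fun z => if z.1 = 0 then f' z.2 else if z.1 = 1 then g' z.2 else M z,
    db_ends (db_open p q) h1 fun x hx => ?_, fun x _ => by simp⟩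
  rw [(h2 x hx).1, (h2 x hx).2]
  exact he x (mem_sphere_zero_iff_norm.1 hx)

theorem SMov.sp (hm : SMov K p q f g) {O : E ι → E ι} (hO : IsSP O) :
    SMov K (O p) (O q) (fun x => O (f x)) fun x => O (g x) := by
  obtain ⟨M, h1, h2⟩ := hm
  exact ⟨fun z => O (M z), db_iso (db_open p q) h1 hO.dist (db_mem hO) hO.bijOn.2,
    fun x hx => (h2 x hx).imp (congrArg O) (congrArg O)⟩

theorem SMov.pre (hm : SMov K p q f g) {O : E ι → E ι} (hO : IsSP O) :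
    SMov K p q (fun x => f (O x)) fun x => g (O x) := by
  obtain ⟨M, h1, h2⟩ := hm
  exact ⟨fun z => M (z.1, O z.2), db_pre h1 (τ := id) (φ := O) (mapsTo_id _) hO.bijOn.2
    continuous_id (Isometry.of_dist_eq hO.dist).continuous (fun z z' => by simp [gs, hO.dist])
    (fun _ _ => (one_mul _).ge) (fun x x' => by rw [hO.dist]; exact db_two x x'),
    fun x hx => h2 _ (hO.bijOn.2.mapsTo hx)⟩

theorem db_upd_le (x : E ι) : ‖Function.update x i0 0‖ ≤ ‖x‖ :=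
  (pi_norm_le_iff_of_nonneg (norm_nonneg x)).2 fun i => by
    by_cases k : i = i0
    · simp [k]
    · rw [Function.update_of_ne k]
      exact norm_le_pi_norm x i

theorem db_band {x : E ι} (hx : ‖x‖ = 1) (h0 : |x i0| < 1) : ¬ ‖Function.update x i0 0‖ < 1 := by
  intro k
  refine absurd ((pi_norm_lt_iff one_pos).2 fun i => ?_) hx.not_lt
  by_cases e : i = i0
  · rwa [e]
  · have := (norm_le_pi_norm (Function.update x i0 0) i).trans_lt k
    rwa [Function.update_of_ne e] at this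

theorem db_chart : BijOn (fun x : E ι => ((x i0 + 1) / 2, Function.update x i0 0))
    {x | ‖x‖ = 1 ∧ ¬ ‖Function.update x i0 0‖ < 1} (Icc (0 : ℝ) 1 ×ˢ Cs i0) := by
  refine ⟨fun x hx => ?_, fun x _ x' _ e => ?_, fun w hw => ?_⟩
  · have a := abs_le.1 ((norm_le_pi_norm x i0).trans hx.1.le)
    exact ⟨⟨by linarith only [a.1, a], by linarith only [a.2, a]⟩, Function.update_self ..,
      le_antisymm ((db_upd_le x).trans hx.1.le) (not_lt.1 hx.2)⟩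
  · obtain ⟨e1, e2⟩ := Prod.mk.inj e
    funext i
    by_cases k : i = i0
    · rw [k]; linarith only [e1]
    · simpa only [Function.update_of_ne k] using congrFun e2 i
  · have e : Function.update (Function.update w.2 i0 (2 * w.1 - 1)) i0 0 = w.2 := by
      rw [Function.update_idem, ← hw.2.1, Function.update_eq_self]
    refine ⟨Function.update w.2 i0 (2 * w.1 - 1), ⟨le_antisymm
      ((pi_norm_le_iff_of_nonneg zero_le_one).2 fun i => ?_) ?_, ?_⟩, Prod.ext ?_ e⟩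
    · by_cases k : i = i0
      · rw [k, Function.update_self]
        exact abs_le.2 ⟨by linarith only [hw.1.1], by linarith only [hw.1.2]⟩
      · rw [Function.update_of_ne k]
        exact (norm_le_pi_norm _ i).trans hw.2.2.le
    · exact (hw.2.2.symm.trans (congrArg norm e).symm).trans_le (db_upd_le _)
    · rw [e, hw.2.2]
      exact lt_irrefl 1
    · simp

theorem db_chart_lip (x x' : E ι) : dist ((x' i0 + 1) / 2, Function.update x' i0 0)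
    ((x i0 + 1) / 2, Function.update x i0 0) ≤ dist x' x := by
  refine max_le ?_ ((dist_pi_le_iff dist_nonneg).2 fun i => ?_)
  · have a := dist_le_pi_dist x' x i0
    rw [Real.dist_eq] at a ⊢
    dsimp only
    rw [show (x' i0 + 1) / 2 - (x i0 + 1) / 2 = (x' i0 - x i0) / 2 by ring, abs_div, abs_two]
    linarith only [abs_nonneg (x' i0 - x i0), a]
  · by_cases k : i = i0
    · simp [k]
    · simpa only [Function.update_of_ne k] using dist_le_pi_dist x' x i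

theorem db_chart_exp (x x' : E ι) : dist x x' ≤ 2 * dist ((x i0 + 1) / 2, Function.update x i0 0)
    ((x' i0 + 1) / 2, Function.update x' i0 0) := by
  refine (dist_pi_le_iff (by positivity)).2 fun i => ?_
  by_cases k : i = i0
  · have a : dist ((x i0 + 1) / 2) ((x' i0 + 1) / 2) ≤ dist ((x i0 + 1) / 2, Function.update x i0 0)
      ((x' i0 + 1) / 2, Function.update x' i0 0) := le_max_left _ _
    rw [Real.dist_eq, show (x i0 + 1) / 2 - (x' i0 + 1) / 2 = (x i0 - x' i0) / 2 by ring, abs_div,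
      abs_two] at a
    rw [k, Real.dist_eq]
    linarith only [a]
  · have a := dist_le_pi_dist (Function.update x i0 0) (Function.update x' i0 0) i
    rw [Function.update_of_ne k, Function.update_of_ne k] at a
    refine le_trans ?_ (le_mul_of_one_le_left dist_nonneg one_le_two)
    exact a.trans (le_max_right _ _)

theorem DMov.hat (hK : 0 ≤ K) (hm : DMov i0 K p q Ξ Ξ') :
    SMov K p q (hat i0 p q Ξ) (hat i0 p q Ξ') := by
  obtain ⟨M, h1, h2⟩ := hm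
  set A : Set (E ι) := {x | ‖x‖ = 1 ∧ ¬ ‖Function.update x i0 0‖ < 1} with hA
  have s : Sol ({p, q}ᶜ : Set (E ι)) (pbP (Icc (0 : ℝ) 1) A ∅ (fun z => z.2) (sphere 0 1)
      (gs K K) 1) univ fun z => M (z.1, (z.2 i0 + 1) / 2, Function.update z.2 i0 0) :=
    db_pre h1.1 (τ := id) (mapsTo_id _) db_chart continuous_id (by fun_prop) (fun z z' =>
      add_le_add_left (mul_le_mul_of_nonneg_left (db_chart_lip _ _) hK) _)
      (fun _ _ => (one_mul _).ge) db_chart_exp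
  let Z : ℝ × E ι → E ι := fun z => NB.hat i0 p q (fun w => M (z.1, w)) z.2
  have e : ∀ z : ℝ × E ι, z.2 ∈ A →
      Z z = M (z.1, (z.2 i0 + 1) / 2, Function.update z.2 i0 0) := fun z k => if_neg k.2
  have u : ∀ z : ℝ × E ι, z.2 ∈ sphere (0 : E ι) 1 → Z z ∈ ({p, q}ᶜ : Set (E ι)) → z.2 ∈ A :=
    fun z k1 k2 => ⟨mem_sphere_zero_iff_norm.1 k1, fun k => k2 (by
      simp only [Z, NB.hat, if_pos k]
      split_ifs <;> simp)⟩
  have nb : ∀ z ∈ Icc (0 : ℝ) 1 ×ˢ sphere (0 : E ι) 1, z.2 ∈ A →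
      M (z.1, (z.2 i0 + 1) / 2, Function.update z.2 i0 0) ∈ ({p, q}ᶜ : Set (E ι)) →
      Icc (0 : ℝ) 1 ×ˢ A ∈ 𝓝[Icc (0 : ℝ) 1 ×ˢ sphere (0 : E ι) 1] z := by
    intro z hz a k
    have c := db_chart.mapsTo a
    have d : |z.2 i0| < 1 := by
      obtain ⟨d1, d2⟩ := h1.2.2 z.1 hz.1 _ c.2
      have c1 : 0 < (z.2 i0 + 1) / 2 := c.1.1.lt_of_ne fun c1 => k (Or.inl (by
        rw [← show 0 = (z.2 i0 + 1) / 2 from c1]; exact d1))
      have c2 : (z.2 i0 + 1) / 2 < 1 := c.1.2.lt_of_ne fun c2 => k (Or.inr (by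
        rw [show (z.2 i0 + 1) / 2 = 1 from c2]; exact d2))
      exact abs_lt.2 ⟨by linarith only [c1], by linarith only [c2]⟩
    have n1 : ∀ᶠ z' : ℝ × E ι in 𝓝 z, |z'.2 i0| < 1 :=
      (isOpen_lt (by fun_prop) continuous_const).mem_nhds d
    filter_upwards [self_mem_nhdsWithin, nhdsWithin_le_nhds n1] with z' n2 n3
    have n4 := mem_sphere_zero_iff_norm.1 n2.2
    exact ⟨n2.1, n4, db_band n4 n3⟩
  refine ⟨Z, ⟨fun z hz k => ?_, fun _ k => k.2.elim, fun _ k => k.2.elim, fun t y k1 k2 k3 => ?_,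
    fun t x x' k1 k2 k3 _ k5 => ?_, fun z hz k _ => ?_, fun z hz k _ => ?_⟩, fun x hx => ?_⟩
  · have a := u z hz.2 k
    rw [e z a] at k ⊢
    exact s.maps z ⟨hz.1, a⟩ k
  · obtain ⟨x, a1, a2⟩ := s.ex t y k1 k2 k3
    exact ⟨x, ⟨a1.1, mem_sphere_zero_iff_norm.2 a1.2.1⟩, (e _ a1.2).trans a2⟩
  · have a := u _ k1.2 k3
    have a' := u _ k2.2 (k5.symm ▸ k3)
    rw [e _ a] at k3 k5
    rw [e _ a'] at k5
    exact s.uq t x x' ⟨k1.1, a⟩ ⟨k2.1, a'⟩ k3 trivial k5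
  · have a := u z hz.2 k
    rw [e z a] at k
    obtain ⟨b1, b2⟩ := s.lip z ⟨hz.1, a⟩ k trivial
    have n := nb z hz a k
    refine ⟨(b1.mono_of_mem_nhdsWithin n).congr_of_eventuallyEq
      (mem_of_superset n fun z' k' => e z' k'.2) (e z a), ?_⟩
    filter_upwards [nhdsWithin_le_iff.2 n b2, n] with z' c1 c2
    rw [e z a, e z' c2.2]
    exact c1
  · have a := u z hz.2 k
    rw [e z a] at k
    exact (((s.lo z ⟨hz.1, a⟩ k trivial).congr (fun _ _ => rfl) fun w hw => by rw [e w hw.2]).imp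
      fun w hw b => e w hw.2 ▸ b).of_mem (nb z hz a k)
  · by_cases k : ‖Function.update x i0 0‖ < 1
    · simp only [Z, NB.hat, if_pos k, and_self]
    · have c := db_chart.mapsTo (show x ∈ A from ⟨mem_sphere_zero_iff_norm.1 hx, k⟩)
      simp only [Z, NB.hat, if_neg k]
      exact h2 _ c.1 _ c.2

theorem hat_rev {x : E ι} (hx : ‖x‖ = 1) : hat i0 q p (rev Ξ) (rfx i0 x) = hat i0 p q Ξ x := by
  simp only [hat, rfx, rev, Function.update_idem, Function.update_self]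
  by_cases k : ‖Function.update x i0 0‖ < 1
  · have a : x i0 ≠ 0 := fun a => db_band hx (by rw [a]; simp) k
    rw [if_pos k, if_pos k]
    rcases a.lt_or_gt with b | b
    · rw [if_pos b, if_neg (by linarith only [b])]
    · rw [if_neg b.not_gt, if_pos (by linarith only [b])]
  · rw [if_neg k, if_neg k]
    congr 2
    ring

theorem hat_sp {O : E ι → E ι} (x : E ι) :
    hat i0 (O p) (O q) (fun z => O (Ξ z)) x = O (hat i0 p q Ξ x) := by
  unfold hat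
  split_ifs <;> rfl

end Pool.Agent.Lib.MP_ecd4e3_gt.NB
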