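import Pool.Agent.Lib.MP_ecd4e3_gt.NB.Rec

/-! The shell theorem and peeling. -/

namespace Pool.Agent.Lib.MP_ecd4e3_gt.NB

open Set Filter Topology Metric MeasureTheory
open scoped NNReal ENNReal

section
variable {T X Y : Type} [MetricSpace T] [MetricSpace X] [MetricSpace Y]

theorem cont_of_ev {A : Type} [TopologicalSpace A] {P : Set A} {z : A} {Z : A → Y} {g : A → ℝ}
    (hg : ContinuousWithinAt g P z) (h0 : g z = 0) (h : ∀ᶠ z' in 𝓝[P] z, dist (Z z') (Z z) ≤ g z') :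
    ContinuousWithinAt Z P z ∧ ∀ᶠ z' in 𝓝[P] z, dist (Z z') (Z z) ≤ g z' :=
  ⟨tendsto_iff_dist_tendsto_zero.2
    (squeeze_zero' (Eventually.of_forall fun _ => dist_nonneg) h (h0 ▸ hg.tendsto)), h⟩

theorem gs_ev {P : Set (T × X)} {z : T × X} {Z : T × X → Y} {a b : ℝ}
    (h : ∀ᶠ z' in 𝓝[P] z, dist (Z z') (Z z) ≤ gs a b z z') :
    ContinuousWithinAt Z P z ∧ ∀ᶠ z' in 𝓝[P] z, dist (Z z') (Z z) ≤ gs a b z z' :=
  cont_of_ev (Continuous.continuousWithinAt (by unfold gs; fun_prop)) (by simp [gs]) h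

theorem Col.ev {U S D Fx : Set Y} {η : ℝ} {σ ϱ : ℝ → Y → Y} (hc : Col U S D η σ ϱ Fx)
    {A : Type} {l : Filter A} {s : A → ℝ} {f : A → Y} {s0 : ℝ} {y : Y}
    (hs0 : s0 ∈ Icc (0 : ℝ) 1) (hy : y ∈ S) (hs : Tendsto s l (𝓝 s0)) (hf : Tendsto f l (𝓝 y))
    (hm : ∀ᶠ a in l, s a ∈ Icc (0 : ℝ) 1 ∧ f a ∈ S) :
    ∀ᶠ a in l, dist (σ (s a) (f a)) (σ s0 y) ≤ (1 + η) * dist (f a) y + η * |s a - s0| :=
  (tendsto_nhdsWithin_iff.2 ⟨hs.prodMk_nhds hf, hm⟩ :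
    Tendsto (fun a => (s a, f a)) l (𝓝[Icc (0 : ℝ) 1 ×ˢ S] (s0, y))).eventually
      (hc.lip s0 hs0 y hy)

theorem Col.cont {U S D Fx : Set Y} {η : ℝ} {σ ϱ : ℝ → Y → Y} (hc : Col U S D η σ ϱ Fx)
    {w : ℝ × Y} (hw : w ∈ Icc (0 : ℝ) 1 ×ˢ S) :
    ContinuousWithinAt (fun v : ℝ × Y => σ v.1 v.2) (Icc (0 : ℝ) 1 ×ˢ S) w :=
  (cont_of_ev (g := fun v : ℝ × Y => (1 + η) * dist v.2 w.2 + η * |v.1 - w.1|)
    (Continuous.continuousWithinAt (by fun_prop)) (by simp) (hc.lip _ hw.1 _ hw.2)).1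

theorem col_two {A : Type} [PseudoMetricSpace A] {η : ℝ} (hη : 0 ≤ η) (s s' : ℝ) (a a' : A) :
    (1 + η) * dist a a' + η * |s - s'| ≤ (1 + 2 * η) * dist (s, a) (s', a') := by
  have h1 : dist a a' ≤ dist (s, a) (s', a') := le_max_right _ _
  have h2 : |s - s'| ≤ dist (s, a) (s', a') := le_max_left _ _
  nlinarith only [h1, h2, hη]

theorem Col.dmUp {U S D Fx : Set Y} {η : ℝ} (hη : 0 ≤ η) {σ ϱ : ℝ → Y → Y}
    (hc : Col U S D η σ ϱ Fx) (w : ℝ × Y) :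
    Dm (Icc (0 : ℝ) 1 ×ˢ S) (fun _ => True) (fun v => σ v.1 v.2) (fun v => v) w :=
  Dm.of_gauge (K := 1 + 2 * η) fun v hv _ =>
    (hc.lip _ hv.1 _ hv.2).mono fun v' a => a.trans (col_two hη _ _ _ _)

theorem Col.dmInv {U S D Fx : Set Y} {η : ℝ} (hη : 0 ≤ η) {σ ϱ : ℝ → Y → Y}
    (hc : Col U S D η σ ϱ Fx) (w : ℝ × Y) :
    Dm (Icc (0 : ℝ) 1 ×ˢ S) (fun _ => True) (fun v => v.2) (fun v => (v.1, σ v.1 v.2)) w := by
  refine Dm.of_gauge (K := 1 + 2 * η) fun v hv _ => ?_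
  have t : Tendsto (fun v : ℝ × Y => (v.1, σ v.1 v.2)) (𝓝[Icc (0 : ℝ) 1 ×ˢ S] v)
      (𝓝[{w : ℝ × Y | w.1 ∈ Icc (0 : ℝ) 1 ∧ w.2 ∈ σ w.1 '' S}] (v.1, σ v.1 v.2)) :=
    (continuousWithinAt_fst.prodMk (hc.cont hv)).tendsto_nhdsWithin
      fun u hu => ⟨hu.1, u.2, hu.2, rfl⟩
  filter_upwards [t.eventually (hc.lipi _ hv.1 _ hv.2), self_mem_nhdsWithin] with u a b
  rw [hc.inv _ b.1 _ b.2] at a
  exact a.trans (col_two hη _ _ _ _)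

theorem Col.dmCol {U S D Fx : Set Y} {η : ℝ} (hη : 0 ≤ η) {σ ϱ : ℝ → Y → Y}
    (hc : Col U S D η σ ϱ Fx) {s : ℝ} (hs : s ∈ Icc (0 : ℝ) 1) {y : Y} (hy : y ∈ D) (u : y ∈ U) :
    Dm (Icc (0 : ℝ) 1 ×ˢ D) (fun _ => True) (fun v => v) (fun v => σ v.1 v.2) (s, y) :=
  (hc.sq s hs y hy u).prod (((hc.dmInv hη _).mono (prod_mono Subset.rfl hc.sub)).trans
    ((hc.sq s hs y hy u).prod Dm.refl))

theorem Col.inj {U S D Fx : Set Y} {η : ℝ} {σ ϱ : ℝ → Y → Y} (hc : Col U S D η σ ϱ Fx)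
    {s : ℝ} (hs : s ∈ Icc (0 : ℝ) 1) {y y' : Y} (hy : y ∈ S) (hy' : y' ∈ S)
    (h : σ s y = σ s y') : y = y' := by
  rw [← hc.inv s hs y hy, h, hc.inv s hs y' hy']

theorem Col.deep {U S D Fx : Set Y} {η : ℝ} (hη : 0 ≤ η) {σ ϱ : ℝ → Y → Y}
    (hc : Col U S D η σ ϱ Fx) {c c' : ℝ} (h5 : (1 + η) * c' ≤ c) {o : Option ℝ≥0} {s : ℝ}
    (hs : s ∈ Icc (0 : ℝ) 1) {y : Y} (hy : y ∈ S) (h : σ s y ∈ Wo U c o) : y ∈ Wo U c' o := by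
  cases o with
  | none => exact h
  | some r =>
    have h1 : (r : ℝ) * c ≤ infDist (σ s y) Uᶜ := h
    have h2 := hc.dle s hs y hy
    have h3 := mul_le_mul_of_nonneg_left h5 r.coe_nonneg
    exact le_of_mul_le_mul_left (a := 1 + η) (by linarith only [h1, h2, h3]) (by linarith only [hη])

/-- A movie of boundary data sweeps the collar. -/
theorem col_movie {U S D Fx : Set Y} (hU : IsOpen U) {η : ℝ} (hη : 0 ≤ η) {σ ϱ : ℝ → Y → Y}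
    (hc : Col U S D η σ ϱ Fx) {J : Set T} {Ω : Set X} {β β0 : (T × ℝ) × X → Y} {a1 a2 a3 : ℝ}
    (hβ : Sol U (pbP (J ×ˢ Icc (0 : ℝ) 1) Ω ∅ β0 D (gm a1 a2 a3) 1) univ β)
    (β1 : T × (ℝ × X) → Y) :
    Sol U (pbP J (Icc (0 : ℝ) 1 ×ˢ Ω) ∅ β1 {y | ∃ s ∈ Icc (0 : ℝ) 1, ∃ y' ∈ D, σ s y' = y}
        (fun z z' => (1 + η) * (a1 * dist z'.2.2 z.2.2 + a2 * |z'.2.1 - z.2.1|
          + a3 * dist z'.1 z.1) + η * |z'.2.1 - z.2.1|) 1) univ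
      fun z => σ z.2.1 (β ((z.1, z.2.1), z.2.2)) := by
  have hD : ∀ t ∈ J, ∀ s ∈ Icc (0 : ℝ) 1, ∀ x ∈ Ω, σ s (β ((t, s), x)) ∈ U →
      β ((t, s), x) ∈ U ∧ β ((t, s), x) ∈ D := fun t ht s hs x hx h =>
    ⟨(hc.memU s hs _).1 h, (hβ.maps _ ⟨⟨ht, hs⟩, hx⟩ ((hc.memU s hs _).1 h)).2⟩
  refine ⟨fun z hz h => ⟨hz.1, _, hz.2.1, _, (hD _ hz.1 _ hz.2.1 _ hz.2.2 h).2, rfl⟩,
    fun z hz => hz.2.elim, fun z hz => hz.2.elim, ?_, ?_, fun z hz h _ => ?_,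
    fun z hz h _ => ?_⟩
  · rintro t _ ⟨ht, s, hs, y, hy, rfl⟩ h -
    obtain ⟨x, hx, e⟩ := hβ.ex (t, s) y ⟨⟨ht, hs⟩, hy⟩ ((hc.memU s hs _).1 h) trivial
    exact ⟨(s, x), ⟨ht, hs, hx.2⟩, congrArg (σ s) e⟩
  · rintro t ⟨s, x⟩ ⟨s', x'⟩ ⟨ht, hs, hx⟩ ⟨-, hs', hx'⟩ h - e
    obtain ⟨u1, d1⟩ := hD t ht s hs x hx h
    obtain ⟨u2, d2⟩ := hD t ht s' hs' x' hx' (e ▸ h)
    obtain rfl : s' = s := by
      rcases lt_trichotomy s' s with k | k | k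
      · exact absurd e (hc.sep s' s hs'.1 k hs.2 _ d2 u2 _ (hc.sub d1))
      · exact k
      · exact absurd e.symm (hc.sep s s' hs.1 k hs'.2 _ d1 u1 _ (hc.sub d2))
    rw [hβ.uq (t, s') x x' ⟨⟨ht, hs⟩, hx⟩ ⟨⟨ht, hs⟩, hx'⟩ u1 trivial
      (hc.inj hs (hc.sub d2) (hc.sub d1) e)]
  · obtain ⟨u1, d1⟩ := hD _ hz.1 _ hz.2.1 _ hz.2.2 h
    have m : ((z.1, z.2.1), z.2.2) ∈ (J ×ˢ Icc (0 : ℝ) 1) ×ˢ Ω := ⟨⟨hz.1, hz.2.1⟩, hz.2.2⟩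
    have t : Tendsto (fun w : T × (ℝ × X) => ((w.1, w.2.1), w.2.2))
        (𝓝[J ×ˢ Icc (0 : ℝ) 1 ×ˢ Ω] z) (𝓝[(J ×ˢ Icc (0 : ℝ) 1) ×ˢ Ω] ((z.1, z.2.1), z.2.2)) :=
      (Continuous.continuousWithinAt (by fun_prop)).tendsto_nhdsWithin
        fun w hw => ⟨⟨hw.1, hw.2.1⟩, hw.2.2⟩
    obtain ⟨k1, k2⟩ := hβ.lip _ m u1 trivial
    refine cont_of_ev (Continuous.continuousWithinAt (by simp only [pbP]; fun_prop))
      (by simp [pbP]) ?_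
    filter_upwards [t.eventually k2, hc.ev hz.2.1 (hc.sub d1)
      (s := fun w : T × (ℝ × X) => w.2.1) (Continuous.continuousWithinAt (by fun_prop)).tendsto
      (k1.tendsto.comp t) ((t.eventually (hβ.ev hU m u1 trivial)).mono
        fun w hw => ⟨hw.1.1.2, hc.sub hw.2.2.2⟩)] with w a b
    exact b.trans (add_le_add_left (mul_le_mul_of_nonneg_left a (by linarith only [hη])) _)
  · obtain ⟨u1, d1⟩ := hD _ hz.1 _ hz.2.1 _ hz.2.2 h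
    have m : ∀ w ∈ J ×ˢ Icc (0 : ℝ) 1 ×ˢ Ω,
        ((w.1, w.2.1), w.2.2) ∈ (J ×ˢ Icc (0 : ℝ) 1) ×ˢ Ω := fun w hw => ⟨⟨hw.1, hw.2.1⟩, hw.2.2⟩
    have t : ∀ w, Tendsto (fun w : T × (ℝ × X) => ((w.1, w.2.1), w.2.2))
        (𝓝[J ×ˢ Icc (0 : ℝ) 1 ×ˢ Ω] w) (𝓝[(J ×ˢ Icc (0 : ℝ) 1) ×ˢ Ω] ((w.1, w.2.1), w.2.2)) :=
      fun w => (Continuous.continuousWithinAt (by fun_prop)).tendsto_nhdsWithin m
    have c : ∀ w ∈ J ×ˢ Icc (0 : ℝ) 1 ×ˢ Ω, β ((w.1, w.2.1), w.2.2) ∈ U → ContinuousWithinAt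
        (fun w : T × (ℝ × X) => (w.2.1, β ((w.1, w.2.1), w.2.2))) (J ×ˢ Icc (0 : ℝ) 1 ×ˢ Ω) w :=
      fun w hw u => (Continuous.continuousWithinAt (by fun_prop)).prodMk
        ((hβ.lip _ (m w hw) u trivial).1.tendsto.comp (t w))
    have k1 := (hc.dmCol hη hz.2.1 d1 u1).comp_ev (R' := J ×ˢ Icc (0 : ℝ) 1 ×ˢ Ω)
      (Φ := fun w : T × (ℝ × X) => (w.2.1, β ((w.1, w.2.1), w.2.2)))
      (P' := fun w => σ w.2.1 (β ((w.1, w.2.1), w.2.2)) ∈ U ∧ σ w.2.1 (β ((w.1, w.2.1), w.2.2)) ∈ univ)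
      (((t z).eventually (hβ.ev hU (m z hz) u1 trivial)).mono fun w hw => ⟨hw.1.1.2, hw.2.2.2⟩)
      (c z hz u1) (eventually_nhdsWithin_of_forall fun w hw a =>
        ⟨trivial, c w hw ((hc.memU _ hw.2.1 _).1 a.1)⟩)
    have k2 := ((hβ.lo _ (m z hz) u1 trivial).comp'
      (Φ := fun w : T × (ℝ × X) => ((w.1, w.2.1), w.2.2)) m (by fun_prop)).imp
      (P' := fun w => σ w.2.1 (β ((w.1, w.2.1), w.2.2)) ∈ U ∧ σ w.2.1 (β ((w.1, w.2.1), w.2.2)) ∈ univ)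
      fun w hw a => ⟨(hc.memU _ hw.2.1 _).1 a.1, trivial⟩
    exact k1.fst.toR.prod (k2.trans ((Dm.pr1.prod k1.fst.toR).prod k1.snd.toR))

end

variable {ι : Type} [Fintype ι] [DecidableEq ι]

theorem SD.lt_one {R : ℝ → Set (E ι)} {Yc : ℝ → E ι → E ι} {ν : E ι → ℝ} {LY LT Lν Sz : ℝ}
    (h : SD R Yc ν LY LT Lν Sz) {z : E ι} (hz : z ∈ R 0) : ν z < 1 ↔ z ∉ R 1 := by
  rw [h.le z hz 1 ⟨zero_le_one, le_rfl⟩, not_le]

theorem SD.mono {R : ℝ → Set (E ι)} {Yc : ℝ → E ι → E ι} {ν : E ι → ℝ}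
    {LY LT Lν Sz LY' LT' Lν' Sz' : ℝ} (h : SD R Yc ν LY LT Lν Sz) (h1 : LY ≤ LY') (h2 : LT ≤ LT')
    (h3 : Lν ≤ Lν') (h4 : Sz ≤ Sz') : SD R Yc ν LY' LT' Lν' Sz' :=
  have := h.pT
  have := h.pS.trans h4
  ⟨h.pY.trans h1, h.pT.trans h2, h.pν.trans h3, h.pS.trans h4, h.bij, h.closed, h.sub, h.mem,
    h.le, h.bd, h.eq, fun z a z' b => (h.lipν z a z' b).trans (by gcongr),
    fun r a r' b z c z' d => (h.lipY r a r' b z c z' d).trans (by gcongr),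
    fun r a r' b z c z' d => (h.lipI r a r' b z c z' d).trans (by gcongr)⟩

theorem SD.self {R : ℝ → Set (E ι)} {Yc : ℝ → E ι → E ι} {ν : E ι → ℝ} {LY LT Lν Sz : ℝ}
    (h : SD R Yc ν LY LT Lν Sz) {z : E ι} (hz : z ∈ R 0) : z ∈ R (ν z) :=
  (h.le z hz _ (h.mem z hz)).2 le_rfl

theorem SD.lipS {R : ℝ → Set (E ι)} {Yc : ℝ → E ι → E ι} {ν : E ι → ℝ} {LY LT Lν Sz : ℝ}
    (h : SD R Yc ν LY LT Lν Sz) {z z' : E ι} (hz : z ∈ R 0) (hz' : z' ∈ R 0) :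
    dist (Yc (ν z') z') (Yc (ν z) z) ≤ (LY + LT * Lν) * dist z' z := by
  have := h.lipY _ (h.mem _ hz') _ (h.mem _ hz) _ (h.self hz') _ (h.self hz)
  have := mul_le_mul_of_nonneg_left (h.lipν _ hz' _ hz) h.pT
  linarith

theorem shell_sol {T Y : Type} [MetricSpace T] [MetricSpace Y] {U S D Fx : Set Y} (hU : IsOpen U)
    {R : ℝ → Set (E ι)} {Yc : ℝ → E ι → E ι} {ν : E ι → ℝ} {LY LT Lν Sz : ℝ}
    (hsd : SD R Yc ν LY LT Lν Sz) {η : ℝ} (hη : 0 ≤ η) {σ ϱ : ℝ → Y → Y}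
    (hc : Col U S D η σ ϱ Fx) {J : Set T} {β β0 : (T × ℝ) × E ι → Y} {a1 a2 a3 : ℝ}
    (p1 : 0 ≤ a1) (p2 : 0 ≤ a2) (p3 : 0 ≤ a3)
    (hβ : Sol U (pbP (J ×ˢ Icc (0 : ℝ) 1) (sphere 0 1) ∅ β0 D (gm a1 a2 a3) 1) univ β)
    {a b c a' b' c' : ℝ} (h1 : (1 + η) * (a1 * (LY + LT * Lν) + a2 * Lν) + η * Lν ≤ a)
    (h2 : (1 + η) * a' ≤ a) (h3 : (1 + η) * a3 ≤ b) (h4 : (1 + η) * b' ≤ b)
    (h5 : (1 + η) * c' ≤ c) (pc : 0 < c') {o : Option ℝ≥0} {Z : T × E ι → Y}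
    (hZ : Sol U (pbP J (R 1) {z | z ∈ R 1 ∧ ‖Yc 1 z‖ = 1} (fun z => β ((z.1, 1), Yc 1 z.2)) S
      (gs a' b') c') (Wo U c' o) Z) :
    Sol U (pbP J (R 0) {z | z ∈ R 0 ∧ ‖Yc 0 z‖ = 1} (fun z => β ((z.1, 0), Yc 0 z.2)) S
      (gs a b) c) (Wo U c o) (shOp ν Yc σ β Z) := by
  have i0 : (0 : ℝ) ∈ Icc (0 : ℝ) 1 := ⟨le_rfl, zero_le_one⟩
  have i1 : (1 : ℝ) ∈ Icc (0 : ℝ) 1 := ⟨zero_le_one, le_rfl⟩
  have hM := col_movie hU hη hc hβ fun z => β0 ((z.1, z.2.1), z.2.2)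
  have e1 : ∀ z : T × E ι, ν z.2 < 1 →
      shOp ν Yc σ β Z z = σ (ν z.2) (β ((z.1, ν z.2), Yc (ν z.2) z.2)) := fun z h => if_pos h
  have e2 : ∀ z : T × E ι, ¬ν z.2 < 1 → shOp ν Yc σ β Z z = σ 1 (Z z) := fun z h => if_neg h
  have r1 : ∀ x ∈ R 0, ¬ν x < 1 → x ∈ R 1 := fun x hx h => by
    rwa [hsd.lt_one hx, not_not] at h
  have sp : ∀ x ∈ R 0, ν x < 1 → Yc (ν x) x ∈ sphere (0 : E ι) 1 := fun x hx h =>
    mem_sphere_zero_iff_norm.2 (hsd.bd x hx h)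
  have hD : ∀ t ∈ J, ∀ x ∈ R 0, ν x < 1 → σ (ν x) (β ((t, ν x), Yc (ν x) x)) ∈ U →
      β ((t, ν x), Yc (ν x) x) ∈ U ∧ β ((t, ν x), Yc (ν x) x) ∈ D := fun t ht x hx h u =>
    ⟨(hc.memU _ (hsd.mem x hx) _).1 u, (hβ.maps ((t, ν x), Yc (ν x) x) ⟨⟨ht, hsd.mem x hx⟩, sp x hx h⟩
      ((hc.memU _ (hsd.mem x hx) _).1 u)).2⟩
  have hS : ∀ t ∈ J, ∀ x ∈ R 1, σ 1 (Z (t, x)) ∈ U → Z (t, x) ∈ U ∧ Z (t, x) ∈ S :=
    fun t ht x hx u => ⟨(hc.memU _ i1 _).1 u, (hZ.maps _ ⟨ht, hx⟩ ((hc.memU _ i1 _).1 u)).2⟩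
  have eb : ∀ z : T × E ι, z.2 ∈ R 0 → ‖Yc 0 z.2‖ = 1 →
      shOp ν Yc σ β Z z = β ((z.1, 0), Yc 0 z.2) := fun z h k => by
    have := hsd.eq 0 i0 _ h k
    rw [e1 z (this ▸ one_pos), this, hc.zero]
  refine ⟨fun z hz u => ⟨hz.1, ?_⟩, fun z hz _ => eb z hz.2.1 hz.2.2,
    fun z hz _ _ => eb z hz.2.1 hz.2.2, fun t y hy u w => ?_,
    fun t x x' hx hx' u w e => ?_, fun z hz u w => gs_ev ?_, fun z hz u w => ?_⟩
  · by_cases h : ν z.2 < 1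
    · rw [e1 z h] at u ⊢
      exact hc.maps _ (hsd.mem _ hz.2) _ (hc.sub (hD _ hz.1 _ hz.2 h u).2)
    · rw [e2 z h] at u ⊢
      exact hc.maps _ i1 _ (hS _ hz.1 _ (r1 _ hz.2 h) u).2
  · rcases hc.cover y hy.2 u with ⟨y', h, rfl⟩ | ⟨s, hs, y', h, rfl⟩
    · obtain ⟨x, hx, e⟩ := hZ.ex t y' ⟨hy.1, h⟩ ((hc.memU _ i1 _).1 u) (hc.deep hη h5 i1 h w)
      have k := hsd.sub 1 i1 hx.2
      exact ⟨x, ⟨hy.1, k⟩, by rw [e2 _ fun h => (hsd.lt_one k).1 h hx.2, e]⟩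
    · have hs' := Ico_subset_Icc_self hs
      obtain ⟨ω, hω, e⟩ := hβ.ex (t, s) y' ⟨⟨hy.1, hs'⟩, h⟩ ((hc.memU _ hs' _).1 u) trivial
      obtain ⟨x, hx, rfl⟩ := (hsd.bij s hs').surjOn (sphere_subset_closedBall hω.2)
      have k := hsd.eq s hs' x hx (mem_sphere_zero_iff_norm.1 hω.2)
      refine ⟨x, ⟨hy.1, hsd.sub s hs' hx⟩, ?_⟩
      rw [e1 _ (k ▸ hs.2), k, e]
  · by_cases h : ν x < 1 <;> by_cases h' : ν x' < 1
    · rw [e1 _ h] at u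
      rw [e1 (t, x) h, e1 (t, x') h'] at e
      have k := hM.uq t (ν x, Yc (ν x) x) (ν x', Yc (ν x') x') ⟨hx.1, hsd.mem _ hx.2, sp _ hx.2 h⟩
        ⟨hx.1, hsd.mem _ hx'.2, sp _ hx'.2 h'⟩ u trivial e
      obtain ⟨k1, k2⟩ := Prod.ext_iff.1 k
      have k3 := hsd.self hx'.2
      simp only at k1 k2 k3
      rw [k1] at k2 k3
      exact (hsd.bij _ (hsd.mem _ hx.2)).injOn k3 (hsd.self hx.2) k2
    · rw [e1 _ h] at u
      rw [e1 (t, x) h, e2 (t, x') h'] at e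
      obtain ⟨k1, k2⟩ := hD t hx.1 x hx.2 h u
      exact absurd e.symm (hc.sep _ 1 (hsd.mem _ hx.2).1 h le_rfl _ k2 k1 _
        (hS t hx.1 x' (r1 _ hx'.2 h') (e ▸ u)).2)
    · rw [e2 _ h] at u
      rw [e2 (t, x) h, e1 (t, x') h'] at e
      obtain ⟨k1, k2⟩ := hD t hx.1 x' hx'.2 h' (e ▸ u)
      exact absurd e (hc.sep _ 1 (hsd.mem _ hx'.2).1 h' le_rfl _ k2 k1 _
        (hS t hx.1 x (r1 _ hx.2 h) u).2)
    · rw [e2 _ h] at u w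
      rw [e2 (t, x) h, e2 (t, x') h'] at e
      obtain ⟨k1, k2⟩ := hS t hx.1 x (r1 _ hx.2 h) u
      exact hZ.uq t x x' ⟨hx.1, r1 _ hx.2 h⟩ ⟨hx.1, r1 _ hx'.2 h'⟩ k1 (hc.deep hη h5 i1 k2 w)
        (hc.inj i1 (hS t hx.1 x' (r1 _ hx'.2 h') (e ▸ u)).2 k2 e)
  · have c1 : ContinuousWithinAt (fun w : T × E ι => ν w.2) (J ×ˢ R 0) z :=
      (cont_of_ev (g := fun w : T × E ι => Lν * dist w.2 z.2) (Continuous.continuousWithinAt (by fun_prop))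
        (by simp) (eventually_nhdsWithin_of_forall fun w hw => hsd.lipν _ hw.2 _ hz.2)).1
    have c2 : ContinuousWithinAt (fun w : T × E ι => Yc (ν w.2) w.2) (J ×ˢ R 0) z :=
      (cont_of_ev (Z := fun w : T × E ι => Yc (ν w.2) w.2) (P := J ×ˢ R 0) (z := z)
        (g := fun w : T × E ι => (LY + LT * Lν) * dist w.2 z.2)
        (Continuous.continuousWithinAt (by fun_prop))
        (by simp) (eventually_nhdsWithin_of_forall fun w hw => hsd.lipS hz.2 hw.2)).1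
    have A : ∀ᶠ w in 𝓝[{w | w ∈ J ×ˢ R 0 ∧ ν w.2 < 1}] z,
        dist (shOp ν Yc σ β Z w) (shOp ν Yc σ β Z z) ≤ gs a b z w := by
      rcases eq_or_neBot (𝓝[{w | w ∈ J ×ˢ R 0 ∧ ν w.2 < 1}] z) with k | k
      · rw [k]
        exact eventually_bot
      have n1 : Yc (ν z.2) z.2 ∈ sphere (0 : E ι) 1 :=
        isClosed_sphere.mem_of_tendsto
          (c2.mono (s := {w | w ∈ J ×ˢ R 0 ∧ ν w.2 < 1}) fun w hw => hw.1).tendsto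
          (eventually_nhdsWithin_of_forall fun w hw => sp _ hw.1.2 hw.2)
      have n2 : shOp ν Yc σ β Z z = σ (ν z.2) (β ((z.1, ν z.2), Yc (ν z.2) z.2)) := by
        by_cases h : ν z.2 < 1
        · exact e1 z h
        rw [e2 z h] at u ⊢
        have n3 : ν z.2 = 1 := (hsd.mem _ hz.2).2.antisymm (not_lt.1 h)
        rw [n3] at n1 ⊢
        rw [hZ.bd z ⟨hz.1, r1 _ hz.2 h, mem_sphere_zero_iff_norm.1 n1⟩ ((hc.memU _ i1 _).1 u)]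
        rfl
      have t : Tendsto (fun w : T × E ι => (w.1, ν w.2, Yc (ν w.2) w.2))
          (𝓝[{w | w ∈ J ×ˢ R 0 ∧ ν w.2 < 1}] z)
          (𝓝[J ×ˢ Icc (0 : ℝ) 1 ×ˢ sphere (0 : E ι) 1] (z.1, ν z.2, Yc (ν z.2) z.2)) :=
        ((continuous_fst.continuousWithinAt.prodMk (c1.prodMk c2)).mono
          fun w hw => hw.1).tendsto_nhdsWithin
          fun w hw => ⟨hw.1.1, hsd.mem _ hw.1.2, sp _ hw.1.2 hw.2⟩
      rw [n2] at u ⊢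
      filter_upwards [t.eventually (hM.lip (z.1, ν z.2, Yc (ν z.2) z.2) ⟨hz.1, hsd.mem _ hz.2, n1⟩ u trivial).2,
        self_mem_nhdsWithin] with w k1 k2
      rw [e1 w k2.2]
      refine k1.trans ?_
      have l1 := hsd.lipS hz.2 k2.1.2
      have l2 := hsd.lipν _ k2.1.2 _ hz.2
      have l3 := mul_le_mul_of_nonneg_right h1 (dist_nonneg (x := w.2) (y := z.2))
      have l4 := mul_le_mul_of_nonneg_right h3 (dist_nonneg (x := w.1) (y := z.1))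
      calc _ ≤ (1 + η) * (a1 * ((LY + LT * Lν) * dist w.2 z.2) + a2 * (Lν * dist w.2 z.2)
          + a3 * dist w.1 z.1) + η * (Lν * dist w.2 z.2) := by
            simp only [pbP]
            gcongr
        _ ≤ _ := by
            simp only [gs]
            linarith only [l3, l4]
    have B : ∀ᶠ w in 𝓝[J ×ˢ R 1] z,
        dist (shOp ν Yc σ β Z w) (shOp ν Yc σ β Z z) ≤ gs a b z w := by
      rcases eq_or_neBot (𝓝[J ×ˢ R 1] z) with k | k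
      · rw [k]
        exact eventually_bot
      have n1 : z.2 ∈ R 1 := (hsd.closed 1 i1).mem_of_tendsto
        (continuous_snd.continuousWithinAt (s := J ×ˢ R 1)).tendsto
        (eventually_nhdsWithin_of_forall fun w hw => hw.2)
      have n2 : ∀ x ∈ R 1, ¬ν x < 1 := fun x hx h => (hsd.lt_one (hsd.sub 1 i1 hx)).1 h hx
      rw [e2 z (n2 _ n1)] at u w ⊢
      obtain ⟨k1, k2⟩ := hS _ hz.1 _ n1 u
      have k3 := hc.deep hη h5 i1 k2 w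
      obtain ⟨k4, k5⟩ := hZ.lip z ⟨hz.1, n1⟩ k1 k3
      filter_upwards [k5, hc.ev i1 k2 (s := fun _ => 1) tendsto_const_nhds k4.tendsto
        ((hZ.ev hU ⟨hz.1, n1⟩ k1 k3).mono fun w hw => ⟨i1, hw.2.2.2⟩), self_mem_nhdsWithin]
        with v l1 l2 l3
      rw [e2 v (n2 _ l3.2)]
      have l4 := mul_le_mul_of_nonneg_right h2 (dist_nonneg (x := v.2) (y := z.2))
      have l5 := mul_le_mul_of_nonneg_right h4 (dist_nonneg (x := v.1) (y := z.1))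
      have l6 := mul_le_mul_of_nonneg_left l1 (show 0 ≤ 1 + η by linarith only [hη])
      simp only [pbP, gs, sub_self, abs_zero, mul_zero, add_zero] at l2 l6 ⊢
      linarith only [l4, l5, l6, l2]
    refine (nhdsWithin_mono z ?_ : _ ≤ 𝓝[{w | w ∈ J ×ˢ R 0 ∧ ν w.2 < 1} ∪ J ×ˢ R 1] z) ?_
    · intro w hw
      by_cases h : ν w.2 < 1
      · exact Or.inl ⟨hw, h⟩
      · exact Or.inr ⟨hw.1, r1 _ hw.2 h⟩
    · rw [nhdsWithin_union]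
      exact ⟨A, B⟩
  · have c1 : ∀ z ∈ J ×ˢ R 0, ContinuousWithinAt (fun w : T × E ι => ν w.2) (J ×ˢ R 0) z :=
      fun z hz => (cont_of_ev (g := fun w : T × E ι => Lν * dist w.2 z.2)
        (Continuous.continuousWithinAt (by fun_prop))
        (by simp) (eventually_nhdsWithin_of_forall fun w hw => hsd.lipν _ hw.2 _ hz.2)).1
    have c2 : ∀ z ∈ J ×ˢ R 0,
        ContinuousWithinAt (fun w : T × E ι => Yc (ν w.2) w.2) (J ×ˢ R 0) z := fun z hz =>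
      (cont_of_ev (Z := fun w : T × E ι => Yc (ν w.2) w.2) (P := J ×ˢ R 0) (z := z)
        (g := fun w : T × E ι => (LY + LT * Lν) * dist w.2 z.2)
        (Continuous.continuousWithinAt (by fun_prop))
        (by simp) (eventually_nhdsWithin_of_forall fun w hw => hsd.lipS hz.2 hw.2)).1
    have n2 : ∀ z ∈ J ×ˢ R 0, Yc (ν z.2) z.2 ∈ sphere (0 : E ι) 1 → shOp ν Yc σ β Z z ∈ U →
        shOp ν Yc σ β Z z = σ (ν z.2) (β ((z.1, ν z.2), Yc (ν z.2) z.2)) := fun z hz n1 u => by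
      by_cases h : ν z.2 < 1
      · exact e1 z h
      rw [e2 z h] at u ⊢
      have n3 : ν z.2 = 1 := (hsd.mem _ hz.2).2.antisymm (not_lt.1 h)
      rw [n3] at n1 ⊢
      rw [hZ.bd z ⟨hz.1, r1 _ hz.2 h, mem_sphere_zero_iff_norm.1 n1⟩ ((hc.memU _ i1 _).1 u)]
      rfl
    have n3 : ∀ x ∈ R 1, ¬ν x < 1 := fun x hx h => (hsd.lt_one (hsd.sub 1 i1 hx)).1 h hx
    refine Dp.monoA (A := {w | w ∈ J ×ˢ R 0 ∧ ν w.2 < 1} ∪ J ×ˢ R 1) (Dp.union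
      (Dp.piece (Q := {w | w ∈ J ×ˢ R 0 ∧ Yc (ν w.2) w.2 ∈ sphere (0 : E ι) 1})
        (P' := fun w => σ (ν w.2) (β ((w.1, ν w.2), Yc (ν w.2) w.2)) ∈ U) (F1 := fun w => w.2)
        (G1 := fun w => (w.1, σ (ν w.2) (β ((w.1, ν w.2), Yc (ν w.2) w.2))))
        (fun v hv => ⟨hv.1, sp _ hv.1.2 hv.2⟩) (fun v hv k => ⟨hv, ?_⟩) hz (fun k => ?_)
        (fun v hv k a => ?_) fun v hv => ⟨rfl, by rw [e1 v hv.2]⟩)
      (Dp.piece (Q := J ×ˢ R 1) (P' := fun w => σ 1 (Z w) ∈ U ∧ σ 1 (Z w) ∈ Wo U c o)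
        (F1 := fun w => w.2) (G1 := fun w => (w.1, σ 1 (Z w))) Subset.rfl
        (fun v hv k => ⟨hv.1, ?_⟩) hz (fun k => ?_) (fun v _ k a => ?_)
        fun v hv => ⟨rfl, by rw [e2 v (n3 _ hv.2)]⟩)) fun v hv => ?_
    · have := mem_closure_iff_nhdsWithin_neBot.1 k
      exact isClosed_sphere.mem_of_tendsto ((c2 v hv).mono
        (s := {w | w ∈ J ×ˢ R 0 ∧ Yc (ν w.2) w.2 ∈ sphere (0 : E ι) 1}) fun w hw => hw.1).tendsto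
        (eventually_nhdsWithin_of_forall fun w hw => hw.2)
    · have cc : ∀ v ∈ J ×ˢ R 0, ContinuousWithinAt
          (fun w : T × E ι => (w.1, ν w.2, Yc (ν w.2) w.2))
          {w | w ∈ J ×ˢ R 0 ∧ Yc (ν w.2) w.2 ∈ sphere (0 : E ι) 1} v := fun v hv =>
        (continuous_fst.continuousWithinAt.prodMk ((c1 v hv).prodMk (c2 v hv))).mono
          fun w hw => hw.1
      have k1 := (hM.lo (z.1, ν z.2, Yc (ν z.2) z.2) ⟨hz.1, hsd.mem _ hz.2, k.2⟩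
        (n2 z hz k.2 u ▸ u) trivial).comp (Φ := fun w : T × E ι => (w.1, ν w.2, Yc (ν w.2) w.2))
        (P' := fun w => σ (ν w.2) (β ((w.1, ν w.2), Yc (ν w.2) w.2)) ∈ U)
        (fun v hv => ⟨hv.1.1, hsd.mem _ hv.1.2, hv.2⟩) (cc z hz)
        (eventually_nhdsWithin_of_forall fun v hv a => ⟨⟨a, trivial⟩, cc v hv.1⟩)
      refine (Dm.of_le (K := Sz * (1 + LT)) fun v hv v' hv' => ?_).trans k1
      have l1 := hsd.lipI _ (hsd.mem _ hv'.1.2) _ (hsd.mem _ hv.1.2) _ (hsd.self hv'.1.2) _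
        (hsd.self hv.1.2)
      have l2 : dist (Yc (ν v'.2) v'.2) (Yc (ν v.2) v.2) ≤
          dist (ν v'.2, Yc (ν v'.2) v'.2) (ν v.2, Yc (ν v.2) v.2) := le_max_right _ _
      have l3 : |ν v'.2 - ν v.2| ≤
          dist (ν v'.2, Yc (ν v'.2) v'.2) (ν v.2, Yc (ν v.2) v.2) := le_max_left _ _
      have := hsd.pT
      have := hsd.pS
      refine l1.trans ((mul_le_mul_of_nonneg_left (add_le_add l2
        (mul_le_mul_of_nonneg_left l3 hsd.pT)) hsd.pS).trans_eq ?_)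
      ring
    · have e := n2 v hv k.2 a.1
      exact ⟨e ▸ a.1, rfl, by rw [e]⟩
    · rw [closure_prod_eq, (hsd.closed 1 i1).closure_eq] at k
      exact k.2
    · rw [e2 z (n3 _ k.2)] at u w
      obtain ⟨k1, k2⟩ := hS _ hz.1 _ k.2 u
      have k3 := hc.deep hη h5 i1 k2 w
      have hP : ∀ v ∈ J ×ˢ R 1, σ 1 (Z v) ∈ U ∧ σ 1 (Z v) ∈ Wo U c o →
          Z v ∈ U ∧ Z v ∈ Wo U c' o := fun v hv a =>
        ⟨(hS _ hv.1 _ hv.2 a.1).1, hc.deep hη h5 i1 (hS _ hv.1 _ hv.2 a.1).2 a.2⟩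
      have k4 := (hc.dmInv hη (1, Z z)).comp_ev (R' := J ×ˢ R 1) (Φ := fun w => (1, Z w))
        (P' := fun w => σ 1 (Z w) ∈ U ∧ σ 1 (Z w) ∈ Wo U c o)
        ((hZ.ev hU k k1 k3).mono fun v a => ⟨i1, a.2.2.2⟩)
        (continuousWithinAt_const.prodMk (hZ.lip z k k1 k3).1)
        (eventually_nhdsWithin_of_forall fun v hv a => ⟨trivial,
          continuousWithinAt_const.prodMk (hZ.lip v hv (hP v hv a).1 (hP v hv a).2).1⟩)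
      exact ((hZ.lo z k k1 k3).imp hP).trans
        (Dm.pr1.prod (k4.trans ((Dm.const _).prod Dm.pr2)))
    · have e := e2 v (n3 _ k.2)
      exact ⟨e ▸ a, rfl, by rw [e]⟩
    · by_cases h : ν v.2 < 1
      · exact Or.inl ⟨hv, h⟩
      · exact Or.inr ⟨hv.1, r1 _ hv.2 h⟩

theorem PW.shell {T Y I : Type} [MetricSpace T] [MetricSpace Y] {U S D Fx : Set Y} {η : ℝ}
    {σ ϱ : ℝ → Y → Y} (hc : Col U S D η σ ϱ Fx) {ch : Set I}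
    {G : (I → T × E ι → Y) → T × E ι → Y} (h : PW U ch G) (ν : E ι → ℝ) (Yc : ℝ → E ι → E ι)
    (β : (T × ℝ) × E ι → Y) : PW U ch fun F => shOp ν Yc σ β (G F) :=
  (PW.const U ch fun z => σ (ν z.2) (β ((z.1, ν z.2), Yc (ν z.2) z.2))).ite
    (h.post (hc.memU 1 ⟨zero_le_one, le_rfl⟩)) fun z => ν z.2 < 1

/-- Peeling a shell with constant data. -/
theorem peel {Y : Type} [MetricSpace Y] {U S D Fx : Set Y} (hU : IsOpen U) (hne : Uᶜ.Nonempty)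
    {R : ℝ → Set (E ι)} {Yc : ℝ → E ι → E ι} {ν : E ι → ℝ} {LY LT Lν Sz : ℝ}
    (hsd : SD R Yc ν LY LT Lν Sz) {η : ℝ} (hη : 0 ≤ η) {σ ϱ : ℝ → Y → Y}
    (hc : Col U S D η σ ϱ Fx) {β : E ι → Y} (hβ : ∀ x ∈ sphere (0 : E ι) 1, β x ∈ U → β x ∈ D)
    {X Z : E ι → Y} {a a' c c' : ℝ} (pa : 0 ≤ a)
    (hZ : Sol U (pbP (univ : Set Unit) (R 1) {z | z ∈ R 1 ∧ ‖Yc 1 z‖ = 1}
      (fun z => β (Yc 1 z.2)) S (gs a' 0) c') univ fun z => Z z.2)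
    (hX : Sol U (pbP (univ : Set Unit) (R 0) {z | z ∈ R 0 ∧ ‖Yc 0 z‖ = 1}
      (fun z => β (Yc 0 z.2)) S (gs a 0) c) univ fun z => X z.2)
    (he : ∀ z ∈ R 0, Ap U (X z) (if ν z < 1 then σ (ν z) (β (Yc (ν z) z)) else σ 1 (Z z))) :
    ∃ H : ℝ × E ι → Y,
      Sol U (pbP (Icc (0 : ℝ) 1) (closedBall 0 1) (sphere 0 1) (fun z => β z.2) S
        (gs ((1 + η) * a * Sz) ((1 + η) * a * Sz * LT + η)) 1) univ H ∧
      (∀ z ∈ R 0, Ap U (H (0, Yc 0 z)) (X z)) ∧ ∀ z ∈ R 1, Ap U (H (1, Yc 1 z)) (Z z) := by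
  classical
  have i0 : (0 : ℝ) ∈ Icc (0 : ℝ) 1 := ⟨le_rfl, zero_le_one⟩
  have i1 : (1 : ℝ) ∈ Icc (0 : ℝ) 1 := ⟨zero_le_one, le_rfl⟩
  obtain ⟨κ, κ1, κ2⟩ : ∃ κ : ℝ × E ι → E ι,
      (∀ w ∈ Icc (0 : ℝ) 1 ×ˢ closedBall (0 : E ι) 1, κ w ∈ R w.1 ∧ Yc w.1 (κ w) = w.2) ∧
      ∀ r ∈ Icc (0 : ℝ) 1, ∀ z ∈ R r, κ (r, Yc r z) = z :=
    ⟨fun w => Function.invFunOn (Yc w.1) (R w.1) w.2,
      fun w hw => Function.invFunOn_pos ((hsd.bij _ hw.1).surjOn hw.2),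
      fun r hr z hz => (hsd.bij r hr).invOn_invFunOn.1 hz⟩
  have h1 : ∀ z ∈ R 0, ν z < 1 → X z ∈ U → X z = σ (ν z) (β (Yc (ν z) z)) ∧
      β (Yc (ν z) z) ∈ U ∧ β (Yc (ν z) z) ∈ D := fun z hz h u => by
    have e := he z hz (Or.inl u)
    rw [if_pos h] at e
    have k := (hc.memU _ (hsd.mem z hz) _).1 (e ▸ u)
    exact ⟨e, k, hβ _ (mem_sphere_zero_iff_norm.2 (hsd.bd z hz h)) k⟩
  have h2 : ∀ z ∈ R 1, Ap U (X z) (σ 1 (Z z)) := fun z hz => by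
    have e := he z (hsd.sub 1 i1 hz)
    rwa [if_neg fun h => (hsd.lt_one (hsd.sub 1 i1 hz)).1 h hz] at e
  have hS : ∀ z ∈ R 1, Z z ∈ U → Z z ∈ S := fun z hz u => (hZ.maps ((), z) ⟨trivial, hz⟩ u).2
  have K : ∀ r ∈ Icc (0 : ℝ) 1, ∀ z ∈ R r, X z ∈ U → ∃ y ∈ S, σ r y = X z := fun r hr z hz u => by
    have z0 := hsd.sub r hr hz
    by_cases h : ν z < 1
    · obtain ⟨e, -, k⟩ := h1 z z0 h u
      exact e ▸ hc.nest r _ hr.1 ((hsd.le z z0 r hr).1 hz) h.le _ (hc.sub k)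
    · rw [hsd.lt_one z0, not_not] at h
      have e := h2 z h (Or.inl u)
      exact e ▸ hc.nest r 1 hr.1 hr.2 le_rfl _ (hS z h ((hc.memU _ i1 _).1 (e ▸ u)))
  obtain ⟨H, H1, H2⟩ : ∃ H : ℝ × E ι → Y, (∀ w, X (κ w) ∈ U → H w = ϱ w.1 (X (κ w))) ∧
      ∀ w, H w ∈ U → X (κ w) ∈ U :=
    ⟨fun w => if X (κ w) ∈ U then ϱ w.1 (X (κ w)) else X (κ w), fun w h => if_pos h,
      fun w h => by_contra fun k => k (by simpa only [if_neg k] using h)⟩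
  have H3 : ∀ w ∈ Icc (0 : ℝ) 1 ×ˢ closedBall (0 : E ι) 1, X (κ w) ∈ U →
      H w ∈ S ∧ σ w.1 (H w) = X (κ w) := fun w hw u => by
    obtain ⟨y, hy, e⟩ := K _ hw.1 _ (κ1 w hw).1 u
    rw [H1 w u, ← e, hc.inv _ hw.1 y hy]
    exact ⟨hy, rfl⟩
  have L : ∀ r ∈ Icc (0 : ℝ) 1, ∀ z ∈ R r, ∀ y, (y ∈ U → y ∈ S) → Ap U (X z) (σ r y) →
      Ap U (H (r, Yc r z)) y := fun r hr z hz y hy h k => by
    have u : X z ∈ U := by
      rcases k with k | k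
      · exact κ2 r hr z hz ▸ H2 _ k
      · have := (hc.memU r hr y).2 k
        rwa [h (Or.inr this)]
    have e := h (Or.inl u)
    rw [H1 _ (by rwa [κ2 r hr z hz]), κ2 r hr z hz, e,
      hc.inv r hr y (hy ((hc.memU r hr y).1 (e ▸ u)))]
  have hb : ∀ w ∈ Icc (0 : ℝ) 1 ×ˢ sphere (0 : E ι) 1, Ap U (H w) (β w.2) := by
    rintro ⟨r, x⟩ ⟨hr, hx⟩
    obtain ⟨z, hz, rfl⟩ := (hsd.bij r hr).surjOn (sphere_subset_closedBall hx)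
    have n := mem_sphere_zero_iff_norm.1 hx
    refine L r hr z hz _ (fun u => hc.sub (hβ _ hx u)) ?_
    obtain rfl := hsd.eq r hr z hz n
    rcases hr.2.lt_or_eq with h | h
    · have e := he z (hsd.sub _ hr hz)
      rwa [if_pos h] at e
    · simp only at h n ⊢
      rw [h] at hz n ⊢
      exact (h2 z hz).trans ((hZ.ap ((), z) ⟨trivial, hz, n⟩).map (hc.memU 1 i1))
  have m : ∀ v ∈ Icc (0 : ℝ) 1 ×ˢ closedBall (0 : E ι) 1, ((), κ v) ∈ (univ : Set Unit) ×ˢ R 0 :=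
    fun v hv => ⟨trivial, hsd.sub _ hv.1 (κ1 v hv).1⟩
  have d : ∀ w ∈ Icc (0 : ℝ) 1 ×ˢ closedBall (0 : E ι) 1,
      ∀ v ∈ Icc (0 : ℝ) 1 ×ˢ closedBall (0 : E ι) 1,
      dist (κ v) (κ w) ≤ Sz * (dist v.2 w.2 + LT * |v.1 - w.1|) := fun w hw v hv => by
    have := hsd.lipI _ hv.1 _ hw.1 _ (κ1 v hv).1 _ (κ1 w hw).1
    rwa [(κ1 v hv).2, (κ1 w hw).2] at this
  have ck : ∀ w ∈ Icc (0 : ℝ) 1 ×ˢ closedBall (0 : E ι) 1, ContinuousWithinAt (fun v => ((), κ v))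
      (Icc (0 : ℝ) 1 ×ˢ closedBall (0 : E ι) 1) w := fun w hw =>
    continuousWithinAt_const.prodMk (cont_of_ev (Continuous.continuousWithinAt (by fun_prop))
      (by simp) (eventually_nhdsWithin_of_forall (d w hw))).1
  have hl : ∀ w ∈ Icc (0 : ℝ) 1 ×ˢ closedBall (0 : E ι) 1, H w ∈ U →
      ContinuousWithinAt H (Icc (0 : ℝ) 1 ×ˢ closedBall (0 : E ι) 1) w ∧
      ∀ᶠ v in 𝓝[Icc (0 : ℝ) 1 ×ˢ closedBall (0 : E ι) 1] w, dist (H v) (H w) ≤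
        gs ((1 + η) * a * Sz) ((1 + η) * a * Sz * LT + η) w v := fun w hw u => gs_ev (by
    have u1 := H2 w u
    obtain ⟨s1, s2⟩ := H3 w hw u1
    have t := (ck w hw).tendsto_nhdsWithin m
    have d := d w hw
    obtain ⟨k1, k2⟩ := hX.lip _ (m w hw) u1 trivial
    have k3 := (t.eventually (hX.ev hU (m w hw) u1 trivial)).and self_mem_nhdsWithin
    have t2 : Tendsto (fun v => (v.1, X (κ v))) (𝓝[Icc (0 : ℝ) 1 ×ˢ closedBall (0 : E ι) 1] w)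
        (𝓝[{v : ℝ × Y | v.1 ∈ Icc (0 : ℝ) 1 ∧ v.2 ∈ σ v.1 '' S}] (w.1, σ w.1 (H w))) :=
      tendsto_nhdsWithin_iff.2 ⟨continuous_fst.continuousWithinAt.tendsto.prodMk_nhds
        (s2 ▸ k1.tendsto.comp t), k3.mono fun v hv => ⟨hv.2.1, K _ hv.2.1 _ (κ1 v hv.2).1 hv.1.2.1⟩⟩
    filter_upwards [t.eventually k2, k3, t2.eventually (hc.lipi _ hw.1 _ s1)] with v l1 l2 l3
    rw [H1 v l2.1.2.1]
    refine l3.trans ?_
    have l4 := mul_le_mul_of_nonneg_left (d v l2.2) pa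
    simp only [pbP, gs, s2, zero_mul, add_zero, Real.dist_eq] at l1 ⊢
    have l5 := mul_le_mul_of_nonneg_left (l1.trans l4) (show 0 ≤ 1 + η by linarith only [hη])
    linarith only [l5])
  refine ⟨H, ⟨fun w hw u => ⟨hw.1, (H3 w hw (H2 w u)).1⟩, fun w hw u => hb w hw (Or.inl u),
    fun w hw u _ => hb w hw (Or.inr u), fun r y hy u _ => ?_, fun r x x' hx hx' u _ e => ?_,
    fun w hw u _ => hl w hw u, fun w hw u _ => ?_⟩, fun z hz => L 0 i0 z hz _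
      (fun u => (hX.maps ((), z) ⟨trivial, hz⟩ u).2) (Ap.of_eq (hc.zero _).symm),
    fun z hz => L 1 i1 z hz _ (hS z hz) (h2 z hz)⟩
  · have u' := (hc.memU r hy.1 y).2 u
    obtain ⟨z, hz, e⟩ := hX.ex () (σ r y) ⟨trivial, hc.maps r hy.1 y hy.2⟩ u' trivial
    have k : z ∈ R r := (hsd.le z hz.2 r hy.1).2 (not_lt.1 fun h => by
      obtain ⟨k1, k2, k3⟩ := h1 z hz.2 (h.trans_le hy.1.2) (e ▸ u')
      exact hc.sep _ r (hsd.mem z hz.2).1 h hy.1.2 _ k3 k2 y hy.2 (k1.symm.trans e))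
    exact ⟨Yc r z, ⟨hy.1, (hsd.bij r hy.1).mapsTo k⟩,
      L r hy.1 z k y (fun _ => hy.2) (Ap.of_eq e) (Or.inr u)⟩
  · have k := hX.uq () (κ (r, x)) (κ (r, x')) ⟨trivial, hsd.sub r hx.1 (κ1 _ hx).1⟩
      ⟨trivial, hsd.sub r hx.1 (κ1 _ hx').1⟩ (H2 _ u) trivial
      ((H3 _ hx' (H2 _ (e ▸ u))).2.symm.trans (e ▸ (H3 _ hx (H2 _ u)).2))
    exact (κ1 _ hx').2.symm.trans (k ▸ (κ1 _ hx).2)
  · have u1 := H2 w u
    have k1 := (hX.lo _ (m w hw) u1 trivial).comp (Φ := fun v => ((), κ v))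
      (P' := fun v => H v ∈ U ∧ H v ∈ univ) m (ck w hw)
      (eventually_nhdsWithin_of_forall fun v hv a => ⟨⟨H2 v a.1, trivial⟩, ck v hv⟩)
    have k0 : ∀ᶠ v in 𝓝[Icc (0 : ℝ) 1 ×ˢ closedBall (0 : E ι) 1] w,
        v ∈ Icc (0 : ℝ) 1 ×ˢ closedBall (0 : E ι) 1 ∧ H v ∈ U :=
      eventually_mem_nhdsWithin.and ((hl w hw u).1.eventually (hU.mem_nhds u))
    have k2 := ((hc.dmUp hη (w.1, H w)).comp_ev (Φ := fun v => (v.1, H v))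
      (P' := fun v => H v ∈ U ∧ H v ∈ univ)
      (k0.mono fun v a => ⟨a.1.1, (H3 v a.1 (H2 v a.2)).1⟩)
      (continuousWithinAt_fst.prodMk (hl w hw u).1) (eventually_nhdsWithin_of_forall
        fun v hv a => ⟨trivial, continuousWithinAt_fst.prodMk (hl v hv a.1).1⟩)).congrL_ev
      (F1 := fun v => X (κ v)) (k0.mono fun v a => (H3 v a.1 (H2 v a.2)).2.symm)
    refine (Dm.of_le (G := fun v => (v.1, κ v)) (K := LY + LT) fun v hv v' hv' => ?_).trans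
      (Dm.pr1.prod (k1.trans ((Dm.const _).prod k2)))
    have l1 := hsd.lipY _ hv'.1 _ hv.1 _ (κ1 v' hv').1 _ (κ1 v hv).1
    rw [(κ1 v hv).2, (κ1 v' hv').2] at l1
    have l2 : dist (κ v') (κ v) ≤ dist (v'.1, κ v') (v.1, κ v) := le_max_right _ _
    have l3 : |v'.1 - v.1| ≤ dist (v'.1, κ v') (v.1, κ v) := le_max_left _ _
    exact l1.trans ((add_le_add (mul_le_mul_of_nonneg_left l2 hsd.pY)
      (mul_le_mul_of_nonneg_left l3 hsd.pT)).trans_eq (add_mul _ _ _).symm)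

/-- The shell theorem as a reduction. -/
theorem Red.shell {U0 F0 : Set (E ι)} (hU : IsOpen U0) {S D : Set (YL ι)}
    {R : ℝ → Set (E ι)} {Yc : ℝ → E ι → E ι} {ν : E ι → ℝ} {LY LT Lν Sz : ℝ}
    (hsd : SD R Yc ν LY LT Lν Sz) {η : ℝ} (hη : 0 ≤ η) {σ ϱ : ℝ → YL ι → YL ι}
    (hc : Col (UL U0) S D η σ ϱ (Prod.snd ⁻¹' F0)) {β β0 : ℝ × E ι → YL ι} {a1 a2 : ℝ}
    (p1 : 0 ≤ a1) (p2 : 0 ≤ a2)
    (hβ : Sol (UL U0) (pbP (Icc (0 : ℝ) 1) (sphere 0 1) ∅ β0 D (gs a1 a2) 1) univ β)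
    {c c' : ℝ} (h1 : (1 + η) * (a1 * (LY + LT * Lν) + a2 * Lν) + η * Lν ≤ c)
    (h5 : (1 + η) * c' ≤ c) (pc : 0 < c') :
    Red U0 F0
      (pbP univ (R 0) {z | z ∈ R 0 ∧ ‖Yc 0 z‖ = 1} (fun z => β (0, Yc 0 z.2)) S (gs c 0) c)
      {pbP univ (R 1) {z | z ∈ R 1 ∧ ‖Yc 1 z‖ = 1} (fun z => β (1, Yc 1 z.2)) S (gs c' 0) c'} := by
  have i1 : (1 : ℝ) ∈ Icc (0 : ℝ) 1 := ⟨zero_le_one, le_rfl⟩
  have hβ' : Sol (UL U0) (pbP ((univ : Set Unit) ×ˢ Icc (0 : ℝ) 1) (sphere 0 1) ∅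
      (fun w => β0 (w.1.2, w.2)) D (gm a1 a2 0) 1) univ fun w => β (w.1.2, w.2) :=
    hβ.comp (fun t : Unit × ℝ => t.2) (fun w => w.2) (fun z hz => ⟨hz.1.2, hz.2⟩)
      (fun z hz _ h => ⟨hz.1, h.2⟩) (fun t y h _ => ⟨h.1.2, h.2⟩)
      (fun t y h _ _ x hx _ => ⟨x, ⟨h.1, hx.2⟩, rfl⟩) (fun t x x' _ _ _ h => h)
      (fun z _ _ => ⟨Continuous.continuousWithinAt (by fun_prop),
        Eventually.of_forall fun z' => by simp [pbP, gs, gm, Real.dist_eq]⟩)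
      (fun z hz => hz.2.elim) fun _ _ _ => ⟨Dm.refl.snd, Dm.pr2⟩
  refine ⟨_, ⟨PW.shell hc (PW.single (mem_singleton _) id) ν Yc fun w => β (w.1.2, w.2),
    fun o F hF => shell_sol (isOpen_UL hU) hsd hη hc p1 p2 le_rfl hβ' h1 h5 (by simp) (by simp)
      h5 pc (hF _ rfl)⟩, ?_⟩
  rintro q rfl
  refine ⟨IsometryEquiv.refl _, fun x hx => ⟨trivial, hsd.sub 1 i1 hx.2⟩, fun F _ x hx _ k => ?_⟩
  exact congrArg Prod.snd ((if_neg fun h => (hsd.lt_one (hsd.sub 1 i1 hx.2)).1 h hx.2).trans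
    (hc.far 1 _ k))

end Pool.Agent.Lib.MP_ecd4e3_gt.NB
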