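import Pool.Agent.Lib.MP_ecd4e3_gt.NB.DSusp
import Pool.Agent.Lib.MP_ecd4e3_gt.NB.Chart
import Pool.Agent.Lib.MP_ecd4e3_gt.NB.Shell

/-! Half displays from an arbitrary point, and adapted displays. -/

set_option linter.unusedSectionVars false

namespace Pool.Agent.Lib.MP_ecd4e3_gt.NB

open Set Filter Topology Metric MeasureTheory
open scoped NNReal ENNReal

variable {ι : Type} [Fintype ι] [DecidableEq ι]

namespace DHf

open Function

/-! ### Norms and updates -/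

theorem norm_update (x : E ι) (j : ι) (h : ℝ) : ‖update x j h‖ = max ‖update x j 0‖ |h| := by
  refine le_antisymm ((pi_norm_le_iff_of_nonneg (by positivity)).2 fun i => ?_) (max_le
    ((pi_norm_le_iff_of_nonneg (norm_nonneg _)).2 fun i => ?_) ?_)
  · by_cases e : i = j
    · rw [e, update_self]; exact le_max_right _ _
    · have := norm_le_pi_norm (update x j 0) i
      rw [update_of_ne e] at this ⊢
      exact this.trans (le_max_left _ _)
  · by_cases e : i = j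
    · rw [e, update_self, norm_zero]; exact norm_nonneg _
    · have := norm_le_pi_norm (update x j h) i
      rwa [update_of_ne e] at this ⊢
  · have := norm_le_pi_norm (update x j h) j
    rwa [update_self] at this

theorem norm_split (x : E ι) (j : ι) : ‖x‖ = max ‖update x j 0‖ |x j| := by
  rw [← norm_update, update_eq_self]

theorem upd_zero {x : E ι} {j : ι} (h : x j = 0) : update x j 0 = x := by
  rw [← h, update_eq_self]

theorem dist_update {a a' : E ι} {j : ι} {h h' D : ℝ} (h1 : dist a a' ≤ D) (h2 : |h - h'| ≤ D) :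
    dist (update a j h) (update a' j h') ≤ D := by
  refine (dist_pi_le_iff (dist_nonneg.trans h1)).2 fun i => ?_
  by_cases e : i = j
  · rw [e, update_self, update_self]; exact h2
  · rw [update_of_ne e, update_of_ne e]; exact (dist_le_pi_dist a a' i).trans h1

theorem single_add {v : E ι} {j : ι} (h : v j = 0) (δ : ℝ) :
    Pi.single j δ + v = update v j δ := by
  funext i
  by_cases e : i = j
  · simp [e, h]
  · simp [e]

theorem abs_sg {δ : ℝ} (h : δ = 1 ∨ δ = -1) : |δ| = 1 := by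
  rcases h with h | h <;> simp [h]

theorem sq_sg {δ : ℝ} (h : δ = 1 ∨ δ = -1) : δ * δ = 1 := by
  rcases h with h | h <;> simp [h]

theorem cs_nonempty [Nontrivial ι] (i0 : ι) : (Cs i0).Nonempty := by
  obtain ⟨i, hi⟩ := exists_ne i0
  exact ⟨Pi.single i 1, Pi.single_eq_of_ne hi.symm _, by rw [Pi.norm_single, norm_one]⟩

/-! ### Solutions -/

theorem antiU {T X Y : Type} [MetricSpace T] [MetricSpace X] [MetricSpace Y] {U U' W : Set Y}
    {p : Pb T X Y} {Z : T × X → Y} (h : Sol U p W Z) (hU : U' ⊆ U) : Sol U' p W Z :=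
  ⟨fun z hz h1 => h.maps z hz (hU h1), fun z hz h1 => h.bd z hz (hU h1),
    fun z hz h1 => h.bd' z hz (hU h1), fun t y h1 h2 => h.ex t y h1 (hU h2),
    fun t x x' h1 h2 h3 => h.uq t x x' h1 h2 (hU h3), fun z hz h1 => h.lip z hz (hU h1),
    fun z hz h1 h2 => (h.lo z hz (hU h1) h2).imp fun _ _ a => ⟨hU a.1, a.2⟩⟩

/-- The static problem of a band over the interval `I`. -/
noncomputable abbrev pbI (i0 : ι) (I : Set ℝ) (β : ℝ × E ι → E ι) (S : Set (E ι)) (K : ℝ) :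
    Pb Unit (ℝ × E ι) (E ι) :=
  pbP univ (I ×ˢ Cs i0) ∅ (fun z => β z.2) S (gs K 0) 1

theorem sol_of_lip {i0 : ι} {I : Set ℝ} {S : Set (E ι)} {K : ℝ} {p : E ι} {Γ : ℝ × E ι → E ι}
    (hm : ∀ n ∈ I, ∀ ω ∈ Cs i0, Γ (n, ω) ∈ S)
    (hx : ∀ y ∈ S, y ≠ p → ∃ n ∈ I, ∃ ω ∈ Cs i0, Γ (n, ω) = y)
    (hu : ∀ n ∈ I, ∀ ω ∈ Cs i0, ∀ n' ∈ I, ∀ ω' ∈ Cs i0, Γ (n, ω) ≠ p → Γ (n', ω') = Γ (n, ω) →
      n' = n ∧ ω' = ω)
    (hl : ∀ z ∈ I ×ˢ Cs i0, ∀ z' ∈ I ×ˢ Cs i0, dist (Γ z') (Γ z) ≤ K * dist z' z)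
    (hlo : ∀ z ∈ I ×ˢ Cs i0, Γ z ≠ p → Dm (I ×ˢ Cs i0) (fun _ => True) (fun w => w) Γ z) :
    Sol ({p}ᶜ : Set (E ι)) (pbI i0 I Γ S K) univ fun z => Γ z.2 := by
  refine ⟨fun z hz _ => ⟨trivial, hm _ hz.2.1 _ hz.2.2⟩, fun z hz => hz.2.elim,
    fun z hz => hz.2.elim, fun t y h1 h2 _ => ?_, fun t x x' h1 h2 h3 _ h4 => ?_,
    fun z hz _ _ => gs_ev (eventually_nhdsWithin_of_forall fun z' hz' => ?_),
    fun z hz h1 _ => Dm.toR (((hlo z.2 hz.2 h1).comp' (Φ := Prod.snd) (fun _ hw => hw.2)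
      continuous_snd).imp fun _ _ _ => trivial)⟩
  · obtain ⟨n, hn, ω, hω, e⟩ := hx y h1.2 h2
    exact ⟨(n, ω), ⟨trivial, hn, hω⟩, e⟩
  · exact Prod.ext_iff.2 (hu _ h1.2.1 _ h1.2.2 _ h2.2.1 _ h2.2.2 h3 h4)
  · rw [gs, zero_mul, add_zero]
    exact hl _ hz.2 _ hz'.2

/-- Reparametrisation of a band, followed by an injective map. -/
theorem sol_rep {i0 : ι} {I : Set ℝ} {S : Set (E ι)} {K l K' : ℝ} (hK : 0 ≤ K) (hl : 0 ≤ l)
    {p : E ι} {Γ Ξ : ℝ × E ι → E ι}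
    (h : Sol ({p}ᶜ : Set (E ι)) (pbI i0 (Icc 0 1) Γ S K) univ fun z => Γ z.2) {φ : ℝ → ℝ}
    (hφ : BijOn φ I (Icc 0 1)) (hφ' : ∀ a b, |φ a - φ b| ≤ 2 * |a - b|) {A : E ι → E ι}
    (hA : Injective A) (hA' : ∀ x y, dist (A x) (A y) ≤ l * dist x y)
    (he : ∀ n ∈ I, ∀ ω ∈ Cs i0, Ξ (n, ω) = A (Γ (φ n, ω))) (hK' : l * (K * 2) ≤ K')
    (hφl : ∀ a b, |a - b| ≤ |φ a - φ b|) (hAl : ∀ x y, dist x y ≤ dist (A x) (A y)) :
    Sol ({A p}ᶜ : Set (E ι)) (pbI i0 I Ξ (A '' S) K') univ fun z => Ξ z.2 := by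
  have h1 := Sol.chart h hK (R' := I ×ˢ Cs i0) (B' := ∅) (φ := Prod.map φ id)
    (hφ.prodMap (bijOn_id _)) (fun _ h0 => h0.elim) (L := 2) (fun x _ x' _ => by
      rw [Prod.dist_eq, Prod.dist_eq]
      have a1 := hφ' x.1 x'.1
      have a2 := le_max_left (dist x.1 x'.1) (dist x.2 x'.2)
      have a3 := le_max_right (dist x.1 x'.1) (dist x.2 x'.2)
      have a4 := dist_nonneg (x := x.2) (y := x'.2)
      rw [← Real.dist_eq, ← Real.dist_eq] at a1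
      exact max_le (by change dist (φ x.1) (φ x'.1) ≤ _; linarith only [a1, a2])
        (by change dist x.2 x'.2 ≤ _; linarith only [a3, a4]))
    (β' := fun z => Γ z.2) (fun _ h0 => h0.elim) (a' := K * 2) (c' := 1) le_rfl
    ⟨1, fun x _ x' _ => by
      rw [Prod.dist_eq, Prod.dist_eq, one_mul]
      exact max_le_max (hφl x.1 x'.1) le_rfl⟩
  have h2 := h1.post (U' := ({A p}ᶜ : Set (E ι))) (W' := univ) isOpen_compl_singleton
    ⟨fun _ h0 => h0.2.elim, fun _ h0 => h0.2.elim, one_pos⟩ (fun _ => A)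
    (p := pbI i0 I Ξ (A '' S) K') (l1 := l) (l2 := 0) hl rfl (fun _ h0 => h0.2.elim)
    (fun _ y => hA.ne_iff) (fun _ h0 => h0.2.elim)
    (fun _ y' _ => ⟨fun ⟨_, y, h3, h4⟩ => ⟨y, ⟨trivial, h3⟩, h4⟩,
      fun ⟨y, h3, h4⟩ => ⟨trivial, y, h3.2, h4⟩⟩)
    (fun _ _ _ _ _ _ h3 => hA h3) (fun _ _ _ _ _ => trivial)
    (fun _ y _ _ => Eventually.of_forall fun w => by rw [zero_mul, add_zero]; exact hA' _ _)
    (fun z _ => Eventually.of_forall fun z' => by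
      change l * (K * 2 * dist z'.2 z.2 + 0 * _) + 0 * _ ≤ K' * dist z'.2 z.2 + 0 * _
      simp only [zero_mul, add_zero, ← mul_assoc]
      exact mul_le_mul_of_nonneg_right (by linarith only [hK']) dist_nonneg)
    (fun _ _ _ _ => Dm.toR (Dm.refl.unlip (φ := A) (L := 1) fun a b => by
      rw [one_mul]; exact hAl a b))
  exact h2.congr_eq (fun _ h0 => h0.2.elim) fun z hz => he _ hz.2.1 _ hz.2.2

/-- A display from its two halves. -/
theorem disp_glue {i0 : ι} {K : ℝ} (hK : 0 ≤ K) {p q : E ι} {S1 S2 : Set (E ι)}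
    {Ξ : ℝ × E ι → E ι}
    (h1 : Sol ({p}ᶜ : Set (E ι)) (pbI i0 (Icc 0 (1 / 2)) Ξ S1 K) univ fun z => Ξ z.2)
    (h2 : Sol ({q}ᶜ : Set (E ι)) (pbI i0 (Icc (1 / 2) 1) Ξ S2 K) univ fun z => Ξ z.2)
    (hS : ∀ x, ‖x‖ = 1 ↔ x ∈ S1 ∨ x ∈ S2)
    (hi : ∀ y ∈ S1, y ∈ S2 → ∃ ω ∈ Cs i0, Ξ (1 / 2, ω) = y)
    (m1 : ∀ n ∈ Icc (0 : ℝ) (1 / 2), ∀ ω ∈ Cs i0, Ξ (n, ω) ∈ S1)
    (m2 : ∀ n ∈ Icc (1 / 2 : ℝ) 1, ∀ ω ∈ Cs i0, Ξ (n, ω) ∈ S2)
    (he : ∀ ω ∈ Cs i0, Ξ (0, ω) = p ∧ Ξ (1, ω) = q) : Disp i0 K p q Ξ := by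
  have hc : IsClosed (Cs i0) :=
    (isClosed_eq (continuous_apply i0) continuous_const).inter
      (isClosed_eq continuous_norm continuous_const)
  have hg : ∀ z z' : Unit × (ℝ × E ι), gs K 0 z z' ≤ gs K K z z' := fun z z' =>
    add_le_add le_rfl (mul_le_mul_of_nonneg_right hK dist_nonneg)
  refine ⟨?_, fun _ _ n hn ω hω => (hS _).2 ?_, fun _ _ => he⟩
  · have := Sol.glue' (p := pbP univ (Icc (0 : ℝ) 1 ×ˢ Cs i0) ∅ (fun z => Ξ z.2) (sphere 0 1)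
        (gs K K) 1) (U := ({p, q}ᶜ : Set (E ι)))
      (antiU h1 (compl_subset_compl.2 (singleton_subset_iff.2 (mem_insert _ _))))
      (antiU h2 (compl_subset_compl.2 (subset_insert _ _))) ?_
      (fun _ _ hz => (isClosed_univ.prod (isClosed_Icc.prod hc)).closure_subset hz)
      (fun _ _ hz => (isClosed_univ.prod (isClosed_Icc.prod hc)).closure_subset hz)
      (fun _ y _ => ?_) (fun _ _ _ _ _ _ => Iff.rfl) (fun _ y a1 a2 _ _ => ?_)
      (fun _ h0 => h0.2.elim) (fun _ h0 => h0.2.elim)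
      (fun z _ => Eventually.of_forall (hg z)) fun z _ => Eventually.of_forall (hg z)
    · simpa only [ite_self] using this
    · change univ ×ˢ _ = univ ×ˢ _ ∪ univ ×ˢ _
      rw [← prod_union, ← union_prod, Icc_union_Icc_eq_Icc (by norm_num) (by norm_num)]
    · change True ∧ y ∈ sphere 0 1 ↔ True ∧ y ∈ S1 ∨ True ∧ y ∈ S2
      rw [true_and, true_and, true_and, mem_sphere_zero_iff_norm, hS]
    · obtain ⟨ω, hω, e⟩ := hi y a1.2 a2.2
      exact ⟨(1 / 2, ω), ⟨trivial, ⟨by norm_num, le_rfl⟩, hω⟩, ⟨trivial, ⟨le_rfl, by norm_num⟩, hω⟩,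
        e⟩
  · rcases le_total n (1 / 2) with a | a
    · exact Or.inl (m1 n ⟨hn.1, a⟩ ω hω)
    · exact Or.inr (m2 n ⟨a, hn.2⟩ ω hω)

theorem bij_lo : BijOn (fun a : ℝ => 2 * a) (Icc 0 (1 / 2)) (Icc 0 1) :=
  ⟨fun a ha => ⟨by linarith only [ha.1], by linarith only [ha.2]⟩, fun a _ b _ h => by linarith only [h],
    fun b hb => ⟨b / 2, ⟨by linarith only [hb.1], by linarith only [hb.2]⟩, by ring⟩⟩

theorem bij_hi : BijOn (fun a : ℝ => 2 - 2 * a) (Icc (1 / 2) 1) (Icc 0 1) :=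
  ⟨fun a ha => ⟨by linarith only [ha.2], by linarith only [ha.1]⟩, fun a _ b _ h => by linarith only [h],
    fun b hb => ⟨1 - b / 2, ⟨by linarith only [hb.2], by linarith only [hb.1]⟩, by ring⟩⟩

theorem lip_lo (a b : ℝ) : |2 * a - 2 * b| ≤ 2 * |a - b| := by
  rw [← mul_sub, abs_mul, abs_two]

theorem lip_hi (a b : ℝ) : |2 - 2 * a - (2 - 2 * b)| ≤ 2 * |a - b| := by
  rw [show 2 - 2 * a - (2 - 2 * b) = 2 * b - 2 * a by ring, abs_sub_comm]
  exact lip_lo a b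

theorem exp_lo (a b : ℝ) : |a - b| ≤ |2 * a - 2 * b| := by
  rw [← mul_sub, abs_mul, abs_two]
  linarith only [abs_nonneg (a - b)]

theorem exp_hi (a b : ℝ) : |a - b| ≤ |2 - 2 * a - (2 - 2 * b)| := by
  rw [show 2 - 2 * a - (2 - 2 * b) = 2 * b - 2 * a by ring, abs_sub_comm]
  exact exp_lo b a

theorem dcat_lo (Γ1 Γ2 : ℝ × E ι → E ι) {n : ℝ} (h : n ≤ 1 / 2) (ω : E ι) :
    dcat Γ1 Γ2 (n, ω) = Γ1 (2 * n, ω) := if_pos h

theorem dcat_hi {Γ1 Γ2 : ℝ × E ι → E ι} {n : ℝ} (h : 1 / 2 ≤ n) {ω : E ι}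
    (he : Γ1 (1, ω) = Γ2 (1, ω)) : dcat Γ1 Γ2 (n, ω) = Γ2 (2 - 2 * n, ω) := by
  rcases h.lt_or_eq with h | h
  · exact if_neg (not_le.2 h)
  · rw [dcat_lo Γ1 Γ2 h.ge, ← h, show (2 : ℝ) * (1 / 2) = 1 by norm_num,
      show (2 : ℝ) - 1 = 1 by norm_num, he]

/-! ### The half sphere as a round ball -/

section ball

variable {V : Type} [NormedAddCommGroup V] [NormedSpace ℝ V] (T : E ι →L[ℝ] V)

/-- The map from the round ball onto the half sphere. -/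
noncomputable def Phi (j : ι) (ε : ℝ) (y : E ι) : E ι :=
  update ((min 1 (2 * ‖T y‖) / ‖y‖) • y) j (ε * min 1 (2 - 2 * ‖T y‖))

variable {T} {j : ι} {ε : ℝ}

theorem rho_le (y : E ι) : min 1 (2 * ‖T y‖) ≤ 2 * ‖T‖ * ‖y‖ :=
  (min_le_right _ _).trans (by rw [mul_assoc]; linarith only [T.le_opNorm y])

theorem T_lip (y y' : E ι) : |‖T y‖ - ‖T y'‖| ≤ ‖T‖ * dist y y' := by
  refine (abs_norm_sub_norm_le _ _).trans ?_
  rw [← map_sub, dist_eq_norm]
  exact T.le_opNorm _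

theorem Phi_upd {y : E ι} (hy : y j = 0) :
    update (Phi T j ε y) j 0 = (min 1 (2 * ‖T y‖) / ‖y‖) • y := by
  rw [Phi, update_idem, upd_zero (by simp [hy])]

theorem Phi_upd_norm {y : E ι} (hy : y j = 0) :
    ‖update (Phi T j ε y) j 0‖ = min 1 (2 * ‖T y‖) := by
  rw [Phi_upd hy, rad_norm (by positivity) (rho_le y)]

theorem Phi_j (hε : ε = 1 ∨ ε = -1) (y : E ι) : ε * Phi T j ε y j = min 1 (2 - 2 * ‖T y‖) := by
  rw [Phi, update_self, ← mul_assoc, sq_sg hε, one_mul]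

theorem Phi_mem (hε : ε = 1 ∨ ε = -1) {y : E ι} (hy : y j = 0) (h1 : ‖T y‖ ≤ 1) :
    ‖Phi T j ε y‖ = 1 ∧ 0 ≤ ε * Phi T j ε y j := by
  have a1 : 0 ≤ min 1 (2 - 2 * ‖T y‖) := le_min zero_le_one (by linarith only [h1])
  refine ⟨?_, by rw [Phi_j hε]; exact a1⟩
  rw [norm_split _ j, Phi_upd_norm hy, Phi, update_self, abs_mul, abs_sg hε, one_mul,
    abs_of_nonneg a1]
  refine le_antisymm (max_le (min_le_left _ _) (min_le_left _ _)) ?_
  rcases le_total 1 (2 * ‖T y‖) with a | a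
  · exact le_max_of_le_left (le_min le_rfl a)
  · exact le_max_of_le_right (le_min le_rfl (by linarith only [a]))

theorem Phi_inj (hT : ∀ y, ‖y‖ ≤ ‖T y‖) (hε : ε = 1 ∨ ε = -1) {y y' : E ι} (hy : y j = 0)
    (hy' : y' j = 0) (h : Phi T j ε y = Phi T j ε y') : y = y' := by
  have a1 : min 1 (2 * ‖T y‖) = min 1 (2 * ‖T y'‖) := by
    rw [← Phi_upd_norm (ε := ε) hy, h, Phi_upd_norm hy']
  have a2 : min 1 (2 - 2 * ‖T y‖) = min 1 (2 - 2 * ‖T y'‖) := by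
    rw [← Phi_j (j := j) hε, h, Phi_j hε]
  have a3 : ‖T y‖ = ‖T y'‖ := by
    simp only [min_def] at a1 a2
    split_ifs at a1 a2 <;> linarith
  have a4 : (min 1 (2 * ‖T y‖) / ‖y‖) • y = (min 1 (2 * ‖T y‖) / ‖y'‖) • y' := by
    rw [← Phi_upd (ε := ε) hy, h, Phi_upd hy', a1]
  rcases (norm_nonneg (T y)).lt_or_eq with b | b
  · have b1 : 0 < min 1 (2 * ‖T y‖) := lt_min one_pos (by linarith only [b])
    have b2 : 0 < ‖y‖ := norm_pos_iff.2 fun e => by simp [e] at b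
    have b3 : 0 < ‖y'‖ := norm_pos_iff.2 fun e => by rw [a3, e] at b; simp at b
    have a5 := congrArg (fun x => ‖T x‖) a4
    simp only [map_smul, norm_smul, Real.norm_eq_abs] at a5
    rw [abs_of_pos (div_pos b1 b2), abs_of_pos (div_pos b1 b3), ← a3] at a5
    rw [← mul_right_cancel₀ b.ne' a5] at a4
    exact smul_right_injective _ (div_pos b1 b2).ne' a4
  · have b1 := hT y
    have b2 := hT y'
    rw [norm_le_zero_iff.1 (show ‖y‖ ≤ 0 by linarith only [b, b1]),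
      norm_le_zero_iff.1 (show ‖y'‖ ≤ 0 by linarith only [a3, b, b2])]

theorem Phi_sur (hT : ∀ y, ‖y‖ ≤ ‖T y‖) (hε : ε = 1 ∨ ε = -1) {x : E ι} (hx : ‖x‖ = 1)
    (hj : 0 ≤ ε * x j) : ∃ y, y j = 0 ∧ ‖T y‖ ≤ 1 ∧ Phi T j ε y = x := by
  have a1 : |x j| = ε * x j := by
    rw [← abs_of_nonneg hj, abs_mul, abs_sg hε, one_mul]
  have a2 := norm_split x j
  rw [hx, a1] at a2
  have a3 : x j = ε * (ε * x j) := by rw [← mul_assoc, sq_sg hε, one_mul]
  set x' := update x j 0 with hx'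
  have a4 : ‖x'‖ ≤ 1 := a2 ▸ le_max_left _ _
  have a5 : ε * x j ≤ 1 := a2 ▸ le_max_right _ _
  have a6 : ‖x'‖ = 1 ∨ ε * x j = 1 := by
    rcases max_choice ‖x'‖ (ε * x j) with b | b
    · exact Or.inl (b ▸ a2.symm)
    · exact Or.inr (b ▸ a2.symm)
  have a7 : update x' j (x j) = x := by rw [hx', update_idem, update_eq_self]
  rcases (norm_nonneg x').lt_or_eq with b | b
  · have b1 : 0 < ‖T x'‖ := b.trans_le (hT _)
    obtain ⟨r, r0, r1, r2, r3⟩ : ∃ r : ℝ, 0 < r ∧ r ≤ 1 ∧ min 1 (2 * r) = ‖x'‖ ∧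
        min 1 (2 - 2 * r) = ε * x j := by
      rcases a6 with c | c
      · exact ⟨1 - ε * x j / 2, by linarith only [a5], by linarith only [hj], by
          rw [c]; exact min_eq_left (by linarith only [a5]), by
          rw [min_eq_right (by linarith only [a5])]; ring⟩
      · exact ⟨‖x'‖ / 2, by linarith only [b], by linarith only [a4], by
          rw [min_eq_right (by linarith only [a4])]; ring, by rw [c]; exact min_eq_left (by linarith only [a4])⟩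
    have b2 : ‖T ((r / ‖T x'‖) • x')‖ = r := by
      rw [map_smul, norm_smul, Real.norm_eq_abs, abs_of_pos (div_pos r0 b1),
        div_mul_cancel₀ _ b1.ne']
    refine ⟨(r / ‖T x'‖) • x', by simp [hx'], b2.le.trans r1, ?_⟩
    rw [Phi, b2, r2, r3, ← a3, norm_smul, Real.norm_eq_abs, abs_of_pos (div_pos r0 b1), smul_smul,
      show ‖x'‖ / (r / ‖T x'‖ * ‖x'‖) * (r / ‖T x'‖) = 1 by field_simp, one_smul, a7]
  · have b1 : x' = 0 := norm_eq_zero.1 b.symm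
    have b2 : ε * x j = 1 := a6.resolve_left (by rw [← b]; norm_num)
    refine ⟨0, rfl, by simp, ?_⟩
    rw [← a7, b1, a3, b2]
    simp [Phi]

theorem Phi_lip (hε : ε = 1 ∨ ε = -1) (y y' : E ι) :
    dist (Phi T j ε y) (Phi T j ε y') ≤ 6 * ‖T‖ * dist y y' := by
  have a1 := T_lip (T := T) y y'
  have a2 : 0 ≤ ‖T‖ * dist y y' := by positivity
  refine dist_update ?_ ?_
  · rw [dist_eq_norm]
    refine (rad_lip (by positivity) (by positivity) (by positivity) (rho_le y) (rho_le y')).trans ?_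
    have a3 := abs_min_sub_min_le_max 1 (2 * ‖T y‖) 1 (2 * ‖T y'‖)
    rw [sub_self, abs_zero, max_eq_right (abs_nonneg _)] at a3
    have a4 := lip_lo ‖T y‖ ‖T y'‖
    rw [← dist_eq_norm]
    linarith only [a1, a3, a4]
  · have a3 := abs_min_sub_min_le_max 1 (2 - 2 * ‖T y‖) 1 (2 - 2 * ‖T y'‖)
    rw [sub_self, abs_zero, max_eq_right (abs_nonneg _)] at a3
    have a4 := lip_hi ‖T y‖ ‖T y'‖
    rw [← mul_sub, abs_mul, abs_sg hε]
    linarith only [a1, a2, a3, a4]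

theorem rad_lo {a a' : V} {μ μ' : ℝ} (h : 1 ≤ μ) (h' : 0 ≤ μ') :
    ‖a - a'‖ ≤ 2 * ‖μ • a - μ' • a'‖ + |‖a‖ - ‖a'‖| := by
  have m0 : 0 < μ := one_pos.trans_le h
  have e : μ • (a - a') = (μ • a - μ' • a') + (μ' - μ) • a' := by module
  have a1 := norm_add_le (μ • a - μ' • a') ((μ' - μ) • a')
  rw [← e, norm_smul, norm_smul, Real.norm_of_nonneg m0.le, Real.norm_eq_abs] at a1
  have a2 := abs_norm_sub_norm_le (μ • a) (μ' • a')
  rw [norm_smul, norm_smul, Real.norm_of_nonneg m0.le, Real.norm_of_nonneg h'] at a2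
  have a3 : |μ' - μ| * ‖a'‖ ≤ |μ * ‖a‖ - μ' * ‖a'‖| + μ * |‖a‖ - ‖a'‖| := by
    rw [← abs_of_nonneg (norm_nonneg a'), ← abs_mul, abs_of_nonneg (norm_nonneg a'),
      show (μ' - μ) * ‖a'‖ = -(μ * ‖a‖ - μ' * ‖a'‖) + μ * (‖a‖ - ‖a'‖) by ring]
    refine (abs_add_le _ _).trans ?_
    rw [abs_neg, abs_mul, abs_of_pos m0]
  have a4 := le_mul_of_one_le_left (norm_nonneg (μ • a - μ' • a')) h
  refine le_of_mul_le_mul_left ?_ m0
  linarith only [a1, a2, a3, a4]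

theorem Phi_scale (hT : ∀ y, ‖y‖ ≤ ‖T y‖) {y : E ι} (hy : y j = 0) (h1 : ‖T y‖ ≤ 1) :
    ∃ μ : ℝ, 1 ≤ μ ∧ update (Phi T j ε y) j 0 = μ • y := by
  rw [Phi_upd hy]
  rcases (norm_nonneg y).lt_or_eq with b | b
  · exact ⟨_, (one_le_div b).2 (le_min ((hT y).trans h1)
      (by linarith only [hT y, norm_nonneg (T y)])), rfl⟩
  · exact ⟨1, le_rfl, by rw [norm_eq_zero.1 b.symm, smul_zero, smul_zero]⟩

theorem Phi_rad (hε : ε = 1 ∨ ε = -1) {y : E ι} (hy : y j = 0) :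
    2 * ‖T y‖ = ‖update (Phi T j ε y) j 0‖ - ε * Phi T j ε y j + 1 := by
  rw [Phi_upd_norm hy, Phi_j hε]
  simp only [min_def]
  split_ifs <;> linarith

/-- The inverse of `Phi` is Lipschitz. -/
theorem Phi_lo (hT : ∀ y, ‖y‖ ≤ ‖T y‖) (hε : ε = 1 ∨ ε = -1) {y y' : E ι} (hy : y j = 0)
    (h1 : ‖T y‖ ≤ 1) (hy' : y' j = 0) (h1' : ‖T y'‖ ≤ 1) :
    dist y y' ≤ (2 * ‖T‖ + 1) * dist (Phi T j ε y) (Phi T j ε y') := by
  obtain ⟨μ, m1, e⟩ := Phi_scale (ε := ε) hT hy h1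
  obtain ⟨μ', m1', e'⟩ := Phi_scale (ε := ε) hT hy' h1'
  have a1 : dist (update (Phi T j ε y) j 0) (update (Phi T j ε y') j 0) ≤
      dist (Phi T j ε y) (Phi T j ε y') :=
    dist_update le_rfl (by rw [sub_self, abs_zero]; exact dist_nonneg)
  rw [dist_eq_norm] at a1
  have a2 := abs_le.1 ((abs_norm_sub_norm_le _ _).trans a1)
  have a3 : |ε * Phi T j ε y j - ε * Phi T j ε y' j| ≤ dist (Phi T j ε y) (Phi T j ε y') := by
    rw [← mul_sub, abs_mul, abs_sg hε, one_mul, ← Real.dist_eq]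
    exact dist_le_pi_dist _ _ j
  have a4 := abs_le.1 a3
  have a5 := Phi_rad (T := T) hε hy
  have a6 := Phi_rad (T := T) hε hy'
  have a7 : |‖T y‖ - ‖T y'‖| ≤ dist (Phi T j ε y) (Phi T j ε y') :=
    abs_le.2 ⟨by linarith only [a2.1, a4.2, a5, a6], by linarith only [a2.2, a4.1, a5, a6]⟩
  have a8 := rad_lo (a := T y) (a' := T y') m1 (zero_le_one.trans m1')
  rw [← map_smul, ← map_smul, ← map_sub, ← map_sub, ← e, ← e'] at a8
  have a9 := (T.le_opNorm _).trans (mul_le_mul_of_nonneg_left a1 (norm_nonneg T))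
  rw [dist_eq_norm y]
  linarith only [hT (y - y'), a7, a8, a9]

/-- The point of the round sphere on the ray of `v`. -/
noncomputable def un (T : E ι →L[ℝ] V) (v : E ι) : E ι := ‖T v‖⁻¹ • v

theorem un_T (hT : ∀ y, ‖y‖ ≤ ‖T y‖) {v : E ι} (hv : ‖v‖ = 1) : ‖T (un T v)‖ = 1 := by
  have : 0 < ‖T v‖ := one_pos.trans_le (hv ▸ hT v)
  rw [un, map_smul, norm_smul, norm_inv, norm_norm, inv_mul_cancel₀ this.ne']

theorem un_norm {v : E ι} (hv : ‖v‖ = 1) : ‖un T v‖ = ‖T v‖⁻¹ := by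
  rw [un, norm_smul, norm_inv, norm_norm, hv, mul_one]

theorem un_back (hT : ∀ y, ‖y‖ ≤ ‖T y‖) {v : E ι} (hv : ‖v‖ = 1) : ‖un T v‖⁻¹ • un T v = v := by
  have : 0 < ‖T v‖ := one_pos.trans_le (hv ▸ hT v)
  rw [un_norm hv, inv_inv, un, smul_smul, mul_inv_cancel₀ this.ne', one_smul]

theorem Phi_un (hT : ∀ y, ‖y‖ ≤ ‖T y‖) {v : E ι} (hv : v ∈ Cs j) : Phi T j ε (un T v) = v := by
  rw [Phi, un_T hT hv.2, min_eq_left (by norm_num), one_div, un_back hT hv.2,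
    min_eq_right (by norm_num), show ε * (2 - 2 * 1) = 0 by ring, upd_zero hv.1]

theorem un_lip (hT : ∀ y, ‖y‖ ≤ ‖T y‖) {v v' : E ι} (hv : ‖v‖ = 1) (hv' : ‖v'‖ = 1) :
    dist (un T v) (un T v') ≤ (1 + ‖T‖) * dist v v' := by
  have a1 : 1 ≤ ‖T v‖ := hv ▸ hT v
  have a2 : 1 ≤ ‖T v'‖ := hv' ▸ hT v'
  have a3 := T_lip (T := T) v' v
  have e : un T v - un T v' = ‖T v‖⁻¹ • (v - v') + (‖T v‖⁻¹ - ‖T v'‖⁻¹) • v' := by
    rw [un, un, smul_sub, sub_smul]; abel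
  have b1 : ‖‖T v‖⁻¹ • (v - v')‖ ≤ dist v v' := by
    rw [norm_smul, norm_inv, norm_norm, dist_eq_norm]
    exact mul_le_of_le_one_left (norm_nonneg _) (inv_le_one_of_one_le₀ a1)
  have b2 : ‖(‖T v‖⁻¹ - ‖T v'‖⁻¹) • v'‖ ≤ ‖T‖ * dist v v' := by
    rw [norm_smul, hv', mul_one, Real.norm_eq_abs, inv_sub_inv (by linarith only [a1]) (by linarith only [a2]), abs_div,
      abs_of_pos (show 0 < ‖T v‖ * ‖T v'‖ by positivity), dist_comm]
    exact (div_le_self (abs_nonneg _) (one_le_mul_of_one_le_of_one_le a1 a2)).trans a3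
  rw [dist_eq_norm, e]
  refine (norm_add_le _ _).trans ?_
  linarith only [b1, b2]

theorem seg_T {c u : E ι} (hc : ‖T c‖ ≤ 1) (hu : ‖T u‖ ≤ 1) {t : ℝ} (ht : t ∈ Icc (0 : ℝ) 1) :
    ‖T ((1 - t) • c + t • u)‖ ≤ 1 := by
  rw [map_add, map_smul, map_smul]
  refine (norm_add_le _ _).trans ?_
  rw [norm_smul, norm_smul, Real.norm_of_nonneg ht.1, Real.norm_of_nonneg (sub_nonneg.2 ht.2)]
  nlinarith only [ht.1, ht.2, hc, hu]

theorem seg_sur (hT : ∀ y, ‖y‖ ≤ ‖T y‖) {c y : E ι} (hc : ‖T c‖ ≤ 1) (hy : ‖T y‖ ≤ 1)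
    (cj : c j = 0) (yj : y j = 0) (hne : y ≠ c) :
    ∃ t ∈ Icc (0 : ℝ) 1, ∃ v ∈ Cs j, (1 - t) • c + t • un T v = y := by
  have a1 : 0 < ‖T (y - c)‖ := (norm_pos_iff.2 (sub_ne_zero.2 hne)).trans_le (hT _)
  have a2 : 1 ≤ 1 + 2 / ‖T (y - c)‖ := le_add_of_nonneg_right (by positivity)
  have a3 : Continuous fun l : ℝ => ‖T (c + l • (y - c))‖ := by fun_prop
  obtain ⟨l, hl, e⟩ := intermediate_value_Icc a2 a3.continuousOn (show (1 : ℝ) ∈ Icc _ _ from ⟨by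
    simpa using hy, by
    have b1 := norm_sub_le (T (c + (1 + 2 / ‖T (y - c)‖) • (y - c))) (T c)
    rw [← map_sub, add_sub_cancel_left, map_smul, norm_smul, Real.norm_of_nonneg (by positivity),
      add_mul, div_mul_cancel₀ _ a1.ne'] at b1
    linarith only [hc, a1, b1]⟩)
  simp only at e
  set u := c + l • (y - c) with hu
  have l0 : 0 < l := one_pos.trans_le hl.1
  have u0 : 0 < ‖u‖ := norm_pos_iff.2 fun h0 => by rw [h0] at e; simp at e
  have e1 : un T (‖u‖⁻¹ • u) = u := by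
    rw [un, map_smul, norm_smul, e, mul_one, norm_inv, norm_norm, inv_inv, smul_smul,
      mul_inv_cancel₀ u0.ne', one_smul]
  refine ⟨l⁻¹, ⟨by positivity, inv_le_one_of_one_le₀ hl.1⟩, ‖u‖⁻¹ • u, ⟨by simp [hu, cj, yj], by
    rw [norm_smul, norm_inv, norm_norm, inv_mul_cancel₀ u0.ne']⟩, ?_⟩
  rw [e1, hu, smul_add, smul_smul, inv_mul_cancel₀ l0.ne', one_smul, sub_smul, one_smul]
  abel

theorem seg_lt [StrictConvexSpace ℝ V] (hT : ∀ y, ‖y‖ ≤ ‖T y‖) {c u u' : E ι} (hc : ‖T c‖ ≤ 1)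
    (hu : ‖T u‖ = 1) (hu' : ‖T u'‖ = 1) {t t' : ℝ} (t0 : 0 ≤ t) (h : t < t')
    (hne : (1 - t) • c + t • u ≠ c) (he : (1 - t') • c + t' • u' = (1 - t) • c + t • u) :
    False := by
  have a1 : 0 < t := t0.lt_of_ne fun e => hne (by rw [← e]; simp)
  have a2 : 0 < t' := a1.trans h
  have a3 : T c ≠ T u := fun e => hne (by
    have b1 := hT (c - u)
    rw [map_sub, e, sub_self, norm_zero, norm_le_zero_iff, sub_eq_zero] at b1
    rw [← b1, ← add_smul, sub_add_cancel, one_smul])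
  have a4 : u' = (1 - t / t') • c + (t / t') • u := by
    refine smul_right_injective _ a2.ne' ?_
    simp only
    rw [smul_add, smul_smul, smul_smul, mul_sub, mul_one, mul_div_cancel₀ _ a2.ne',
      eq_sub_of_add_eq' he]
    module
  have a5 := norm_combo_lt_of_ne hc hu.le a3 (sub_pos.2 ((div_lt_one a2).2 h)) (div_pos a1 a2)
    (sub_add_cancel _ _)
  rw [← map_smul, ← map_smul, ← map_add, ← a4, hu'] at a5
  exact lt_irrefl _ a5

theorem seg_time {c u u' : E ι} {η n n' : ℝ} (hu : ‖T u‖ = 1) (hu' : ‖T u'‖ = 1)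
    (hm : ‖T (c + u)‖ ≤ 2 - η) (h0 : 0 ≤ n') (h1 : n ≤ n') (h2 : n' ≤ 2 * n) :
    η * (n' - n) ≤ ‖T‖ * dist ((1 - n') • c + n' • u') ((1 - n) • c + n • u) := by
  have e : n' • u' = ((1 - n') • c + n' • u' - ((1 - n) • c + n • u)) +
      ((n' - n) • (c + u) + (2 * n - n') • u) := by module
  have a1 : ‖T (n' • u')‖ = n' := by
    rw [map_smul, norm_smul, hu', mul_one, Real.norm_of_nonneg h0]
  rw [e, map_add, map_add] at a1
  have a2 := norm_add_le (T ((1 - n') • c + n' • u' - ((1 - n) • c + n • u)))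
    (T ((n' - n) • (c + u)) + T ((2 * n - n') • u))
  have a3 := norm_add_le (T ((n' - n) • (c + u))) (T ((2 * n - n') • u))
  have a4 : ‖T ((n' - n) • (c + u))‖ ≤ (n' - n) * (2 - η) := by
    rw [map_smul, norm_smul, Real.norm_of_nonneg (sub_nonneg.2 h1)]
    exact mul_le_mul_of_nonneg_left hm (sub_nonneg.2 h1)
  have a5 : ‖T ((2 * n - n') • u)‖ = 2 * n - n' := by
    rw [map_smul, norm_smul, hu, mul_one, Real.norm_of_nonneg (sub_nonneg.2 h2)]
  have a6 := T.le_opNorm ((1 - n') • c + n' • u' - ((1 - n) • c + n • u))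
  rw [dist_eq_norm]
  linarith only [a1, a2, a3, a4, a5, a6]

/-- Away from the centre, the polar coordinates are locally Lipschitz functions of the point. -/
theorem seg_lo [StrictConvexSpace ℝ V] (hT : ∀ y, ‖y‖ ≤ ‖T y‖) {i0 : ι} {c : E ι}
    {L : E ι → E ι} (hL : IsSP L) (hb : BijOn L (Cs i0) (Cs j)) (hc : ‖T c‖ ≤ 1)
    {z : ℝ × E ι} (hz : z ∈ Icc (0 : ℝ) 1 ×ˢ Cs i0)
    (hne : (1 - z.1) • c + z.1 • un T (L z.2) ≠ c) :
    Dm (Icc (0 : ℝ) 1 ×ˢ Cs i0) (fun _ => True) (fun w => w)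
      (fun w => (1 - w.1) • c + w.1 • un T (L w.2)) z := by
  have iL : Isometry L := Isometry.of_dist_eq hL.dist
  have cL := iL.continuous
  have u1 : ∀ w ∈ Icc (0 : ℝ) 1 ×ˢ Cs i0, ‖T (un T (L w.2))‖ = 1 := fun w hw =>
    un_T hT (hb.mapsTo hw.2).2
  have n0 : 0 < z.1 := hz.1.1.lt_of_ne fun e => hne (by rw [← e]; simp)
  have a3 : T c ≠ T (un T (L z.2)) := fun e => hne (by
    have b1 := hT (c - un T (L z.2))
    rw [map_sub, e, sub_self, norm_zero, norm_le_zero_iff, sub_eq_zero] at b1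
    rw [← b1, ← add_smul, sub_add_cancel, one_smul])
  have a4 : ‖T (c + un T (L z.2))‖ < 2 := by
    have b1 := norm_combo_lt_of_ne hc (u1 z hz).le a3 one_half_pos one_half_pos (add_halves 1)
    rw [← smul_add, norm_smul, Real.norm_of_nonneg one_half_pos.le, ← map_add] at b1
    linarith only [b1]
  have t0 : ‖T (L z.2)‖ ≠ 0 := (one_pos.trans_le ((hb.mapsTo hz.2).2 ▸ hT (L z.2))).ne'
  have cu : ContinuousAt (fun w : ℝ × E ι => un T (L w.2)) z := by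
    have b1 : Continuous fun w : ℝ × E ι => L w.2 := cL.comp continuous_snd
    exact ContinuousAt.smul (ContinuousAt.inv₀ (f := fun w : ℝ × E ι => ‖T (L w.2)‖)
      (T.continuous.comp b1).norm.continuousAt t0) b1.continuousAt
  have u0 : ‖un T (L z.2)‖ ≠ 0 := by
    rw [un_norm (hb.mapsTo hz.2).2]; exact inv_ne_zero t0
  obtain ⟨η, η0, hη⟩ : ∃ η : ℝ, 0 < η ∧ ‖T (c + un T (L z.2))‖ < 2 - η :=
    ⟨(2 - ‖T (c + un T (L z.2))‖) / 2, by linarith only [a4], by linarith only [a4]⟩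
  have c1 : ContinuousAt (fun w : ℝ × E ι => w.1) z := continuousAt_fst
  have cm : ContinuousAt (fun w : ℝ × E ι => ‖T (c + un T (L w.2))‖) z :=
    (T.continuous.continuousAt.comp (continuousAt_const.add cu)).norm
  have ev : ∀ᶠ w : ℝ × E ι in 𝓝 z, 2 * z.1 / 3 < w.1 ∧ w.1 < 4 * z.1 / 3 ∧
      ‖T (c + un T (L w.2))‖ < 2 - η :=
    (c1.eventually (lt_mem_nhds (by linarith only [n0]))).and
      ((c1.eventually (gt_mem_nhds (by linarith only [n0]))).and (cm.eventually (gt_mem_nhds hη)))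
  have h1 : Dm (Icc (0 : ℝ) 1 ×ˢ Cs i0) (fun _ => True) (fun w => w.1)
      (fun w => (1 - w.1) • c + w.1 • un T (L w.2)) z := by
    refine Dm.of_nhds (K := ‖T‖ / η) (nhdsWithin_le_nhds ev) fun w hw a v hv b => ?_
    rw [div_mul_eq_mul_div, le_div_iff₀ η0, mul_comm, Real.dist_eq]
    rcases le_total w.1 v.1 with k | k
    · rw [abs_of_nonneg (sub_nonneg.2 k)]
      exact seg_time (u1 w hw) (u1 v hv) a.2.2.le hv.1.1 k (by linarith only [a.1, b.2.1])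
    · rw [abs_sub_comm, abs_of_nonneg (sub_nonneg.2 k), dist_comm]
      exact seg_time (u1 v hv) (u1 w hw) b.2.2.le hw.1.1 k (by linarith only [b.1, a.2.1])
  have cy : ContinuousAt (fun w : ℝ × E ι => (1 - w.1) • c + w.1 • un T (L w.2) - c) z :=
    (((continuousAt_const.sub c1).smul continuousAt_const).add (c1.smul cu)).sub continuousAt_const
  have h2 : Dm (Icc (0 : ℝ) 1 ×ˢ Cs i0) (fun _ => True) (fun w => un T (L w.2))
      (fun w => (1 - w.1) • c + w.1 • un T (L w.2)) z := by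
    refine (((h1.inv c1.continuousWithinAt n0.ne').smul (Dm.refl.sub (Dm.const c))
      (c1.inv₀ n0.ne').continuousWithinAt cy.continuousWithinAt).add (Dm.const c)).congrL_ev
      (nhdsWithin_le_nhds (ev.mono fun w a => ?_))
    have b1 : w.1 ≠ 0 := (lt_trans (by linarith only [n0]) a.1).ne'
    change _ = (w.1)⁻¹ • ((1 - w.1) • c + w.1 • un T (L w.2) - c) + c
    rw [show (1 - w.1) • c + w.1 • un T (L w.2) - c = w.1 • (un T (L w.2) - c) by module,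
      smul_smul, inv_mul_cancel₀ b1, one_smul, sub_add_cancel]
  have h3 : Dm (Icc (0 : ℝ) 1 ×ˢ Cs i0) (fun _ => True) (fun w => L w.2)
      (fun w => (1 - w.1) • c + w.1 • un T (L w.2)) z :=
    ((h2.norm.inv cu.norm.continuousWithinAt u0).smul h2 (cu.norm.inv₀ u0).continuousWithinAt
      cu.continuousWithinAt).congrL fun w hw => (un_back hT (hb.mapsTo hw.2).2).symm
  exact h1.prod (h3.uniso iL)

theorem half_gen [StrictConvexSpace ℝ V] (hT : ∀ y, ‖y‖ ≤ ‖T y‖) {i0 : ι} {s : ℝ} {p : E ι}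
    {L : E ι → E ι} (hε : ε = 1 ∨ ε = -1) (hs : s = 1 ∨ s = -1) (hL : IsSP L)
    (he : L (Pi.single i0 1) = Pi.single j s) (hp : ‖p‖ = 1) (hj : 0 ≤ ε * p j) :
    ∃ Γ, HDisp i0 (6 * ‖T‖ * (3 + ‖T‖)) j ε p L Γ := by
  obtain ⟨c, cj, cT, rfl⟩ := Phi_sur hT hε hp hj
  have hb := hL.cs hs he
  have sj : ∀ (t : ℝ), ∀ ω ∈ Cs i0, ((1 - t) • c + t • un T (L ω)) j = 0 := fun t ω hω => by
    simp [un, cj, (hb.mapsTo hω).1]
  have hm : ∀ n ∈ Icc (0 : ℝ) 1, ∀ ω ∈ Cs i0,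
      ‖Phi T j ε ((1 - n) • c + n • un T (L ω))‖ = 1 ∧
        0 ≤ ε * Phi T j ε ((1 - n) • c + n • un T (L ω)) j := fun n hn ω hω =>
    Phi_mem hε (sj n ω hω) (seg_T cT (un_T hT (hb.mapsTo hω).2).le hn)
  refine ⟨fun z => Phi T j ε ((1 - z.1) • c + z.1 • un T (L z.2)),
    sol_of_lip (Γ := fun z => Phi T j ε ((1 - z.1) • c + z.1 • un T (L z.2)))
      (S := {x | ‖x‖ = 1 ∧ 0 ≤ ε * x j}) hm (fun y hy hne => ?_)
      (fun n hn ω hω n' hn' ω' hω' h1 h2 => ?_)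
      (fun z hz z' hz' => ?_) (fun z hz h1 => (seg_lo hT hL hb cT hz fun e => h1 (by
        simp only [e])).trans (Dm.refl.unlipOn (φ := Phi T j ε) (S := {y | y j = 0 ∧ ‖T y‖ ≤ 1})
          (eventually_nhdsWithin_of_forall fun w hw =>
            ⟨sj w.1 w.2 hw.2, seg_T cT (un_T hT (hb.mapsTo hw.2).2).le hw.1⟩)
          fun _ a _ b => Phi_lo hT hε a.1 a.2 b.1 b.2)), hm, fun ω hω => ⟨by simp, ?_⟩⟩
  · obtain ⟨x, xj, xT, rfl⟩ := Phi_sur hT hε hy.1 hy.2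
    obtain ⟨t, ht, v, hv, e⟩ := seg_sur hT cT xT cj xj fun e => hne (by rw [e])
    obtain ⟨ω, hω, rfl⟩ := hb.surjOn hv
    exact ⟨t, ht, ω, hω, by rw [← e]⟩
  · have a1 := Phi_inj hT hε (sj n' ω' hω') (sj n ω hω) h2
    have a2 : (1 - n) • c + n • un T (L ω) ≠ c := fun e => h1 (by simp only [e])
    have u1 := un_T hT (hb.mapsTo hω).2
    have u2 := un_T hT (hb.mapsTo hω').2
    have a3 : n' = n := by
      rcases lt_trichotomy n n' with a | a | a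
      · exact (seg_lt hT cT u1 u2 hn.1 a a2 a1).elim
      · exact a.symm
      · exact (seg_lt hT cT u2 u1 hn'.1 a (a1 ▸ a2) a1.symm).elim
    subst a3
    have a4 : n' ≠ 0 := fun e => a2 (by rw [e]; simp)
    have a5 : un T (L ω') = un T (L ω) := smul_right_injective _ a4 (add_left_cancel a1)
    refine ⟨rfl, hb.injOn hω' hω ?_⟩
    rw [← un_back hT (hb.mapsTo hω').2, a5, un_back hT (hb.mapsTo hω).2]
  · refine (Phi_lip hε _ _).trans ?_
    rw [mul_assoc (6 * ‖T‖)]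
    refine mul_le_mul_of_nonneg_left ?_ (by positivity)
    have a1 := un_lip hT (hb.mapsTo hz'.2).2 (hb.mapsTo hz.2).2
    rw [hL.dist] at a1
    have a2 : ‖un T (L z.2) - c‖ ≤ 2 := by
      have b1 := (hT _).trans (un_T hT (hb.mapsTo hz.2).2).le
      have b2 := (hT _).trans cT
      linarith only [norm_sub_le (un T (L z.2)) c, b1, b2]
    have e : (1 - z'.1) • c + z'.1 • un T (L z'.2) - ((1 - z.1) • c + z.1 • un T (L z.2)) =
        z'.1 • (un T (L z'.2) - un T (L z.2)) + (z'.1 - z.1) • (un T (L z.2) - c) := by module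
    have a3 : |z'.1 - z.1| ≤ dist z' z := by
      rw [Prod.dist_eq, ← Real.dist_eq]; exact le_max_left _ _
    have a4 : dist z'.2 z.2 ≤ dist z' z := by rw [Prod.dist_eq]; exact le_max_right _ _
    have a5 := mul_le_mul_of_nonneg_left a4 (show 0 ≤ 1 + ‖T‖ by positivity)
    have a6 := mul_le_mul a3 a2 (norm_nonneg _) dist_nonneg
    have a7 := mul_le_of_le_one_left (norm_nonneg (un T (L z'.2) - un T (L z.2))) hz'.1.2
    rw [dist_eq_norm] at a1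
    rw [dist_eq_norm, e]
    refine (norm_add_le _ _).trans ?_
    rw [norm_smul, norm_smul, Real.norm_of_nonneg hz'.1.1, Real.norm_eq_abs]
    linarith only [a1, a5, a6, a7]
  · simp only [sub_self, zero_smul, one_smul, zero_add]
    exact Phi_un hT (hb.mapsTo hω)

end ball

/-! ### Stretching a half sphere -/

/-- Stretch the half on the side of `-δ`. -/
noncomputable def str (j : ι) (δ : ℝ) (x : E ι) : E ι := update x j (2 * x j + δ)

/-- The display of a half box. -/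
noncomputable def disp1 (j : ι) (δ : ℝ) (L : E ι → E ι) (Γ : ℝ × E ι → E ι) (z : ℝ × E ι) : E ι :=
  if z.1 ≤ 1 / 2 then str j δ (Γ (2 * z.1, z.2))
  else Pi.single j δ + max 0 ((7 - 8 * z.1) / 3) • L z.2

variable {i0 j : ι} {δ K : ℝ} {L : E ι → E ι} {p : E ι} {Γ : ℝ × E ι → E ι}

theorem hf_str (x : E ι) : hf j (-δ) (str j δ x) = x := by
  rw [hf, str, update_idem, update_self, show (2 * x j + δ + -δ) / 2 = x j by ring,
    update_eq_self]

theorem str_hf (x : E ι) : str j δ (hf j (-δ) x) = x := by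
  rw [hf, str, update_idem, update_self, show 2 * ((x j + -δ) / 2) + δ = x j by ring,
    update_eq_self]

theorem str_inj : Injective (str j δ) := LeftInverse.injective hf_str

theorem str_lip (x y : E ι) : dist (str j δ x) (str j δ y) ≤ 2 * dist x y := by
  refine dist_update (by linarith only [dist_nonneg (x := x) (y := y)]) ?_
  have := dist_le_pi_dist x y j
  rw [add_sub_add_right_eq_sub]
  exact (lip_lo _ _).trans (by rw [← Real.dist_eq]; linarith only [this])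

theorem str_exp (x y : E ι) : dist x y ≤ dist (str j δ x) (str j δ y) := by
  refine (dist_pi_le_iff dist_nonneg).2 fun i => le_trans ?_ (dist_le_pi_dist _ _ i)
  by_cases e : i = j
  · rw [e, str, str, update_self, update_self, Real.dist_eq, Real.dist_eq, add_sub_add_right_eq_sub]
    exact exp_lo _ _
  · rw [str, str, update_of_ne e, update_of_ne e]

theorem str_norm (hδ : δ = 1 ∨ δ = -1) {x : E ι} (hx : ‖x‖ = 1) (hj : 0 ≤ -δ * x j) :
    ‖str j δ x‖ = 1 := by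
  rw [norm_split x j] at hx
  have a1 : ‖update x j 0‖ ≤ 1 := hx ▸ le_max_left _ _
  have a2 := abs_le.1 (hx ▸ le_max_right _ _ : |x j| ≤ 1)
  rw [str, norm_update]
  refine le_antisymm (max_le a1 ?_) ?_
  · rcases hδ with h | h <;> rw [h] at hj ⊢ <;> exact abs_le.2 ⟨by linarith only [a2, hj], by linarith only [hj, a2]⟩
  · rcases max_choice ‖update x j 0‖ |x j| with b | b
    · exact le_max_of_le_left (b ▸ hx.ge)
    · refine le_max_of_le_right ?_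
      rw [b, abs_eq zero_le_one] at hx
      rw [le_abs]
      rcases hδ with h | h <;> rw [h] <;> rcases hx with c | c <;> rw [c] <;> norm_num

theorem hf_mem (hδ : δ = 1 ∨ δ = -1) {x : E ι} (hx : ‖x‖ = 1) (hj : x j ≠ δ) :
    ‖hf j (-δ) x‖ = 1 ∧ 0 ≤ -δ * hf j (-δ) x j := by
  rw [norm_split x j] at hx
  have a1 : ‖update x j 0‖ ≤ 1 := hx ▸ le_max_left _ _
  have a2 := abs_le.1 (hx ▸ le_max_right _ _ : |x j| ≤ 1)
  rw [hf, norm_update, update_self]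
  refine ⟨le_antisymm (max_le a1 ?_) ?_, ?_⟩
  · rcases hδ with h | h <;> rw [h] <;> exact abs_le.2 ⟨by linarith only [a2], by linarith only [a2]⟩
  · rcases max_choice ‖update x j 0‖ |x j| with b | b
    · exact le_max_of_le_left (b ▸ hx.ge)
    · refine le_max_of_le_right ?_
      rw [b, abs_eq zero_le_one] at hx
      rw [le_abs]
      rcases hδ with h | h <;> rw [h] at hj ⊢ <;> rcases hx with c | c <;> rw [c] at hj ⊢ <;>
        first | (norm_num; done) | norm_num at hj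
  · rcases hδ with h | h <;> rw [h] <;> linarith only [a2]

theorem disp1_lo {n : ℝ} (h : n ≤ 1 / 2) (ω : E ι) :
    disp1 j δ L Γ (n, ω) = str j δ (Γ (2 * n, ω)) := if_pos h

theorem disp1_hi {n : ℝ} (h : 1 / 2 ≤ n) {ω : E ι} (h0 : L ω j = 0) (he : Γ (1, ω) = L ω) :
    disp1 j δ L Γ (n, ω) = Pi.single j δ + max 0 ((7 - 8 * n) / 3) • L ω := by
  rcases h.lt_or_eq with h | h
  · exact if_neg (not_le.2 h)
  · rw [disp1_lo h.ge, ← h, show (2 : ℝ) * (1 / 2) = 1 by norm_num, he, str, h0,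
      max_eq_right (by norm_num), show ((7 : ℝ) - 8 * (1 / 2)) / 3 = 1 by norm_num, one_smul,
      single_add h0, mul_zero, zero_add]

theorem germ_sur [Nontrivial ι] (hb : BijOn L (Cs i0) (Cs j)) {y : E ι} (hy : ‖y‖ ≤ 1)
    (hj : y j = δ) : ∃ n ∈ Icc (1 / 2 : ℝ) 1, ∃ ω ∈ Cs i0,
      Pi.single j δ + max 0 ((7 - 8 * n) / 3) • L ω = y := by
  have a1 : ‖update y j 0‖ ≤ 1 := (le_max_left _ _).trans ((norm_split y j).ge.trans hy)
  have a2 : Pi.single j δ + update y j 0 = y := by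
    rw [single_add (update_self _ _ _), update_idem, ← hj, update_eq_self]
  rcases (norm_nonneg (update y j 0)).lt_or_eq with b | b
  · obtain ⟨ω, hω, e⟩ := hb.surjOn (show ‖update y j 0‖⁻¹ • update y j 0 ∈ Cs j from ⟨by simp, by
      rw [norm_smul, norm_inv, norm_norm, inv_mul_cancel₀ b.ne']⟩)
    refine ⟨(7 - 3 * ‖update y j 0‖) / 8, ⟨by linarith only [a1], by linarith only [b]⟩, ω, hω, ?_⟩
    rw [show (7 - 8 * ((7 - 3 * ‖update y j 0‖) / 8)) / 3 = ‖update y j 0‖ by ring,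
      max_eq_right b.le, e, smul_smul, mul_inv_cancel₀ b.ne', one_smul, a2]
  · obtain ⟨ω, hω⟩ := cs_nonempty i0
    refine ⟨1, ⟨by norm_num, le_rfl⟩, ω, hω, ?_⟩
    rw [max_eq_left (by norm_num), zero_smul, ← a2, norm_eq_zero.1 b.symm]

theorem germ_sol [Nontrivial ι] (hδ : δ = 1 ∨ δ = -1) (hL : IsSP L)
    (hb : BijOn L (Cs i0) (Cs j)) {Ξ : ℝ × E ι → E ι}
    (he : ∀ n ∈ Icc (1 / 2 : ℝ) 1, ∀ ω ∈ Cs i0,
      Ξ (n, ω) = Pi.single j δ + max 0 ((7 - 8 * n) / 3) • L ω) {K : ℝ} (hK : 4 ≤ K) :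
    (∀ n ∈ Icc (1 / 2 : ℝ) 1, ∀ ω ∈ Cs i0, ‖Ξ (n, ω)‖ ≤ 1 ∧ Ξ (n, ω) j = δ) ∧
      Sol ({Pi.single j δ}ᶜ : Set (E ι))
        (pbI i0 (Icc (1 / 2) 1) Ξ {y | ‖y‖ ≤ 1 ∧ y j = δ} K) univ fun z => Ξ z.2 := by
  have hn : ∀ (n : ℝ), ∀ ω ∈ Cs i0, ‖max 0 ((7 - 8 * n) / 3) • L ω‖ = max 0 ((7 - 8 * n) / 3) :=
    fun n ω hω => by
      rw [norm_smul, (hb.mapsTo hω).2, mul_one, Real.norm_of_nonneg (le_max_left _ _)]
  have hm : ∀ n ∈ Icc (1 / 2 : ℝ) 1, ∀ ω ∈ Cs i0, ‖Ξ (n, ω)‖ ≤ 1 ∧ Ξ (n, ω) j = δ := by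
    intro n h1 ω hω
    have a1 : (max 0 ((7 - 8 * n) / 3) • L ω) j = 0 := by simp [(hb.mapsTo hω).1]
    rw [he n h1 ω hω, single_add a1, norm_update, upd_zero a1, hn n ω hω, abs_sg hδ, update_self]
    exact ⟨max_le (max_le zero_le_one (by linarith only [h1.1])) le_rfl, rfl⟩
  refine ⟨hm, sol_of_lip hm (fun y hy _ => ?_) (fun n h1 ω hω n' h2 ω' hω' h3 h4 => ?_)
    (fun z hz z' hz' => ?_) fun z hz h1 => ?_⟩
  · obtain ⟨n, h1, ω, hω, e⟩ := germ_sur hb hy.1 hy.2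
    exact ⟨n, h1, ω, hω, (he n h1 ω hω).trans e⟩
  · rw [he n h1 ω hω] at h3 h4
    rw [he n' h2 ω' hω', add_right_inj] at h4
    have a1 := congrArg norm h4
    rw [hn n ω hω, hn n' ω' hω'] at a1
    have a2 : max 0 ((7 - 8 * n) / 3) ≠ 0 := fun e => h3 (by rw [e, zero_smul, add_zero])
    rw [a1] at h4
    refine ⟨?_, hb.injOn hω' hω (smul_right_injective _ a2 h4)⟩
    simp only [max_def] at a1 a2
    split_ifs at a1 a2 <;> first | linarith only [a1] | exact absurd rfl a2 | exact absurd a1.symm a2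
  · have e1 := he z.1 hz.1 z.2 hz.2
    have e2 := he z'.1 hz'.1 z'.2 hz'.2
    have a3 : |z'.1 - z.1| ≤ dist z' z := by
      rw [Prod.dist_eq, ← Real.dist_eq]; exact le_max_left _ _
    have a4 : dist z'.2 z.2 ≤ dist z' z := by rw [Prod.dist_eq]; exact le_max_right _ _
    have a5 := abs_max_sub_max_le_max 0 ((7 - 8 * z'.1) / 3) 0 ((7 - 8 * z.1) / 3)
    rw [sub_self, abs_zero, max_eq_right (abs_nonneg ((7 - 8 * z'.1) / 3 - (7 - 8 * z.1) / 3)),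
      show (7 - 8 * z'.1) / 3 - (7 - 8 * z.1) / 3 = -(8 / 3) * (z'.1 - z.1) by ring, abs_mul,
      abs_neg, abs_of_pos (show (0 : ℝ) < 8 / 3 by norm_num)] at a5
    have a6 : max 0 ((7 - 8 * z'.1) / 3) ≤ 1 := max_le zero_le_one (by linarith only [hz'.1.1])
    have a7 := mul_le_of_le_one_left (norm_nonneg (L z'.2 - L z.2)) a6
    have a8 := hL.dist z'.2 z.2
    have a9 := mul_le_mul_of_nonneg_right hK (dist_nonneg (x := z') (y := z))
    have e : max 0 ((7 - 8 * z'.1) / 3) • L z'.2 - max 0 ((7 - 8 * z.1) / 3) • L z.2 =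
        max 0 ((7 - 8 * z'.1) / 3) • (L z'.2 - L z.2) +
          (max 0 ((7 - 8 * z'.1) / 3) - max 0 ((7 - 8 * z.1) / 3)) • L z.2 := by module
    rw [dist_eq_norm] at a8
    rw [show Ξ z = _ from e1, show Ξ z' = _ from e2, dist_add_left, dist_eq_norm, e]
    refine (norm_add_le _ _).trans ?_
    rw [norm_smul, norm_smul, (hb.mapsTo hz.2).2, Real.norm_of_nonneg (le_max_left _ _),
      Real.norm_eq_abs]
    linarith only [dist_nonneg (x := z') (y := z), a3, a4, a5, a7, a8, a9]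
  · have iL : Isometry L := Isometry.of_dist_eq hL.dist
    have cL := iL.continuous
    have e1 : ∀ w ∈ Icc (1 / 2 : ℝ) 1 ×ˢ Cs i0,
        max 0 ((7 - 8 * w.1) / 3) • L w.2 = Ξ w - Pi.single j δ := fun w hw => by
      rw [show Ξ w = _ from he w.1 hw.1 w.2 hw.2, add_sub_cancel_left]
    have r0 : max 0 ((7 - 8 * z.1) / 3) ≠ 0 := fun e => h1 (by
      rw [show Ξ z = _ from he z.1 hz.1 z.2 hz.2, e, zero_smul, add_zero])
    have r1 : 0 < (7 - 8 * z.1) / 3 := not_le.1 fun e => r0 (max_eq_left e)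
    have cr : Continuous fun w : ℝ × E ι => max 0 ((7 - 8 * w.1) / 3) := by fun_prop
    have ev : ∀ᶠ w : ℝ × E ι in 𝓝 z, 0 < (7 - 8 * w.1) / 3 :=
      (show ContinuousAt (fun w : ℝ × E ι => (7 - 8 * w.1) / 3) z by fun_prop).eventually
        (lt_mem_nhds r1)
    have d1 : Dm (Icc (1 / 2 : ℝ) 1 ×ˢ Cs i0) (fun _ => True)
        (fun w => max 0 ((7 - 8 * w.1) / 3) • L w.2) Ξ z :=
      (Dm.refl.sub (Dm.const (Pi.single j δ))).congrL e1
    have d2 : Dm (Icc (1 / 2 : ℝ) 1 ×ˢ Cs i0) (fun _ => True)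
        (fun w => max 0 ((7 - 8 * w.1) / 3)) Ξ z :=
      d1.norm.congrL fun w hw => (hn w.1 w.2 hw.2).symm
    have d3 : Dm (Icc (1 / 2 : ℝ) 1 ×ˢ Cs i0) (fun _ => True) (fun w => w.1) Ξ z :=
      (((Dm.const (7 : ℝ)).sub (d2.cmul 3)).divc 8).congrL_ev
        (nhdsWithin_le_nhds (ev.mono fun w a => by rw [max_eq_right a.le]; ring))
    have d4 : Dm (Icc (1 / 2 : ℝ) 1 ×ˢ Cs i0) (fun _ => True) (fun w => L w.2) Ξ z :=
      ((d2.inv cr.continuousWithinAt r0).smul d1 (cr.continuousAt.inv₀ r0).continuousWithinAt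
        (cr.smul (cL.comp continuous_snd)).continuousWithinAt).congrL_ev
        (nhdsWithin_le_nhds (ev.mono fun w a => by
          rw [smul_smul, inv_mul_cancel₀ (lt_max_of_lt_right a).ne', one_smul]))
    exact d3.prod (d4.uniso iL)

theorem good1 [Nontrivial ι] (hK : 0 ≤ K) (hδ : δ = 1 ∨ δ = -1) (hL : IsSP L)
    (he : L (Pi.single i0 1) = Pi.single j δ) (hp : Hp p) (h : HDisp i0 K j (-δ) p L Γ) :
    GoodX i0 (4 * K + 4) (str j δ p) (Pi.single j δ) j (disp1 j δ L Γ) := by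
  have hb := hL.cs hδ he
  have hhi : ∀ n ∈ Icc (1 / 2 : ℝ) 1, ∀ ω ∈ Cs i0,
      disp1 j δ L Γ (n, ω) = Pi.single j δ + max 0 ((7 - 8 * n) / 3) • L ω := fun n hn ω hω =>
    disp1_hi hn.1 (hb.mapsTo hω).1 (h.2.2 ω hω).2
  obtain ⟨g1, g2⟩ := germ_sol hδ hL hb hhi (K := 4 * K + 4) (by linarith only [hK])
  obtain ⟨ω0, hω0⟩ := cs_nonempty i0
  have hp0 := h.2.1 0 (left_mem_Icc.2 zero_le_one) ω0 hω0
  rw [(h.2.2 ω0 hω0).1] at hp0
  refine ⟨disp_glue (by linarith only [hK]) (sol_rep hK zero_le_two h.1 bij_lo lip_lo str_inj str_lip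
    (fun n hn ω _ => disp1_lo hn.2 ω) (by linarith only []) exp_lo str_exp) g2 (fun x => ⟨fun hx => ?_, ?_⟩) ?_
    (fun n hn ω hω => ?_) g1 fun ω hω => ⟨?_, ?_⟩, ⟨str_norm hδ hp0.1 hp0.2, fun i => ?_⟩,
    fun e => ?_, hδ.imp (congrArg _) (congrArg _), L, hL, he,
    fun n hn => hhi n ⟨by linarith only [hn.1], hn.2⟩⟩
  · by_cases e : x j = δ
    · exact Or.inr ⟨hx.le, e⟩
    · exact Or.inl ⟨_, hf_mem hδ hx e, str_hf x⟩
  · rintro (⟨y, hy, rfl⟩ | hx)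
    · exact str_norm hδ hy.1 hy.2
    · refine hx.1.antisymm (le_trans ?_ (norm_le_pi_norm x j))
      rw [hx.2, Real.norm_eq_abs, abs_sg hδ]
  · rintro _ ⟨y, hy, rfl⟩ h2
    have a1 : y j = 0 := by
      have := h2.2
      rw [str, update_self] at this
      linarith only [this]
    obtain ⟨ω, hω, rfl⟩ := hb.surjOn (show y ∈ Cs j from ⟨a1, hy.1⟩)
    exact ⟨ω, hω, by
      rw [disp1_lo le_rfl, show (2 : ℝ) * (1 / 2) = 1 by norm_num, (h.2.2 ω hω).2]⟩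
  · exact ⟨_, h.2.1 _ (bij_lo.mapsTo hn) ω hω, (disp1_lo hn.2 ω).symm⟩
  · rw [disp1_lo (by norm_num), mul_zero, (h.2.2 ω hω).1]
  · rw [hhi 1 ⟨by norm_num, le_rfl⟩ ω hω, max_eq_left (by norm_num), zero_smul, add_zero]
  · obtain ⟨m, hm⟩ := hp.2 i
    by_cases e : i = j
    · subst e
      rw [str, update_self, hm]
      rcases hδ with c | c <;> rw [c]
      · exact ⟨2 * (m + 1), by push_cast; ring⟩
      · exact ⟨2 * (m - 1), by push_cast; ring⟩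
    · exact ⟨m, by rw [str, update_of_ne e, hm]⟩
  · have a1 : p = 0 := by
      rw [← hf_str (j := j) (δ := δ) p, e]
      funext i
      by_cases c : i = j <;> simp [hf, c]
    have := hp.1
    rw [a1, norm_zero] at this
    exact zero_ne_one this

end DHf

open DHf

theorem half_disp (i0 : ι) : ∃ K : ℝ, 0 ≤ K ∧ ∀ (j : ι) (ε s : ℝ) (p : E ι) (L : E ι → E ι),
    (ε = 1 ∨ ε = -1) → (s = 1 ∨ s = -1) → IsSP L → L (Pi.single i0 1) = Pi.single j s →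
      ‖p‖ = 1 → 0 ≤ ε * p j → ∃ Γ, HDisp i0 K j ε p L Γ := by
  let T : E ι →L[ℝ] EuclideanSpace ℝ ι := (EuclideanSpace.equiv ι ℝ).symm
  have hT : ∀ y, ‖y‖ ≤ ‖T y‖ := fun y =>
    (pi_norm_le_iff_of_nonneg (norm_nonneg _)).2 fun i => PiLp.norm_apply_le (T y) i
  exact ⟨6 * ‖T‖ * (3 + ‖T‖), by positivity, fun j ε s p L hε hs hL he hp hj =>
    half_gen hT hε hs hL he hp hj⟩

theorem disp_dcat {i0 j : ι} {K ε s : ℝ} (hK : 0 ≤ K) (hε : ε = 1 ∨ ε = -1) (hs : s = 1 ∨ s = -1)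
    {L : E ι → E ι} (hL : IsSP L) (he : L (Pi.single i0 1) = Pi.single j s) {p q : E ι}
    {Γ1 Γ2 : ℝ × E ι → E ι} (h1 : HDisp i0 K j (-ε) p L Γ1) (h2 : HDisp i0 K j ε q L Γ2) :
    Disp i0 (2 * K) p q (dcat Γ1 Γ2) := by
  have hb := hL.cs hs he
  have hr : ∀ ω ∈ Cs i0, Γ1 (1, ω) = Γ2 (1, ω) := fun ω hω =>
    (h1.2.2 ω hω).2.trans (h2.2.2 ω hω).2.symm
  have a1 := sol_rep (Ξ := dcat Γ1 Γ2) (K' := 2 * K) hK zero_le_one h1.1 bij_lo lip_lo
    Function.injective_id (fun _ _ => (one_mul _).ge) (fun n hn ω _ => dcat_lo Γ1 Γ2 hn.2 ω)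
    (by linarith only []) exp_lo fun _ _ => le_rfl
  have a2 := sol_rep (Ξ := dcat Γ1 Γ2) (K' := 2 * K) hK zero_le_one h2.1 bij_hi lip_hi
    Function.injective_id (fun _ _ => (one_mul _).ge) (fun n hn ω hω => dcat_hi hn.1 (hr ω hω))
    (by linarith only []) exp_hi fun _ _ => le_rfl
  rw [image_id] at a1 a2
  refine disp_glue (by linarith only [hK]) a1 a2 (fun x => ⟨fun hx => ?_, fun hx => hx.elim And.left And.left⟩)
    (fun y b1 b2 => ?_) (fun n hn ω hω => ?_) (fun n hn ω hω => ?_) fun ω hω => ⟨?_, ?_⟩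
  · rcases le_total 0 (ε * x j) with b | b
    · exact Or.inr ⟨hx, b⟩
    · exact Or.inl ⟨hx, by linarith only [b]⟩
  · have b3 : ε * y j = 0 := le_antisymm (by linarith only [b1.2]) b2.2
    have b4 : y j = 0 := by rcases hε with c | c <;> rw [c] at b3 <;> linarith only [b3]
    obtain ⟨ω, hω, rfl⟩ := hb.surjOn (show y ∈ Cs j from ⟨b4, b1.1⟩)
    exact ⟨ω, hω, by
      rw [dcat_lo Γ1 Γ2 le_rfl, show (2 : ℝ) * (1 / 2) = 1 by norm_num, (h1.2.2 ω hω).2]⟩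
  · rw [dcat_lo Γ1 Γ2 hn.2]
    exact h1.2.1 _ (bij_lo.mapsTo hn) ω hω
  · rw [dcat_hi hn.1 (hr ω hω)]
    exact h2.2.1 _ (bij_hi.mapsTo hn) ω hω
  · rw [dcat_lo Γ1 Γ2 (by norm_num), mul_zero, (h1.2.2 ω hω).1]
  · rw [dcat_hi (by norm_num) (hr ω hω), mul_one, sub_self, (h2.2.2 ω hω).1]

theorem adapt_of_halves [Nontrivial ι] {i0 j : ι} {K ε : ℝ} (hK : 0 ≤ K) (hε : ε = 1 ∨ ε = -1)
    {L : E ι → E ι} (hL : IsSP L) (he : L (Pi.single i0 1) = Pi.single j ε) {p q : E ι}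
    (hp : Hp p) (hq : Hp q) {Γ1 Γ2 : ℝ × E ι → E ι} (h1 : HDisp i0 K j (-ε) p L Γ1)
    (h2 : HDisp i0 K j ε q L Γ2) :
    ∃ Ξ1 Ξ2 p1 q2, Adapt i0 (4 * K + 4) p q j ε (dcat Γ1 Γ2) Ξ1 Ξ2 p1 q2 := by
  have hb := hL.cs hε he
  have hε' : -ε = 1 ∨ -ε = -1 := by rcases hε with c | c <;> simp [c]
  have hL' : IsSP fun x => rfx j (L x) := (isSP_rfx j).comp hL
  have he' : rfx j (L (Pi.single i0 1)) = Pi.single j (-ε) := by
    rw [he]
    funext i
    by_cases c : i = j <;> simp [rfx, c]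
  have hr : ∀ ω ∈ Cs i0, rfx j (L ω) = L ω := fun ω hω => by
    rw [rfx, (hb.mapsTo hω).1, neg_zero, upd_zero (hb.mapsTo hω).1]
  have h2' : HDisp i0 K j (- -ε) q (fun x => rfx j (L x)) Γ2 := by
    rw [neg_neg]
    exact ⟨h2.1, h2.2.1, fun ω hω => ⟨(h2.2.2 ω hω).1, (h2.2.2 ω hω).2.trans (hr ω hω).symm⟩⟩
  have g1 := good1 hK hε hL he hp h1
  have g2 := good1 hK hε' hL' he' hq h2'
  have err : rev (rev (disp1 j (-ε) (fun x => rfx j (L x)) Γ2)) =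
      disp1 j (-ε) (fun x => rfx j (L x)) Γ2 := by
    funext z
    simp only [rev, sub_sub_cancel]
  have k1 : ∀ n, 1 / 2 ≤ n → ∀ ω ∈ Cs i0, disp1 j ε L Γ1 (n, ω) =
      Pi.single j ε + max 0 ((7 - 8 * n) / 3) • L ω := fun n hn ω hω =>
    disp1_hi hn (hb.mapsTo hω).1 (h1.2.2 ω hω).2
  have k2 : ∀ n, 1 / 2 ≤ n → ∀ ω ∈ Cs i0, disp1 j (-ε) (fun x => rfx j (L x)) Γ2 (n, ω) =
      Pi.single j (-ε) + max 0 ((7 - 8 * n) / 3) • L ω := fun n hn ω hω => by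
    rw [disp1_hi hn (by rw [hr ω hω]; exact (hb.mapsTo hω).1) (h2'.2.2 ω hω).2, hr ω hω]
  have k3 : ∀ x, hf j ε (str j (-ε) x) = x := fun x => by
    simpa only [neg_neg] using hf_str (j := j) (δ := -ε) x
  refine ⟨disp1 j ε L Γ1, rev (disp1 j (-ε) (fun x => rfx j (L x)) Γ2), str j ε p, str j (-ε) q,
    hε, (disp_dcat hK hε hε hL he h1 h2).mono (by linarith only [hK]), Or.inl g1, Or.inr (by rwa [err]),
    (hf_str p).symm, (k3 q).symm, fun m hm ω _ => ?_, fun m hm ω hω => ?_, fun l hl ω hω => ?_,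
    fun y hy hj => ?_, fun m hm ω hω => ?_, fun m hm ω hω => ?_⟩
  · rw [dcat_lo Γ1 Γ2 hm.2, disp1_lo hm.2, hf_str]
  · rw [dcat_hi hm.1 ((h1.2.2 ω hω).2.trans (h2.2.2 ω hω).2.symm), rev,
      disp1_lo (by linarith only [hm.1]), k3, show 2 * (1 - m) = 2 - 2 * m by ring]
  · rw [rev, show 1 - (1 - l) / 2 = (1 + l) / 2 by ring, k1 _ (by linarith only [hl.1]) ω hω,
      k2 _ (by linarith only [hl.1]) ω hω]
    refine ⟨by simp [(hb.mapsTo hω).1], funext fun i => ?_⟩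
    by_cases c : i = j <;> simp [hf, c, (hb.mapsTo hω).1]
  · obtain ⟨n, hn, ω, hω, e⟩ := germ_sur hb hy hj
    refine ⟨2 * n - 1, ⟨by linarith only [hn.1], by linarith only [hn.2]⟩, ω, hω, ?_⟩
    rw [show (1 + (2 * n - 1)) / 2 = n by ring, k1 n hn.1 ω hω, e]
  · rw [k1 m (by linarith only [hm.1]) ω hω, max_eq_left (by linarith only [hm.1]), zero_smul, add_zero]
  · rw [rev, k2 _ (by linarith only [hm.2]) ω hω, max_eq_left (by linarith only [hm.2]), zero_smul, add_zero]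

end Pool.Agent.Lib.MP_ecd4e3_gt.NB
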