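import Pool.Agent.Lib.MP_ecd4e3_gt.NB.DAlex
import Pool.Agent.Lib.MP_ecd4e3_gt.NB.DHalf

/-! The finger move, and the theorem on displays. -/

namespace Pool.Agent.Lib.MP_ecd4e3_gt.NB

open Set Filter Topology Metric MeasureTheory
open scoped NNReal ENNReal

/-- The position along the finger. -/
noncomputable def fgP (a b : ℝ) : ℝ := a + min (1 - b) (1 + a)
/-- The distance from the axis of the finger. -/
noncomputable def fgR (a b ρ : ℝ) : ℝ := max ρ (2 * (1 - max a b))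
noncomputable def fgT0 (ρ : ℝ) : ℝ := max 0 (min 1 (3 - 6 * ρ))
noncomputable def fgT1 (ρ : ℝ) : ℝ := max 0 (1 - 2 * ρ)
noncomputable def fgG0 (φ : ℝ) : ℝ := max 0 (min (3 * (φ + 1)) (min 2 (12 / 13 * (5 / 2 - φ))))
noncomputable def fgG1 (φ : ℝ) : ℝ := max 0 (min (2 * (φ + 1)) (2 - φ))
/-- The new position along the finger. -/
noncomputable def fgD (r ρ φ : ℝ) : ℝ := φ + (1 - r) * fgT0 ρ * fgG0 φ + r * fgT1 ρ * fgG1 φ
noncomputable def fgA (r a b ρ : ℝ) : ℝ :=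
  a + (min (fgD r (fgR a b ρ) (fgP a b)) 1 - min (fgP a b) 1)
noncomputable def fgB (r a b ρ : ℝ) : ℝ :=
  b + (min 1 (2 - fgD r (fgR a b ρ) (fgP a b)) - min 1 (2 - fgP a b))

theorem fgT0_mem (ρ : ℝ) : fgT0 ρ ∈ Icc (0 : ℝ) 1 :=
  ⟨le_max_left _ _, max_le zero_le_one (min_le_left _ _)⟩

theorem fgT1_mem {ρ : ℝ} (h : 0 ≤ ρ) : fgT1 ρ ∈ Icc (0 : ℝ) 1 :=
  ⟨le_max_left _ _, max_le zero_le_one (by linarith only [h])⟩

theorem fgG0_mem (φ : ℝ) : fgG0 φ ∈ Icc (0 : ℝ) 2 :=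
  ⟨le_max_left _ _, max_le zero_le_two ((min_le_right _ _).trans (min_le_left _ _))⟩

theorem fgG1_mem (φ : ℝ) : fgG1 φ ∈ Icc (0 : ℝ) 2 := by
  refine ⟨le_max_left _ _, max_le zero_le_two ?_⟩
  rcases le_total φ 0 with h | h
  · exact (min_le_left _ _).trans (by linarith only [h])
  · exact (min_le_right _ _).trans (by linarith only [h])

theorem fg_max (c x y : ℝ) : |max c x - max c y| ≤ |x - y| := by
  rw [max_comm c x, max_comm c y]
  exact abs_max_sub_max_le_abs _ _ _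

theorem fg_min {a b c d K : ℝ} (h1 : |a - c| ≤ K) (h2 : |b - d| ≤ K) :
    |min a b - min c d| ≤ K := (abs_min_sub_min_le_max a b c d).trans (max_le h1 h2)

theorem fg_aff (c x y : ℝ) {u v K : ℝ} (h : u - v = c * (x - y)) (hc : |c| ≤ K) :
    |u - v| ≤ K * |x - y| := by
  rw [h, abs_mul]
  exact mul_le_mul_of_nonneg_right hc (abs_nonneg _)

theorem fgT0_lip (x y : ℝ) : |fgT0 x - fgT0 y| ≤ 6 * |x - y| :=
  (fg_max _ _ _).trans (fg_min (fg_aff 0 x y (by ring) (by norm_num))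
    (fg_aff (-6) x y (by ring) (by norm_num)))

theorem fgT1_lip (x y : ℝ) : |fgT1 x - fgT1 y| ≤ 2 * |x - y| :=
  (fg_max _ _ _).trans (fg_aff (-2) x y (by ring) (by norm_num))

theorem fgG0_lip (x y : ℝ) : |fgG0 x - fgG0 y| ≤ 3 * |x - y| :=
  (fg_max _ _ _).trans (fg_min (fg_aff 3 x y (by ring) (by norm_num))
    (fg_min (fg_aff 0 x y (by ring) (by norm_num))
      (fg_aff (-(12 / 13)) x y (by ring) (by rw [abs_neg, abs_of_pos] <;> norm_num))))

theorem fgG1_lip (x y : ℝ) : |fgG1 x - fgG1 y| ≤ 2 * |x - y| :=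
  (fg_max _ _ _).trans (fg_min (fg_aff 2 x y (by ring) (by norm_num))
    (fg_aff (-1) x y (by ring) (by norm_num)))

theorem fg_prod {u v w u' v' w' : ℝ} (hu : u ∈ Icc (0 : ℝ) 1) (hv : v ∈ Icc (0 : ℝ) 1)
    (hv' : v' ∈ Icc (0 : ℝ) 1) (hw' : w' ∈ Icc (0 : ℝ) 2) :
    |u' * v' * w' - u * v * w| ≤ 2 * |u' - u| + 2 * |v' - v| + |w' - w| := by
  have e : u' * v' * w' - u * v * w =
      (v' * w') * (u' - u) + (u * w') * (v' - v) + (u * v) * (w' - w) := by ring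
  have k : ∀ {c K x : ℝ}, 0 ≤ c → c ≤ K → |c * x| ≤ K * |x| := fun h1 h2 => by
    rw [abs_mul, abs_of_nonneg h1]
    exact mul_le_mul_of_nonneg_right h2 (abs_nonneg _)
  have k1 := k (x := u' - u) (mul_nonneg hv'.1 hw'.1) ((mul_le_of_le_one_left hw'.1 hv'.2).trans hw'.2)
  have k2 := k (x := v' - v) (mul_nonneg hu.1 hw'.1) ((mul_le_of_le_one_left hw'.1 hu.2).trans hw'.2)
  have k3 := k (x := w' - w) (mul_nonneg hu.1 hv.1) ((mul_le_of_le_one_left hv.1 hu.2).trans hv.2)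
  rw [e]
  linarith only [abs_add_three (v' * w' * (u' - u)) (u * w' * (v' - v)) (u * v * (w' - w)), k1, k2, k3]

theorem fgD_lip {r r' ρ ρ' : ℝ} (hr : r ∈ Icc (0 : ℝ) 1) (hρ : 0 ≤ ρ) (hρ' : 0 ≤ ρ') (φ φ' : ℝ) :
    |fgD r' ρ' φ' - fgD r ρ φ| ≤ 4 * |r' - r| + 16 * |ρ' - ρ| + 6 * |φ' - φ| := by
  have k1 := fg_prod (u := 1 - r) (u' := 1 - r') (w := fgG0 φ) ⟨by linarith only [hr.2], by linarith only [hr.1]⟩
    (fgT0_mem ρ) (fgT0_mem ρ') (fgG0_mem φ')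
  have k2 := fg_prod (u' := r') (w := fgG1 φ) hr (fgT1_mem hρ) (fgT1_mem hρ') (fgG1_mem φ')
  rw [sub_sub_sub_cancel_left, abs_sub_comm r r'] at k1
  have e : fgD r' ρ' φ' - fgD r ρ φ = (φ' - φ) +
      ((1 - r') * fgT0 ρ' * fgG0 φ' - (1 - r) * fgT0 ρ * fgG0 φ) +
      (r' * fgT1 ρ' * fgG1 φ' - r * fgT1 ρ * fgG1 φ) := by simp only [fgD]; ring
  rw [e]
  refine (abs_add_three _ _ _).trans ?_
  linarith only [fgT0_lip ρ' ρ, fgT1_lip ρ' ρ, fgG0_lip φ' φ, fgG1_lip φ' φ, k1, k2]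

theorem fgR_nonneg {a b ρ : ℝ} (h : 0 ≤ ρ) : 0 ≤ fgR a b ρ := le_max_of_le_left h

theorem fg_lip {r r' a b ρ a' b' ρ' d : ℝ} (hr : r ∈ Icc (0 : ℝ) 1) (hρ : 0 ≤ ρ) (hρ' : 0 ≤ ρ')
    (ha : |a' - a| ≤ d) (hb : |b' - b| ≤ d) (hc : |ρ' - ρ| ≤ d) :
    |fgA r' a' b' ρ' - fgA r a b ρ| ≤ 47 * d + 4 * |r' - r| ∧
      |fgB r' a' b' ρ' - fgB r a b ρ| ≤ 47 * d + 4 * |r' - r| := by
  have d0 : 0 ≤ d := (abs_nonneg _).trans ha
  have k1 : |fgP a' b' - fgP a b| ≤ 2 * d := by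
    have : |min (1 - b') (1 + a') - min (1 - b) (1 + a)| ≤ d :=
      fg_min (by rwa [sub_sub_sub_cancel_left, abs_sub_comm]) (by rwa [add_sub_add_left_eq_sub])
    rw [fgP, fgP, add_sub_add_comm]
    linarith only [abs_add_le (a' - a) (min (1 - b') (1 + a') - min (1 - b) (1 + a)), ha, this]
  have k2 : |fgR a' b' ρ' - fgR a b ρ| ≤ 2 * d := by
    refine (abs_max_sub_max_le_max _ _ _ _).trans (max_le (by linarith only [hc, d0]) ?_)
    have := (abs_max_sub_max_le_max a' b' a b).trans (max_le ha hb)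
    exact (fg_aff (K := 2) (-2) (max a' b') (max a b) (by ring) (by norm_num)).trans (by linarith only [this])
  have k3 := fgD_lip (r' := r') hr (fgR_nonneg (a := a) (b := b) hρ)
    (fgR_nonneg (a := a') (b := b') hρ') (fgP a b) (fgP a' b')
  have m1 : ∀ x y : ℝ, |min x 1 - min y 1| ≤ |x - y| := fun x y => fg_min le_rfl (by simp)
  have m2 : ∀ x y : ℝ, |min 1 (2 - x) - min 1 (2 - y)| ≤ |x - y| := fun x y =>
    fg_min (by simp) (by rw [sub_sub_sub_cancel_left, abs_sub_comm])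
  have s : ∀ {x y u v x' y' u' v' K : ℝ}, x = y + (u - v) → x' = y' + (u' - v') →
      |y' - y| + |u' - u| + |v' - v| ≤ K → |x' - x| ≤ K := fun {x y u v x' y' u' v' K} e e' h => by
    rw [e, e', show y' + (u' - v') - (y + (u - v)) = (y' - y) + (u' - u) + -(v' - v) by ring]
    refine (abs_add_three _ _ _).trans ?_
    rwa [abs_neg]
  exact ⟨s rfl rfl (by
    linarith only [m1 (fgD r' (fgR a' b' ρ') (fgP a' b')) (fgD r (fgR a b ρ) (fgP a b)),
      m1 (fgP a' b') (fgP a b), ha, k1, k2, k3]), s rfl rfl (by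
    linarith only [m2 (fgD r' (fgR a' b' ρ') (fgP a' b')) (fgD r (fgR a b ρ) (fgP a b)),
      m2 (fgP a' b') (fgP a b), hb, k1, k2, k3])⟩

theorem fgD_far {r ρ φ : ℝ} (h : 1 / 2 ≤ ρ ∨ φ ≤ -1 ∨ 5 / 2 ≤ φ) : fgD r ρ φ = φ := by
  rcases h with h | h | h
  · rw [fgD, fgT0, fgT1, max_eq_left ((min_le_right _ _).trans (by linarith only [h])),
      max_eq_left (by linarith only [h])]
    ring
  · rw [fgD, fgG0, fgG1, max_eq_left ((min_le_left _ _).trans (by linarith only [h])),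
      max_eq_left ((min_le_left _ _).trans (by linarith only [h]))]
    ring
  · rw [fgD, fgG0, fgG1,
      max_eq_left (((min_le_right _ _).trans (min_le_right _ _)).trans (by linarith only [h])),
      max_eq_left ((min_le_right _ _).trans (by linarith only [h]))]
    ring

theorem fg_fix {r a b ρ : ℝ} (h : fgD r (fgR a b ρ) (fgP a b) = fgP a b) :
    fgA r a b ρ = a ∧ fgB r a b ρ = b := by
  rw [fgA, fgB, h, sub_self, sub_self, add_zero, add_zero]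
  exact ⟨rfl, rfl⟩

/-- Off the two faces nothing moves. -/
theorem fg_off {r a b ρ : ℝ} (ha : -1 ≤ a) (h : ρ = 1 ∨ a = -1 ∨ b = -1)
    (hb' : b ≤ 1) : fgA r a b ρ = a ∧ fgB r a b ρ = b := by
  refine fg_fix (fgD_far ?_)
  rcases h with h | h | h
  · exact .inl (le_max_of_le_left (by linarith only [h]))
  · refine .inr (.inl ?_)
    rw [fgP, h, min_eq_right (by linarith only [hb'])]
    norm_num
  · rcases le_total a (3 / 4) with k | k
    · refine .inl (le_max_of_le_right ?_)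
      rw [max_eq_left (by linarith only [ha, h])]
      linarith only [k]
    · refine .inr (.inr ?_)
      have : 7 / 4 ≤ min (1 - b) (1 + a) := le_min (by linarith only [h]) (by linarith only [k])
      rw [fgP]
      linarith only [k, this]

/-- On the two faces. -/
theorem fg_on {a b ρ : ℝ} (ha : |a| ≤ 1) (hb : |b| ≤ 1) (hρ : 0 ≤ ρ) (h : a = 1 ∨ b = 1) :
    fgP a b = a + 1 - b ∧ fgR a b ρ = ρ ∧ a = min (fgP a b) 1 ∧ b = min 1 (2 - fgP a b) ∧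
      ∀ r, fgA r a b ρ = min (fgD r ρ (fgP a b)) 1 ∧ fgB r a b ρ = min 1 (2 - fgD r ρ (fgP a b)) := by
  have ha' := abs_le.1 ha
  have hb' := abs_le.1 hb
  have e1 : fgP a b = a + 1 - b := by
    rw [fgP, min_eq_left (by rcases h with h | h <;> linarith only [hb', h, ha'])]
    ring
  have e2 : fgR a b ρ = ρ := by
    have : max a b = 1 := by
      rcases h with h | h
      · rw [h, max_eq_left hb'.2]
      · rw [h, max_eq_right ha'.2]
    rw [fgR, this, sub_self, mul_zero, max_eq_left hρ]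
  have e3 : a = min (fgP a b) 1 := by
    rw [e1]
    rcases h with h | h
    · rw [min_eq_right (by linarith only [hb', h]), h]
    · rw [min_eq_left (by linarith only [ha', h]), h, add_sub_cancel_right]
  have e4 : b = min 1 (2 - fgP a b) := by
    rw [e1]
    rcases h with h | h
    · rw [min_eq_right (by linarith only [hb', h]), h]
      ring
    · rw [min_eq_left (by linarith only [ha', h]), h]
  refine ⟨e1, e2, e3, e4, fun r => ?_⟩
  rw [fgA, fgB, e2, ← e3, ← e4, add_sub_cancel, add_sub_cancel]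
  exact ⟨rfl, rfl⟩

theorem fg_pt {φ : ℝ} (h : φ ∈ Icc (-1 : ℝ) 3) : |min φ 1| ≤ 1 ∧ |min 1 (2 - φ)| ≤ 1 ∧
    (min φ 1 = 1 ∨ min 1 (2 - φ) = 1) ∧ min φ 1 + 1 - min 1 (2 - φ) = φ := by
  rcases le_total φ 1 with k | k
  · rw [min_eq_left k, min_eq_left (by linarith only [k])]
    exact ⟨abs_le.2 ⟨h.1, k⟩, by norm_num, .inr rfl, by ring⟩
  · rw [min_eq_right k, min_eq_right (by linarith only [k])]
    exact ⟨by norm_num, abs_le.2 ⟨by linarith only [h.2], by linarith only [k]⟩, .inl rfl, by ring⟩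

theorem fg_ab {r ρ : ℝ} (hr : r ∈ Icc (0 : ℝ) 1) (hρ : 0 ≤ ρ) :
    0 ≤ (1 - r) * fgT0 ρ ∧ 0 ≤ r * fgT1 ρ ∧ (1 - r) * fgT0 ρ + r * fgT1 ρ ≤ 1 := by
  have k1 := fgT0_mem ρ
  have k2 := fgT1_mem hρ
  have k3 : 0 ≤ 1 - r := by linarith only [hr.2]
  exact ⟨mul_nonneg k3 k1.1, mul_nonneg hr.1 k2.1, by
    linarith only [mul_le_of_le_one_right k3 k1.2, mul_le_of_le_one_right hr.1 k2.2, k3]⟩

theorem fgD_mem {r ρ φ : ℝ} (hr : r ∈ Icc (0 : ℝ) 1) (hρ : 0 ≤ ρ) (h : φ ∈ Icc (-1 : ℝ) 3) :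
    fgD r ρ φ ∈ Icc (-1 : ℝ) 3 := by
  obtain ⟨k1, k2, k3⟩ := fg_ab hr hρ
  have g0 : fgG0 φ ≤ 3 - φ := max_le (by linarith only [h.2])
    (((min_le_right _ _).trans (min_le_right _ _)).trans (by linarith only [h.2]))
  have g1 : fgG1 φ ≤ 3 - φ := max_le (by linarith only [h.2]) ((min_le_right _ _).trans (by linarith only []))
  have p0 := mul_nonneg k1 (fgG0_mem φ).1
  have p1 := mul_nonneg k2 (fgG1_mem φ).1
  have q0 := mul_le_mul_of_nonneg_left g0 k1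
  have q1 := mul_le_mul_of_nonneg_left g1 k2
  have q2 := mul_le_mul_of_nonneg_right k3 (show 0 ≤ 3 - φ by linarith only [h.2])
  exact ⟨by rw [fgD]; linarith only [h.1, p0, p1], by rw [fgD]; linarith only [q0, q1, q2]⟩

theorem fgD_surj {r ρ y : ℝ} (hy : y ∈ Icc (-1 : ℝ) 3) : ∃ φ ∈ Icc (-1 : ℝ) 3, fgD r ρ φ = y := by
  have c : Continuous (fgD r ρ) := by
    unfold fgD fgG0 fgG1
    fun_prop
  refine intermediate_value_Icc (by norm_num) c.continuousOn ?_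
  rwa [fgD_far (.inr (.inl le_rfl)), fgD_far (.inr (.inr (by norm_num)))]

theorem fg_mn {u v u' v' c : ℝ} (h1 : u - c ≤ u') (h2 : v - c ≤ v') :
    min u v - c ≤ min u' v' :=
  le_min ((sub_le_sub_right (min_le_left u v) c).trans h1)
    ((sub_le_sub_right (min_le_right u v) c).trans h2)

theorem fg_mx {u u' c : ℝ} (hc : 0 ≤ c) (h : u - c ≤ u') : max 0 u - c ≤ max 0 u' :=
  sub_le_iff_le_add.2 (max_le (add_nonneg (le_max_left _ _) hc)
    ((sub_le_iff_le_add.1 h).trans (add_le_add_left (le_max_right 0 u') c)))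

theorem fgG0_drop {φ φ' : ℝ} (h : φ < φ') : fgG0 φ - 12 / 13 * (φ' - φ) ≤ fgG0 φ' :=
  fg_mx (by linarith only [h]) (fg_mn (by linarith only [h]) (fg_mn (by linarith only [h]) (by linarith only [])))

theorem fgG1_drop {φ φ' : ℝ} (h : φ < φ') : fgG1 φ - (φ' - φ) ≤ fgG1 φ' :=
  fg_mx (by linarith only [h]) (fg_mn (by linarith only [h]) (by linarith only []))

theorem fgG1_two {φ φ' : ℝ} (h : φ < φ') (e : φ' + fgG1 φ' = φ + fgG1 φ) : φ + fgG1 φ = 2 := by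
  have b0 := (fgG1_mem φ').1
  rcases lt_or_ge φ 0 with k | k
  · have b1 : min (2 * (φ' + 1)) (2 - φ') ≤ fgG1 φ' := le_max_right _ _
    have b2 : 3 * φ + 2 - φ' < min (2 * (φ' + 1)) (2 - φ') := lt_min (by linarith only [h]) (by linarith only [k])
    have b3 : fgG1 φ < fgG1 φ' + (φ' - φ) :=
      max_lt (by linarith only [h, b0]) ((min_le_left _ _).trans_lt (by linarith only [b1, b2]))
    linarith only [e, b3]
  · rcases le_or_gt φ 2 with k' | k'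
    · rw [fgG1, min_eq_right (by linarith only [k]), max_eq_right (by linarith only [k'])]
      ring
    · have : fgG1 φ = 0 := max_eq_left ((min_le_right _ _).trans (by linarith only [k']))
      linarith only [h, e, b0, this]

theorem fg_coef {A B φ φ' u u' v v' : ℝ} (k1 : 0 ≤ A) (k2 : 0 ≤ B) (k3 : A + B ≤ 1) (h : φ < φ')
    (g0 : u - 12 / 13 * (φ' - φ) ≤ u') (g1 : v - (φ' - φ) ≤ v')
    (e : φ' + A * u' + B * v' = φ + A * u + B * v) : A = 0 ∧ B = 1 := by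
  have q0 := mul_le_mul_of_nonneg_left g0 k1
  have q1 := mul_le_mul_of_nonneg_left g1 k2
  have q2 : (1 - 12 / 13 * A - B) * (φ' - φ) ≤ 0 := by linarith only [q0, q1, e]
  have q3 := nonpos_of_mul_nonpos_left q2 (sub_pos.2 h)
  have a0 : A = 0 := le_antisymm (by linarith only [q3, k3]) k1
  exact ⟨a0, le_antisymm (by linarith only [k1, k3]) (by linarith only [q3, a0])⟩

theorem fgD_lt {r ρ φ φ' : ℝ} (hr : r ∈ Icc (0 : ℝ) 1) (hρ : 0 ≤ ρ) (h : φ < φ')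
    (e : fgD r ρ φ' = fgD r ρ φ) : ρ = 0 ∧ fgD r ρ φ = 2 := by
  obtain ⟨k1, k2, k3⟩ := fg_ab hr hρ
  obtain ⟨a0, a1⟩ := fg_coef k1 k2 k3 h (fgG0_drop h) (fgG1_drop h) e
  have a2 : 1 ≤ fgT1 ρ := a1.ge.trans (mul_le_of_le_one_left (fgT1_mem hρ).1 hr.2)
  have a3 : ρ = 0 := by
    rcases le_max_iff.1 a2 with k | k
    · exact absurd k (by norm_num)
    · exact le_antisymm (by linarith only [k]) hρ
  refine ⟨a3, ?_⟩
  simp only [fgD, a0, a1, zero_mul, add_zero, one_mul] at e ⊢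
  exact fgG1_two h e

theorem fgG1_mono {φ φ' : ℝ} (h : φ ≤ φ') (k : φ' ≤ 0 ∨ 2 ≤ φ) : fgG1 φ ≤ fgG1 φ' := by
  rcases k with k | k
  · exact max_le_max le_rfl (le_min ((min_le_left _ _).trans (by linarith only [h]))
      ((min_le_left _ _).trans (by linarith only [h, k])))
  · exact max_le (fgG1_mem φ').1
      (((min_le_right _ _).trans (by linarith only [k])).trans (fgG1_mem φ').1)

/-- The slope of the new position. -/
theorem fgD_slope {r ρ φ φ' c : ℝ} (hr : r ∈ Icc (0 : ℝ) 1) (hρ : 0 ≤ ρ) (hc1 : c ≤ 1)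
    (h : φ < φ') (k : r * fgT1 ρ ≤ 1 - c ∨ φ' ≤ 0 ∨ 2 ≤ φ) :
    c * (φ' - φ) ≤ 13 * (fgD r ρ φ' - fgD r ρ φ) := by
  obtain ⟨k1, k2, k3⟩ := fg_ab hr hρ
  have q0 := mul_le_mul_of_nonneg_left (fgG0_drop h) k1
  have d := (sub_pos.2 h).le
  have q2 := mul_le_mul_of_nonneg_right k3 d
  simp only [fgD]
  rcases k with k | k
  · have q1 := mul_le_mul_of_nonneg_left (fgG1_drop h) k2
    have q3 := mul_le_mul_of_nonneg_right k d
    linarith only [q0, q1, q2, q3]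
  · have q1 := mul_le_mul_of_nonneg_left (fgG1_mono h.le k) k2
    have q3 := mul_le_mul_of_nonneg_right hc1 d
    have q4 := mul_nonneg k2 d
    linarith only [q0, q1, q2, q3, q4]

theorem fgD_abs {r ρ φ φ' c : ℝ} (hr : r ∈ Icc (0 : ℝ) 1) (hρ : 0 ≤ ρ) (hc1 : c ≤ 1)
    (k : r * fgT1 ρ ≤ 1 - c ∨ (φ ≤ 0 ∧ φ' ≤ 0) ∨ (2 ≤ φ ∧ 2 ≤ φ')) :
    c * |φ' - φ| ≤ 13 * |fgD r ρ φ' - fgD r ρ φ| := by
  rcases lt_trichotomy φ φ' with l | l | l
  · have := fgD_slope hr hρ hc1 l (k.imp id (Or.imp And.right And.left))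
    rw [abs_of_pos (sub_pos.2 l)]
    linarith only [this, le_abs_self (fgD r ρ φ' - fgD r ρ φ)]
  · simp [l]
  · have := fgD_slope hr hρ hc1 l (k.imp id (Or.imp And.left And.right))
    rw [abs_of_neg (sub_neg.2 l)]
    linarith only [this, neg_abs_le (fgD r ρ φ' - fgD r ρ φ)]

theorem fgD_two {r r' ρ ρ' φ φ' c d : ℝ} (hr : r ∈ Icc (0 : ℝ) 1) (hρ : 0 ≤ ρ) (hρ' : 0 ≤ ρ')
    (hr' : r' ∈ Icc (0 : ℝ) 1) (hc : 0 < c) (hc1 : c ≤ 1)
    (k : r * fgT1 ρ ≤ 1 - c ∨ (φ ≤ 0 ∧ φ' ≤ 0) ∨ (2 ≤ φ ∧ 2 ≤ φ'))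
    (h1 : |r' - r| ≤ d) (h2 : |ρ' - ρ| ≤ d) (h3 : |fgD r' ρ' φ' - fgD r ρ φ| ≤ d) :
    |φ' - φ| ≤ 273 / c * d := by
  have a1 := fgD_abs hr hρ hc1 k
  have a2 := fgD_lip (r' := r) hr' hρ' hρ φ' φ'
  rw [sub_self, abs_zero, abs_sub_comm r, abs_sub_comm ρ] at a2
  have a3 := abs_sub_le (fgD r ρ φ') (fgD r' ρ' φ') (fgD r ρ φ)
  rw [div_mul_eq_mul_div, le_div_iff₀ hc]
  linarith only [a1, a2, a3, h1, h2, h3]

/-- Off the removed point the old position is a Lipschitz function of the new one. -/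
theorem fgD_dm {P : ℝ × ℝ × ℝ → Prop} {z : ℝ × ℝ × ℝ} (hz : z.1 ∈ Icc (0 : ℝ) 1 ∧ 0 ≤ z.2.1)
    (h : ¬(z.2.1 = 0 ∧ fgD z.1 z.2.1 z.2.2 = 2)) :
    Dm {w : ℝ × ℝ × ℝ | w.1 ∈ Icc (0 : ℝ) 1 ∧ 0 ≤ w.2.1} P (fun w => w.2.2)
      (fun w => (w.1, w.2.1, fgD w.1 w.2.1 w.2.2)) z := by
  have key : ∀ {c : ℝ} {p : ℝ × ℝ × ℝ → Prop}, 0 < c → c ≤ 1 → (∀ᶠ w in 𝓝 z, p w) →
      (∀ w v, p w → p v → w.1 * fgT1 w.2.1 ≤ 1 - c ∨ (w.2.2 ≤ 0 ∧ v.2.2 ≤ 0) ∨
        (2 ≤ w.2.2 ∧ 2 ≤ v.2.2)) →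
      Dm {w : ℝ × ℝ × ℝ | w.1 ∈ Icc (0 : ℝ) 1 ∧ 0 ≤ w.2.1} P (fun w => w.2.2)
        (fun w => (w.1, w.2.1, fgD w.1 w.2.1 w.2.2)) z := fun {c p} hc hc1 hp H =>
    Dm.of_nhds (K := 273 / c) (nhdsWithin_le_nhds hp) fun w a b v a' b' =>
      fgD_two a.1 a.2 a'.2 a'.1 hc hc1 (H w v b b') (le_max_left _ _)
        ((le_max_left _ _).trans (le_max_right _ _)) ((le_max_right _ _).trans (le_max_right _ _))
  obtain ⟨k1, k2, k3⟩ := fg_ab hz.1 hz.2
  have c2 : Continuous fun w : ℝ × ℝ × ℝ => w.2.2 := by fun_prop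
  rcases lt_or_ge (z.1 * fgT1 z.2.1) 1 with l | l
  · have c1 : Continuous fun w : ℝ × ℝ × ℝ => w.1 * fgT1 w.2.1 := by
      unfold fgT1
      fun_prop
    exact key (c := (1 - z.1 * fgT1 z.2.1) / 2) (by linarith only [l]) (by linarith only [k2])
      (c1.continuousAt.eventually_lt (g := fun _ => 1 - (1 - z.1 * fgT1 z.2.1) / 2)
        continuousAt_const (by linarith only [l])) fun w _ a _ => .inl a.le
  · have a0 : (1 - z.1) * fgT0 z.2.1 = 0 := le_antisymm (by linarith only [l, k3]) k1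
    have a1 : z.1 * fgT1 z.2.1 = 1 := le_antisymm (by linarith only [k1, k3]) l
    have a2 : 1 ≤ fgT1 z.2.1 := l.trans (mul_le_of_le_one_left (fgT1_mem hz.2).1 hz.1.2)
    have a3 : z.2.1 = 0 := by
      rcases le_max_iff.1 a2 with k | k
      · exact absurd k (by norm_num)
      · exact le_antisymm (by linarith only [k]) hz.2
    rcases lt_or_ge z.2.2 0 with m | m
    · exact key one_pos le_rfl (c2.continuousAt.eventually_lt (g := fun _ => 0) continuousAt_const m)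
        fun _ _ a b => .inr (.inl ⟨a.le, b.le⟩)
    · rcases lt_or_ge 2 z.2.2 with m' | m'
      · exact key one_pos le_rfl
          (ContinuousAt.eventually_lt (f := fun _ => 2) continuousAt_const c2.continuousAt m')
          fun _ _ a b => .inr (.inr ⟨a.le, b.le⟩)
      · refine (h ⟨a3, ?_⟩).elim
        rw [fgD, a0, a1, fgG1, min_eq_right (by linarith only [m]),
          max_eq_right (by linarith only [m'])]
        ring

theorem fgD_zero (r : ℝ) : fgD r 0 0 = 2 := by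
  simp only [fgD, fgT0, fgT1, fgG0, fgG1]
  norm_num
  ring

theorem fgD_one_ge {ρ φ : ℝ} (h : 2 ≤ φ) : fgD 1 ρ φ = φ := by
  rw [fgD, fgG1, max_eq_left ((min_le_right _ _).trans (by linarith only [h]))]
  ring

theorem fgD_one_le {ρ φ : ℝ} (hρ : 0 ≤ ρ) (h : φ ≤ 2) : fgD 1 ρ φ ≤ 2 := by
  have g : fgG1 φ ≤ 2 - φ := max_le (by linarith only [h]) (min_le_right _ _)
  have := mul_le_of_le_one_left (fgG1_mem φ).1 (fgT1_mem hρ).2
  rw [fgD]
  linarith only [g, this]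

theorem fgD_near {ρ φ : ℝ} (hρ : ρ ≤ 1 / 3) (h : |φ| ≤ 1 / 3) : fgD 0 ρ φ = φ + 2 := by
  have h' := abs_le.1 h
  rw [fgD, fgT0, fgG0, min_eq_left (by linarith only [hρ]), min_eq_left (a := 2) (by linarith only [h']),
    min_eq_right (by linarith only [h']), max_eq_right zero_le_one, max_eq_right zero_le_two]
  ring

variable {ι : Type} [Fintype ι] [DecidableEq ι]

/-- Replace two coordinates. -/
def fgU (j j' : ι) (x : E ι) (A B : ℝ) : E ι := Function.update (Function.update x j A) j' B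

section Up

variable {j j' : ι} {s ε : ℝ}

omit [Fintype ι] in
theorem fgU_fst (hj : j' ≠ j) (x : E ι) (A B : ℝ) : fgU j j' x A B j = A := by
  simp [fgU, hj.symm]

omit [Fintype ι] in
theorem fgU_snd (x : E ι) (A B : ℝ) : fgU j j' x A B j' = B := by simp [fgU]

omit [Fintype ι] in
theorem fgU_ne {i : ι} (h : i ≠ j) (h' : i ≠ j') (x : E ι) (A B : ℝ) : fgU j j' x A B i = x i := by
  simp [fgU, h, h']

omit [Fintype ι] in
theorem fgU_ext (hj : j' ≠ j) {x y : E ι} {A B : ℝ} (h1 : y j = A) (h2 : y j' = B)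
    (h3 : ∀ i, i ≠ j → i ≠ j' → y i = x i) : fgU j j' x A B = y := by
  funext i
  by_cases k : i = j
  · rw [k, fgU_fst hj, h1]
  · by_cases k' : i = j'
    · rw [k', fgU_snd, h2]
    · rw [fgU_ne k k', h3 i k k']

omit [Fintype ι] in
theorem fgU_fgU (hj : j' ≠ j) (x : E ι) (A B A' B' : ℝ) :
    fgU j j' (fgU j j' x A B) A' B' = fgU j j' x A' B' :=
  fgU_ext hj (fgU_fst hj _ _ _) (fgU_snd _ _ _) fun _ k k' => by rw [fgU_ne k k', fgU_ne k k']

theorem fgU_dist (hj : j' ≠ j) {x x' : E ι} {A B A' B' c : ℝ} (h1 : dist x' x ≤ c)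
    (h2 : |A' - A| ≤ c) (h3 : |B' - B| ≤ c) : dist (fgU j j' x' A' B') (fgU j j' x A B) ≤ c := by
  refine (dist_pi_le_iff (dist_nonneg.trans h1)).2 fun i => ?_
  by_cases k : i = j
  · rwa [k, fgU_fst hj, fgU_fst hj]
  · by_cases k' : i = j'
    · rwa [k', fgU_snd, fgU_snd]
    · rw [fgU_ne k k', fgU_ne k k']
      exact (dist_le_pi_dist x' x i).trans h1

theorem fgU_norm (hj : j' ≠ j) (x : E ι) :
    ‖x‖ = max ‖fgU j j' x 0 0‖ (max |x j| |x j'|) := by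
  refine le_antisymm ((pi_norm_le_iff_of_nonneg (le_max_of_le_left (norm_nonneg _))).2 fun i => ?_)
    (max_le ((pi_norm_le_iff_of_nonneg (norm_nonneg _)).2 fun i => ?_)
      (max_le (norm_le_pi_norm x j) (norm_le_pi_norm x j')))
  · by_cases k : i = j
    · exact le_max_of_le_right (k ▸ le_max_left _ _)
    · by_cases k' : i = j'
      · exact le_max_of_le_right (k' ▸ le_max_right _ _)
      · rw [← fgU_ne k k' x 0 0]
        exact le_max_of_le_left (norm_le_pi_norm _ i)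
  · by_cases k : i = j
    · rw [k, fgU_fst hj, norm_zero]
      exact norm_nonneg _
    · by_cases k' : i = j'
      · rw [k', fgU_snd, norm_zero]
        exact norm_nonneg _
      · rw [fgU_ne k k']
        exact norm_le_pi_norm _ i

theorem fg_sabs (hs : s = 1 ∨ s = -1) (x : ℝ) : |s * x| = |x| := by
  rcases hs with rfl | rfl <;> simp

theorem fg_smul (hs : s = 1 ∨ s = -1) (x : ℝ) : s * (s * x) = x := by
  rcases hs with rfl | rfl <;> simp

/-- The point of the two faces at position `φ`. -/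
noncomputable def fgPt (j j' : ι) (s ε : ℝ) (x : E ι) (φ : ℝ) : E ι :=
  fgU j j' x (s * min φ 1) (ε * min 1 (2 - φ))

/-- The finger move. -/
noncomputable def fgX (j j' : ι) (s ε : ℝ) (z : ℝ × E ι) : E ι :=
  fgU j j' z.2 (s * fgA z.1 (s * z.2 j) (ε * z.2 j') ‖fgU j j' z.2 0 0‖)
    (ε * fgB z.1 (s * z.2 j) (ε * z.2 j') ‖fgU j j' z.2 0 0‖)

theorem fgPt_on (hj : j' ≠ j) (hs : s = 1 ∨ s = -1) (hε : ε = 1 ∨ ε = -1) {x : E ι}
    (hx : ‖x‖ = 1) {φ : ℝ} (h : φ ∈ Icc (-1 : ℝ) 3) :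
    ‖fgPt j j' s ε x φ‖ = 1 ∧ (s * fgPt j j' s ε x φ j = 1 ∨ ε * fgPt j j' s ε x φ j' = 1) ∧
      s * fgPt j j' s ε x φ j + 1 - ε * fgPt j j' s ε x φ j' = φ := by
  obtain ⟨k1, k2, k3, k4⟩ := fg_pt h
  have k5 : ‖fgU j j' x 0 0‖ ≤ 1 := hx ▸ (le_max_left _ _).trans (fgU_norm hj x).ge
  rw [fgU_norm hj (fgPt j j' s ε x φ), fgPt, fgU_fgU hj, fgU_fst hj, fgU_snd, fg_sabs hs, fg_sabs hε,
    fg_smul hs, fg_smul hε]
  refine ⟨le_antisymm (max_le k5 (max_le k1 k2)) (le_max_of_le_right ?_), k3, k4⟩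
  rcases k3 with k | k
  · exact le_max_of_le_left (by rw [k, abs_one])
  · exact le_max_of_le_right (by rw [k, abs_one])

theorem fgX_on (hj : j' ≠ j) (hs : s = 1 ∨ s = -1) (hε : ε = 1 ∨ ε = -1) {x : E ι}
    (hx : ‖x‖ = 1) (h : s * x j = 1 ∨ ε * x j' = 1) :
    s * x j + 1 - ε * x j' ∈ Icc (-1 : ℝ) 3 ∧ fgPt j j' s ε x (s * x j + 1 - ε * x j') = x ∧
      ∀ r, fgX j j' s ε (r, x) =
        fgPt j j' s ε x (fgD r ‖fgU j j' x 0 0‖ (s * x j + 1 - ε * x j')) := by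
  have ha : |s * x j| ≤ 1 := by rw [fg_sabs hs, ← hx]; exact norm_le_pi_norm x j
  have hb : |ε * x j'| ≤ 1 := by rw [fg_sabs hε, ← hx]; exact norm_le_pi_norm x j'
  obtain ⟨k1, -, k3, k4, k5⟩ := fg_on ha hb (norm_nonneg (fgU j j' x 0 0)) h
  rw [k1] at k3 k4 k5
  refine ⟨⟨by linarith only [(abs_le.1 ha).1, (abs_le.1 hb).2, ha, hb],
    by linarith only [(abs_le.1 ha).2, (abs_le.1 hb).1, ha, hb]⟩, ?_, fun r => ?_⟩
  · rw [fgPt, ← k3, ← k4, fg_smul hs, fg_smul hε]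
    exact fgU_ext hj rfl rfl fun _ _ _ => rfl
  · rw [fgX, fgPt, (k5 r).1, (k5 r).2]

theorem fgX_off (hj : j' ≠ j) (hs : s = 1 ∨ s = -1) (hε : ε = 1 ∨ ε = -1) {x : E ι}
    (hx : ‖x‖ = 1) (h : ¬(s * x j = 1 ∨ ε * x j' = 1)) (r : ℝ) : fgX j j' s ε (r, x) = x := by
  have ha : |s * x j| ≤ 1 := by rw [fg_sabs hs, ← hx]; exact norm_le_pi_norm x j
  have hb : |ε * x j'| ≤ 1 := by rw [fg_sabs hε, ← hx]; exact norm_le_pi_norm x j'
  have k : ‖fgU j j' x 0 0‖ = 1 ∨ s * x j = -1 ∨ ε * x j' = -1 := by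
    rw [fgU_norm hj x, ← fg_sabs hs (x j), ← fg_sabs hε (x j')] at hx
    rcases max_choice ‖fgU j j' x 0 0‖ (max |s * x j| |ε * x j'|) with e | e
    · exact .inl (e.symm.trans hx)
    · rw [e] at hx
      rcases max_choice |s * x j| |ε * x j'| with e' | e' <;> rw [e'] at hx
      · exact .inr (.inl ((eq_or_eq_neg_of_abs_eq hx).resolve_left fun e => h (.inl e)))
      · exact .inr (.inr ((eq_or_eq_neg_of_abs_eq hx).resolve_left fun e => h (.inr e)))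
  obtain ⟨k1, k2⟩ := fg_off (r := r) (abs_le.1 ha).1 k (abs_le.1 hb).2
  rw [fgX, k1, k2, fg_smul hs, fg_smul hε]
  exact fgU_ext hj rfl rfl fun _ _ _ => rfl

theorem fgX_lip (hj : j' ≠ j) (hs : s = 1 ∨ s = -1) (hε : ε = 1 ∨ ε = -1) {z : ℝ × E ι}
    (hz : z.1 ∈ Icc (0 : ℝ) 1) (z' : ℝ × E ι) :
    dist (fgX j j' s ε z') (fgX j j' s ε z) ≤ gs 1000 1000 z z' := by
  have k := fg_lip (r' := z'.1) (d := dist z'.2 z.2) (a := s * z.2 j) (a' := s * z'.2 j)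
    (b := ε * z.2 j') (b' := ε * z'.2 j') hz (norm_nonneg (fgU j j' z.2 0 0))
    (norm_nonneg (fgU j j' z'.2 0 0))
    (by rw [← mul_sub, fg_sabs hs]; exact dist_le_pi_dist z'.2 z.2 j)
    (by rw [← mul_sub, fg_sabs hε]; exact dist_le_pi_dist z'.2 z.2 j')
    ((abs_norm_sub_norm_le _ _).trans ((dist_eq_norm _ _).ge.trans
      (fgU_dist hj le_rfl (by simp) (by simp))))
  have d1 := dist_nonneg (x := z'.2) (y := z.2)
  have d2 := abs_nonneg (z'.1 - z.1)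
  rw [gs, Real.dist_eq]
  refine fgU_dist hj (by linarith only [d1, d2]) ?_ ?_
  · rw [← mul_sub, fg_sabs hs]
    linarith only [k.1, k, d1, d2]
  · rw [← mul_sub, fg_sabs hε]
    linarith only [k.2, k, d1, d2]

theorem fgPt_two (hj : j' ≠ j) {x : E ι} (h : ‖fgU j j' x 0 0‖ = 0) :
    fgPt j j' s ε x 2 = Pi.single j s := by
  refine fgU_ext hj (by norm_num) (by simp [hj]) fun i k k' => ?_
  rw [← fgU_ne k k' x 0 0, norm_eq_zero.1 h, Pi.single_eq_of_ne k, Pi.zero_apply]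

omit [Fintype ι] in
theorem fgU_cont (j j' : ι) : Continuous fun x : E ι => fgU j j' x 0 0 := by
  unfold fgU
  fun_prop

theorem fgX_cont (j j' : ι) (s ε : ℝ) : Continuous (fgX j j' s ε) := by
  unfold fgX fgU fgA fgB fgD fgR fgP fgT0 fgT1 fgG0 fgG1
  fun_prop

/-- The lower bound for the finger move. -/
theorem fgX_lo (hj : j' ≠ j) (hs : s = 1 ∨ s = -1) (hε : ε = 1 ∨ ε = -1) {z : ℝ × E ι}
    (hz : z ∈ Icc (0 : ℝ) 1 ×ˢ sphere (0 : E ι) 1) (k : fgX j j' s ε z ≠ Pi.single j s)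
    {P : ℝ × E ι → Prop} : Dm (Icc (0 : ℝ) 1 ×ˢ sphere (0 : E ι) 1) P (fun w => w.2)
      (fun w => (w.1, fgX j j' s ε w)) z := by
  have cl : IsClosed (Icc (0 : ℝ) 1 ×ˢ sphere (0 : E ι) 1) := isClosed_Icc.prod isClosed_sphere
  have c1 : IsClosed {w : ℝ × E ι | w ∈ Icc (0 : ℝ) 1 ×ˢ sphere (0 : E ι) 1 ∧
      (s * w.2 j = 1 ∨ ε * w.2 j' = 1)} :=
    cl.inter ((isClosed_eq (by fun_prop) continuous_const).union
      (isClosed_eq (by fun_prop) continuous_const))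
  have c2 : IsClosed {w : ℝ × E ι | w.2 = fgX j j' s ε w} :=
    isClosed_eq continuous_snd (fgX_cont j j' s ε)
  refine Dm.union (fun w hw => ?_) hz (fun _ _ a => c1.closure_subset a)
    (fun _ _ a => c2.closure_subset a) (fun a => ?_) fun _ => Dm.pr2.congrL fun _ a => a
  · by_cases h : s * w.2 j = 1 ∨ ε * w.2 j' = 1
    · exact .inl ⟨hw, h⟩
    · exact .inr (fgX_off hj hs hε (mem_sphere_zero_iff_norm.1 hw.2) h w.1).symm
  · have on := fun w : ℝ × E ι => fun b : w ∈ {w : ℝ × E ι | w ∈ Icc (0 : ℝ) 1 ×ˢ sphere (0 : E ι) 1 ∧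
        (s * w.2 j = 1 ∨ ε * w.2 j' = 1)} => fgX_on hj hs hε (mem_sphere_zero_iff_norm.1 b.1.2) b.2
    have d1 := ((fgD_dm (P := fun _ => True)
      (z := (z.1, ‖fgU j j' z.2 0 0‖, s * z.2 j + 1 - ε * z.2 j')) ⟨hz.1, norm_nonneg _⟩ fun b =>
        k (((on z a).2.2 z.1).trans (by rw [show fgD _ _ _ = 2 from b.2]; exact fgPt_two hj b.1))).comp'
      (Φ := fun w : ℝ × E ι => (w.1, ‖fgU j j' w.2 0 0‖, s * w.2 j + 1 - ε * w.2 j'))
      (R' := {w : ℝ × E ι | w ∈ Icc (0 : ℝ) 1 ×ˢ sphere (0 : E ι) 1 ∧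
        (s * w.2 j = 1 ∨ ε * w.2 j' = 1)}) (fun w b => ⟨b.1.1, norm_nonneg _⟩)
      (continuous_fst.prodMk ((((fgU_cont j j').comp continuous_snd).norm).prodMk
        (by fun_prop)))).imp (P' := P) fun _ _ _ => trivial
    have x0 : Dm {w : ℝ × E ι | w ∈ Icc (0 : ℝ) 1 ×ˢ sphere (0 : E ι) 1 ∧
        (s * w.2 j = 1 ∨ ε * w.2 j' = 1)} P (fgX j j' s ε) (fun w => (w.1, fgX j j' s ε w)) z :=
      Dm.pr2
    have d2 := d1.trans (Dm.pr1.prod
      ((((x0.update (Dm.const 0) j).update (Dm.const 0) j').norm.congrL fun w _ => by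
        change _ = ‖fgU j j' (fgX j j' s ε w) 0 0‖
        rw [fgX, fgU_fgU hj]).prod
      (((((x0.apply j).cmul s).add (Dm.const 1)).sub ((x0.apply j').cmul ε)).congrL fun w b => by
        rw [show fgX j j' s ε w = _ from (on w b).2.2 w.1]
        exact (fgPt_on hj hs hε (mem_sphere_zero_iff_norm.1 b.1.2)
          (fgD_mem b.1.1 (norm_nonneg _) (on w b).1)).2.2.symm)))
    refine ((x0.update ((d2.min (Dm.const 1)).cmul s) j).update
      (((Dm.const 1).min ((Dm.const 2).sub d2)).cmul ε) j').congrL fun w b => ?_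
    change _ = fgU j j' (fgX j j' s ε w) _ _
    rw [fgX, fgU_fgU hj]
    exact (on w b).2.1.symm

theorem fgX_sol (hj : j' ≠ j) (hs : s = 1 ∨ s = -1) (hε : ε = 1 ∨ ε = -1) :
    Sol ({Pi.single j s}ᶜ : Set (E ι)) (pbP (Icc (0 : ℝ) 1) (sphere 0 1) ∅ (fgX j j' s ε)
      (sphere 0 1) (gs 1000 1000) 1) univ (fgX j j' s ε) := by
  have hA : ∀ r ∈ Icc (0 : ℝ) 1, ∀ x : E ι, ‖x‖ = 1 → (s * x j = 1 ∨ ε * x j' = 1) →
      ‖fgX j j' s ε (r, x)‖ = 1 ∧
        (s * fgX j j' s ε (r, x) j = 1 ∨ ε * fgX j j' s ε (r, x) j' = 1) ∧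
        s * fgX j j' s ε (r, x) j + 1 - ε * fgX j j' s ε (r, x) j' =
          fgD r ‖fgU j j' x 0 0‖ (s * x j + 1 - ε * x j') := fun r hr x hx h => by
    obtain ⟨k1, -, k3⟩ := fgX_on hj hs hε hx h
    rw [k3]
    exact fgPt_on hj hs hε hx (fgD_mem hr (norm_nonneg _) k1)
  refine ⟨fun z hz _ => ⟨hz.1, ?_⟩, fun z hz => hz.2.elim, fun z hz => hz.2.elim,
    fun t y k _ _ => ?_, fun t x x' k1 k2 k3 _ e => ?_, fun z hz _ _ => ?_,
    fun z hz k _ => fgX_lo hj hs hε hz k⟩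
  · have hx := mem_sphere_zero_iff_norm.1 hz.2
    by_cases h : s * z.2 j = 1 ∨ ε * z.2 j' = 1
    · exact mem_sphere_zero_iff_norm.2 (hA z.1 hz.1 z.2 hx h).1
    · rw [show z = (z.1, z.2) from rfl, fgX_off hj hs hε hx h]
      exact hz.2
  · have hy := mem_sphere_zero_iff_norm.1 k.2
    by_cases h : s * y j = 1 ∨ ε * y j' = 1
    · obtain ⟨k1, k2, -⟩ := fgX_on hj hs hε hy h
      obtain ⟨φ, hφ, e⟩ := fgD_surj (r := t) (ρ := ‖fgU j j' y 0 0‖) k1
      obtain ⟨m1, m2, m3⟩ := fgPt_on hj hs hε hy hφ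
      refine ⟨fgPt j j' s ε y φ, ⟨k.1, mem_sphere_zero_iff_norm.2 m1⟩, ?_⟩
      rw [(fgX_on hj hs hε m1 m2).2.2 t, m3]
      conv_lhs => rw [fgPt, fgPt, fgU_fgU hj, fgU_fgU hj, e]
      exact k2
    · exact ⟨y, k, fgX_off hj hs hε hy h t⟩
  · have hx : ‖x‖ = 1 := mem_sphere_zero_iff_norm.1 k1.2
    have hx' : ‖x'‖ = 1 := mem_sphere_zero_iff_norm.1 k2.2
    by_cases h : s * x j = 1 ∨ ε * x j' = 1 <;> by_cases h' : s * x' j = 1 ∨ ε * x' j' = 1
    · have e0 : fgU j j' x' 0 0 = fgU j j' x 0 0 := by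
        have := congrArg (fun y => fgU j j' y 0 0) e
        simpa only [fgX, fgU_fgU hj] using this
      have e1 := (hA t k1.1 x' hx' h').2.2
      rw [e, (hA t k1.1 x hx h).2.2, e0] at e1
      have e2 : s * x' j + 1 - ε * x' j' = s * x j + 1 - ε * x j' := by
        by_contra ne
        have : ‖fgU j j' x 0 0‖ = 0 ∧ fgD t ‖fgU j j' x 0 0‖ (s * x j + 1 - ε * x j') = 2 := by
          rcases lt_or_gt_of_ne ne with l | l
          · exact e1 ▸ fgD_lt k1.1 (norm_nonneg _) l e1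
          · exact fgD_lt k1.1 (norm_nonneg _) l e1.symm
        apply k3
        rw [(fgX_on hj hs hε hx h).2.2 t, this.2]
        exact fgPt_two hj this.1
      rw [← (fgX_on hj hs hε hx h).2.1, ← (fgX_on hj hs hε hx' h').2.1, e2, fgPt, fgPt,
        ← fgU_fgU hj x' 0 0, e0, fgU_fgU hj]
    · have := (hA t k1.1 x hx h).2.1
      rw [← e, fgX_off hj hs hε hx' h'] at this
      exact (h' this).elim
    · have := (hA t k1.1 x' hx' h').2.1
      rw [e, fgX_off hj hs hε hx h] at this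
      exact (h this).elim
    · rwa [fgX_off hj hs hε hx h, fgX_off hj hs hε hx' h'] at e
  · have k : ∀ z', dist (fgX j j' s ε z') (fgX j j' s ε z) ≤ gs 1000 1000 z z' :=
      fgX_lip hj hs hε hz.1
    refine ⟨tendsto_iff_dist_tendsto_zero.2
      (squeeze_zero (fun _ => dist_nonneg) k ?_), Eventually.of_forall k⟩
    have t1 : Continuous (gs 1000 1000 z) := by unfold gs; fun_prop
    have t2 : gs 1000 1000 z z = 0 := by simp [gs]
    exact t2 ▸ t1.continuousWithinAt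

end Up

/-- A finger from the centre of the face normal to `j'` to the centre of the face normal to `j`. -/
theorem finger {j j' : ι} (hj : j' ≠ j) {s ε : ℝ} (hs : s = 1 ∨ s = -1) (hε : ε = 1 ∨ ε = -1) :
    ∃ (χ : ℝ × E ι → E ι) (R : E ι → E ι), IsSP R ∧ R (Pi.single j' ε) = Pi.single j s ∧
      Sol ({Pi.single j s}ᶜ : Set (E ι))
        (pbP (Icc (0 : ℝ) 1) (sphere 0 1) ∅ χ (sphere 0 1) (gs 1000 1000) 1) univ χ ∧
      (∀ r ∈ Icc (0 : ℝ) 1, χ (r, Pi.single j' ε) = Pi.single j s ∧ ∀ x, ‖x‖ = 1 → ε * x j' ≤ 0 →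
        1 / 2 ≤ dist x (Pi.single j s) → χ (r, x) = x) ∧
      (∀ x, ‖x‖ = 1 → (ε * x j' ≤ 0 → χ (1, x) = x) ∧ (0 ≤ ε * x j' → 0 ≤ ε * χ (1, x) j')) ∧
      ∀ v : E ι, v j' = 0 → ‖v‖ ≤ 1 / 3 → χ (0, Pi.single j' ε + v) = Pi.single j s + R v := by
  have εε : ε * ε = 1 := by rcases hε with rfl | rfl <;> norm_num
  have hb : ∀ x : E ι, ‖x‖ = 1 → s * x j ≤ 1 := fun x hx =>
    (le_abs_self _).trans (by rw [fg_sabs hs, ← hx]; exact norm_le_pi_norm x j)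
  refine ⟨fgX j j' s ε, fun x i => (if i = j then ε * s else if i = j' then -(ε * s) else 1) *
    x (Equiv.swap j j' i), ⟨Equiv.swap j j', _, fun i => ?_, fun _ _ => rfl⟩, ?_,
    fgX_sol hj hs hε, fun r _ => ⟨?_, fun x hx h1 h2 => ?_⟩, fun x hx => ⟨fun h => ?_, fun h => ?_⟩,
    fun v h1 h2 => ?_⟩
  · rcases hs with rfl | rfl <;> rcases hε with rfl | rfl <;> split_ifs <;> simp
  · funext i
    by_cases k : i = j
    · simp only [k, if_true, Equiv.swap_apply_left, Pi.single_eq_same]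
      rw [mul_right_comm, εε, one_mul]
    · by_cases k' : i = j'
      · simp [k', hj, hj.symm]
      · simp [k, k', Equiv.swap_apply_of_ne_of_ne k k']
  · have n1 := (hp_single j' hε).1
    have e0 : fgU j j' (Pi.single j' ε : E ι) 0 0 = 0 :=
      fgU_ext hj rfl rfl fun i _ k' => by rw [Pi.single_eq_of_ne k', Pi.zero_apply]
    rw [(fgX_on hj hs hε n1 (.inr (by rw [Pi.single_eq_same, εε]))).2.2 r, e0, norm_zero,
      Pi.single_eq_same, Pi.single_eq_of_ne hj.symm, εε, mul_zero, zero_add, sub_self, fgD_zero]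
    exact fgPt_two hj (by rw [e0, norm_zero])
  · by_cases h : s * x j = 1 ∨ ε * x j' = 1
    · obtain ⟨-, k2, k3⟩ := fgX_on hj hs hε hx h
      have a1 : s * x j = 1 := h.resolve_right (by linarith only [h1])
      rw [k3, fgD_far, k2]
      rw [dist_eq_norm, fgU_norm hj, Pi.sub_apply, Pi.sub_apply, Pi.single_eq_same,
        Pi.single_eq_of_ne hj, sub_zero, ← fg_smul hs (x j), a1, mul_one, sub_self, abs_zero,
        ← fg_sabs hε, abs_of_nonpos h1, show fgU j j' (x - Pi.single j s) 0 0 = fgU j j' x 0 0 from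
          fgU_ext hj (fgU_fst hj _ _ _) (fgU_snd _ _ _) fun i k k' => by
            rw [fgU_ne k k', Pi.sub_apply, Pi.single_eq_of_ne k, sub_zero]] at h2
      rcases le_max_iff.1 h2 with k | k
      · exact .inl k
      · rcases le_max_iff.1 k with k | k
        · linarith only [k]
        · exact .inr (.inr (by linarith only [a1, k]))
    · exact fgX_off hj hs hε hx h r
  · by_cases h' : s * x j = 1 ∨ ε * x j' = 1
    · obtain ⟨-, k2, k3⟩ := fgX_on hj hs hε hx h'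
      have a1 : s * x j = 1 := h'.resolve_right (by linarith only [h])
      rw [k3, fgD_one_ge (by linarith only [h, a1]), k2]
    · exact fgX_off hj hs hε hx h' 1
  · by_cases h' : s * x j = 1 ∨ ε * x j' = 1
    · rw [(fgX_on hj hs hε hx h').2.2, fgPt, fgU_snd, fg_smul hε]
      exact le_min zero_le_one (sub_nonneg.2 (fgD_one_le (norm_nonneg _) (by linarith only [hb x hx, h, hx])))
    · rwa [fgX_off hj hs hε hx h']
  · have e0 : fgU j j' (Pi.single j' ε + v : E ι) 0 0 = fgU j j' v 0 0 :=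
      fgU_ext hj (fgU_fst hj _ _ _) (fgU_snd _ _ _) fun i k k' => by
        rw [fgU_ne k k', Pi.add_apply, Pi.single_eq_of_ne k', zero_add]
    have e1 : (Pi.single j' ε + v : E ι) j = v j := by
      rw [Pi.add_apply, Pi.single_eq_of_ne hj.symm, zero_add]
    have e2 : (Pi.single j' ε + v : E ι) j' = ε := by
      rw [Pi.add_apply, Pi.single_eq_same, h1, add_zero]
    have n0 : ‖fgU j j' v 0 0‖ ≤ 1 / 3 := ((le_max_left _ _).trans (fgU_norm hj v).ge).trans h2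
    have n1 : |v j| ≤ 1 / 3 := (norm_le_pi_norm v j).trans h2
    have n2 : |ε| = 1 := by rcases hε with rfl | rfl <;> simp
    have n3 : ‖(Pi.single j' ε + v : E ι)‖ = 1 := by
      rw [fgU_norm hj, e0, e1, e2, n2, max_eq_right (a := |v j|) (by linarith only [n1]),
        max_eq_right (by linarith only [n0])]
    have n4 : |s * v j| ≤ 1 / 3 := by rwa [fg_sabs hs]
    have n5 := abs_le.1 n4
    rw [(fgX_on hj hs hε n3 (.inr (by rw [e2, εε]))).2.2, e0, e1, e2, εε, add_sub_cancel_right,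
      fgD_near n0 n4, fgPt, min_eq_right (by linarith only [n5]), min_eq_right (by linarith only [n5])]
    refine fgU_ext hj (by simp [h1]) (by simp [hj, mul_assoc]) fun i k k' => ?_
    simp [k, k', Equiv.swap_apply_of_ne_of_ne k k']

omit [DecidableEq ι] in
theorem HDisp.dmLe {i0 j : ι} {K K' ε : ℝ} {p : E ι} {L : E ι → E ι} {Γ : ℝ × E ι → E ι}
    (h : HDisp i0 K j ε p L Γ) (hK : K ≤ K') : HDisp i0 K' j ε p L Γ :=
  ⟨h.1.mono rfl (fun _ k => k) (fun _ _ => Ap.rfl) (fun _ _ _ => Iff.rfl)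
    (fun _ _ => Eventually.of_forall fun _ => by
      simp only [pbP, gs]
      gcongr) Subset.rfl, h.2⟩

omit [DecidableEq ι] in
/-- A half display followed by a self-map of the sphere which fixes the other half. -/
theorem HDisp.dmAfter {i0 j : ι} {K K' ε : ℝ} (hK' : 0 ≤ K') {e q : E ι}
    {L : E ι → E ι} {Γ : ℝ × E ι → E ι} (h : HDisp i0 K j ε e L Γ) {χ χ0 : ℝ × E ι → E ι}
    (hχ : Sol ({q}ᶜ : Set (E ι))
      (pbP (Icc (0 : ℝ) 1) (sphere 0 1) ∅ χ0 (sphere 0 1) (gs K' K') 1) univ χ)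
    (hq : ‖q‖ = 1) (he : χ (1, e) = q) (hL : ∀ ω ∈ Cs i0, L ω j = 0)
    (h1 : ∀ x, ‖x‖ = 1 → (ε * x j ≤ 0 → χ (1, x) = x) ∧ (0 ≤ ε * x j → 0 ≤ ε * χ (1, x) j)) :
    HDisp i0 (K' * K) j ε q L fun z => χ (1, Γ z) := by
  have one : (1 : ℝ) ∈ Icc (0 : ℝ) 1 := ⟨zero_le_one, le_rfl⟩
  have hn : ∀ x, ‖x‖ = 1 → ‖χ (1, x)‖ = 1 := fun x hx => by
    by_cases k : χ (1, x) = q
    · rwa [k]
    · exact mem_sphere_zero_iff_norm.1
        (hχ.maps (1, x) ⟨one, mem_sphere_zero_iff_norm.2 hx⟩ k).2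
  have hne : ∀ z, χ (1, Γ z) ∈ ({q}ᶜ : Set (E ι)) → Γ z ∈ ({e}ᶜ : Set (E ι)) := fun z k k' =>
    k (by rw [show Γ z = e from k', he]; rfl)
  refine ⟨?_, fun n hn' ω hω => ⟨hn _ (h.2.1 n hn' ω hω).1,
    (h1 _ (h.2.1 n hn' ω hω).1).2 (h.2.1 n hn' ω hω).2⟩, fun ω hω => ⟨?_, ?_⟩⟩
  · refine Sol.comp hχ (fun _ : Unit => (1 : ℝ)) (fun z : Unit × (ℝ × E ι) => Γ z.2)
      ?_ ?_ ?_ ?_ ?_ ?_ ?_ fun z hz m => ⟨Dm.const _,
        (h.1.lo z hz (hne _ m) trivial).imp fun _ _ a => ⟨hne _ a, trivial⟩⟩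
    · exact fun z hz => ⟨one, mem_sphere_zero_iff_norm.2 (h.2.1 _ hz.2.1 _ hz.2.2).1⟩
    · exact fun z hz _ _ => ⟨trivial, hn _ (h.2.1 _ hz.2.1 _ hz.2.2).1,
        (h1 _ (h.2.1 _ hz.2.1 _ hz.2.2).1).2 (h.2.1 _ hz.2.1 _ hz.2.2).2⟩
    · exact fun _ _ k _ => ⟨one, mem_sphere_zero_iff_norm.2 k.2.1⟩
    · intro t y k k' _ x hx e'
      have hx' : ‖x‖ = 1 := mem_sphere_zero_iff_norm.1 hx.2
      refine h.1.ex t x ⟨trivial, hx', ?_⟩ (fun m => k' ?_) trivial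
      · refine (le_total _ _).elim id fun m => ?_
        rw [(h1 x hx').1 m] at e'
        exact e' ▸ k.2.2
      · rw [← e', show x = e from m, he]
        rfl
    · exact fun t x x' k k' m => h.1.uq t x x' k k' (hne _ m) trivial
    · intro z hz m
      obtain ⟨a1, a2⟩ := h.1.lip z hz (hne _ m) trivial
      refine ⟨continuousWithinAt_const.prodMk a1, a2.mono fun z' a3 => ?_⟩
      simp only [pbP, gs, dist_self, add_zero, mul_zero] at a3 ⊢
      rw [mul_assoc]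
      exact mul_le_mul_of_nonneg_left a3 hK'
    · exact fun _ hz => hz.2.elim
  · simp only [(h.2.2 ω hω).1, he]
  · have := (h.2.1 1 one ω hω).1
    simp only [(h.2.2 ω hω).2] at this ⊢
    exact (h1 _ this).1 (by rw [hL ω hω, mul_zero])

theorem exists_adapt [Nontrivial ι] (i0 : ι) : ∃ K : ℝ, 1 ≤ K ∧
    ∀ (p : E ι) (j j' : ι) (s : ℝ) (L : E ι → E ι), Hp p → (s = 1 ∨ s = -1) → p ≠ Pi.single j s →
      IsSP L → L (Pi.single i0 1) = Pi.single j s → j' ≠ j →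
      ∃ ε Ξ0 Ξ' Ξ1 Ξ2 p1 q2, GXL i0 K p (Pi.single j s) L Ξ0 ∧
        DMov i0 K p (Pi.single j s) Ξ0 Ξ' ∧
        Adapt i0 K p (Pi.single j s) j' ε Ξ' Ξ1 Ξ2 p1 q2 := by
  obtain ⟨K, hK, H⟩ := half_disp i0
  have k5 : (5 : ℝ) ≤ K + 5 := by linarith only [hK]
  refine ⟨4 * (1000 * (K + 5)) + 4, by linarith only [hK], fun p j j' s L hp hs hpq hL he hj => ?_⟩
  obtain ⟨ε, hε, hp'⟩ : ∃ ε : ℝ, (ε = 1 ∨ ε = -1) ∧ ε * p j' ≤ 0 := by
    rcases le_total (p j') 0 with k | k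
    · exact ⟨1, .inl rfl, by linarith only [k]⟩
    · exact ⟨-1, .inr rfl, by linarith only [k]⟩
  have hε' : -ε = 1 ∨ -ε = -1 := by rcases hε with rfl | rfl <;> simp
  obtain ⟨χ, R, hR, R1, hχ, f1, f2, f3⟩ := finger hj hs hε
  obtain ⟨R', hR', i1, i2⟩ := hR.inv
  have hL' : IsSP fun x => R' (L x) := hR'.comp hL
  have he' : R' (L (Pi.single i0 1)) = Pi.single j' ε := by rw [he, ← R1, i1]
  have cs : ∀ ⦃ω⦄, ω ∈ Cs i0 → R' (L ω) ∈ Cs j' := (hL'.cs hε he').mapsTo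
  obtain ⟨Γ1, g1⟩ := H j' (-ε) ε p _ hε' hε hL' he' hp.1 (by linarith only [hp'])
  obtain ⟨Γ0, g0, germ⟩ := half_std hL' hε he'
  replace g1 := g1.dmLe (K' := K + 5) (by linarith only [])
  replace g0 := g0.dmLe k5
  have hq := hp_single j hs
  have dX := disp_dcat (by linarith only [hK]) hε hε hL' he' g1 g0
  have dM := dX.post (by linarith only [hK]) (by norm_num) hχ hq.1 hp.1 (hp_single j' hε).1 hpq
    fun r hr => ⟨(f1 r hr).2 p hp.1 hp' (hp.dist hq hpq), (f1 r hr).1⟩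
  have one : (1 : ℝ) ∈ Icc (0 : ℝ) 1 := ⟨zero_le_one, le_rfl⟩
  have g2 := g0.dmAfter (by norm_num) hχ hq.1 (f1 1 one).1 (fun ω hω => (cs hω).1) f2
  obtain ⟨Ξ1, Ξ2, p1, q2, ad⟩ := adapt_of_halves (by linarith only [hK]) hε hL' he' hp hq
    (g1.dmLe (K' := 1000 * (K + 5)) (by linarith only [hK])) g2
  refine ⟨ε, fun z => χ (0, dcat Γ1 Γ0 z), fun z => χ (1, dcat Γ1 Γ0 z), Ξ1, Ξ2, p1, q2,
    ⟨(dM.slice ⟨le_rfl, zero_le_one⟩).mono (by linarith only [hK]), fun n hn ω hω => ?_⟩,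
    DMov.mono ⟨_, dM, fun _ _ _ _ => ⟨rfl, rfl⟩⟩ (by linarith only [hK]), ad.congr fun n hn ω hω => ?_⟩
  · have m1 : max 0 ((7 - 8 * n) / 3) ≤ 1 / 3 := max_le (by norm_num) (by linarith only [hn.1])
    simp only [dcat]
    rw [if_neg (by linarith only [hn.1]), germ _ ⟨by linarith only [hn.2], by linarith only [hn.1]⟩ ω hω,
      show (4 * (2 - 2 * n) - 1) / 3 = (7 - 8 * n) / 3 by ring, f3, hR.smul, i2]
    · rw [Pi.smul_apply, (cs hω).1, smul_zero]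
    · rwa [norm_smul, (cs hω).2, mul_one, Real.norm_of_nonneg (le_max_left _ _)]
  · simp only [dcat]
    split_ifs with k
    · have := g1.2.1 (2 * n) ⟨by linarith only [hn.1], by linarith only [k]⟩ ω hω
      exact (f2 _ this.1).1 (by linarith only [this.2, this])
    · rfl

omit [Fintype ι] [DecidableEq ι] in
theorem dm_rev_rev (Ξ : ℝ × E ι → E ι) : rev (rev Ξ) = Ξ := by
  funext z
  simp [rev]

theorem GoodX.dmGxl {i0 j : ι} {K : ℝ} {p q : E ι} {Ξ : ℝ × E ι → E ι} (h : GoodX i0 K p q j Ξ) :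
    ∃ s L, (s = 1 ∨ s = -1) ∧ q = Pi.single j s ∧ IsSP L ∧ L (Pi.single i0 1) = q ∧
      GXL i0 K p q L Ξ := by
  obtain ⟨h1, -, -, h4, L, h5, h6, h7⟩ := h
  rcases h4 with k | k
  · exact ⟨1, L, .inl rfl, k, h5, h6, h1, h7⟩
  · exact ⟨-1, L, .inr rfl, k, h5, h6, h1, h7⟩

theorem exists_disp [Nontrivial ι] (i0 : ι) : ∃ K0 K1 : ℝ, DSp i0 K0 K1 := by
  obtain ⟨K, hK, H⟩ := exists_adapt i0
  obtain ⟨K', hK', A⟩ := alex i0 (K + 16)
  have d1 : ∀ p q j Ξ j', GoodX i0 (K + 16) p q j Ξ → j' ≠ j → ∃ ε Ξ' Ξ1 Ξ2 p1 q2,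
      DMov i0 (2 * (K + K') + 400) p q Ξ Ξ' ∧ Adapt i0 (K + 16) p q j' ε Ξ' Ξ1 Ξ2 p1 q2 := by
    intro p q j Ξ j' h hj
    obtain ⟨s, L, hs, rfl, hL, he, g⟩ := h.dmGxl
    obtain ⟨ε, Ξ0, Ξ', Ξ1, Ξ2, p1, q2, a1, a2, a3⟩ := H p j j' s L h.2.1 hs h.2.2.1 hL he hj
    have a4 := (A p _ L h.2.1 h.2.2.1 hL he Ξ g).2 Ξ0 ⟨a1.1.mono (by linarith only []), a1.2⟩
    exact ⟨ε, Ξ', Ξ1, Ξ2, p1, q2, ((a4.mono (K' := K + K') (by linarith only [hK])).trans (by linarith only [hK, hK'])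
      (a2.mono (by linarith only [hK']))).mono (by linarith only []), a3.mono (by linarith only [])⟩
  have d2 : ∀ p q j Ξ, GoodX i0 (K + 16) p q j Ξ →
      ∃ O, IsSP O ∧ SMov (2 * (K + K') + 400) p q (hat i0 p q Ξ) O := by
    intro p q j Ξ h
    obtain ⟨s, L, -, -, hL, he, g⟩ := h.dmGxl
    exact ⟨L, hL, (A p q L h.2.1 h.2.2.1 hL he Ξ g).1.mono (by linarith only [hK, hK'])⟩
  refine ⟨K + 16, 2 * (K + K') + 400, by linarith only [hK], by linarith only [hK, hK'], fun p q j Ξ j' h hj => ?_,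
    fun p q j Ξ h => ?_, fun j => ?_⟩
  · rcases h with h | h
    · exact d1 p q j Ξ j' h hj
    · obtain ⟨ε, Ξ', Ξ1, Ξ2, p1, q2, a1, a2⟩ := d1 q p j _ j' h hj
      exact ⟨-ε, rev Ξ', rev Ξ2, rev Ξ1, q2, p1, dm_rev_rev Ξ ▸ a1.rev, a2.rev⟩
  · rcases h with h | h
    · exact d2 p q j Ξ h
    · obtain ⟨O, a1, a2⟩ := d2 q p j _ h
      exact ⟨fun x => O (rfx i0 x), a1.comp (isSP_rfx i0), (a2.pre (isSP_rfx i0)).swap.congr
        fun x hx => ⟨Ap.of_eq (hat_rev hx).symm, Ap.rfl⟩⟩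
  · obtain ⟨O, hO, -, he⟩ := exists_SP i0 j (s := 1) (.inl rfl)
    have he' : O (Pi.single i0 (-1)) = Pi.single j (-1) := by
      rw [Pi.single_neg, Pi.single_neg, ← neg_one_smul ℝ, hO.smul, he, neg_one_smul]
    have l : ∀ c : ℝ, 0 < c → MonotoneOn (fun n : ℝ => c * n) (Icc 0 1) ∧
        (∀ n n' : ℝ, c * n' = c * n → n' = n) ∧ ∀ n n' : ℝ, |c * n' - c * n| ≤ c * |n' - n| :=
      fun c hc => ⟨fun _ _ _ _ k => mul_le_mul_of_nonneg_left k hc.le,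
        fun _ _ k => mul_left_cancel₀ hc.ne' k, fun _ _ => by rw [← mul_sub, abs_mul, abs_of_pos hc]⟩
    have l' : ∀ c : ℝ, 1 ≤ c → ∀ n n' : ℝ, |n' - n| ≤ |c * n' - c * n| := fun c hc n n' => by
      rw [← mul_sub, abs_mul, abs_of_pos (one_pos.trans_le hc)]
      exact le_mul_of_one_le_left (abs_nonneg _) hc
    obtain ⟨g1, g2⟩ := hdisp_usp hO (.inl rfl) he (ζ := fun n => 2 * n) zero_le_two (mul_zero _)
      (mul_one _) (l 2 two_pos).1 (fun n _ n' _ _ => (l 2 two_pos).2.1 n n')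
      (fun n _ n' _ => (l 2 two_pos).2.2 n n') fun n _ n' _ _ _ => l' 2 one_le_two n n'
    obtain ⟨Ξ1, Ξ2, p1, q2, ad⟩ := adapt_of_halves (by norm_num) (.inl rfl) hO he
      (hp_single j (.inr rfl)) (hp_single j (.inl rfl)) g1 g2
    have sm := (smov_usp (i0 := i0) (η := fun n => 4 * n) (c := 4) (by norm_num) (mul_zero _)
      (mul_one _) (l 4 four_pos).1 (fun n _ n' _ _ _ => (l 4 four_pos).2.1 n n')
      (fun n _ n' _ => (l 4 four_pos).2.2 n n')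
      fun n _ n' _ _ _ _ _ => l' 4 (by norm_num) n n').sp hO
    refine ⟨O, fun z => O (usp i0 (4 * z.1) z.2), Ξ1, Ξ2, p1, q2, hO,
      (ad.mono (by linarith only [hK])).congr fun n _ ω _ => ?_, ?_⟩
    · simp only [dcat]
      split_ifs
      · congr 2
        ring
      · congr 2
        ring
    · simp only [← hat_sp, he, he'] at sm
      exact sm.mono (by linarith only [hK, hK'])

end Pool.Agent.Lib.MP_ecd4e3_gt.NB
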