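import Pool.Agent.Lib.MP_ecd4e3_gt.NB.DBase

/-! Suspension coordinates. -/

namespace Pool.Agent.Lib.MP_ecd4e3_gt.NB

open Set Filter Topology Metric MeasureTheory
open scoped NNReal ENNReal

variable {ι : Type} [Fintype ι] [DecidableEq ι] {i0 : ι}

/-- The radius of the parallel at length `σ`. -/
noncomputable def dsA (σ : ℝ) : ℝ := min 1 (min σ (4 - σ))
/-- The height of the parallel at length `σ`. -/
noncomputable def dsB (σ : ℝ) : ℝ := cl (-1) 1 (σ - 2)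

omit [Fintype ι] in
theorem ds_usp (σ : ℝ) (ω : E ι) :
    usp i0 σ ω = dsA σ • ω + dsB σ • (Pi.single i0 1 : E ι) := rfl

theorem dsA_lo {σ : ℝ} (h : σ ≤ 1) : dsA σ = σ ∧ dsB σ = -1 := by
  constructor <;> simp only [dsA, dsB, cl, min_def, max_def] <;> split_ifs <;> linarith

theorem dsA_mid {σ : ℝ} (h : 1 ≤ σ) (h' : σ ≤ 3) : dsA σ = 1 ∧ dsB σ = σ - 2 := by
  constructor <;> simp only [dsA, dsB, cl, min_def, max_def] <;> split_ifs <;> linarith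

theorem dsA_hi {σ : ℝ} (h : 3 ≤ σ) : dsA σ = 4 - σ ∧ dsB σ = 1 := by
  constructor <;> simp only [dsA, dsB, cl, min_def, max_def] <;> split_ifs <;> linarith

theorem dsA_le (σ : ℝ) : dsA σ ≤ 1 := min_le_left _ _

theorem dsA_nonneg {σ : ℝ} (h : σ ∈ Icc (0 : ℝ) 4) : 0 ≤ dsA σ :=
  le_min zero_le_one (le_min h.1 (sub_nonneg.2 h.2))

theorem dsA_pos {σ : ℝ} (h : 0 < σ) (h' : σ < 4) : 0 < dsA σ :=
  lt_min zero_lt_one (lt_min h (sub_pos.2 h'))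

theorem dsA_lip (σ σ' : ℝ) : |dsA σ' - dsA σ| ≤ |σ' - σ| := by
  have h1 := le_abs_self (σ' - σ)
  have h2 := neg_abs_le (σ' - σ)
  have h3 := abs_nonneg (σ' - σ)
  rw [abs_le]
  constructor <;> simp only [dsA, min_def] <;> split_ifs <;> linarith

theorem ds_cl_lip (a b x y : ℝ) : |cl a b x - cl a b y| ≤ |x - y| := by
  have h1 := le_abs_self (x - y)
  have h2 := neg_abs_le (x - y)
  have h3 := abs_nonneg (x - y)
  rw [abs_le]
  constructor <;> simp only [cl, min_def, max_def] <;> split_ifs <;> linarith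

theorem dsB_lip (σ σ' : ℝ) : |dsB σ' - dsB σ| ≤ |σ' - σ| := by
  simpa [dsB] using ds_cl_lip (-1) 1 (σ' - 2) (σ - 2)

theorem ds_rec (σ : ℝ) : 2 + dsB σ + (1 - dsA σ) * dsB σ = σ := by
  rcases le_total σ 1 with h | h
  · rw [(dsA_lo h).1, (dsA_lo h).2]; ring
  · rcases le_total σ 3 with h' | h'
    · rw [(dsA_mid h h').1, (dsA_mid h h').2]; ring
    · rw [(dsA_hi h').1, (dsA_hi h').2]; ring

theorem ds_max {σ : ℝ} (h : σ ∈ Icc (0 : ℝ) 4) : max (dsA σ) |dsB σ| = 1 := by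
  rcases le_total σ 1 with h1 | h1
  · rw [(dsA_lo h1).2, abs_neg, abs_one, max_eq_right (dsA_le σ)]
  · rcases le_total σ 3 with h2 | h2
    · rw [(dsA_mid h1 h2).1, (dsA_mid h1 h2).2, max_eq_left (abs_le.2 ⟨by linarith only [h1], by linarith only [h2]⟩)]
    · rw [(dsA_hi h2).2, abs_one, max_eq_right (dsA_le σ)]

theorem ds_norm {v : E ι} (hv : v i0 = 0) (b : ℝ) :
    ‖v + b • (Pi.single i0 1 : E ι)‖ = max ‖v‖ |b| := by
  have h0 : (v + b • (Pi.single i0 1 : E ι)) i0 = b := by simp [hv]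
  have h1 : ∀ i, i ≠ i0 → (v + b • (Pi.single i0 1 : E ι)) i = v i := fun i hi => by simp [hi]
  refine le_antisymm ((pi_norm_le_iff_of_nonneg (le_max_of_le_left (norm_nonneg _))).2 fun i => ?_)
    (max_le ((pi_norm_le_iff_of_nonneg (norm_nonneg _)).2 fun i => ?_) ?_)
  · by_cases hi : i = i0
    · rw [hi, h0]; exact le_max_right _ _
    · rw [h1 i hi]; exact le_max_of_le_left (norm_le_pi_norm v i)
  · by_cases hi : i = i0
    · rw [hi, hv, norm_zero]; exact norm_nonneg _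
    · rw [← h1 i hi]; exact norm_le_pi_norm _ i
  · have h2 := norm_le_pi_norm (v + b • (Pi.single i0 1 : E ι)) i0
    rwa [h0] at h2

omit [Fintype ι] in
theorem ds_usp_axis (σ : ℝ) {ω : E ι} (hω : ω i0 = 0) : usp i0 σ ω i0 = dsB σ := by
  simp [ds_usp, hω]

omit [Fintype ι] in
theorem ds_usp_upd (σ : ℝ) {ω : E ι} (hω : ω i0 = 0) :
    Function.update (usp i0 σ ω) i0 0 = dsA σ • ω := by
  ext i
  by_cases hi : i = i0
  · simp [hi, hω]
  · simp [ds_usp, hi]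

omit [Fintype ι] in
theorem ds_split (x : E ι) : Function.update x i0 0 + x i0 • (Pi.single i0 1 : E ι) = x := by
  ext i
  by_cases hi : i = i0
  · simp [hi]
  · simp [hi]

omit [Fintype ι] in
theorem ds_single (b : ℝ) : b • (Pi.single i0 1 : E ι) = Pi.single i0 b := by
  rw [← Pi.single_smul', smul_eq_mul, mul_one]

theorem usp_norm {σ : ℝ} (hσ : σ ∈ Icc (0 : ℝ) 4) {ω : E ι} (hω : ω ∈ Cs i0) :
    ‖usp i0 σ ω‖ = 1 := by
  rw [ds_usp, ds_norm (by simp [hω.1]), norm_smul, hω.2, mul_one, Real.norm_eq_abs,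
    abs_of_nonneg (dsA_nonneg hσ), ds_max hσ]
theorem usp_zero (ω : E ι) : usp i0 0 ω = Pi.single i0 (-1) := by
  rw [ds_usp, (dsA_lo zero_le_one).1, (dsA_lo zero_le_one).2, zero_smul, zero_add, ds_single]
theorem usp_four (ω : E ι) : usp i0 4 ω = Pi.single i0 1 := by
  rw [ds_usp, (dsA_hi (by norm_num)).1, (dsA_hi (by norm_num)).2, sub_self, zero_smul, zero_add,
    one_smul]
theorem usp_two (ω : E ι) : usp i0 2 ω = ω := by
  rw [ds_usp, (dsA_mid (by norm_num) (by norm_num)).1, (dsA_mid (by norm_num) (by norm_num)).2,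
    sub_self, zero_smul, add_zero, one_smul]
theorem usp_top {σ : ℝ} (hσ : σ ∈ Icc (3 : ℝ) 4) (ω : E ι) :
    usp i0 σ ω = Pi.single i0 1 + (4 - σ) • ω := by
  rw [ds_usp, (dsA_hi hσ.1).1, (dsA_hi hσ.1).2, one_smul, add_comm]
theorem usp_inj {σ σ' : ℝ} (hσ : σ ∈ Icc (0 : ℝ) 4) (hσ' : σ' ∈ Icc (0 : ℝ) 4) {ω ω' : E ι}
    (hω : ω ∈ Cs i0) (hω' : ω' ∈ Cs i0) (h : usp i0 σ' ω' = usp i0 σ ω) :
    σ' = σ ∧ (0 < σ → σ < 4 → ω' = ω) := by
  have h1 : dsB σ' = dsB σ := by rw [← ds_usp_axis σ' hω'.1, h, ds_usp_axis σ hω.1]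
  have h2 : dsA σ' • ω' = dsA σ • ω := by rw [← ds_usp_upd σ' hω'.1, h, ds_usp_upd σ hω.1]
  have h3 : dsA σ' = dsA σ := by
    have h4 := congrArg norm h2
    rwa [norm_smul, norm_smul, hω.2, hω'.2, mul_one, mul_one, Real.norm_eq_abs, Real.norm_eq_abs,
      abs_of_nonneg (dsA_nonneg hσ), abs_of_nonneg (dsA_nonneg hσ')] at h4
  refine ⟨by rw [← ds_rec σ', h1, h3, ds_rec], fun a b => ?_⟩
  rw [h3] at h2
  exact smul_right_injective _ (dsA_pos a b).ne' h2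

/-- The length coordinate. -/
noncomputable def dsS (i0 : ι) (x : E ι) : ℝ := 2 + x i0 + (1 - ‖Function.update x i0 0‖) * x i0
/-- The direction coordinate. -/
noncomputable def dsN (i0 : ι) (x : E ι) : E ι :=
  ‖Function.update x i0 0‖⁻¹ • Function.update x i0 0

theorem ds_cases {x : E ι} (hx : ‖x‖ = 1) :
    (‖Function.update x i0 0‖ = 1 ∧ |x i0| ≤ 1) ∨
      (‖Function.update x i0 0‖ < 1 ∧ (x i0 = 1 ∨ x i0 = -1)) := by
  have h : max ‖Function.update x i0 0‖ |x i0| = 1 := by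
    rw [← ds_norm (i0 := i0) (by simp), ds_split, hx]
  rcases (le_max_left _ _).trans h.le |>.eq_or_lt with h1 | h1
  · exact Or.inl ⟨h1, (le_max_right _ _).trans h.le⟩
  · refine Or.inr ⟨h1, ?_⟩
    rcases max_choice ‖Function.update x i0 0‖ |x i0| with h2 | h2
    · exact absurd (h2.symm.trans h) h1.ne
    · exact (abs_eq zero_le_one).1 (h2.symm.trans h)

theorem dsS_spec {x : E ι} (hx : ‖x‖ = 1) : dsS i0 x ∈ Icc (0 : ℝ) 4 ∧
    dsA (dsS i0 x) = ‖Function.update x i0 0‖ ∧ dsB (dsS i0 x) = x i0 := by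
  have h0 := norm_nonneg (Function.update x i0 0)
  rcases ds_cases (i0 := i0) hx with ⟨h1, h2⟩ | ⟨h1, h2 | h2⟩
  · have e : dsS i0 x = 2 + x i0 := by rw [dsS, h1]; ring
    obtain ⟨h3, h4⟩ := abs_le.1 h2
    obtain ⟨h5, h6⟩ := dsA_mid (σ := 2 + x i0) (by linarith only [h3]) (by linarith only [h4])
    rw [e, h5, h6, h1]
    exact ⟨⟨by linarith only [h3], by linarith only [h4]⟩, rfl, by ring⟩
  · have e : dsS i0 x = 4 - ‖Function.update x i0 0‖ := by rw [dsS, h2]; ring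
    obtain ⟨h5, h6⟩ := dsA_hi (σ := 4 - ‖Function.update x i0 0‖) (by linarith only [h1])
    rw [e, h5, h6, h2]
    exact ⟨⟨by linarith only [h1], by linarith only [h0]⟩, by ring, rfl⟩
  · have e : dsS i0 x = ‖Function.update x i0 0‖ := by rw [dsS, h2]; ring
    obtain ⟨h5, h6⟩ := dsA_lo h1.le
    rw [e, h5, h6, h2]
    exact ⟨⟨h0, by linarith only [h1]⟩, rfl, rfl⟩

theorem ds_smul_inv (v : E ι) : ‖v‖ • ‖v‖⁻¹ • v = v := by
  by_cases h : v = 0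
  · simp [h]
  · rw [smul_smul, mul_inv_cancel₀ (norm_ne_zero_iff.2 h), one_smul]

theorem ds_inv_le (v : E ι) : ‖‖v‖⁻¹ • v‖ ≤ 1 := by
  rw [norm_smul, norm_inv, norm_norm]
  exact inv_mul_le_one_of_le₀ le_rfl (norm_nonneg _)

theorem ds_usp_coord {x : E ι} (hx : ‖x‖ = 1) : usp i0 (dsS i0 x) (dsN i0 x) = x := by
  obtain ⟨-, h1, h2⟩ := dsS_spec (i0 := i0) hx
  rw [ds_usp, h1, h2, dsN, ds_smul_inv, ds_split]

theorem dsN_axis (x : E ι) : dsN i0 x i0 = 0 := by simp [dsN]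

theorem dsN_mem {x : E ι} (hx : ‖x‖ = 1) (h0 : 0 < dsS i0 x) (h4 : dsS i0 x < 4) :
    dsN i0 x ∈ Cs i0 := by
  have h := dsA_pos h0 h4
  rw [(dsS_spec hx).2.1] at h
  refine ⟨dsN_axis x, ?_⟩
  rw [dsN, norm_smul, norm_inv, norm_norm, inv_mul_cancel₀ h.ne']

theorem dsS_usp {σ : ℝ} (hσ : σ ∈ Icc (0 : ℝ) 4) {ω : E ι} (hω : ω ∈ Cs i0) :
    dsS i0 (usp i0 σ ω) = σ := by
  rw [dsS, ds_usp_upd σ hω.1, ds_usp_axis σ hω.1, norm_smul, hω.2, mul_one, Real.norm_eq_abs,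
    abs_of_nonneg (dsA_nonneg hσ), ds_rec]

theorem dsN_usp {σ : ℝ} (h0 : 0 < σ) (h4 : σ < 4) {ω : E ι} (hω : ω ∈ Cs i0) :
    dsN i0 (usp i0 σ ω) = ω := by
  have h := dsA_pos h0 h4
  rw [dsN, ds_usp_upd σ hω.1, norm_smul, hω.2, mul_one, Real.norm_eq_abs, abs_of_pos h, smul_smul,
    inv_mul_cancel₀ h.ne', one_smul]

/-- Points other than the poles have an inner length coordinate. -/
theorem ds_inner {σ : ℝ} (hσ : σ ∈ Icc (0 : ℝ) 4) {ω : E ι}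
    (h : usp i0 σ ω ∈ ({Pi.single i0 (-1), Pi.single i0 1}ᶜ : Set (E ι))) : 0 < σ ∧ σ < 4 := by
  refine ⟨hσ.1.lt_of_ne fun e => h (Or.inl ?_), hσ.2.lt_of_ne fun e => h (Or.inr ?_)⟩
  · rw [← e, usp_zero]
  · rw [e, usp_four]; rfl

theorem usp_surj [Nontrivial ι] {x : E ι} (hx : ‖x‖ = 1) :
    ∃ σ ∈ Icc (0 : ℝ) 4, ∃ ω ∈ Cs i0, usp i0 σ ω = x := by
  have h := (dsS_spec (i0 := i0) hx).1
  have e := ds_usp_coord (i0 := i0) hx
  obtain ⟨i, hi⟩ := exists_ne i0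
  have hc : (Pi.single i 1 : E ι) ∈ Cs i0 :=
    ⟨Pi.single_eq_of_ne hi.symm _, by rw [Pi.norm_single, norm_one]⟩
  rcases h.1.eq_or_lt with h0 | h0
  · exact ⟨0, ⟨le_rfl, by norm_num⟩, _, hc, by rw [← e, ← h0, usp_zero, usp_zero]⟩
  · rcases h.2.eq_or_lt with h4 | h4
    · exact ⟨4, ⟨by norm_num, le_rfl⟩, _, hc, by rw [← e, h4, usp_four, usp_four]⟩
    · exact ⟨_, h, _, dsN_mem hx h0 h4, e⟩

theorem ds_usp_lip {σ : ℝ} (hσ : σ ∈ Icc (0 : ℝ) 4) (σ' : ℝ) {ω ω' : E ι} (hω : ω i0 = 0)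
    (hω' : ω' i0 = 0) (hn : ‖ω'‖ ≤ 1) :
    dist (usp i0 σ' ω') (usp i0 σ ω) ≤ |σ' - σ| + dsA σ * dist ω' ω := by
  have e : usp i0 σ' ω' - usp i0 σ ω = ((dsA σ' - dsA σ) • ω' + dsA σ • (ω' - ω)) +
      (dsB σ' - dsB σ) • (Pi.single i0 1 : E ι) := by
    rw [ds_usp, ds_usp]; module
  have h0 := dsA_nonneg hσ
  have h1 : 0 ≤ dsA σ * dist ω' ω := mul_nonneg h0 dist_nonneg
  rw [dist_eq_norm, e, ds_norm (by simp [hω, hω'])]
  refine max_le ((norm_add_le _ _).trans (add_le_add ?_ ?_)) ((dsB_lip σ σ').trans (by linarith only [h1]))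
  · rw [norm_smul, Real.norm_eq_abs]
    exact (mul_le_of_le_one_right (abs_nonneg _) hn).trans (dsA_lip σ σ')
  · rw [norm_smul, Real.norm_eq_abs, abs_of_nonneg h0, dist_eq_norm]

theorem usp_lip {σ σ' : ℝ} (hσ : σ ∈ Icc (0 : ℝ) 4) (hσ' : σ' ∈ Icc (0 : ℝ) 4) {ω ω' : E ι}
    (hω : ω ∈ Cs i0) (hω' : ω' ∈ Cs i0) :
    dist (usp i0 σ' ω') (usp i0 σ ω) ≤ |σ' - σ| + dist ω' ω := by
  have _ := hσ'
  have h1 := ds_usp_lip hσ σ' hω.1 hω'.1 hω'.2.le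
  have h2 := mul_le_of_le_one_left (dist_nonneg (x := ω') (y := ω)) (dsA_le σ)
  linarith only [h1, h2]

/-- A Lipschitz family which is bijective over `U`. -/
theorem ds_sol {T X Y : Type} [MetricSpace T] [MetricSpace X] [MetricSpace Y] {U : Set Y}
    {J : Set T} {R : Set X} {β : T × X → Y} {S : Set Y} {a b c : ℝ} {Z : T × X → Y}
    (hm : ∀ t ∈ J, ∀ x ∈ R, Z (t, x) ∈ U → Z (t, x) ∈ S)
    (hex : ∀ t ∈ J, ∀ y ∈ S, y ∈ U → ∃ x ∈ R, Z (t, x) = y)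
    (huq : ∀ t ∈ J, ∀ x ∈ R, ∀ x' ∈ R, Z (t, x) ∈ U → Z (t, x') = Z (t, x) → x' = x)
    (hl : ∀ t ∈ J, ∀ x ∈ R, ∀ t' ∈ J, ∀ x' ∈ R,
      dist (Z (t', x')) (Z (t, x)) ≤ a * dist x' x + b * dist t' t)
    (hlo : ∀ z ∈ J ×ˢ R, Z z ∈ U →
      Dm (J ×ˢ R) (fun w => Z w ∈ U) (fun w => w.2) (fun w => (w.1, Z w)) z) :
    Sol U (pbP J R ∅ β S (gs a b) c) univ Z := by
  refine ⟨fun z hz k => ⟨hz.1, hm _ hz.1 _ hz.2 k⟩, fun z hz => hz.2.elim, fun z hz => hz.2.elim,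
    fun t y k1 k2 _ => ?_, fun t x x' k1 k2 k3 _ k => huq t k1.1 x k1.2 x' k2.2 k3 k,
    fun z hz _ _ => ?_, fun z hz k _ => (hlo z hz k).imp fun _ _ a => a.1⟩
  · obtain ⟨x, a1, a2⟩ := hex t k1.1 y k1.2 k2
    exact ⟨x, ⟨k1.1, a1⟩, a2⟩
  · have k : ∀ᶠ z' in 𝓝[J ×ˢ R] z, dist (Z z') (Z z) ≤ gs a b z z' := by
      filter_upwards [self_mem_nhdsWithin] with z' hz' using hl _ hz.1 _ hz.2 _ hz'.1 _ hz'.2
    refine ⟨tendsto_iff_dist_tendsto_zero.2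
      (squeeze_zero' (Eventually.of_forall fun _ => dist_nonneg) k ?_), k⟩
    have t1 : Continuous (gs a b z) := by unfold gs; fun_prop
    have t2 : gs a b z z = 0 := by simp [gs]
    exact t2 ▸ t1.continuousWithinAt

theorem ds_ivt {η : ℝ → ℝ} {c l : ℝ} (hl0 : 0 ≤ l)
    (hl : ∀ n ∈ Icc (0 : ℝ) l, ∀ n' ∈ Icc (0 : ℝ) l, |η n' - η n| ≤ c * |n' - n|) {y : ℝ}
    (hy : y ∈ Icc (η 0) (η l)) : ∃ n ∈ Icc (0 : ℝ) l, η n = y := by
  have h : ContinuousOn η (Icc 0 l) :=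
    (LipschitzOnWith.of_dist_le' (K := c) fun x hx y hy => hl y hy x hx).continuousOn
  exact intermediate_value_Icc hl0 h hy

theorem ds_band {c u : ℝ} (hc : 0 ≤ c) (z z' : ℝ × E ι) (hu : u ≤ c * |z'.1 - z.1|) :
    u + dist z'.2 z.2 ≤ (c + 1) * dist z' z := by
  have h1 : |z'.1 - z.1| ≤ dist z' z := by rw [Prod.dist_eq]; exact le_max_left _ _
  have h2 : dist z'.2 z.2 ≤ dist z' z := by rw [Prod.dist_eq]; exact le_max_right _ _
  have h3 := mul_le_mul_of_nonneg_left h1 hc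
  linarith only [hu, h2, h3]

/-- The interpolated length function. -/
noncomputable def dsE (η : ℝ → ℝ) (r s : ℝ) : ℝ := (1 - r) * s + r * η (cl 0 1 ((s - 1) / 2))

theorem ds_cl_mem (x : ℝ) : cl 0 1 x ∈ Icc (0 : ℝ) 1 :=
  ⟨le_max_left _ _, max_le zero_le_one (min_le_left _ _)⟩

theorem ds_cl_mono {x y : ℝ} (h : x ≤ y) : cl 0 1 x ≤ cl 0 1 y :=
  max_le_max le_rfl (min_le_min le_rfl h)

theorem ds_cl_lo {x : ℝ} (h : x ≤ 0) : cl 0 1 x = 0 :=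
  max_eq_left ((min_le_right _ _).trans h)

theorem ds_cl_hi {x : ℝ} (h : 1 ≤ x) : cl 0 1 x = 1 := by
  rw [cl, min_eq_left h, max_eq_right zero_le_one]

theorem ds_cl_mid {x : ℝ} (h : 0 ≤ x) (h' : x ≤ 1) : cl 0 1 x = x := by
  rw [cl, min_eq_right h', max_eq_right h]

theorem ds_cl_eq {x : ℝ} (h : cl 0 1 x ≠ 0) (h' : cl 0 1 x ≠ 1) : cl 0 1 x = x :=
  ds_cl_mid (le_of_not_ge fun k => h (ds_cl_lo k)) (le_of_not_ge fun k => h' (ds_cl_hi k))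

theorem dsS_lip {x x' : E ι} (hx : ‖x‖ = 1) (hx' : ‖x'‖ = 1) :
    dist (Function.update x' i0 0) (Function.update x i0 0) ≤ dist x' x ∧
      |dsS i0 x' - dsS i0 x| ≤ 3 * dist x' x := by
  have h1 : dist (Function.update x' i0 0) (Function.update x i0 0) ≤ dist x' x := by
    refine (dist_pi_le_iff dist_nonneg).2 fun i => ?_
    by_cases hi : i = i0
    · simp [hi]
    · simpa [hi] using dist_le_pi_dist x' x i
  refine ⟨h1, ?_⟩
  have h2 : |x' i0 - x i0| ≤ dist x' x := dist_le_pi_dist x' x i0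
  have h3 : |‖Function.update x' i0 0‖ - ‖Function.update x i0 0‖| ≤ dist x' x :=
    (abs_norm_sub_norm_le _ _).trans (by rwa [← dist_eq_norm])
  have h4 : |x' i0| ≤ 1 := hx' ▸ norm_le_pi_norm x' i0
  have h5 : ‖Function.update x i0 0‖ ≤ 1 := (dsS_spec (i0 := i0) hx).2.1 ▸ dsA_le _
  have h6 := norm_nonneg (Function.update x i0 0)
  have e : dsS i0 x' - dsS i0 x = (x' i0 - x i0) + ((1 - ‖Function.update x i0 0‖) * (x' i0 - x i0)
      - (‖Function.update x' i0 0‖ - ‖Function.update x i0 0‖) * x' i0) := by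
    simp only [dsS]; ring
  have h7 : |(1 - ‖Function.update x i0 0‖) * (x' i0 - x i0)| ≤ dist x' x := by
    rw [abs_mul, abs_of_nonneg (sub_nonneg.2 h5)]
    exact (mul_le_of_le_one_left (abs_nonneg _) (by linarith only [h6])).trans h2
  have h8 : |(‖Function.update x' i0 0‖ - ‖Function.update x i0 0‖) * x' i0| ≤ dist x' x := by
    rw [abs_mul]
    exact (mul_le_of_le_one_right (abs_nonneg _) h4).trans h3
  rw [e]
  refine (abs_add_le _ _).trans ?_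
  have h9 := abs_sub ((1 - ‖Function.update x i0 0‖) * (x' i0 - x i0))
    ((‖Function.update x' i0 0‖ - ‖Function.update x i0 0‖) * x' i0)
  linarith only [h2, h7, h8, h9]

theorem ds_dir_lip (a b : E ι) : ‖a‖ * dist (‖b‖⁻¹ • b) (‖a‖⁻¹ • a) ≤ 2 * dist b a := by
  have e : ‖a‖ • (‖b‖⁻¹ • b - ‖a‖⁻¹ • a) = (‖a‖ - ‖b‖) • ‖b‖⁻¹ • b + (b - a) := by
    rw [smul_sub, sub_smul, ds_smul_inv, ds_smul_inv]; abel
  have h1 : ‖(‖a‖ - ‖b‖) • ‖b‖⁻¹ • b‖ ≤ ‖b - a‖ := by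
    rw [norm_smul, Real.norm_eq_abs, norm_sub_rev]
    exact (mul_le_of_le_one_right (abs_nonneg _) (ds_inv_le b)).trans (abs_norm_sub_norm_le _ _)
  have h2 := norm_add_le ((‖a‖ - ‖b‖) • ‖b‖⁻¹ • b) (b - a)
  rw [← e, norm_smul, norm_norm] at h2
  rw [dist_eq_norm, dist_eq_norm]
  linarith only [h1, h2]

/-- The suspension coordinates are controlled by the point, away from the poles. -/
theorem ds_usp_lo {σ σ' : ℝ} (h0 : 0 < σ) (h4 : σ < 4) (h0' : 0 < σ') (h4' : σ' < 4) {ω ω' : E ι}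
    (hω : ω ∈ Cs i0) (hω' : ω' ∈ Cs i0) :
    |σ' - σ| ≤ 3 * dist (usp i0 σ' ω') (usp i0 σ ω) ∧
      dsA σ * dist ω' ω ≤ 2 * dist (usp i0 σ' ω') (usp i0 σ ω) := by
  have n1 := usp_norm ⟨h0.le, h4.le⟩ hω
  have n2 := usp_norm ⟨h0'.le, h4'.le⟩ hω'
  obtain ⟨a1, a2⟩ := dsS_lip (i0 := i0) n1 n2
  rw [dsS_usp ⟨h0.le, h4.le⟩ hω, dsS_usp ⟨h0'.le, h4'.le⟩ hω'] at a2
  have a3 : ‖Function.update (usp i0 σ ω) i0 0‖ * dist (dsN i0 (usp i0 σ' ω')) (dsN i0 (usp i0 σ ω))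
      ≤ 2 * dist (usp i0 σ' ω') (usp i0 σ ω) := (ds_dir_lip _ _).trans (by linarith only [a1])
  rw [dsN_usp h0 h4 hω, dsN_usp h0' h4' hω', ← (dsS_spec (i0 := i0) n1).2.1,
    dsS_usp ⟨h0.le, h4.le⟩ hω] at a3
  exact ⟨a2, a3⟩

theorem ds_dm {α : Type} [TopologicalSpace α] {R : Set α} {P : α → Prop} {s : α → ℝ}
    {ω : α → E ι} {z : α} (hs : ContinuousWithinAt s R z) (h0 : 0 < s z) (h4 : s z < 4)
    (hω : ∀ᶠ w in 𝓝[R] z, ω w ∈ Cs i0) :
    Dm R P s (fun w => usp i0 (s w) (ω w)) z ∧ Dm R P ω (fun w => usp i0 (s w) (ω w)) z := by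
  have hA := dsA_pos h0 h4
  have hc : Continuous dsA := by unfold dsA; fun_prop
  have e1 : ∀ᶠ w in 𝓝[R] z, 0 < s w := hs.eventually (lt_mem_nhds h0)
  have e2 : ∀ᶠ w in 𝓝[R] z, s w < 4 := hs.eventually (gt_mem_nhds h4)
  have e3 : ∀ᶠ w in 𝓝[R] z, dsA (s z) / 2 < dsA (s w) :=
    (hc.continuousAt.comp_continuousWithinAt hs).eventually (lt_mem_nhds (half_lt_self hA))
  have e4 := (e1.and e2).and (e3.and hω)
  refine ⟨Dm.of_nhds (K := 3) e4 fun w _ a v _ b =>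
    (ds_usp_lo a.1.1 a.1.2 b.1.1 b.1.2 a.2.2 b.2.2).1,
    Dm.of_nhds (K := 4 / dsA (s z)) e4 fun w _ a v _ b => ?_⟩
  have a1 := (ds_usp_lo a.1.1 a.1.2 b.1.1 b.1.2 a.2.2 b.2.2).2
  have a2 := mul_le_mul_of_nonneg_right a.2.1.le (dist_nonneg (x := ω v) (y := ω w))
  rw [div_mul_eq_mul_div, le_div_iff₀ hA]
  linarith only [a1, a2]

/-- Collapsing the caps along the meridians. -/
theorem smov_usp [Nontrivial ι] {η : ℝ → ℝ} {c : ℝ} (hc : 1 ≤ c) (h0 : η 0 = 0) (h1 : η 1 = 4)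
    (hm : MonotoneOn η (Icc 0 1))
    (hi : ∀ n ∈ Icc (0 : ℝ) 1, ∀ n' ∈ Icc (0 : ℝ) 1, 0 < η n → η n < 4 → η n' = η n → n' = n)
    (hl : ∀ n ∈ Icc (0 : ℝ) 1, ∀ n' ∈ Icc (0 : ℝ) 1, |η n' - η n| ≤ c * |n' - n|)
    (hq : ∀ n ∈ Icc (0 : ℝ) 1, ∀ n' ∈ Icc (0 : ℝ) 1, 0 < η n → η n < 4 → 0 < η n' → η n' < 4 →
      |n' - n| ≤ |η n' - η n|) :
    SMov (100 * c) (Pi.single i0 (-1)) (Pi.single i0 1) (fun x => x)
      (hat i0 (Pi.single i0 (-1)) (Pi.single i0 1) fun z => usp i0 (η z.1) z.2) := by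
  have hr : ∀ n ∈ Icc (0 : ℝ) 1, η n ∈ Icc (0 : ℝ) 4 := fun n hn =>
    ⟨h0 ▸ hm (left_mem_Icc.2 zero_le_one) hn hn.1, h1 ▸ hm hn (right_mem_Icc.2 zero_le_one) hn.2⟩
  have e0 : ∀ r, dsE η r 0 = 0 := fun r => by
    rw [dsE, ds_cl_lo (by norm_num), h0]; ring
  have e4 : ∀ r, dsE η r 4 = 4 := fun r => by
    rw [dsE, ds_cl_hi (by norm_num), h1]; ring
  have er : ∀ r ∈ Icc (0 : ℝ) 1, ∀ s ∈ Icc (0 : ℝ) 4, dsE η r s ∈ Icc (0 : ℝ) 4 := by
    intro r hr' s hs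
    obtain ⟨a1, a2⟩ := hr _ (ds_cl_mem ((s - 1) / 2))
    obtain ⟨b1, b2⟩ := hr'
    obtain ⟨c1, c2⟩ := hs
    constructor <;> simp only [dsE] <;> nlinarith only [a1, b1, b2, c1, a2, c2]
  have el : ∀ r ∈ Icc (0 : ℝ) 1, ∀ s s', |dsE η r s' - dsE η r s| ≤ c * |s' - s| := by
    intro r hr' s s'
    obtain ⟨b1, b2⟩ := hr'
    have a1 := hl _ (ds_cl_mem ((s - 1) / 2)) _ (ds_cl_mem ((s' - 1) / 2))
    have a2 := ds_cl_lip 0 1 ((s' - 1) / 2) ((s - 1) / 2)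
    have a3 : |(s' - 1) / 2 - (s - 1) / 2| ≤ |s' - s| := by
      rw [show (s' - 1) / 2 - (s - 1) / 2 = (s' - s) / 2 by ring, abs_div, abs_two]
      linarith only [abs_nonneg (s' - s)]
    have a4 := a1.trans (mul_le_mul_of_nonneg_left (a2.trans a3) (by linarith only [hc]))
    have e : dsE η r s' - dsE η r s = (1 - r) * (s' - s) +
        r * (η (cl 0 1 ((s' - 1) / 2)) - η (cl 0 1 ((s - 1) / 2))) := by
      simp only [dsE]; ring
    rw [e]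
    refine (abs_add_le _ _).trans ?_
    rw [abs_mul, abs_mul, abs_of_nonneg b1, abs_of_nonneg (sub_nonneg.2 b2)]
    have a5 := mul_le_mul_of_nonneg_left a4 b1
    have a6 : (1 - r) * |s' - s| ≤ (1 - r) * (c * |s' - s|) :=
      mul_le_mul_of_nonneg_left (le_mul_of_one_le_left (abs_nonneg _) hc) (sub_nonneg.2 b2)
    linarith only [a5, a6]
  have et : ∀ r r', ∀ s ∈ Icc (0 : ℝ) 4, |dsE η r' s - dsE η r s| ≤ 4 * |r' - r| := by
    intro r r' s hs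
    obtain ⟨a1, a2⟩ := hr _ (ds_cl_mem ((s - 1) / 2))
    have e : dsE η r' s - dsE η r s = (η (cl 0 1 ((s - 1) / 2)) - s) * (r' - r) := by
      simp only [dsE]; ring
    rw [e, abs_mul]
    exact mul_le_mul_of_nonneg_right (abs_le.2 ⟨by linarith only [hs.2, a1], by linarith only [hs.1, a2]⟩)
      (abs_nonneg _)
  have eA : ∀ r ∈ Icc (0 : ℝ) 1, ∀ s ∈ Icc (0 : ℝ) 4, dsA (dsE η r s) ≤ c * dsA s := by
    intro r hr' s hs
    have a1 := el r hr' 0 s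
    have a2 := el r hr' s 4
    rw [e0, sub_zero, sub_zero, abs_of_nonneg hs.1] at a1
    rw [e4, abs_of_nonneg (sub_nonneg.2 hs.2)] at a2
    rw [dsA, dsA, mul_min_of_nonneg _ _ (by linarith only [hc]), mul_min_of_nonneg _ _ (by linarith only [hc])]
    exact min_le_min (by linarith only [hc])
      (min_le_min ((le_abs_self _).trans a1) ((le_abs_self _).trans a2))
  have ei : ∀ r ∈ Icc (0 : ℝ) 1, ∀ s s', 0 < dsE η r s → dsE η r s < 4 →
      dsE η r s' = dsE η r s → s' = s := by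
    intro r hr' s s' a1 a2 a3
    rcases hr'.2.eq_or_lt with rfl | b
    · simp only [dsE, sub_self, zero_mul, zero_add, one_mul] at a1 a2 a3
      have a4 := hi _ (ds_cl_mem _) _ (ds_cl_mem _) a1 a2 a3
      have a5 : cl 0 1 ((s - 1) / 2) ≠ 0 := fun k => by rw [k, h0] at a1; exact a1.false
      have a6 : cl 0 1 ((s - 1) / 2) ≠ 1 := fun k => by rw [k, h1] at a2; exact a2.false
      rw [ds_cl_eq (a4 ▸ a5) (a4 ▸ a6), ds_cl_eq a5 a6] at a4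
      linarith only [a4]
    · have key : ∀ u v, u < v → dsE η r u < dsE η r v := fun u v huv => by
        have a4 := hm (ds_cl_mem _) (ds_cl_mem _)
          (ds_cl_mono (show (u - 1) / 2 ≤ (v - 1) / 2 by linarith only [huv]))
        exact add_lt_add_of_lt_of_le (mul_lt_mul_of_pos_left huv (sub_pos.2 b))
          (mul_le_mul_of_nonneg_left a4 hr'.1)
      rcases lt_trichotomy s' s with k | k | k
      · exact absurd a3 (key _ _ k).ne
      · exact k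
      · exact absurd a3 (key _ _ k).ne'
  have inn : ∀ r, ∀ s ∈ Icc (0 : ℝ) 4, 0 < dsE η r s → dsE η r s < 4 → 0 < s ∧ s < 4 :=
    fun r s hs a1 a2 => ⟨hs.1.lt_of_ne fun k => by rw [← k, e0] at a1; exact a1.false,
      hs.2.lt_of_ne fun k => by rw [k, e4] at a2; exact a2.false⟩
  have good : ∀ r ∈ Icc (0 : ℝ) 1, ∀ x : E ι, ‖x‖ = 1 →
      usp i0 (dsE η r (dsS i0 x)) (dsN i0 x) ∈
        ({Pi.single i0 (-1), Pi.single i0 1}ᶜ : Set (E ι)) →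
      0 < dsE η r (dsS i0 x) ∧ dsE η r (dsS i0 x) < 4 ∧ dsN i0 x ∈ Cs i0 := by
    intro r hr' x hx hU
    have a0 := (dsS_spec (i0 := i0) hx).1
    obtain ⟨a1, a2⟩ := ds_inner (er r hr' _ a0) hU
    obtain ⟨a3, a4⟩ := inn r _ a0 a1 a2
    exact ⟨a1, a2, dsN_mem hx a3 a4⟩
  have sl0 : ∀ r ∈ Icc (0 : ℝ) 1, ∀ s s' κ : ℝ, s ≤ s' →
      (κ ≤ 1 - r ∨ (κ ≤ 1 / 2 ∧ η (cl 0 1 ((s - 1) / 2)) ∈ Ioo (0 : ℝ) 4 ∧
        η (cl 0 1 ((s' - 1) / 2)) ∈ Ioo (0 : ℝ) 4)) →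
      κ * (s' - s) ≤ dsE η r s' - dsE η r s := by
    intro r hr' s s' κ hss hκ
    have a4 := hm (ds_cl_mem _) (ds_cl_mem _)
      (ds_cl_mono (show (s - 1) / 2 ≤ (s' - 1) / 2 by linarith only [hss]))
    have e : dsE η r s' - dsE η r s = (1 - r) * (s' - s) +
        r * (η (cl 0 1 ((s' - 1) / 2)) - η (cl 0 1 ((s - 1) / 2))) := by
      simp only [dsE]; ring
    rw [e]
    have d0 := sub_nonneg.2 hss
    rcases hκ with k | ⟨k, k1, k2⟩
    · have b1 := mul_le_mul_of_nonneg_right k d0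
      have b2 := mul_nonneg hr'.1 (sub_nonneg.2 a4)
      linarith only [b1, b2]
    · have a5 : ∀ u : ℝ, η (cl 0 1 u) ∈ Ioo (0 : ℝ) 4 → cl 0 1 u = u := fun u k =>
        ds_cl_eq (fun k' => by rw [k', h0] at k; exact k.1.false)
          fun k' => by rw [k', h1] at k; exact k.2.false
      have a6 := hq _ (ds_cl_mem _) _ (ds_cl_mem _) k1.1 k1.2 k2.1 k2.2
      rw [abs_of_nonneg (sub_nonneg.2 a4)] at a6
      have a7 : (s' - s) / 2 ≤ η (cl 0 1 ((s' - 1) / 2)) - η (cl 0 1 ((s - 1) / 2)) := by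
        refine le_trans ?_ ((le_abs_self _).trans a6)
        rw [a5 _ k1, a5 _ k2]
        exact le_of_eq (by ring)
      have b1 := mul_le_mul_of_nonneg_left a7 hr'.1
      have b2 := mul_le_mul_of_nonneg_right k d0
      have b3 := mul_nonneg (sub_nonneg.2 hr'.2) d0
      linarith only [b1, b2, b3]
  have sl : ∀ r ∈ Icc (0 : ℝ) 1, ∀ s s' κ : ℝ,
      (κ ≤ 1 - r ∨ (κ ≤ 1 / 2 ∧ η (cl 0 1 ((s - 1) / 2)) ∈ Ioo (0 : ℝ) 4 ∧
        η (cl 0 1 ((s' - 1) / 2)) ∈ Ioo (0 : ℝ) 4)) →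
      κ * |s' - s| ≤ |dsE η r s' - dsE η r s| := by
    intro r hr' s s' κ hκ
    rcases le_total s s' with k | k
    · rw [abs_of_nonneg (sub_nonneg.2 k)]
      exact (sl0 r hr' s s' κ k hκ).trans (le_abs_self _)
    · rw [abs_sub_comm, abs_of_nonneg (sub_nonneg.2 k), abs_sub_comm]
      exact (sl0 r hr' s' s κ k (hκ.imp id fun a => ⟨a.1, a.2.2, a.2.1⟩)).trans (le_abs_self _)
  have cη : Continuous fun s : ℝ => η (cl 0 1 ((s - 1) / 2)) := by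
    have a1 : ContinuousOn η (Icc 0 1) :=
      (LipschitzOnWith.of_dist_le' (K := c) fun x hx y hy => hl y hy x hx).continuousOn
    exact a1.comp_continuous (by unfold cl; fun_prop) fun _ => ds_cl_mem _
  have cS : Continuous (dsS i0) := by unfold dsS; fun_prop
  refine ⟨fun z => usp i0 (dsE η z.1 (dsS i0 z.2)) (dsN i0 z.2),
    ds_sol (fun r hr' x hx hU => ?_) (fun r hr' y hy hU => ?_) (fun r hr' x hx x' hx' hU e => ?_)
      (fun r hr' x hx r' _ x' hx' => ?_) (fun z hz hU => ?_), fun x hx => ⟨?_, ?_⟩⟩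
  · have hx1 := mem_sphere_zero_iff_norm.1 hx
    exact mem_sphere_zero_iff_norm.2
      (usp_norm (er r hr' _ (dsS_spec hx1).1) (good r hr' x hx1 hU).2.2)
  · have hy1 := mem_sphere_zero_iff_norm.1 hy
    have e := ds_usp_coord (i0 := i0) hy1
    have a0 := (dsS_spec (i0 := i0) hy1).1
    obtain ⟨a1, a2⟩ := ds_inner a0 (e.symm ▸ hU)
    have a3 := dsN_mem hy1 a1 a2
    obtain ⟨s, hs, a4⟩ := ds_ivt (η := dsE η r) (l := 4) (by norm_num)
      (fun n _ n' _ => el r hr' n n') (y := dsS i0 y) (by rw [e0, e4]; exact a0)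
    obtain ⟨a5, a6⟩ := inn r s hs (a4 ▸ a1) (a4 ▸ a2)
    refine ⟨usp i0 s (dsN i0 y), mem_sphere_zero_iff_norm.2 (usp_norm hs a3), ?_⟩
    simp only [dsS_usp hs a3, dsN_usp a5 a6 a3, a4, e]
  · have hx1 := mem_sphere_zero_iff_norm.1 hx
    have hx2 := mem_sphere_zero_iff_norm.1 hx'
    obtain ⟨a1, a2, a3⟩ := good r hr' x hx1 hU
    obtain ⟨-, -, a4⟩ := good r hr' x' hx2 (e.symm ▸ hU)
    obtain ⟨a5, a6⟩ := usp_inj (er r hr' _ (dsS_spec hx1).1) (er r hr' _ (dsS_spec hx2).1) a3 a4 e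
    rw [← ds_usp_coord (i0 := i0) hx1, ← ds_usp_coord (i0 := i0) hx2, a6 a1 a2,
      ei r hr' _ _ a1 a2 a5]
  · have hx1 := mem_sphere_zero_iff_norm.1 hx
    have hx2 := mem_sphere_zero_iff_norm.1 hx'
    obtain ⟨a0, a1, -⟩ := dsS_spec (i0 := i0) hx1
    have a2 := ds_usp_lip (er r hr' _ a0) (dsE η r' (dsS i0 x')) (dsN_axis (i0 := i0) x)
      (dsN_axis x') (ds_inv_le _)
    obtain ⟨a3, a4⟩ := dsS_lip (i0 := i0) hx1 hx2
    have a5 := et r r' _ (dsS_spec (i0 := i0) hx2).1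
    have a6 := (el r hr' (dsS i0 x) (dsS i0 x')).trans
      (mul_le_mul_of_nonneg_left a4 (by linarith only [hc]))
    have a7 := abs_sub_le (dsE η r' (dsS i0 x')) (dsE η r (dsS i0 x')) (dsE η r (dsS i0 x))
    have a8 := mul_le_mul_of_nonneg_right (eA r hr' _ a0)
      (dist_nonneg (x := dsN i0 x') (y := dsN i0 x))
    have a9 : ‖Function.update x i0 0‖ * dist (dsN i0 x') (dsN i0 x) ≤ 2 * dist x' x :=
      (ds_dir_lip _ _).trans (by linarith only [a3])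
    have b1 := mul_le_mul_of_nonneg_left a9 (show 0 ≤ c by linarith only [hc])
    rw [a1, mul_assoc] at a8
    have b2 : 0 ≤ c * dist x' x := mul_nonneg (by linarith only [hc]) dist_nonneg
    have b3 : |r' - r| ≤ c * |r' - r| := le_mul_of_one_le_left (abs_nonneg _) hc
    have b4 := abs_nonneg (r' - r)
    refine a2.trans ?_
    rw [Real.dist_eq r' r]
    linarith only [a5, a6, a7, a8, b1, b2, b3, b4]
  · obtain ⟨a1, a2, -⟩ := good z.1 hz.1 z.2 (mem_sphere_zero_iff_norm.1 hz.2) hU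
    have cT : Continuous fun w : ℝ × E ι => η (cl 0 1 ((dsS i0 w.2 - 1) / 2)) :=
      cη.comp (cS.comp continuous_snd)
    have cE : Continuous fun w : ℝ × E ι => dsE η w.1 (dsS i0 w.2) :=
      ((continuous_const.sub continuous_fst).mul (cS.comp continuous_snd)).add
        (continuous_fst.mul cT)
    have a3 : ∀ᶠ w in 𝓝[Icc (0 : ℝ) 1 ×ˢ sphere (0 : E ι) 1] z, dsN i0 w.2 ∈ Cs i0 := by
      filter_upwards [cE.continuousWithinAt.eventually (Ioo_mem_nhds a1 a2), self_mem_nhdsWithin]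
        with w b1 b2
      have b3 := mem_sphere_zero_iff_norm.1 b2.2
      obtain ⟨b4, b5⟩ := inn w.1 _ (dsS_spec (i0 := i0) b3).1 b1.1 b1.2
      exact dsN_mem b3 b4 b5
    obtain ⟨d1, d2⟩ := ds_dm (P := fun w : ℝ × E ι => usp i0 (dsE η w.1 (dsS i0 w.2)) (dsN i0 w.2) ∈
      ({Pi.single i0 (-1), Pi.single i0 1}ᶜ : Set (E ι))) cE.continuousWithinAt a1 a2 a3
    obtain ⟨κ, κ0, hκ⟩ : ∃ κ : ℝ, 0 < κ ∧ ((∀ᶠ w in 𝓝[Icc (0 : ℝ) 1 ×ˢ sphere (0 : E ι) 1] z,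
        κ ≤ 1 - w.1) ∨ (κ ≤ 1 / 2 ∧ ∀ᶠ w in 𝓝[Icc (0 : ℝ) 1 ×ˢ sphere (0 : E ι) 1] z,
          η (cl 0 1 ((dsS i0 w.2 - 1) / 2)) ∈ Ioo (0 : ℝ) 4)) := by
      rcases hz.1.2.eq_or_lt with k | k
      · simp only [dsE, k, sub_self, zero_mul, zero_add, one_mul] at a1 a2
        exact ⟨1 / 2, by norm_num, Or.inr ⟨le_rfl,
          cT.continuousWithinAt.eventually (Ioo_mem_nhds a1 a2)⟩⟩
      · have c1 : Continuous fun w : ℝ × E ι => 1 - w.1 := continuous_const.sub continuous_fst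
        exact ⟨(1 - z.1) / 2, by linarith only [k], Or.inl (c1.continuousWithinAt.eventually
          (le_mem_nhds (half_lt_self (sub_pos.2 k))))⟩
    have est : ∀ w ∈ Icc (0 : ℝ) 1 ×ˢ sphere (0 : E ι) 1, ∀ v ∈ Icc (0 : ℝ) 1 ×ˢ sphere (0 : E ι) 1,
        κ * |dsS i0 v.2 - dsS i0 w.2| ≤ |dsE η w.1 (dsS i0 v.2) - dsE η w.1 (dsS i0 w.2)| →
        dist (dsS i0 v.2) (dsS i0 w.2) ≤
          5 / κ * dist (v.1, dsE η v.1 (dsS i0 v.2)) (w.1, dsE η w.1 (dsS i0 w.2)) := by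
      intro w _ v hv k
      have b1 := et v.1 w.1 _ (dsS_spec (i0 := i0) (mem_sphere_zero_iff_norm.1 hv.2)).1
      have b2 := abs_sub_le (dsE η w.1 (dsS i0 v.2)) (dsE η v.1 (dsS i0 v.2))
        (dsE η w.1 (dsS i0 w.2))
      have b3 : |w.1 - v.1| ≤
          dist (v.1, dsE η v.1 (dsS i0 v.2)) (w.1, dsE η w.1 (dsS i0 w.2)) := by
        rw [abs_sub_comm, Prod.dist_eq]; exact le_max_left _ _
      have b4 : |dsE η v.1 (dsS i0 v.2) - dsE η w.1 (dsS i0 w.2)| ≤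
          dist (v.1, dsE η v.1 (dsS i0 v.2)) (w.1, dsE η w.1 (dsS i0 w.2)) := by
        rw [Prod.dist_eq]; exact le_max_right _ _
      rw [div_mul_eq_mul_div, le_div_iff₀ κ0, Real.dist_eq]
      linarith only [k, b1, b2, b3, b4]
    have d3 : Dm (Icc (0 : ℝ) 1 ×ˢ sphere (0 : E ι) 1)
        (fun w : ℝ × E ι => usp i0 (dsE η w.1 (dsS i0 w.2)) (dsN i0 w.2) ∈
          ({Pi.single i0 (-1), Pi.single i0 1}ᶜ : Set (E ι))) (fun w => dsS i0 w.2)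
        (fun w => (w.1, dsE η w.1 (dsS i0 w.2))) z := by
      rcases hκ with k | ⟨k, k'⟩
      · exact Dm.of_nhds k fun w hw a v hv _ => est w hw v hv (sl _ hw.1 _ _ _ (Or.inl a))
      · exact Dm.of_nhds k' fun w hw a v hv b =>
          est w hw v hv (sl _ hw.1 _ _ _ (Or.inr ⟨k, a, b⟩))
    refine (((d3.trans (Dm.pr1.prod d1.toR)).prod d2.toR).lipOn
      (φ := fun p : ℝ × E ι => usp i0 p.1 p.2) (S := Icc (0 : ℝ) 4 ×ˢ Cs i0) (L := 2) ?_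
      fun a ha b hb => ?_).congrL fun w hw =>
        (ds_usp_coord (mem_sphere_zero_iff_norm.1 hw.2)).symm
    · filter_upwards [a3, self_mem_nhdsWithin] with w b1 b2
      exact ⟨(dsS_spec (i0 := i0) (mem_sphere_zero_iff_norm.1 b2.2)).1, b1⟩
    · have b1 := usp_lip hb.1 ha.1 hb.2 ha.2
      have b2 := ds_band zero_le_one b a (one_mul _).ge
      linarith only [b1, b2]
  · have e : dsE η 0 (dsS i0 x) = dsS i0 x := by simp [dsE]
    simp only [e, ds_usp_coord (mem_sphere_zero_iff_norm.1 hx)]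
  · have e : dsE η 1 (dsS i0 x) = η (cl 0 1 ((dsS i0 x - 1) / 2)) := by simp [dsE]
    simp only [e, hat]
    rcases ds_cases (i0 := i0) (mem_sphere_zero_iff_norm.1 hx) with ⟨a1, a2⟩ | ⟨a1, a2 | a2⟩
    · obtain ⟨a3, a4⟩ := abs_le.1 a2
      have e1 : (dsS i0 x - 1) / 2 = (x i0 + 1) / 2 := by rw [dsS, a1]; ring
      rw [if_neg a1.not_lt, e1, ds_cl_mid (by linarith only [a3]) (by linarith only [a4]), dsN, a1, inv_one, one_smul]
    · have e1 : 1 ≤ (dsS i0 x - 1) / 2 := by rw [dsS, a2]; linarith only [a1]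
      rw [if_pos a1, if_neg (by rw [a2]; norm_num), ds_cl_hi e1, h1, usp_four]
    · have e1 : (dsS i0 x - 1) / 2 ≤ 0 := by rw [dsS, a2]; linarith only [a1]
      rw [if_pos a1, if_pos (by rw [a2]; norm_num), ds_cl_lo e1, h0, usp_zero]

theorem ds_hd {L : E ι → E ι} (hL : IsSP L) {j : ι} {ε : ℝ} (hε : ε = 1 ∨ ε = -1)
    (he : L (Pi.single i0 1) = Pi.single j ε) {ζ : ℝ → ℝ} {c : ℝ} (hc : 0 ≤ c) (h0 : ζ 0 = 0)
    (h1 : ζ 1 = 2) (hm : MonotoneOn ζ (Icc 0 1))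
    (hi : ∀ n ∈ Icc (0 : ℝ) 1, ∀ n' ∈ Icc (0 : ℝ) 1, 0 < ζ n → ζ n' = ζ n → n' = n)
    (hl : ∀ n ∈ Icc (0 : ℝ) 1, ∀ n' ∈ Icc (0 : ℝ) 1, |ζ n' - ζ n| ≤ c * |n' - n|) {δ : ℝ}
    (hδ : δ = 1 ∨ δ = -1)
    (hq : ∀ n ∈ Icc (0 : ℝ) 1, ∀ n' ∈ Icc (0 : ℝ) 1, 0 < ζ n → 0 < ζ n' →
      |n' - n| ≤ |ζ n' - ζ n|) : HDisp i0 (c + 1) j (δ * ε) (Pi.single j (δ * ε)) L
      fun z => L (usp i0 (2 + δ * (2 - ζ z.1)) z.2) := by
  have hr : ∀ n ∈ Icc (0 : ℝ) 1, ζ n ∈ Icc (0 : ℝ) 2 := fun n hn =>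
    ⟨h0 ▸ hm (left_mem_Icc.2 zero_le_one) hn hn.1, h1 ▸ hm hn (right_mem_Icc.2 zero_le_one) hn.2⟩
  have hs : ∀ u ∈ Icc (0 : ℝ) 2, 2 + δ * (2 - u) ∈ Icc (0 : ℝ) 4 := fun u hu => by
    rcases hδ with rfl | rfl <;> constructor <;> linarith only [hu.1, hu.2]
  have hs' : ∀ u, 0 < u → u ≤ 2 → 0 < 2 + δ * (2 - u) ∧ 2 + δ * (2 - u) < 4 := fun u a b => by
    rcases hδ with rfl | rfl <;> constructor <;> linarith only [b, a]
  have hee : ε * ε = 1 := by rcases hε with rfl | rfl <;> norm_num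
  have hco : ∀ x, δ * ε * L x j = δ * x i0 := fun x => by
    rw [hL.coord hε he, mul_assoc, ← mul_assoc ε, hee, one_mul]
  have hp : ∀ ω, L (usp i0 (2 + δ * (2 - 0)) ω) = Pi.single j (δ * ε) := fun ω => by
    have e : usp i0 (2 + δ * (2 - 0)) ω = δ • (Pi.single i0 1 : E ι) := by
      rcases hδ with rfl | rfl
      · rw [show (2 : ℝ) + 1 * (2 - 0) = 4 by norm_num, usp_four, one_smul]
      · rw [show (2 : ℝ) + -1 * (2 - 0) = 0 by norm_num, usp_zero, ds_single]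
    rw [e, hL.smul, he, ← Pi.single_smul', smul_eq_mul]
  have hmp : ∀ n ∈ Icc (0 : ℝ) 1, ∀ ω ∈ Cs i0, ‖L (usp i0 (2 + δ * (2 - ζ n)) ω)‖ = 1 ∧
      0 ≤ δ * ε * L (usp i0 (2 + δ * (2 - ζ n)) ω) j := by
    intro n hn ω hω
    refine ⟨by rw [hL.norm, usp_norm (hs _ (hr n hn)) hω], ?_⟩
    rw [hco, ds_usp_axis _ hω.1]
    have a := (hr n hn).2
    rcases hδ with rfl | rfl <;> simp only [dsB, cl, min_def, max_def] <;> split_ifs <;> linarith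
  obtain ⟨L', hL', b1, b2⟩ := hL.inv
  refine ⟨ds_sol (fun _ _ x hx _ => hmp _ hx.1 _ hx.2) (fun _ _ y hy hU => ?_)
    (fun _ _ x hx x' hx' hU e => ?_) (fun t _ x hx t' _ x' hx' => ?_) (fun z hz hU => ?_), hmp,
    fun ω _ => ⟨?_, ?_⟩⟩
  · have hx : ‖L' y‖ = 1 := by rw [hL'.norm, hy.1]
    have e := ds_usp_coord (i0 := i0) hx
    obtain ⟨a0, -, a1⟩ := dsS_spec (i0 := i0) hx
    have a2 : 0 ≤ δ * dsB (dsS i0 (L' y)) := by rw [a1, ← hco, b2]; exact hy.2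
    have a3 : 2 - δ * (dsS i0 (L' y) - 2) ∈ Icc (0 : ℝ) 2 := by
      obtain ⟨a4, a5⟩ := a0
      generalize dsS i0 (L' y) = s at a2 a4 a5
      rcases hδ with rfl | rfl <;> simp only [dsB, cl, min_def, max_def] at a2 <;>
        split_ifs at a2 <;> constructor <;> linarith
    obtain ⟨n, hn, a4⟩ := ds_ivt zero_le_one hl (y := 2 - δ * (dsS i0 (L' y) - 2))
      (by rw [h0, h1]; exact a3)
    have a5 : 2 + δ * (2 - ζ n) = dsS i0 (L' y) := by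
      rw [a4]; rcases hδ with rfl | rfl <;> ring
    have a6 : L (usp i0 (2 + δ * (2 - ζ n)) (dsN i0 (L' y))) = y := by rw [a5, e, b2]
    have a7 : 0 < ζ n := (hr n hn).1.lt_of_ne fun k => hU (by rw [← a6, ← k, hp]; rfl)
    obtain ⟨a8, a9⟩ := hs' _ a7 (hr n hn).2
    exact ⟨(n, dsN i0 (L' y)), ⟨hn, dsN_mem hx (a5 ▸ a8) (a5 ▸ a9)⟩, a6⟩
  · have a7 : 0 < ζ x.1 := (hr _ hx.1).1.lt_of_ne fun k => hU (by
      simp only [← k, hp]; rfl)
    obtain ⟨a8, a9⟩ := hs' _ a7 (hr _ hx.1).2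
    obtain ⟨a1, a2⟩ := usp_inj (hs _ (hr _ hx.1)) (hs _ (hr _ hx'.1)) hx.2 hx'.2
      (Function.LeftInverse.injective b1 e)
    refine Prod.ext (hi _ hx.1 _ hx'.1 a7 ?_) (a2 a8 a9)
    rcases hδ with rfl | rfl <;> linarith only [a1]
  · have a1 := usp_lip (hs _ (hr _ hx.1)) (hs _ (hr _ hx'.1)) hx.2 hx'.2
    have a2 : |2 + δ * (2 - ζ x'.1) - (2 + δ * (2 - ζ x.1))| = |ζ x'.1 - ζ x.1| := by
      rcases hδ with rfl | rfl
      · rw [abs_sub_comm]; congr 1; ring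
      · congr 1; ring
    have a3 := ds_band hc x x' (hl _ hx.1 _ hx'.1)
    simp only [hL.dist]
    rw [a2] at a1
    linarith only [a1, a3]
  · have a7 : 0 < ζ z.2.1 := (hr _ hz.2.1).1.lt_of_ne fun k => hU (by
      simp only [← k, hp]; rfl)
    obtain ⟨a8, a9⟩ := hs' _ a7 (hr _ hz.2.1).2
    have c0 : ContinuousOn ζ (Icc 0 1) :=
      (LipschitzOnWith.of_dist_le' (K := c) fun x hx y hy => hl y hy x hx).continuousOn
    have c1 : ContinuousWithinAt (fun w : Unit × (ℝ × E ι) => ζ w.2.1)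
        (univ ×ˢ (Icc (0 : ℝ) 1 ×ˢ Cs i0)) z :=
      (c0.comp (f := fun w : Unit × (ℝ × E ι) => w.2.1) (by fun_prop) fun w hw => hw.2.1) z hz
    obtain ⟨d1, d2⟩ := ds_dm (i0 := i0) (ω := fun w : Unit × (ℝ × E ι) => w.2.2)
      (s := fun w => 2 + δ * (2 - ζ w.2.1))
      (P := fun w => L (usp i0 (2 + δ * (2 - ζ w.2.1)) w.2.2) ∈ ({Pi.single j (δ * ε)}ᶜ : Set (E ι)))
      (continuousWithinAt_const.add (continuousWithinAt_const.mul
        (continuousWithinAt_const.sub c1))) a8 a9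
      (eventually_nhdsWithin_of_forall fun w hw => hw.2.2)
    refine Dm.toR ((((Dm.of_nhds (K := 1) (c1.eventually (lt_mem_nhds a7))
      fun w hw a v hv b => ?_).trans d1).prod d2).trans
        (Dm.refl.uniso (Isometry.of_dist_eq hL.dist)))
    have a2 : |2 + δ * (2 - ζ v.2.1) - (2 + δ * (2 - ζ w.2.1))| = |ζ v.2.1 - ζ w.2.1| := by
      rcases hδ with rfl | rfl
      · rw [abs_sub_comm]; congr 1; ring
      · congr 1; ring
    rw [Real.dist_eq, Real.dist_eq, a2, one_mul]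
    exact hq _ hw.2.1 _ hv.2.1 a b
  · simp only [h0, hp]
  · simp only [h1, sub_self, mul_zero, add_zero, usp_two]

/-- Half displays along the meridians. -/
theorem hdisp_usp {L : E ι → E ι} (hL : IsSP L) {j : ι} {ε : ℝ} (hε : ε = 1 ∨ ε = -1)
    (he : L (Pi.single i0 1) = Pi.single j ε) {ζ : ℝ → ℝ} {c : ℝ} (hc : 0 ≤ c) (h0 : ζ 0 = 0)
    (h1 : ζ 1 = 2) (hm : MonotoneOn ζ (Icc 0 1))
    (hi : ∀ n ∈ Icc (0 : ℝ) 1, ∀ n' ∈ Icc (0 : ℝ) 1, 0 < ζ n → ζ n' = ζ n → n' = n)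
    (hl : ∀ n ∈ Icc (0 : ℝ) 1, ∀ n' ∈ Icc (0 : ℝ) 1, |ζ n' - ζ n| ≤ c * |n' - n|)
    (hq : ∀ n ∈ Icc (0 : ℝ) 1, ∀ n' ∈ Icc (0 : ℝ) 1, 0 < ζ n → 0 < ζ n' →
      |n' - n| ≤ |ζ n' - ζ n|) :
    HDisp i0 (c + 1) j (-ε) (Pi.single j (-ε)) L (fun z => L (usp i0 (ζ z.1) z.2)) ∧
      HDisp i0 (c + 1) j ε (Pi.single j ε) L fun z => L (usp i0 (4 - ζ z.1) z.2) := by
  have a1 := ds_hd hL hε he hc h0 h1 hm hi hl (δ := -1) (Or.inr rfl) hq
  have a2 := ds_hd hL hε he hc h0 h1 hm hi hl (δ := 1) (Or.inl rfl) hq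
  have e1 : ∀ u : ℝ, 2 + -1 * (2 - u) = u := fun u => by ring
  have e2 : ∀ u : ℝ, 2 + 1 * (2 - u) = 4 - u := fun u => by ring
  simp only [e1] at a1
  simp only [e2] at a2
  rw [neg_one_mul] at a1
  rw [one_mul] at a2
  exact ⟨a1, a2⟩

/-- A half display with the standard germ at the centre of the face. -/
theorem half_std {L : E ι → E ι} (hL : IsSP L) {j : ι} {ε : ℝ} (hε : ε = 1 ∨ ε = -1)
    (he : L (Pi.single i0 1) = Pi.single j ε) : ∃ Γ, HDisp i0 5 j ε (Pi.single j ε) L Γ ∧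
      ∀ t ∈ Icc (0 : ℝ) (1 / 2), ∀ ω ∈ Cs i0,
        Γ (t, ω) = Pi.single j ε + max 0 ((4 * t - 1) / 3) • L ω := by
  have h := (hdisp_usp hL hε he (ζ := fun t => max 0 (max ((4 * t - 1) / 3) ((10 * t - 4) / 3)))
    (c := 4) (by norm_num) (by norm_num) (by norm_num) (fun a _ b _ hab => ?_)
    (fun n _ n' _ a b => ?_) (fun n _ n' _ => ?_) fun n _ n' _ a b => ?_).2
  · rw [show (4 : ℝ) + 1 = 5 by norm_num] at h
    refine ⟨_, h, fun t ht ω _ => ?_⟩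
    have e : max ((4 * t - 1) / 3) ((10 * t - 4) / 3) = (4 * t - 1) / 3 :=
      max_eq_left (by linarith only [ht.2])
    have a1 : 0 ≤ max 0 ((4 * t - 1) / 3) := le_max_left _ _
    have a2 : max 0 ((4 * t - 1) / 3) ≤ 1 := max_le zero_le_one (by linarith only [ht.2])
    simp only [e]
    rw [usp_top ⟨by linarith only [a2], by linarith only [a1]⟩, hL.add, hL.smul, he, sub_sub_cancel]
  · exact max_le_max le_rfl (max_le_max (by linarith only [hab]) (by linarith only [hab]))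
  · have m : StrictMono fun t : ℝ => max ((4 * t - 1) / 3) ((10 * t - 4) / 3) := fun x y h =>
      max_lt_max (by linarith only [h]) (by linarith only [h])
    have a' := (lt_max_iff.1 a).resolve_left (lt_irrefl _)
    have b' := (lt_max_iff.1 (a.trans_eq b.symm)).resolve_left (lt_irrefl _)
    rw [max_eq_right a'.le, max_eq_right b'.le] at b
    exact m.injective b
  · have h3 := abs_nonneg (n' - n)
    refine (abs_max_sub_max_le_max _ _ _ _).trans (max_le (by simp) ?_)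
    refine (abs_max_sub_max_le_max _ _ _ _).trans (max_le ?_ ?_)
    · rw [show (4 * n' - 1) / 3 - (4 * n - 1) / 3 = 4 / 3 * (n' - n) by ring, abs_mul,
        abs_of_pos (by norm_num : (0 : ℝ) < 4 / 3)]
      linarith only [h3]
    · rw [show (10 * n' - 4) / 3 - (10 * n - 4) / 3 = 10 / 3 * (n' - n) by ring, abs_mul,
        abs_of_pos (by norm_num : (0 : ℝ) < 10 / 3)]
      linarith only [h3]
  · have m : ∀ x y : ℝ, x ≤ y → y - x ≤
        max ((4 * y - 1) / 3) ((10 * y - 4) / 3) - max ((4 * x - 1) / 3) ((10 * x - 4) / 3) := by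
      intro x y h
      have a1 := le_max_left ((4 * y - 1) / 3) ((10 * y - 4) / 3)
      have a2 := le_max_right ((4 * y - 1) / 3) ((10 * y - 4) / 3)
      rcases max_choice ((4 * x - 1) / 3) ((10 * x - 4) / 3) with k | k <;> rw [k] <;>
        linarith only [a1, a2, h]
    have a' := (lt_max_iff.1 a).resolve_left (lt_irrefl _)
    have b' := (lt_max_iff.1 b).resolve_left (lt_irrefl _)
    rw [max_eq_right a'.le, max_eq_right b'.le]
    rcases le_total n n' with k | k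
    · rw [abs_of_nonneg (sub_nonneg.2 k)]
      exact (m _ _ k).trans (le_abs_self _)
    · rw [abs_sub_comm, abs_of_nonneg (sub_nonneg.2 k), abs_sub_comm]
      exact (m _ _ k).trans (le_abs_self _)

end Pool.Agent.Lib.MP_ecd4e3_gt.NB
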