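import Mathlib

/-! Local domination of increments. -/

namespace Pool.Agent.Lib.MP_ecd4e3_gt.NB

open Set Filter Topology Metric

/-- Near `z`, at the points of `R` with the property `P`, the increments of `F` along `A` are
bounded by a fixed multiple of the increments of `G`. -/
def Dp {α β γ : Type} [TopologicalSpace α] [PseudoMetricSpace β] [PseudoMetricSpace γ]
    (R A : Set α) (P : α → Prop) (F : α → β) (G : α → γ) (z : α) : Prop :=
  ∃ K : ℝ, 0 ≤ K ∧ ∀ᶠ z' in 𝓝[R] z, P z' →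
    ∀ᶠ z'' in 𝓝[A] z', dist (F z'') (F z') ≤ K * dist (G z'') (G z')

/-- Near `z`, at the points of `R` with the property `P`, the increments of `F` along `R` are
bounded by a fixed multiple of the increments of `G`. -/
def Dm {α β γ : Type} [TopologicalSpace α] [PseudoMetricSpace β] [PseudoMetricSpace γ]
    (R : Set α) (P : α → Prop) (F : α → β) (G : α → γ) (z : α) : Prop :=
  Dp R R P F G z

variable {α α' β β' γ γ' δ : Type} [TopologicalSpace α] [TopologicalSpace α']
  [PseudoMetricSpace β] [PseudoMetricSpace β'] [PseudoMetricSpace γ] [PseudoMetricSpace γ']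
  [PseudoMetricSpace δ] {R R' A A' : Set α} {P P' : α → Prop} {F : α → β} {F' : α → β'}
  {G : α → γ} {G' : α → γ'} {H : α → δ} {z : α}

theorem ev_ev {p : α → Prop} (h : ∀ᶠ w in 𝓝[R] z, p w) :
    ∀ᶠ w in 𝓝[R] z, w ∈ R ∧ p w ∧ ∀ᶠ v in 𝓝[R] w, v ∈ R ∧ p v := by
  filter_upwards [eventually_eventually_nhdsWithin.2 h, h, self_mem_nhdsWithin] with w a b c
  exact ⟨c, b, (eventually_mem_nhdsWithin.and a)⟩

theorem Dp.union (h1 : Dp R A P F G z) (h2 : Dp R A' P F G z) : Dp R (A ∪ A') P F G z := by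
  obtain ⟨K1, p1, h1⟩ := h1
  obtain ⟨K2, -, h2⟩ := h2
  refine ⟨max K1 K2, le_max_of_le_left p1, ?_⟩
  filter_upwards [h1, h2] with w a b k
  rw [nhdsWithin_union]
  exact ⟨(a k).mono fun v e => e.trans (by gcongr; exact le_max_left _ _),
    (b k).mono fun v e => e.trans (by gcongr; exact le_max_right _ _)⟩

theorem Dp.monoA (h : Dp R A P F G z) (hA : A' ⊆ A) : Dp R A' P F G z := by
  obtain ⟨K, p, h⟩ := h
  exact ⟨K, p, h.mono fun w a k => (a k).filter_mono (nhdsWithin_mono w hA)⟩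

theorem Dp.biUnion {I : Type} {s : Set I} (hs : s.Finite) {A : I → Set α}
    (h : ∀ i ∈ s, Dp R (A i) P F G z) : Dp R (⋃ i ∈ s, A i) P F G z := by
  induction s, hs using Set.Finite.induction_on with
  | empty => exact ⟨0, le_rfl, Eventually.of_forall fun w _ => by simp⟩
  | insert _ _ ih =>
    rw [biUnion_insert]
    exact (h _ (mem_insert _ _)).union (ih fun i hi => h i (mem_insert_of_mem _ hi))

/-- A piece `A` of a relatively closed set `Q`. -/
theorem Dp.piece {Q : Set α} {F1 : α → β} {G1 : α → γ} (hA : A ⊆ Q)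
    (hc : ∀ w ∈ R, w ∈ closure Q → w ∈ Q) (hz : z ∈ R) (h : z ∈ Q → Dm Q P' F1 G1 z)
    (hP : ∀ w ∈ R, w ∈ Q → P w → P' w ∧ F w = F1 w ∧ G w = G1 w)
    (he : ∀ w ∈ A, F w = F1 w ∧ G w = G1 w) : Dp R A P F G z := by
  have bot : ∀ w ∈ R, w ∉ Q → 𝓝[A] w = ⊥ := fun w hw k =>
    le_bot_iff.1 ((not_neBot.1 fun k' => k (hc w hw (mem_closure_iff_nhdsWithin_neBot.2 k'))) ▸
      nhdsWithin_mono w hA)
  by_cases k : z ∈ Q
  · obtain ⟨K, p, h⟩ := h k
    refine ⟨K, p, ?_⟩
    filter_upwards [nhdsWithin_le_nhds (eventually_nhdsWithin_iff.1 h), self_mem_nhdsWithin]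
      with w a b c
    by_cases k' : w ∈ Q
    · obtain ⟨d1, d2, d3⟩ := hP w b k' c
      filter_upwards [nhdsWithin_mono w hA (a k' d1), self_mem_nhdsWithin] with v e f
      rw [d2, d3, (he v f).1, (he v f).2]
      exact e
    · rw [bot w b k']
      exact eventually_bot
  · refine ⟨0, le_rfl, ?_⟩
    have : (closure Q)ᶜ ∈ 𝓝 z := isClosed_closure.isOpen_compl.mem_nhds fun k' => k (hc z hz k')
    filter_upwards [nhdsWithin_le_nhds this, self_mem_nhdsWithin] with w a b _
    rw [bot w b fun k' => a (subset_closure k')]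
    exact eventually_bot

namespace Dm

/-- The general transfer lemma. -/
theorem of_imp (h : Dm R P F G z) {a b : ℝ} (ha : 0 ≤ a) (hb : 0 ≤ b)
    (he : ∀ᶠ w in 𝓝[R] z, P' w → P w ∧ ∀ᶠ v in 𝓝[R] w,
      dist (F' v) (F' w) ≤ a * dist (F v) (F w) ∧ dist (G v) (G w) ≤ b * dist (G' v) (G' w)) :
    Dm R P' F' G' z := by
  obtain ⟨K, p, h⟩ := h
  refine ⟨a * K * b, by positivity, ?_⟩
  filter_upwards [h, he] with w c d k
  filter_upwards [c (d k).1, (d k).2] with v e f
  calc _ ≤ a * (K * (b * dist (G' v) (G' w))) :=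
        f.1.trans (mul_le_mul_of_nonneg_left (e.trans (mul_le_mul_of_nonneg_left f.2 p)) ha)
    _ = _ := by ring

theorem of_ev {K : ℝ} (h : ∀ᶠ w in 𝓝[R] z, P w →
    ∀ᶠ v in 𝓝[R] w, dist (F v) (F w) ≤ K * dist (G v) (G w)) : Dm R P F G z :=
  ⟨max K 0, le_max_right _ _, h.mono fun _ a k => (a k).mono fun _ e =>
    e.trans (mul_le_mul_of_nonneg_right (le_max_left _ _) dist_nonneg)⟩

/-- A two point estimate on a neighbourhood. -/
theorem of_nhds {K : ℝ} {p : α → Prop} (hp : ∀ᶠ w in 𝓝[R] z, p w)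
    (h : ∀ w ∈ R, p w → ∀ v ∈ R, p v → dist (F v) (F w) ≤ K * dist (G v) (G w)) :
    Dm R P F G z :=
  of_ev ((ev_ev hp).mono fun w a _ => a.2.2.mono fun v b => h w a.1 a.2.1 v b.1 b.2)

/-- A two point estimate on `R`. -/
theorem of_le {K : ℝ} (h : ∀ w ∈ R, ∀ v ∈ R, dist (F v) (F w) ≤ K * dist (G v) (G w)) :
    Dm R P F G z :=
  of_nhds (p := fun _ => True) (Eventually.of_forall fun _ => trivial)
    fun w a _ v b _ => h w a v b

theorem refl : Dm R P F F z := of_le (K := 1) fun _ _ _ _ => (one_mul _).ge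

theorem const (c : β) : Dm R P (fun _ => c) G z := of_le (K := 0) fun _ _ _ _ => by simp

theorem trans (h : Dm R P F G z) (h' : Dm R P G H z) : Dm R P F H z := by
  obtain ⟨K, p, h⟩ := h
  obtain ⟨K', p', h'⟩ := h'
  refine ⟨K * K', by positivity, ?_⟩
  filter_upwards [h, h'] with w a b k
  filter_upwards [a k, b k] with v c d
  rw [mul_assoc]
  exact c.trans (mul_le_mul_of_nonneg_left d p)

theorem monoP (h : Dm R P F G z) (hP : ∀ᶠ w in 𝓝[R] z, P' w → P w) : Dm R P' F G z := by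
  obtain ⟨K, p, h⟩ := h
  exact ⟨K, p, (h.and hP).mono fun _ a k => a.1 (a.2 k)⟩

theorem imp (h : Dm R P F G z) (hP : ∀ w ∈ R, P' w → P w) : Dm R P' F G z :=
  h.monoP (eventually_nhdsWithin_of_forall hP)

/-- The property holds near `z`. -/
theorem ofP (h : Dm R P F G z) (hP : ∀ᶠ w in 𝓝[R] z, P w) : Dm R P' F G z :=
  h.monoP (hP.mono fun _ a _ => a)

theorem mono (h : Dm R P F G z) (hR : R' ⊆ R) : Dm R' P F G z := by
  obtain ⟨K, p, h⟩ := h
  exact ⟨K, p, (h.filter_mono (nhdsWithin_mono z hR)).mono fun w a k =>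
    (a k).filter_mono (nhdsWithin_mono w hR)⟩

/-- It suffices to work on a relative neighbourhood. -/
theorem of_mem (h : Dm R' P F G z) (hR : R' ∈ 𝓝[R] z) : Dm R P F G z := by
  obtain ⟨K, p, h⟩ := h
  refine ⟨K, p, ?_⟩
  filter_upwards [h.filter_mono (nhdsWithin_le_of_mem hR),
    eventually_eventually_nhdsWithin.2 (show ∀ᶠ w in 𝓝[R] z, w ∈ R' from hR)] with w a b k
  exact (a k).filter_mono (nhdsWithin_le_of_mem b)

/-- Change of the maps near the points with the property. -/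
theorem congr' {F1 : α → β} {G1 : α → γ} (h : Dm R P F G z)
    (he : ∀ᶠ w in 𝓝[R] z, P' w → P w ∧ F1 w = F w ∧ G1 w = G w ∧
      ∀ᶠ v in 𝓝[R] w, F1 v = F v ∧ G1 v = G v) : Dm R P' F1 G1 z :=
  h.of_imp zero_le_one zero_le_one (he.mono fun w a k => ⟨(a k).1, (a k).2.2.2.mono fun v b => by
    rw [b.1, b.2, (a k).2.1, (a k).2.2.1, one_mul, one_mul]
    exact ⟨le_rfl, le_rfl⟩⟩)

theorem congr_ev {F1 : α → β} {G1 : α → γ} (h : Dm R P F G z)
    (he : ∀ᶠ w in 𝓝[R] z, F1 w = F w ∧ G1 w = G w) : Dm R P F1 G1 z :=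
  h.congr' ((ev_ev he).mono fun _ a k => ⟨k, a.2.1.1, a.2.1.2, a.2.2.mono fun _ b => b.2⟩)

theorem congr {F1 : α → β} {G1 : α → γ} (h : Dm R P F G z)
    (h1 : ∀ w ∈ R, F1 w = F w) (h2 : ∀ w ∈ R, G1 w = G w) : Dm R P F1 G1 z :=
  h.congr_ev (eventually_nhdsWithin_of_forall fun w k => ⟨h1 w k, h2 w k⟩)

theorem congrL {F1 : α → β} (h : Dm R P F G z) (h1 : ∀ w ∈ R, F1 w = F w) : Dm R P F1 G z :=
  h.congr h1 fun _ _ => rfl

theorem congrL_ev {F1 : α → β} (h : Dm R P F G z) (h1 : ∀ᶠ w in 𝓝[R] z, F1 w = F w) :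
    Dm R P F1 G z :=
  h.congr_ev (h1.mono fun _ a => ⟨a, rfl⟩)

theorem prod (h : Dm R P F G z) (h' : Dm R P F' G z) : Dm R P (fun w => (F w, F' w)) G z := by
  obtain ⟨K, p, h⟩ := h
  obtain ⟨K', -, h'⟩ := h'
  refine ⟨max K K', le_max_of_le_left p, ?_⟩
  filter_upwards [h, h'] with w a b k
  filter_upwards [a k, b k] with v c d
  exact max_le (c.trans (by gcongr; exact le_max_left _ _))
    (d.trans (by gcongr; exact le_max_right _ _))

/-- Post-composition with a map which is Lipschitz on a set of values. -/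
theorem lipOn (h : Dm R P F G z) {φ : β → β'} {S : Set β} {L : ℝ} (hS : ∀ᶠ w in 𝓝[R] z, F w ∈ S)
    (hφ : ∀ a ∈ S, ∀ b ∈ S, dist (φ a) (φ b) ≤ L * dist a b) : Dm R P (fun w => φ (F w)) G z :=
  (of_nhds hS fun _ _ a _ _ b => hφ _ b _ a).trans h

theorem lip (h : Dm R P F G z) {φ : β → β'} {L : ℝ} (hφ : ∀ a b, dist (φ a) (φ b) ≤ L * dist a b) :
    Dm R P (fun w => φ (F w)) G z :=
  h.lipOn (S := univ) (Eventually.of_forall fun _ => trivial) fun a _ b _ => hφ a b

theorem lipW (h : Dm R P F G z) {φ : β → β'} {L : NNReal} (hφ : LipschitzWith L φ) :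
    Dm R P (fun w => φ (F w)) G z :=
  h.lip hφ.dist_le_mul

theorem iso (h : Dm R P F G z) {φ : β → β'} (hφ : Isometry φ) : Dm R P (fun w => φ (F w)) G z :=
  h.lipW hφ.lipschitz

/-- Removing an expanding map. -/
theorem unlipOn {φ : β → β'} (h : Dm R P (fun w => φ (F w)) G z) {S : Set β} {L : ℝ}
    (hS : ∀ᶠ w in 𝓝[R] z, F w ∈ S) (hφ : ∀ a ∈ S, ∀ b ∈ S, dist a b ≤ L * dist (φ a) (φ b)) :
    Dm R P F G z :=
  (of_nhds hS fun _ _ a _ _ b => hφ _ b _ a).trans h

theorem unlip {φ : β → β'} (h : Dm R P (fun w => φ (F w)) G z) {L : ℝ}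
    (hφ : ∀ a b, dist a b ≤ L * dist (φ a) (φ b)) : Dm R P F G z :=
  h.unlipOn (S := univ) (Eventually.of_forall fun _ => trivial) fun a _ b _ => hφ a b

theorem uniso {φ : β → β'} (h : Dm R P (fun w => φ (F w)) G z) (hφ : Isometry φ) : Dm R P F G z :=
  h.unlip (L := 1) fun a b => by rw [hφ.dist_eq, one_mul]

theorem fst {F : α → β × β'} (h : Dm R P F G z) : Dm R P (fun w => (F w).1) G z :=
  h.lipW LipschitzWith.prod_fst

theorem snd {F : α → β × β'} (h : Dm R P F G z) : Dm R P (fun w => (F w).2) G z :=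
  h.lipW LipschitzWith.prod_snd

/-- The first component of the dominating pair. -/
theorem pr1 : Dm R P G (fun w => (G w, G' w)) z := (refl (F := fun w => (G w, G' w))).fst

/-- The second component of the dominating pair. -/
theorem pr2 : Dm R P G' (fun w => (G w, G' w)) z := (refl (F := fun w => (G w, G' w))).snd

theorem toL (h : Dm R P F G z) : Dm R P F (fun w => (G w, G' w)) z := h.trans pr1

theorem toR (h : Dm R P F G' z) : Dm R P F (fun w => (G w, G' w)) z := h.trans pr2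

/-- Post-composition with a map which is Lipschitz near the value. -/
theorem loc (h : Dm R P F G z) (hc : ContinuousWithinAt F R z) {φ : β → β'} {L : NNReal}
    {S : Set β} (hS : S ∈ 𝓝 (F z)) (hφ : LipschitzOnWith L φ S) :
    Dm R P (fun w => φ (F w)) G z :=
  h.lipOn (hc.eventually hS) fun a ha b hb => hφ.dist_le_mul a ha b hb

/-- Post-composition with a continuously differentiable map. -/
theorem cd {V W : Type} [NormedAddCommGroup V] [NormedSpace ℝ V] [NormedAddCommGroup W]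
    [NormedSpace ℝ W] {F : α → V} (h : Dm R P F G z) (hc : ContinuousWithinAt F R z) (φ : V → W)
    (hφ : ContDiffAt ℝ 1 φ (F z)) : Dm R P (fun w => φ (F w)) G z := by
  obtain ⟨L, S, hS, hL⟩ := hφ.exists_lipschitzOnWith
  exact h.loc hc hS hL

theorem pi {ι : Type} [Fintype ι] {F : α → ι → β} (h : ∀ i, Dm R P (fun w => F w i) G z) :
    Dm R P F G z := by
  choose K p h using h
  have p' : 0 ≤ ∑ i, K i := Finset.sum_nonneg fun i _ => p i
  refine ⟨∑ i, K i, p', ?_⟩
  filter_upwards [eventually_all.2 h] with w a k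
  filter_upwards [eventually_all.2 fun i => a i k] with v b
  refine (dist_pi_le_iff (by positivity)).2 fun i => (b i).trans ?_
  gcongr
  exact Finset.single_le_sum (fun j _ => p j) (Finset.mem_univ i)

theorem apply {ι : Type} [Fintype ι] {F : α → ι → β} (h : Dm R P F G z) (i : ι) :
    Dm R P (fun w => F w i) G z :=
  h.lip (φ := fun x => x i) (L := 1) fun a b => by
    rw [one_mul]; exact dist_le_pi_dist a b i

theorem update {ι : Type} [Fintype ι] [DecidableEq ι] {F : α → ι → β} {f : α → β}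
    (h : Dm R P F G z) (hf : Dm R P f G z) (i : ι) :
    Dm R P (fun w => Function.update (F w) i (f w)) G z :=
  pi fun j => by
    by_cases e : j = i
    · simpa only [e, Function.update_self] using hf
    · simpa only [Function.update_of_ne e] using h.apply j

section Alg

variable {V : Type} [NormedAddCommGroup V] {u v : α → V} {f g : α → ℝ}

theorem add (h : Dm R P u G z) (h' : Dm R P v G z) : Dm R P (fun w => u w + v w) G z :=
  (h.prod h').lipW (φ := fun p : V × V => p.1 + p.2)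
    (LipschitzWith.prod_fst.add LipschitzWith.prod_snd)

theorem sub (h : Dm R P u G z) (h' : Dm R P v G z) : Dm R P (fun w => u w - v w) G z :=
  (h.prod h').lipW (φ := fun p : V × V => p.1 - p.2)
    (LipschitzWith.prod_fst.sub LipschitzWith.prod_snd)

theorem neg (h : Dm R P u G z) : Dm R P (fun w => -u w) G z :=
  h.lipW (φ := fun p : V => -p) LipschitzWith.id.neg

theorem norm (h : Dm R P u G z) : Dm R P (fun w => ‖u w‖) G z := h.lipW lipschitzWith_one_norm

theorem abs (h : Dm R P f G z) : Dm R P (fun w => |f w|) G z := h.norm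

theorem max (h : Dm R P f G z) (h' : Dm R P g G z) : Dm R P (fun w => max (f w) (g w)) G z :=
  (h.prod h').lipW (φ := fun p : ℝ × ℝ => Max.max p.1 p.2)
    (LipschitzWith.prod_fst.max LipschitzWith.prod_snd)

theorem min (h : Dm R P f G z) (h' : Dm R P g G z) : Dm R P (fun w => min (f w) (g w)) G z :=
  (h.prod h').lipW (φ := fun p : ℝ × ℝ => Min.min p.1 p.2)
    (LipschitzWith.prod_fst.min LipschitzWith.prod_snd)

theorem cmul (h : Dm R P f G z) (c : ℝ) : Dm R P (fun w => c * f w) G z :=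
  h.lip (φ := fun x => c * x) (L := |c|) fun a b => by
    rw [Real.dist_eq, Real.dist_eq, ← mul_sub, abs_mul]

theorem mulc (h : Dm R P f G z) (c : ℝ) : Dm R P (fun w => f w * c) G z := by
  simpa only [mul_comm] using h.cmul c

theorem divc (h : Dm R P f G z) (c : ℝ) : Dm R P (fun w => f w / c) G z := by
  simpa only [div_eq_mul_inv] using h.mulc c⁻¹

theorem mul (h : Dm R P f G z) (h' : Dm R P g G z) (c : ContinuousWithinAt f R z)
    (c' : ContinuousWithinAt g R z) : Dm R P (fun w => f w * g w) G z :=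
  (h.prod h').cd (c.prodMk c') (fun p : ℝ × ℝ => p.1 * p.2) (by fun_prop)

theorem inv (h : Dm R P f G z) (c : ContinuousWithinAt f R z) (h0 : f z ≠ 0) :
    Dm R P (fun w => (f w)⁻¹) G z :=
  h.cd c (fun p : ℝ => p⁻¹) (contDiffAt_inv ℝ h0)

theorem div (h : Dm R P f G z) (h' : Dm R P g G z) (c : ContinuousWithinAt f R z)
    (c' : ContinuousWithinAt g R z) (h0 : g z ≠ 0) : Dm R P (fun w => f w / g w) G z := by
  simpa only [div_eq_mul_inv] using h.mul (h'.inv c' h0) c (c'.inv₀ h0)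

variable [NormedSpace ℝ V]

theorem csmul (h : Dm R P u G z) (c : ℝ) : Dm R P (fun w => c • u w) G z :=
  h.lip (φ := fun x => c • x) (L := ‖c‖) fun a b => (dist_smul₀ c a b).le

theorem smulc (h : Dm R P f G z) (c : V) : Dm R P (fun w => f w • c) G z :=
  h.lip (φ := fun x : ℝ => x • c) (L := ‖c‖) fun a b => by
    rw [dist_eq_norm, ← sub_smul, norm_smul, mul_comm, dist_eq_norm]

theorem smul (h : Dm R P f G z) (h' : Dm R P u G z) (c : ContinuousWithinAt f R z)
    (c' : ContinuousWithinAt u R z) : Dm R P (fun w => f w • u w) G z :=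
  (h.prod h').cd (c.prodMk c') (fun p : ℝ × V => p.1 • p.2) (by fun_prop)

end Alg

/-- Transport along a map which is continuous at the points with the property. -/
theorem comp {R' : Set α'} {P' : α' → Prop} {Φ : α' → α} {z : α'} (h : Dm R P F G (Φ z))
    (hm : ∀ w ∈ R', Φ w ∈ R) (hz : ContinuousWithinAt Φ R' z)
    (hc : ∀ᶠ w in 𝓝[R'] z, P' w → P (Φ w) ∧ ContinuousWithinAt Φ R' w) :
    Dm R' P' (fun w => F (Φ w)) (fun w => G (Φ w)) z := by
  obtain ⟨K, p, h⟩ := h
  refine ⟨K, p, ?_⟩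
  filter_upwards [(hz.tendsto_nhdsWithin hm).eventually h, hc] with w a b k
  exact ((b k).2.tendsto_nhdsWithin hm).eventually (a (b k).1)

/-- Transport along a continuous map. -/
theorem comp' {R' : Set α'} {Φ : α' → α} {z : α'} (h : Dm R P F G (Φ z))
    (hm : ∀ w ∈ R', Φ w ∈ R) (hc : Continuous Φ) :
    Dm R' (fun w => P (Φ w)) (fun w => F (Φ w)) (fun w => G (Φ w)) z :=
  h.comp hm hc.continuousWithinAt (Eventually.of_forall fun _ k => ⟨k, hc.continuousWithinAt⟩)

/-- Two relatively closed pieces. -/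
theorem union {R1 R2 : Set α} (hR : R ⊆ R1 ∪ R2) (hz : z ∈ R)
    (c1 : ∀ w ∈ R, w ∈ closure R1 → w ∈ R1) (c2 : ∀ w ∈ R, w ∈ closure R2 → w ∈ R2)
    (h1 : z ∈ R1 → Dm R1 P F G z) (h2 : z ∈ R2 → Dm R2 P F G z) : Dm R P F G z :=
  ((Dp.piece Subset.rfl c1 hz h1 (fun _ _ _ k => ⟨k, rfl, rfl⟩) fun _ _ => ⟨rfl, rfl⟩).union
    (Dp.piece Subset.rfl c2 hz h2 (fun _ _ _ k => ⟨k, rfl, rfl⟩) fun _ _ => ⟨rfl, rfl⟩)).monoA hR

/-- A pointwise Lipschitz bound with a locally bounded constant. -/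
theorem of_gauge {K : ℝ} (h : ∀ w ∈ R, P w → ∀ᶠ v in 𝓝[R] w, dist (F v) (F w) ≤ K * dist (G v) (G w)) :
    Dm R P F G z :=
  of_ev (eventually_nhdsWithin_of_forall h)

end Dm

end Pool.Agent.Lib.MP_ecd4e3_gt.NB
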