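import Pool.Agent.Lib.MP_ecd4e3_gt.NB.Sol

/-! The recursion theorem and reductions. -/

namespace Pool.Agent.Lib.MP_ecd4e3_gt.NB

open Set Filter Topology Metric MeasureTheory
open scoped NNReal ENNReal

section
variable {T X Y : Type} [MetricSpace T] [MetricSpace X] [MetricSpace Y]

/-- Solving all problems of a possibly infinite tree at once. -/
theorem rec_sol {I : Type} {U : Set Y} (hU : IsOpen U) (hne : Uᶜ.Nonempty) (V : Set I)
    (pb : I → Pb T X Y) (ch : I → Set I) (G : I → (I → T × X → Y) → T × X → Y)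
    (hwf : ∀ σ ∈ V, (pb σ).WF U) (hch : ∀ σ ∈ V, ch σ ⊆ V)
    (hred : ∀ σ ∈ V, IsRed U pb (pb σ) (ch σ) (G σ)) (μ : ℝ≥0 → I → ℕ)
    (hμ : ∀ r : ℝ≥0, 0 < r → ∀ σ ∈ V, ∀ σ' ∈ ch σ, (pb σ).NV U r → (pb σ').NV U r →
      μ r σ' < μ r σ) :
    ∃ Z : I → T × X → Y, ∀ σ ∈ V, Sol U (pb σ) univ (Z σ) ∧ ∀ z, Ap U (Z σ z) (G σ Z z) := by
  classical
  obtain ⟨y0, hy0⟩ := hne
  let Zs : ℕ → I → T × X → Y := fun n => Nat.rec (fun _ _ => y0) (fun _ F σ => G σ F) n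
  have z0 : ∀ σ z, Zs 0 σ z ∉ U := fun _ _ => hy0
  have zs : ∀ n σ, Zs (n + 1) σ = G σ (Zs n) := fun _ _ => rfl
  have s1 : ∀ n, ∀ σ ∈ V, Sol U (pb σ) ∅ (Zs n σ) := by
    intro n
    induction n with
    | zero => exact fun σ _ => sol_bot _ (z0 σ)
    | succ n ih => exact fun σ hσ => (hred σ hσ).2 none _ fun q hq => ih q (hch σ hσ hq)
  have s2 : ∀ r : ℝ≥0, 0 < r → ∀ n, ∀ σ ∈ V, ((pb σ).NV U r → μ r σ < n) →
      Sol U (pb σ) (Wo U (pb σ).c (some r)) (Zs n σ) := by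
    intro r hr n
    induction n with
    | zero =>
      exact fun σ hσ h => (s1 0 σ hσ).vac (hwf σ hσ) fun t y h1 h2 h3 =>
        Nat.not_lt_zero _ (h ⟨t, y, h1, h2, h3⟩)
    | succ n ih =>
      intro σ hσ h
      by_cases hn : (pb σ).NV U r
      · exact (hred σ hσ).2 (some r) _ fun q hq => ih q (hch σ hσ hq) fun hq' =>
          (hμ r hr σ hσ q hq hn hq').trans_le (Nat.lt_succ_iff.1 (h hn))
      · refine (s1 (n + 1) σ hσ).vac (hwf σ hσ) fun t y h1 h2 h3 => ?_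
        exact hn ⟨t, y, h1, h2, h3⟩
  have s3 : ∀ n, ∀ σ ∈ V, ∀ z, Zs n σ z ∈ U → Zs (n + 1) σ z = Zs n σ z := by
    intro n
    induction n with
    | zero => exact fun σ _ z h => (z0 σ z h).elim
    | succ n ih =>
      intro σ hσ z h
      rw [zs] at h
      rw [zs (n + 1), zs n σ]
      rcases (hred σ hσ).1 z with ⟨y, hy⟩ | ⟨q, hq, z', φ, hφ, hG⟩
      · rw [hy, hy]
      · rw [hG] at h
        rw [hG, hG, ih q (hch σ hσ hq) z' ((hφ _).1 h)]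
  have s4 : ∀ n, ∀ σ ∈ V, ∀ z, Zs n σ z ∈ U → ∀ m, n ≤ m → Zs m σ z = Zs n σ z := by
    intro n σ hσ z h m hm
    induction m, hm using Nat.le_induction with
    | base => rfl
    | succ m _ ih => rw [s3 m σ hσ z (ih ▸ h), ih]
  let Z : I → T × X → Y := fun σ z => if h : ∃ n, Zs n σ z ∈ U then Zs h.choose σ z else y0
  have a1 : ∀ σ ∈ V, ∀ n z, Zs n σ z ∈ U → Z σ z = Zs n σ z := by
    intro σ hσ n z h
    have h1 : ∃ n, Zs n σ z ∈ U := ⟨n, h⟩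
    have h2 : Z σ z = Zs h1.choose σ z := dif_pos h1
    rw [h2, ← s4 _ σ hσ z h1.choose_spec _ (le_max_left _ n), s4 _ σ hσ z h _ (le_max_right _ n)]
  have a2 : ∀ σ ∈ V, ∀ z, Z σ z ∈ U → ∃ n, ∀ m, n ≤ m → Zs m σ z = Z σ z := by
    intro σ hσ z h
    by_cases h1 : ∃ n, Zs n σ z ∈ U
    · obtain ⟨n, hn⟩ := h1
      exact ⟨n, fun m hm => by rw [s4 n σ hσ z hn m hm, a1 σ hσ n z hn]⟩
    · have h2 : Z σ z = y0 := dif_neg h1
      exact (hy0 (h2 ▸ h)).elim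
  have a3 : ∀ σ ∈ V, ∀ y ∈ U, ∃ W, y ∈ W ∧ ∃ n, ∀ m, n ≤ m → Sol U (pb σ) W (Zs m σ) := by
    intro σ hσ y hy
    have hc := (hwf σ hσ).2.2
    have h1 : 0 < infDist y Uᶜ :=
      (hU.isClosed_compl.notMem_iff_infDist_pos ⟨y0, hy0⟩).1 fun h => h hy
    let r : ℝ≥0 := ⟨infDist y Uᶜ / (pb σ).c, (div_pos h1 hc).le⟩
    exact ⟨_, (div_mul_cancel₀ _ hc.ne').le, μ r σ + 1, fun m hm =>
      s2 r (div_pos h1 hc) m σ hσ fun _ => hm⟩
  have a4 : ∀ σ ∈ V, ∀ y ∈ U, ∃ W ∈ 𝓝 y, ∃ n, ∀ m, n ≤ m → Sol U (pb σ) W (Zs m σ) := by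
    intro σ hσ y hy
    have hc := (hwf σ hσ).2.2
    have h1 : 0 < infDist y Uᶜ :=
      (hU.isClosed_compl.notMem_iff_infDist_pos ⟨y0, hy0⟩).1 fun h => h hy
    have h2 : 0 < infDist y Uᶜ / 2 / (pb σ).c := by positivity
    let r : ℝ≥0 := ⟨infDist y Uᶜ / 2 / (pb σ).c, h2.le⟩
    refine ⟨_, ?_, μ r σ + 1, fun m hm => s2 r h2 m σ hσ fun _ => hm⟩
    filter_upwards [(continuous_infDist_pt Uᶜ).continuousAt.eventually
      (lt_mem_nhds (half_lt_self h1))] with y' a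
    exact (div_mul_cancel₀ _ hc.ne').le.trans a.le
  refine ⟨Z, fun σ hσ => ⟨⟨?_, ?_, ?_, ?_, ?_, ?_, ?_⟩, fun z => ?_⟩⟩
  · intro z hz h
    obtain ⟨n, hn⟩ := a2 σ hσ z h
    rw [← hn n le_rfl] at h ⊢
    exact (s1 n σ hσ).maps z hz h
  · intro z hz h
    obtain ⟨n, hn⟩ := a2 σ hσ z h
    rw [← hn n le_rfl] at h ⊢
    exact (s1 n σ hσ).bd z hz h
  · intro z hz h _
    obtain ⟨W, hW, n, hn⟩ := a3 σ hσ _ h
    have h1 := (hn n le_rfl).bd' z hz h hW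
    rw [a1 σ hσ n z (h1 ▸ h), h1]
  · intro t y h1 h2 _
    obtain ⟨W, hW, n, hn⟩ := a3 σ hσ _ h2
    obtain ⟨x, hx, h3⟩ := (hn n le_rfl).ex t y h1 h2 hW
    exact ⟨x, hx, by rw [a1 σ hσ n _ (h3 ▸ h2), h3]⟩
  · intro t x x' hx hx' h _ he
    obtain ⟨W, hW, n, hn⟩ := a3 σ hσ _ h
    obtain ⟨n1, h1⟩ := a2 σ hσ _ h
    obtain ⟨n2, h2⟩ := a2 σ hσ _ (he ▸ h)
    have e1 := h1 (n + n1 + n2) (by omega)
    have e2 := h2 (n + n1 + n2) (by omega)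
    exact (hn (n + n1 + n2) (by omega)).uq t x x' hx hx' (e1 ▸ h) (e1 ▸ hW) (by rw [e1, e2, he])
  · intro z hz h _
    obtain ⟨W, hW, n, hn⟩ := a3 σ hσ _ h
    obtain ⟨n1, h1⟩ := a2 σ hσ _ h
    have e1 := h1 (n + n1) (by omega)
    obtain ⟨h2, h3⟩ := (hn (n + n1) (by omega)).lip z hz (e1 ▸ h) (e1 ▸ hW)
    have h4 : ∀ᶠ z' in 𝓝[(pb σ).R] z, Z σ z' = Zs (n + n1) σ z' :=
      (h2.eventually_mem (hU.mem_nhds (e1 ▸ h))).mono fun z' hz' => a1 σ hσ _ z' hz'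
    refine ⟨h2.congr_of_eventuallyEq h4 e1.symm, ?_⟩
    filter_upwards [h3, h4] with z' h5 h6
    rwa [h6, ← e1]
  · intro z hz h _
    obtain ⟨W, hW, n, hn⟩ := a4 σ hσ _ h
    obtain ⟨n1, h1⟩ := a2 σ hσ _ h
    have e1 := h1 (n + n1) (by omega)
    have hW' := mem_of_mem_nhds hW
    have h2 := ((hn (n + n1) (by omega)).lip z hz (e1 ▸ h) (e1 ▸ hW')).1
    have h3 := h2.eventually_mem (hU.mem_nhds (e1 ▸ h))
    have h4 : ∀ᶠ z' in 𝓝[(pb σ).R] z, Z σ z' = Zs (n + n1) σ z' :=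
      h3.mono fun z' hz' => a1 σ hσ _ z' hz'
    exact (((hn (n + n1) (by omega)).lo z hz (e1 ▸ h) (e1 ▸ hW')).ofP
      (h3.and (h2.eventually_mem (e1 ▸ hW)))).congr_ev (h4.mono fun w a => ⟨rfl, by rw [a]⟩)
  · rcases (hred σ hσ).1 z with ⟨y, hy⟩ | ⟨q, hq, z', φ, hφ, hG⟩
    · rw [hy]
      rintro (h | h)
      · obtain ⟨n, hn⟩ := a2 σ hσ z h
        rw [← hn (n + 1) (Nat.le_succ n), zs, hy]
      · rw [a1 σ hσ (0 + 1) z (by rwa [zs, hy]), zs, hy]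
    · rw [hG]
      rintro (h | h)
      · obtain ⟨n, hn⟩ := a2 σ hσ z h
        have h1 := hn (n + 1) (Nat.le_succ n)
        rw [zs, hG] at h1
        rw [← h1, a1 q (hch σ hσ hq) n z' ((hφ _).1 (h1 ▸ h))]
      · obtain ⟨n, hn⟩ := a2 q (hch σ hσ hq) z' ((hφ _).1 h)
        have h1 : Zs (n + 1) σ z = φ (Z q z') := by rw [zs, hG, hn n le_rfl]
        rw [a1 σ hσ (n + 1) z (h1 ▸ h), h1]

theorem PW.const {I : Type} (U : Set Y) (ch : Set I) (Z : T × X → Y) :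
    PW U ch fun _ : I → T × X → Y => Z := fun z => Or.inl ⟨Z z, fun _ => rfl⟩

theorem PW.single {I : Type} {U : Set Y} {ch : Set I} {q : I} (hq : q ∈ ch) (Φ : T × X → T × X) :
    PW U ch fun (F : I → T × X → Y) z => F q (Φ z) :=
  fun z => Or.inr ⟨q, hq, Φ z, id, fun _ => Iff.rfl, fun _ => rfl⟩

theorem PW.mono {I : Type} {U : Set Y} {ch ch' : Set I} {G : (I → T × X → Y) → T × X → Y}
    (h : PW U ch G) (hs : ch ⊆ ch') : PW U ch' G :=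
  fun z => (h z).imp_right fun ⟨q, hq, h1⟩ => ⟨q, hs hq, h1⟩

theorem PW.ite {I : Type} {U : Set Y} {ch : Set I} {G G' : (I → T × X → Y) → T × X → Y}
    (h : PW U ch G) (h' : PW U ch G') (A : T × X → Prop) [DecidablePred A] :
    PW U ch fun F z => if A z then G F z else G' F z := by
  intro z
  by_cases hA : A z
  · simpa only [if_pos hA] using h z
  · simpa only [if_neg hA] using h' z

theorem PW.comp {I : Type} {U : Set Y} {ch : Set I} {G : (I → T × X → Y) → T × X → Y}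
    (h : PW U ch G) (Φ : T × X → T × X) : PW U ch fun F z => G F (Φ z) := fun z => h (Φ z)

theorem PW.post {I : Type} {U : Set Y} {ch : Set I} {G : (I → T × X → Y) → T × X → Y}
    (h : PW U ch G) {φ : Y → Y} (hφ : ∀ y, φ y ∈ U ↔ y ∈ U) :
    PW U ch fun F z => φ (G F z) := by
  intro z
  rcases h z with ⟨y, hy⟩ | ⟨q, hq, z', ψ, hψ, hG⟩
  · exact Or.inl ⟨φ y, fun F => congrArg φ (hy F)⟩
  · exact Or.inr ⟨q, hq, z', fun y => φ (ψ y), fun y => (hφ _).trans (hψ y),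
      fun F => congrArg φ (hG F)⟩

/-- A pointwise operator respects approximate equality. -/
theorem PW.ap {I : Type} {U : Set Y} {ch : Set I} {G : (I → T × X → Y) → T × X → Y}
    (h : PW U ch G) {F F' : I → T × X → Y} (he : ∀ q ∈ ch, ∀ z, Ap U (F q z) (F' q z)) (z : T × X) :
    Ap U (G F z) (G F' z) := by
  rcases h z with ⟨y, hy⟩ | ⟨q, hq, z', ψ, hψ, hG⟩
  · exact Ap.of_eq ((hy F).trans (hy F').symm)
  · rw [hG, hG]
    exact Ap.map hψ (he q hq z')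

end

variable {ι : Type} [Fintype ι] [DecidableEq ι] {U0 F0 : Set (E ι)}

theorem isOpen_UL (hU : IsOpen U0) : IsOpen (UL U0) := hU.preimage continuous_snd

theorem infDist_UL (U0 : Set (E ι)) (y : YL ι) : infDist y (UL U0)ᶜ = infDist y.2 U0ᶜ := by
  rcases U0ᶜ.eq_empty_or_nonempty with h | ⟨w, hw⟩
  · have h1 : (UL U0)ᶜ = ∅ := by rw [UL, ← preimage_compl, h, preimage_empty]
    rw [h, h1, infDist_empty, infDist_empty]
  · refine le_antisymm ((le_infDist ⟨w, hw⟩).2 fun x hx => ?_)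
      ((le_infDist ⟨(0, w), hw⟩).2 fun x hx => ?_)
    · refine (infDist_le_dist_of_mem (y := (y.1, x)) hx).trans_eq ?_
      rw [Prod.dist_eq, dist_self, max_eq_right dist_nonneg]
    · exact (infDist_le_dist_of_mem (y := x.2) hx).trans (le_max_right _ _)

theorem Red.refl (p : PE ι) : Red U0 F0 p {p} := by
  refine ⟨fun F => F p, ⟨PW.single (mem_singleton p) id, fun o F h => h p rfl⟩, ?_⟩
  rintro q rfl
  exact ⟨IsometryEquiv.refl _, fun x hx => hx, fun F _ x _ _ _ => rfl⟩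

theorem Red.trans {p : PE ι} {ps : Set (PE ι)} {ch : PE ι → Set (PE ι)} (h : Red U0 F0 p ps)
    (h' : ∀ q ∈ ps, Red U0 F0 q (ch q)) : Red U0 F0 p (⋃ q ∈ ps, ch q) := by
  obtain ⟨G, ⟨pw, red⟩, ext⟩ := h
  choose! Gq hq using h'
  refine ⟨fun F => G fun q => Gq q F, ⟨fun z => ?_, fun o F hF => ?_⟩, fun q' hq' => ?_⟩
  · rcases pw z with ⟨y, hy⟩ | ⟨q, h1, z', φ, hφ, hG⟩
    · exact Or.inl ⟨y, fun F => hy _⟩
    · simp only [hG]
      exact (((hq q h1).1.1.mono (subset_biUnion_of_mem (u := ch) h1)).post hφ) z'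
  · exact red o _ fun q h1 => (hq q h1).1.2 o F fun q' h2 => hF q' (mem_biUnion h1 h2)
  · obtain ⟨q, h1, h2⟩ := mem_iUnion₂.1 hq'
    obtain ⟨k1, m1, e1⟩ := ext q h1
    obtain ⟨k2, m2, e2⟩ := (hq q h1).2 q' h2
    refine ⟨k2.trans k1, fun x hx => m1 _ (m2 x hx), fun F hF x hx hU hF0 => ?_⟩
    have h3 := e2 F (fun q'' h4 => hF q'' (mem_biUnion h1 h4)) x hx hU hF0
    have h4 : ∀ q ∈ ps, Sol (UL U0) q univ (Gq q F) := fun q h1 => by
      have := (hq q h1).1.2 (some 0) F fun q'' h4 => by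
        rw [Wo_zero]
        exact hF q'' (mem_biUnion h1 h4)
      rwa [Wo_zero] at this
    exact (e1 (fun q => Gq q F) h4 _ (m2 x hx) (h3 ▸ hU) (h3 ▸ hF0)).trans h3

theorem Red.trans1 {p q : PE ι} {ps : Set (PE ι)} (h : Red U0 F0 p {q}) (h' : Red U0 F0 q ps) :
    Red U0 F0 p ps := by
  have := h.trans (ch := fun _ => ps) fun q' hq' => mem_singleton_iff.1 hq' ▸ h'
  rwa [biUnion_singleton] at this

theorem Red.trans2 {p q1 q2 : PE ι} {ps1 ps2 : Set (PE ι)} (h : Red U0 F0 p {q1, q2})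
    (h1 : Red U0 F0 q1 ps1) (h2 : Red U0 F0 q2 ps2) (hne : q1 ≠ q2) :
    Red U0 F0 p (ps1 ∪ ps2) := by
  classical
  have := h.trans (ch := fun q => if q = q1 then ps1 else ps2) fun q hq => by
    rcases hq with rfl | rfl
    · rwa [if_pos rfl]
    · rwa [if_neg hne.symm]
  rwa [biUnion_pair, if_pos rfl, if_neg hne.symm] at this

theorem Red.antiF {F1 : Set (E ι)} {p : PE ι} {ps : Set (PE ι)} (h : Red U0 F0 p ps)
    (hF : F1 ⊆ F0) : Red U0 F1 p ps := by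
  obtain ⟨G, red, ext⟩ := h
  refine ⟨G, red, fun q hq => ?_⟩
  obtain ⟨k, m, e⟩ := ext q hq
  exact ⟨k, m, fun F h1 x h2 h3 h4 => e F h1 x h2 h3 (hF h4)⟩

theorem Red.const {p : PE ι} {Z : Unit × E ι → YL ι} (h : Sol (UL U0) p univ Z) :
    Red U0 F0 p ∅ :=
  ⟨fun _ => Z, ⟨PW.const _ _ Z, fun _ _ _ => h.monoW (subset_univ _)⟩, fun _ hq => hq.elim⟩

/-- Change of coordinates in the target and weakening of the data. -/
theorem Red.iso {p q : PE ι} (h : E ι ≃ᵢ E ι) (hR : ∀ x, ((), x) ∈ q.R ↔ ((), h x) ∈ p.R)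
    (hB : ∀ x, ((), h x) ∈ p.B → ((), x) ∈ q.B ∧ Ap (UL U0) (p.β ((), h x)) (q.β ((), x)))
    (hS : ∀ y ∈ UL U0, y ∈ p.S () ↔ y ∈ q.S ())
    (hg : ∀ x x', q.g ((), x) ((), x') ≤ p.g ((), h x) ((), h x')) (hc : q.c ≤ p.c) :
    Red U0 F0 p {q} := by
  have hs : ∀ z : Unit × E ι, ((), h (h.symm z.2)) = z := fun z => by rw [h.apply_symm_apply]
  refine ⟨fun F z => F q ((), h.symm z.2), ⟨PW.single (mem_singleton q) fun z => ((), h.symm z.2),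
    fun o F hF => ?_⟩, ?_⟩
  · refine ((hF q rfl).monoW (Wo_mono _ hc o)).comp (fun _ => ()) (fun z => h.symm z.2)
      (fun z hz => (hR _).2 (by rwa [hs])) (fun z _ h1 h2 => (hS _ h1).2 h2)
      (fun t y h1 h2 => (hS y h2).1 h1)
      (fun t y _ _ _ x hx _ => ⟨h x, (hR x).1 hx, h.symm_apply_apply x⟩)
      (fun t x x' _ _ _ he => h.symm.injective he) (fun z _ _ => ⟨?_, ?_⟩) (fun z hz => Or.inl ?_)
      fun _ _ _ => ⟨Dm.const _, Dm.toR (Dm.refl.uniso h.symm.isometry)⟩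
    · exact (continuous_const.prodMk (h.symm.continuous.comp continuous_snd)).continuousWithinAt
    · refine Eventually.of_forall fun z' => ?_
      have := hg (h.symm z.2) (h.symm z'.2)
      rwa [hs, hs] at this
    · have := hB (h.symm z.2) (by rwa [hs])
      rwa [hs] at this
  · rintro q' rfl
    exact ⟨h, fun x hx => (hR x).1 hx, fun F _ x _ _ _ => by simp only [h.symm_apply_apply]⟩

theorem Red.glue {p q1 q2 : PE ι} (hR : p.R = q1.R ∪ q2.R) (c1 : IsClosed q1.R)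
    (c2 : IsClosed q2.R) (hS : ∀ y ∈ UL U0, y ∈ p.S () ↔ y ∈ q1.S () ∨ y ∈ q2.S ())
    (hov : ∀ z ∈ q1.R, z ∈ q2.R → z ∈ q1.B ∧ z ∈ q2.B ∧ Ap (UL U0) (q1.β z) (q2.β z))
    (hsep : ∀ y, y ∈ q1.S () → y ∈ q2.S () → y ∈ UL U0 →
      ∃ x, ((), x) ∈ q1.R ∧ ((), x) ∈ q2.R ∧ q1.β ((), x) = y)
    (hb : ∀ z ∈ p.B, (z ∈ q1.B ∧ z ∈ q1.R ∧ Ap (UL U0) (p.β z) (q1.β z)) ∨
      (z ∈ q2.B ∧ z ∈ q2.R ∧ Ap (UL U0) (p.β z) (q2.β z)))
    (g1 : ∀ z z', q1.g z z' ≤ p.g z z') (g2 : ∀ z z', q2.g z z' ≤ p.g z z')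
    (k1 : q1.c ≤ p.c) (k2 : q2.c ≤ p.c) : Red U0 F0 p {q1, q2} := by
  classical
  have m1 : q1 ∈ ({q1, q2} : Set (PE ι)) := mem_insert _ _
  have m2 : q2 ∈ ({q1, q2} : Set (PE ι)) := mem_insert_of_mem _ rfl
  refine ⟨fun F z => if z ∈ q1.R then F q1 z else F q2 z,
    ⟨(PW.single m1 id).ite (PW.single m2 id) (· ∈ q1.R), fun o F hF => ?_⟩, ?_⟩
  · exact ((hF q1 m1).monoW (Wo_mono _ k1 o)).glue ((hF q2 m2).monoW (Wo_mono _ k2 o)) hR
      (fun z _ hz => c1.closure_subset hz) (fun z _ hz => c2.closure_subset hz)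
      (fun t y hy => hS y hy) hov (fun t y => hsep y) hb
      (fun z _ => Eventually.of_forall (g1 z)) fun z _ => Eventually.of_forall (g2 z)
  · rintro q (rfl | rfl)
    · exact ⟨IsometryEquiv.refl _, fun x hx => hR ▸ Or.inl hx, fun F _ x hx _ _ =>
        congrArg Prod.snd (if_pos hx)⟩
    · refine ⟨IsometryEquiv.refl _, fun x hx => hR ▸ Or.inr hx, fun F hF x hx hU _ => ?_⟩
      by_cases h1 : ((), x) ∈ q1.R
      · obtain ⟨b1, b2, b3⟩ := hov _ h1 hx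
        exact congrArg Prod.snd ((if_pos h1).trans ((((hF q1 m1).ap _ b1).trans
          (b3.trans ((hF q m2).ap _ b2).symm)) (Or.inr hU)))
      · exact congrArg Prod.snd (if_neg h1)

theorem Red.sol {p : PE ι} {ps : Set (PE ι)} (h : Red U0 F0 p ps)
    (hs : ∀ q ∈ ps, ∃ Z, Sol (UL U0) q univ Z) : ∃ Z, Sol (UL U0) p univ Z := by
  obtain ⟨G, ⟨-, red⟩, -⟩ := h
  choose! F hF using hs
  have := red (some 0) F fun q hq => by
    rw [Wo_zero]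
    exact hF q hq
  exact ⟨_, Wo_zero (UL U0) p.c ▸ this⟩

/-- Extension of a given solution of one of the sub-problems. -/
theorem Red.extend {p q : PE ι} {ps : Set (PE ι)} (h : Red U0 F0 p ps) (hq : q ∈ ps)
    (hs : ∀ q ∈ ps, ∃ Z, Sol (UL U0) q univ Z) {Z : Unit × E ι → YL ι}
    (hZ : Sol (UL U0) q univ Z) :
    ∃ (Z' : Unit × E ι → YL ι) (h : E ι ≃ᵢ E ι), Sol (UL U0) p univ Z' ∧
      (∀ x, ((), x) ∈ q.R → ((), h x) ∈ p.R) ∧
      ∀ x, ((), x) ∈ q.R → (Z ((), x)).2 ∈ U0 → (Z ((), x)).2 ∈ F0 →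
        (Z' ((), h x)).2 = (Z ((), x)).2 := by
  classical
  obtain ⟨G, ⟨-, red⟩, ext⟩ := h
  choose! F hF using hs
  have h1 : ∀ q' ∈ ps, Sol (UL U0) q' univ (Function.update F q Z q') := fun q' hq' => by
    by_cases h2 : q' = q
    · rw [h2, Function.update_self]
      exact hZ
    · rw [Function.update_of_ne h2]
      exact hF q' hq'
  have h2 := red (some 0) _ fun q' hq' => by
    rw [Wo_zero]
    exact h1 q' hq'
  obtain ⟨k, m, e⟩ := ext q hq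
  refine ⟨_, k, Wo_zero (UL U0) p.c ▸ h2, m, ?_⟩
  simpa only [Function.update_self] using e _ h1

theorem red_rec {I : Type} (hU : IsOpen U0) (hne : U0ᶜ.Nonempty) (V : Set I) (pb : I → PE ι)
    (hwf : ∀ σ ∈ V, (pb σ).WF (UL U0)) (μ : ℝ≥0 → I → ℕ)
    (hstep : ∀ σ ∈ V, ∃ ch ⊆ V, Red U0 F0 (pb σ) (pb '' ch) ∧
      ∀ r : ℝ≥0, 0 < r → ∀ σ' ∈ ch, (pb σ).NV (UL U0) r → (pb σ').NV (UL U0) r →
        μ r σ' < μ r σ) :
    ∀ σ ∈ V, ∃ Z, Sol (UL U0) (pb σ) univ Z := by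
  classical
  choose! ch hch hred hμ using hstep
  choose! G hG _ using hred
  have hpre : ∀ σ q, ∃ σ', q ∈ pb '' ch σ → σ' ∈ ch σ ∧ pb σ' = q := fun σ q => by
    by_cases h : q ∈ pb '' ch σ
    · obtain ⟨σ', h1⟩ := h
      exact ⟨σ', fun _ => h1⟩
    · exact ⟨σ, fun h1 => (h h1).elim⟩
  choose pre hpre using hpre
  obtain ⟨w, hw⟩ := hne
  have hred : ∀ σ ∈ V, IsRed (UL U0) pb (pb σ) (ch σ) fun F => G σ fun q => F (pre σ q) := by
    refine fun σ hσ => ⟨fun z => ?_, fun o F hF => ?_⟩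
    · rcases (hG σ hσ).1 z with ⟨y, hy⟩ | ⟨q, hq, z', φ, hφ, h1⟩
      · exact Or.inl ⟨y, fun F => hy _⟩
      · exact Or.inr ⟨_, (hpre σ q hq).1, z', φ, hφ, fun F => h1 _⟩
    · refine (hG σ hσ).2 o _ fun q hq => ?_
      have := hF _ (hpre σ q hq).1
      rwa [(hpre σ q hq).2] at this
  obtain ⟨Z, hZ⟩ := rec_sol (isOpen_UL hU) ⟨(0, w), hw⟩ V pb ch _ hwf hch hred μ
    fun r hr σ hσ σ' h => hμ σ hσ r hr σ' h
  exact fun σ hσ => ⟨_, (hZ σ hσ).1⟩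

end Pool.Agent.Lib.MP_ecd4e3_gt.NB
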