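import Pool.Agent.Lib.MP_ecd4e3_gt.NB.ENum
import Pool.Agent.Lib.MP_ecd4e3_gt.NB.Rec

/-! Bands. -/

namespace Pool.Agent.Lib.MP_ecd4e3_gt.NB

open Set Filter Topology Metric MeasureTheory
open scoped NNReal ENNReal

variable {ι : Type} [Fintype ι] [DecidableEq ι]

section aux

theorem eb_nonneg {K x : ℝ} (hx : x ∈ Icc (0 : ℝ) 1)
    (h : ∀ᶠ n in 𝓝[Icc (0 : ℝ) 1] x, 0 ≤ K * dist n x) : 0 ≤ K := by
  by_contra hK
  have h1 : AccPt x (𝓟 (Icc (0 : ℝ) 1)) := (uniqueDiffOn_Icc zero_lt_one x hx).accPt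
  rw [eventually_nhdsWithin_iff] at h
  obtain ⟨n, ⟨a1, a2⟩, a3⟩ := ((accPt_iff_frequently.1 h1).and_eventually h).exists
  have a4 := mul_neg_of_neg_of_pos (not_le.1 hK) (dist_pos.2 a1)
  linarith only [a3 a2, a4]

theorem eb_cw {A : Type} [TopologicalSpace A] {f g : A → ℝ} {s : Set A} {z : A}
    (hg : Continuous g) (h0 : g z = 0) (h : ∀ z' ∈ s, |f z' - f z| ≤ g z') :
    ContinuousWithinAt f s z := by
  refine tendsto_iff_dist_tendsto_zero.2 (squeeze_zero' (g := g)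
    (Eventually.of_forall fun _ => dist_nonneg) ?_ ?_)
  · filter_upwards [self_mem_nhdsWithin] with w hw using h w hw
  · exact h0 ▸ (hg.tendsto z).mono_left nhdsWithin_le_nhds

theorem eb_lip {A : Type} [TopologicalSpace A] {l : ℝ → ℝ} {p : ℝ}
    (hl : ∀ r ∈ Icc (0 : ℝ) 1, ∀ r' ∈ Icc (0 : ℝ) 1, |l r' - l r| ≤ p * |r' - r|)
    {s : Set (ℝ × A)} {z : ℝ × A} (hz : z.1 ∈ Icc (0 : ℝ) 1) (hs : ∀ w ∈ s, w.1 ∈ Icc (0 : ℝ) 1) :
    ContinuousWithinAt (fun w : ℝ × A => l w.1) s z :=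
  eb_cw (g := fun w => p * |w.1 - z.1|) (by fun_prop) (by simp) fun w hw => hl _ hz _ (hs w hw)

theorem eb_dm {A : Type} [TopologicalSpace A] {l : ℝ → ℝ} {p : ℝ}
    (hl : ∀ r ∈ Icc (0 : ℝ) 1, ∀ r' ∈ Icc (0 : ℝ) 1, |l r' - l r| ≤ p * |r' - r|)
    {s : Set (ℝ × A)} {P : ℝ × A → Prop} {z : ℝ × A} (hs : ∀ w ∈ s, w.1 ∈ Icc (0 : ℝ) 1) :
    Dm s P (fun w => l w.1) (fun w => w.1) z :=
  Dm.of_le (K := p) fun w a v b => hl _ (hs w a) _ (hs v b)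

variable {i0 : ι}

omit [DecidableEq ι] in
theorem eb_m {x : E ι} (hx : ‖x‖ = 1) : (x i0 + 1) / 2 ∈ Icc (0 : ℝ) 1 := by
  have h1 := abs_le.1 ((norm_le_pi_norm x i0).trans hx.le)
  constructor <;> linarith only [h1.1, h1.2, h1]

theorem eb_dist (x x' : E ι) :
    dist (Function.update x' i0 0) (Function.update x i0 0) ≤ dist x' x := by
  refine (dist_pi_le_iff dist_nonneg).2 fun i => ?_
  by_cases hi : i = i0
  · subst hi
    simp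
  · simpa [hi] using dist_le_pi_dist x' x i

theorem eb_le (x : E ι) : ‖Function.update x i0 0‖ ≤ ‖x‖ := by
  have h1 := eb_dist (i0 := i0) 0 x
  rwa [show Function.update (0 : E ι) i0 0 = 0 from Function.update_eq_self i0 _, dist_zero_right,
    dist_zero_right] at h1

theorem eb_cs {x : E ι} (hx : ‖x‖ = 1) (h : ¬ ‖Function.update x i0 0‖ < 1) :
    Function.update x i0 0 ∈ Cs i0 := by
  exact ⟨by simp, le_antisymm ((eb_le x).trans hx.le) (not_lt.1 h)⟩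

theorem eb_notcap {x : E ι} (hx : ‖x‖ = 1) (h : |x i0| < 1) :
    ¬ ‖Function.update x i0 0‖ < 1 := by
  intro h1
  refine ((pi_norm_lt_iff one_pos).2 fun i => ?_).ne hx
  by_cases hi : i = i0
  · exact hi ▸ h
  · simpa [hi] using (pi_norm_lt_iff one_pos).1 h1 i

theorem eb_upd {ω : E ι} (hω : ω ∈ Cs i0) (s : ℝ) :
    Function.update (Function.update ω i0 s) i0 0 = ω := by
  rw [Function.update_idem, Function.update_eq_self_iff, hω.1]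

theorem eb_norm {ω : E ι} (hω : ω ∈ Cs i0) {s : ℝ} (hs : |s| ≤ 1) :
    ‖Function.update ω i0 s‖ = 1 := by
  refine le_antisymm ((pi_norm_le_iff_of_nonneg zero_le_one).2 fun i => ?_) ?_
  · by_cases hi : i = i0
    · subst hi
      simpa using hs
    · simpa [hi] using (norm_le_pi_norm ω i).trans hω.2.le
  · have h1 := eb_le (i0 := i0) (Function.update ω i0 s)
    rwa [eb_upd hω, hω.2] at h1

/-- Extension of a solution by junk values. -/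
theorem Sol.eb_ext {T X Y : Type} [MetricSpace T] [MetricSpace X] [MetricSpace Y] {U : Set Y}
    {p q : Pb T X Y} {Z Z' : T × X → Y} (h : Sol U q univ Z) (hR : q.R ⊆ p.R) (hB : p.B = ∅)
    (hS : p.S = q.S) (hg : p.g = q.g) (he : ∀ z ∈ q.R, Z' z = Z z)
    (hj : ∀ z ∈ p.R, Z' z ∈ U → z ∈ q.R)
    (hn : ∀ z ∈ q.R, Z z ∈ U → ∀ᶠ z' in 𝓝[p.R] z, z' ∈ q.R) : Sol U p univ Z' := by
  refine ⟨fun z hz k => ?_, fun z hz => (notMem_empty z (hB ▸ hz)).elim,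
    fun z hz => (notMem_empty z (hB ▸ hz)).elim,
    fun t y k1 k2 k3 => ?_, fun t x x' k1 k2 k3 k4 k5 => ?_, fun z hz k _ => ?_,
    fun z hz k _ => ?_⟩
  · have a := hj z hz k
    rw [he z a] at k ⊢
    exact hS ▸ h.maps z a k
  · obtain ⟨x, a1, a2⟩ := h.ex t y (hS ▸ k1) k2 k3
    exact ⟨x, hR a1, (he _ a1).trans a2⟩
  · have a1 := hj _ k1 k3
    have a2 := hj _ k2 (k5 ▸ k3)
    rw [he _ a1] at k3 k5
    rw [he _ a2] at k5
    exact h.uq t x x' a1 a2 k3 trivial k5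
  · have a := hj z hz k
    rw [he z a] at k
    obtain ⟨k1, k2⟩ := h.lip z a k trivial
    have a1 := hn z a k
    have a2 : 𝓝[p.R] z ≤ 𝓝[q.R] z := nhdsWithin_le_iff.2 a1
    have a3 : Z' =ᶠ[𝓝[p.R] z] Z := a1.mono he
    refine ⟨(k1.mono_of_mem_nhdsWithin a1).congr_of_eventuallyEq a3 (he z a), ?_⟩
    filter_upwards [a2 k2, a3] with z' b1 b2
    rw [b2, he z a, hg]
    exact b1
  · have a := hj z hz k
    rw [he z a] at k
    have a1 := hn z a k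
    have a3 : ∀ᶠ w in 𝓝[p.R] z, Z' w = Z w := a1.mono he
    exact (((h.lo z a k trivial).of_mem a1).congr_ev (a3.mono fun w b => ⟨rfl, by rw [b]⟩)).monoP
      (a3.mono fun w b c => b ▸ c)

/-- The problem of a movie of bands between two graphs. -/
def pbB {Y : Type} (i0 : ι) (l0 l : ℝ → ℝ) (D : Set Y) (a b c : ℝ)
    (β : ℝ × (ℝ × E ι) → Y) : Pb ℝ (ℝ × E ι) Y :=
  ⟨{z : ℝ × (ℝ × E ι) | z.1 ∈ Icc (0 : ℝ) 1 ∧ z.2.1 ∈ Icc (l0 z.1) (l z.1) ∧ z.2.2 ∈ Cs i0}, ∅,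
    β, fun r => {y | r ∈ Icc (0 : ℝ) 1 ∧ y ∈ D},
    fun z z' => a * |z'.2.1 - z.2.1| + b * dist z'.2.2 z.2.2 + c * |z'.1 - z.1|, 1⟩

end aux

section
variable {Y : Type} [MetricSpace Y] {U : Set Y} {i0 : ι}

omit [DecidableEq ι] in
theorem Bnd.sol {l : ℝ → ℝ} {D : Set Y} {a b c : ℝ} {Γ : ℝ → ℝ × E ι → Y}
    (h : Bnd U i0 l D a b c Γ) :
    Sol U (pbB i0 (fun _ => 0) l D a b c fun z => Γ z.1 z.2) univ fun z => Γ z.1 z.2 := h.1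

omit [DecidableEq ι] in
theorem Bnd.of_sol {l : ℝ → ℝ} {D : Set Y} {a b c : ℝ} {Γ : ℝ → ℝ × E ι → Y}
    (h : Sol U (pbB i0 (fun _ => 0) l D a b c fun z => Γ z.1 z.2) univ fun z => Γ z.1 z.2)
    (h' : ∀ r ∈ Icc (0 : ℝ) 1, 0 ≤ l r ∧ ∀ ω ∈ Cs i0, Γ r (0, ω) ∉ U ∧ Γ r (l r, ω) ∉ U) :
    Bnd U i0 l D a b c Γ := ⟨h, h'⟩

theorem Disp.const {K : ℝ} {p q : E ι} {Ξ : ℝ × E ι → E ι} (h : Disp i0 K p q Ξ) :
    DispM i0 (Icc (0 : ℝ) 1) K p q fun z => Ξ z.2 := by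
  refine ⟨h.1.comp (p := pbP (Icc (0 : ℝ) 1) (Icc (0 : ℝ) 1 ×ˢ Cs i0) ∅ (fun z => Ξ z.2)
    (sphere 0 1) (gs K K) 1) (fun _ => ()) Prod.snd (fun _ k => ⟨trivial, k.2⟩)
    (fun _ hz _ k => ⟨hz.1, k.2⟩) (fun _ _ k _ => ⟨trivial, k.2⟩)
    (fun _ _ k _ _ x hx _ => ⟨x, ⟨k.1, hx.2⟩, rfl⟩) (fun _ _ _ _ _ _ k => k)
    (fun z hz hU => ⟨(continuous_const.prodMk continuous_snd).continuousWithinAt,
      Eventually.of_forall fun z' => ?_⟩) (fun _ k => k.2.elim)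
    (fun _ _ _ => ⟨Dm.const _, Dm.pr2⟩),
    fun _ _ => h.2.1 () trivial, fun _ _ => h.2.2 () trivial⟩
  have h1 := (h.1.lip ((), z.2) ⟨trivial, hz.2⟩ hU trivial).2
  have h2 : Tendsto (fun n : ℝ => (((), n, z.2.2) : Unit × ℝ × E ι)) (𝓝[Icc (0 : ℝ) 1] z.2.1)
      (𝓝[univ ×ˢ (Icc (0 : ℝ) 1 ×ˢ Cs i0)] ((), z.2)) :=
    ContinuousWithinAt.tendsto_nhdsWithin (f := fun n : ℝ => (((), n, z.2.2) : Unit × ℝ × E ι))
      (Continuous.continuousWithinAt (by fun_prop)) fun n hn => ⟨trivial, hn, hz.2.2⟩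
  have h3 : 0 ≤ K := eb_nonneg hz.2.1 ((h2.eventually h1).mono fun n hn => by
    simpa [pbP, gs, Prod.dist_eq] using dist_nonneg.trans hn)
  simp only [pbP, gs, dist_self, mul_zero, add_zero]
  exact le_add_of_nonneg_right (mul_nonneg h3 dist_nonneg)

theorem DispM.mono {T : Type} [MetricSpace T] {J : Set T} {K K' : ℝ} {p q : E ι}
    {M : T × (ℝ × E ι) → E ι} (h : DispM i0 J K p q M) (hK : K ≤ K') : DispM i0 J K' p q M :=
  ⟨h.1.mono rfl Subset.rfl (fun _ _ => Ap.rfl) (fun _ _ _ => Iff.rfl)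
    (fun _ _ => Eventually.of_forall fun _ => add_le_add (mul_le_mul_of_nonneg_right hK dist_nonneg)
      (mul_le_mul_of_nonneg_right hK dist_nonneg)) Subset.rfl, h.2⟩

theorem Bnd.mono {l : ℝ → ℝ} {D D' : Set Y} {a b c a' b' c' : ℝ} {Γ : ℝ → ℝ × E ι → Y}
    (h : Bnd U i0 l D a b c Γ) (hD : ∀ y ∈ U, y ∈ D ↔ y ∈ D') (ha : a ≤ a') (hb : b ≤ b')
    (hc : c ≤ c') : Bnd U i0 l D' a' b' c' Γ :=
  ⟨h.1.mono rfl Subset.rfl (fun _ _ => Ap.rfl)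
    (fun _ y hy => and_congr_right fun _ => (hD y hy).symm)
    (fun _ _ => Eventually.of_forall fun _ => add_le_add (add_le_add
      (mul_le_mul_of_nonneg_right ha (abs_nonneg _)) (mul_le_mul_of_nonneg_right hb dist_nonneg))
      (mul_le_mul_of_nonneg_right hc (abs_nonneg _))) Subset.rfl, h.2⟩

theorem Bnd.congr (hU : IsOpen U) {l l' : ℝ → ℝ} {D : Set Y} {a b c : ℝ}
    {Γ Γ' : ℝ → ℝ × E ι → Y} (h : Bnd U i0 l D a b c Γ) (hl : ∀ r ∈ Icc (0 : ℝ) 1, l' r = l r)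
    (he : ∀ r ∈ Icc (0 : ℝ) 1, ∀ n ∈ Icc 0 (l r), ∀ ω ∈ Cs i0, Ap U (Γ' r (n, ω)) (Γ r (n, ω))) :
    Bnd U i0 l' D a b c Γ' := by
  refine Bnd.of_sol ((h.sol.congr hU (Z' := fun z => Γ' z.1 z.2) (empty_subset _)
    fun z hz => he _ hz.1 _ hz.2.1 _ hz.2.2).setB ?_ (fun _ k => k.elim) (fun _ _ _ => Iff.rfl)
    fun _ _ => Eventually.of_forall fun _ => le_rfl) fun r hr => ?_
  · ext z
    exact and_congr_right fun k => by rw [hl _ k]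
  · obtain ⟨h1, h2⟩ := h.2 r hr
    rw [hl r hr]
    refine ⟨h1, fun ω hω => ⟨fun k => (h2 ω hω).1 ?_, fun k => (h2 ω hω).2 ?_⟩⟩
    · exact he r hr 0 ⟨le_rfl, h1⟩ ω hω (Or.inl k) ▸ k
    · exact he r hr _ ⟨h1, le_rfl⟩ ω hω (Or.inl k) ▸ k

theorem sbnd_nil {y0 : Y} (hy : y0 ∉ U) (a b : ℝ) : SBnd U i0 0 ∅ a b fun _ => y0 :=
  ⟨⟨fun _ _ k => (hy k).elim, fun _ k => k.elim, fun _ k => k.elim, fun _ _ k => k.2.elim,
    fun _ _ _ _ _ k => (hy k).elim, fun _ _ k => (hy k).elim, fun _ _ k => (hy k).elim⟩,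
    fun _ _ => ⟨le_rfl, fun _ _ => ⟨hy, hy⟩⟩⟩

theorem Bnd.slice {l : ℝ → ℝ} {D : Set Y} {a b c : ℝ} {Γ : ℝ → ℝ × E ι → Y}
    (h : Bnd U i0 l D a b c Γ) {r : ℝ} (hr : r ∈ Icc (0 : ℝ) 1) :
    SBnd U i0 (l r) D a b (Γ r) :=
  Bnd.of_sol (h.sol.comp (p := pbB i0 (fun _ => 0) (fun _ => l r) D a b 0 fun z => Γ r z.2)
    (fun _ => r) Prod.snd (fun _ k => ⟨hr, k.2⟩) (fun _ hz _ k => ⟨hz.1, k.2⟩)
    (fun _ _ k _ => ⟨hr, k.2⟩) (fun _ _ k _ _ x hx _ => ⟨x, ⟨k.1, hx.2⟩, rfl⟩)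
    (fun _ _ _ _ _ _ k => k)
    (fun _ _ _ => ⟨(continuous_const.prodMk continuous_snd).continuousWithinAt,
      Eventually.of_forall fun _ => by simp [pbB]⟩) (fun _ k => k.elim)
    fun _ _ _ => ⟨Dm.const _, Dm.pr2⟩) fun _ _ => h.2 r hr

theorem Bnd.cat {l1 l2 : ℝ → ℝ} {D1 D2 : Set Y} {a b c p : ℝ} {Γ1 Γ2 : ℝ → ℝ × E ι → Y}
    (h1 : Bnd U i0 l1 D1 a b c Γ1) (h2 : Bnd U i0 l2 D2 a b c Γ2) (ha : 0 ≤ a) (hp : 0 ≤ p)
    (hD : ∀ y ∈ D1, y ∈ D2 → y ∉ U)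
    (hl : ∀ r ∈ Icc (0 : ℝ) 1, ∀ r' ∈ Icc (0 : ℝ) 1, |l1 r' - l1 r| ≤ p * |r' - r|) :
    Bnd U i0 (fun r => l1 r + l2 r) (D1 ∪ D2) a b (c + a * p)
      fun r => cat (l1 r) (Γ1 r) (Γ2 r) := by
  classical
  have s2 : Sol U (pbB i0 l1 (fun r => l1 r + l2 r) D2 a b (c + a * p) fun z => Γ1 z.1 z.2) univ
      fun z => Γ2 z.1 (z.2.1 - l1 z.1, z.2.2) := by
    refine h2.sol.comp (p := pbB i0 l1 (fun r => l1 r + l2 r) D2 a b (c + a * p)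
      fun z => Γ1 z.1 z.2) id (fun z => (z.2.1 - l1 z.1, z.2.2))
      (fun z k => ⟨k.1, ⟨sub_nonneg.2 k.2.1.1, sub_le_iff_le_add'.2 k.2.1.2⟩, k.2.2⟩)
      (fun _ _ _ k => k) (fun _ _ k _ => k) (fun t _ _ _ _ x hx _ => ?_)
      (fun _ x x' _ _ _ k => ?_) (fun z hz _ => ⟨?_, ?_⟩) (fun _ k => k.elim)
      fun z _ _ => ⟨Dm.refl, ((Dm.pr2.fst.add (eb_dm hl fun _ k => k.1).toL).prod
        Dm.pr2.snd).congrL fun w _ => Prod.ext (sub_add_cancel _ _).symm rfl⟩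
    · exact ⟨(x.1 + l1 t, x.2), ⟨hx.1, ⟨le_add_of_nonneg_left hx.2.1.1,
        (add_le_add_left hx.2.1.2 _).trans_eq (add_comm _ _)⟩, hx.2.2⟩, by simp⟩
    · obtain ⟨k1, k2⟩ := Prod.mk.inj k
      exact Prod.ext (sub_left_injective k1) k2
    · exact continuous_fst.continuousWithinAt.prodMk
        (((continuous_fst.comp continuous_snd).continuousWithinAt.sub
          (eb_lip hl hz.1 fun _ k => k.1)).prodMk
          (continuous_snd.comp continuous_snd).continuousWithinAt)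
    · filter_upwards [self_mem_nhdsWithin] with z' hz'
      have k1 := hl _ hz.1 _ hz'.1
      have k2 : |z'.2.1 - l1 z'.1 - (z.2.1 - l1 z.1)| ≤ |z'.2.1 - z.2.1| + |l1 z'.1 - l1 z.1| := by
        rw [sub_sub_sub_comm]
        exact abs_sub _ _
      have k3 := mul_le_mul_of_nonneg_left (k2.trans (add_le_add_right k1 _)) ha
      simp only [pbB, id]
      linarith only [k3]
  refine Bnd.of_sol ((h1.sol.glue' (p := pbB i0 (fun _ => 0) (fun r => l1 r + l2 r) (D1 ∪ D2) a b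
    (c + a * p) fun z => NB.cat (l1 z.1) (Γ1 z.1) (Γ2 z.1) z.2) s2 ?_ (fun z hz k => ?_)
    (fun z hz k => ?_) (fun _ _ _ => and_or_left) (fun z k1 k2 y hy _ => ?_)
    (fun _ y k1 k2 k3 _ => (hD y k1.2 k2.2 k3).elim) (fun _ k => k.elim) (fun _ k => k.elim)
    (fun _ _ => Eventually.of_forall fun z' => ?_)
    fun _ _ => Eventually.of_forall fun _ => le_rfl).congr_eq (empty_subset _) fun z hz => ?_)
    fun r hr => ?_
  · ext z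
    constructor
    · rintro ⟨k1, k2, k3⟩
      exact (le_total z.2.1 (l1 z.1)).imp (fun k => ⟨k1, ⟨k2.1, k⟩, k3⟩)
        fun k => ⟨k1, ⟨k, k2.2⟩, k3⟩
    · rintro (⟨k1, k2, k3⟩ | ⟨k1, k2, k3⟩)
      · exact ⟨k1, ⟨k2.1, k2.2.trans (le_add_of_nonneg_right (h2.2 _ k1).1)⟩, k3⟩
      · exact ⟨k1, ⟨(h1.2 _ k1).1.trans k2.1, k2.2⟩, k3⟩
  · exact ⟨hz.1, ⟨hz.2.1.1, ContinuousWithinAt.closure_le k
      (continuous_fst.comp continuous_snd).continuousWithinAt (eb_lip hl hz.1 fun _ k => k.1)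
      fun _ k => k.2.1.2⟩, hz.2.2⟩
  · exact ⟨hz.1, ⟨ContinuousWithinAt.closure_le k (eb_lip hl hz.1 fun _ k => k.1)
      (continuous_fst.comp continuous_snd).continuousWithinAt fun _ k => k.2.1.1, hz.2.1.2⟩,
      hz.2.2⟩
  · have e : z.2.1 = l1 z.1 := le_antisymm k1.2.1.2 k2.2.1.1
    have a1 := ((h1.2 _ k1.1).2 _ k1.2.2).2
    have a2 := ((h2.2 _ k1.1).2 _ k1.2.2).1
    rw [← e] at a1
    refine ⟨fun k => (a1 (k ▸ hy)).elim, fun k => (a2 ?_).elim⟩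
    simp only [e, sub_self] at k
    exact k ▸ hy
  · exact add_le_add_right (mul_le_mul_of_nonneg_right
      (le_add_of_nonneg_right (mul_nonneg ha hp)) (abs_nonneg _)) _
  · exact if_congr ⟨fun k => ⟨hz.1, ⟨hz.2.1.1, k⟩, hz.2.2⟩, fun k => k.2.1.2⟩ rfl rfl
  · obtain ⟨a1, a2⟩ := h1.2 r hr
    obtain ⟨b1, b2⟩ := h2.2 r hr
    refine ⟨add_nonneg a1 b1, fun ω hω => ⟨?_, ?_⟩⟩
    · rw [NB.cat, if_pos a1]
      exact (a2 ω hω).1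
    · rw [NB.cat]
      split_ifs with k
      · rw [show l1 r + l2 r = l1 r by linarith only [b1, k]]
        exact (a2 ω hω).2
      · simpa using (b2 ω hω).2

theorem SBnd.cat {l1 l2 : ℝ} {D1 D2 : Set Y} {a b : ℝ} {Γ1 Γ2 : ℝ × E ι → Y}
    (h1 : SBnd U i0 l1 D1 a b Γ1) (h2 : SBnd U i0 l2 D2 a b Γ2) (ha : 0 ≤ a)
    (hD : ∀ y ∈ D1, y ∈ D2 → y ∉ U) : SBnd U i0 (l1 + l2) (D1 ∪ D2) a b (cat l1 Γ1 Γ2) :=
  (Bnd.cat h1 h2 ha le_rfl hD fun _ _ _ _ => by simp).mono (fun _ _ => Iff.rfl) le_rfl le_rfl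
    (by simp)

theorem sph_lo {R : Set (ℝ × E ι)} {P : ℝ × E ι → Prop} {z : ℝ × E ι} {l : ℝ → ℝ}
    {υ : ℝ → ℝ → ℝ} {p v2 v3 : ℝ} (hR : ∀ w ∈ R, w.1 ∈ Icc (0 : ℝ) 1 ∧ ‖w.2‖ = 1) (hz : z ∈ R)
    (h0 : ∀ r ∈ Icc (0 : ℝ) 1, 0 < l r)
    (hl : ∀ r ∈ Icc (0 : ℝ) 1, ∀ r' ∈ Icc (0 : ℝ) 1, |l r' - l r| ≤ p * |r' - r|) (hv2 : 0 ≤ v2)
    (h2 : ∀ r ∈ Icc (0 : ℝ) 1, ∀ r' ∈ Icc (0 : ℝ) 1, ∀ m ∈ Icc (0 : ℝ) 1,
      |υ r' m - υ r m| ≤ v2 * |r' - r|)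
    (h3 : ∀ r ∈ Icc (0 : ℝ) 1, ∀ m ∈ Icc (0 : ℝ) 1, ∀ m' ∈ Icc (0 : ℝ) 1,
      |m' - m| ≤ v3 * |υ r m' - υ r m|)
    (hc : ContinuousWithinAt (fun w : ℝ × E ι => l w.1 * υ w.1 ((w.2 i0 + 1) / 2)) R z) :
    Dm R P (fun w => w.2) (fun w : ℝ × E ι =>
      (w.1, (l w.1 * υ w.1 ((w.2 i0 + 1) / 2), Function.update w.2 i0 0))) z := by
  have k1 : Dm R P (fun w => υ w.1 ((w.2 i0 + 1) / 2)) (fun w : ℝ × E ι =>
      (w.1, (l w.1 * υ w.1 ((w.2 i0 + 1) / 2), Function.update w.2 i0 0))) z :=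
    (Dm.pr2.fst.div (eb_dm hl fun w k => (hR w k).1).toL hc
      (eb_lip hl (hR z hz).1 fun w k => (hR w k).1) (h0 _ (hR z hz).1).ne').congrL
      fun w k => (mul_div_cancel_left₀ _ (h0 _ (hR w k).1).ne').symm
  have k2 : Dm R P (fun w => (w.2 i0 + 1) / 2)
      (fun w : ℝ × E ι => (w.1, υ w.1 ((w.2 i0 + 1) / 2))) z := by
    refine Dm.of_le (K := |v3| * (1 + v2)) fun w a v b => ?_
    have a1 := h3 _ (hR w a).1 _ (eb_m (i0 := i0) (hR w a).2) _ (eb_m (i0 := i0) (hR v b).2)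
    have a2 := h2 _ (hR w a).1 _ (hR v b).1 _ (eb_m (i0 := i0) (hR v b).2)
    set d := dist ((v.1, υ v.1 ((v.2 i0 + 1) / 2)) : ℝ × ℝ) (w.1, υ w.1 ((w.2 i0 + 1) / 2))
      with hd
    have a3 : |v.1 - w.1| ≤ d := le_max_left _ _
    have a4 : |υ v.1 ((v.2 i0 + 1) / 2) - υ w.1 ((w.2 i0 + 1) / 2)| ≤ d := le_max_right _ _
    have a5 : |υ w.1 ((v.2 i0 + 1) / 2) - υ w.1 ((w.2 i0 + 1) / 2)| ≤ (1 + v2) * d := by
      have b1 := abs_sub_le (υ w.1 ((v.2 i0 + 1) / 2)) (υ v.1 ((v.2 i0 + 1) / 2))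
        (υ w.1 ((w.2 i0 + 1) / 2))
      rw [abs_sub_comm] at a2
      have b2 := mul_le_mul_of_nonneg_left a3 hv2
      linarith only [b1, b2, a2, a4]
    rw [Real.dist_eq, mul_assoc]
    exact a1.trans ((mul_le_mul_of_nonneg_right (le_abs_self v3) (abs_nonneg _)).trans
      (mul_le_mul_of_nonneg_left a5 (abs_nonneg _)))
  have k3 := ((k2.trans (Dm.pr1.prod k1)).cmul 2).sub (Dm.const 1)
  refine (Dm.pr2.snd.update k3 i0).congrL fun w _ => ?_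
  rw [Function.update_idem, show 2 * ((w.2 i0 + 1) / 2) - 1 = w.2 i0 by ring,
    Function.update_eq_self]

/-- A movie of bands gives a movie of data on the model sphere. -/
theorem Bnd.sph {l : ℝ → ℝ} {D : Set Y} {a b c τ p v1 v2 : ℝ} {Γ : ℝ → ℝ × E ι → Y}
    (h : Bnd U i0 l D a b c Γ) (ha : 0 ≤ a) (hb : 0 ≤ b) (hp : 0 ≤ p) (hv1 : 0 ≤ v1)
    (hv2 : 0 ≤ v2) {y0 : Y} (hy : y0 ∉ U) (hτ : ∀ r ∈ Icc (0 : ℝ) 1, 0 < l r ∧ l r ≤ τ)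
    (hl : ∀ r ∈ Icc (0 : ℝ) 1, ∀ r' ∈ Icc (0 : ℝ) 1, |l r' - l r| ≤ p * |r' - r|)
    {υ : ℝ → ℝ → ℝ} (hυ : ∀ r ∈ Icc (0 : ℝ) 1, BijOn (υ r) (Icc 0 1) (Icc 0 1) ∧ υ r 0 = 0 ∧
      υ r 1 = 1)
    (hυl : ∀ r ∈ Icc (0 : ℝ) 1, ∀ r' ∈ Icc (0 : ℝ) 1, ∀ m ∈ Icc (0 : ℝ) 1, ∀ m' ∈ Icc (0 : ℝ) 1,
      |υ r' m' - υ r m| ≤ v1 * |m' - m| + v2 * |r' - r|) (β0 : ℝ × E ι → Y)
    (hυq : ∃ v3 : ℝ, ∀ r ∈ Icc (0 : ℝ) 1, ∀ m ∈ Icc (0 : ℝ) 1, ∀ m' ∈ Icc (0 : ℝ) 1,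
      |m' - m| ≤ v3 * |υ r m' - υ r m|) :
    Sol U (pbP (Icc (0 : ℝ) 1) (sphere 0 1) ∅ β0 D
        (gs (a * τ * v1 / 2 + b) (c + a * (τ * v2 + p))) 1) univ
      fun z => sphV i0 y0 (l z.1) (υ z.1) (Γ z.1) z.2 := by
  have _ := hp
  have hs : ∀ {x : E ι}, x ∈ sphere (0 : E ι) 1 → ‖x‖ = 1 := fun k => mem_sphere_zero_iff_norm.1 k
  have key : ∀ z : ℝ × E ι, z.1 ∈ Icc (0 : ℝ) 1 → ‖z.2‖ = 1 → ∀ z' : ℝ × E ι,
      z'.1 ∈ Icc (0 : ℝ) 1 → ‖z'.2‖ = 1 →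
      |l z'.1 * υ z'.1 ((z'.2 i0 + 1) / 2) - l z.1 * υ z.1 ((z.2 i0 + 1) / 2)| ≤
        τ * v1 / 2 * dist z'.2 z.2 + (τ * v2 + p) * |z'.1 - z.1| := by
    intro z k1 k2 z' k3 k4
    have a1 := hl _ k1 _ k3
    have a2 := hυl _ k1 _ k3 _ (eb_m (i0 := i0) k2) _ (eb_m (i0 := i0) k4)
    have a3 := (hυ _ k3).1.mapsTo (eb_m (i0 := i0) k4)
    have a4 : |(z'.2 i0 + 1) / 2 - (z.2 i0 + 1) / 2| ≤ dist z'.2 z.2 / 2 := by
      rw [← sub_div, add_sub_add_right_eq_sub, abs_div, abs_two]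
      exact div_le_div_of_nonneg_right (dist_le_pi_dist z'.2 z.2 i0) zero_le_two
    obtain ⟨a5, a6⟩ := hτ _ k1
    have a7 := mul_le_mul_of_nonneg_left a4 hv1
    calc _ = |(l z'.1 - l z.1) * υ z'.1 ((z'.2 i0 + 1) / 2) +
          l z.1 * (υ z'.1 ((z'.2 i0 + 1) / 2) - υ z.1 ((z.2 i0 + 1) / 2))| := by congr 1; ring
      _ ≤ p * |z'.1 - z.1| * 1 + τ * (v1 * (dist z'.2 z.2 / 2) + v2 * |z'.1 - z.1|) := by
          refine (abs_add_le _ _).trans (add_le_add ?_ ?_)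
          · rw [abs_mul, abs_of_nonneg a3.1]
            exact mul_le_mul a1 a3.2 a3.1 ((abs_nonneg _).trans a1)
          · rw [abs_mul, abs_of_pos a5]
            exact mul_le_mul a6 (by linarith only [a2, a7]) (abs_nonneg _) (by linarith only [a5, a6])
      _ = _ := by ring
  have hm : ∀ z : ℝ × E ι, z.1 ∈ Icc (0 : ℝ) 1 → ‖z.2‖ = 1 →
      l z.1 * υ z.1 ((z.2 i0 + 1) / 2) ∈ Icc 0 (l z.1) := fun z k1 k2 =>
    ⟨mul_nonneg (hτ _ k1).1.le ((hυ _ k1).1.mapsTo (eb_m k2)).1,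
      mul_le_of_le_one_right (hτ _ k1).1.le ((hυ _ k1).1.mapsTo (eb_m k2)).2⟩
  have s1 := h.sol.comp (p := pbP (Icc (0 : ℝ) 1)
      {x : E ι | ‖x‖ = 1 ∧ ¬ ‖Function.update x i0 0‖ < 1} ∅ β0 D
      (gs (a * τ * v1 / 2 + b) (c + a * (τ * v2 + p))) 1) id
    (fun z : ℝ × E ι => (l z.1 * υ z.1 ((z.2 i0 + 1) / 2), Function.update z.2 i0 0))
    (fun z k => ⟨k.1, hm z k.1 k.2.1, eb_cs k.2.1 k.2.2⟩) (fun _ _ _ k => k) (fun _ _ k _ => k)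
    (fun t _ _ _ _ x hx _ => ?_) (fun t x x' k1 k2 _ k => ?_) (fun z hz _ => ⟨?_, ?_⟩)
    (fun _ k => k.2.elim) fun z hz _ => ⟨Dm.refl, ?_⟩
  · refine s1.eb_ext (fun z k => ⟨k.1, mem_sphere_zero_iff_norm.2 k.2.1⟩) (by simp [pbP]) rfl rfl
      (fun z k => if_neg k.2.2) (fun z hz k => ⟨hz.1, hs hz.2, fun k1 => hy ?_⟩) fun z hz k => ?_
    · simpa only [sphV, if_pos k1] using k
    · obtain ⟨a1, a2⟩ := (h.2 _ hz.1).2 _ (eb_cs hz.2.1 hz.2.2)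
      obtain ⟨-, a3, a4⟩ := hυ _ hz.1
      have a5 := eb_m (i0 := i0) hz.2.1
      have a6 : (z.2 i0 + 1) / 2 ≠ 0 := fun e => a1 (by simpa only [id, e, a3, mul_zero] using k)
      have a7 : (z.2 i0 + 1) / 2 ≠ 1 := fun e => a2 (by simpa only [id, e, a4, mul_one] using k)
      have a8 : |z.2 i0| < 1 := by
        have b1 := lt_of_le_of_ne a5.1 a6.symm
        have b2 := lt_of_le_of_ne a5.2 a7
        rw [abs_lt]
        constructor <;> linarith only [b1, b2]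
      have a9 : ∀ᶠ z' : ℝ × E ι in 𝓝 z, |z'.2 i0| < 1 :=
        (show Continuous fun z' : ℝ × E ι => |z'.2 i0| by fun_prop).continuousAt.eventually_lt
          continuousAt_const a8
      filter_upwards [self_mem_nhdsWithin, nhdsWithin_le_nhds a9] with z' b1 b2
      exact ⟨b1.1, hs b1.2, eb_notcap (hs b1.2) b2⟩
  · have a0 := (hτ t hx.1).1
    obtain ⟨m, a1, a2⟩ := (hυ t hx.1).1.surjOn (show x.1 / l t ∈ Icc (0 : ℝ) 1 from
      ⟨div_nonneg hx.2.1.1 a0.le, (div_le_one a0).2 hx.2.1.2⟩)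
    refine ⟨Function.update x.2 i0 (2 * m - 1), ⟨hx.1, eb_norm hx.2.2 ?_, ?_⟩, ?_⟩
    · rw [abs_le]
      constructor <;> linarith only [a1.1, a1.2]
    · rw [eb_upd hx.2.2, hx.2.2.2]
      exact lt_irrefl _
    · simp only [eb_upd hx.2.2, Function.update_self]
      rw [show (2 * m - 1 + 1) / 2 = m by ring, a2, mul_div_cancel₀ _ a0.ne']
  · obtain ⟨a1, a2⟩ := Prod.mk.inj k
    have a3 := (hυ t k1.1).1.injOn (eb_m k2.2.1) (eb_m k1.2.1)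
      (mul_left_cancel₀ (hτ t k1.1).1.ne' a1)
    funext i
    by_cases hi : i = i0
    · subst hi
      simp only at a3
      linarith only [a3]
    · simpa [hi] using congrFun a2 i
  · refine continuous_fst.continuousWithinAt.prodMk (ContinuousWithinAt.prodMk
      (eb_cw (g := fun z' : ℝ × E ι => τ * v1 / 2 * dist z'.2 z.2 + (τ * v2 + p) * |z'.1 - z.1|)
        (by fun_prop) (by simp) fun z' k => key z hz.1 hz.2.1 z' k.1 k.2.1)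
      (Continuous.continuousWithinAt (by fun_prop)))
  · filter_upwards [self_mem_nhdsWithin] with z' k
    have a1 := mul_le_mul_of_nonneg_left (key z hz.1 hz.2.1 z' k.1 k.2.1) ha
    have a2 := mul_le_mul_of_nonneg_left (eb_dist (i0 := i0) z.2 z'.2) hb
    simp only [pbB, pbP, gs, id, Real.dist_eq]
    linarith only [a1, a2]
  · obtain ⟨v3, h3⟩ := hυq
    refine sph_lo (v3 := v3) (fun w k => ⟨k.1, k.2.1⟩) hz (fun r hr => (hτ r hr).1) hl hv2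
      (fun r hr r' hr' m hm => by simpa using hυl r hr r' hr' m hm m hm) h3 ?_
    exact eb_cw (g := fun z' : ℝ × E ι => τ * v1 / 2 * dist z'.2 z.2 + (τ * v2 + p) * |z'.1 - z.1|)
      (by fun_prop) (by simp) fun z' k => key z hz.1 hz.2.1 z' k.1 k.2.1

theorem sphV_congr {y0 : Y} {l : ℝ} (hl : 0 ≤ l) {υ : ℝ → ℝ} (hυ : MapsTo υ (Icc 0 1) (Icc 0 1))
    {Γ Γ' : ℝ × E ι → Y} (he : ∀ n ∈ Icc 0 l, ∀ ω ∈ Cs i0, Ap U (Γ (n, ω)) (Γ' (n, ω)))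
    {x : E ι} (hx : ‖x‖ = 1) : Ap U (sphV i0 y0 l υ Γ x) (sphV i0 y0 l υ Γ' x) := by
  unfold sphV
  split_ifs with k
  · exact Ap.rfl
  · exact he _ ⟨mul_nonneg hl (hυ (eb_m hx)).1, mul_le_of_le_one_right hl (hυ (eb_m hx)).2⟩ _
      (eb_cs hx k)

theorem cat_assoc {l1 l2 : ℝ} (h2 : 0 ≤ l2) (Γ1 Γ2 Γ3 : ℝ × E ι → Y) :
    cat (l1 + l2) (cat l1 Γ1 Γ2) Γ3 = cat l1 Γ1 (cat l2 Γ2 Γ3) := by
  funext z
  simp only [cat, sub_le_iff_le_add', sub_sub]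
  split_ifs with k1 k2 k3
  · rfl
  · rfl
  · exact absurd (k3.trans (le_add_of_nonneg_right h2)) k1
  · rfl

/-- Data on the sphere composed with a movie of self-maps of the sphere. -/
theorem sol_smov {D : Set Y} {a1 a2 K : ℝ} (p1 : 0 ≤ a1) {β β0 β1 M0 : ℝ × E ι → Y}
    (hβ : Sol U (pbP (Icc (0 : ℝ) 1) (sphere 0 1) ∅ β0 D (gs a1 a2) 1) univ β) {p q : E ι}
    (hp : ‖p‖ = 1) (hq : ‖q‖ = 1) (np : ∀ r ∈ Icc (0 : ℝ) 1, β (r, p) ∉ U ∧ β (r, q) ∉ U)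
    {M M1 : ℝ × E ι → E ι}
    (hM : Sol ({p, q}ᶜ : Set (E ι))
      (pbP (Icc (0 : ℝ) 1) (sphere 0 1) ∅ M1 (sphere 0 1) (gs K K) 1) univ M) :
    Sol U (pbP (Icc (0 : ℝ) 1) (sphere 0 1) ∅ β1 D (gs (a1 * K) (a1 * K + a2)) 1) univ
      fun z => β (z.1, M z) := by
  have hv : ∀ r ∈ Icc (0 : ℝ) 1, ∀ x, β (r, x) ∈ U → x ∈ ({p, q}ᶜ : Set (E ι)) := by
    rintro r hr x k (rfl | rfl)
    · exact (np r hr).1 k
    · exact (np r hr).2 k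
  refine hβ.comp (p := pbP (Icc (0 : ℝ) 1) (sphere 0 1) ∅ β1 D (gs (a1 * K) (a1 * K + a2)) 1) id M
    (fun z k => ⟨k.1, ?_⟩) (fun _ _ _ k => k) (fun _ _ k _ => k)
    (fun t y _ k _ x hx e => hM.ex t x hx (hv t hx.1 x (e ▸ k)) trivial)
    (fun t x x' k1 k2 k3 k4 => hM.uq t x x' k1 k2 (hv t k1.1 _ k3) trivial k4)
    (fun z hz k => ?_) (fun _ k => k.2.elim) fun z hz k => ⟨Dm.refl,
      (hM.lo z hz (hv _ hz.1 _ k) trivial).imp fun w a b => ⟨hv _ a.1 _ b, trivial⟩⟩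
  · by_cases e : M z ∈ ({p, q}ᶜ : Set (E ι))
    · exact (hM.maps z k e).2
    · rcases not_not.1 e with e | e
      · exact mem_sphere_zero_iff_norm.2 (e ▸ hp)
      · exact mem_sphere_zero_iff_norm.2 (e ▸ hq)
  · obtain ⟨k1, k2⟩ := hM.lip z hz (hv _ hz.1 _ k) trivial
    refine ⟨continuous_fst.continuousWithinAt.prodMk k1, k2.mono fun z' k3 => ?_⟩
    have k4 := mul_le_mul_of_nonneg_left k3 p1
    simp only [pbP, gs, id] at k4 ⊢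
    linarith only [k4]

end

theorem srcL_append (l1 l2 : List (ℕ × Bx ι)) : srcL (l1 ++ l2) = srcL l1 ∪ srcL l2 := by
  ext y
  simp only [srcL, List.mem_append, or_and_right, exists_or, mem_union, mem_ofPred_eq]
theorem bdL_append (l1 l2 : List (ℕ × Bx ι)) : bdL (l1 ++ l2) = bdL l1 ∪ bdL l2 := by
  ext y
  simp only [bdL, List.mem_append, or_and_right, exists_or, mem_union, mem_ofPred_eq]
theorem srcL_single (a : ℕ) (Q : Bx ι) : srcL [(a, Q)] = (Prod.mk a ∘ id) '' Q.set := by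
  ext ⟨y1, y2⟩
  simp [srcL, eq_comm, and_comm]
theorem bdL_single (a : ℕ) (Q : Bx ι) : bdL [(a, Q)] = (Prod.mk a ∘ id) '' Q.bd := by
  ext ⟨y1, y2⟩
  simp [bdL, eq_comm, and_comm]
theorem bdL_subset (l : List (ℕ × Bx ι)) : bdL l ⊆ srcL l :=
  fun _ ⟨a, h1, h2, h3⟩ => ⟨a, h1, h2, h3.1⟩
theorem srcL_disj {l1 l2 : List (ℕ × Bx ι)} (h : ((l1 ++ l2).map Prod.fst).Nodup) :
    ∀ y ∈ srcL l1, y ∉ srcL l2 := by
  rintro y ⟨a, h1, h2, -⟩ ⟨a', h3, h4, -⟩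
  rw [List.map_append] at h
  exact (List.nodup_append.1 h).2.2 _ (List.mem_map_of_mem h1) _ (List.mem_map_of_mem h3)
    (h2.symm.trans h4)

namespace EV

variable [Nonempty ι] [Nontrivial ι] {W : EV ι}

/-- The labelled boundary data. -/
theorem OK.bdl (h : W.OK) (a : ℕ) :
    BD (UL W.U0) (Prod.mk a ∘ id) (fun _ => True) W.B W.u W.K W.T (fun _ => W.tm) (fun _ => W.tm)
      fun k z => (a, W.P k z) :=
  h.bd.map h.hU (φ := Prod.mk a) (Isometry.of_dist_eq fun _ _ => by simp [Prod.dist_eq])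
    fun _ => Iff.rfl

theorem eb_inj (a : ℕ) : Function.Injective (Prod.mk a ∘ id : E ι → YL ι) :=
  fun _ _ k => (Prod.mk.inj k).2

theorem OK.neck (h : W.OK) {k : ℤ} {Q : Bx ι} (hQ : LB k Q) {t : ℝ}
    (ht : ∀ G, Cube k G → G.set ⊆ Q.set → W.tm G ≤ t) {x : E ι} (hx : x ∈ Q.set)
    (hn : W.Neck k x) : W.P k (t, x) ∉ W.U0 :=
  h.bd.vertex trivial hQ ht hx hn.1 hn.2

theorem Neck.down {k j : ℤ} {x : E ι} (h : W.Neck k x) (hj : j ≤ k) : W.Neck j x :=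
  ⟨fun i => (h.1 i).of_le hj, h.2⟩

omit [Nontrivial ι] in
theorem eb_sd {k : ℤ} {Q : Bx ι} (hQ : BX k Q) (i : ι) : Q.sd i ≤ 2 * Q.sc :=
  (hQ.sd i).2.trans (mul_le_mul_of_nonneg_left hQ.sc.1 zero_le_two)

/-- The standard data along a path of times. -/
theorem OK.std (h : W.OK) (a : ℕ) {k : ℤ} {Q : Bx ι} (hQ : BX k Q) {t0 t1 : ℝ}
    (h0 : W.tt Q ≤ t0) (h1 : W.tt Q ≤ t1) (β0 : ℝ × E ι → YL ι) :
    Sol (UL W.U0) (pbP (Icc (0 : ℝ) 1) (sphere 0 1) ∅ β0 (bdL [(a, Q)])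
        (gs (W.K * max t0 t1 * Q.sc) (W.K * max t0 t1 * Q.sc)) 1) univ
      fun z => (a, W.P (k - 1) ((1 - z.1) * t0 + z.1 * t1, Q.af z.2)) := by
  have a0 := (h.tt_bd hQ.lb.pos).1
  have a1 := le_max_left t0 t1
  have a2 := le_max_right t0 t1
  refine ((h.bdl a).path1 (eb_inj a) trivial (hQ.lb.down (show k - 1 ≤ k by omega)) (eb_sd hQ)
    (h.tm_le hQ le_rfl) (t1 := max t0 t1) (π := fun r => (1 - r) * t0 + r * t1) (p2 := max t0 t1)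
    (fun r hr => ⟨?_, ?_⟩) (fun r _ r' _ => ?_) β0).mono rfl Subset.rfl (fun _ _ => Ap.rfl)
    (fun _ _ _ => by simp only [pbP, bdL_single]) (fun z _ => Eventually.of_forall fun z' => ?_)
    Subset.rfl
  · nlinarith only [hr.1, hr.2, h0, h1]
  · nlinarith only [hr.1, hr.2, a1, a2]
  · rw [show (1 - r') * t0 + r' * t1 - ((1 - r) * t0 + r * t1) = (t1 - t0) * (r' - r) by ring,
      abs_mul]
    refine mul_le_mul_of_nonneg_right (abs_le.2 ⟨?_, ?_⟩) (abs_nonneg _) <;> linarith only [h1, a0, a1, h0, a2]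
  · have a3 : (2 : ℝ) ^ (k - 1) ≤ Q.sc :=
      (zpow_le_zpow_right₀ one_le_two (by omega)).trans hQ.sc.1
    have a4 : 0 ≤ W.K * max t0 t1 := mul_nonneg (zero_le_one.trans h.bd.pK) (by linarith only [h0, a0, a1])
    have a5 := mul_le_mul_of_nonneg_right (mul_le_mul_of_nonneg_left a3 a4)
      (dist_nonneg (x := z'.1) (y := z.1))
    simp only [pbP, gs]
    linarith only [a5]

/-- The band of one box. -/
theorem OK.bnd_item (h : W.OK) (a : ℕ) {k : ℤ} {Q : Bx ι} (hQ : LB k Q) {S : ℝ}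
    (hS : ∀ i, Q.sd i ≤ S) {p q : E ι} (np : W.Neck k (Q.af p)) (nq : W.Neck k (Q.af q))
    {K1 : ℝ} (hK : 0 ≤ K1) {M : ℝ × (ℝ × E ι) → E ι} (hM : DispM W.i0 (Icc (0 : ℝ) 1) K1 p q M)
    {t l : ℝ → ℝ} {t0 pt pl a' b c : ℝ} (ht0 : ∀ G, Cube k G → G.set ⊆ Q.set → W.tm G ≤ t0)
    (ht : ∀ r ∈ Icc (0 : ℝ) 1, t0 ≤ t r ∧ 0 < l r ∧ W.K * t r * S * K1 ≤ a' * l r ∧
      W.K * t r * S * K1 ≤ b) (hpt : 0 ≤ pt) (hpl : 0 ≤ pl)
    (hl : ∀ r ∈ Icc (0 : ℝ) 1, ∀ r' ∈ Icc (0 : ℝ) 1,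
      |t r' - t r| ≤ pt * |r' - r| ∧ |l r' - l r| ≤ pl * |r' - r|)
    (hc : W.K * 2 ^ k * pt + b + a' * pl ≤ c) :
    Bnd (UL W.U0) W.i0 l (bdL [(a, Q)]) a' b c
      fun r => W.bb a k (t r) Q (fun z => M (r, z)) (l r) := by
  have hb' := hQ.pos.bijOn_af_bd
  have hS0 : 0 ≤ S := (sub_pos.2 (hQ.pos (Classical.arbitrary ι))).le.trans (hS _)
  have hK0 : 0 ≤ W.K := zero_le_one.trans h.bd.pK
  have ht1 : 0 < t0 := by
    obtain ⟨G, hG, h1, -⟩ := hQ.exists_cube (x := Q.lo)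
      (Bx.mem_set.2 fun i => ⟨le_rfl, (hQ.pos i).le⟩)
    exact (h.bd.pos k G trivial hG).trans_le (ht0 G hG h1)
  have hv : ∀ r ∈ Icc (0 : ℝ) 1, ∀ x : E ι, ‖x‖ = 1 → W.P k (t r, Q.af x) ∈ W.U0 →
      x ∈ ({p, q}ᶜ : Set (E ι)) := by
    intro r hr x hx k1 k2
    refine h.neck hQ (fun G a1 a2 => (ht0 G a1 a2).trans (ht r hr).1) (hQ.pos.af_mem.2 hx.le) ?_ k1
    rcases k2 with rfl | rfl
    · exact np
    · exact nq
  have hd : ∀ r ∈ Icc (0 : ℝ) 1, ∀ n ∈ Icc 0 (l r), n / l r ∈ Icc (0 : ℝ) 1 := fun r hr n hn =>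
    ⟨div_nonneg hn.1 (ht r hr).2.1.le, (div_le_one (ht r hr).2.1).2 hn.2⟩
  have hn : ∀ z ∈ (pbB W.i0 (fun _ => 0) l (bdL [(a, Q)]) a' b c
      fun z => W.bb a k (t z.1) Q (fun w => M (z.1, w)) (l z.1) z.2).R,
      ‖M (z.1, z.2.1 / l z.1, z.2.2)‖ = 1 := fun z hz =>
    hM.2.1 _ hz.1 _ (hd _ hz.1 _ hz.2.1) _ hz.2.2
  have hΦ : ∀ z ∈ (pbB W.i0 (fun _ => 0) l (bdL [(a, Q)]) a' b c
      fun z => W.bb a k (t z.1) Q (fun w => M (z.1, w)) (l z.1) z.2).R,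
      ContinuousWithinAt (fun w : ℝ × ℝ × E ι => (w.1, w.2.1 / l w.1, w.2.2))
        (pbB W.i0 (fun _ => 0) l (bdL [(a, Q)]) a' b c
          fun z => W.bb a k (t z.1) Q (fun w => M (z.1, w)) (l z.1) z.2).R z := fun z hz =>
    continuous_fst.continuousWithinAt.prodMk
      (((continuous_fst.comp continuous_snd).continuousWithinAt.div
        (eb_lip (fun r hr r' hr' => (hl r hr r' hr').2) hz.1 fun _ k => k.1)
          (ht _ hz.1).2.1.ne').prodMk (continuous_snd.comp continuous_snd).continuousWithinAt)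
  refine Bnd.of_sol (((h.bdl a).solbd (eb_inj a) trivial hQ ht0).comp
    (p := pbB W.i0 (fun _ => 0) l (bdL [(a, Q)]) a' b c
      fun z => W.bb a k (t z.1) Q (fun w => M (z.1, w)) (l z.1) z.2) t
    (fun z => Q.af (M (z.1, z.2.1 / l z.1, z.2.2)))
    (fun z hz => ⟨(ht _ hz.1).1, (hQ.pos.af_mem_bd (x := M (z.1, z.2.1 / l z.1, z.2.2))).2 (hn z hz)⟩)
    (fun z hz _ k => ⟨hz.1, bdL_single a Q ▸ k.2⟩)
    (fun r y k _ => ⟨(ht _ k.1).1, bdL_single a Q ▸ k.2⟩) (fun r y k1 k2 _ x hx e => ?_)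
    (fun r x x' k1 k2 k3 k4 => ?_) (fun z hz k0 => ?_) (fun _ k => k.elim) fun z hz k0 =>
      ⟨eb_dm (fun r hr r' hr' => (hl r hr r' hr').1) fun _ k => k.1, ?_⟩) fun r hr => ?_
  · obtain ⟨x0, a1, rfl⟩ := hb'.surjOn hx.2
    obtain ⟨w, a2, a3⟩ := hM.1.ex r x0 ⟨k1.1, a1⟩
      (hv r k1.1 x0 (mem_sphere_zero_iff_norm.1 a1) (by subst e; exact k2)) trivial
    have a4 := (ht r k1.1).2.1
    refine ⟨(w.1 * l r, w.2), ⟨k1.1, ⟨mul_nonneg a2.2.1.1 a4.le,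
      mul_le_of_le_one_left a4.le a2.2.1.2⟩, a2.2.2⟩, ?_⟩
    simp only [mul_div_cancel_right₀ _ a4.ne']
    rw [a3]
  · have a1 := hb'.injOn (mem_sphere_zero_iff_norm.2 (hn _ k2))
      (mem_sphere_zero_iff_norm.2 (hn _ k1)) k4
    have a2 := hM.1.uq r (x.1 / l r, x.2) (x'.1 / l r, x'.2) ⟨k1.1, hd _ k1.1 _ k1.2.1, k1.2.2⟩
      ⟨k1.1, hd _ k1.1 _ k2.2.1, k2.2.2⟩
      (hv r k1.1 _ (hn _ k1) k3) trivial a1
    obtain ⟨a3, a4⟩ := Prod.mk.inj a2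
    exact Prod.ext ((div_left_inj' (ht r k1.1).2.1.ne').1 a3) a4
  · obtain ⟨a1, a2⟩ := hM.1.lip (z.1, z.2.1 / l z.1, z.2.2) ⟨hz.1, hd _ hz.1 _ hz.2.1, hz.2.2⟩
      (hv _ hz.1 _ (hn z hz) k0) trivial
    obtain ⟨b1, b2, b3, b4⟩ := ht _ hz.1
    have a3 : ContinuousWithinAt (fun w : ℝ × ℝ × E ι => (w.1, w.2.1 / l w.1, w.2.2))
        (pbB W.i0 (fun _ => 0) l (bdL [(a, Q)]) a' b c
          fun z => W.bb a k (t z.1) Q (fun w => M (z.1, w)) (l z.1) z.2).R z :=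
      continuous_fst.continuousWithinAt.prodMk
        (((continuous_fst.comp continuous_snd).continuousWithinAt.div
          (eb_lip (fun r hr r' hr' => (hl r hr r' hr').2) hz.1 fun _ k => k.1) b2.ne').prodMk
          (continuous_snd.comp continuous_snd).continuousWithinAt)
    have a4 := a3.tendsto_nhdsWithin (t := Icc (0 : ℝ) 1 ×ˢ (Icc (0 : ℝ) 1 ×ˢ Cs W.i0))
      fun w hw => ⟨hw.1, hd _ hw.1 _ hw.2.1, hw.2.2⟩
    have c2 : Continuous Q.af := continuous_pi fun i => by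
      unfold Bx.af
      fun_prop
    refine ⟨(eb_lip (fun r hr r' hr' => (hl r hr r' hr').1) hz.1 fun _ k => k.1).prodMk
      ((c2.tendsto _).comp (a1.tendsto.comp a4)), ?_⟩
    filter_upwards [a4.eventually a2, self_mem_nhdsWithin] with z' d1 d2
    obtain ⟨d3, d4⟩ := hl _ hz.1 _ d2.1
    have d5 := hd _ d2.1 _ d2.2.1
    have d6 : |z'.2.1 / l z'.1 - z.2.1 / l z.1| * l z.1 ≤ |z'.2.1 - z.2.1| + pl * |z'.1 - z.1| := by
      have e1 := (ht _ d2.1).2.1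
      rw [← abs_of_pos b2, ← abs_mul, abs_of_pos b2,
        show (z'.2.1 / l z'.1 - z.2.1 / l z.1) * l z.1 =
          z'.2.1 - z.2.1 - z'.2.1 / l z'.1 * (l z'.1 - l z.1) by field_simp; ring]
      refine (abs_sub _ _).trans (add_le_add_right ?_ _)
      rw [abs_mul, abs_of_nonneg d5.1]
      exact (mul_le_of_le_one_left (abs_nonneg _) d5.2).trans d4
    have d7 : dist ((z'.2.1 / l z'.1, z'.2.2) : ℝ × E ι) (z.2.1 / l z.1, z.2.2) ≤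
        |z'.2.1 / l z'.1 - z.2.1 / l z.1| + dist z'.2.2 z.2.2 :=
      max_le (le_add_of_nonneg_right dist_nonneg) (le_add_of_nonneg_left (abs_nonneg _))
    have e0 : 0 ≤ W.K * t z.1 := mul_nonneg hK0 (by linarith only [ht1, b1])
    have e1 : 0 ≤ W.K * t z.1 * S * K1 := by positivity
    have e2 : 0 ≤ a' := nonneg_of_mul_nonneg_left (e1.trans b3) b2
    have e3 := mul_le_mul_of_nonneg_left (Bx.af_lip hQ.pos hS0 hS (M (z'.1, z'.2.1 / l z'.1, z'.2.2))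
      (M (z.1, z.2.1 / l z.1, z.2.2))) e0
    simp only [pbP, gs, Real.dist_eq] at d1
    have e4 := mul_le_mul_of_nonneg_left (d1.trans (add_le_add_left
      (mul_le_mul_of_nonneg_left d7 hK) _)) (show 0 ≤ W.K * t z.1 * (S / 2) by positivity)
    have e5 := mul_le_mul_of_nonneg_right b3 (abs_nonneg (z'.2.1 / l z'.1 - z.2.1 / l z.1))
    have e6 := mul_le_mul_of_nonneg_left d6 e2
    have e7 := mul_le_mul_of_nonneg_right b4 (dist_nonneg (x := z'.2.2) (y := z.2.2))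
    have e8 := mul_le_mul_of_nonneg_right b4 (abs_nonneg (z'.1 - z.1))
    have e9 := mul_le_mul_of_nonneg_left d3 (show 0 ≤ W.K * 2 ^ k by positivity)
    have e10 := mul_le_mul_of_nonneg_right hc (abs_nonneg (z'.1 - z.1))
    have e11 := mul_nonneg e1 (abs_nonneg (z'.2.1 / l z'.1 - z.2.1 / l z.1))
    have e12 := mul_nonneg e1 (dist_nonneg (x := z'.2.2) (y := z.2.2))
    have e13 := mul_nonneg e1 (abs_nonneg (z'.1 - z.1))
    have _ := hpt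
    have _ := hpl
    simp only [pbF, pbP, pbB]
    linarith only [e3, e4, e5, e6, e7, e8, e9, e10, e11, e12, e13]
  · have a1 := (hM.1.lo (z.1, z.2.1 / l z.1, z.2.2) ⟨hz.1, hd _ hz.1 _ hz.2.1, hz.2.2⟩
      (hv _ hz.1 _ (hn z hz) k0) trivial).comp
      (Φ := fun w : ℝ × ℝ × E ι => (w.1, w.2.1 / l w.1, w.2.2))
      (P' := fun w => W.P k (t w.1, Q.af (M (w.1, w.2.1 / l w.1, w.2.2))) ∈ W.U0)
      (fun w hw => ⟨hw.1, hd _ hw.1 _ hw.2.1, hw.2.2⟩) (hΦ z hz)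
      (eventually_nhdsWithin_of_forall fun w hw k1 =>
        ⟨⟨hv _ hw.1 _ (hn w hw) k1, trivial⟩, hΦ w hw⟩)
    have a2 := a1.trans (Dm.pr1.prod (Dm.unaf hQ.pos (Dm.pr2 (G := fun w : ℝ × ℝ × E ι => w.1))))
    exact ((a2.fst.mul (eb_dm (fun r hr r' hr' => (hl r hr r' hr').2) fun _ k => k.1).toL
      (hΦ z hz).snd.fst
      (eb_lip (fun r hr r' hr' => (hl r hr r' hr').2) hz.1 fun _ k => k.1)).prod a2.snd).congrL
      fun w hw => Prod.ext (div_mul_cancel₀ _ (ht _ hw.1).2.1.ne').symm rfl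
  · have a1 := (ht r hr).2.1
    refine ⟨a1.le, fun ω hω => ⟨fun k => ?_, fun k => ?_⟩⟩
    · refine hv r hr _ (hM.2.1 r hr _ (hd r hr 0 ⟨le_rfl, a1.le⟩) ω hω) k (Or.inl ?_)
      rw [zero_div]
      exact (hM.2.2 r hr ω hω).1
    · refine hv r hr _ (hM.2.1 r hr _ (hd r hr _ ⟨a1.le, le_rfl⟩) ω hω) k (Or.inr ?_)
      rw [div_self a1.ne']
      exact (hM.2.2 r hr ω hω).2

theorem ts_nil (W : EV ι) : W.ts [] = 0 := rfl
theorem ts_cons (W : EV ι) (b : It ι) (l : List (It ι)) : W.ts (b :: l) = W.ta b.Q + W.ts l :=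
  rfl
theorem ts_append (W : EV ι) (l1 l2 : List (It ι)) : W.ts (l1 ++ l2) = W.ts l1 + W.ts l2 := by
  simp [ts]
theorem OK.ts_bd (h : W.OK) {F0 : Set (E ι)} {l : List (It ι)} (hl : W.LOk F0 l) :
    0 ≤ W.ts l ∧ (l ≠ [] → 0 < W.ts l) ∧ ∀ b ∈ l, W.ta b.Q ≤ W.ts l := by
  have h0 : ∀ b ∈ l, 0 < W.ta b.Q := fun b hb => (h.tt_bd (hl.1 b hb).1.bx.lb.pos).2.2.1
  have h1 : ∀ x ∈ l.map fun b => W.ta b.Q, 0 ≤ x := fun x hx => by
    obtain ⟨b, hb, rfl⟩ := List.mem_map.1 hx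
    exact (h0 b hb).le
  have h2 : ∀ b ∈ l, W.ta b.Q ≤ W.ts l := fun b hb =>
    List.single_le_sum h1 _ (List.mem_map_of_mem hb)
  refine ⟨List.sum_nonneg h1, fun hne => ?_, h2⟩
  obtain ⟨b, hb⟩ := List.exists_mem_of_ne_nil l hne
  exact (h0 b hb).trans_le (h2 b hb)
theorem LOk.ls {F0 : Set (E ι)} {l : List (It ι)} (hl : W.LOk F0 l) : LsOk F0 (lsI l) := by
  refine ⟨by simpa [lsI, Function.comp_def] using hl.2, fun a ha => ?_, fun a ha => ?_⟩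
  · obtain ⟨b, hb, rfl⟩ := List.mem_map.1 ha
    exact (hl.1 b hb).1.bx.lb.pos
  · obtain ⟨b, hb, rfl⟩ := List.mem_map.1 ha
    exact (hl.1 b hb).2 _ (hl.1 b hb).1.bx
theorem LOk.seg {F0 : Set (E ι)} {l l' : List (It ι)} (hl : W.LOk F0 l) (h : l' <:+: l) :
    W.LOk F0 l' :=
  ⟨fun b hb => hl.1 b (h.subset hb), hl.2.sublist (h.sublist.map _)⟩
theorem LOk.empty {F0 : Set (E ι)} {l : List (It ι)} (hl : W.LOk F0 l) : W.LOk ∅ l :=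
  ⟨fun b hb => ⟨(hl.1 b hb).1, fo_empty _⟩, hl.2⟩

/-- The band of a list. -/
theorem OK.lb_bnd (h : W.OK) {F0 : Set (E ι)} {l : List (It ι)} (hl : W.LOk F0 l) {b : ℝ}
    (hb : W.a0 * W.ts l ≤ b) : SBnd (UL W.U0) W.i0 (W.ts l) (bdL (lsI l)) W.a0 b (W.lb l) := by
  obtain ⟨c1, c2, -, c4, -⟩ := h.consts
  induction l with
  | nil =>
    exact (sbnd_nil (y0 := W.y0) h.hy W.a0 b).mono (fun y _ => by simp [bdL, lsI]) le_rfl le_rfl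
      le_rfl
  | cons b0 l ih =>
    have hl' : W.LOk F0 l := hl.seg (List.suffix_cons b0 l).isInfix
    have h0 := (hl.1 b0 List.mem_cons_self).1
    obtain ⟨t1, -, t2, -⟩ := h.tt_bd h0.bx.lb.pos
    have t3 := (h.ts_bd hl').1
    rw [ts_cons] at hb ⊢
    have t4 : W.K * W.tt b0.Q * (2 * b0.Q.sc) * W.K1 ≤ W.a0 * W.ta b0.Q := by
      have : 0 ≤ W.K * W.K1 * W.ta b0.Q := by positivity
      simp only [a0, ta] at this ⊢
      linarith only [this]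
    have h1 := (h.bnd_item b0.a (h0.bx.lb.down (show b0.k - 1 ≤ b0.k by omega)) (eb_sd h0.bx) h0.np
      h0.nq (by linarith only [c2]) (h0.mem.2.2.1.const.mono h.ds.p1) (t := fun _ => W.tt b0.Q)
      (l := fun _ => W.ta b0.Q) (pt := 0) (pl := 0) (a' := W.a0) (b := b) (c := b)
      (h.tm_le h0.bx le_rfl) (fun _ _ => ⟨le_rfl, t2, t4, by nlinarith only [hb, t3, t4, c4]⟩) le_rfl le_rfl
      (fun _ _ _ _ => by simp) (by simp)).slice (r := 0) ⟨le_rfl, zero_le_one⟩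
    refine (h1.cat (ih hl' (by nlinarith only [hb, t2, c4])) (by linarith only [c4]) fun y k1 k2 => ?_).mono
      (fun y _ => ?_) le_rfl le_rfl le_rfl
    · exact (srcL_disj (l1 := [(b0.a, b0.Q)]) hl.ls.1 y (bdL_subset _ k1) (bdL_subset _ k2)).elim
    · rw [← bdL_append]
      rfl

theorem OK.lb_append (h : W.OK) {F0 : Set (E ι)} {l1 l2 : List (It ι)}
    (hl : W.LOk F0 (l1 ++ l2)) : ∀ n ∈ Icc 0 (W.ts (l1 ++ l2)), ∀ ω ∈ Cs W.i0,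
      Ap (UL W.U0) (W.lb (l1 ++ l2) (n, ω)) (cat (W.ts l1) (W.lb l1) (W.lb l2) (n, ω)) := by
  induction l1 with
  | nil =>
    intro n hn ω hω
    simp only [List.nil_append, cat, ts_nil, sub_zero]
    split_ifs with k
    · rw [le_antisymm k hn.1]
      exact Ap.of_not (((h.lb_bnd hl le_rfl).2 0 ⟨le_rfl, zero_le_one⟩).2 ω hω).1 h.hy
    · exact Ap.rfl
  | cons b0 l1 ih =>
    intro n hn ω hω
    have hl' : W.LOk F0 (l1 ++ l2) := hl.seg (List.suffix_cons b0 _).isInfix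
    rw [List.cons_append, ts_cons] at hn
    rw [List.cons_append, ts_cons, lb, lb,
      cat_assoc (h.ts_bd (hl'.seg (List.prefix_append l1 l2).isInfix)).1, cat, cat]
    split_ifs with k
    · exact Ap.rfl
    · exact ih hl' _ ⟨sub_nonneg.2 (not_le.1 k).le, sub_le_iff_le_add'.2 hn.2⟩ ω hω

/-- The data of a single band in terms of the extended display. -/
theorem OK.sph_hat (h : W.OK) (a : ℕ) {k : ℤ} {Q : Bx ι} (hQ : LB k Q) {t : ℝ}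
    (ht : ∀ G, Cube k G → G.set ⊆ Q.set → W.tm G ≤ t) {p q : E ι} (hp : ‖p‖ = 1) (hq : ‖q‖ = 1)
    (np : W.Neck k (Q.af p)) (nq : W.Neck k (Q.af q)) (Ξ : ℝ × E ι → E ι) {l : ℝ} (hl : 0 < l)
    {x : E ι} (hx : ‖x‖ = 1) :
    Ap (UL W.U0) (sphD W.i0 W.y0 l (W.bb a k t Q Ξ l) x)
      (a, W.P k (t, Q.af (hat W.i0 p q Ξ x))) := by
  have _ := hx
  simp only [sphD, sphV, hat]
  split_ifs with k1 k2
  · exact Ap.of_not h.hy (h.neck hQ ht (hQ.pos.af_mem.2 hp.le) np)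
  · exact Ap.of_not h.hy (h.neck hQ ht (hQ.pos.af_mem.2 hq.le) nq)
  · simp only [bb, mul_div_cancel_left₀ _ hl.ne']
    exact Ap.rfl

theorem OK.wf_L (h : W.OK) {F0 : Set (E ι)} {l : List (It ι)} (hl : W.LOk F0 l) (hne : l ≠ [])
    (R : GB ι) {c : ℝ} (hc : 0 < c) : (W.pbL l R c).WF (UL W.U0) := by
  have h0 := ((h.ts_bd hl).2.1 hne).le
  refine ⟨fun z hz => ⟨trivial, hz.2.1⟩, fun z hz k => ⟨trivial, ?_⟩, hc⟩
  simp only [pbL, pbS, pbP, sphD, sphV] at k ⊢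
  split_ifs at k ⊢ with k1
  · exact (h.hy k).elim
  · have h1 := eb_m (i0 := W.i0) hz.2.2
    exact bdL_subset _ ((h.lb_bnd hl le_rfl).1.maps (0, _, _) ⟨⟨le_rfl, zero_le_one⟩,
      ⟨mul_nonneg h0 h1.1, mul_le_of_le_one_right h0 h1.2⟩, eb_cs hz.2.2 k1⟩ k).2
theorem OK.wf_T (h : W.OK) (a : ℕ) {k : ℤ} {Q : Bx ι} (hQ : BX k Q) {t : ℝ} (ht : W.tt Q ≤ t)
    (R : GB ι) {c : ℝ} (hc : 0 < c) : (W.pbT a k Q t R c).WF (UL W.U0) := by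
  refine ⟨fun z hz => ⟨trivial, hz.2.1⟩, fun z hz k1 => ⟨trivial, ?_⟩, hc⟩
  have h1 := hQ.lb.down (show k - 1 ≤ k by omega)
  have h2 := h1.pos.af_mem_bd.2 hz.2.2
  obtain ⟨x', h3, h4, -⟩ := h.bd.img trivial h1 (h.tm_le hQ ht) h2.1 (h1.bd_sk h2) k1
  exact ⟨(a, Q), List.mem_singleton_self _, rfl, mem_of_eq_of_mem h4 h3⟩

/-- Change of the label of a standard problem. -/
theorem OK.relabel (h : W.OK) (a a' : ℕ) {k : ℤ} {Q : Bx ι} (hQ : BX k Q) {t : ℝ}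
    (ht : W.tt Q ≤ t) {R : GB ι} {c : ℝ} (hc : 0 < c) {Z : Unit × E ι → YL ι}
    (hZ : Sol (UL W.U0) (W.pbT a k Q t R c) univ Z) :
    Sol (UL W.U0) (W.pbT a' k Q t R c) univ fun z => (a', (Z z).2) := by
  have hs : ∀ (b : ℕ) (s : Unit) (y : YL ι),
      y ∈ (W.pbT b k Q t R c).S s ↔ y.1 = b ∧ y.2 ∈ Q.set := fun b s y => by
    simp [pbT, pbS, pbP, srcL]
  refine hZ.post (h.hU.preimage continuous_snd) (h.wf_T a hQ ht R hc) (fun _ y => (a', y.2))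
    (l1 := 1) (l2 := 0) zero_le_one rfl Subset.rfl (fun _ _ => Iff.rfl) (fun _ _ => Ap.rfl)
    (fun s y' _ => ?_) (fun s y k1 y' k2 _ k3 => ?_) (fun _ _ _ _ _ => trivial)
    (fun _ y _ _ => Eventually.of_forall fun w => ?_) (fun _ _ => Eventually.of_forall fun _ => ?_)
    fun _ _ _ _ => ((Dm.const a).prod Dm.pr2.snd).congrL fun w k =>
      Prod.ext ((hs _ _ _).1 k).1 rfl
  · rw [hs]
    constructor
    · rintro ⟨rfl, k⟩
      exact ⟨(a, y'.2), (hs _ _ _).2 ⟨rfl, k⟩, rfl⟩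
    · rintro ⟨y, k, rfl⟩
      exact ⟨rfl, ((hs _ _ _).1 k).2⟩
  · exact Prod.ext (((hs _ _ _).1 k2).1.trans ((hs _ _ _).1 k1).1.symm) (Prod.mk.inj k3).2
  · simp [Prod.dist_eq]
  · rw [one_mul, zero_mul, add_zero]
    exact le_rfl

end EV

end Pool.Agent.Lib.MP_ecd4e3_gt.NB
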