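import Pool.Agent.Lib.MP_ecd4e3_gt.NB.LDefs
import Pool.Agent.Lib.MP_ecd4e3_gt.NB.FHaar

/-! Definitions for the efficient construction in full dimension. -/

namespace Pool.Agent.Lib.MP_ecd4e3_gt.NB

open Set Filter Topology Metric MeasureTheory
open scoped NNReal ENNReal

variable {ι : Type} [Fintype ι] [DecidableEq ι]

/-- The labelled union of boxes. -/
def srcL (ls : List (ℕ × Bx ι)) : Set (YL ι) := {y | ∃ a ∈ ls, y.1 = a.1 ∧ y.2 ∈ a.2.set}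
/-- The labelled union of their boundaries. -/
def bdL (ls : List (ℕ × Bx ι)) : Set (YL ι) := {y | ∃ a ∈ ls, y.1 = a.1 ∧ y.2 ∈ a.2.bd}
/-- Distinct labels, and `F0` stays away from the boundaries. -/
def LsOk (F0 : Set (E ι)) (ls : List (ℕ × Bx ι)) : Prop :=
  (ls.map Prod.fst).Nodup ∧ (∀ a ∈ ls, a.2.Pos) ∧
    ∀ a ∈ ls, ∀ x ∈ a.2.set, x ∈ F0 → ‖a.2.nm x‖ ≤ 3 / 4
/-- `F0` stays away from the boundaries of the boxes of level `k`. -/
def FO (F0 : Set (E ι)) (k : ℤ) : Prop :=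
  ∀ Q : Bx ι, BX k Q → ∀ x ∈ Q.set, x ∈ F0 → ‖Q.nm x‖ ≤ 3 / 4

/-- Concatenation of bands. -/
noncomputable def cat {Y : Type} (l : ℝ) (Γ1 Γ2 : ℝ × E ι → Y) (z : ℝ × E ι) : Y :=
  if z.1 ≤ l then Γ1 z else Γ2 (z.1 - l, z.2)

/-- A band of length `l` on the model sphere, reparametrised by `υ`, with junk on the caps. -/
noncomputable def sphV {Y : Type} (i0 : ι) (y0 : Y) (l : ℝ) (υ : ℝ → ℝ) (Γ : ℝ × E ι → Y)
    (x : E ι) : Y :=
  if ‖Function.update x i0 0‖ < 1 then y0 else Γ (l * υ ((x i0 + 1) / 2), Function.update x i0 0)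

/-- A band on the model sphere. -/
noncomputable def sphD {Y : Type} (i0 : ι) (y0 : Y) (l : ℝ) (Γ : ℝ × E ι → Y) : E ι → Y :=
  sphV i0 y0 l (fun m => m) Γ

/-- A movie of bands of variable length, with junk at both ends. -/
def Bnd {Y : Type} [MetricSpace Y] (U : Set Y) (i0 : ι) (l : ℝ → ℝ) (D : Set Y) (a b c : ℝ)
    (Γ : ℝ → ℝ × E ι → Y) : Prop :=
  Sol U ⟨{z : ℝ × (ℝ × E ι) | z.1 ∈ Icc (0 : ℝ) 1 ∧ z.2.1 ∈ Icc 0 (l z.1) ∧ z.2.2 ∈ Cs i0}, ∅,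
      fun z => Γ z.1 z.2, fun r => {y | r ∈ Icc (0 : ℝ) 1 ∧ y ∈ D},
      fun z z' => a * |z'.2.1 - z.2.1| + b * dist z'.2.2 z.2.2 + c * |z'.1 - z.1|, 1⟩ univ
      (fun z => Γ z.1 z.2) ∧
    ∀ r ∈ Icc (0 : ℝ) 1, 0 ≤ l r ∧ ∀ ω ∈ Cs i0, Γ r (0, ω) ∉ U ∧ Γ r (l r, ω) ∉ U

/-- A static band. -/
def SBnd {Y : Type} [MetricSpace Y] (U : Set Y) (i0 : ι) (l : ℝ) (D : Set Y) (a b : ℝ)
    (Γ : ℝ × E ι → Y) : Prop :=
  Bnd U i0 (fun _ => l) D a b 0 fun _ => Γ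

/-- What is needed about displays. -/
structure DSp (i0 : ι) (K0 K1 : ℝ) : Prop where
  p0 : 1 ≤ K0
  p1 : K0 ≤ K1
  d1 : ∀ p q j Ξ j', Good i0 K0 p q j Ξ → j' ≠ j → ∃ ε Ξ' Ξ1 Ξ2 p1 q2,
    DMov i0 K1 p q Ξ Ξ' ∧ Adapt i0 K0 p q j' ε Ξ' Ξ1 Ξ2 p1 q2
  d2 : ∀ p q j Ξ, Good i0 K0 p q j Ξ → ∃ O, IsSP O ∧ SMov K1 p q (hat i0 p q Ξ) O
  d3 : ∀ j, ∃ O Ξ Ξ1 Ξ2 p1 q2, IsSP O ∧
    Adapt i0 K0 (Pi.single j (-1)) (Pi.single j 1) j 1 Ξ Ξ1 Ξ2 p1 q2 ∧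
    SMov K1 (Pi.single j (-1)) (Pi.single j 1) O (hat i0 (Pi.single j (-1)) (Pi.single j 1) Ξ)

/-- The size of a graph box. -/
noncomputable def GB.sz (R : GB ι) : ℝ := R.vol ^ (1 / (Fintype.card ι : ℝ))

/-- A similar copy of size `L`. -/
structure Sim (f : ℝ) (R R' : GB ι) (L : ℝ) : Prop where
  valid : R'.Valid f
  sz : R'.sz = L
  phi : R'.phi f = R.phi f
  fin : R'.Fin f ↔ R.Fin f
  box : ∀ Q : Bx ι, R = Q.gb → ∃ Q' : Bx ι, R' = Q'.gb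
  wmin : R'.wmin * R.sz = L * R.wmin
  wmax : R'.wmax * R.sz = L * R.wmax

/-- An item of a list: label, level, box, entry and exit point, direction, display. -/
structure It (ι : Type) where
  a : ℕ
  k : ℤ
  Q : Bx ι
  p : E ι
  q : E ι
  j : ι
  Ξ : ℝ × E ι → E ι

/-- The labelled boxes of a list. -/
def lsI (l : List (It ι)) : List (ℕ × Bx ι) := l.map fun b => (b.a, b.Q)

/-- The input of the efficient construction. -/
structure EV (ι : Type) [Fintype ι] where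
  U0 : Set (E ι)
  B : ℝ
  u : ℝ
  K : ℝ
  T : ℤ
  A : ℝ
  P : ℤ → ℝ × E ι → E ι
  ν : Measure (E ι)
  i0 : ι
  K0 : ℝ
  K1 : ℝ
  y0 : YL ι

/-- The exponent of the gain factor. -/
noncomputable def alN (ι : Type) [Fintype ι] : ℝ := thN ι - 1 / Fintype.card ι

namespace EV

variable [Nonempty ι]

/-- The starting time of a cube. -/
noncomputable def tm (W : EV ι) (G : Bx ι) : ℝ := min (W.B ^ W.T) (W.A * G.den W.ν ^ thN ι)

structure OK (W : EV ι) : Prop where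
  hU : IsOpen W.U0
  hy : W.y0.2 ∉ W.U0
  bd : BD W.U0 id (fun _ => True) W.B W.u W.K W.T (fun _ => W.tm) (fun _ => W.tm) W.P
  pB : 4 ≤ W.B
  pT : 0 ≤ W.T
  pA : 1 ≤ W.A
  le : W.ν ≤ volume
  pos : ∀ Q : Bx ι, Q.Pos → 0 < W.ν Q.set
  one : ∀ Q : Bx ι, Q.Pos → Q.set ⊆ W.U0 → Q.den W.ν = 1
  vc : ∀ k (Q : Bx ι), BX k Q → Q.den W.ν < 1 → ∀ v ∈ Q.set, (∀ i, Lat (k - 1) (v i)) → v ∉ W.U0
  ds : DSp W.i0 W.K0 W.K1

noncomputable def A1 (W : EV ι) : ℝ := 4 ^ Fintype.card ι * W.A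
/-- Mass. -/
noncomputable def nu (W : EV ι) (Q : Bx ι) : ℝ := (W.ν Q.set).toReal
/-- Time of a box. -/
noncomputable def tt (W : EV ι) (Q : Bx ι) : ℝ := W.A1 * Q.den W.ν ^ thN ι
/-- Length of the band of a box. -/
noncomputable def ta (W : EV ι) (Q : Bx ι) : ℝ := W.tt Q * Q.sc
/-- Mass times gain factor. -/
noncomputable def xx (W : EV ι) (Q : Bx ι) : ℝ := W.nu Q * Q.den W.ν ^ alN ι
/-- Thickness constant of the shells. -/
noncomputable def cg (W : EV ι) (f : ℝ) : ℝ := 10 ^ 10 * W.K * W.K1 / f ^ 2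
/-- Lipschitz constant of the bands along the axis. -/
noncomputable def a0 (W : EV ι) : ℝ := 8 * W.K * W.K1

/-- A lattice point of the data grid outside the open set. -/
def Neck (W : EV ι) (k : ℤ) (x : E ι) : Prop := (∀ i, Lat k (x i)) ∧ x ∉ W.U0

structure IOk (W : EV ι) (b : It ι) : Prop where
  bx : BX b.k b.Q
  good : Good W.i0 W.K0 b.p b.q b.j b.Ξ
  long : ∃ j', j' ≠ b.j ∧ b.Q.Long j'
  np : W.Neck (b.k - 1) (b.Q.af b.p)
  nq : W.Neck (b.k - 1) (b.Q.af b.q)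

/-- The band of a box with data of level `k` at time `t`, display `Ξ` and length `l`. -/
noncomputable def bb (W : EV ι) (a : ℕ) (k : ℤ) (t : ℝ) (Q : Bx ι) (Ξ : ℝ × E ι → E ι) (l : ℝ)
    (z : ℝ × E ι) : YL ι :=
  (a, W.P k (t, Q.af (Ξ (z.1 / l, z.2))))

noncomputable def ts (W : EV ι) (l : List (It ι)) : ℝ := (l.map fun b => W.ta b.Q).sum

/-- The band of a list. -/
noncomputable def lb (W : EV ι) : List (It ι) → ℝ × E ι → YL ι
  | [] => fun _ => W.y0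
  | b :: l => cat (W.ta b.Q) (W.bb b.a (b.k - 1) (W.tt b.Q) b.Q b.Ξ (W.ta b.Q)) (W.lb l)

/-- Admissible lists. -/
def LOk (W : EV ι) (F0 : Set (E ι)) (l : List (It ι)) : Prop :=
  (∀ b ∈ l, W.IOk b ∧ FO F0 b.k) ∧ (l.map It.a).Nodup

/-- The problem of a list. -/
noncomputable def pbL (W : EV ι) (l : List (It ι)) (R : GB ι) (c : ℝ) : PE ι :=
  pbS R (sphD W.i0 W.y0 (W.ts l) (W.lb l)) (srcL (lsI l)) c

/-- The standard problem of a box. -/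
noncomputable def pbT (W : EV ι) (a : ℕ) (k : ℤ) (Q : Bx ι) (t : ℝ) (R : GB ι) (c : ℝ) : PE ι :=
  pbS R (fun x => (a, W.P (k - 1) (t, Q.af x))) (srcL [(a, Q)]) c

/-- The two items of the halves of the box `Q` of level `k`. -/
def Kids (k : ℤ) (Q : Bx ι) (b1 b2 : It ι) : Prop :=
  ∃ (j : ι) (ε : ℝ), (ε = 1 ∨ ε = -1) ∧ Q.Long j ∧ b1.Q = Q.H j (-ε) ∧ b2.Q = Q.H j ε ∧
    b1.k = nk k Q ∧ b2.k = nk k Q

end EV

/-- Constants of the efficient construction. -/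
structure EC where
  sC : ℝ
  Bc : ℝ
  k1 : ℝ
  k2 : ℝ
  κ : ℝ
  eta : ℝ
  d0 : ℝ
  fc : FC

namespace EC

variable [Nonempty ι]

noncomputable def C0 (C : EC) (ι : Type) [Fintype ι] : ℝ := C.sC ^ Fintype.card ι

structure Good (C : EC) (W : EV ι) : Prop where
  fc : C.fc.Good (ι := ι) (1 / 16)
  hB : 100 * Fintype.card ι * W.cg (1 / 16) ≤ C.Bc
  pe : 0 < C.eta
  he : 2 * C.eta ≤ C.fc.η0
  he' : 128 * C.eta * C.fc.Cq ≤ alN ι
  pd : 0 < C.d0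
  hd : 4 * C.d0 ≤ C.fc.d1
  hd' : C.d0 ≤ 1 / 100
  p1 : 0 < C.k1
  h1 : C.k1 ≤ 1 / 1000
  p2 : 0 < C.k2
  h2 : 8000 * Fintype.card ι * C.k2 ≤ 1
  pκ : 0 < C.κ
  κ1 : 4 * C.κ ≤ C.k1
  κ2 : C.κ ≤ C.k2 * drp ι (1 / 16)
  imb : 4 * C.k1 + 16 * Fintype.card ι * C.k2 + C.κ ≤ alN ι / 2 * C.d0 ^ 2
  pot : 16 * Fintype.card ι * C.k2 + C.κ ≤ C.eta * C.fc.P1 / 16
  hs : 100 * C.Bc * W.A1 ≤ C.κ * C.sC
  hs' : 100 * W.cg (1 / 16) * W.B ^ W.T ≤ C.sC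

variable (C : EC) (W : EV ι)

/-- Basic credit. -/
noncomputable def cr (Q : Bx ι) : ℝ := C.C0 ι * (2 * W.nu Q - W.xx Q)
noncomputable def base (Q : Bx ι) : ℝ :=
  if 1 ≤ Q.den W.ν then C.C0 ι * W.nu Q / 10 else C.cr W Q
noncomputable def bonus (Q : Bx ι) : ℝ :=
  if 1 ≤ Q.den W.ν then C.C0 ι * W.nu Q / 5 else C.k1 * C.C0 ι * W.xx Q
noncomputable def cs (l : List (It ι)) : ℝ :=
  (l.map fun b => C.base W b.Q + 2 * C.bonus W b.Q).sum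
noncomputable def hb : List (It ι) → ℝ
  | [] => 0
  | b :: _ => C.bonus W b.Q
noncomputable def tb (l : List (It ι)) : ℝ := C.hb W l.reverse
/-- Credit of a list. -/
noncomputable def Cr (l : List (It ι)) : ℝ := C.cs W l - C.hb W l - C.tb W l
/-- Credit of a list which has a right neighbour. -/
noncomputable def Sl (l : List (It ι)) : ℝ := C.cs W l - C.hb W l
/-- Credit of a list which has a left neighbour. -/
noncomputable def Sr (l : List (It ι)) : ℝ := C.cs W l - C.tb W l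

end EC

noncomputable def EV.xs (W : EV ι) (l : List (It ι)) : ℝ := (l.map fun b => W.xx b.Q).sum

/-- One for a nonempty list. -/
noncomputable def neL {α : Type} (l : List α) : ℝ := if l = [] then 0 else 1

/-- The size `L` suffices for the credit `V` and the length `τ`. -/
def Nd (n : ℕ) (V τ L : ℝ) : Prop := V + τ * L ^ (n - 1) ≤ L ^ n

namespace EC

variable [Nonempty ι] (C : EC) (W : EV ι)

/-- Credit including the shape of the target. -/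
noncomputable def Vl (l : List (It ι)) (φ : ℝ) : ℝ := C.Cr W l + C.k2 * C.C0 ι * W.xs l * φ

/-- Valid list states. -/
def VL (l : List (It ι)) (R : GB ι) (c : ℝ) : Prop :=
  l ≠ [] ∧ W.LOk ∅ l ∧ R.Valid (1 / 16) ∧ 1 < c ∧
    Nd (Fintype.card ι) (C.Vl W l (R.phi (1 / 16))) (C.Bc * W.ts l) R.sz

/-- Nominal density in the martingale mode. -/
noncomputable def Jd (Q : Bx ι) (F : FD ι) : ℝ := F.a0 Q / (C.C0 ι * Q.vol)
/-- Time in the martingale mode. -/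
noncomputable def tF (Q : Bx ι) (F : FD ι) : ℝ := 2 * W.A1 * C.Jd Q F ^ thN ι
/-- Weight of the potential. -/
noncomputable def et (Q : Bx ι) (F : FD ι) : ℝ := C.eta * C.Jd Q F ^ alN ι

/-- Valid states of the martingale mode. -/
def VF (k : ℤ) (Q : Bx ι) (F : FD ι) (R : GB ι) (c : ℝ) : Prop :=
  BX k Q ∧ FSt C.fc (1 / 16) Q F ∧ FRel (1 / 16) Q F R ∧ 1 < c ∧ C.Jd Q F ≤ 2 ∧
    C.cr W Q + C.et Q F * F.a0 Q * pot C.fc Q F ≤ R.vol

/-- The problem reduces to valid list states whose lists are segments of `l`. -/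
def RedL (p : PE ι) (l : List (It ι)) : Prop :=
  ∃ ch : Set (List (It ι) × GB ι × ℝ), (∀ σ ∈ ch, C.VL W σ.1 σ.2.1 σ.2.2 ∧ σ.1 <:+: l) ∧
    Red W.U0 ∅ p ((fun σ => W.pbL σ.1 σ.2.1 σ.2.2) '' ch)

end EC

end Pool.Agent.Lib.MP_ecd4e3_gt.NB
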