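import Pool.Agent.Lib.MP_ecd4e3_gt.NB.Shell

/-! Gluing a filled shell, and the coordinates of the notch. -/

namespace Pool.Agent.Lib.MP_ecd4e3_gt.NB

open Set Filter Topology Metric MeasureTheory
open scoped NNReal ENNReal

variable {ι : Type} [Fintype ι] [DecidableEq ι]

/-- A filling of the shell and a filling of the inner region. -/
theorem shell_glue {Y : Type} [MetricSpace Y] {U C S S1 W : Set Y} (hU : IsOpen U)
    {R : ℝ → Set (E ι)} {Yc : ℝ → E ι → E ι} {ν : E ι → ℝ} {LY LT Lν Sz : ℝ}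
    (hsd : SD R Yc ν LY LT Lν Sz) {Θ : ℝ × E ι → Y} {Θ0 : Unit × (ℝ × E ι) → Y} {a1 a2 : ℝ}
    (p1 : 0 ≤ a1) (p2 : 0 ≤ a2)
    (hΘ : Sol U (pbP (univ : Set Unit) (Icc (0 : ℝ) 1 ×ˢ sphere (0 : E ι) 1) ∅ Θ0 C
      (fun z z' => a1 * dist z'.2.2 z.2.2 + a2 * |z'.2.1 - z.2.1|) 1) univ fun z => Θ z.2)
    {a a' c c' : ℝ} {Z : Unit × E ι → Y}
    (hZ : Sol U (pbP univ (R 1) {z | z ∈ R 1 ∧ ‖Yc 1 z‖ = 1} (fun z => Θ (1, Yc 1 z.2)) S1
      (gs a' 0) c') W Z)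
    (hS : ∀ y ∈ U, y ∈ S ↔ y ∈ C ∨ y ∈ S1)
    (hsep : ∀ y ∈ C, y ∈ S1 → y ∈ U → ∃ x ∈ sphere (0 : E ι) 1, Θ (1, x) = y)
    (h1 : a1 * (LY + LT * Lν) + a2 * Lν ≤ a) (h2 : a' ≤ a) :
    Sol U (pbP univ (R 0) {z | z ∈ R 0 ∧ ‖Yc 0 z‖ = 1} (fun z => Θ (0, Yc 0 z.2)) S (gs a 0) c) W
      fun z => if ν z.2 < 1 then Θ (ν z.2, Yc (ν z.2) z.2) else Z z := by
  classical
  have i0 : (0 : ℝ) ∈ Icc (0 : ℝ) 1 := ⟨le_rfl, zero_le_one⟩
  have i1 : (1 : ℝ) ∈ Icc (0 : ℝ) 1 := ⟨zero_le_one, le_rfl⟩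
  have n1 : ∀ x ∈ R 1, ν x = 1 := fun x hx =>
    (hsd.mem x (hsd.sub 1 i1 hx)).2.antisymm ((hsd.le x (hsd.sub 1 i1 hx) 1 i1).1 hx)
  have c1 : ∀ z : Unit × E ι, z.2 ∈ R 0 →
      ContinuousWithinAt (fun w : Unit × E ι => ν w.2) (univ ×ˢ R 0) z := fun z hz =>
    (cont_of_ev (g := fun w : Unit × E ι => Lν * dist w.2 z.2) (Continuous.continuousWithinAt (by fun_prop))
      (by simp) (eventually_nhdsWithin_of_forall fun w hw => hsd.lipν _ hw.2 _ hz)).1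
  have c2 : ∀ z : Unit × E ι, z.2 ∈ R 0 →
      ContinuousWithinAt (fun w : Unit × E ι => Yc (ν w.2) w.2) (univ ×ˢ R 0) z := fun z hz =>
    (cont_of_ev (Z := fun w : Unit × E ι => Yc (ν w.2) w.2) (P := univ ×ˢ R 0) (z := z)
      (g := fun w : Unit × E ι => (LY + LT * Lν) * dist w.2 z.2)
      (Continuous.continuousWithinAt (by fun_prop))
      (by simp) (eventually_nhdsWithin_of_forall fun w hw => hsd.lipS hz hw.2)).1
  have hA : (univ : Set Unit) ×ˢ {x | x ∈ R 0 ∧ ‖Yc (ν x) x‖ = 1} ⊆ univ ×ˢ R 0 :=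
    fun w hw => ⟨trivial, hw.2.1⟩
  have hsh : Sol U (pbP (univ : Set Unit) {x | x ∈ R 0 ∧ ‖Yc (ν x) x‖ = 1} ∅ Z C (gs a 0) c) W
      fun z => Θ (ν z.2, Yc (ν z.2) z.2) := by
    refine (hΘ.monoW (subset_univ W)).comp id (fun z => (ν z.2, Yc (ν z.2) z.2))
      (fun z hz => ⟨trivial, hsd.mem _ hz.2.1, mem_sphere_zero_iff_norm.2 hz.2.2⟩)
      (fun _ _ _ h => h) (fun _ _ h _ => h) ?_ (fun t x x' hx hx' _ e => ?_)
      (fun z hz _ => ⟨((continuous_fst.continuousWithinAt.prodMk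
        ((c1 z hz.2.1).prodMk (c2 z hz.2.1))).mono hA),
        eventually_nhdsWithin_of_forall fun w hw => ?_⟩) (fun z hz => hz.2.elim)
      fun z _ _ => ⟨Dm.refl, Dm.toR (Dm.of_le (K := Sz * (1 + LT)) fun v hv v' hv' => ?_)⟩
    · rintro t y - - - ⟨s, ω⟩ ⟨-, hs, hω⟩ -
      obtain ⟨x, hx, rfl⟩ := (hsd.bij s hs).surjOn (sphere_subset_closedBall hω)
      have k := hsd.eq s hs x hx (mem_sphere_zero_iff_norm.1 hω)
      exact ⟨x, ⟨trivial, hsd.sub s hs hx, by rw [k]; exact mem_sphere_zero_iff_norm.1 hω⟩,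
        by rw [k]⟩
    · obtain ⟨k1, k2⟩ := Prod.ext_iff.1 e
      have k3 := hsd.self hx'.2.1
      simp only at k1 k2 k3
      rw [k1] at k2 k3
      exact (hsd.bij _ (hsd.mem _ hx.2.1)).injOn k3 (hsd.self hx.2.1) k2
    · have l1 := mul_le_mul_of_nonneg_left (hsd.lipS hz.2.1 hw.2.1) p1
      have l2 := mul_le_mul_of_nonneg_left (hsd.lipν _ hw.2.1 _ hz.2.1) p2
      have l3 := mul_le_mul_of_nonneg_right h1 (dist_nonneg (x := w.2) (y := z.2))
      simp only [pbP, gs]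
      linarith only [l1, l2, l3]
    · have l1 := hsd.lipI _ (hsd.mem _ hv'.2.1) _ (hsd.mem _ hv.2.1) _ (hsd.self hv'.2.1) _
        (hsd.self hv.2.1)
      have l2 : dist (Yc (ν v'.2) v'.2) (Yc (ν v.2) v.2) ≤
          dist (ν v'.2, Yc (ν v'.2) v'.2) (ν v.2, Yc (ν v.2) v.2) := le_max_right _ _
      have l3 : |ν v'.2 - ν v.2| ≤
          dist (ν v'.2, Yc (ν v'.2) v'.2) (ν v.2, Yc (ν v.2) v.2) := le_max_left _ _
      refine l1.trans ((mul_le_mul_of_nonneg_left (add_le_add l2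
        (mul_le_mul_of_nonneg_left l3 hsd.pT)) hsd.pS).trans_eq ?_)
      ring
  have n0 : ∀ x ∈ R 0, ‖Yc 0 x‖ = 1 → ν x = 0 := hsd.eq 0 i0
  refine (Sol.glue' (p := pbP univ (R 0) {z | z ∈ R 0 ∧ ‖Yc 0 z‖ = 1}
    (fun z => Θ (0, Yc 0 z.2)) S (gs a 0) c) hZ hsh ?_ (fun z _ h => ?_) (fun z hz h => ?_)
    (fun t y u => ?_) (fun z hz hz' y u w => ?_) (fun t y k1 k2 u w => ?_)
    (fun z hz hz' => ?_) (fun z hz _ => ?_)
    (fun z _ => Eventually.of_forall fun w => ?_) fun z _ => Eventually.of_forall fun w => le_rfl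
    ).congr_eq (fun z hz => ⟨trivial, hz.2.1⟩) fun z hz => ?_
  · refine Subset.antisymm (fun z hz => ?_) (union_subset
      (fun z hz => ⟨trivial, hsd.sub 1 i1 hz.2⟩) hA)
    by_cases h : ν z.2 < 1
    · exact Or.inr ⟨trivial, hz.2, hsd.bd _ hz.2 h⟩
    · rw [hsd.lt_one hz.2, not_not] at h
      exact Or.inl ⟨trivial, h⟩
  · exact (isClosed_univ.prod (hsd.closed 1 i1)).closure_subset h
  · have : (𝓝[univ ×ˢ {x | x ∈ R 0 ∧ ‖Yc (ν x) x‖ = 1}] z).NeBot :=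
      mem_closure_iff_nhdsWithin_neBot.1 h
    exact ⟨trivial, hz.2, mem_sphere_zero_iff_norm.1 (isClosed_sphere.mem_of_tendsto
      ((c2 z hz.2).mono hA).tendsto
      (eventually_nhdsWithin_of_forall fun w hw => mem_sphere_zero_iff_norm.2 hw.2.2))⟩
  · simp only [pbP, mem_ofPred_eq, mem_univ, true_and]
    rw [hS y u, or_comm]
  · have k := hz'.2.2
    rw [n1 _ hz.2] at k ⊢
    exact ⟨fun e => (hZ.bd z ⟨trivial, hz.2, k⟩ (e ▸ u)).symm.trans e,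
      fun e => (hZ.bd' z ⟨trivial, hz.2, k⟩ (e.symm ▸ u :) (e.symm ▸ w :)).trans e⟩
  · obtain ⟨ω, hω, rfl⟩ := hsep y k2.2 k1.2 u
    obtain ⟨x, hx, rfl⟩ := (hsd.bij 1 i1).surjOn (sphere_subset_closedBall hω)
    have k := mem_sphere_zero_iff_norm.1 hω
    exact ⟨x, ⟨trivial, hx⟩, ⟨trivial, hsd.sub 1 i1 hx, by rw [n1 x hx]; exact k⟩,
      hZ.bd' (t, x) ⟨trivial, hx, k⟩ u w⟩
  · exact absurd ((n0 _ hz.2.1 hz.2.2).symm.trans (n1 _ hz'.2)) zero_ne_one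
  · rw [n0 _ hz.2.1 hz.2.2]
    exact ⟨fun _ => rfl, fun _ _ => rfl⟩
  · exact add_le_add_left (mul_le_mul_of_nonneg_right h2 dist_nonneg) _
  · by_cases h : ν z.2 < 1
    · rw [if_pos h, if_neg fun k => (hsd.lt_one hz.2).1 h k.2]
    · rw [if_neg h, if_pos ⟨trivial, not_not.1 (mt (hsd.lt_one hz.2).2 h)⟩]

/-- The position in the display of the left half. -/
noncomputable def ntM (y r : ℝ) : ℝ := if y ≤ 1 / 2 - r / 4 then y / (1 - r / 2) else 2 * y - (1 - r) / 2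
/-- The depth in the collar of the left half. -/
noncomputable def ntS (y r : ℝ) : ℝ :=
  if y ≤ 1 / 2 - r / 4 then r else (1 - 2 * y) / max (1 - ntM y r) (1 / 8)

theorem ntM_eq {y r : ℝ} (hr : r ∈ Icc (0 : ℝ) 1) :
    ntM y r = max (y / (1 - r / 2)) (2 * y - (1 - r) / 2) := by
  obtain ⟨r0, r1⟩ := hr
  have h0 : 0 < 1 - r / 2 := by linarith only [r1]
  unfold ntM
  split_ifs with h
  · rw [max_eq_left]
    rw [le_div_iff₀ h0]
    nlinarith only [mul_nonneg (sub_nonneg.2 h) (sub_nonneg.2 r1), h, r1]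
  · rw [max_eq_right]
    rw [div_le_iff₀ h0]
    nlinarith only [mul_nonneg (sub_nonneg.2 (not_le.1 h).le) (sub_nonneg.2 r1), h, r1]

theorem ntS_eq {y r : ℝ} (hr : r ∈ Icc (0 : ℝ) 1) :
    ntS y r = min r ((1 - 2 * y) / max (1 - 2 * y + (1 - r) / 2) (1 / 8)) := by
  obtain ⟨r0, r1⟩ := hr
  have h0 : 0 < max (1 - 2 * y + (1 - r) / 2) (1 / 8) := lt_max_of_lt_right (by norm_num)
  unfold ntS ntM
  split_ifs with h
  · rw [min_eq_left]
    rw [le_div_iff₀ h0, mul_max_of_nonneg _ _ r0]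
    exact max_le (by nlinarith only [mul_nonneg (sub_nonneg.2 h) (sub_nonneg.2 r1), h, r1]) (by linarith only [r0, h])
  · rw [show 1 - (2 * y - (1 - r) / 2) = 1 - 2 * y + (1 - r) / 2 by ring, min_eq_right]
    rw [div_le_iff₀ h0, mul_max_of_nonneg _ _ r0]
    exact le_max_of_le_left
      (by nlinarith only [mul_nonneg (sub_nonneg.2 (not_le.1 h).le) (sub_nonneg.2 r1), h, r1])

theorem nt_mem {y r : ℝ} (hy : y ∈ Icc (0 : ℝ) (1 / 2)) (hr : r ∈ Icc (0 : ℝ) 1) :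
    ntM y r ∈ Icc (0 : ℝ) 1 ∧ ntS y r ∈ Icc (0 : ℝ) 1 := by
  rw [ntM_eq hr, ntS_eq hr]
  obtain ⟨r0, r1⟩ := hr
  obtain ⟨y0, y1⟩ := hy
  have h0 : 0 < 1 - r / 2 := by linarith only [r1]
  exact ⟨⟨le_max_of_le_left (div_nonneg y0 h0.le),
    max_le ((div_le_one h0).2 (by linarith only [r1, y1])) (by linarith only [r1, y1])⟩,
    le_min r0 (div_nonneg (by linarith only [y1]) (le_max_of_le_right (by norm_num))),
    (min_le_left _ _).trans r1⟩

theorem nt_div {u u' D D' e : ℝ} (he : 0 < e) (hD : e ≤ D) (hD' : e ≤ D') :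
    |u' / D' - u / D| ≤ e⁻¹ * |u' - u| + e⁻¹ * e⁻¹ * (|u| * |D' - D|) := by
  have h1 := he.trans_le hD
  have h2 := he.trans_le hD'
  rw [show u' / D' - u / D = D'⁻¹ * (u' - u) - D'⁻¹ * D⁻¹ * (u * (D' - D)) by field_simp; ring]
  refine (abs_sub _ _).trans ?_
  rw [abs_mul, abs_mul, abs_mul, abs_mul, abs_of_pos (inv_pos.2 h1), abs_of_pos (inv_pos.2 h2)]
  gcongr

theorem nt_lip {y r y' r' : ℝ} (hy : y ∈ Icc (0 : ℝ) (1 / 2)) (hr : r ∈ Icc (0 : ℝ) 1)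
    (hy' : y' ∈ Icc (0 : ℝ) (1 / 2)) (hr' : r' ∈ Icc (0 : ℝ) 1) :
    |ntM y' r' - ntM y r| ≤ 2 * |y' - y| + |r' - r| ∧
      |ntS y' r' - ntS y r| ≤ 200 * (|y' - y| + |r' - r|) := by
  rw [ntM_eq hr, ntS_eq hr, ntM_eq hr', ntS_eq hr']
  obtain ⟨r0, r1⟩ := hr
  obtain ⟨y0, y1⟩ := hy
  obtain ⟨r0', r1'⟩ := hr'
  have a1 := abs_nonneg (y' - y)
  have a2 := abs_nonneg (r' - r)
  have b1 := abs_le.1 (le_refl |y' - y|)
  have b2 := abs_le.1 (le_refl |r' - r|)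
  refine ⟨(abs_max_sub_max_le_max _ _ _ _).trans (max_le ?_ ?_),
    (abs_min_sub_min_le_max _ _ _ _).trans (max_le (by linarith only [a1, a2]) ?_)⟩
  · refine (nt_div (e := 1 / 2) (by norm_num) (by linarith only [r1]) (by linarith only [r1'])).trans ?_
    have k1 : |1 - r' / 2 - (1 - r / 2)| ≤ |r' - r| / 2 := abs_le.2 ⟨by linarith only [b2], by linarith only [b2]⟩
    have k2 := mul_le_mul y1 k1 (abs_nonneg _) (by norm_num)
    rw [abs_of_nonneg y0]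
    norm_num at k2 ⊢
    linarith only [k2]
  · exact abs_le.2 ⟨by linarith only [a2, b1, b2], by linarith only [a2, b1, b2]⟩
  · refine (nt_div (e := 1 / 8) (by norm_num) (le_max_right _ _) (le_max_right _ _)).trans ?_
    have k0 : |1 - 2 * y' - (1 - 2 * y)| ≤ 2 * |y' - y| := abs_le.2 ⟨by linarith only [b1], by linarith only [b1]⟩
    have k1 : |max (1 - 2 * y' + (1 - r') / 2) (1 / 8) - max (1 - 2 * y + (1 - r) / 2) (1 / 8)| ≤
        2 * |y' - y| + |r' - r| / 2 :=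
      (abs_max_sub_max_le_abs _ _ _).trans (abs_le.2 ⟨by linarith only [b1, b2], by linarith only [b1, b2]⟩)
    have k2 := mul_le_mul (show |1 - 2 * y| ≤ 1 from abs_le.2 ⟨by linarith only [y1], by linarith only [y0]⟩) k1
      (abs_nonneg _) zero_le_one
    rw [show (1 / 8 : ℝ)⁻¹ = 8 by norm_num]
    linarith only [a1, a2, k0, k2]

theorem nt_ends {y r : ℝ} (hy : y ∈ Icc (0 : ℝ) (1 / 2)) (hr : r ∈ Icc (0 : ℝ) 1) :
    ntM y 0 = y ∧ ntS y 0 = 0 ∧ ntM y 1 = 2 * y ∧ (2 * y ≤ 7 / 8 → ntS y 1 = 1) ∧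
      ntM 0 r = 0 ∧ ntS 0 r = r ∧ ntM (1 / 2) r = (1 + r) / 2 ∧ ntS (1 / 2) r = 0 := by
  obtain ⟨r0, r1⟩ := hr
  obtain ⟨y0, y1⟩ := hy
  have e1 : ntM y 1 = 2 * y := by
    unfold ntM
    split_ifs <;> ring
  have k0 : y ≤ 1 / 2 - 0 / 4 := by linarith only [y1]
  have k1 : 0 ≤ 1 / 2 - r / 4 := by linarith only [r1]
  refine ⟨by rw [ntM, if_pos k0]; ring, if_pos k0, e1, fun h => ?_,
    by rw [ntM, if_pos k1, zero_div], if_pos k1, ?_, ?_⟩
  · rw [ntS, e1, max_eq_left (by linarith only [h]), div_self (by linarith only [h]), ite_self]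
  · unfold ntM
    split_ifs with h
    · rw [show r = 0 by linarith only [r0, h]]; ring
    · ring
  · unfold ntS
    split_ifs with h
    · linarith only [r0, h]
    · rw [show (1 - 2 * (1 / 2) : ℝ) = 0 by ring, zero_div]

theorem nt_half {y r : ℝ} (hr : r ∈ Icc (0 : ℝ) 1) : ntM y r ≤ 1 / 2 ↔ y ≤ 1 / 2 - r / 4 := by
  have h0 : 0 < 1 - r / 2 := by linarith only [hr.2]
  unfold ntM
  split_ifs with h
  · exact iff_of_true ((div_le_iff₀ h0).2 (by linarith only [h])) h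
  · exact iff_of_false (fun k => h (by linarith only [h, k])) h

theorem nt_inj {y r y' r' : ℝ} (hy : y ∈ Icc (0 : ℝ) (1 / 2)) (hr : r ∈ Icc (0 : ℝ) 1)
    (hy' : y' ∈ Icc (0 : ℝ) (1 / 2)) (hr' : r' ∈ Icc (0 : ℝ) 1) (hm : ntM y r ≤ 7 / 8)
    (e1 : ntM y' r' = ntM y r) (e2 : ntS y' r' = ntS y r) : y' = y ∧ r' = r := by
  have k := (nt_half hr').symm.trans (e1 ▸ nt_half hr)
  rw [ntS, ntS, e1, max_eq_left (by linarith only [hm])] at e2
  have h0 : 1 - ntM y r ≠ 0 := by linarith only [hm]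
  unfold ntM at e1
  by_cases h : y ≤ 1 / 2 - r / 4
  · rw [if_pos h, if_pos (k.2 h)] at e1 e2
    rw [e2] at e1
    exact ⟨(div_left_inj' (by linarith only [hr.2])).1 e1, e2⟩
  · rw [if_neg h, if_neg (mt k.1 h)] at e1 e2
    have := (div_left_inj' h0).1 e2
    exact ⟨by linarith only [this], by linarith only [e1, this]⟩

/-- The explicit inverse of the notch coordinates. -/
theorem nt_inv {y r : ℝ} (hr : r ∈ Icc (0 : ℝ) 1) (hm : ntM y r ≤ 7 / 8) :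
    y = min (ntM y r) (1 / 2) - ntS y r * min (ntM y r) (1 - ntM y r) / 2 ∧
      r = ntS y r + max 0 (2 * ntM y r - 1) * (1 - ntS y r) := by
  have k := nt_half (y := y) hr
  by_cases h : y ≤ 1 / 2 - r / 4
  · have k1 := k.2 h
    have h0 : 1 - r / 2 ≠ 0 := by linarith only [hr.2]
    rw [min_eq_left k1, min_eq_left (by linarith only [k1]), max_eq_left (by linarith only [k1]),
      ntS, if_pos h, ntM, if_pos h]
    have e := div_mul_cancel₀ y h0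
    exact ⟨by linarith only [e], by ring⟩
  · have k1 := (not_le.1 (mt k.1 h)).le
    have h0 : 1 - ntM y r ≠ 0 := by linarith only [hm]
    have e1 : ntS y r * (1 - ntM y r) = 1 - 2 * y := by
      rw [ntS, if_neg h, max_eq_left (by linarith only [hm]), div_mul_cancel₀ _ h0]
    have e2 : ntM y r = 2 * y - (1 - r) / 2 := if_neg h
    rw [min_eq_right k1, min_eq_right (by linarith only [k1]), max_eq_right (by linarith only [k1])]
    exact ⟨by linarith only [e1], by linarith only [e1, e2]⟩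

theorem nt_dm {α γ : Type} [TopologicalSpace α] [PseudoMetricSpace γ] {R : Set α} {P : α → Prop}
    {G : α → γ} {z : α} {s m : α → ℝ} (hs : Dm R P s G z) (hm : Dm R P m G z)
    (cs : ContinuousWithinAt s R z) (cm : ContinuousWithinAt m R z) :
    Dm R P (fun w => min (m w) (1 / 2) - s w * min (m w) (1 - m w) / 2) G z ∧
      Dm R P (fun w => s w + max 0 (2 * m w - 1) * (1 - s w)) G z :=
  ⟨(hm.min (Dm.const _)).sub ((hs.mul (hm.min ((Dm.const _).sub hm)) cs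
      (cm.min (continuousWithinAt_const.sub cm))).divc 2),
    hs.add (((Dm.const _).max ((hm.cmul 2).sub (Dm.const _))).mul ((Dm.const _).sub hs)
      (continuousWithinAt_const.max ((continuousWithinAt_const.mul cm).sub continuousWithinAt_const))
      (continuousWithinAt_const.sub cs))⟩

theorem nt_surj {m s : ℝ} (hm : m ∈ Icc (0 : ℝ) (7 / 8)) (hs : s ∈ Icc (0 : ℝ) 1) :
    ∃ y ∈ Icc (0 : ℝ) (1 / 2), ∃ r ∈ Icc (0 : ℝ) 1, ntM y r = m ∧ ntS y r = s := by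
  obtain ⟨m0, m1⟩ := hm
  obtain ⟨s0, s1⟩ := hs
  rcases le_or_gt m (1 / 2) with h | h
  · have h0 : 0 < 1 - s / 2 := by linarith only [s1]
    have k : m * (1 - s / 2) ≤ 1 / 2 - s / 4 := by nlinarith only [h, s1]
    exact ⟨m * (1 - s / 2), ⟨by positivity, by linarith only [s0, k]⟩, s, ⟨s0, s1⟩,
      by rw [ntM, if_pos k, mul_div_cancel_right₀ _ h0.ne'], if_pos k⟩
  · have u0 : 0 ≤ s * (1 - m) := mul_nonneg s0 (by linarith only [m1, h])
    have u1 : s * (1 - m) ≤ 1 - m := mul_le_of_le_one_left (by linarith only [m1, h]) s1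
    have k : ¬ (1 - s * (1 - m)) / 2 ≤ 1 / 2 - (2 * m - 1 + 2 * (s * (1 - m))) / 4 :=
      not_le.2 (by linarith only [h])
    have e : ntM ((1 - s * (1 - m)) / 2) (2 * m - 1 + 2 * (s * (1 - m))) = m := by
      rw [ntM, if_neg k]; ring
    refine ⟨(1 - s * (1 - m)) / 2, ⟨by linarith only [m1, h, u1], by linarith only [u0]⟩, 2 * m - 1 + 2 * (s * (1 - m)),
      ⟨by linarith only [h, u0], by linarith only [u1]⟩, e, ?_⟩
    rw [ntS, if_neg k, e, max_eq_left (by linarith only [m1]), div_eq_iff (by linarith only [m1, h])]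
    ring

end Pool.Agent.Lib.MP_ecd4e3_gt.NB
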