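import Pool.Agent.Lib.MP_ecd4e3_gt.NB.Chart
import Pool.Agent.Lib.MP_ecd4e3_gt.NB.Shell

/-! Construction of shells. -/

namespace Pool.Agent.Lib.MP_ecd4e3_gt.NB

open Set Filter Topology Metric MeasureTheory
open scoped NNReal ENNReal

namespace SDm

/-- The exit time of a monotone family of inequalities. -/
theorem exists_nu {κ X : Type} [Finite κ] [MetricSpace X] {A : Set X} {F : κ → ℝ → X → ℝ}
    {Λ : ℝ} (hΛ : 0 ≤ Λ) (a : κ → ℝ) (ha : ∀ k, 0 < a k)
    (hc : ∀ k, ∀ z ∈ A, ContinuousOn (fun r => F k r z) (Icc 0 1))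
    (hd : ∀ k, ∀ z ∈ A, ∀ r r', 0 ≤ r → r ≤ r' → r' ≤ 1 → (∀ k', 0 ≤ F k' r' z) →
      F k r' z + a k * (r' - r) ≤ F k r z)
    (hl : ∀ k, ∀ r ∈ Icc (0 : ℝ) 1, ∀ z ∈ A, ∀ z' ∈ A,
      F k r z - F k r z' ≤ a k * (Λ * dist z z'))
    (h0 : ∀ k, ∀ z ∈ A, 0 ≤ F k 0 z) :
    ∃ ν : X → ℝ, (∀ z ∈ A, ν z ∈ Icc (0 : ℝ) 1) ∧
      (∀ z ∈ A, ∀ r ∈ Icc (0 : ℝ) 1, (∀ k, 0 ≤ F k r z) ↔ r ≤ ν z) ∧
      (∀ z ∈ A, ν z < 1 → ∃ k, F k (ν z) z = 0) ∧
      (∀ r ∈ Icc (0 : ℝ) 1, ∀ z ∈ A, (∀ k, 0 ≤ F k r z) → (∃ k, F k r z = 0) → ν z = r) ∧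
      ∀ z ∈ A, ∀ z' ∈ A, |ν z - ν z'| ≤ Λ * dist z z' := by
  have key : ∀ z, ∃ n : ℝ, z ∈ A → n ∈ Icc (0 : ℝ) 1 ∧ (∀ k, 0 ≤ F k n z) ∧
      ∀ r ∈ Icc (0 : ℝ) 1, (∀ k, 0 ≤ F k r z) → r ≤ n := by
    intro z
    by_cases hz : z ∈ A
    · have hcl : IsClosed (⋂ k, Icc (0 : ℝ) 1 ∩ (fun r => F k r z) ⁻¹' Ici 0) :=
        isClosed_iInter fun k => (hc k z hz).preimage_isClosed_of_isClosed isClosed_Icc isClosed_Ici
      obtain ⟨n, hn, hn'⟩ := (isCompact_Icc.inter_right hcl).exists_isGreatest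
        ⟨0, ⟨le_rfl, zero_le_one⟩, mem_iInter.2 fun k => ⟨⟨le_rfl, zero_le_one⟩, h0 k z hz⟩⟩
      exact ⟨n, fun _ => ⟨hn.1, fun k => (mem_iInter.1 hn.2 k).2, fun r hr h =>
        hn' ⟨hr, mem_iInter.2 fun k => ⟨hr, h k⟩⟩⟩⟩
    · exact ⟨0, fun h => absurd h hz⟩
  choose ν hν using key
  have hb : ∀ z ∈ A, ν z < 1 → ∃ k, F k (ν z) z = 0 := by
    intro z hz h1
    obtain ⟨m, p, g⟩ := hν z hz
    by_contra h
    push Not at h
    have h2 : ∀ᶠ r in 𝓝[Icc (0 : ℝ) 1] (ν z), ∀ k, 0 < F k r z :=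
      eventually_all.2 fun k => (hc k z hz _ m).eventually
        (lt_mem_nhds (lt_of_le_of_ne (p k) (h k).symm))
    have h3 : ∀ᶠ r in 𝓝[Ioo (ν z) 1] (ν z), ∀ k, 0 < F k r z :=
      h2.filter_mono (nhdsWithin_mono _ fun r hr => mem_Icc.2 ⟨m.1.trans hr.1.le, hr.2.le⟩)
    have := left_nhdsWithin_Ioo_neBot h1
    obtain ⟨r, hr, hr'⟩ := (h3.and self_mem_nhdsWithin).exists
    exact absurd (g r ⟨m.1.trans hr'.1.le, hr'.2.le⟩ fun k => (hr k).le) (not_le.2 hr'.1)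
  have hlip : ∀ z ∈ A, ∀ z' ∈ A, ν z - ν z' ≤ Λ * dist z z' := by
    intro z hz z' hz'
    obtain ⟨m, p, -⟩ := hν z hz
    obtain ⟨m', -, -⟩ := hν z' hz'
    rcases le_or_gt (ν z) (ν z') with h | h
    · exact (sub_nonpos.2 h).trans (mul_nonneg hΛ dist_nonneg)
    · obtain ⟨k, hk⟩ := hb z' hz' (h.trans_le m.2)
      have h1 := hd k z hz _ _ m'.1 h.le m.2 p
      have h2 := hl k _ m' z hz z' hz'
      have h3 := p k
      exact le_of_mul_le_mul_left (by linarith only [hk, h1, h2, h3]) (ha k)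
  refine ⟨ν, fun z hz => (hν z hz).1, fun z hz r hr => ⟨(hν z hz).2.2 r hr, fun h k => ?_⟩, hb,
    fun r hr z hz h ⟨k, hk⟩ => ?_, fun z hz z' hz' => abs_sub_le_iff.2 ⟨hlip z hz z' hz', ?_⟩⟩
  · obtain ⟨m, p, -⟩ := hν z hz
    have h1 := hd k z hz _ _ hr.1 h m.2 p
    have h2 := mul_nonneg (ha k).le (sub_nonneg.2 h)
    linarith only [p k, h1, h2]
  · obtain ⟨m, p, g⟩ := hν z hz
    have h1 := hd k z hz _ _ hr.1 (g r hr h) m.2 p
    have h2 : a k * (ν z - r) ≤ a k * 0 := by linarith only [p k, hk, h1]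
    exact le_antisymm (sub_nonpos.1 (le_of_mul_le_mul_left h2 (ha k))) (g r hr h)
  · rw [dist_comm]
    exact hlip z' hz' z hz

variable {ι : Type} [Fintype ι] [DecidableEq ι] [Nonempty ι] {f : ℝ}

/-- A shell from a monotone family of graph boxes. -/
theorem sd_of_gb {G : ℝ → GB ι} {Yc : ℝ → E ι → E ι} {LY LT Λ Sz : ℝ} (pY : 0 ≤ LY) (pT : 0 ≤ LT)
    (pΛ : 0 ≤ Λ) (pS : 0 ≤ Sz) (hv : ∀ r ∈ Icc (0 : ℝ) 1, (G r).Valid f) (a : ι → ℝ)
    (ha : ∀ i, 0 < a i) (hΛ : ∀ i, 1 + eps ι f ≤ a i * Λ)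
    (sub : ∀ r ∈ Icc (0 : ℝ) 1, (G r).set ⊆ (G 0).set)
    (hc : ∀ i, ∀ z ∈ (G 0).set, ContinuousOn (fun r => (G r).lo i z) (Icc 0 1) ∧
      ContinuousOn (fun r => (G r).hi i z) (Icc 0 1))
    (hd : ∀ i, ∀ z ∈ (G 0).set, ∀ r r', 0 ≤ r → r ≤ r' → r' ≤ 1 → z ∈ (G r').set →
      (G r).lo i z + a i * (r' - r) ≤ (G r').lo i z ∧
        (G r').hi i z + a i * (r' - r) ≤ (G r).hi i z)
    (bij : ∀ r ∈ Icc (0 : ℝ) 1, BijOn (Yc r) (G r).set (closedBall 0 1))
    (hn : ∀ r ∈ Icc (0 : ℝ) 1, ∀ z ∈ (G r).set, ‖Yc r z‖ = 1 ↔ z ∈ (G r).bd)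
    (lipY : ∀ r ∈ Icc (0 : ℝ) 1, ∀ r' ∈ Icc (0 : ℝ) 1, ∀ z ∈ (G r).set, ∀ z' ∈ (G r').set,
      dist (Yc r z) (Yc r' z') ≤ LY * dist z z' + LT * |r - r'|)
    (lipI : ∀ r ∈ Icc (0 : ℝ) 1, ∀ r' ∈ Icc (0 : ℝ) 1, ∀ z ∈ (G r).set, ∀ z' ∈ (G r').set,
      dist z z' ≤ Sz * (dist (Yc r z) (Yc r' z') + LT * |r - r'|)) :
    ∃ ν, SD (fun r => (G r).set) Yc ν LY LT Λ Sz := by
  let F : ι ⊕ ι → ℝ → E ι → ℝ :=
    Sum.elim (fun i r z => z i - (G r).lo i z) fun i r z => (G r).hi i z - z i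
  have hm : ∀ r z, (∀ k, 0 ≤ F k r z) ↔ z ∈ (G r).set := fun r z => by
    simp only [F, Sum.forall, Sum.elim_inl, Sum.elim_inr, sub_nonneg, GB.set, mem_ofPred_eq,
      forall_and]
  have hz : ∀ r ∈ Icc (0 : ℝ) 1, ∀ z ∈ (G r).set, (∃ k, F k r z = 0) ↔ ‖Yc r z‖ = 1 :=
    fun r hr z hz => by
      rw [hn r hr z hz, (hv r hr).mem_bd hz]
      simp only [F, Sum.exists, Sum.elim_inl, Sum.elim_inr, sub_eq_zero, exists_or]
      exact or_congr_right (exists_congr fun _ => eq_comm)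
  obtain ⟨ν, h1, h2, h3, h4, h5⟩ := exists_nu (A := (G 0).set) (F := F) pΛ (Sum.elim a a)
    (by rintro (i | i) <;> exact ha i)
    (by
      rintro (i | i) z hz
      · exact continuousOn_const.sub (hc i z hz).1
      · exact (hc i z hz).2.sub continuousOn_const)
    (by
      rintro (i | i) z hz r r' p1 p2 p3 p4 <;> have := hd i z hz r r' p1 p2 p3 ((hm _ _).1 p4) <;>
        simp only [F, Sum.elim_inl, Sum.elim_inr] <;> linarith only [this.1, this.2, this])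
    (by
      rintro (i | i) r hr z - z' - <;>
        have a1 := abs_le.1 ((hv r hr).ll i z z') <;>
        have a2 := abs_le.1 ((hv r hr).lh i z z') <;>
        have a3 := abs_le.1 (dist_le_pi_dist z z' i) <;>
        have a4 := mul_le_mul_of_nonneg_right (hΛ i) (dist_nonneg (x := z) (y := z')) <;>
        simp only [F, Sum.elim_inl, Sum.elim_inr] <;> linarith only [a1.1, a1.2, a2.1, a2.2, a3.1, a3.2, a1, a3, a4, a2])
    fun k z hz => (hm 0 z).2 hz k
  refine ⟨ν, pY, pT, pΛ, pS, bij, fun r hr => (hv r hr).isClosed, sub, h1,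
    fun z hz r hr => (hm r z).symm.trans (h2 z hz r hr), fun z hz' h => ?_,
    fun r hr z hz' h => h4 r hr z (sub r hr hz') ((hm r z).2 hz') ((hz r hr z hz').2 h), h5,
    lipY, lipI⟩
  exact (hz _ (h1 z hz') z ((hm _ z).1 ((h2 z hz' _ (h1 z hz')).2 le_rfl))).1 (h3 z hz' h)

omit [DecidableEq ι] [Nonempty ι] in
theorem cont_of {g : E ι → ℝ} {c : ℝ} (h : ∀ z z', |g z - g z'| ≤ c * dist z z') :
    Continuous g := (LipschitzWith.of_dist_le' (K := c) h).continuous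

theorem eps_le (hf : 0 < f) (hf' : f ≤ 1 / 16) : eps ι f ≤ 1 / 10 ^ 4 := by
  obtain ⟨h1, -, -, -, -, h2, h3, h4, -⟩ := consts (ι := ι) hf hf'
  nlinarith only [hf', h4, hf, h1, h2, h3]

theorem eps_wmax (hf : 0 < f) (hf' : f ≤ 1 / 16) {R : GB ι} (hR : R.Valid f) :
    eps ι f * R.wmax ≤ R.wmin / 10 ^ 4 := by
  obtain ⟨h1, -, -, -, -, -, -, h4, -⟩ := consts (ι := ι) hf hf'
  have a1 := mul_le_mul_of_nonneg_left hR.wmax_le h1.le
  have a2 : eps ι f * Mx f ≤ 1 / 10 ^ 4 := by nlinarith only [hf, hf', h4]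
  have a3 := mul_le_mul_of_nonneg_right a2 hR.wmin_pos.le
  linarith only [a1, a3]

theorem abs_o (hf : 0 < f) (hf' : f ≤ 1 / 16) {R : GB ι} (hR : R.Valid f) {z : E ι}
    (hz : z ∈ R.set) (i : ι) : |z i - R.o i| ≤ R.w i := by
  have h1 := hR.outer hf hf' hz i
  have h2 := mul_le_mul_of_nonneg_right (consts (ι := ι) hf hf').2.2.1 (hR.pos i).le
  have h3 := hR.pos i
  linarith only [h1, h2, h3]

theorem wmax_pos {R : GB ι} (hR : R.Valid f) : 0 < R.wmax := by
  obtain ⟨i, hi⟩ := R.exists_wmax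
  exact hi ▸ hR.pos i

theorem dist_o (hf : 0 < f) (hf' : f ≤ 1 / 16) {R : GB ι} (hR : R.Valid f) {z : E ι}
    (hz : z ∈ R.set) : dist z R.o ≤ R.wmax :=
  (dist_pi_le_iff (wmax_pos hR).le).2 fun i => (abs_o hf hf' hR hz i).trans (R.le_wmax i)

/-- The graphs at a point of the region are close to their values at the centre. -/
theorem near_o (hf : 0 < f) (hf' : f ≤ 1 / 16) {R : GB ι} (hR : R.Valid f) {z : E ι} {c : ℝ}
    (hz : dist z R.o ≤ c * R.wmax) (i : ι) :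
    R.lo i z + R.w i / 2 ≤ R.o i + c * (eps ι f * R.wmax) ∧
      R.o i + R.w i / 2 ≤ R.hi i z + c * (eps ι f * R.wmax) ∧
      R.o i ≤ R.lo i z + 3 / 5 * R.w i + c * (eps ι f * R.wmax) ∧
      R.hi i z ≤ R.o i + 3 / 5 * R.w i + c * (eps ι f * R.wmax) := by
  obtain ⟨h1, -, h2, -⟩ := consts (ι := ι) hf hf'
  have a1 := abs_le.1 (hR.ll i z R.o)
  have a2 := abs_le.1 (hR.lh i z R.o)
  have a3 := mul_le_mul_of_nonneg_left hz h1.le
  have a4 := hR.wd _ hR.om i
  have a5 := hR.ctr i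
  have a6 := mul_le_mul_of_nonneg_right h2 (hR.pos i).le
  have a7 := hR.pos i
  refine ⟨?_, ?_, ?_, ?_⟩ <;> linarith only [a1.1, a1.2, a2.1, a2.2, a4.1, a4.2, a1, a3, a4, a5, a2, a6, a7]

omit [Fintype ι] [DecidableEq ι] [Nonempty ι] in
theorem hom_lo (R : GB ι) {t : ℝ} (ht : t ≠ 0) (i : ι) (z : E ι) :
    (R.hom t).lo i z = t * R.lo i (R.o + t⁻¹ • (z - R.o)) + (1 - t) * R.o i ∧
      (R.hom t).hi i z = t * R.hi i (R.o + t⁻¹ • (z - R.o)) + (1 - t) * R.o i := by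
  have : R.o + t⁻¹ • (z - R.o) = t⁻¹ • (z - (1 - t) • R.o) := by
    ext j
    simp only [Pi.add_apply, Pi.smul_apply, Pi.sub_apply, smul_eq_mul]
    field_simp
    ring
  rw [this]
  exact ⟨rfl, rfl⟩

theorem hom_slope (hf : 0 < f) (hf' : f ≤ 1 / 16) {R : GB ι} (hR : R.Valid f) {t t' : ℝ}
    (ht' : 0 < t') (h : t' ≤ t) {z : E ι} (hz : z ∈ (R.hom t').set) (i : ι) :
    (R.hom t).lo i z + R.w i / 3 * (t - t') ≤ (R.hom t').lo i z ∧
      (R.hom t').hi i z + R.w i / 3 * (t - t') ≤ (R.hom t).hi i z := by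
  have ht := ht'.trans_le h
  have he := (consts (ι := ι) hf hf').1
  rw [(hom_lo R ht.ne' i z).1, (hom_lo R ht.ne' i z).2, (hom_lo R ht'.ne' i z).1,
    (hom_lo R ht'.ne' i z).2]
  rw [R.hom_mem ht'] at hz
  have h1 : t * dist (R.o + t⁻¹ • (z - R.o)) (R.o + t'⁻¹ • (z - R.o)) =
      (t - t') * dist (R.o + t'⁻¹ • (z - R.o)) R.o := by
    rw [dist_add_left, dist_self_add_left, dist_eq_norm, ← sub_smul, norm_smul, norm_smul,
      ← mul_assoc, ← mul_assoc, Real.norm_of_nonpos (sub_nonpos.2 (inv_anti₀ ht' h)),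
      Real.norm_of_nonneg (inv_nonneg.2 ht'.le)]
    congr 1
    field_simp
    ring
  generalize R.o + t⁻¹ • (z - R.o) = p at *
  generalize R.o + t'⁻¹ • (z - R.o) = p' at *
  have h2 := dist_o hf hf' hR hz
  obtain ⟨b1, b2, -⟩ := near_o hf hf' hR (c := 1) (by rwa [one_mul]) i
  have b3 := eps_wmax hf hf' hR
  have b4 := R.wmin_le i
  have b5 := hR.pos i
  have a1 := abs_le.1 (hR.ll i p p')
  have a2 := abs_le.1 (hR.lh i p p')
  have c1 := mul_le_mul_of_nonneg_left a1.2 ht.le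
  have c2 := mul_le_mul_of_nonneg_left a2.1 ht.le
  have c3 : t * (eps ι f * dist p p') ≤ (t - t') * (eps ι f * R.wmax) := by
    rw [mul_left_comm, h1, mul_left_comm (t - t')]
    exact mul_le_mul_of_nonneg_left (mul_le_mul_of_nonneg_left h2 (sub_nonneg.2 h)) he.le
  have c4 : (t - t') * (R.w i / 3 + eps ι f * R.wmax) ≤ (t - t') * (R.o i - R.lo i p') :=
    mul_le_mul_of_nonneg_left (by linarith only [b1, b3, b4, b5]) (sub_nonneg.2 h)
  have c5 : (t - t') * (R.w i / 3 + eps ι f * R.wmax) ≤ (t - t') * (R.hi i p' - R.o i) :=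
    mul_le_mul_of_nonneg_left (by linarith only [b2, b3, b4, b5]) (sub_nonneg.2 h)
  constructor <;> linarith only [c1, c3, c4, c2, c5]

theorem half_le (hf : 0 < f) (hf' : f ≤ 1 / 16) {R : GB ι} (hR : R.Valid f) {L : ℝ}
    {Y : E ι → E ι} (h : R.Ch L Y) : 1 / 2 ≤ L := by
  obtain ⟨i⟩ := ‹Nonempty ι›
  have h1 := (consts (ι := ι) hf hf').2.2.1
  have e : ∀ j, |(R.o j + R.w j / 4) - R.o j| = R.w j / 4 := fun j => by
    rw [add_sub_cancel_left, abs_of_pos (by linarith only [hR.pos j])]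
  have hz : (fun j => R.o j + R.w j / 4) ∈ R.set := hR.inner hf hf' fun j => by
    rw [e]
    nlinarith only [hR.pos j, hf, hf', h1]
  have a1 := h.lip _ hz _ hR.om (1 / 4) (fun j => by rw [e]; linarith only []) i
  have a2 := h.dom _ hz _ hR.om i fun j => by rw [e]; linarith only []
  have a3 : (R.o i + R.w i / 4 - R.o i) / (2 * R.w i) = 1 / 8 := by
    have := hR.pos i
    field_simp
    ring
  rw [a3] at a2
  linarith only [le_abs_self (Y (fun j => R.o j + R.w j / 4) i - Y R.o i), a1, a2]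

omit [DecidableEq ι] [Nonempty ι] in
theorem dist_mix (x y : E ι) (r r' : ℝ) :
    dist ((1 - r) • x + r • y) ((1 - r') • x + r' • y) = |r - r'| * dist x y := by
  rw [dist_comm x y, dist_eq_norm, dist_eq_norm, ← Real.norm_eq_abs, ← norm_smul]
  congr 1
  module

end SDm

variable {ι : Type} [Fintype ι] [DecidableEq ι] [Nonempty ι] {f : ℝ}

/-- The homothetic shell, with a change of chart and a rotation. -/
theorem sd_hom (hf : 0 < f) (hf' : f ≤ 1 / 16) {R : GB ι} (hR : R.Valid f) {L : ℝ} (hL : 0 ≤ L)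
    {Y0 Y1 : E ι → E ι} (h0 : R.Ch L Y0) (h1 : R.Ch L Y1) {l : ℝ} (hl0 : 0 ≤ l)
    (hl : ∀ z ∈ R.set, dist (Y0 z) (Y1 z) ≤ l) {O : ℝ → E ι → E ι} {K1 K2 : ℝ} (hO : Mv O K1 K2)
    {s : ℝ} (hs : 0 < s) (hs' : s < 1) :
    ∃ Rr Yc ν, SD Rr Yc ν (K1 * L / (s * R.wmin)) (K1 * (L * (1 - s) / s + l) + K2)
        (4 / ((1 - s) * R.wmin)) (2 * K1 * R.wmax) ∧ Rr 0 = R.set ∧ Rr 1 = (R.hom s).set ∧
      (∀ z, Yc 0 z = Y0 z) ∧ ∀ z, Yc 1 z = O 1 (Y1 (R.o + s⁻¹ • (z - R.o))) := by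
  obtain ⟨t, ht⟩ : ∃ t : ℝ → ℝ, t = fun r => 1 - r * (1 - s) := ⟨_, rfl⟩
  have u : 0 < 1 - s := sub_pos.2 hs'
  have t0 : t 0 = 1 := by simp [ht]
  have t1 : t 1 = s := by simp [ht]
  have td : ∀ r r', t r - t r' = (1 - s) * (r' - r) := fun r r' => by
    simp only [ht]
    ring
  have tb : ∀ r ∈ Icc (0 : ℝ) 1, s ≤ t r ∧ t r ≤ 1 := fun r hr => by
    have a1 := td r 1
    have a2 := td 0 r
    have a3 := mul_nonneg u.le (sub_nonneg.2 hr.2)
    have a4 := mul_nonneg u.le (sub_nonneg.2 hr.1)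
    constructor <;> linarith only [t1, a1, a3, a4]
  have tp : ∀ r ∈ Icc (0 : ℝ) 1, 0 < t r := fun r hr => hs.trans_le (tb r hr).1
  have tc : Continuous t := by
    rw [ht]
    fun_prop
  have ta : ∀ r r', |t r - t r'| = (1 - s) * |r - r'| := fun r r' => by
    rw [td, abs_mul, abs_of_pos u, abs_sub_comm]
  obtain ⟨p, hp⟩ : ∃ p : ℝ → E ι → E ι, p = fun r z => R.o + (t r)⁻¹ • (z - R.o) := ⟨_, rfl⟩
  have pm : ∀ r ∈ Icc (0 : ℝ) 1, ∀ z, z ∈ (R.hom (t r)).set ↔ p r z ∈ R.set := fun r hr z => by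
    rw [hp]
    exact R.hom_mem (tp r hr) z
  have pe : ∀ r ∈ Icc (0 : ℝ) 1, ∀ z j, z j = R.o j + t r * (p r z j - R.o j) := fun r hr z j => by
    have := (tp r hr).ne'
    simp only [hp, Pi.add_apply, Pi.smul_apply, Pi.sub_apply, smul_eq_mul]
    field_simp
    ring
  obtain ⟨Y, hY⟩ : ∃ Y : ℝ → E ι → E ι, Y = fun r a => (1 - r) • Y0 a + r • Y1 a := ⟨_, rfl⟩
  have Yc : ∀ r ∈ Icc (0 : ℝ) 1, R.Ch L (Y r) := fun r hr => by
    rw [hY]
    exact h0.convex h1 hr
  have Ym : ∀ r ∈ Icc (0 : ℝ) 1, ∀ a ∈ R.set, Y r a ∈ closedBall (0 : E ι) 1 :=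
    fun r hr a ha => ((Yc r hr).bij hf hf' hR).mapsTo ha
  have Yd : ∀ r r', ∀ a ∈ R.set, dist (Y r a) (Y r' a) ≤ l * |r - r'| := fun r r' a ha => by
    simp only [hY]
    rw [SDm.dist_mix, mul_comm]
    exact mul_le_mul_of_nonneg_right (hl a ha) (abs_nonneg _)
  have wp := hR.wmin_pos
  have Wp := SDm.wmax_pos hR
  have k1 := hO.p1
  have k2 := hO.p2
  have hv : ∀ r ∈ Icc (0 : ℝ) 1, (R.hom (t r)).Valid f := fun r hr => hR.map (tp r hr) _
  have sl : ∀ i z r r', 0 ≤ r → r ≤ r' → r' ≤ 1 → z ∈ (R.hom (t r')).set →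
      (R.hom (t r)).lo i z + (1 - s) * R.w i / 3 * (r' - r) ≤ (R.hom (t r')).lo i z ∧
        (R.hom (t r')).hi i z + (1 - s) * R.w i / 3 * (r' - r) ≤ (R.hom (t r)).hi i z := by
    intro i z r r' a1 a2 a3 hz
    have a4 := mul_nonneg u.le (sub_nonneg.2 a2)
    have := SDm.hom_slope hf hf' hR (t := t r) (tp r' ⟨a1.trans a2, a3⟩)
      (by linarith only [td r r', a4]) hz i
    rw [td] at this
    constructor <;> linarith only [this.1, this.2, this]
  obtain ⟨ν, hν⟩ := SDm.sd_of_gb (G := fun r => R.hom (t r)) (Yc := fun r z => O r (Y r (p r z)))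
    (LY := K1 * L / (s * R.wmin)) (LT := K1 * (L * (1 - s) / s + l) + K2)
    (Λ := 4 / ((1 - s) * R.wmin)) (Sz := 2 * K1 * R.wmax) (by positivity) (by positivity)
    (by positivity) (by positivity) hv (fun i => (1 - s) * R.w i / 3)
    (fun i => by have := hR.pos i; positivity)
    (fun i => by
      have a1 := SDm.eps_le (ι := ι) hf hf'
      have a2 : 1 ≤ R.w i / R.wmin := (one_le_div wp).2 (R.wmin_le i)
      have a3 : (1 - s) * R.w i / 3 * (4 / ((1 - s) * R.wmin)) = 4 / 3 * (R.w i / R.wmin) := by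
        field_simp
      rw [a3]
      linarith only [hf, hf', a1, a2])
    (fun r hr z hz i => by
      obtain ⟨a1, a2⟩ := sl i z 0 r le_rfl hr.1 hr.2 hz
      have a3 : 0 ≤ (1 - s) * R.w i / 3 * (r - 0) :=
        mul_nonneg (by have := hR.pos i; positivity) (sub_nonneg.2 hr.1)
      exact ⟨by linarith only [(hz i).1, a1, a3], by linarith only [(hz i).2, a2, a3]⟩)
    (fun i z _ => by
      have a1 : ContinuousOn (fun r => R.o + (t r)⁻¹ • (z - R.o)) (Icc 0 1) :=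
        continuousOn_const.add ((tc.continuousOn.inv₀ fun r hr => (tp r hr).ne').smul
          continuousOn_const)
      have a2 : ContinuousOn (fun r => (1 - t r) * R.o i) (Icc 0 1) := by fun_prop
      exact ⟨((tc.continuousOn.mul ((SDm.cont_of (hR.ll i)).comp_continuousOn a1)).add a2).congr
        fun r hr => (SDm.hom_lo R (tp r hr).ne' i z).1,
        ((tc.continuousOn.mul ((SDm.cont_of (hR.lh i)).comp_continuousOn a1)).add a2).congr
        fun r hr => (SDm.hom_lo R (tp r hr).ne' i z).2⟩)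
    (fun i z _ => sl i z)
    (fun r hr => by
      refine (hO.bij r hr).comp (((Yc r hr).bij hf hf' hR).comp ⟨fun z hz => (pm r hr z).1 hz,
        fun z _ z' _ h => funext fun j => by rw [pe r hr z j, pe r hr z' j, h], fun a ha => ?_⟩)
      have e : p r (R.o + t r • (a - R.o)) = a := by
        simp only [hp]
        rw [add_sub_cancel_left, smul_smul, inv_mul_cancel₀ (tp r hr).ne', one_smul,
          add_sub_cancel]
      exact ⟨_, (pm r hr _).2 (e.symm ▸ ha), e⟩)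
    (fun r hr z hz => by
      have a1 := (pm r hr z).1 hz
      rw [hO.norm r hr, (Yc r hr).norm_eq hR a1]
      simp only [GB.bd, mem_ofPred_eq, a1, hz, true_and, R.hom_th (tp r hr)]
      rw [hp])
    (fun r hr r' hr' z hz z' hz' => by
      have a1 := (pm r hr z).1 hz
      have a2 := (pm r' hr' z').1 hz'
      have a3 : dist (Y r (p r z)) (Y r (p r' z')) ≤
          L * (dist z z' / (s * R.wmin) + (1 - s) / s * |r - r'|) := by
        refine (dist_pi_le_iff (by positivity)).2 ((Yc r hr).lip _ a1 _ a2 _ fun j => ?_)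
        have b1 : t r * (p r z j - p r' z' j) =
            (z j - z' j) - (t r - t r') * (p r' z' j - R.o j) := by
          linarith only [pe r hr z j, pe r' hr' z' j]
        have b2 : t r * |p r z j - p r' z' j| ≤ dist z z' + (1 - s) * |r - r'| * R.w j := by
          rw [← abs_of_pos (tp r hr), ← abs_mul, b1]
          refine (abs_sub _ _).trans (add_le_add (dist_le_pi_dist z z' j) ?_)
          rw [abs_mul, ta]
          exact mul_le_mul_of_nonneg_left (SDm.abs_o hf hf' hR a2 j) (by positivity)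
        have b3 := mul_le_mul_of_nonneg_right (tb r hr).1 (abs_nonneg (p r z j - p r' z' j))
        have b4 : dist z z' ≤ dist z z' / R.wmin * R.w j := by
          rw [div_mul_eq_mul_div, le_div_iff₀ wp]
          exact mul_le_mul_of_nonneg_left (R.wmin_le j) dist_nonneg
        have b5 : s * ((dist z z' / (s * R.wmin) + (1 - s) / s * |r - r'|) * R.w j) =
            dist z z' / R.wmin * R.w j + (1 - s) * |r - r'| * R.w j := by
          field_simp
        exact le_of_mul_le_mul_left (by linarith only [b2, b3, b4, b5]) hs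
      have a4 := (dist_triangle _ _ _).trans (add_le_add a3 (Yd r r' _ a2))
      have a5 := hO.lip r hr r' hr' _ (Ym r hr _ a1) _ (Ym r' hr' _ a2)
      have a6 := mul_le_mul_of_nonneg_left a4 (zero_le_one.trans k1)
      refine a5.trans (le_of_le_of_eq (add_le_add_left a6 _) ?_)
      field_simp
      ring)
    (fun r hr r' hr' z hz z' hz' => by
      have a1 := (pm r hr z).1 hz
      have a2 := (pm r' hr' z').1 hz'
      have a3 : dist z z' ≤ dist (p r z) (p r' z') + (1 - s) * |r - r'| * R.wmax := by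
        refine (dist_pi_le_iff (by positivity)).2 fun j => ?_
        have b1 : z j - z' j =
            t r * (p r z j - p r' z' j) + (t r - t r') * (p r' z' j - R.o j) := by
          linarith only [pe r hr z j, pe r' hr' z' j]
        rw [Real.dist_eq, b1]
        refine (abs_add_le _ _).trans (add_le_add ?_ ?_)
        · rw [abs_mul, abs_of_pos (tp r hr)]
          exact (mul_le_of_le_one_left (abs_nonneg _) (tb r hr).2).trans
            (dist_le_pi_dist (p r z) (p r' z') j)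
        · rw [abs_mul, ta]
          exact mul_le_mul_of_nonneg_left ((SDm.abs_o hf hf' hR a2 j).trans (R.le_wmax j))
            (by positivity)
      have a4 := (Yc r hr).lipi hR a1 a2
      have a5 := dist_triangle_right (Y r (p r z)) (Y r (p r' z')) (Y r' (p r' z'))
      have a6 := Yd r r' _ a2
      have a7 := hO.lipi r hr _ (Ym r hr _ a1) _ (Ym r' hr' _ a2)
      have a8 := hO.lip r hr r' hr' _ (Ym r' hr' _ a2) _ (Ym r' hr' _ a2)
      have a9 := dist_triangle_right (O r (Y r (p r z))) (O r (Y r' (p r' z')))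
        (O r' (Y r' (p r' z')))
      rw [dist_self, mul_zero, zero_add] at a8
      generalize dist (O r (Y r (p r z))) (O r' (Y r' (p r' z'))) = d at *
      have b0 := abs_nonneg (r - r')
      generalize |r - r'| = ρ at *
      have b1 := mul_le_mul_of_nonneg_left (a9.trans (add_le_add_right a8 d)) (zero_le_one.trans k1)
      have b2 := mul_le_mul_of_nonneg_left (a5.trans (add_le_add (a7.trans b1) a6))
        (by positivity : 0 ≤ 2 * R.wmax)
      have b3 : 1 - s ≤ 2 * (L * (1 - s) / s) := by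
        have c1 := SDm.half_le hf hf' hR h0
        rw [← mul_div_assoc, le_div_iff₀ hs]
        nlinarith only [hf, hf', hs', c1]
      have b4 : 1 ≤ K1 * K1 := one_le_mul_of_one_le_of_one_le k1 k1
      have b5 : L * (1 - s) / s + l ≤ K1 * K1 * (L * (1 - s) / s + l) :=
        le_mul_of_one_le_left (by positivity) b4
      have b6 := mul_le_mul_of_nonneg_left (b5.trans' (show (1 - s) / 2 + l ≤ _ by linarith only [b3]))
        (by positivity : 0 ≤ 2 * R.wmax * ρ)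
      linarith only [a4, a3, b2, b6])
  refine ⟨_, _, ν, hν, by simp only [t0, R.hom_one], by simp only [t1], fun z => ?_, fun z => ?_⟩
  · simp [hO.zero, hY, hp, t0]
  · simp [hY, hp, t1]

/-- The pure homothetic shell. -/
theorem sd_pure (hf : 0 < f) (hf' : f ≤ 1 / 16) {R : GB ι} (hR : R.Valid f) {s : ℝ} (hs : 0 < s)
    (hs' : s < 1) :
    ∃ Rr Yc ν, SD Rr Yc ν (3 / (s * R.wmin)) (3 * (1 - s) / s) (4 / ((1 - s) * R.wmin))
        (2 * R.wmax) ∧ Rr 0 = R.set ∧ Rr 1 = (R.hom s).set ∧ Yc 0 = R.th ∧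
      Yc 1 = (R.hom s).th := by
  obtain ⟨Rr, Yc, ν, h1, h2, h3, h4, h5⟩ := sd_hom hf hf' hR (by norm_num) (hR.ch_th hf hf')
    (hR.ch_th hf hf') le_rfl (fun z _ => (dist_self _).le) mv_id hs hs'
  refine ⟨Rr, Yc, ν, by simpa only [one_mul, mul_one, add_zero] using h1, h2, h3, funext h4,
    funext fun z => by rw [h5, R.hom_th hs]⟩

namespace SDm

/-- Mixed inequalities keep a point inside the region. -/
theorem nest_sub (hf : 0 < f) (hf' : f ≤ 1 / 16) {R : GB ι} (hR : R.Valid f) {Q : Bx ι}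
    (h1 : ∀ z ∈ R.set, ∀ i, R.lo i z ≤ Q.lo i ∧ Q.hi i ≤ R.hi i z) {r : ℝ} (hr : r ∈ Icc (0 : ℝ) 1)
    {z : E ι} (hz : ∀ i, (1 - r) * R.lo i z + r * Q.lo i ≤ z i ∧
      z i ≤ (1 - r) * R.hi i z + r * Q.hi i) : z ∈ R.set := by
  have hγ : Continuous fun t : ℝ => R.o + t • (z - R.o) := by fun_prop
  obtain ⟨t, ⟨ht, hy⟩, hg⟩ := (isCompact_Icc.inter_right
    (hR.isClosed.preimage hγ)).exists_isGreatest
    ⟨0, left_mem_Icc.2 zero_le_one, by simpa using hR.om⟩
  rw [mem_preimage] at hy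
  rcases ht.2.eq_or_lt with h | h
  · simpa [h] using hy
  exfalso
  have hb : R.o + t • (z - R.o) ∈ R.bd := by
    by_contra hb
    have h2 : ∀ᶠ t' in 𝓝[Ioo t 1] t, R.o + t' • (z - R.o) ∈ R.set :=
      (hγ.continuousAt.eventually (hR.mem_interior hy hb)).filter_mono nhdsWithin_le_nhds
    have := left_nhdsWithin_Ioo_neBot h
    obtain ⟨t', a1, a2⟩ := (h2.and self_mem_nhdsWithin).exists
    exact absurd (hg ⟨⟨ht.1.trans a2.1.le, a2.2.le⟩, a1⟩) (not_le.2 a2.1)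
  have he := (consts (ι := ι) hf hf').1
  have d1 : dist (R.o + t • (z - R.o)) R.o = t * ‖z - R.o‖ := by
    rw [dist_self_add_left, norm_smul, Real.norm_of_nonneg ht.1]
  have d2 : dist z (R.o + t • (z - R.o)) = (1 - t) * ‖z - R.o‖ := by
    rw [dist_eq_norm, ← Real.norm_of_nonneg (sub_nonneg.2 ht.2), ← norm_smul]
    congr 1
    module
  have d3 : ∀ i, (R.o + t • (z - R.o)) i = R.o i + t * (z i - R.o i) := fun i => rfl
  have hN := norm_nonneg (z - R.o)
  generalize R.o + t • (z - R.o) = y at *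
  generalize ‖z - R.o‖ = N at *
  have d4 := dist_o hf hf' hR hy
  have d5 : t * (eps ι f * N) ≤ eps ι f * R.wmax := by
    rw [mul_left_comm, ← d1]
    exact mul_le_mul_of_nonneg_left d4 he.le
  have d6 := eps_wmax hf hf' hR
  have d7 := hR.wmin_pos
  have d8 : r * (eps ι f * ((1 - t) * N)) ≥ 0 :=
    mul_nonneg hr.1 (mul_nonneg he.le (mul_nonneg (sub_nonneg.2 ht.2) hN))
  obtain ⟨i, hi⟩ := (hR.mem_bd hy).1 hb
  obtain ⟨b1, b2, -⟩ := near_o hf hf' hR (c := 1) (by rwa [one_mul]) i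
  have b3 := R.wmin_le i
  have a1 := abs_le.1 (hR.ll i z y)
  have a2 := abs_le.1 (hR.lh i z y)
  rw [d2] at a1 a2
  have a3 := mul_le_mul_of_nonneg_left a1.1 (sub_nonneg.2 hr.2)
  have a4 := mul_le_mul_of_nonneg_left a2.2 (sub_nonneg.2 hr.2)
  have a5 := mul_le_mul_of_nonneg_left (h1 y hy i).1 hr.1
  have a6 := mul_le_mul_of_nonneg_left (h1 y hy i).2 hr.1
  have a7 := d3 i
  rcases hi with hi | hi
  · have c1 : (1 - t) * (R.o i - z i) ≤ (1 - t) * (eps ι f * N) := by linarith only [(hz i).1, d8, a3, a5, a7, hi]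
    have c2 := mul_le_mul_of_nonneg_left (le_of_mul_le_mul_left c1 (sub_pos.2 h)) ht.1
    linarith only [d5, d6, d7, b1, b3, a7, hi, c2]
  · have c1 : (1 - t) * (z i - R.o i) ≤ (1 - t) * (eps ι f * N) := by linarith only [(hz i).2, d8, a4, a6, a7, hi]
    have c2 := mul_le_mul_of_nonneg_left (le_of_mul_le_mul_left c1 (sub_pos.2 h)) ht.1
    linarith only [d5, d6, d7, b2, b3, a7, hi, c2]

omit [DecidableEq ι] [Nonempty ι] in
theorem mix_lip {g : E ι → ℝ} {c q m' : ℝ} (h : ∀ z z', |g z - g z'| ≤ c * dist z z') {r r' : ℝ}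
    (hr : r ∈ Icc (0 : ℝ) 1) (z : E ι) {z' : E ι} (h' : |q - g z'| ≤ m') :
    |((1 - r) * g z + r * q) - ((1 - r') * g z' + r' * q)| ≤ c * dist z z' + m' * |r - r'| := by
  rw [show ((1 - r) * g z + r * q) - ((1 - r') * g z' + r' * q) =
    (1 - r) * (g z - g z') + (q - g z') * (r - r') by ring]
  refine (abs_add_le _ _).trans (add_le_add ?_ ?_)
  · rw [abs_mul, abs_of_nonneg (sub_nonneg.2 hr.2)]
    exact (mul_le_of_le_one_left (abs_nonneg _) (by linarith only [hr.1])).trans (h z z')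
  · rw [abs_mul]
    exact mul_le_mul_of_nonneg_right h' (abs_nonneg _)

theorem quot_lip {x x' a a' b b' d e : ℝ} (h1 : a' ≤ x') (h2 : x' ≤ b') (hab : a < b)
    (hab' : a' < b') (hx : |x - x'| ≤ d) (ha : |a - a'| ≤ e) (hb : |b - b'| ≤ e) :
    (b - a) * |(2 * x - a - b) / (b - a) - (2 * x' - a' - b') / (b' - a')| ≤ 2 * d + 4 * e ∧
      2 * |x - x'| ≤
        (b - a) * |(2 * x - a - b) / (b - a) - (2 * x' - a' - b') / (b' - a')| + 4 * e := by
  have p := sub_pos.2 hab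
  have p' := sub_pos.2 hab'
  have hy : |(2 * x' - a' - b') / (b' - a')| ≤ 1 := by
    rw [abs_div, abs_of_pos p', div_le_one p', abs_le]
    constructor <;> linarith only [h1, h2]
  have e1 : 2 * x' - a' - b' = (b' - a') * ((2 * x' - a' - b') / (b' - a')) := by field_simp
  generalize (2 * x' - a' - b') / (b' - a') = y at *
  have e2 : (b - a) * ((2 * x - a - b) / (b - a) - y) =
      2 * (x - x') - (a - a') - (b - b') - ((b - b') - (a - a')) * y := by
    rw [mul_sub, mul_div_cancel₀ _ p.ne']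
    linarith only [e1]
  have e3 : |((b - b') - (a - a')) * y| ≤ 2 * e := by
    rw [abs_mul]
    refine (mul_le_of_le_one_right (abs_nonneg _) hy).trans ((abs_sub _ _).trans ?_)
    linarith only [ha, hb]
  rw [← abs_of_pos p, ← abs_mul, abs_of_pos p, e2]
  have := abs_le.1 hx
  have := abs_le.1 ha
  have := abs_le.1 hb
  have := abs_le.1 e3
  generalize ((b - b') - (a - a')) * y = u at *
  constructor
  · rw [abs_le]
    constructor <;> linarith
  · have := le_abs_self (2 * (x - x') - (a - a') - (b - b') - u)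
    have := neg_abs_le (2 * (x - x') - (a - a') - (b - b') - u)
    rcases abs_cases (x - x') with h | h <;> linarith

end SDm

/-- The shell between a graph box and a box inside it. -/
theorem sd_nest (hf : 0 < f) (hf' : f ≤ 1 / 16) {R : GB ι} (hR : R.Valid f) {Q : Bx ι}
    (hQ : Q.gb.Valid f) {m m' : ℝ} (hm : 0 < m)
    (h1 : ∀ z ∈ R.set, ∀ i, R.lo i z + m ≤ Q.lo i ∧ Q.hi i + m ≤ R.hi i z)
    (h2 : ∀ z ∈ R.set, ∀ i, Q.lo i - R.lo i z ≤ m' ∧ R.hi i z - Q.hi i ≤ m') :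
    ∃ Rr Yc ν, SD Rr Yc ν (4 / Q.gb.wmin) (20 * m' / Q.gb.wmin) (2 / m) (3 * R.wmax) ∧
      Rr 0 = R.set ∧ Rr 1 = Q.set ∧ Yc 0 = R.th ∧ Yc 1 = Q.nm := by
  obtain ⟨he, hw, hw', -⟩ := consts (ι := ι) hf hf'
  have he' := SDm.eps_le (ι := ι) hf hf'
  have hew := SDm.eps_wmax hf hf' hR
  have wp := hR.wmin_pos
  have Wp := SDm.wmax_pos hR
  have qp := hQ.wmin_pos
  have sp : ∀ i, Q.lo i < Q.hi i := fun i => sub_pos.1 (hQ.pos i)
  have sm : ∀ i, Q.gb.wmin ≤ Q.hi i - Q.lo i := Q.gb.wmin_le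
  have h3 : ∀ z ∈ R.set, ∀ i, R.lo i z ≤ Q.lo i ∧ Q.hi i ≤ R.hi i z := fun z hz i =>
    ⟨by linarith only [(h1 z hz i).1, hm], by linarith only [(h1 z hz i).2, hm]⟩
  have h4 : ∀ z ∈ R.set, ∀ i, |Q.lo i - R.lo i z| ≤ m' ∧ |Q.hi i - R.hi i z| ≤ m' :=
    fun z hz i => ⟨by rw [abs_of_nonneg (sub_nonneg.2 (h3 z hz i).1)]; exact (h2 z hz i).1,
      by rw [abs_sub_comm, abs_of_nonneg (sub_nonneg.2 (h3 z hz i).2)]; exact (h2 z hz i).2⟩
  have h5 : ∀ z ∈ R.set, ∀ i, R.hi i z - R.lo i z ≤ 2 * R.wmax := fun z hz i => by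
    have a1 := mul_le_mul_of_nonneg_right hw' (hR.pos i).le
    linarith only [(hR.wd z hz i).2, R.le_wmax i, hR.pos i, Wp, a1]
  obtain ⟨i0⟩ := ‹Nonempty ι›
  have hm' : 0 ≤ m' := (abs_nonneg _).trans (h4 _ hR.om i0).1
  have hq : Q.gb.wmin ≤ 2 * R.wmax := by
    linarith only [sm i0, h5 _ hR.om i0, h3 _ hR.om i0]
  have hmid : Q.mid ∈ R.set := SDm.nest_sub hf hf' hR h3 (right_mem_Icc.2 zero_le_one) fun i => by
    have := sp i
    simp only [Bx.mid]
    constructor <;> linarith only [this]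
  have ml : ∀ {g : E ι → ℝ} (q : ℝ), (∀ z z', |g z - g z'| ≤ eps ι f * dist z z') →
      ∀ r ∈ Icc (0 : ℝ) 1, ∀ z z', |((1 - r) * g z + r * q) - ((1 - r) * g z' + r * q)| ≤
        eps ι f * dist z z' := fun q h r hr z z' => by
    simpa only [sub_self, abs_zero, mul_zero, add_zero] using SDm.mix_lip (r' := r) h hr z le_rfl
  have key : ∀ r : ℝ, ∃ c : E ι, r ∈ Icc (0 : ℝ) 1 →
      GB.Valid f ⟨fun i z => (1 - r) * R.lo i z + r * Q.lo i,
        fun i z => (1 - r) * R.hi i z + r * Q.hi i, fun i => (1 - r) * R.w i + r * Q.sd i, c⟩ := by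
    intro r
    by_cases hr : r ∈ Icc (0 : ℝ) 1
    swap
    · exact ⟨0, fun h => absurd h hr⟩
    have r1 := sub_nonneg.2 hr.2
    have d1 : dist ((1 - r) • R.o + r • Q.mid) R.o ≤ R.wmax := by
      have := SDm.dist_mix R.o Q.mid r 0
      rw [sub_zero, sub_zero, one_smul, zero_smul, add_zero, abs_of_nonneg hr.1, dist_comm R.o]
        at this
      rw [this]
      exact (mul_le_of_le_one_left dist_nonneg hr.2).trans (SDm.dist_o hf hf' hR hmid)
    obtain ⟨c, c1, c2⟩ := GB.exists_ctr hf hf' (fun i => ml (Q.lo i) (hR.ll i) r hr)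
      (fun i => ml (Q.hi i) (hR.lh i) r hr) ((1 - r) • R.o + r • Q.mid) (δ := R.wmax) fun i => by
        have e : ((1 - r) • R.o + r • Q.mid) i = (1 - r) * R.o i + r * ((Q.lo i + Q.hi i) / 2) :=
          rfl
        rw [e]
        generalize (1 - r) • R.o + r • Q.mid = y at *
        have a1 := abs_le.1 (hR.ll i y R.o)
        have a2 := abs_le.1 (hR.lh i y R.o)
        have a3 := mul_le_mul_of_nonneg_left d1 he.le
        have a4 := mul_le_mul_of_nonneg_right he' Wp.le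
        have a5 : |2 * R.o i - R.lo i y - R.hi i y| ≤ R.wmax := by
          rw [abs_le]
          constructor <;> linarith only [hR.ctr i, a1.1, a1.2, a2.1, a2.2, Wp, a1, a2, a3, a4]
        rw [show 2 * ((1 - r) * R.o i + r * ((Q.lo i + Q.hi i) / 2)) -
          ((1 - r) * R.lo i y + r * Q.lo i) - ((1 - r) * R.hi i y + r * Q.hi i) =
          (1 - r) * (2 * R.o i - R.lo i y - R.hi i y) by ring, abs_mul, abs_of_nonneg r1]
        exact (mul_le_of_le_one_left (abs_nonneg _) (by linarith only [hr.1])).trans a5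
    refine ⟨c, fun _ => ⟨fun i => ml (Q.lo i) (hR.ll i) r hr, fun i => ml (Q.hi i) (hR.lh i) r hr,
      fun i => ?_, fun z hz i => ?_, c1, fun i => ?_, fun i j => ?_⟩⟩
    · have a1 := lt_min (hR.pos i) (hQ.pos i)
      have a2 := mul_le_mul_of_nonneg_left (min_le_left (R.w i) (Q.sd i)) r1
      have a3 := mul_le_mul_of_nonneg_left (min_le_right (R.w i) (Q.sd i)) hr.1
      change 0 < min (R.w i) (Q.sd i) at a1
      change 0 < (1 - r) * R.w i + r * Q.sd i
      linarith only [a2, a3, a1]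
    · obtain ⟨a1, a2⟩ := hR.wd z (SDm.nest_sub hf hf' hR h3 hr hz) i
      have a3 := mul_le_mul_of_nonneg_left a1 r1
      have a4 := mul_le_mul_of_nonneg_left a2 r1
      have a5 := mul_nonneg hw.le (mul_nonneg hr.1 (sub_pos.2 (sp i)).le)
      simp only [Bx.sd]
      constructor <;> linarith only [a3, a4, a5]
    · obtain ⟨b1, b2, -⟩ := SDm.near_o hf hf' hR (z := c) (c := 2)
        ((dist_triangle _ _ _).trans (by linarith only [d1, c2])) i
      have a1 : R.lo i c ≤ R.hi i c := by linarith only [R.wmin_le i, hew, wp, b1, b2]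
      have a2 := mul_le_mul_of_nonneg_left a1 r1
      have a3 := mul_le_mul_of_nonneg_left (sp i).le hr.1
      have a4 := c1 i
      dsimp only
      constructor <;> linarith only [a2, a3, a4]
    · have a1 := mul_le_mul_of_nonneg_left (hR.asp i j) r1
      have a2 : r * Q.sd i ≤ r * (Mx f * Q.sd j) := mul_le_mul_of_nonneg_left (hQ.asp i j) hr.1
      dsimp only
      linarith only [a1, a2]
  choose c hc using key
  obtain ⟨G, hG⟩ : ∃ G : ℝ → GB ι, G = fun r => ⟨fun i z => (1 - r) * R.lo i z + r * Q.lo i,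
    fun i z => (1 - r) * R.hi i z + r * Q.hi i, fun i => (1 - r) * R.w i + r * Q.sd i, c r⟩ :=
    ⟨_, rfl⟩
  have gl : ∀ r i z, (G r).lo i z = (1 - r) * R.lo i z + r * Q.lo i := fun r i z => by rw [hG]
  have gh : ∀ r i z, (G r).hi i z = (1 - r) * R.hi i z + r * Q.hi i := fun r i z => by rw [hG]
  have hv : ∀ r ∈ Icc (0 : ℝ) 1, (G r).Valid f := by
    rw [hG]
    exact hc
  have g0 : (G 0).set = R.set := by simp [GB.set, gl, gh]
  have gs : ∀ r ∈ Icc (0 : ℝ) 1, (G r).set ⊆ R.set := fun r hr z hz =>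
    SDm.nest_sub hf hf' hR h3 hr fun i => by
      rw [← gl, ← gh]
      exact hz i
  have gw : ∀ r ∈ Icc (0 : ℝ) 1, ∀ z ∈ (G r).set, ∀ i, Q.gb.wmin ≤ (G r).hi i z - (G r).lo i z ∧
      (G r).hi i z - (G r).lo i z ≤ 2 * R.wmax := fun r hr z hz i => by
    obtain ⟨a1, a2⟩ := h3 z (gs r hr hz) i
    have a3 := mul_le_mul_of_nonneg_left a1 (sub_nonneg.2 hr.2)
    have a4 := mul_le_mul_of_nonneg_left a2 (sub_nonneg.2 hr.2)
    have a5 := mul_le_mul_of_nonneg_left a1 hr.1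
    have a6 := mul_le_mul_of_nonneg_left a2 hr.1
    rw [gl, gh]
    constructor <;> linarith only [sm i, h5 z (gs r hr hz) i, a3, a4, a5, a6]
  have ql : ∀ r ∈ Icc (0 : ℝ) 1, ∀ r' ∈ Icc (0 : ℝ) 1, ∀ z ∈ (G r).set, ∀ z' ∈ (G r').set, ∀ i,
      ((G r).hi i z - (G r).lo i z) * |(G r).th z i - (G r').th z' i| ≤
        2 * dist z z' + 4 * (eps ι f * dist z z' + m' * |r - r'|) ∧
      2 * |z i - z' i| ≤ ((G r).hi i z - (G r).lo i z) * |(G r).th z i - (G r').th z' i| +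
        4 * (eps ι f * dist z z' + m' * |r - r'|) := fun r hr r' hr' z hz z' hz' i =>
    SDm.quot_lip (hz' i).1 (hz' i).2 (sub_pos.1 (qp.trans_le (gw r hr z hz i).1))
      (sub_pos.1 (qp.trans_le (gw r' hr' z' hz' i).1)) (dist_le_pi_dist z z' i)
      (by rw [gl, gl]; exact SDm.mix_lip (hR.ll i) hr z (h4 z' (gs r' hr' hz') i).1)
      (by rw [gh, gh]; exact SDm.mix_lip (hR.lh i) hr z (h4 z' (gs r' hr' hz') i).2)
  obtain ⟨ν, hν⟩ := SDm.sd_of_gb (G := G) (Yc := fun r => (G r).th) (LY := 4 / Q.gb.wmin)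
    (LT := 20 * m' / Q.gb.wmin) (Λ := 2 / m) (Sz := 3 * R.wmax) (by positivity) (by positivity)
    (by positivity) (by positivity) hv (fun _ => m) (fun _ => hm)
    (fun _ => by
      rw [mul_div_cancel₀ _ hm.ne']
      linarith only [he, he'])
    (g0 ▸ gs)
    (fun i z _ => by
      simp only [gl, gh]
      constructor <;> fun_prop)
    (fun i z hz r r' _ a2 _ _ => by
      obtain ⟨b1, b2⟩ := h1 z (g0 ▸ hz) i
      have b3 := mul_le_mul_of_nonneg_left b1 (sub_nonneg.2 a2)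
      have b4 := mul_le_mul_of_nonneg_left b2 (sub_nonneg.2 a2)
      simp only [gl, gh]
      constructor <;> linarith only [b3, b4])
    (fun r hr => (hv r hr).bij_th hf hf') (fun r _ z hz => (and_iff_right hz).symm)
    (fun r hr r' hr' z hz z' hz' => by
      refine (dist_pi_le_iff (by positivity)).2 fun i => ?_
      have a1 := (ql r hr r' hr' z hz z' hz' i).1
      have a2 := mul_le_mul_of_nonneg_right (gw r hr z hz i).1
        (abs_nonneg ((G r).th z i - (G r').th z' i))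
      have a3 := mul_le_mul_of_nonneg_right he' (dist_nonneg (x := z) (y := z'))
      have a4 := mul_nonneg hm' (abs_nonneg (r - r'))
      have a5 : Q.gb.wmin * (4 / Q.gb.wmin * dist z z' + 20 * m' / Q.gb.wmin * |r - r'|) =
          4 * dist z z' + 20 * (m' * |r - r'|) := by field_simp
      rw [Real.dist_eq]
      exact le_of_mul_le_mul_left (by linarith only [dist_nonneg (x := z) (y := z'), a1, a2, a3, a4, a5]) qp)
    (fun r hr r' hr' z hz z' hz' => by
      have a4 := mul_nonneg hm' (abs_nonneg (r - r'))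
      have a1 : dist z z' ≤ R.wmax * dist ((G r).th z) ((G r').th z') +
          2 * (eps ι f * dist z z' + m' * |r - r'|) := by
        refine (dist_pi_le_iff (by positivity)).2 fun i => ?_
        have b1 := (ql r hr r' hr' z hz z' hz' i).2
        have b2 := mul_le_mul (gw r hr z hz i).2 (dist_le_pi_dist ((G r).th z) ((G r').th z') i)
          dist_nonneg (by positivity)
        rw [Real.dist_eq] at b2 ⊢
        linarith only [b1, b2]
      have a3 := mul_le_mul_of_nonneg_right he' (dist_nonneg (x := z) (y := z'))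
      have a5 : 1 ≤ 2 * R.wmax / Q.gb.wmin := (one_le_div qp).2 hq
      have a6 := mul_le_mul_of_nonneg_right a5 a4
      have a7 : 3 * R.wmax * (20 * m' / Q.gb.wmin * |r - r'|) =
          30 * (2 * R.wmax / Q.gb.wmin * (m' * |r - r'|)) := by ring
      have a8 := mul_nonneg Wp.le (dist_nonneg (x := (G r).th z) (y := (G r').th z'))
      rw [mul_add, a7]
      linarith only [a4, a1, a3, a6, a8])
  refine ⟨_, _, ν, hν, g0, ?_, ?_, ?_⟩
  · ext z
    simp [GB.set, gl, gh, Bx.mem_set]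
  · funext z i
    simp [GB.th, gl, gh]
  · funext z i
    simp [GB.th, gl, gh, Bx.nm, Bx.sd]

/-- The shell between a graph box and a small cube around its centre. -/
theorem sd_cube (hf : 0 < f) (hf' : f ≤ 1 / 16) {R : GB ι} (hR : R.Valid f) {l : ℝ} (hl : 0 < l)
    (hl' : l ≤ R.wmin / 2) :
    ∃ Rr Yc ν, SD Rr Yc ν (4 / l) (20 * R.wmax / l) (10 / R.wmin) (3 * R.wmax) ∧
      Rr 0 = R.set ∧ Rr 1 = (cubeC R.o l).set ∧ Yc 0 = R.th ∧ Yc 1 = (cubeC R.o l).nm := by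
  obtain ⟨-, hQ, -, -, hw, -⟩ := cubeC_valid hf hf' R.o hl
  have wp := hR.wmin_pos
  have hew := SDm.eps_wmax hf hf' hR
  have hn := fun z (hz : z ∈ R.set) =>
    SDm.near_o hf hf' hR (c := 1) ((SDm.dist_o hf hf' hR hz).trans (one_mul _).ge)
  have := sd_nest hf hf' hR hQ (m := R.wmin / 5) (m' := R.wmax) (by positivity)
    (fun z hz i => by
      obtain ⟨a1, a2, -⟩ := hn z hz i
      simp only [cubeC]
      constructor <;> linarith only [R.wmin_le i, hl, hl', hew, a1, a2])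
    fun z hz i => by
      obtain ⟨-, -, a1, a2⟩ := hn z hz i
      simp only [cubeC]
      constructor <;> linarith only [R.wmin_le i, R.le_wmax i, hl, hl', hew, a1, a2]
  rwa [hw, show 2 / (R.wmin / 5) = 10 / R.wmin by field_simp; norm_num] at this

/-- The layer of a box: the inner region is the concentric box of half the size. -/
theorem sd_box {Q : Bx ι} (hQ : Q.Two) {s : ℝ} (hs : 0 < s) (h1 : ∀ i, s ≤ Q.sd i)
    (h2 : ∀ i, Q.sd i ≤ 2 * s) :
    ∃ Rr Yc ν, SD Rr Yc ν (6 / s) 3 (8 / s) (4 * s) ∧ Rr 0 = Q.set ∧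
      Rr 1 = {z | ‖Q.nm z‖ ≤ 1 / 2} ∧ Yc 0 = Q.nm ∧ Yc 1 = fun z => (2 : ℝ) • Q.nm z := by
  have hv : Q.gb.Valid (1 / 16) := Bx.gb_valid (by norm_num) hQ.1 fun i j => by
    have := h1 j
    have := hQ.2 i j
    simp only [Mx]
    linarith
  obtain ⟨Rr, Yc, ν, a1, a2, a3, a4, a5⟩ := sd_pure (s := 1 / 2) (by norm_num) le_rfl hv
    (by norm_num) (by norm_num)
  have b1 : s ≤ Q.gb.wmin := by
    obtain ⟨i, hi⟩ := Q.gb.exists_wmin
    exact hi ▸ h1 i
  have b2 : Q.gb.wmax ≤ 2 * s := by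
    obtain ⟨i, hi⟩ := Q.gb.exists_wmax
    exact hi ▸ h2 i
  have e : ∀ z, Q.nm (Q.gb.o + (1 / 2 : ℝ)⁻¹ • (z - Q.gb.o)) = (2 : ℝ) • Q.nm z := fun z => by
    funext i
    simp only [Bx.nm, Bx.gb, Bx.mid, Pi.add_apply, Pi.smul_apply, Pi.sub_apply, smul_eq_mul]
    ring
  refine ⟨Rr, Yc, ν, a1.mono ?_ (by norm_num) ?_ (by linarith only [b2]), by rw [a2, Bx.gb_set], ?_,
    by rw [a4, Bx.gb_th], ?_⟩
  · rw [div_le_div_iff₀ (by linarith only [hs, b1]) hs]
    linarith only [b1]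
  · rw [div_le_div_iff₀ (by linarith only [hs, b1]) hs]
    linarith only [b1]
  · ext z
    rw [a3, GB.hom_mem _ (by norm_num), Bx.gb_set, hQ.1.nm_mem, e, norm_smul, Real.norm_two,
      mem_ofPred_eq]
    constructor <;> intro h <;> linarith only [h]
  · funext z
    rw [a5, GB.hom_th _ (by norm_num), Bx.gb_th, e]

end Pool.Agent.Lib.MP_ecd4e3_gt.NB
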