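import Pool.Agent.Lib.MP_ecd4e3_gt.NB.EBand
import Pool.Agent.Lib.MP_ecd4e3_gt.NB.SDm
import Pool.Agent.Lib.MP_ecd4e3_gt.NB.Col
import Pool.Agent.Lib.MP_ecd4e3_gt.NB.ENotchA

/-! The notch: pinching the wall between the two halves of a box. -/

namespace Pool.Agent.Lib.MP_ecd4e3_gt.NB

open Set Filter Topology Metric MeasureTheory
open scoped NNReal ENNReal

variable {ι : Type} [Fintype ι] [DecidableEq ι]

section
variable {Y : Type} [MetricSpace Y] {U : Set Y} {i0 : ι}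

/-- A filling of a thickened band. -/
def ncS (U : Set Y) (i0 : ι) (p q : ℝ) (C : Set Y) (A B c : ℝ) (M : ℝ × (ℝ × E ι) → Y) : Prop :=
  Sol U (pbP (univ : Set Unit) (Icc (0 : ℝ) 1 ×ˢ Icc p q ×ˢ Cs i0) ∅ (fun z => M z.2) C
    (fun z z' => A * |z'.2.2.1 - z.2.2.1| + B * dist z'.2.2.2 z.2.2.2 + c * |z'.2.1 - z.2.1|) 1)
    univ fun z => M z.2

/-- The part of the collar swept by `D`. -/
def ncC (σ : ℝ → Y → Y) (D : Set Y) : Set Y := {y | ∃ s ∈ Icc (0 : ℝ) 1, ∃ y' ∈ D, σ s y' = y}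

omit [DecidableEq ι] in
theorem nc_col {S D D' Fx : Set Y} (hU : IsOpen U) {η : ℝ} (hη : 0 ≤ η) {σ ϱ : ℝ → Y → Y}
    (hc : Col U S D' η σ ϱ Fx) (hD' : D ⊆ D') {l a b : ℝ} {Γ : ℝ × E ι → Y}
    (h : SBnd U i0 l D a b Γ) :
    ncS U i0 0 l (ncC σ D) ((1 + η) * a) ((1 + η) * b) η fun z => σ z.1 (Γ z.2) := by
  have hβ := h.1
  have hD : ∀ s ∈ Icc (0 : ℝ) 1, ∀ x ∈ Icc (0 : ℝ) l ×ˢ Cs i0, σ s (Γ x) ∈ U →
      Γ x ∈ U ∧ Γ x ∈ D := fun s hs x hx h =>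
    ⟨(hc.memU s hs _).1 h, (hβ.maps (s, x) ⟨hs, hx.1, hx.2⟩ ((hc.memU s hs _).1 h)).2⟩
  refine ⟨fun z hz h => ⟨trivial, _, hz.2.1, _, (hD _ hz.2.1 _ hz.2.2 h).2, rfl⟩,
    fun z hz => hz.2.elim, fun z hz => hz.2.elim, ?_, ?_, fun z hz h _ => ?_,
    fun z hz h _ => ?_⟩
  · rintro t _ ⟨-, s, hs, y, hy, rfl⟩ h -
    obtain ⟨x, hx, e⟩ := hβ.ex s y ⟨hs, hy⟩ ((hc.memU s hs _).1 h) trivial
    exact ⟨(s, x), ⟨trivial, hs, hx.2.1, hx.2.2⟩, congrArg (σ s) e⟩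
  · rintro t ⟨s, x⟩ ⟨s', x'⟩ ⟨-, hs, hx⟩ ⟨-, hs', hx'⟩ h - e
    simp only at h e
    obtain ⟨u1, d1⟩ := hD s hs x hx h
    obtain ⟨u2, d2⟩ := hD s' hs' x' hx' (e ▸ h)
    obtain rfl : s' = s := by
      rcases lt_trichotomy s' s with k | k | k
      · exact absurd e (hc.sep s' s hs'.1 k hs.2 _ (hD' d2) u2 _ (hc.sub (hD' d1)))
      · exact k
      · exact absurd e.symm (hc.sep s s' hs.1 k hs'.2 _ (hD' d1) u1 _ (hc.sub (hD' d2)))
    rw [hβ.uq s' x x' ⟨hs, hx.1, hx.2⟩ ⟨hs, hx'.1, hx'.2⟩ u1 trivial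
      (hc.inj hs (hc.sub (hD' d2)) (hc.sub (hD' d1)) e)]
  · obtain ⟨u1, d1⟩ := hD _ hz.2.1 _ hz.2.2 h
    have m : z.2 ∈ {z : ℝ × (ℝ × E ι) | z.1 ∈ Icc (0 : ℝ) 1 ∧ z.2.1 ∈ Icc 0 l ∧ z.2.2 ∈ Cs i0} :=
      ⟨hz.2.1, hz.2.2.1, hz.2.2.2⟩
    have t : Tendsto (fun w : Unit × (ℝ × (ℝ × E ι)) => w.2)
        (𝓝[univ ×ˢ Icc (0 : ℝ) 1 ×ˢ Icc 0 l ×ˢ Cs i0] z)
        (𝓝[{z : ℝ × (ℝ × E ι) | z.1 ∈ Icc (0 : ℝ) 1 ∧ z.2.1 ∈ Icc 0 l ∧ z.2.2 ∈ Cs i0}] z.2) :=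
      continuous_snd.continuousWithinAt.tendsto_nhdsWithin
        fun w hw => ⟨hw.2.1, hw.2.2.1, hw.2.2.2⟩
    obtain ⟨k1, k2⟩ := hβ.lip _ m u1 trivial
    refine cont_of_ev (Continuous.continuousWithinAt (by simp only [pbP]; fun_prop))
      (by simp [pbP]) ?_
    filter_upwards [t.eventually k2, hc.ev hz.2.1 (hc.sub (hD' d1))
      (s := fun w : Unit × (ℝ × (ℝ × E ι)) => w.2.1)
      (Continuous.continuousWithinAt (by fun_prop)).tendsto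
      (k1.tendsto.comp t) ((t.eventually (hβ.ev hU m u1 trivial)).mono
        fun w hw => ⟨hw.1.1, hc.sub (hD' hw.2.2.2)⟩)] with w a1 b1
    refine b1.trans ?_
    have := mul_le_mul_of_nonneg_left a1 (show 0 ≤ 1 + η by linarith only [hη])
    simp only [pbP, Function.comp] at this ⊢
    linarith only [this]
  · obtain ⟨u1, d1⟩ := hD _ hz.2.1 _ hz.2.2 h
    have m : ∀ w ∈ (univ : Set Unit) ×ˢ Icc (0 : ℝ) 1 ×ˢ Icc (0 : ℝ) l ×ˢ Cs i0,
        w.2 ∈ {z : ℝ × (ℝ × E ι) | z.1 ∈ Icc (0 : ℝ) 1 ∧ z.2.1 ∈ Icc 0 l ∧ z.2.2 ∈ Cs i0} :=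
      fun w hw => ⟨hw.2.1, hw.2.2.1, hw.2.2.2⟩
    have t : ∀ w, Tendsto (fun w : Unit × (ℝ × (ℝ × E ι)) => w.2)
        (𝓝[univ ×ˢ Icc (0 : ℝ) 1 ×ˢ Icc 0 l ×ˢ Cs i0] w)
        (𝓝[{z : ℝ × (ℝ × E ι) | z.1 ∈ Icc (0 : ℝ) 1 ∧ z.2.1 ∈ Icc 0 l ∧ z.2.2 ∈ Cs i0}] w.2) :=
      fun w => continuous_snd.continuousWithinAt.tendsto_nhdsWithin m
    have c : ∀ w ∈ (univ : Set Unit) ×ˢ Icc (0 : ℝ) 1 ×ˢ Icc (0 : ℝ) l ×ˢ Cs i0, Γ w.2.2 ∈ U →
        ContinuousWithinAt (fun w : Unit × (ℝ × (ℝ × E ι)) => (w.2.1, Γ w.2.2))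
          (univ ×ˢ Icc (0 : ℝ) 1 ×ˢ Icc 0 l ×ˢ Cs i0) w :=
      fun w hw u => (Continuous.continuousWithinAt (by fun_prop)).prodMk
        ((hβ.lip _ (m w hw) u trivial).1.tendsto.comp (t w))
    have k1 := (hc.dmCol hη hz.2.1 (hD' d1) u1).comp_ev
      (R' := (univ : Set Unit) ×ˢ Icc (0 : ℝ) 1 ×ˢ Icc (0 : ℝ) l ×ˢ Cs i0)
      (Φ := fun w : Unit × (ℝ × (ℝ × E ι)) => (w.2.1, Γ w.2.2))
      (P' := fun w => σ w.2.1 (Γ w.2.2) ∈ U ∧ σ w.2.1 (Γ w.2.2) ∈ univ)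
      (((t z).eventually (hβ.ev hU (m z hz) u1 trivial)).mono
        fun w hw => ⟨hw.1.1, hD' hw.2.2.2⟩)
      (c z hz u1) (eventually_nhdsWithin_of_forall fun w hw a =>
        ⟨trivial, c w hw ((hc.memU _ hw.2.1 _).1 a.1)⟩)
    have k2 := ((hβ.lo _ (m z hz) u1 trivial).comp'
      (Φ := fun w : Unit × (ℝ × (ℝ × E ι)) => w.2) m continuous_snd).imp
      (P' := fun w => σ w.2.1 (Γ w.2.2) ∈ U ∧ σ w.2.1 (Γ w.2.2) ∈ univ)
      fun w hw a => ⟨(hc.memU _ hw.2.1 _).1 a.1, trivial⟩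
    exact (k1.fst.prod (k2.trans k1)).toR

omit [DecidableEq ι] in
theorem ncS.mono {p q : ℝ} {C : Set Y} {A B c A' B' c' : ℝ} {M : ℝ × (ℝ × E ι) → Y}
    (h : ncS U i0 p q C A B c M) (hA : A ≤ A') (hB : B ≤ B') (hc : c ≤ c') :
    ncS U i0 p q C A' B' c' M :=
  Sol.mono h rfl Subset.rfl (fun _ hz => hz.2.elim) (fun _ _ _ => Iff.rfl)
    (fun z _ => Eventually.of_forall fun z' => by simp only [pbP]; gcongr) Subset.rfl

omit [DecidableEq ι] in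
theorem ncS.refl {p q p' q' κ : ℝ} {C : Set Y} {A B c : ℝ} {M : ℝ × (ℝ × E ι) → Y}
    (h : ncS U i0 p q C A B c M) (hp : p' = κ - q) (hq : q' = κ - p) :
    ncS U i0 p' q' C A B c fun z => M (z.1, κ - z.2.1, z.2.2) := by
  subst hp hq
  unfold ncS
  refine Sol.comp h (fun t : Unit => t)
    (fun z : Unit × (ℝ × (ℝ × E ι)) => (z.2.1, κ - z.2.2.1, z.2.2.2))
    ?_ ?_ ?_ ?_ ?_ ?_ ?_ ?_
  · exact fun z hz => ⟨trivial, hz.2.1,
      ⟨by linarith only [hz.2.2.1.2], by linarith only [hz.2.2.1.1]⟩, hz.2.2.2⟩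
  · exact fun _ _ _ h => h
  · exact fun _ _ h _ => h
  · rintro t y - - - ⟨r, n, ω⟩ ⟨-, h1, h2, h3⟩ -
    exact ⟨(r, κ - n, ω), ⟨trivial, h1, ⟨by linarith only [h2.2], by linarith only [h2.1]⟩, h3⟩, by simp⟩
  · rintro t ⟨r, n, ω⟩ ⟨r', n', ω'⟩ - - - e
    simp only [Prod.mk.injEq, sub_right_inj] at e ⊢
    exact e
  · refine fun z _ _ => ⟨Continuous.continuousWithinAt (by fun_prop),
      Eventually.of_forall fun z' => le_of_eq ?_⟩
    simp only [pbP, sub_sub_sub_cancel_left, abs_sub_comm z.2.2.1]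
  · exact fun z hz => hz.2.elim
  · exact fun z _ _ => ⟨Dm.refl, Dm.toR (Dm.of_le (K := 1) fun v _ v' _ => le_of_eq (by
      simp only [Prod.dist_eq, dist_sub_left, one_mul]))⟩

/-- The position in the notch. -/
noncomputable def ncY (l d n : ℝ) : ℝ := max (n - l) 0 / (2 * d)
/-- The position in the band. -/
noncomputable def ncN (l d r n : ℝ) : ℝ := min n l + d * ntM (ncY l d n) r

theorem ncY_mem {l d n : ℝ} (hd : 0 < d) (hn : n ≤ l + d) : ncY l d n ∈ Icc (0 : ℝ) (1 / 2) :=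
  ⟨div_nonneg (le_max_right _ _) (by linarith only [hd]), by
    rw [ncY, div_le_iff₀ (by linarith only [hd])]
    exact max_le (by linarith only [hn]) (by linarith only [hd])⟩

theorem ncY_le {l d n : ℝ} (hn : n ≤ l) : ncY l d n = 0 := by
  rw [ncY, max_eq_right (by linarith only [hn]), zero_div]

theorem ncY_ge {l d n : ℝ} (hn : l ≤ n) : ncY l d n = (n - l) / (2 * d) := by
  rw [ncY, max_eq_left (by linarith only [hn])]

theorem ncY_sum {l d : ℝ} (hd : 0 < d) (n : ℝ) : min n l + 2 * d * ncY l d n = n := by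
  rw [ncY, mul_div_cancel₀ _ (by linarith only [hd] : (0 : ℝ) < 2 * d).ne']
  rcases le_total n l with h | h
  · rw [min_eq_left h, max_eq_right (by linarith only [h]), add_zero]
  · rw [min_eq_right h, max_eq_left (by linarith only [h]), add_sub_cancel]

theorem nc_h0 : (0 : ℝ) ∈ Icc (0 : ℝ) (1 / 2) := ⟨le_rfl, by norm_num⟩

theorem nc_le {l d r n : ℝ} (hr : r ∈ Icc (0 : ℝ) 1) (hn : n ≤ l) :
    ncN l d r n = n ∧ ntS (ncY l d n) r = r := by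
  obtain ⟨-, -, -, -, h1, h2, -⟩ := nt_ends nc_h0 hr
  rw [ncN, ncY_le hn, h1, h2, min_eq_left hn, mul_zero, add_zero]
  exact ⟨rfl, rfl⟩

theorem nc_top {l d r : ℝ} (hd : 0 < d) (hr : r ∈ Icc (0 : ℝ) 1) :
    ncN l d r (l + d) = l + d * ((1 + r) / 2) ∧ ntS (ncY l d (l + d)) r = 0 := by
  obtain ⟨-, -, -, -, -, -, h1, h2⟩ := nt_ends nc_h0 hr
  have e : ncY l d (l + d) = 1 / 2 := by
    rw [ncY_ge (by linarith only [hd])]
    field_simp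
    ring
  rw [ncN, e, h1, h2, min_eq_right (by linarith only [hd])]
  exact ⟨rfl, rfl⟩

theorem nc_zero {l d n : ℝ} (hd : 0 < d) (h0 : l ≤ n) (hn : n ≤ l + d) :
    ncN l d 0 n = l + d * ((n - l) / (2 * d)) ∧ ntS (ncY l d n) 0 = 0 := by
  obtain ⟨h1, h2, -⟩ := nt_ends (ncY_mem hd hn) (left_mem_Icc.2 zero_le_one)
  rw [ncN, h1, h2, min_eq_right h0, ncY_ge h0]
  exact ⟨rfl, rfl⟩

theorem nc_one {l d n : ℝ} (hd : 0 < d) (hn : n ≤ l + d) : ncN l d 1 n = n ∧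
    (ntS (ncY l d n) 1 = 1 ∨ ∃ m ∈ Icc (7 / 8 : ℝ) 1, n = l + d * m) := by
  have hy := ncY_mem hd hn
  obtain ⟨-, -, h1, h2, -⟩ := nt_ends hy (left_mem_Icc.2 zero_le_one)
  have e := ncY_sum (l := l) hd n
  refine ⟨by rw [ncN, h1]; linarith only [e], ?_⟩
  by_cases h : 2 * ncY l d n ≤ 7 / 8
  · exact .inl (h2 h)
  · refine .inr ⟨2 * ncY l d n, ⟨(not_le.1 h).le, by linarith only [hy.2]⟩, ?_⟩
    rcases le_total n l with k | k
    · rw [ncY_le k] at h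
      norm_num at h
    · rw [min_eq_right k] at e
      linarith only [e]

theorem nc_lip {l d r n r' n' : ℝ} (hd : 0 < d) (hr : r ∈ Icc (0 : ℝ) 1) (hr' : r' ∈ Icc (0 : ℝ) 1)
    (hn : n ≤ l + d) (hn' : n' ≤ l + d) :
    |ncN l d r' n' - ncN l d r n| ≤ 2 * |n' - n| + d * |r' - r| ∧
      |ntS (ncY l d n') r' - ntS (ncY l d n) r| ≤ 100 / d * |n' - n| + 200 * |r' - r| := by
  obtain ⟨h1, h2⟩ := nt_lip (ncY_mem hd hn) hr (ncY_mem hd hn') hr'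
  have h3 : |ncY l d n' - ncY l d n| ≤ |n' - n| / (2 * d) := by
    rw [ncY, ncY, ← sub_div, abs_div, abs_of_pos (by linarith only [hd] : (0 : ℝ) < 2 * d)]
    refine div_le_div_of_nonneg_right ((abs_max_sub_max_le_abs _ _ _).trans_eq ?_) (by linarith only [hd])
    rw [sub_sub_sub_cancel_right]
  have h4 : |min n' l - min n l| ≤ |n' - n| := by
    simpa using abs_min_sub_min_le_max n' l n l
  have e1 : d * (|n' - n| / (2 * d)) = |n' - n| / 2 := by field_simp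
  have e2 : 100 / d * |n' - n| = 200 * (|n' - n| / (2 * d)) := by field_simp; ring
  refine ⟨?_, by rw [e2]; linarith only [h2, h3]⟩
  have h5 : ncN l d r' n' - ncN l d r n =
      (min n' l - min n l) + d * (ntM (ncY l d n') r' - ntM (ncY l d n) r) := by
    simp only [ncN]; ring
  rw [h5]
  refine (abs_add_le _ _).trans ?_
  rw [abs_mul, abs_of_pos hd]
  have h6 := mul_le_mul_of_nonneg_left h1 hd.le
  have h7 := mul_le_mul_of_nonneg_left h3 hd.le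
  nlinarith only [h4, e1, h6, h7]

theorem nc_inv {l d r n : ℝ} (hd : 0 < d) (hr : r ∈ Icc (0 : ℝ) 1) (hn : n ≤ l + d) :
    max (ncN l d r n - l) 0 / d = ntM (ncY l d n) r ∧ min (ncN l d r n) l = min n l := by
  rcases le_total n l with h | h
  · rw [(nc_le hr h).1, max_eq_right (by linarith only [h]), zero_div, ncY_le h,
      (nt_ends nc_h0 hr).2.2.2.2.1]
    exact ⟨rfl, rfl⟩
  · have k := mul_nonneg hd.le (nt_mem (ncY_mem hd hn) hr).1.1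
    rw [ncN, min_eq_right h, add_sub_cancel_left, max_eq_left k, mul_div_cancel_left₀ _ hd.ne',
      min_eq_right (le_add_of_nonneg_right k)]
    exact ⟨rfl, rfl⟩

omit [DecidableEq ι] in
/-- One half of the notch. -/
theorem ncS.half {l d : ℝ} (hl : 0 ≤ l) (hd : 0 < d) {C : Set Y} {A B c : ℝ} (hA : 0 ≤ A)
    (hc : 0 ≤ c) {M : ℝ × (ℝ × E ι) → Y} (h : ncS U i0 0 (l + d) C A B c M)
    (hj : ∀ s ∈ Icc (0 : ℝ) 1, ∀ m ∈ Icc (7 / 8 : ℝ) 1, ∀ ω ∈ Cs i0, M (s, l + d * m, ω) ∉ U) :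
    ncS U i0 0 (l + d) C (2 * A + c * (100 / d)) B (A * d + c * 200)
      fun z => M (ntS (ncY l d z.2.1) z.1, ncN l d z.1 z.2.1, z.2.2) := by
  unfold ncS
  refine Sol.comp h (fun t : Unit => t)
    (fun z : Unit × (ℝ × (ℝ × E ι)) =>
      (ntS (ncY l d z.2.2.1) z.2.1, ncN l d z.2.1 z.2.2.1, z.2.2.2))
    ?_ ?_ ?_ ?_ ?_ ?_ ?_ ?_
  · intro z hz
    obtain ⟨k1, k2⟩ := nt_mem (ncY_mem hd hz.2.2.1.2) hz.2.1
    refine ⟨trivial, k2, ⟨add_nonneg (le_min hz.2.2.1.1 hl) (mul_nonneg hd.le k1.1),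
      add_le_add (min_le_right _ _) (mul_le_of_le_one_right hd.le k1.2)⟩, hz.2.2.2⟩
  · exact fun _ _ _ h => h
  · exact fun _ _ h _ => h
  · rintro t y - u - ⟨s, n, ω⟩ ⟨-, h1, h2, h3⟩ rfl
    rcases le_total n l with k | k
    · obtain ⟨e1, e2⟩ := nc_le (d := d) h1 k
      exact ⟨(s, n, ω), ⟨trivial, h1, h2, h3⟩, by simp only [e1, e2]⟩
    · have e : n = l + d * ((n - l) / d) := by field_simp; ring
      have m1 : (n - l) / d ≤ 7 / 8 := not_lt.1 fun k' => hj s h1 _ ⟨k'.le, by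
        rw [div_le_one hd]; linarith only [h2.2]⟩ ω h3 (e ▸ u)
      obtain ⟨y, hy, r, hr, e1, e2⟩ := nt_surj ⟨div_nonneg (by linarith only [k]) hd.le, m1⟩ h1
      have p1 : 0 ≤ 2 * d * y := mul_nonneg (by linarith only [hd]) hy.1
      have e3 : ncY l d (l + 2 * d * y) = y := by
        rw [ncY_ge (by linarith only [p1])]
        field_simp
        ring
      refine ⟨(r, l + 2 * d * y, ω), ⟨trivial, hr, ⟨by linarith only [hl, p1], by nlinarith only [hy.2, hd]⟩, h3⟩, ?_⟩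
      simp only [ncN, e3, e1, e2, min_eq_right (le_add_of_nonneg_right p1), ← e]
  · rintro t ⟨r, n, ω⟩ ⟨r', n', ω'⟩ ⟨-, h1, h2, h3⟩ ⟨-, h1', h2', h3'⟩ u e
    simp only [Prod.mk.injEq] at e u h1 h2 h3 h1' h2' h3' ⊢
    obtain ⟨e1, e2, rfl⟩ := e
    have y1 := ncY_mem hd h2.2
    have y2 := ncY_mem hd h2'.2
    have m1 := (nt_mem y1 h1).1
    have m2 := (nt_mem y2 h1').1
    have z : ∀ {r n}, r ∈ Icc (0 : ℝ) 1 → min n l = l ∨ (min n l < l ∧ ntM (ncY l d n) r = 0) := by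
      intro r n hr
      rcases le_or_gt l n with k | k
      · exact .inl (min_eq_right k)
      · refine .inr ⟨min_lt_of_left_lt k, ?_⟩
        rw [ncY_le k.le, (nt_ends nc_h0 hr).2.2.2.2.1]
    have k : ntM (ncY l d n') r' = ntM (ncY l d n) r ∧ ntM (ncY l d n) r ≤ 7 / 8 := by
      simp only [ncN] at e2 u
      rcases z (n := n) h1 with a | ⟨a, a'⟩ <;> rcases z (n := n') h1' with b | ⟨b, b'⟩
      · rw [a] at u
        rw [a, b] at e2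
        exact ⟨mul_left_cancel₀ hd.ne' (add_left_cancel e2), not_lt.1 fun k' =>
          hj _ (nt_mem y1 h1).2 _ ⟨k'.le, m1.2⟩ _ h3 u⟩
      · rw [a, b'] at e2
        nlinarith only [mul_nonneg hd.le m1.1, e2, b, hd]
      · rw [b, a'] at e2
        nlinarith only [mul_nonneg hd.le m2.1, e2, a, hd]
      · rw [a', b']
        exact ⟨rfl, by norm_num⟩
    obtain ⟨f1, f2⟩ := nt_inj y1 h1 y2 h1' k.2 k.1 e1
    refine ⟨f2, ?_, rfl⟩
    simp only [ncN, k.1, add_left_inj] at e2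
    rw [← ncY_sum (l := l) hd n, ← ncY_sum (l := l) hd n', f1]
    simp only [e2]
  · intro z hz _
    have L := fun w (hw : w ∈ (univ : Set Unit) ×ˢ Icc (0 : ℝ) 1 ×ˢ Icc 0 (l + d) ×ˢ Cs i0) =>
      nc_lip hd hz.2.1 hw.2.1 hz.2.2.1.2 hw.2.2.1.2
    refine ⟨continuous_fst.continuousWithinAt.prodMk (ContinuousWithinAt.prodMk
      (cont_of_ev (g := fun w : Unit × ℝ × ℝ × E ι => 100 / d * |w.2.2.1 - z.2.2.1| + 200 * |w.2.1 - z.2.1|)
        (Continuous.continuousWithinAt (by fun_prop)) (by simp)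
        (eventually_nhdsWithin_of_forall fun w hw => (L w hw).2)).1
      (ContinuousWithinAt.prodMk
        (cont_of_ev (g := fun w : Unit × ℝ × ℝ × E ι => 2 * |w.2.2.1 - z.2.2.1| + d * |w.2.1 - z.2.1|)
          (Continuous.continuousWithinAt (by fun_prop)) (by simp)
          (eventually_nhdsWithin_of_forall fun w hw => (L w hw).1)).1
        (Continuous.continuousWithinAt (by fun_prop)))),
      eventually_nhdsWithin_of_forall fun w hw => ?_⟩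
    have k1 := mul_le_mul_of_nonneg_left (L w hw).1 hA
    have k2 := mul_le_mul_of_nonneg_left (L w hw).2 hc
    simp only [pbP]
    linarith only [k1, k2]
  · exact fun z hz => hz.2.elim
  · intro z hz u
    refine ⟨Dm.refl, ?_⟩
    have L := fun w (hw : w ∈ (univ : Set Unit) ×ˢ Icc (0 : ℝ) 1 ×ˢ Icc 0 (l + d) ×ˢ Cs i0) =>
      nc_lip hd hz.2.1 hw.2.1 hz.2.2.1.2 hw.2.2.1.2
    have cs : ContinuousWithinAt (fun w : Unit × ℝ × ℝ × E ι => ntS (ncY l d w.2.2.1) w.2.1)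
        (univ ×ˢ Icc (0 : ℝ) 1 ×ˢ Icc 0 (l + d) ×ˢ Cs i0) z :=
      (cont_of_ev (g := fun w : Unit × ℝ × ℝ × E ι =>
          100 / d * |w.2.2.1 - z.2.2.1| + 200 * |w.2.1 - z.2.1|)
        (Continuous.continuousWithinAt (by fun_prop)) (by simp)
        (eventually_nhdsWithin_of_forall fun w hw => (L w hw).2)).1
    have cN : ContinuousWithinAt (fun w : Unit × ℝ × ℝ × E ι => ncN l d w.2.1 w.2.2.1)
        (univ ×ˢ Icc (0 : ℝ) 1 ×ˢ Icc 0 (l + d) ×ˢ Cs i0) z :=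
      (cont_of_ev (g := fun w : Unit × ℝ × ℝ × E ι =>
          2 * |w.2.2.1 - z.2.2.1| + d * |w.2.1 - z.2.1|)
        (Continuous.continuousWithinAt (by fun_prop)) (by simp)
        (eventually_nhdsWithin_of_forall fun w hw => (L w hw).1)).1
    have cm : ContinuousWithinAt
        (fun w : Unit × ℝ × ℝ × E ι => max (ncN l d w.2.1 w.2.2.1 - l) 0 / d)
        (univ ×ˢ Icc (0 : ℝ) 1 ×ˢ Icc 0 (l + d) ×ˢ Cs i0) z :=
      ((cN.sub continuousWithinAt_const).max continuousWithinAt_const).div_const d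
    have m0 : max (ncN l d z.2.1 z.2.2.1 - l) 0 / d < 7 / 8 := by
      rw [(nc_inv hd hz.2.1 hz.2.2.1.2).1]
      obtain ⟨m1, m2⟩ := nt_mem (ncY_mem hd hz.2.2.1.2) hz.2.1
      rcases le_total z.2.2.1 l with k | k
      · rw [ncY_le k, (nt_ends nc_h0 hz.2.1).2.2.2.2.1]
        norm_num
      · refine not_le.1 fun k' => hj _ m2 _ ⟨k', m1.2⟩ _ hz.2.2.2 ?_
        simp only [ncN, min_eq_right k] at u
        exact u
    have ev := eventually_mem_nhdsWithin.and (cm.eventually (gt_mem_nhds m0))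
    have dG : Dm ((univ : Set Unit) ×ˢ Icc (0 : ℝ) 1 ×ˢ Icc 0 (l + d) ×ˢ Cs i0)
        (fun w => M (ntS (ncY l d w.2.2.1) w.2.1, ncN l d w.2.1 w.2.2.1, w.2.2.2) ∈ U)
        (fun w => (ntS (ncY l d w.2.2.1) w.2.1, ncN l d w.2.1 w.2.2.1, w.2.2.2))
        (fun w => (ntS (ncY l d w.2.2.1) w.2.1, ncN l d w.2.1 w.2.2.1, w.2.2.2)) z := Dm.refl
    have dN := dG.snd.fst
    obtain ⟨d1, d2⟩ := nt_dm dG.fst (((dN.sub (Dm.const l)).max (Dm.const 0)).divc d) cs cm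
    have d3 := d2.congrL_ev (F1 := fun w => w.2.1) (ev.mono fun w hw => by
      obtain ⟨e1, -⟩ := nc_inv hd hw.1.2.1 hw.1.2.2.1.2
      have e2 := hw.2.le
      simp only [e1] at e2 ⊢
      exact (nt_inv hw.1.2.1 e2).2)
    have d4 := ((dN.min (Dm.const l)).add (d1.cmul (2 * d))).congrL_ev
      (F1 := fun w => w.2.2.1) (ev.mono fun w hw => by
        obtain ⟨e1, e3⟩ := nc_inv hd hw.1.2.1 hw.1.2.2.1.2
        have e2 := hw.2.le
        simp only [e1, e3] at e2 ⊢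
        rw [← (nt_inv hw.1.2.1 e2).1, ncY_sum hd])
    have d5 := d3.prod (d4.prod dG.snd.snd)
    exact Dm.toR d5

omit [DecidableEq ι] in
theorem nc_closed (p q : ℝ) :
    IsClosed ((univ : Set Unit) ×ˢ Icc (0 : ℝ) 1 ×ˢ Icc p q ×ˢ Cs i0) :=
  isClosed_univ.prod (isClosed_Icc.prod (isClosed_Icc.prod
    ((isClosed_eq (continuous_apply i0) continuous_const).inter
      (isClosed_eq continuous_norm continuous_const))))

omit [DecidableEq ι] in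
theorem ncS.glue {p m q : ℝ} (h1 : p ≤ m) (h2 : m ≤ q) {C1 C2 : Set Y} {A B c : ℝ}
    {M1 M2 : ℝ × (ℝ × E ι) → Y} (s1 : ncS U i0 p m C1 A B c M1) (s2 : ncS U i0 m q C2 A B c M2)
    (he : ∀ r ∈ Icc (0 : ℝ) 1, ∀ ω ∈ Cs i0, M1 (r, m, ω) = M2 (r, m, ω))
    (hs : ∀ y ∈ C1, y ∈ C2 → y ∈ U → ∃ r ∈ Icc (0 : ℝ) 1, ∃ ω ∈ Cs i0, M1 (r, m, ω) = y) :
    ncS U i0 p q (C1 ∪ C2) A B c fun z => if z.2.1 ≤ m then M1 z else M2 z := by
  classical
  refine Sol.congr_eq (Sol.glue' s1 s2 ?_ (fun z _ h => (nc_closed p m).closure_subset h)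
    (fun z _ h => (nc_closed m q).closure_subset h) (fun t y _ => by simp [pbP]) ?_ ?_
    (fun z hz => hz.2.elim) (fun z hz => hz.2.elim)
    (fun z _ => Eventually.of_forall fun _ => le_rfl)
    (fun z _ => Eventually.of_forall fun _ => le_rfl)) (fun z hz => hz.2.elim) fun z hz => ?_
  · ext ⟨t, r, n, ω⟩
    simp only [pbP, mem_prod, mem_union, mem_univ, true_and, ← Icc_union_Icc_eq_Icc h1 h2]
    tauto
  · rintro ⟨t, r, n, ω⟩ k1 k2 y _ _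
    obtain rfl : n = m := le_antisymm k1.2.2.1.2 k2.2.2.1.1
    simp only [he r k1.2.1 ω k1.2.2.2]
  · intro t y k1 k2 u _
    obtain ⟨r, hr, ω, hω, e⟩ := hs y k1.2 k2.2 u
    exact ⟨(r, m, ω), ⟨trivial, hr, ⟨h1, le_rfl⟩, hω⟩, ⟨trivial, hr, ⟨le_rfl, h2⟩, hω⟩, e⟩
  · refine if_congr ⟨fun k => ⟨trivial, hz.2.1, ⟨hz.2.2.1.1, k⟩, hz.2.2.2⟩, fun k => k.2.2.1.2⟩
      rfl rfl

theorem nc_upd_le (x : E ι) : ‖Function.update x i0 0‖ ≤ ‖x‖ :=
  (pi_norm_le_iff_of_nonneg (norm_nonneg _)).2 fun i => by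
    by_cases h : i = i0
    · rw [h, Function.update_self, norm_zero]; exact norm_nonneg _
    · rw [Function.update_of_ne h]; exact norm_le_pi_norm x i

theorem nc_upd_dist (x x' : E ι) :
    dist (Function.update x' i0 0) (Function.update x i0 0) ≤ dist x' x := by
  rw [dist_eq_norm, dist_eq_norm, ← Function.update_sub, sub_zero]
  exact nc_upd_le _

theorem nc_coord {τ : ℝ} (hτ : 0 < τ) {x : E ι} (hx : ‖x‖ = 1)
    (h : ¬‖Function.update x i0 0‖ < 1) :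
    τ * ((x i0 + 1) / 2) ∈ Icc 0 τ ∧ Function.update x i0 0 ∈ Cs i0 := by
  have k := abs_le.1 ((norm_le_pi_norm x i0).trans hx.le)
  exact ⟨⟨mul_nonneg hτ.le (by linarith only [k.1, k]), mul_le_of_le_one_right hτ.le (by linarith only [k.2, k])⟩,
    Function.update_self _ _ _, le_antisymm (hx ▸ nc_upd_le x) (not_lt.1 h)⟩

theorem nc_side {x : E ι} (hx : ‖x‖ = 1) (h : |x i0| < 1) : ¬‖Function.update x i0 0‖ < 1 :=
  fun k => hx.not_lt ((pi_norm_lt_iff one_pos).2 fun i => by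
    by_cases e : i = i0
    · rw [e]; exact h
    · have := (norm_le_pi_norm _ i).trans_lt k
      rwa [Function.update_of_ne e] at this)

theorem nc_pt {τ n : ℝ} (hτ : 0 < τ) (hn : n ∈ Icc 0 τ) {ω : E ι} (hω : ω ∈ Cs i0) :
    ∃ x : E ι, ‖x‖ = 1 ∧ Function.update x i0 0 = ω ∧ τ * ((x i0 + 1) / 2) = n := by
  have e : Function.update (Function.update ω i0 (2 * n / τ - 1)) i0 0 = ω := by
    rw [Function.update_idem, ← hω.1, Function.update_eq_self]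
  refine ⟨Function.update ω i0 (2 * n / τ - 1), le_antisymm
    ((pi_norm_le_iff_of_nonneg zero_le_one).2 fun i => ?_) ?_, e, ?_⟩
  · by_cases h : i = i0
    · have k1 : 0 ≤ 2 * n / τ := div_nonneg (by linarith only [hn.1]) hτ.le
      have k2 : 2 * n / τ ≤ 2 := by rw [div_le_iff₀ hτ]; linarith only [hn.2]
      rw [h, Function.update_self]
      exact abs_le.2 ⟨by linarith only [k1], by linarith only [k2]⟩
    · rw [Function.update_of_ne h]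
      exact hω.2 ▸ norm_le_pi_norm ω i
  · have := nc_upd_le (i0 := i0) (Function.update ω i0 (2 * n / τ - 1))
    rwa [e, hω.2] at this
  · rw [Function.update_self]
    field_simp
    ring

/-- A filled band on the thickened model sphere. -/
theorem ncS.sph {τ : ℝ} (hτ : 0 < τ) {C : Set Y} {A B c : ℝ} (hA : 0 ≤ A) (hB : 0 ≤ B)
    {M : ℝ × (ℝ × E ι) → Y} (h : ncS U i0 0 τ C A B c M) {y0 : Y} (hy : y0 ∉ U)
    (hj : ∀ r ∈ Icc (0 : ℝ) 1, ∀ ω ∈ Cs i0, M (r, 0, ω) ∉ U ∧ M (r, τ, ω) ∉ U)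
    (Θ0 : Unit × (ℝ × E ι) → Y) :
    Sol U (pbP (univ : Set Unit) (Icc (0 : ℝ) 1 ×ˢ sphere (0 : E ι) 1) ∅ Θ0 C
      (fun z z' => (A * τ / 2 + B) * dist z'.2.2 z.2.2 + c * |z'.2.1 - z.2.1|) 1) univ
      fun z => sphD i0 y0 τ (fun w => M (z.2.1, w)) z.2.2 := by
  have e1 : ∀ r (x : E ι), ¬‖Function.update x i0 0‖ < 1 → sphD i0 y0 τ (fun w => M (r, w)) x =
      M (r, τ * ((x i0 + 1) / 2), Function.update x i0 0) := fun r x k => if_neg k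
  have e2 : ∀ r (x : E ι), sphD i0 y0 τ (fun w => M (r, w)) x ∈ U →
      ¬‖Function.update x i0 0‖ < 1 := fun r x u k => hy (by rwa [sphD, sphV, if_pos k] at u)
  have mm : ∀ z ∈ (univ : Set Unit) ×ˢ Icc (0 : ℝ) 1 ×ˢ sphere (0 : E ι) 1,
      ¬‖Function.update z.2.2 i0 0‖ < 1 →
      (z.1, z.2.1, τ * ((z.2.2 i0 + 1) / 2), Function.update z.2.2 i0 0) ∈
        (univ : Set Unit) ×ˢ Icc (0 : ℝ) 1 ×ˢ Icc 0 τ ×ˢ Cs i0 := fun z hz k =>
    ⟨trivial, hz.2.1, nc_coord hτ (mem_sphere_zero_iff_norm.1 hz.2.2) k⟩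
  have evs : ∀ z ∈ (univ : Set Unit) ×ˢ Icc (0 : ℝ) 1 ×ˢ sphere (0 : E ι) 1,
      sphD i0 y0 τ (fun w => M (z.2.1, w)) z.2.2 ∈ U →
      ∀ᶠ w in 𝓝[(univ : Set Unit) ×ˢ Icc (0 : ℝ) 1 ×ˢ sphere (0 : E ι) 1] z,
        w ∈ (univ : Set Unit) ×ˢ Icc (0 : ℝ) 1 ×ˢ sphere (0 : E ι) 1 ∧
          ¬‖Function.update w.2.2 i0 0‖ < 1 := fun z hz u => by
    have k := e2 _ _ u
    rw [e1 _ _ k] at u
    have m := mm z hz k
    have k0 : |z.2.2 i0| < 1 := by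
      have b := abs_le.1 ((norm_le_pi_norm z.2.2 i0).trans (mem_sphere_zero_iff_norm.1 hz.2.2).le)
      refine abs_lt.2 ⟨b.1.lt_of_ne fun e => (hj _ hz.2.1 _ m.2.2.2).1 ?_,
        b.2.lt_of_ne fun e => (hj _ hz.2.1 _ m.2.2.2).2 ?_⟩
      · rwa [← e, neg_add_cancel, zero_div, mul_zero] at u
      · rwa [e, add_self_div_two, mul_one] at u
    have c1 : Continuous fun w : Unit × (ℝ × E ι) => |w.2.2 i0| := by fun_prop
    filter_upwards [self_mem_nhdsWithin, mem_nhdsWithin_of_mem_nhds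
      (c1.continuousAt.eventually_lt continuousAt_const k0)] with w a b
    exact ⟨a, nc_side (mem_sphere_zero_iff_norm.1 a.2.2) b⟩
  refine ⟨fun z hz u => ?_, fun z hz => hz.2.elim, fun z hz => hz.2.elim, fun t y hy u _ => ?_,
    ?_, fun z hz u _ => ?_, fun z hz u _ => ?_⟩
  · have k := e2 _ _ u
    rw [e1 _ _ k] at u ⊢
    exact h.maps _ (mm z hz k) u
  · obtain ⟨⟨r, n, ω⟩, ⟨-, h1, h2, h3⟩, e⟩ := h.ex t y hy u trivial
    obtain ⟨x, k1, k2, k3⟩ := nc_pt hτ h2 h3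
    refine ⟨(r, x), ⟨trivial, h1, mem_sphere_zero_iff_norm.2 k1⟩, ?_⟩
    rw [e1 _ _ (by rw [k2, h3.2]; exact lt_irrefl _), k2, k3]
    exact e
  · rintro t ⟨r, x⟩ ⟨r', x'⟩ hx hx' u - e
    have k := e2 _ _ u
    have k' := e2 r' x' (e ▸ u)
    simp only at e u k
    rw [e1 _ _ k] at u
    rw [e1 _ _ k, e1 _ _ k'] at e
    have := h.uq t _ _ (mm _ hx k) (mm _ hx' k') u trivial e
    simp only [Prod.mk.injEq] at this ⊢
    refine ⟨this.1, funext fun i => ?_⟩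
    by_cases ei : i = i0
    · have := mul_left_cancel₀ hτ.ne' this.2.1
      rw [ei]
      linarith only [this]
    · have := congrFun this.2.2 i
      rwa [Function.update_of_ne ei, Function.update_of_ne ei] at this
  · have k := e2 _ _ u
    have ev := evs z hz u
    rw [e1 _ _ k] at u
    have m := mm z hz k
    have t : Tendsto (fun w : Unit × (ℝ × E ι) =>
        (w.1, w.2.1, τ * ((w.2.2 i0 + 1) / 2), Function.update w.2.2 i0 0))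
        (𝓝[(univ : Set Unit) ×ˢ Icc (0 : ℝ) 1 ×ˢ sphere (0 : E ι) 1] z)
        (𝓝[(univ : Set Unit) ×ˢ Icc (0 : ℝ) 1 ×ˢ Icc 0 τ ×ˢ Cs i0]
          (z.1, z.2.1, τ * ((z.2.2 i0 + 1) / 2), Function.update z.2.2 i0 0)) :=
      tendsto_nhdsWithin_iff.2 ⟨(Continuous.continuousWithinAt (by fun_prop)).tendsto,
        ev.mono fun w hw => mm w hw.1 hw.2⟩
    refine cont_of_ev (Continuous.continuousWithinAt (by simp only [pbP]; fun_prop))
      (by simp [pbP]) ?_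
    filter_upwards [t.eventually (h.lip _ m u trivial).2, ev] with w a b
    rw [e1 _ _ k, e1 _ _ b.2]
    refine a.trans ?_
    have d1 : |τ * ((w.2.2 i0 + 1) / 2) - τ * ((z.2.2 i0 + 1) / 2)| ≤ τ / 2 * dist w.2.2 z.2.2 := by
      rw [show τ * ((w.2.2 i0 + 1) / 2) - τ * ((z.2.2 i0 + 1) / 2) =
        τ / 2 * (w.2.2 i0 - z.2.2 i0) by ring, abs_mul, abs_of_pos (half_pos hτ)]
      exact mul_le_mul_of_nonneg_left (dist_le_pi_dist w.2.2 z.2.2 i0) (half_pos hτ).le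
    have d2 := mul_le_mul_of_nonneg_left d1 hA
    have d3 := mul_le_mul_of_nonneg_left (nc_upd_dist (i0 := i0) z.2.2 w.2.2) hB
    simp only [pbP]
    linarith only [d2, d3]
  · have k := e2 _ _ u
    have ev := evs z hz u
    rw [e1 _ _ k] at u
    have cΦ : Continuous fun w : Unit × (ℝ × E ι) =>
        (w.1, w.2.1, τ * ((w.2.2 i0 + 1) / 2), Function.update w.2.2 i0 0) := by fun_prop
    have k1 := ((h.lo _ (mm z hz k) u trivial).comp_ev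
      (R' := (univ : Set Unit) ×ˢ Icc (0 : ℝ) 1 ×ˢ sphere (0 : E ι) 1)
      (Φ := fun w : Unit × (ℝ × E ι) =>
        (w.1, w.2.1, τ * ((w.2.2 i0 + 1) / 2), Function.update w.2.2 i0 0))
      (P' := fun w => sphD i0 y0 τ (fun v => M (w.2.1, v)) w.2.2 ∈ U ∧
        sphD i0 y0 τ (fun v => M (w.2.1, v)) w.2.2 ∈ univ)
      (ev.mono fun w hw => mm w hw.1 hw.2) cΦ.continuousWithinAt
      (ev.mono fun w hw a => ⟨⟨e1 _ _ hw.2 ▸ a.1, trivial⟩, cΦ.continuousWithinAt⟩)).congr_ev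
      (F1 := fun w => (w.2.1, τ * ((w.2.2 i0 + 1) / 2), Function.update w.2.2 i0 0))
      (G1 := fun w => (w.1, sphD i0 y0 τ (fun v => M (w.2.1, v)) w.2.2))
      (ev.mono fun w hw => ⟨rfl, by rw [e1 _ _ hw.2]⟩)
    refine k1.fst.prod ((k1.snd.snd.update
      (((k1.snd.fst.cmul 2).divc τ).sub (Dm.const 1)) i0).congrL fun w _ => ?_)
    have e : 2 * (τ * ((w.2.2 i0 + 1) / 2)) / τ - 1 = w.2.2 i0 := by
      field_simp
      ring
    simp only [e, Function.update_idem, Function.update_eq_self]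

theorem nc_near {α : Type} [TopologicalSpace α] {R : Set α} {P : α → Prop} {F : α → Y}
    {φ : Y → Y} (hl : ∀ y y', dist y' y < 1 → dist y' y ≤ dist (φ y') (φ y))
    (hc : ∀ w ∈ R, ContinuousWithinAt F R w) (z : α) : Dm R P F (fun w => φ (F w)) z :=
  Dm.of_gauge (K := 1) fun w hw _ =>
    ((hc w hw).eventually (ball_mem_nhds _ one_pos)).mono fun v b => by
      rw [one_mul]
      exact hl _ _ b

omit [DecidableEq ι] in
theorem ncS.post (hU : IsOpen U) {p q : ℝ} {C : Set Y} {A B c : ℝ} {M : ℝ × (ℝ × E ι) → Y}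
    (h : ncS U i0 p q C A B c M) {φ : Y → Y} (hφ : ∀ y, φ y ∈ U ↔ y ∈ U) (hi : InjOn φ C)
    (hl : ∀ y y', dist y' y < 1 → dist (φ y') (φ y) ≤ dist y' y)
    (hl' : ∀ y y', dist y' y < 1 → dist y' y ≤ dist (φ y') (φ y)) :
    ncS U i0 p q (φ '' C) A B c fun z => φ (M z) := by
  unfold ncS
  refine Sol.post (l1 := 1) (l2 := 0) hU h ⟨fun z hz => hz.2.elim, fun z hz => hz.2.elim, one_pos⟩
    (fun _ => φ) zero_le_one rfl Subset.rfl (fun _ => hφ) ?_ ?_ ?_ ?_ ?_ ?_ ?_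
  · exact fun z hz => hz.2.elim
  · exact fun t y _ => ⟨fun ⟨_, x, h1, h2⟩ => ⟨x, ⟨trivial, h1⟩, h2⟩,
      fun ⟨x, h1, h2⟩ => ⟨trivial, x, h1.2, h2⟩⟩
  · exact fun t y h1 y' h2 _ e => hi h2.2 h1.2 e
  · exact fun _ _ _ _ _ => trivial
  · intro t y _ _
    have c1 : Continuous fun w : Unit × Y => dist w.2 y := by fun_prop
    filter_upwards [mem_nhdsWithin_of_mem_nhds (c1.continuousAt.eventually_lt
      (continuousAt_const (y := (1 : ℝ))) (x₀ := (t, y)) (by simp))] with w hw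
    simpa using hl _ _ hw
  · exact fun z _ => Eventually.of_forall fun z' => by simp [pbP]
  · exact fun t y _ _ => (nc_near hl' (fun _ _ => continuousWithinAt_snd) _).toR

omit [DecidableEq ι] in
/-- The filling of the thickened band. -/
theorem nc_band {S D DL DR Fx : Set Y} (hU : IsOpen U) {η : ℝ} (hη : 0 ≤ η) (hη1 : η ≤ 1)
    {σ ϱ : ℝ → Y → Y} (hc : Col U S D η σ ϱ Fx) (sL : DL ⊆ D) (sR : DR ⊆ D) {φ : Y → Y}
    (hφ : ∀ y, φ y ∈ U ↔ y ∈ U) (hl : ∀ y y', dist y' y < 1 → dist (φ y') (φ y) ≤ dist y' y)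
    (hl' : ∀ y y', dist y' y < 1 → dist y' y ≤ dist (φ y') (φ y))
    (iL : InjOn φ (ncC σ DL)) (iR : InjOn φ (ncC σ DR)) {lL lR d a b : ℝ} (pL : 0 ≤ lL)
    (pR : 0 ≤ lR) (hd : 0 < d) (ha : 0 ≤ a) (hb : 0 ≤ b) (hη2 : 200 * η ≤ a * d)
    {BL BR : ℝ × E ι → Y} (bL : SBnd U i0 (lL + d) DL a b BL) (bR : SBnd U i0 (d + lR) DR a b BR)
    (jL : ∀ m ∈ Icc (7 / 8 : ℝ) 1, ∀ ω ∈ Cs i0, BL (lL + d * m, ω) ∉ U)
    (jR : ∀ m ∈ Icc (7 / 8 : ℝ) 1, ∀ ω ∈ Cs i0, BR (d * (1 - m), ω) ∉ U)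
    (hw : ∀ r ∈ Icc (0 : ℝ) 1, ∀ ω ∈ Cs i0,
      φ (BL (lL + d * ((1 + r) / 2), ω)) = φ (BR (d * ((1 - r) / 2), ω)))
    (hs : ∀ u ∈ ncC σ DL, ∀ v ∈ ncC σ DR, φ u = φ v → u ∈ U →
      ∃ r ∈ Icc (0 : ℝ) 1, ∃ ω ∈ Cs i0, φ (BL (lL + d * ((1 + r) / 2), ω)) = φ u) :
    ∃ Ψ : ℝ × (ℝ × E ι) → Y,
      ncS U i0 0 (lL + 2 * d + lR) (φ '' ncC σ DL ∪ φ '' ncC σ DR) (5 * a) (2 * b) (3 * (a * d)) Ψ ∧
      (∀ r ∈ Icc (0 : ℝ) 1, ∀ ω ∈ Cs i0, Ψ (r, 0, ω) ∉ U ∧ Ψ (r, lL + 2 * d + lR, ω) ∉ U) ∧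
      ∀ n ∈ Icc 0 (lL + 2 * d + lR), ∀ ω ∈ Cs i0,
        (n ≤ lL → Ψ (0, n, ω) = φ (BL (n, ω))) ∧
        (lL ≤ n → n ≤ lL + d → Ψ (0, n, ω) = φ (BL (lL + d * ((n - lL) / (2 * d)), ω))) ∧
        (lL + d < n → n ≤ lL + 2 * d → Ψ (0, n, ω) = φ (BR (d * ((n - lL) / (2 * d)), ω))) ∧
        (lL + 2 * d ≤ n → Ψ (0, n, ω) = φ (BR (n - lL - d, ω))) ∧
        (n ≤ lL + d → Ap U (Ψ (1, n, ω)) (φ (σ 1 (BL (n, ω))))) ∧
        (lL + d < n → Ap U (Ψ (1, n, ω)) (φ (σ 1 (BR (n - lL - d, ω))))) := by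
  have j0 : (0 : ℝ) ∈ Icc (0 : ℝ) 1 := left_mem_Icc.2 zero_le_one
  have j1 : (1 : ℝ) ∈ Icc (0 : ℝ) 1 := right_mem_Icc.2 zero_le_one
  have pA : 0 ≤ (1 + η) * a := mul_nonneg (by linarith only [hη]) ha
  have k1 : 2 * ((1 + η) * a) + η * (100 / d) ≤ 5 * a := by
    have : η * (100 / d) ≤ a / 2 := by
      rw [← mul_div_assoc, div_le_iff₀ hd]
      linarith only [hη2]
    nlinarith only [ha, this, hη1]
  have k2 : (1 + η) * b ≤ 2 * b := by nlinarith only [hη1, hb]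
  have k3 : (1 + η) * a * d + η * 200 ≤ 3 * (a * d) := by
    nlinarith only [mul_nonneg ha hd.le, hη2, hη, hη1]
  have sA := ((((nc_col hU hη hc sL bL).half pL hd pA hη fun s h1 m h2 ω h3 u =>
    jL m h2 ω h3 ((hc.memU s h1 _).1 u))).mono k1 k2 k3).post hU hφ iL hl hl'
  have sB := (((((nc_col hU hη hc sR bR).refl (p' := 0) (q' := lR + d) (κ := d + lR) (by ring)
    (by ring)).half pR hd pA hη fun s h1 m h2 ω h3 u => jR m h2 ω h3 (by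
      have := (hc.memU s h1 _).1 u
      rwa [show d + lR - (lR + d * m) = d * (1 - m) by ring] at this)).mono k1 k2 k3).refl
      (p' := lL + d) (q' := lL + 2 * d + lR) (κ := lL + 2 * d + lR) (by ring) (by ring)).post
      hU hφ iR hl hl'
  have eA : ∀ r ∈ Icc (0 : ℝ) 1, ∀ ω, φ (σ (ntS (ncY lL d (lL + d)) r)
      (BL (ncN lL d r (lL + d), ω))) = φ (BL (lL + d * ((1 + r) / 2), ω)) := fun r hr ω => by
    rw [(nc_top hd hr).1, (nc_top hd hr).2, hc.zero]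
  refine ⟨_, sA.glue (by linarith only [pL, hd]) (by linarith only [pR, hd]) sB (fun r hr ω hω => ?_) ?_,
    fun r hr ω hω => ⟨?_, ?_⟩, fun n hn ω hω => ⟨fun h => ?_, fun h h' => ?_, fun h h' => ?_,
      fun h => ?_, fun h => ?_, fun h => ?_⟩⟩
  · simp only
    rw [eA r hr, hw r hr ω hω, show lL + 2 * d + lR - (lL + d) = lR + d by ring,
      (nc_top hd hr).1, (nc_top hd hr).2, hc.zero]
    congr 3
    ring
  · rintro _ ⟨u, hu, rfl⟩ ⟨v, hv, e⟩ k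
    obtain ⟨r, hr, ω, hω, e'⟩ := hs u hu v hv e.symm ((hφ _).1 k)
    exact ⟨r, hr, ω, hω, (eA r hr ω).trans e'⟩
  · simp only
    rw [if_pos (by linarith only [pL, hd]), (nc_le hr pL).1, (nc_le hr pL).2, hφ, hc.memU r hr]
    exact ((bL.2 0 j0).2 ω hω).1
  · simp only
    rw [if_neg (by linarith only [pR, hd]), sub_self, (nc_le hr pR).1, (nc_le hr pR).2, hφ, hc.memU r hr,
      sub_zero]
    exact ((bR.2 0 j0).2 ω hω).2
  · simp only
    rw [if_pos (by linarith only [hd, h]), (nc_le j0 h).1, (nc_le j0 h).2, hc.zero]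
  · simp only
    rw [if_pos h', (nc_zero hd h h').1, (nc_zero hd h h').2, hc.zero]
  · have p1 : lR ≤ lL + 2 * d + lR - n := by linarith only [h']
    have p2 : lL + 2 * d + lR - n ≤ lR + d := by linarith only [h]
    simp only
    rw [if_neg h.not_ge, (nc_zero hd p1 p2).1, (nc_zero hd p1 p2).2, hc.zero]
    congr 3
    field_simp
    ring
  · have p1 : lL + 2 * d + lR - n ≤ lR := by linarith only [h]
    simp only
    rw [if_neg (by linarith only [hd, h]), (nc_le j0 p1).1, (nc_le j0 p1).2, hc.zero]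
    congr 3
    ring
  · obtain ⟨e, e' | ⟨m, hm, e'⟩⟩ := nc_one hd h
    · simp only
      rw [if_pos h, e, e']
      exact Ap.rfl
    · simp only
      rw [if_pos h, e]
      refine Ap.of_not ?_ ?_
      · rw [hφ, hc.memU _ (nt_mem (ncY_mem hd h) j1).2, e']
        exact jL m hm ω hω
      · rw [hφ, hc.memU _ j1, e']
        exact jL m hm ω hω
  · have p2 : lL + 2 * d + lR - n ≤ lR + d := by linarith only [h]
    have e0 : d + lR - (lL + 2 * d + lR - n) = n - lL - d := by ring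
    obtain ⟨e, e' | ⟨m, hm, e'⟩⟩ := nc_one hd p2
    · simp only
      rw [if_neg h.not_ge, e, e', e0]
      exact Ap.rfl
    · have e1 : n - lL - d = d * (1 - m) := by linarith only [e']
      simp only
      rw [if_neg h.not_ge, e, e0, e1]
      refine Ap.of_not ?_ ?_
      · rw [hφ, hc.memU _ (nt_mem (ncY_mem hd p2) j1).2]
        exact jR m hm ω hω
      · rw [hφ, hc.memU _ j1]
        exact jR m hm ω hω

end

/-- Merging two labels. -/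
def ncR (a a1 a2 : ℕ) (y : YL ι) : YL ι := if y.1 = a1 ∨ y.1 = a2 then (a, y.2) else y

section
variable {a a1 a2 : ℕ}

omit [Fintype ι] [DecidableEq ι] in
theorem ncR_snd (y : YL ι) : (ncR a a1 a2 y).2 = y.2 := by
  unfold ncR
  split_ifs <;> rfl

omit [Fintype ι] [DecidableEq ι] in
theorem ncR_U {U0 : Set (E ι)} (y : YL ι) : ncR a a1 a2 y ∈ UL U0 ↔ y ∈ UL U0 := by
  simp only [UL, mem_preimage, ncR_snd]

omit [Fintype ι] [DecidableEq ι] in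
theorem ncR_ne {y : YL ι} (h1 : y.1 ≠ a1) (h2 : y.1 ≠ a2) : ncR a a1 a2 y = y :=
  if_neg fun h => h.elim h1 h2

omit [Fintype ι] [DecidableEq ι] in
theorem ncR_of {y : YL ι} (h : y.1 = a1 ∨ y.1 = a2) : ncR a a1 a2 y = (a, y.2) := if_pos h

omit [Fintype ι] [DecidableEq ι] in
theorem ncR_1 (x : E ι) : ncR a a1 a2 (a1, x) = (a, x) := ncR_of (.inl rfl)

omit [Fintype ι] [DecidableEq ι] in
theorem ncR_2 (x : E ι) : ncR a a1 a2 (a2, x) = (a, x) := ncR_of (.inr rfl)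

omit [DecidableEq ι] in
theorem nc_lab_eq {y y' : YL ι} (h : dist y' y < 1) : y'.1 = y.1 := by
  by_contra k
  have h1 : (1 : ℝ) ≤ dist y'.1 y.1 := by
    rw [Nat.dist_eq]
    rcases lt_or_gt_of_ne k with k | k
    · have : (y'.1 : ℝ) + 1 ≤ y.1 := by exact_mod_cast k
      exact le_abs.2 (.inr (by linarith only [this]))
    · have : (y.1 : ℝ) + 1 ≤ y'.1 := by exact_mod_cast k
      exact le_abs.2 (.inl (by linarith only [this]))
  exact (h1.trans (le_max_left _ _)).not_gt h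

omit [DecidableEq ι] in
theorem ncR_near' (y y' : YL ι) (h : dist y' y < 1) :
    dist y' y ≤ dist (ncR a a1 a2 y') (ncR a a1 a2 y) := by
  rw [Prod.dist_eq, nc_lab_eq h, dist_self, ← ncR_snd (a := a) (a1 := a1) (a2 := a2) y',
    ← ncR_snd (a := a) (a1 := a1) (a2 := a2) y]
  exact max_le dist_nonneg (le_max_right _ _)

omit [DecidableEq ι] in
theorem ncR_near (y y' : YL ι) (h : dist y' y < 1) :
    dist (ncR a a1 a2 y') (ncR a a1 a2 y) ≤ dist y' y := by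
  have e : y'.1 = y.1 := nc_lab_eq h
  unfold ncR
  rw [e]
  split_ifs
  · rw [Prod.dist_eq, dist_self]
    exact max_le dist_nonneg (le_max_right _ _)
  · exact le_rfl

omit [Fintype ι] [DecidableEq ι] in
theorem ncR_eq {u v : YL ι} (h : ncR a a1 a2 u = ncR a a1 a2 v)
    (hu : u.1 = a → u.1 = a1 ∨ u.1 = a2) (hv : v.1 = a → v.1 = a1 ∨ v.1 = a2) :
    u = v ∨ (u.2 = v.2 ∧ ((u.1 = a1 ∧ v.1 = a2) ∨ (u.1 = a2 ∧ v.1 = a1))) := by
  have e : u.2 = v.2 := by rw [← ncR_snd u, h, ncR_snd]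
  by_cases k : u.1 = a1 ∨ u.1 = a2 <;> by_cases k' : v.1 = a1 ∨ v.1 = a2
  · rcases k with k | k <;> rcases k' with k' | k'
    exacts [.inl (Prod.ext (k.trans k'.symm) e), .inr ⟨e, .inl ⟨k, k'⟩⟩, .inr ⟨e, .inr ⟨k, k'⟩⟩,
      .inl (Prod.ext (k.trans k'.symm) e)]
  · rw [ncR_of k, ncR, if_neg k'] at h
    exact absurd (hv (congrArg Prod.fst h).symm) k'
  · rw [ncR_of k', ncR, if_neg k] at h
    exact absurd (hu (congrArg Prod.fst h)) k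
  · rw [ncR, if_neg k, ncR, if_neg k'] at h
    exact .inl h

variable {lsL lsR : List (ℕ × Bx ι)} {Q Q1 Q2 : Bx ι}

omit [Fintype ι] [DecidableEq ι] in
theorem nc_src3 (y : YL ι) : y ∈ srcL (lsL ++ (a, Q) :: lsR) ↔
    y ∈ srcL lsL ∨ (y.1 = a ∧ y.2 ∈ Q.set) ∨ y ∈ srcL lsR := by
  simp only [srcL, mem_ofPred_eq, List.mem_append, List.mem_cons, or_and_right, exists_or,
    exists_eq_left]

omit [Fintype ι] [DecidableEq ι] in
theorem nc_src4 (y : YL ι) : y ∈ srcL (lsL ++ (a1, Q1) :: (a2, Q2) :: lsR) ↔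
    y ∈ srcL lsL ∨ (y.1 = a1 ∧ y.2 ∈ Q1.set) ∨ (y.1 = a2 ∧ y.2 ∈ Q2.set) ∨ y ∈ srcL lsR := by
  simp only [srcL, mem_ofPred_eq, List.mem_append, List.mem_cons, or_and_right, exists_or,
    exists_eq_left]

omit [Fintype ι] [DecidableEq ι] in
theorem nc_bd1 (y : YL ι) : y ∈ bdL [(a, Q)] ↔ y.1 = a ∧ y.2 ∈ Q.bd := by
  simp only [bdL, mem_ofPred_eq, List.mem_singleton, exists_eq_left]

omit [Fintype ι] [DecidableEq ι] in
theorem nc_bd4 : bdL (lsL ++ (a1, Q1) :: (a2, Q2) :: lsR) =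
    bdL lsL ∪ bdL [(a1, Q1)] ∪ (bdL [(a2, Q2)] ∪ bdL lsR) := by
  ext y
  simp only [bdL, mem_union, mem_ofPred_eq, List.mem_append, List.mem_cons, List.not_mem_nil,
    or_false, or_and_right, exists_or, exists_eq_left, or_assoc]

omit [Fintype ι] [DecidableEq ι] in
theorem nc_lab (h0 : ((lsL ++ (a, Q) :: lsR).map Prod.fst).Nodup)
    (h1 : ((lsL ++ (a1, Q1) :: (a2, Q2) :: lsR).map Prod.fst).Nodup) : a1 ≠ a2 ∧
    (∀ y ∈ srcL lsL, y.1 ≠ a ∧ y.1 ≠ a1 ∧ y.1 ≠ a2 ∧ ∀ y' ∈ srcL lsR, y.1 ≠ y'.1) ∧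
      ∀ y ∈ srcL lsR, y.1 ≠ a ∧ y.1 ≠ a1 ∧ y.1 ≠ a2 := by
  simp only [List.map_append, List.map_cons, List.nodup_append, List.nodup_cons, List.mem_cons,
    List.mem_map, not_or, not_exists, not_and] at h0 h1
  obtain ⟨-, ⟨k1, -⟩, k2⟩ := h0
  obtain ⟨-, ⟨⟨k3, k4⟩, k5, -⟩, k6⟩ := h1
  refine ⟨k3, ?_, ?_⟩
  · rintro y ⟨b, hb, e, -⟩
    refine ⟨k2 _ ⟨b, hb, e.symm⟩ _ (.inl rfl), k6 _ ⟨b, hb, e.symm⟩ _ (.inl rfl),
      k6 _ ⟨b, hb, e.symm⟩ _ (.inr (.inl rfl)), ?_⟩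
    rintro y' ⟨b', hb', e', -⟩
    exact k2 _ ⟨b, hb, e.symm⟩ _ (.inr ⟨b', hb', e'.symm⟩)
  · rintro y ⟨b, hb, e, -⟩
    exact ⟨fun k => k1 b hb (e.symm.trans k), fun k => k4 b hb (e.symm.trans k),
      fun k => k5 b hb (e.symm.trans k)⟩

theorem nc_half (hQ : Q.Pos) (j : ι) {ε : ℝ} (hε : ε = 1 ∨ ε = -1) (x : E ι) :
    (x ∈ Q.set ↔ x ∈ (Q.H j (-ε)).set ∨ x ∈ (Q.H j ε).set) ∧
    (x ∈ (Q.H j (-ε)).set → x ∈ (Q.H j ε).set →
      x j = Q.mid j ∧ x ∈ (Q.H j (-ε)).bd ∧ x ∈ (Q.H j ε).bd) := by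
  have k1 : x ∈ Q.set ↔ x ∈ (Q.L j).set ∨ x ∈ (Q.R j).set := by
    rw [hQ.set_L, hQ.set_R]
    exact ⟨fun h => (le_total (x j) (Q.mid j)).imp (fun k => ⟨h, k⟩) fun k => ⟨h, k⟩,
      fun h => h.elim And.left And.left⟩
  have k2 : x ∈ (Q.L j).set → x ∈ (Q.R j).set →
      x j = Q.mid j ∧ x ∈ (Q.L j).bd ∧ x ∈ (Q.R j).bd := fun h h' => by
    have e : x j = Q.mid j := le_antisymm (hQ.set_L j ▸ h).2 (hQ.set_R j ▸ h').2
    exact ⟨e, Bx.wall_L h e, Bx.wall_R h' e⟩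
  have e1 : Q.H j 1 = Q.R j := if_pos one_pos
  have e2 : Q.H j (-1) = Q.L j := if_neg (by norm_num)
  rcases hε with rfl | rfl
  · rw [e1, e2]
    exact ⟨k1, k2⟩
  · rw [neg_neg, e1, e2]
    exact ⟨k1.trans or_comm, fun h h' => ⟨(k2 h' h).1, (k2 h' h).2.2, (k2 h' h).2.1⟩⟩

theorem nc_lb {k : ℤ} (hQ : LB k Q) {j : ι} (hm : Lat k (Q.mid j)) (ε : ℝ) : LB k (Q.H j ε) := by
  intro i
  have k1 := hQ.pos.mid_g j
  unfold Bx.H
  split_ifs <;> by_cases h : i = j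
  · subst h
    simpa [Bx.R] using ⟨hm, (hQ i).2.1, k1.2⟩
  · simpa [Bx.R, h] using hQ i
  · subst h
    simpa [Bx.L] using ⟨(hQ i).1, hm, k1.1⟩
  · simpa [Bx.L, h] using hQ i

theorem nc_mid (Q : Bx ι) (j : ι) {ε : ℝ} (hε : ε = 1 ∨ ε = -1) :
    (Q.H j ε).af (Pi.single j (-ε)) = Q.mid := by
  rw [Bx.af_H Q j hε]
  funext i
  by_cases h : i = j
  · subst h
    simp [Bx.af, hf]
  · simp [Bx.af, hf, h]

omit [DecidableEq ι] in
theorem nc_rev {i0 : ι} {K : ℝ} {p q : E ι} {Ξ : ℝ × E ι → E ι} (h : Disp i0 K q p (rev Ξ)) :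
    Disp i0 K p q Ξ := by
  have fl : ∀ {n : ℝ}, n ∈ Icc (0 : ℝ) 1 → 1 - n ∈ Icc (0 : ℝ) 1 := fun h =>
    ⟨by linarith only [h.2], by linarith only [h.1]⟩
  have e : ∀ n ω, rev Ξ (1 - n, ω) = Ξ (n, ω) := fun n ω => by simp [rev]
  refine ⟨?_, fun t ht n hn ω hω => (congrArg norm (e n ω)).symm.trans
    (h.2.1 t ht _ (fl hn) ω hω), fun t ht ω hω => ?_⟩
  · rw [pair_comm]
    refine Sol.congr_eq (Z := fun z => rev Ξ (1 - z.2.1, z.2.2)) ?_ (fun z hz => hz.2.elim)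
      fun z _ => (e _ _).symm
    refine Sol.comp h.1 (fun t : Unit => t) (fun z : Unit × (ℝ × E ι) => (1 - z.2.1, z.2.2))
      ?_ ?_ ?_ ?_ ?_ ?_ ?_ ?_
    · exact fun z hz => ⟨trivial, fl hz.2.1, hz.2.2⟩
    · exact fun _ _ _ h => h
    · exact fun _ _ h _ => h
    · rintro t y - - - ⟨n, ω⟩ ⟨-, h1, h2⟩ -
      exact ⟨(1 - n, ω), ⟨trivial, fl h1, h2⟩, by simp⟩
    · rintro t ⟨n, ω⟩ ⟨n', ω'⟩ - - - e
      simp only [Prod.mk.injEq, sub_right_inj] at e ⊢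
      exact e
    · refine fun z _ _ => ⟨Continuous.continuousWithinAt (by fun_prop),
        Eventually.of_forall fun z' => le_of_eq ?_⟩
      simp only [pbP, gs, Prod.dist_eq, dist_sub_left]
    · exact fun z hz => hz.2.elim
    · exact fun z _ _ => ⟨Dm.refl, Dm.toR (Dm.of_le (K := 1) fun v _ v' _ => le_of_eq (by
        simp only [Prod.dist_eq, dist_sub_left, one_mul]))⟩
  · have := h.2.2 t ht ω hω
    simp only [rev, sub_zero, sub_self] at this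
    exact this.symm

theorem nc_disp {i0 : ι} {K : ℝ} {p q : E ι} {j : ι} {Ξ : ℝ × E ι → E ι}
    (h : Good i0 K p q j Ξ) : Disp i0 K p q Ξ :=
  h.elim And.left fun k => nc_rev k.1

end

theorem nc_num {X Y s w : ℝ} (hs : 0 < s) (hs' : s < 1) (hw : 0 < w) (h1 : 2500 * X ≤ s * w)
    (h2 : 2500 * Y ≤ (1 - s) * w) :
    9 / 2 * X * (3 / (s * w) + 3 * (1 - s) / s * (4 / ((1 - s) * w))) +
      3 * Y * (4 / ((1 - s) * w)) ≤ 1 := by
  have p1 : 0 < 1 - s := by linarith only [hs']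
  have e : 3 / (s * w) + 3 * (1 - s) / s * (4 / ((1 - s) * w)) = 15 / (s * w) := by
    field_simp
    ring
  have k1 : 9 / 2 * X * (15 / (s * w)) ≤ 1 / 2 := by
    rw [← mul_div_assoc, div_le_iff₀ (mul_pos hs hw)]
    linarith only [mul_pos hs hw, h1, hs, hw]
  have k2 : 3 * Y * (4 / ((1 - s) * w)) ≤ 1 / 2 := by
    rw [← mul_div_assoc, div_le_iff₀ (mul_pos p1 hw)]
    linarith only [mul_pos p1 hw, h2, p1, hw]
  rw [e]
  linarith only [k1, k2]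

namespace EV

variable [Nonempty ι] [Nontrivial ι] {W : EV ι} {F0 : Set (E ι)} {f : ℝ}

theorem OK.notch_red (h : W.OK) (hf : 0 < f) (hf' : f ≤ 1 / 16) {lsL lsR : List (ℕ × Bx ι)}
    {a a1 a2 : ℕ} {k : ℤ} {Q : Bx ι} (hQ : LB k Q) {j : ι} {ε : ℝ} (hm : ∀ i, Lat k (Q.mid i))
    {p q p1 q2 : E ι} {Ξ Ξ1 Ξ2 : ℝ × E ι → E ι}
    (had : Adapt W.i0 W.K0 p q j ε Ξ Ξ1 Ξ2 p1 q2) (np : W.Neck k (Q.af p))
    (nq : W.Neck k (Q.af q)) (nm : Q.mid ∉ W.U0)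
    (h0 : ((lsL ++ (a, Q) :: lsR).map Prod.fst).Nodup)
    (h1 : LsOk F0 (lsL ++ (a1, Q.H j (-ε)) :: (a2, Q.H j ε) :: lsR)) {t : ℝ}
    (ht : ∀ G, Cube k G → G.set ⊆ Q.set → W.tm G ≤ t) {S d : ℝ} (hS : ∀ i, Q.sd i ≤ S)
    (hd : 0 < d) (hdt : W.K * t * S * W.K1 ≤ W.a0 * d) {lL lR : ℝ}
    {ΓL ΓR : ℝ × E ι → YL ι}
    (bL : SBnd (UL W.U0) W.i0 lL (bdL lsL) W.a0 (W.a0 * (lL + 2 * d + lR)) ΓL)
    (bR : SBnd (UL W.U0) W.i0 lR (bdL lsR) W.a0 (W.a0 * (lL + 2 * d + lR)) ΓR)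
    {R : GB ι} (hR : R.Valid f) {L : ℝ} (hL : 0 < L) (hL' : L < R.sz)
    (n1 : 10 ^ 5 * (W.a0 * (lL + 2 * d + lR)) ≤ f * L)
    (n2 : 10 ^ 5 * (W.a0 * d) ≤ f * (R.sz - L)) {c c' : ℝ} (c1 : 1 ≤ c') (c2 : c' < c) :
    Red W.U0 F0
      (pbS R (sphD W.i0 W.y0 (lL + (2 * d + lR))
        (cat lL ΓL (cat (2 * d) (W.bb a k t Q Ξ (2 * d)) ΓR))) (srcL (lsL ++ (a, Q) :: lsR)) c)
      {pbS (R.hom (L / R.sz)) (sphD W.i0 W.y0 (lL + (d + (d + lR)))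
        (cat lL ΓL (cat d (W.bb a1 k t (Q.H j (-ε)) Ξ1 d)
          (cat d (W.bb a2 k t (Q.H j ε) Ξ2 d) ΓR))))
        (srcL (lsL ++ (a1, Q.H j (-ε)) :: (a2, Q.H j ε) :: lsR)) c'} := by
  classical
  have hU : IsOpen (UL W.U0) := isOpen_UL h.hU
  have j0 : (0 : ℝ) ∈ Icc (0 : ℝ) 1 := left_mem_Icc.2 zero_le_one
  have j1 : (1 : ℝ) ∈ Icc (0 : ℝ) 1 := right_mem_Icc.2 zero_le_one
  obtain ⟨cK, cK1, -, ca, -⟩ := h.consts
  have pL : 0 ≤ lL := (bL.2 0 j0).1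
  have pR : 0 ≤ lR := (bR.2 0 j0).1
  have pa : 0 < W.a0 := by linarith only [hf, hf', ca]
  have pτ : 0 < lL + 2 * d + lR := by linarith only [hd, pL, pR]
  have hε := had.sg
  have hε' : -ε = 1 ∨ -ε = -1 := by rcases hε with rfl | rfl <;> simp
  have hh := nc_half hQ.pos j hε
  obtain ⟨ne, fL, fR⟩ := nc_lab h0 h1.1
  have mid1 : (Q.H j (-ε)).af (Pi.single j ε) = Q.mid := by simpa using nc_mid Q j hε'
  have mid2 : (Q.H j ε).af (Pi.single j (-ε)) = Q.mid := nc_mid Q j hε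
  have nmid : W.P k (t, Q.mid) ∉ W.U0 := h.neck hQ ht
    (Bx.mem_set.2 fun i => ⟨(hQ.pos.mid_g i).1.le, (hQ.pos.mid_g i).2.le⟩) ⟨hm, nm⟩
  have item : ∀ (b : ℕ) (δ : ℝ) {p' q' : E ι} {Ξ' : ℝ × E ι → E ι}, (Q.H j δ).set ⊆ Q.set →
      Disp W.i0 W.K0 p' q' Ξ' → W.Neck k ((Q.H j δ).af p') → W.Neck k ((Q.H j δ).af q') →
      SBnd (UL W.U0) W.i0 d (bdL [(b, Q.H j δ)]) W.a0 (W.a0 * (lL + 2 * d + lR))
        (W.bb b k t (Q.H j δ) Ξ' d) := by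
    intro b δ p' q' Ξ' hs hD k1 k2
    refine (h.bnd_item b (nc_lb hQ (hm j) δ) (S := S) (fun i => ?_) k1 k2 (K1 := W.K1)
      (by linarith only [hf, hf', cK1]) (hD.const.mono h.ds.p1) (t := fun _ => t) (l := fun _ => d) (t0 := t)
      (pt := 0) (pl := 0) (c := W.a0 * (lL + 2 * d + lR)) (fun G hG hG' => ht G hG (hG'.trans hs))
      (fun r _ => ⟨le_rfl, hd, hdt, hdt.trans (mul_le_mul_of_nonneg_left (by linarith only [hd, pL, pR]) pa.le)⟩)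
      le_rfl le_rfl (fun _ _ _ _ => by simp) (by simp)).slice j0
    rw [Bx.sd_H_g]
    by_cases e : i = j
    · rw [e, Function.update_self]
      linarith only [hS j, hQ.pos.sd_g j]
    · rw [Function.update_of_ne e]
      exact hS i
  have g1 := item a1 (-ε) (fun x hx => (hh x).1.2 (.inl hx)) (nc_disp had.g1)
    (by rw [Bx.af_H Q j hε', ← had.hp]; exact np) (by rw [mid1]; exact ⟨hm, nm⟩)
  have g2 := item a2 ε (fun x hx => (hh x).1.2 (.inr hx)) (nc_disp had.g2)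
    (by rw [mid2]; exact ⟨hm, nm⟩) (by rw [Bx.af_H Q j hε, ← had.hq]; exact nq)
  have dL : ∀ y ∈ bdL lsL ∪ bdL [(a1, Q.H j (-ε))],
      y.1 ≠ a2 ∧ ∀ y' ∈ srcL lsR, y.1 ≠ y'.1 := by
    rintro y (hy | hy)
    · exact (fL y (bdL_subset _ hy)).2.2
    · rw [((nc_bd1 y).1 hy).1]
      exact ⟨ne, fun y' hy' => (fR y' hy').2.1.symm⟩
  have dR : ∀ y ∈ bdL [(a2, Q.H j ε)] ∪ bdL lsR,
      y.1 ≠ a1 ∧ (y.1 = a2 ∨ ∃ y' ∈ srcL lsR, y.1 = y'.1) := by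
    rintro y (hy | hy)
    · rw [((nc_bd1 y).1 hy).1]
      exact ⟨ne.symm, .inl rfl⟩
    · exact ⟨(fR y (bdL_subset _ hy)).2.1, .inr ⟨y, bdL_subset _ hy, rfl⟩⟩
  have bA := bL.cat g1 pa.le fun y hy hy' _ =>
    (fL y (bdL_subset _ hy)).2.1 ((nc_bd1 y).1 hy').1
  have bB := g2.cat bR pa.le fun y hy hy' _ =>
    (fR y (bdL_subset _ hy')).2.2 ((nc_bd1 y).1 hy).1
  have bI := bA.cat bB pa.le fun y hy hy' _ => (dR y hy').2.elim (dL y hy).1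
    fun ⟨y', k, k'⟩ => (dL y hy).2 y' k k'
  rw [show lL + d + (d + lR) = lL + 2 * d + lR by ring, ← nc_bd4] at bI
  rw [show lL + (2 * d + lR) = lL + 2 * d + lR by ring,
    show lL + (d + (d + lR)) = lL + 2 * d + lR by ring, ← cat_assoc (l1 := lL) hd.le]
  have vA : ∀ m ω, 0 < m → cat lL ΓL (W.bb a1 k t (Q.H j (-ε)) Ξ1 d) (lL + d * m, ω) =
      (a1, W.P k (t, (Q.H j (-ε)).af (Ξ1 (m, ω)))) := fun m ω hm' => by
    have := mul_pos hd hm'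
    rw [cat, if_neg (by simp only; linarith only [this]), EV.bb, add_sub_cancel_left,
      mul_div_cancel_left₀ _ hd.ne']
  have vB : ∀ m ω, m ≤ 1 → cat d (W.bb a2 k t (Q.H j ε) Ξ2 d) ΓR (d * m, ω) =
      (a2, W.P k (t, (Q.H j ε).af (Ξ2 (m, ω)))) := fun m ω hm' => by
    rw [cat, if_pos (mul_le_of_le_one_right hd.le hm'), EV.bb, mul_div_cancel_left₀ _ hd.ne']
  have vA' : ∀ n ω, n ≤ lL → cat lL ΓL (W.bb a1 k t (Q.H j (-ε)) Ξ1 d) (n, ω) = ΓL (n, ω) :=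
    fun n ω hn => if_pos hn
  have vB' : ∀ n ω, d < n → cat d (W.bb a2 k t (Q.H j ε) Ξ2 d) ΓR (n, ω) = ΓR (n - d, ω) :=
    fun n ω hn => if_neg hn.not_ge
  generalize cat lL ΓL (W.bb a1 k t (Q.H j (-ε)) Ξ1 d) = BL at bA bI vA vA' ⊢
  generalize cat d (W.bb a2 k t (Q.H j ε) Ξ2 d) ΓR = BR at bB bI vB vB' ⊢
  obtain ⟨η, η0, η1, η2, η3⟩ : ∃ η : ℝ, 0 < η ∧ η ≤ 1 ∧ 200 * η ≤ W.a0 * d ∧ (1 + η) * c' ≤ c := by
    have p1 : 0 < W.a0 * d / 200 := by positivity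
    have p2 : 0 < (c - c') / c' := div_pos (by linarith only [c2]) (by linarith only [hf, hf', c1])
    refine ⟨min 1 (min (W.a0 * d / 200) ((c - c') / c')), lt_min one_pos (lt_min p1 p2),
      min_le_left _ _, ?_, ?_⟩
    · linarith only [(min_le_right 1 _).trans (min_le_left (W.a0 * d / 200) ((c - c') / c'))]
    · have := (le_div_iff₀ (by linarith only [hf, hf', c1] : 0 < c')).1
        ((min_le_right 1 _).trans (min_le_right (W.a0 * d / 200) ((c - c') / c')))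
      linarith only [this]
  obtain ⟨σ, ϱ, hc, hσ⟩ : ∃ σ ϱ, Col (UL W.U0)
      (srcL (lsL ++ (a1, Q.H j (-ε)) :: (a2, Q.H j ε) :: lsR))
      (bdL (lsL ++ (a1, Q.H j (-ε)) :: (a2, Q.H j ε) :: lsR)) η σ ϱ (Prod.snd ⁻¹' F0) ∧
      ∀ s ∈ Icc (0 : ℝ) 1, ∀ y, (σ s y).1 = y.1 :=
    col_list h.hU h.hne _ h1.1 h1.2.1 h1.2.2 η0
  have sD := nc_bd4 (lsL := lsL) (lsR := lsR) (a1 := a1) (a2 := a2) (Q1 := Q.H j (-ε))
    (Q2 := Q.H j ε)
  have s4 := nc_src4 (lsL := lsL) (lsR := lsR) (a1 := a1) (a2 := a2) (Q1 := Q.H j (-ε))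
    (Q2 := Q.H j ε)
  have s3 := nc_src3 (lsL := lsL) (lsR := lsR) (a := a) (Q := Q)
  generalize srcL (lsL ++ (a1, Q.H j (-ε)) :: (a2, Q.H j ε) :: lsR) = S' at hc s4 ⊢
  generalize bdL (lsL ++ (a1, Q.H j (-ε)) :: (a2, Q.H j ε) :: lsR) = D' at hc sD bI
  generalize srcL (lsL ++ (a, Q) :: lsR) = S0 at s3 ⊢
  have sL : bdL lsL ∪ bdL [(a1, Q.H j (-ε))] ⊆ D' := sD ▸ subset_union_left
  have sR : bdL [(a2, Q.H j ε)] ∪ bdL lsR ⊆ D' := sD ▸ subset_union_right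
  have lab : ∀ u ∈ S', (u.1 = a → u.1 = a1 ∨ u.1 = a2) ∧ (u.1 = a1 → u.2 ∈ (Q.H j (-ε)).set) ∧
      (u.1 = a2 → u.2 ∈ (Q.H j ε).set) := fun u hu => by
    rcases (s4 u).1 hu with k | k | k | k
    · exact ⟨fun e => absurd e (fL u k).1, fun e => absurd e (fL u k).2.1,
        fun e => absurd e (fL u k).2.2.1⟩
    · exact ⟨fun _ => .inl k.1, fun _ => k.2, fun e => absurd (k.1.symm.trans e) ne⟩
    · exact ⟨fun _ => .inr k.1, fun e => absurd (e.symm.trans k.1) ne, fun _ => k.2⟩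
    · exact ⟨fun e => absurd e (fR u k).1, fun e => absurd e (fR u k).2.1,
        fun e => absurd e (fR u k).2.2⟩
  have wl : ∀ u ∈ S', ∀ v ∈ S', u.2 = v.2 → u.1 = a1 → v.1 = a2 →
      u.2 j = Q.mid j ∧ u ∈ D' ∧ v ∈ D' := fun u hu v hv e k k' => by
    obtain ⟨w1, w2, w3⟩ := (hh u.2).2 ((lab u hu).2.1 k) (e ▸ (lab v hv).2.2 k')
    exact ⟨w1, sL (.inr ((nc_bd1 u).2 ⟨k, w2⟩)), sR (.inl ((nc_bd1 v).2 ⟨k', e ▸ w3⟩))⟩
  have key : ∀ u ∈ S', ∀ v ∈ S', ncR a a1 a2 u = ncR a a1 a2 (σ 1 v) → u ∈ UL W.U0 →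
      u = σ 1 v := fun u hu v hv e k => by
    have hv' := hc.maps 1 j1 v hv
    have kk : σ 1 v ∉ D' := fun k' => hc.sep 0 1 le_rfl one_pos le_rfl _ k'
      ((ncR_U _).1 (e ▸ (ncR_U u).2 k)) v hv (hc.zero _)
    rcases ncR_eq e (lab u hu).1 (lab _ hv').1 with k' | ⟨e', k' | k'⟩
    · exact k'
    · exact absurd (wl u hu _ hv' e' k'.1 k'.2).2.2 kk
    · exact absurd (wl _ hv' u hu e'.symm k'.2 k'.1).2.1 kk
  have cL : ∀ u ∈ ncC σ (bdL lsL ∪ bdL [(a1, Q.H j (-ε))]),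
      u ∈ S' ∧ u.1 ≠ a2 ∧ ∀ y' ∈ srcL lsR, u.1 ≠ y'.1 := by
    rintro _ ⟨s, hs, y, hy, rfl⟩
    rw [hσ s hs]
    exact ⟨hc.maps s hs y (hc.sub (sL hy)), dL y hy⟩
  have cR : ∀ u ∈ ncC σ (bdL [(a2, Q.H j ε)] ∪ bdL lsR),
      u ∈ S' ∧ u.1 ≠ a1 ∧ (u.1 = a2 ∨ ∃ y' ∈ srcL lsR, u.1 = y'.1) := by
    rintro _ ⟨s, hs, y, hy, rfl⟩
    rw [hσ s hs]
    exact ⟨hc.maps s hs y (hc.sub (sR hy)), dR y hy⟩
  obtain ⟨Ψ, hΨ, jΨ, vΨ⟩ := nc_band hU η0.le η1 hc sL sR (φ := ncR a a1 a2) ncR_U ncR_near ncR_near'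
    (fun u hu v hv e => (ncR_eq e (lab u (cL u hu).1).1 (lab v (cL v hv).1).1).resolve_right
      fun k => k.2.elim (fun k => (cL v hv).2.1 k.2) fun k => (cL u hu).2.1 k.1)
    (fun u hu v hv e => (ncR_eq e (lab u (cR u hu).1).1 (lab v (cR v hv).1).1).resolve_right
      fun k => k.2.elim (fun k => (cR u hu).2.1 k.1) fun k => (cR v hv).2.1 k.2)
    pL pR hd pa.le (mul_pos pa pτ).le η2 bA bB
    (fun m hm' ω hω => by
      rw [vA m ω (by linarith only [hm'.1, hf, hf']), had.c1 m hm' ω hω, mid1]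
      exact nmid)
    (fun m hm' ω hω => by
      rw [vB _ ω (by linarith only [hm'.1, hf, hf']),
        had.c2 _ ⟨by linarith only [hm'.2], by linarith only [hm'.1]⟩ ω hω, mid2]
      exact nmid)
    (fun r hr ω hω => by
      rw [vA _ ω (by linarith only [hr.1, hf, hf']), vB _ ω (by linarith only [hr.1, hf, hf']), ncR_1,
        ncR_2, Bx.af_H Q j hε, Bx.af_H Q j hε', (had.wall r hr ω hω).2])
    (fun u hu v hv e k => by
      obtain ⟨u1, u2, u3⟩ := cL u hu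
      obtain ⟨v1, v2, v3⟩ := cR v hv
      rcases ncR_eq e (lab u u1).1 (lab v v1).1 with k' | ⟨e', k' | k'⟩
      · subst k'
        exact (v3.elim u2 fun ⟨y', k1, k2⟩ => u3 y' k1 k2).elim
      · have w1 := (wl u u1 v v1 e' k'.1 k'.2).1
        have l1 := nc_lb hQ (hm j) (-ε)
        obtain ⟨x', x1, x2, x3⟩ := h.bd.pre trivial l1
          (fun G hG hG' => ht G hG (hG'.trans fun x hx => (hh x).1.2 (.inl hx)))
          ((lab u u1).2.1 k'.1) ⟨j, w1 ▸ hm j⟩ k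
        have x4 : (Q.H j (-ε)).nm x' j = ε := by
          have x5 := congrFun (l1.pos.af_nm x') j
          rw [Bx.af_H Q j hε', x3 j (w1 ▸ hm j), w1] at x5
          simp only [Bx.af, NB.hf, Function.update_self, add_eq_left, mul_eq_zero] at x5
          rcases x5 with x5 | x5
          · linarith only [hQ.pos.sd_g j, x5]
          · linarith only [x5]
        obtain ⟨r, hr, ω, hω, x6⟩ := had.sur _ (l1.pos.nm_mem.1 x1) x4
        refine ⟨r, hr, ω, hω, ?_⟩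
        rw [vA _ ω (by linarith only [hr.1, hf, hf']), x6, l1.pos.af_nm, x2, ncR_1, ncR_of (.inl k'.1)]
        rfl
      · exact absurd k'.1 u2)
  have hy0 : W.y0 ∉ UL W.U0 := h.hy
  have hΘ := hΨ.sph pτ (by linarith only [hf, hf', ca]) (by positivity) hy0 jΨ fun _ => W.y0
  have e0 : ∀ x : E ι, ‖x‖ = 1 → Ap (UL W.U0)
      (sphD W.i0 W.y0 (lL + 2 * d + lR)
        (cat lL ΓL (cat (2 * d) (W.bb a k t Q Ξ (2 * d)) ΓR)) x)
      (sphD W.i0 W.y0 (lL + 2 * d + lR) (fun w => Ψ (0, w)) x) := fun x hx => by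
    refine sphV_congr pτ.le (fun m hm' => hm') (fun n hn ω hω => ?_) hx
    obtain ⟨v1, v2, v3, v4, -⟩ := vΨ n hn ω hω
    rcases le_or_gt n lL with k1 | k1
    · rw [v1 k1, vA' n ω k1, cat, if_pos k1]
      intro u
      have u' : ΓL (n, ω) ∈ UL W.U0 := u.elim id (ncR_U _).1
      have := fL _ (bdL_subset _ (bL.1.maps (0, n, ω) ⟨j0, ⟨hn.1, k1⟩, hω⟩ u').2)
      exact (ncR_ne this.2.1 this.2.2.1).symm
    rw [cat, if_neg k1.not_ge]
    have p2 : 0 < 2 * d := by linarith only [hd]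
    rcases le_or_gt n (lL + 2 * d) with k3 | k3
    · rw [cat, if_pos (by simp only; linarith only [k3]), EV.bb]
      rcases le_or_gt n (lL + d) with k2 | k2
      · have m1 : 0 < (n - lL) / (2 * d) := div_pos (by linarith only [k1]) p2
        rw [v2 k1.le k2, vA _ ω m1, ncR_1, Bx.af_H Q j hε',
          had.e1 _ ⟨m1.le, by rw [div_le_iff₀ p2]; linarith only [k2]⟩ ω hω]
        exact Ap.rfl
      · have m1 : (n - lL) / (2 * d) ≤ 1 := by rw [div_le_one p2]; linarith only [k3]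
        rw [v3 k2 k3, vB _ ω m1, ncR_2, Bx.af_H Q j hε,
          had.e2 _ ⟨by rw [le_div_iff₀ p2]; linarith only [k2], m1⟩ ω hω]
        exact Ap.rfl
    · rw [cat, if_neg (by simp only; linarith only [k3]), v4 k3.le, vB' _ ω (by linarith only [k3]),
        show n - lL - d - d = n - lL - 2 * d by ring]
      intro u
      have u' : ΓR (n - lL - 2 * d, ω) ∈ UL W.U0 := u.elim id (ncR_U _).1
      have := fR _ (bdL_subset _ (bR.1.maps (0, n - lL - 2 * d, ω)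
        ⟨j0, ⟨by linarith only [k3], by linarith only [hn.2]⟩, hω⟩ u').2)
      exact (ncR_ne this.2.1 this.2.2).symm
  have mU : ∀ y, ncR a a1 a2 (σ 1 y) ∈ UL W.U0 ↔ y ∈ UL W.U0 := fun y =>
    (ncR_U _).trans (hc.memU 1 j1 y)
  have e1 : ∀ x : E ι, ‖x‖ = 1 → Ap (UL W.U0)
      (sphD W.i0 W.y0 (lL + 2 * d + lR) (fun w => Ψ (1, w)) x)
      (ncR a a1 a2 (σ 1 (sphD W.i0 W.y0 (lL + 2 * d + lR) (cat (lL + d) BL BR) x))) :=
    fun x hx => by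
    by_cases k : ‖Function.update x W.i0 0‖ < 1
    · rw [sphD, sphD, sphV, sphV, if_pos k, if_pos k]
      exact Ap.of_not hy0 fun u => hy0 ((mU _).1 u)
    · obtain ⟨k1, k2⟩ := nc_coord pτ hx k
      obtain ⟨-, -, -, -, v5, v6⟩ := vΨ _ k1 _ k2
      rw [sphD, sphD, sphV, sphV, if_neg k, if_neg k, cat]
      split_ifs with k3
      · exact v5 k3
      · rw [← sub_sub]
        exact v6 (not_le.1 k3)
  have mI : ∀ x : E ι, ‖x‖ = 1 →
      sphD W.i0 W.y0 (lL + 2 * d + lR) (cat (lL + d) BL BR) x ∈ UL W.U0 →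
      sphD W.i0 W.y0 (lL + 2 * d + lR) (cat (lL + d) BL BR) x ∈ D' := fun x hx u => by
    by_cases k : ‖Function.update x W.i0 0‖ < 1
    · rw [sphD, sphV, if_pos k] at u
      exact absurd u hy0
    · rw [sphD, sphV, if_neg k] at u ⊢
      exact (bI.1.maps (0, _, _) ⟨j0, nc_coord pτ hx k⟩ u).2
  have xI : ∀ y ∈ D', y ∈ UL W.U0 → ∃ x : E ι, ‖x‖ = 1 ∧
      sphD W.i0 W.y0 (lL + 2 * d + lR) (cat (lL + d) BL BR) x = y := fun y hy u => by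
    obtain ⟨⟨n, ω⟩, ⟨-, k1, k2⟩, e⟩ := bI.1.ex 0 y ⟨j0, hy⟩ u trivial
    obtain ⟨x, x1, x2, x3⟩ := nc_pt pτ k1 k2
    refine ⟨x, x1, ?_⟩
    rw [sphD, sphV, x2, x3, if_neg (by rw [k2.2]; exact lt_irrefl _)]
    exact e
  have mS : ∀ u ∈ S', ncR a a1 a2 u ∈ S0 := fun u hu => (s3 _).2 (by
    rcases (s4 u).1 hu with k | k | k | k
    · rw [ncR_ne (fL u k).2.1 (fL u k).2.2.1]
      exact .inl k
    · rw [ncR_of (.inl k.1)]
      exact .inr (.inl ⟨rfl, (hh _).1.2 (.inl k.2)⟩)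
    · rw [ncR_of (.inr k.1)]
      exact .inr (.inl ⟨rfl, (hh _).1.2 (.inr k.2)⟩)
    · rw [ncR_ne (fR u k).2.1 (fR u k).2.2]
      exact .inr (.inr k))
  have xS : ∀ y ∈ S0, ∃ u ∈ S', ncR a a1 a2 u = y := fun y hy => by
    rcases (s3 y).1 hy with k | k | k
    · exact ⟨y, (s4 y).2 (.inl k), ncR_ne (fL y k).2.1 (fL y k).2.2.1⟩
    · rcases (hh _).1.1 k.2 with k' | k'
      · exact ⟨(a1, y.2), (s4 _).2 (.inr (.inl ⟨rfl, k'⟩)),
          (ncR_of (.inl rfl)).trans (Prod.ext k.1.symm rfl)⟩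
      · exact ⟨(a2, y.2), (s4 _).2 (.inr (.inr (.inl ⟨rfl, k'⟩))),
          (ncR_of (.inr rfl)).trans (Prod.ext k.1.symm rfl)⟩
    · exact ⟨y, (s4 y).2 (.inr (.inr (.inr k))), ncR_ne (fR y k).2.1 (fR y k).2.2⟩
  generalize sphD W.i0 W.y0 (lL + 2 * d + lR) (cat (lL + d) BL BR) = β1 at e1 mI xI ⊢
  generalize sphD W.i0 W.y0 (lL + 2 * d + lR)
    (cat lL ΓL (cat (2 * d) (W.bb a k t Q Ξ (2 * d)) ΓR)) = β0 at e0 ⊢
  obtain ⟨z0, -, z1, -⟩ := hR.sz_pos hf hf'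
  have pw := hR.wmin_pos
  have hs : 0 < L / R.sz := div_pos hL z0
  have hs' : L / R.sz < 1 := (div_lt_one z0).2 hL'
  obtain ⟨Rr, Yc, ν, hsd, r0, r1, t0, t1⟩ := sd_pure hf hf' hR hs hs'
  have num := nc_num (X := W.a0 * (lL + 2 * d + lR)) (Y := W.a0 * d) hs hs' pw
    (by rw [div_mul_eq_mul_div, le_div_iff₀ z0]; nlinarith only [hf, hf', hL, n1, z1, hL'])
    (by rw [one_sub_div z0.ne', div_mul_eq_mul_div, le_div_iff₀ z0]; nlinarith only [hf, hf', hL, n2, hL', z1])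
  refine ⟨fun F z => if ν z.2 < 1 then
      sphD W.i0 W.y0 (lL + 2 * d + lR) (fun w => Ψ (ν z.2, w)) (Yc (ν z.2) z.2)
    else ncR a a1 a2 (σ 1 (F (pbS (R.hom (L / R.sz)) β1 S' c') z)),
    ⟨PW.ite (PW.const _ _ _) (PW.post (PW.single (mem_singleton _) id) mU) _,
      fun o F hF => ?_⟩, ?_⟩
  · have hZ : Sol (UL W.U0) (pbP univ (Rr 1) {z | z ∈ Rr 1 ∧ ‖Yc 1 z‖ = 1}
        (fun z => sphD W.i0 W.y0 (lL + 2 * d + lR) (fun w => Ψ (1, w)) (Yc 1 z.2))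
        ((fun y => ncR a a1 a2 (σ 1 y)) '' S') (gs c 0) c) (Wo (UL W.U0) c o)
        fun z => ncR a a1 a2 (σ 1 (F (pbS (R.hom (L / R.sz)) β1 S' c') z)) := by
      rw [r1, t1]
      refine Sol.post (l1 := 1 + η) (l2 := 0) hU (hF _ rfl) ⟨fun z hz => ⟨trivial, hz.2.1⟩,
        fun z hz u => ⟨trivial, hc.sub (mI _ hz.2.2 u)⟩, by show 0 < c'; linarith only [hf, hf', c1]⟩
        (fun _ y => ncR a a1 a2 (σ 1 y)) (by linarith only [hf, hf', η0]) rfl Subset.rfl (fun _ => mU)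
        ?_ ?_ ?_ ?_ ?_ ?_ ?_
      · exact fun z hz => e1 _ hz.2.2
      · exact fun t y _ => ⟨fun ⟨_, x, h1, h2⟩ => ⟨x, ⟨trivial, h1⟩, h2⟩,
          fun ⟨x, h1, h2⟩ => ⟨trivial, x, h1.2, h2⟩⟩
      · exact fun t y k1 y' k2 u e => (hc.inj j1 k1.2 k2.2 (key _ (hc.maps 1 j1 y k1.2) y' k2.2
          e.symm ((hc.memU 1 j1 y).2 u))).symm
      · refine fun t y k1 _ k2 => hc.deep η0.le η3 j1 k1.2 ?_
        cases o with
        | none => exact k2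
        | some r =>
          simp only [Wo, mem_ofPred_eq, infDist_UL, ncR_snd] at k2 ⊢
          exact k2
      · intro t y k1 _
        have t1 : Tendsto (fun w : Unit × YL ι => w.2)
            (𝓝[{w : Unit × YL ι | w.2 ∈ (pbS (R.hom (L / R.sz)) β1 S' c').S w.1}] (t, y)) (𝓝 y) :=
          continuous_snd.continuousWithinAt.tendsto
        have t2 := hc.ev j1 k1.2 (s := fun _ => 1) tendsto_const_nhds t1
          (eventually_nhdsWithin_of_forall fun w hw => ⟨j1, hw.2⟩)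
        filter_upwards [t2, t1.eventually (ball_mem_nhds y one_half_pos)] with w w1 w2
        rw [sub_self, abs_zero, mul_zero, add_zero] at w1
        rw [zero_mul, add_zero]
        refine (ncR_near _ _ (w1.trans_lt ?_)).trans w1
        have := mem_ball.1 w2
        nlinarith only [dist_nonneg (x := w.2) (y := y), η1, hf, w2, hf', η0]
      · refine fun z _ => Eventually.of_forall fun z' => ?_
        have := mul_le_mul_of_nonneg_right η3 (dist_nonneg (x := z'.2) (y := z.2))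
        simp only [id, pbS, pbP, gs, zero_mul, add_zero]
        linarith only [this]
      · intro t y k1 _
        have cΦ : Continuous fun w : Unit × YL ι => ((1 : ℝ), w.2) := by fun_prop
        have mΦ : ∀ w ∈ {w : Unit × YL ι | w.2 ∈ (pbS (R.hom (L / R.sz)) β1 S' c').S w.1},
            ((1 : ℝ), w.2) ∈ Icc (0 : ℝ) 1 ×ˢ S' := fun w hw => ⟨j1, hw.2⟩
        have k2 := (hc.dmInv η0.le ((1 : ℝ), (t, y).2)).comp'
          (Φ := fun w : Unit × YL ι => ((1 : ℝ), w.2)) mΦ cΦ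
        have k3 := nc_near (φ := ncR a a1 a2) (P := fun _ => True)
          (F := fun w : Unit × YL ι => σ 1 w.2) ncR_near'
          (fun w hw => (hc.cont (mΦ w hw)).comp (f := fun w : Unit × YL ι => ((1 : ℝ), w.2))
            cΦ.continuousWithinAt mΦ) (t, y)
        exact ((k2.trans ((Dm.const _).prod k3)).toR).imp fun _ _ _ => trivial
    refine (shell_glue (S := S0) (a := c) (c := c) hU hsd
      (Θ := fun z => sphD W.i0 W.y0 (lL + 2 * d + lR) (fun w => Ψ (z.1, w)) z.2)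
      (by positivity) (by positivity) hΘ hZ (fun y u => ⟨fun hy => ?_, ?_⟩) ?_ ?_ le_rfl).mono
      ?_ ?_ ?_ (fun _ _ _ => Iff.rfl) (fun _ _ => Eventually.of_forall fun _ => le_rfl) Subset.rfl
    · obtain ⟨v, hv, rfl⟩ := xS y hy
      rcases hc.cover v hv ((ncR_U v).1 u) with ⟨y', k, rfl⟩ | ⟨s, hs, y', k, rfl⟩
      · exact .inr ⟨y', k, rfl⟩
      · exact .inl ((sD ▸ k).imp (fun k => ⟨_, ⟨s, Ico_subset_Icc_self hs, y', k, rfl⟩, rfl⟩)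
          fun k => ⟨_, ⟨s, Ico_subset_Icc_self hs, y', k, rfl⟩, rfl⟩)
    · rintro ((⟨v, hv, rfl⟩ | ⟨v, hv, rfl⟩) | ⟨v, hv, rfl⟩)
      exacts [mS v (cL v hv).1, mS v (cR v hv).1, mS _ (hc.maps 1 j1 v hv)]
    · rintro y hy ⟨v, hv, rfl⟩ u
      obtain ⟨s, hs, y', k, e⟩ : ∃ s ∈ Icc (0 : ℝ) 1, ∃ y' ∈ D',
          ncR a a1 a2 (σ s y') = ncR a a1 a2 (σ 1 v) := by
        rcases hy with ⟨_, ⟨s, hs, y', k, rfl⟩, e⟩ | ⟨_, ⟨s, hs, y', k, rfl⟩, e⟩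
        exacts [⟨s, hs, y', sL k, e⟩, ⟨s, hs, y', sR k, e⟩]
      have u1 : σ s y' ∈ UL W.U0 := (ncR_U _).1 (by rw [e]; exact u)
      have u2 := (hc.memU s hs y').1 u1
      obtain rfl : s = 1 := hs.2.eq_of_not_lt fun k' => hc.sep s 1 hs.1 k' le_rfl y' k u2 v hv
        (key _ (hc.maps s hs y' (hc.sub k)) v hv e u1)
      obtain ⟨x, x1, rfl⟩ := xI y' k u2
      exact ⟨x, mem_sphere_zero_iff_norm.2 x1, (e1 x x1 (.inr ((mU _).2 u2))).trans e⟩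
    · refine le_trans (le_of_eq ?_) (num.trans (c1.trans c2.le))
      ring
    · rw [r0]
      rfl
    · rw [r0, t0]
      exact Subset.rfl
    · rw [t0]
      exact fun z hz => e0 _ hz.2.2
  · rintro q rfl
    have m : ∀ x ∈ (R.hom (L / R.sz)).set, x ∈ Rr 0 ∧ x ∈ Rr 1 := fun x hx =>
      ⟨hsd.sub 1 j1 (r1 ▸ hx), r1 ▸ hx⟩
    refine ⟨IsometryEquiv.refl _, fun x hx => ⟨trivial, r0 ▸ (m x hx.2).1⟩, fun F _ x hx _ k => ?_⟩
    exact (congrArg Prod.snd (if_neg fun k' => (hsd.lt_one (m x hx.2).1).1 k' (m x hx.2).2)).trans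
      ((ncR_snd _).trans (congrArg Prod.snd (hc.far 1 _ k)))

end EV

end Pool.Agent.Lib.MP_ecd4e3_gt.NB
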