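import Pool.Agent.Lib.MP_ecd4e3_gt.NB.EDefs
import Pool.Agent.Lib.MP_ecd4e3_gt.NB.Bdry

/-! Masses, times and credits of single boxes. -/

set_option linter.unusedSectionVars false
set_option linter.unusedVariables false

namespace Pool.Agent.Lib.MP_ecd4e3_gt.NB

open Set Filter Topology Metric MeasureTheory
open scoped NNReal ENNReal

theorem Nd.le {n : ℕ} (hn : 1 ≤ n) {V τ L : ℝ} (h : Nd n V τ L) (hV : 0 ≤ V) (hL : 0 < L) :
    τ ≤ L := by
  obtain ⟨m, rfl⟩ := Nat.exists_eq_add_of_le' hn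
  unfold Nd at h
  rw [Nat.add_sub_cancel, pow_succ'] at h
  exact le_of_mul_le_mul_right (by linarith only [hV, h]) (pow_pos hL m)

theorem Nd.mono {n : ℕ} (hn : 1 ≤ n) {V V' τ τ' L L' : ℝ} (h : Nd n V τ L) (hV0 : 0 ≤ V')
    (hV : V' ≤ V) (hτ0 : 0 ≤ τ') (hτ : τ' ≤ τ) (hL0 : 0 < L) (hL : L ≤ L') : Nd n V' τ' L' := by
  have h1 := h.le hn (hV0.trans hV) hL0
  obtain ⟨m, rfl⟩ := Nat.exists_eq_add_of_le' hn
  unfold Nd at h ⊢
  rw [Nat.add_sub_cancel, pow_succ'] at h ⊢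
  have h2 : L ^ m ≤ L' ^ m := pow_le_pow_left₀ hL0.le hL m
  have h3 : (L - τ) * L ^ m ≤ (L' - τ') * L' ^ m :=
    mul_le_mul (by linarith only [hτ, hL]) h2 (pow_pos hL0 m).le (by linarith only [hτ, hL, h1])
  linarith only [hV, h, h3]

/-- The smallest sufficient size. -/
theorem Nd.root {n : ℕ} (hn : 1 ≤ n) {V τ L : ℝ} (h : Nd n V τ L) (hV : 0 ≤ V) (hτ : 0 < τ)
    (hL : 0 < L) : ∃ L0, 0 < L0 ∧ L0 ≤ L ∧ V + τ * L0 ^ (n - 1) = L0 ^ n := by
  have h1 := h.le hn hV hL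
  obtain ⟨m, rfl⟩ := Nat.exists_eq_add_of_le' hn
  unfold Nd at h
  rw [Nat.add_sub_cancel] at h ⊢
  have hc : ContinuousOn (fun x : ℝ => x ^ (m + 1) - τ * x ^ m) (Icc τ L) := by fun_prop
  have hm : V ∈ Icc (τ ^ (m + 1) - τ * τ ^ m) (L ^ (m + 1) - τ * L ^ m) :=
    ⟨by rw [pow_succ']; linarith only [hV], by linarith only [h]⟩
  obtain ⟨x, hx, he⟩ := intermediate_value_Icc h1 hc hm
  exact ⟨x, hτ.trans_le hx.1, hx.2, by simp only at he; linarith only [he]⟩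

theorem pow_sub_ge {n : ℕ} (hn : 1 ≤ n) {L d : ℝ} (hd : 0 ≤ d) (hL : d ≤ L) :
    L ^ n - n * d * L ^ (n - 1) ≤ (L - d) ^ n := by
  obtain ⟨m, rfl⟩ := Nat.exists_eq_add_of_le' hn
  rw [Nat.add_sub_cancel]
  clear hn
  induction m with
  | zero => simp
  | succ m ih =>
    have h1 := mul_le_mul_of_nonneg_left ih (sub_nonneg.2 hL)
    have h2 : 0 ≤ ((m : ℝ) + 1) * d * d * L ^ m := by
      have := hd.trans hL
      positivity
    rw [pow_succ' (L - d) (m + 1)]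
    refine le_trans ?_ h1
    push_cast
    rw [pow_succ' L (m + 1), pow_succ' L m]
    nlinarith only [h2]

theorem en_root {n : ℕ} (hn : 1 ≤ n) {a : ℝ} (ha : 0 < a) : ∃ x : ℝ, 0 < x ∧ x ^ n = a :=
  ⟨a ^ ((n : ℝ)⁻¹), Real.rpow_pos_of_pos ha _, Real.rpow_inv_natCast_pow ha.le (by omega)⟩

theorem en_gain {n : ℕ} (hn : 2 ≤ n) {x L : ℝ} (hx : 0 < x) (hL : 0 < L)
    (h : x ^ n ≤ 15 / 16 * L ^ n) : x ^ (n - 1) ≤ 9683 / 10000 * L ^ (n - 1) := by
  obtain ⟨m, rfl⟩ := Nat.exists_eq_add_of_le' hn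
  have hLn := pow_pos hL (m + 2)
  have hxL : x ≤ L := le_of_pow_le_pow_left₀ (n := m + 2) (by omega) hL.le (by linarith only [h, hLn])
  rw [show m + 2 - 1 = m + 1 by omega]
  refine le_of_pow_le_pow_left₀ (n := 2) (by omega) (by positivity) ?_
  have h1 : x ^ m ≤ L ^ m := pow_le_pow_left₀ hx.le hxL m
  have h2 : x ^ (m + 2) * x ^ m ≤ 15 / 16 * L ^ (m + 2) * L ^ m :=
    mul_le_mul h h1 (by positivity) (by positivity)
  have h3 : 0 < L ^ (m + 2) * L ^ m := by positivity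
  calc (x ^ (m + 1)) ^ 2 = x ^ (m + 2) * x ^ m := by ring
    _ ≤ 15 / 16 * (L ^ (m + 2) * L ^ m) := by linarith only [h2]
    _ ≤ (9683 / 10000) ^ 2 * (L ^ (m + 2) * L ^ m) := by nlinarith only [h3]
    _ = _ := by ring

/-- The numerics of a cut. -/
theorem cut_num {n : ℕ} (hn : 2 ≤ n) {V V1 V2 τ1 τ2 L d : ℝ} (hL : 0 < L) (v1 : 0 ≤ V1)
    (v2 : 0 ≤ V2) (t1 : 0 ≤ τ1) (t2 : 0 ≤ τ2) (hV : V1 + V2 ≤ V)
    (he : V + (τ1 + τ2) * L ^ (n - 1) = L ^ n) (hd0 : 0 ≤ d) (hd : 100 * n * d ≤ τ1 + τ2)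
    (hc : (V1 ≤ 88 / 100 * V ∧ V2 ≤ 88 / 100 * V ∧ (τ1 + τ2) * L ^ (n - 1) ≤ V) ∨
      (τ1 ≤ 6 / 10 * (τ1 + τ2) ∧ τ2 ≤ 6 / 10 * (τ1 + τ2) ∧ V ≤ 2 * ((τ1 + τ2) * L ^ (n - 1)))) :
    ∃ L1 L2 : ℝ, 0 < L1 ∧ 0 < L2 ∧ L1 ^ n + L2 ^ n = (L - d) ^ n ∧ (L - d) ^ n / 16 ≤ L1 ^ n ∧
      (L - d) ^ n / 16 ≤ L2 ^ n ∧ Nd n V1 τ1 L1 ∧ Nd n V2 τ2 L2 := by
  have hn1 : 1 ≤ n := by omega
  have hn2 : (2 : ℝ) ≤ n := by exact_mod_cast hn
  have hV0 : 0 ≤ V := by linarith only [v1, v2, hV]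
  have hτL : τ1 + τ2 ≤ L := Nd.le hn1 (V := V) he.le hV0 hL
  have hdL : d < L := by nlinarith only [hL, hd, hτL, hn2]
  have hP : 0 < L ^ (n - 1) := pow_pos hL _
  have hM := pow_sub_ge hn1 hd0 hdL.le
  have hM0 : 0 < (L - d) ^ n := pow_pos (sub_pos.2 hdL) n
  have hML : (L - d) ^ n ≤ L ^ n := pow_le_pow_left₀ (sub_pos.2 hdL).le (by linarith only [hd0]) n
  have hdP := mul_le_mul_of_nonneg_right hd hP.le
  set P := L ^ (n - 1) with hPd
  set M := (L - d) ^ n with hMd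
  have p1 : 0 ≤ τ1 * P := mul_nonneg t1 hP.le
  have p2 : 0 ≤ τ2 * P := mul_nonneg t2 hP.le
  have hM' : V + 99 / 100 * (τ1 * P + τ2 * P) ≤ M := by nlinarith only [he, hdP, hM]
  have hb : V1 + 9683 / 10000 * (τ1 * P) ≤ 15 / 16 * M ∧
      V2 + 9683 / 10000 * (τ2 * P) ≤ 15 / 16 * M := by
    rcases hc with ⟨c1, c2, c3⟩ | ⟨c1, c2, c3⟩
    · rw [add_mul] at c3
      constructor <;> linarith only [he, hdP, hM0, hM, p2, c1, c3, p1, c2]
    · have c1' := mul_le_mul_of_nonneg_right c1 hP.le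
      have c2' := mul_le_mul_of_nonneg_right c2 hP.le
      rw [mul_assoc, add_mul] at c1' c2'
      rw [add_mul] at c3
      constructor <;> linarith only [v2, hV, he, hdP, hM0, hM, c3, c1', v1, c2']
  set a := max (V1 + 9683 / 10000 * (τ1 * P)) (M / 16) with ha
  have a1 : V1 + 9683 / 10000 * (τ1 * P) ≤ a := le_max_left _ _
  have a2 : M / 16 ≤ a := le_max_right _ _
  have a3 : a ≤ 15 / 16 * M := max_le hb.1 (by linarith only [hM0])
  have a4 : a ≤ M - (V2 + 9683 / 10000 * (τ2 * P)) := max_le (by linarith only [hV, he, hdP, hML, hM]) (by linarith only [hb.2, hb])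
  obtain ⟨L1, l1, e1⟩ := en_root hn1 (show 0 < a by linarith only [hM0, a2])
  obtain ⟨L2, l2, e2⟩ := en_root hn1 (show 0 < M - a by linarith only [hM0, a3])
  have g1 := mul_le_mul_of_nonneg_left (en_gain hn l1 hL (by linarith only [hML, a3, e1])) t1
  have g2 := mul_le_mul_of_nonneg_left (en_gain hn l2 hL (by linarith only [hML, a2, e2])) t2
  refine ⟨L1, L2, l1, l2, by linarith only [e1, e2], by linarith only [a2, e1], by linarith only [a3, e2], ?_, ?_⟩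
  · unfold Nd; linarith only [a1, e1, g1]
  · unfold Nd; linarith only [a4, e2, g2]

theorem en_ent {e : ℝ} (h0 : 0 ≤ e) (h1 : e < 1) :
    e ^ 2 ≤ (1 + e) * Real.log (1 + e) + (1 - e) * Real.log (1 - e) := by
  have hd : ∀ x ∈ Icc (0 : ℝ) e, HasDerivAt
      (fun x => (1 + x) * Real.log (1 + x) + (1 - x) * Real.log (1 - x) - x ^ 2)
      (Real.log (1 + x) - Real.log (1 - x) - 2 * x) x := by
    intro x hx
    have p1 : 1 + x ≠ 0 := by linarith only [hx.1]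
    have p2 : 1 - x ≠ 0 := by linarith only [hx.2, h1]
    have d1 : HasDerivAt (fun x : ℝ => 1 + x) 1 x := (hasDerivAt_id x).const_add 1
    have d2 : HasDerivAt (fun x : ℝ => 1 - x) (-1) x := (hasDerivAt_id x).const_sub 1
    have := ((d1.mul (d1.log p1)).add (d2.mul (d2.log p2))).sub (hasDerivAt_pow 2 x)
    refine this.congr_deriv ?_
    field_simp
    ring
  have hm : MonotoneOn
      (fun x => (1 + x) * Real.log (1 + x) + (1 - x) * Real.log (1 - x) - x ^ 2) (Icc 0 e) := by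
    refine monotoneOn_of_deriv_nonneg (convex_Icc _ _)
      (fun x hx => (hd x hx).continuousAt.continuousWithinAt)
      (fun x hx => (hd x (interior_subset hx)).differentiableAt.differentiableWithinAt) ?_
    intro x hx
    have hx' := interior_subset hx
    rw [(hd x hx').deriv]
    have p1 : 0 < 1 + x := by linarith only [hx'.1]
    have p2 : 0 < 1 - x := by linarith only [hx'.2, h1]
    have h := Real.le_log_one_add_of_nonneg (x := 2 * x / (1 - x))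
      (div_nonneg (by linarith only [hx'.1]) p2.le)
    have e1 : 1 + 2 * x / (1 - x) = (1 + x) / (1 - x) := by field_simp; ring
    have e2 : 2 * (2 * x / (1 - x)) / (2 * x / (1 - x) + 2) = 2 * x := by
      rw [show 2 * x / (1 - x) + 2 = 2 / (1 - x) by field_simp; ring]; field_simp
    rw [e1, e2, Real.log_div p1.ne' p2.ne'] at h
    linarith only [h]
  have := hm (left_mem_Icc.2 h0) (right_mem_Icc.2 h0) h0
  simp only [add_zero, sub_zero, Real.log_one, mul_zero] at this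
  linarith only [this]

theorem en_log {x a : ℝ} (hx : 0 < x) : 1 + a * Real.log x ≤ x ^ a := by
  rw [Real.rpow_def_of_pos hx]
  have := Real.add_one_le_exp (Real.log x * a)
  linarith only [this]

theorem en_conv {e a : ℝ} (ha : 0 ≤ a) (h0 : -1 < e) (h1 : e < 1) :
    2 + a * e ^ 2 ≤ (1 + e) * (1 + e) ^ a + (1 - e) * (1 - e) ^ a := by
  have p1 : 0 < 1 + e := by linarith only [h0]
  have p2 : 0 < 1 - e := by linarith only [h1]
  have h : e ^ 2 ≤ (1 + e) * Real.log (1 + e) + (1 - e) * Real.log (1 - e) := by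
    rcases le_total 0 e with he | he
    · exact en_ent he h1
    · have := en_ent (e := -e) (by linarith only [he]) (by linarith only [h0])
      rw [sub_neg_eq_add, ← sub_eq_add_neg, neg_sq] at this
      linarith only [this]
  have q1 := mul_le_mul_of_nonneg_left (en_log (a := a) p1) p1.le
  have q2 := mul_le_mul_of_nonneg_left (en_log (a := a) p2) p2.le
  have q3 := mul_le_mul_of_nonneg_left h ha
  nlinarith only [q1, q2, q3]

theorem en_rpow_le {t a : ℝ} (ht : 1 ≤ t) (ha : a ≤ 1) : t ^ a ≤ t := by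
  simpa using Real.rpow_le_rpow_of_exponent_le ht ha

theorem en_rpow_mul_le {c x y a : ℝ} (hc : 1 ≤ c) (hx : 0 ≤ x) (hy : 0 ≤ y) (h : x ≤ c * y)
    (ha0 : 0 ≤ a) (ha : a ≤ 1) : x ^ a ≤ c * y ^ a := by
  refine (Real.rpow_le_rpow hx h ha0).trans ?_
  rw [Real.mul_rpow (by linarith only [hc]) hy]
  exact mul_le_mul_of_nonneg_right (en_rpow_le hc ha) (Real.rpow_nonneg hy _)

/-- The function `v ↦ v * (v / w) ^ a` has slope between zero and two. -/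
theorem en_slope {x y w a : ℝ} (hy : 0 < y) (hxy : y ≤ x) (hw : x ≤ w) (ha0 : 0 ≤ a)
    (ha : a ≤ 1) : 0 ≤ x * (x / w) ^ a - y * (y / w) ^ a ∧
      x * (x / w) ^ a - y * (y / w) ^ a ≤ 2 * (x - y) := by
  have hx : 0 < x := hy.trans_le hxy
  have hw0 : 0 < w := hx.trans_le hw
  have h1 : (y / w) ^ a ≤ (x / w) ^ a :=
    Real.rpow_le_rpow (by positivity) (by gcongr) ha0
  have h2 : (x / w) ^ a ≤ 1 := Real.rpow_le_one (by positivity) ((div_le_one hw0).2 hw) ha0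
  have h3 : (x / w) ^ a ≤ x / y * (y / w) ^ a :=
    en_rpow_mul_le ((one_le_div hy).2 hxy) (by positivity) (by positivity)
      (le_of_eq (by field_simp)) ha0 ha
  have h4 : 0 ≤ (y / w) ^ a := by positivity
  have h5 : y * (x / w) ^ a ≤ x * (y / w) ^ a := by
    have := mul_le_mul_of_nonneg_left h3 hy.le
    rwa [← mul_assoc, mul_div_cancel₀ _ hy.ne'] at this
  constructor
  · nlinarith only [h5, hy, h1, hxy]
  · nlinarith only [h5, hxy, h1, h2]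

variable {ι : Type} [Fintype ι] [DecidableEq ι] [Nonempty ι]

theorem en_card : (1 : ℝ) ≤ Fintype.card ι := by exact_mod_cast Fintype.card_pos

theorem en_card_ne : Fintype.card ι ≠ 0 := Fintype.card_ne_zero

theorem thN_bd : 0 < alN ι ∧ alN ι ≤ 1 / 3 ∧ 0 < thN ι ∧ (Nontrivial ι → thN ι ≤ 1) := by
  have hN := en_card (ι := ι)
  have h4 : 0 < 4 * (Fintype.card ι : ℝ) - 1 := by linarith only [hN]
  have e : alN ι = 1 / (Fintype.card ι * (4 * Fintype.card ι - 1)) := by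
    unfold alN thN
    field_simp
    ring
  refine ⟨by rw [e]; positivity, ?_, by unfold thN; positivity, fun h => ?_⟩
  · rw [e]
    exact one_div_le_one_div_of_le (by norm_num) (by nlinarith only [hN])
  · have h2 : (2 : ℝ) ≤ Fintype.card ι := by exact_mod_cast Fintype.one_lt_card
    unfold thN
    rw [div_le_one h4]; linarith only [h2]

theorem en_rt {a : ℝ} (ha : 0 ≤ a) : (a ^ (1 / (Fintype.card ι : ℝ))) ^ Fintype.card ι = a := by
  rw [one_div]; exact Real.rpow_inv_natCast_pow ha en_card_ne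

theorem GB.Valid.sz_pos {f : ℝ} (hf : 0 < f) (hf' : f ≤ 1 / 16) {R : GB ι} (h : R.Valid f) :
    0 < R.sz ∧ R.sz ^ Fintype.card ι = R.vol ∧ f * R.sz ≤ 40 * R.wmin ∧ f * R.wmax ≤ 40 * R.sz := by
  have hv := h.vol_pos hf hf'
  have h0 : 0 < R.sz := Real.rpow_pos_of_pos hv _
  have h1 : R.sz ^ Fintype.card ι = R.vol := en_rt hv.le
  obtain ⟨h2, h3⟩ := h.size hf hf' h0.le
  have e : f * (2 * Mx f) = 40 := by unfold Mx; field_simp; norm_num
  refine ⟨h0, h1, ?_, ?_⟩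
  · have := mul_le_mul_of_nonneg_left (h2 h1.le) hf.le
    rwa [← mul_assoc, e] at this
  · have := mul_le_mul_of_nonneg_left (h3 h1.ge) hf.le
    rwa [← mul_assoc, e] at this

theorem GB.sz_eq {R : GB ι} {L : ℝ} (hL : 0 ≤ L) (h : R.vol = L ^ Fintype.card ι) : R.sz = L := by
  unfold GB.sz; rw [h]; exact fh_root hL

theorem cubeC_sz (o : E ι) {l : ℝ} (hl : 0 < l) : (cubeC o l).gb.sz = l :=
  GB.sz_eq hl.le (cubeC_valid (f := 1 / 16) (by norm_num) le_rfl o hl).2.2.2.1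

theorem Sim.refl {f : ℝ} {R : GB ι} (h : R.Valid f) : Sim f R R R.sz :=
  ⟨h, rfl, rfl, Iff.rfl, fun Q hQ => ⟨Q, hQ⟩, mul_comm _ _, mul_comm _ _⟩

theorem Sim.trans {f : ℝ} (hf : 0 < f) (hf' : f ≤ 1 / 16) {R R' R'' : GB ι} {L L' : ℝ}
    (hR : R.Valid f) (h : Sim f R R' L) (h' : Sim f R' R'' L') : Sim f R R'' L' := by
  have hL : 0 < L := h.sz ▸ (h.valid.sz_pos hf hf').1
  refine ⟨h'.valid, h'.sz, h'.phi.trans h.phi, h'.fin.trans h.fin, fun Q hQ => ?_, ?_, ?_⟩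
  · obtain ⟨Q', hQ'⟩ := h.box Q hQ
    exact h'.box Q' hQ'
  · have e1 := h.wmin
    have e2 := h'.wmin
    rw [h.sz] at e2
    refine mul_left_cancel₀ hL.ne' ?_
    linear_combination R.sz * e2 + L' * e1
  · have e1 := h.wmax
    have e2 := h'.wmax
    rw [h.sz] at e2
    refine mul_left_cancel₀ hL.ne' ?_
    linear_combination R.sz * e2 + L' * e1

theorem Sim.drop {f : ℝ} {R R' : GB ι} {L : ℝ} (h : Sim f R R' L) : R'.drop f = R.drop f := by
  unfold GB.drop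
  by_cases hF : R.Fin f
  · rw [if_pos hF, if_pos (h.fin.2 hF)]
  · rw [if_neg hF, if_neg fun h' => hF (h.fin.1 h')]

theorem Sim.hom {f : ℝ} (hf : 0 < f) (hf' : f ≤ 1 / 16) {R : GB ι} (h : R.Valid f) {L : ℝ}
    (hL : 0 < L) : Sim f R (R.hom (L / R.sz)) L := by
  obtain ⟨h0, h1, -, -⟩ := h.sz_pos hf hf'
  have hs : 0 < L / R.sz := div_pos hL h0
  unfold GB.hom
  refine ⟨h.map hs _, GB.sz_eq hL.le ?_, GB.map_phi R hs _, GB.map_fin R hs _, fun Q hQ => ?_,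
    ?_, ?_⟩
  · rw [GB.map_vol R hs, ← h1, ← mul_pow, div_mul_cancel₀ _ h0.ne']
  · generalize (1 - L / R.sz) • R.o = v
    generalize L / R.sz = s at hs
    exact ⟨_, by rw [hQ]; exact Q.gb_map hs v⟩
  · rw [(GB.map_wmin R hs _).1]; field_simp
  · rw [(GB.map_wmin R hs _).2]; field_simp

/-- A similar copy of a cube is a cube. -/
theorem Sim.cube {f : ℝ} {o : E ι} {l L : ℝ} (hl : 0 < l) {R' : GB ι}
    (h : Sim f (cubeC o l).gb R' L) : 0 < L ∧ ∃ o', R' = (cubeC o' L).gb := by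
  obtain ⟨-, -, -, -, c1, c2, -⟩ := cubeC_valid (f := 1 / 16) (by norm_num) le_rfl o hl
  have e1 := h.wmin
  have e2 := h.wmax
  rw [cubeC_sz o hl] at e1 e2
  rw [c1] at e1
  rw [c2] at e2
  have f1 : R'.wmin = L := mul_right_cancel₀ hl.ne' e1
  have f2 : R'.wmax = L := mul_right_cancel₀ hl.ne' e2
  refine ⟨f1 ▸ h.valid.wmin_pos, ?_⟩
  obtain ⟨Q, hQ⟩ := h.box _ rfl
  have hw : ∀ i, Q.sd i = L := fun i => by
    have g1 := R'.wmin_le i
    have g2 := R'.le_wmax i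
    have g3 : R'.w i = Q.sd i := by rw [hQ]; rfl
    linarith only [f1, g1, g3, f2, g2]
  refine ⟨Q.mid, hQ.trans (congrArg Bx.gb (Bx.ext' ?_ ?_))⟩
  · funext i
    have := hw i
    simp only [cubeC, Bx.mid, Bx.sd] at this ⊢
    linarith only [this]
  · funext i
    have := hw i
    simp only [cubeC, Bx.mid, Bx.sd] at this ⊢
    linarith only [this]

theorem Bx.Pos.sc_pow {Q : Bx ι} (h : Q.Pos) : 0 < Q.sc ∧ Q.sc ^ Fintype.card ι = Q.vol :=
  ⟨Real.rpow_pos_of_pos h.vol_pos _, en_rt h.vol_pos.le⟩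

theorem BX.sc {k : ℤ} {Q : Bx ι} (h : BX k Q) : 2 ^ k ≤ Q.sc ∧ Q.sc ≤ 2 * 2 ^ k := by
  obtain ⟨h0, h1⟩ := h.lb.pos.sc_pow
  have h2 := two_pos_g k
  refine ⟨le_of_pow_le_pow_left₀ (en_card_ne (ι := ι)) h0.le (h1 ▸ h.vol_bd.1),
    le_of_pow_le_pow_left₀ (en_card_ne (ι := ι)) (by positivity) (h1 ▸ h.vol_bd.2)⟩

theorem fo_empty (k : ℤ) : FO (∅ : Set (E ι)) k := fun _ _ _ _ h => absurd h (notMem_empty _)

theorem fo_ball {j k : ℤ} (h : j ≤ k) : FO (ball (0 : E ι) (2 ^ j / 100)) k := by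
  intro Q hQ x hx hb
  have h2 := two_pos_g k
  have hjk : (2 : ℝ) ^ j ≤ 2 ^ k := two_le_g.2 h
  rw [mem_ball_zero_iff] at hb
  refine (pi_norm_le_iff_of_nonneg (by norm_num)).2 fun i => ?_
  have h3 : |x i| < 2 ^ k / 100 := ((norm_le_pi_norm x i).trans_lt hb).trans_le (by linarith only [hjk])
  obtain ⟨x1, x2⟩ := abs_lt.1 h3
  obtain ⟨l1, l2, l3⟩ := hQ.lb i
  obtain ⟨m1, m2⟩ := Bx.mem_set.1 hx i
  obtain ⟨s1, s2⟩ := hQ.sd i
  have a1 : Q.lo i ≤ -(2 ^ k / 3) := by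
    rcases le_abs'.1 l1.abs_ge with h' | h'
    · exact h'
    · linarith only [h2, x2, m1, h']
  have a2 : 2 ^ k / 3 ≤ Q.hi i := by
    rcases le_abs'.1 l2.abs_ge with h' | h'
    · linarith only [h2, x1, m2, h']
    · exact h'
  have s0 : 0 < Q.sd i := by linarith only [h2, s1]
  rw [Real.norm_eq_abs, Bx.nm, abs_div, abs_of_pos s0, div_le_iff₀ s0, abs_le]
  unfold Bx.sd at *
  constructor <;> linarith only [h2, x1, s2, a1, x2, a2]

theorem en_H {Q : Bx ι} (hQ : Q.Pos) (j : ι) (ε : ℝ) :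
    (Q.H j ε).Pos ∧ (Q.H j ε).vol = Q.vol / 2 ∧ (Q.H j ε).set ⊆ Q.set ∧
      (Q.H j ε).sc = (1 / 2 : ℝ) ^ (1 / (Fintype.card ι : ℝ)) * Q.sc := by
  unfold Bx.H
  split_ifs
  · exact ⟨hQ.R j, Q.vol_R j, fh_sub_R hQ j, (Bx.sc_half hQ j).2⟩
  · exact ⟨hQ.L j, Q.vol_L j, fh_sub_L hQ j, (Bx.sc_half hQ j).1⟩

/-- A reversed display is a display. -/
theorem en_disp_rev {i0 : ι} {K : ℝ} {p q : E ι} {Ξ : ℝ × E ι → E ι} (h : Disp i0 K p q Ξ) :
    Disp i0 K q p (rev Ξ) := by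
  obtain ⟨h1, h2, h3⟩ := h
  have hm : ∀ n : ℝ, n ∈ Icc (0 : ℝ) 1 → 1 - n ∈ Icc (0 : ℝ) 1 := fun n hn =>
    ⟨by linarith only [hn.2], by linarith only [hn.1]⟩
  refine ⟨?_, fun t ht n hn ω hω => h2 t ht _ (hm n hn) ω hω, fun t ht ω hω => ?_⟩
  · rw [pair_comm q p]
    refine h1.comp (fun t : Unit => t) (fun z : Unit × (ℝ × E ι) => (1 - z.2.1, z.2.2))
      (fun z hz => ⟨trivial, hm _ hz.2.1, hz.2.2⟩) (fun z _ _ h => h) (fun t y h _ => h) ?_ ?_ ?_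
      (fun z hz => absurd hz.2 (notMem_empty _))
      fun _ _ _ => ⟨Dm.refl, Dm.toR (Dm.of_le (K := 1) fun w _ v _ => by
        simp only [Prod.dist_eq, dist_sub_left, one_mul, le_refl])⟩
    · intro t y _ _ _ x hx _
      exact ⟨(1 - x.1, x.2), ⟨trivial, hm _ hx.2.1, hx.2.2⟩, by simp⟩
    · intro t x x' _ _ _ he
      simp only [Prod.mk.injEq] at he
      exact Prod.ext (by linarith only [he.1, he]) he.2
    · intro z _ _
      refine ⟨Continuous.continuousWithinAt (by fun_prop), Eventually.of_forall fun z' => ?_⟩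
      refine le_of_eq ?_
      simp only [pbP, gs, Prod.dist_eq, dist_sub_left]
  · have := h3 t ht ω hω
    simp only [rev, sub_zero, sub_self]
    exact ⟨this.2, this.1⟩

namespace EV

variable [Nontrivial ι] {W : EV ι}

theorem OK.hne (h : W.OK) : W.U0ᶜ.Nonempty := ⟨W.y0.2, h.hy⟩

theorem OK.consts (h : W.OK) : 1 ≤ W.K ∧ 1 ≤ W.K1 ∧ 1 ≤ W.A1 ∧ 8 ≤ W.a0 ∧ 1 ≤ W.B ^ W.T := by
  have h1 := h.bd.pK
  have h2 := h.ds.p0.trans h.ds.p1
  refine ⟨h1, h2, one_le_mul_of_one_le_of_one_le (one_le_pow₀ (by norm_num)) h.pA, ?_,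
    one_le_zpow₀ (by linarith only [h.pB]) h.pT⟩
  unfold a0
  nlinarith only [h1, h2]

theorem OK.nu_bd (h : W.OK) {Q : Bx ι} (hQ : Q.Pos) :
    0 < W.nu Q ∧ W.nu Q = Q.den W.ν * Q.vol ∧ 0 < Q.den W.ν ∧ Q.den W.ν ≤ 1 := by
  have h0 : 0 < W.nu Q := ENNReal.toReal_pos (h.pos Q hQ).ne' (Q.meas_ne_g h.le)
  exact ⟨h0, (div_mul_cancel₀ _ hQ.vol_pos.ne').symm, div_pos h0 hQ.vol_pos,
    (hQ.den_le_one h.le).2⟩

theorem OK.nu_half (h : W.OK) {Q : Bx ι} (hQ : Q.Pos) (j : ι) {ε : ℝ} (hε : ε = 1 ∨ ε = -1) :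
    W.nu Q = W.nu (Q.H j (-ε)) + W.nu (Q.H j ε) := by
  have := hQ.meas_half j h.le
  unfold nu Bx.H
  rcases hε with rfl | rfl
  · rw [if_neg (by norm_num), if_pos (by norm_num)]; exact this
  · rw [if_pos (by norm_num), if_neg (by norm_num)]; linarith only [this]

theorem OK.en_al (h : W.OK) {Q : Bx ι} (hQ : Q.Pos) :
    0 < Q.den W.ν ^ alN ι ∧ Q.den W.ν ^ alN ι ≤ 1 := by
  obtain ⟨-, -, d0, d1⟩ := h.nu_bd hQ
  exact ⟨Real.rpow_pos_of_pos d0 _, Real.rpow_le_one d0.le d1 thN_bd.1.le⟩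

theorem OK.tt_bd (h : W.OK) {Q : Bx ι} (hQ : Q.Pos) :
    0 < W.tt Q ∧ W.tt Q ≤ W.A1 ∧ 0 < W.ta Q ∧ 0 < W.xx Q ∧ W.xx Q ≤ W.nu Q := by
  obtain ⟨n0, -, d0, d1⟩ := h.nu_bd hQ
  obtain ⟨a0, a1⟩ := h.en_al hQ
  have hA : 0 < W.A1 := by linarith only [h.consts.2.2.1]
  have h0 : 0 < W.tt Q := mul_pos hA (Real.rpow_pos_of_pos d0 _)
  exact ⟨h0, mul_le_of_le_one_right hA.le (Real.rpow_le_one d0.le d1 thN_bd.2.2.1.le),
    mul_pos h0 hQ.sc_pow.1, mul_pos n0 a0, mul_le_of_le_one_right n0.le a1⟩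

/-- The density of a subbox. -/
theorem OK.en_den (h : W.OK) {Q G : Bx ι} (hQ : Q.Pos) (hG : G.Pos) (hs : G.set ⊆ Q.set) {c : ℝ}
    (hc : Q.vol ≤ c * G.vol) : G.den W.ν ≤ c * Q.den W.ν := by
  obtain ⟨-, e, d0, -⟩ := h.nu_bd hQ
  have h1 : W.nu G ≤ W.nu Q := Bx.meas_mono hs h.le
  refine (div_le_iff₀ hG.vol_pos).2 (h1.trans ?_)
  have := mul_le_mul_of_nonneg_left hc d0.le
  linarith only [e, this]

/-- The time of a box dominates the starting times of the cubes of the data grid. -/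
theorem OK.tm_le (h : W.OK) {k : ℤ} {Q : Bx ι} (hQ : BX k Q) {t : ℝ} (ht : W.tt Q ≤ t) :
    ∀ G, Cube (k - 1) G → G.set ⊆ Q.set → W.tm G ≤ t := by
  intro G hG hs
  have hv : Q.vol ≤ 4 ^ Fintype.card ι * G.vol := by
    rw [hG.vol, ← mul_pow]
    refine hQ.vol_bd.2.trans (le_of_eq ?_)
    rw [two_pred_g k]; ring
  have h1 := en_rpow_mul_le (one_le_pow₀ (by norm_num)) (h.nu_bd hG.lb.pos).2.2.1.le
    (h.nu_bd hQ.lb.pos).2.2.1.le (h.en_den hQ.lb.pos hG.lb.pos hs hv) (thN_bd (ι := ι)).2.2.1.le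
    ((thN_bd (ι := ι)).2.2.2 inferInstance)
  refine (min_le_right _ _).trans (le_trans ?_ ht)
  have := mul_le_mul_of_nonneg_left h1 (show 0 ≤ W.A by linarith only [h.pA])
  unfold tt A1
  linarith only [this]

/-- The same for the data grid of the halves. -/
theorem OK.tm_le_half (h : W.OK) {k : ℤ} {Q : Bx ι} (hQ : BX k Q) {j : ι} (hj : Q.Long j) {t : ℝ}
    (h1 : W.tt (Q.L j) ≤ t) (h2 : W.tt (Q.R j) ≤ t) :
    ∀ G, Cube (nk k Q - 1) G → G.set ⊆ Q.set → W.tm G ≤ t := by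
  intro G hG hs
  rcases hQ.cube_half hj hG (by omega) hs with h' | h'
  · exact h.tm_le (hQ.L hj).1 h1 G hG h'
  · exact h.tm_le (hQ.R hj).1 h2 G hG h'

/-- The switch to the data grid of the halves. -/
theorem OK.switch (h : W.OK) {k : ℤ} {Q : Bx ι} (hQ : BX k Q) {t : ℝ} (ht : W.tt Q ≤ t) :
    ∀ x ∈ Q.bd, Ap W.U0 (W.P (k - 1) (t, x)) (W.P (nk k Q - 1) (t, x)) := by
  intro x hx
  rcases nk_le k Q with e | ⟨e, -⟩
  · rw [e]; exact Ap.rfl
  · rw [e]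
    have hl : LB (k - 1) Q := hQ.lb.down (by omega)
    exact h.bd.split' trivial hl (h.tm_le hQ ht) (Q.bd_subset hx) (hl.bd_sk hx)

theorem OK.tt_half (h : W.OK) {Q : Bx ι} (hQ : Q.Pos) (j : ι) (ε : ℝ) :
    W.tt (Q.H j ε) ≤ 2 * W.tt Q ∧ W.ta (Q.H j ε) ≤ 2 * W.ta Q ∧ (Q.H j ε).sc ≤ Q.sc ∧
      Q.sc ≤ 2 * (Q.H j ε).sc := by
  obtain ⟨p, v, s, c⟩ := en_H hQ j ε
  have hN := en_card (ι := ι)
  have h1 := en_rpow_mul_le (c := 2) (by norm_num) (h.nu_bd p).2.2.1.le (h.nu_bd hQ).2.2.1.le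
    (h.en_den hQ p s (by linarith only [v])) (thN_bd (ι := ι)).2.2.1.le
    ((thN_bd (ι := ι)).2.2.2 inferInstance)
  have h2 : W.tt (Q.H j ε) ≤ 2 * W.tt Q := by
    have := mul_le_mul_of_nonneg_left h1 (show 0 ≤ W.A1 by linarith only [h.consts.2.2.1])
    unfold tt
    linarith only [this]
  have r1 : (1 / 2 : ℝ) ^ (1 / (Fintype.card ι : ℝ)) ≤ 1 :=
    Real.rpow_le_one (by norm_num) (by norm_num) (by positivity)
  have r2 : (1 / 2 : ℝ) ≤ (1 / 2 : ℝ) ^ (1 / (Fintype.card ι : ℝ)) := by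
    have := Real.rpow_le_rpow_of_exponent_ge (x := 1 / 2) (by norm_num) (by norm_num)
      ((div_le_one (by linarith only [hN])).2 hN)
    rwa [Real.rpow_one] at this
  have s0 := hQ.sc_pow.1
  have h3 : (Q.H j ε).sc ≤ Q.sc := by rw [c]; nlinarith only [r1, s0]
  refine ⟨h2, ?_, h3, by rw [c]; nlinarith only [r2, s0]⟩
  have := mul_le_mul h2 h3 p.sc_pow.1.le (by linarith only [(h.tt_bd hQ).1])
  unfold ta
  linarith only [this]

/-- The length of a band in terms of the root of the mass. -/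
theorem OK.en_ta (h : W.OK) {Q : Bx ι} (hQ : Q.Pos) :
    W.ta Q = W.A1 * Q.den W.ν ^ alN ι * W.nu Q ^ (1 / (Fintype.card ι : ℝ)) := by
  obtain ⟨-, e, d0, -⟩ := h.nu_bd hQ
  have e1 : thN ι = alN ι + 1 / (Fintype.card ι : ℝ) := by unfold alN; ring
  rw [e, Real.mul_rpow d0.le hQ.vol_pos.le]
  unfold ta tt Bx.sc
  rw [e1, Real.rpow_add d0]
  ring

/-- The length of a band against the size given by the mass. -/
theorem OK.ta_mul (h : W.OK) {Q : Bx ι} (hQ : Q.Pos) {s L : ℝ} (hs : 1 ≤ s) (hL : 0 ≤ L)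
    (hle : L ^ Fintype.card ι ≤ 5 * (s ^ Fintype.card ι * W.nu Q)) :
    s * (W.ta Q * L ^ (Fintype.card ι - 1)) ≤ 5 * W.A1 * (s ^ Fintype.card ι * W.xx Q) := by
  have n0 := (h.nu_bd hQ).1
  have a0 := (h.en_al hQ).1
  have hA : 0 < W.A1 := by linarith only [h.consts.2.2.1]
  have hm := en_rt (ι := ι) n0.le
  have m0 : 0 < W.nu Q ^ (1 / (Fintype.card ι : ℝ)) := Real.rpow_pos_of_pos n0 _
  rw [h.en_ta hQ]
  unfold xx
  generalize W.nu Q ^ (1 / (Fintype.card ι : ℝ)) = m at hm m0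
  rw [← hm] at hle ⊢
  rw [← mul_pow] at hle
  obtain ⟨n, hn⟩ := Nat.exists_eq_add_of_le' (show 1 ≤ Fintype.card ι from Fintype.card_pos)
  rw [hn] at hle ⊢
  rw [Nat.add_sub_cancel]
  have y0 : 0 < s * m := by positivity
  have key : s * m * L ^ n ≤ 5 * (s * m) ^ (n + 1) := by
    rcases le_total L (s * m) with h1 | h1
    · have := mul_le_mul_of_nonneg_left (pow_le_pow_left₀ hL h1 n) y0.le
      have := pow_pos y0 (n + 1)
      rw [pow_succ'] at this ⊢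
      linarith
    · have := mul_le_mul_of_nonneg_right h1 (pow_nonneg hL n)
      rw [pow_succ' L] at hle
      linarith only [hle, this]
  have := mul_le_mul_of_nonneg_left key (mul_pos hA a0).le
  rw [mul_pow] at this
  linarith only [this]

theorem OK.ta_le (h : W.OK) {Q : Bx ι} (hQ : Q.Pos) {s L : ℝ} (hs : 0 < s) (hL : 0 ≤ L)
    (hle : s ^ Fintype.card ι * W.nu Q / 10 ≤ L ^ Fintype.card ι) :
    s * W.ta Q ≤ 10 * W.A1 * L := by
  have n0 := (h.nu_bd hQ).1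
  obtain ⟨a0, a1⟩ := h.en_al hQ
  have hA : 0 < W.A1 := by linarith only [h.consts.2.2.1]
  have hm := en_rt (ι := ι) n0.le
  have m0 : 0 < W.nu Q ^ (1 / (Fintype.card ι : ℝ)) := Real.rpow_pos_of_pos n0 _
  rw [h.en_ta hQ]
  generalize W.nu Q ^ (1 / (Fintype.card ι : ℝ)) = m at hm m0
  rw [← hm, ← mul_pow] at hle
  have h1 : s * m ≤ 10 * L := by
    refine le_of_pow_le_pow_left₀ (en_card_ne (ι := ι)) (by positivity) ?_
    have h2 : (10 : ℝ) ≤ 10 ^ Fintype.card ι := le_self_pow₀ (by norm_num) en_card_ne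
    have := mul_le_mul_of_nonneg_right h2 (pow_nonneg hL (Fintype.card ι))
    rw [mul_pow 10 L]
    linarith only [hle, this]
  have h3 : Q.den W.ν ^ alN ι * (s * m) ≤ 1 * (10 * L) :=
    mul_le_mul a1 h1 (by positivity) zero_le_one
  have := mul_le_mul_of_nonneg_left h3 hA.le
  linarith only [this]

/-- The length of a band decays geometrically in the volume. -/
theorem OK.ta_decay (h : W.OK) {Q : Bx ι} (hQ : Q.Pos) {μ : ℝ} (hμ : W.nu Q ≤ μ) :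
    W.ta Q * Q.vol ^ alN ι ≤ W.A1 * μ ^ thN ι := by
  obtain ⟨n0, e, d0, -⟩ := h.nu_bd hQ
  have hA : 0 < W.A1 := by linarith only [h.consts.2.2.1]
  have e1 : thN ι = alN ι + 1 / (Fintype.card ι : ℝ) := by unfold alN; ring
  have e2 : W.nu Q ^ alN ι = Q.den W.ν ^ alN ι * Q.vol ^ alN ι := by
    rw [e, Real.mul_rpow d0.le hQ.vol_pos.le]
  have e3 : W.ta Q * Q.vol ^ alN ι = W.A1 * W.nu Q ^ thN ι := by
    rw [h.en_ta hQ, e1, Real.rpow_add n0, e2]; ring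
  rw [e3]
  exact mul_le_mul_of_nonneg_left (Real.rpow_le_rpow n0.le hμ thN_bd.2.2.1.le) hA.le

theorem OK.en_xx (h : W.OK) {Q : Bx ι} (hQ : Q.Pos) (j : ι) (ε : ℝ) {x : ℝ}
    (hx : W.nu (Q.H j ε) = x / 2 * W.nu Q) :
    0 < x ∧ W.xx (Q.H j ε) = x * x ^ alN ι / 2 * W.xx Q := by
  obtain ⟨p, v, -, -⟩ := en_H hQ j ε
  obtain ⟨n0, e, d0, -⟩ := h.nu_bd hQ
  obtain ⟨n1, e', -, -⟩ := h.nu_bd p
  have x0 : 0 < x := by
    have := (pos_iff_pos_of_mul_pos (hx ▸ n1)).2 n0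
    linarith only [this]
  have e1 : (Q.H j ε).den W.ν = x * Q.den W.ν := by
    refine mul_right_cancel₀ hQ.vol_pos.ne' ?_
    rw [v, hx, e] at e'
    linarith only [e']
  refine ⟨x0, ?_⟩
  unfold xx
  rw [e1, Real.mul_rpow x0.le d0.le, hx]
  ring

/-- Convexity gain under halving. -/
theorem OK.xx_gain (h : W.OK) {Q : Bx ι} (hQ : Q.Pos) (j : ι) {ε : ℝ} (hε : ε = 1 ∨ ε = -1) :
    W.xx Q * (1 + alN ι / 2 * ((W.nu (Q.H j (-ε)) - W.nu (Q.H j ε)) / W.nu Q) ^ 2) ≤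
        W.xx (Q.H j (-ε)) + W.xx (Q.H j ε) ∧
      W.xx (Q.H j (-ε)) + W.xx (Q.H j ε) ≤ 2 * W.xx Q ∧
      (|W.nu (Q.H j (-ε)) - W.nu (Q.H j ε)| ≤ W.nu Q / 100 →
        W.xx Q / 4 ≤ W.xx (Q.H j (-ε)) ∧ W.xx Q / 4 ≤ W.xx (Q.H j ε)) ∧
      |2 * W.nu (Q.H j (-ε)) - W.xx (Q.H j (-ε)) - (2 * W.nu (Q.H j ε) - W.xx (Q.H j ε))| ≤
        2 * |W.nu (Q.H j (-ε)) - W.nu (Q.H j ε)| := by
  have hs := h.nu_half hQ j hε
  have n0 := (h.nu_bd hQ).1
  have X0 := (h.tt_bd hQ).2.2.2.1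
  obtain ⟨al0, al1, -, -⟩ := thN_bd (ι := ι)
  have al2 : alN ι ≤ 1 := by linarith only [al0, al1]
  set e := (W.nu (Q.H j (-ε)) - W.nu (Q.H j ε)) / W.nu Q with he
  have he' : e * W.nu Q = W.nu (Q.H j (-ε)) - W.nu (Q.H j ε) := div_mul_cancel₀ _ n0.ne'
  obtain ⟨p1, e1⟩ := h.en_xx hQ j (-ε) (x := 1 + e) (by linarith only [hs, he'])
  obtain ⟨p2, e2⟩ := h.en_xx hQ j ε (x := 1 - e) (by linarith only [hs, he'])
  have up : ∀ x : ℝ, 0 < x → x ≤ 2 → x * x ^ alN ι ≤ x * 2 := fun x h0 h2 =>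
    mul_le_mul_of_nonneg_left ((Real.rpow_le_rpow h0.le h2 al0.le).trans
      (en_rpow_le (by norm_num) al2)) h0.le
  have dn : ∀ x : ℝ, 99 / 100 ≤ x → 1 / 2 ≤ x * x ^ alN ι := fun x h0 => by
    have h1 := Real.rpow_le_rpow_of_exponent_ge (x := 99 / 100) (by norm_num) (by norm_num) al2
    rw [Real.rpow_one] at h1
    have h2 := h1.trans (Real.rpow_le_rpow (by norm_num) h0 al0.le)
    nlinarith only [al1, h0, h2, al0]
  refine ⟨?_, ?_, fun hb => ?_, ?_⟩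
  · have := mul_le_mul_of_nonneg_right (en_conv al0.le (by linarith only [p1] : -1 < e) (by linarith only [p2])) X0.le
    rw [e1, e2]
    linarith only [this]
  · have := mul_le_mul_of_nonneg_right
      (add_le_add (up _ p1 (by linarith only [p2])) (up _ p2 (by linarith only [p1]))) X0.le
    rw [e1, e2]
    linarith only [this]
  · rw [← he', abs_mul, abs_of_pos n0] at hb
    have hb' : |e| ≤ 1 / 100 := le_of_mul_le_mul_right (by linarith only [hb]) n0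
    obtain ⟨b1, b2⟩ := abs_le.1 hb'
    have c1 := mul_le_mul_of_nonneg_right (dn (1 + e) (by linarith only [b1])) X0.le
    have c2 := mul_le_mul_of_nonneg_right (dn (1 - e) (by linarith only [b2])) X0.le
    rw [e1, e2]
    constructor <;> linarith only [c1, c2]
  · have key : ∀ η : ℝ, 0 < W.nu (Q.H j η) ∧ W.nu (Q.H j η) ≤ Q.vol / 2 ∧
        W.xx (Q.H j η) = W.nu (Q.H j η) * (W.nu (Q.H j η) / (Q.vol / 2)) ^ alN ι := fun η => by
      obtain ⟨p, v, -, -⟩ := en_H hQ j η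
      obtain ⟨m0, m1, m2, m3⟩ := h.nu_bd p
      refine ⟨m0, ?_, by rw [← v]; rfl⟩
      rw [m1, ← v]
      exact mul_le_of_le_one_left p.vol_pos.le m3
    obtain ⟨u0, u1, u2⟩ := key (-ε)
    obtain ⟨w0, w1, w2⟩ := key ε
    rw [u2, w2]
    rcases le_total (W.nu (Q.H j ε)) (W.nu (Q.H j (-ε))) with hle | hle
    · obtain ⟨s1, s2⟩ := en_slope w0 hle u1 al0.le al2
      rw [abs_of_nonneg (sub_nonneg.2 hle), abs_le]
      constructor <;> linarith only [hle, s2, s1]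
    · obtain ⟨s1, s2⟩ := en_slope u0 hle w1 al0.le al2
      rw [abs_of_nonpos (sub_nonpos.2 hle), abs_le]
      constructor <;> linarith only [s1, hle, s2]

/-- A deep point in a box which is not contained in the open set. -/
theorem OK.deep (h : W.OK) {k : ℤ} {Q : Bx ι} (hQ : BX k Q) {v : E ι} (hv : v ∈ Q.set)
    (hv' : v ∉ W.U0) {y : E ι} (hy : y ∈ Q.set) {r : ℝ} (hr : 0 < r) (hd : r ≤ infDist y W.U0ᶜ) :
    (r / 2) ^ Fintype.card ι ≤ W.nu Q := by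
  have h2 := two_pos_g k
  have h1 : r ≤ 2 * 2 ^ k := (hd.trans (infDist_le_dist_of_mem hv')).trans
    (Bx.dist_le (by positivity) (fun i => (hQ.sd i).2) hy hv)
  set G : Bx ι := ⟨fun i => min (y i) (Q.hi i - r / 2), fun i => min (y i) (Q.hi i - r / 2) + r / 2⟩
    with hG
  have hsd : ∀ i, G.sd i = r / 2 := fun i => by simp [hG, Bx.sd]
  have hp : G.Pos := fun i => by
    have := hsd i
    unfold Bx.sd at this
    linarith only [hr, this]
  have hs : G.set ⊆ Q.set := by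
    refine (Bx.subset_iff fun i => (hp i).le).2 fun i => ?_
    have s1 := (hQ.sd i).1
    unfold Bx.sd at s1
    have := min_le_right (y i) (Q.hi i - r / 2)
    exact ⟨le_min (Bx.mem_set.1 hy i).1 (by linarith only [h1, s1]), by simp only [hG]; linarith only [this]⟩
  have hyG : y ∈ G.set := by
    refine Bx.mem_set.2 fun i => ⟨min_le_left _ _, ?_⟩
    have := (Bx.mem_set.1 hy i).2
    simp only [hG]
    rcases min_cases (y i) (Q.hi i - r / 2) with h' | h' <;> linarith only [h'.1, hr, h', this]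
  have hU : G.set ⊆ W.U0 := by
    intro x hx
    have h3 : dist y x ≤ r / 2 := Bx.dist_le (by positivity) (fun i => (hsd i).le) hyG hx
    exact not_notMem.1 (notMem_of_dist_lt_infDist (s := W.U0ᶜ) (x := y) (by linarith only [hr, hd, h3]))
  have e := (h.nu_bd hp).2.1
  rw [h.one G hp hU, one_mul] at e
  have e2 : G.vol = (r / 2) ^ Fintype.card ι := by simp [Bx.vol, hsd, div_pow]
  rw [← e2, ← e]
  exact Bx.meas_mono hs h.le

theorem OK.exists_out (h : W.OK) {Q : Bx ι} (hQ : Q.Pos) (hd : Q.den W.ν < 1) :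
    ∃ v ∈ Q.set, v ∉ W.U0 := by
  by_contra hc
  push Not at hc
  exact hd.ne (h.one Q hQ hc)

theorem IOk.mem {b : It ι} (h : W.IOk b) :
    ‖b.p‖ = 1 ∧ ‖b.q‖ = 1 ∧ Disp W.i0 W.K0 b.p b.q b.Ξ ∧ b.Q.af b.p ∈ b.Q.set := by
  have hs : ∀ {x : E ι}, x = Pi.single b.j 1 ∨ x = Pi.single b.j (-1) → ‖x‖ = 1 := by
    rintro x (rfl | rfl) <;> simp [Pi.norm_single]
  have key : ‖b.p‖ = 1 ∧ ‖b.q‖ = 1 ∧ Disp W.i0 W.K0 b.p b.q b.Ξ := by
    rcases h.good with ⟨h1, h2, -, h3, -⟩ | ⟨h1, h2, -, h3, -⟩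
    · exact ⟨h2.1, hs h3, h1⟩
    · refine ⟨hs h3, h2.1, ?_⟩
      have e : rev (rev b.Ξ) = b.Ξ := by
        funext z
        simp [rev]
      exact e ▸ en_disp_rev h1
  exact ⟨key.1, key.2.1, key.2.2, h.bx.lb.pos.af_mem.2 key.1.le⟩

end EV

namespace EC

variable [Nontrivial ι] {C : EC} {W : EV ι}

theorem Good.consts (h : W.OK) (hC : C.Good W) : 1 ≤ W.cg (1 / 16) ∧ 1 ≤ C.Bc ∧ 1 ≤ C.sC ∧
    0 < C.C0 ι ∧ C.κ ≤ 1 / 4000 ∧ 400000 * C.Bc * W.A1 ≤ C.sC := by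
  obtain ⟨k0, k1, a1, -, -⟩ := h.consts
  have hN := en_card (ι := ι)
  have h1 : 1 ≤ W.cg (1 / 16) := by
    unfold EV.cg
    rw [le_div_iff₀ (by norm_num)]
    nlinarith only [k0, k1]
  have h2 : 1 ≤ C.Bc := le_trans (by nlinarith only [hN, h1]) hC.hB
  have h3 : C.κ ≤ 1 / 4000 := by linarith only [hC.κ1, hC.h1]
  have h4 : 1 ≤ C.Bc * W.A1 := one_le_mul_of_one_le_of_one_le h2 a1
  have h5 := hC.hs
  have h6 : 0 < C.sC := (pos_iff_pos_of_mul_pos (show 0 < C.κ * C.sC by linarith only [h4, h5])).1 hC.pκ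
  have h7 := mul_le_mul_of_nonneg_right h3 h6.le
  exact ⟨h1, h2, by linarith only [h4, h5, h7], pow_pos h6 _, h3, by linarith only [h5, h7]⟩

theorem Good.cr_bd (h : W.OK) (hC : C.Good W) {Q : Bx ι} (hQ : Q.Pos) :
    C.C0 ι * W.nu Q ≤ C.cr W Q ∧ C.cr W Q ≤ 2 * (C.C0 ι * W.nu Q) ∧
      C.C0 ι * W.nu Q / 10 ≤ C.base W Q ∧ 0 ≤ C.bonus W Q ∧
      ∀ n : ℝ, 0 ≤ n → n ≤ 2 →
        C.base W Q + n * C.bonus W Q ≤ C.cr W Q + n * (C.k1 * (C.C0 ι * W.xx Q)) := by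
  have c0 := (hC.consts h).2.2.2.1
  obtain ⟨-, -, -, x0, x1⟩ := h.tt_bd hQ
  have p1 := mul_pos c0 x0
  have p2 := mul_le_mul_of_nonneg_left x1 c0.le
  have p3 := mul_pos hC.p1 p1
  have h1 : C.C0 ι * W.nu Q ≤ C.cr W Q := by unfold cr; linarith only [p2]
  refine ⟨h1, by unfold cr; linarith only [p1], ?_, ?_, fun n n0 n2 => ?_⟩
  · unfold base; split_ifs <;> linarith only [p1, p2, h1]
  · unfold bonus; split_ifs <;> linarith only [p1, p2, p3]
  · unfold base bonus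
    split_ifs
    · have q1 := mul_le_mul_of_nonneg_right n2 (show 0 ≤ C.C0 ι * W.nu Q / 5 by linarith only [p1, p2])
      have q2 := mul_nonneg n0 p3.le
      linarith only [p1, p2, h1, q1, q2]
    · exact le_of_eq (by ring)

end EC

end Pool.Agent.Lib.MP_ecd4e3_gt.NB
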