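import Pool.Agent.Lib.MP_ecd4e3_gt.NB.EMain

/-! One stage of the exhaustion by central cubes. -/

namespace Pool.Agent.Lib.MP_ecd4e3_gt.NB

open Set Filter Topology Metric MeasureTheory
open scoped NNReal ENNReal

variable {ι : Type} [Fintype ι] [DecidableEq ι] [Nonempty ι] [Nontrivial ι]

set_option linter.unusedSectionVars false

namespace EV

variable {W : EV ι}

/-- The geometric bound for the lengths of the bands. -/
theorem OK.eo_g (h : W.OK) {μ : ℝ} (hμ : 0 < μ) (hν : W.ν univ ≤ ENNReal.ofReal μ) :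
    ∃ (g : ℤ → ℝ) (D : ℝ), 1 ≤ D ∧ (∀ n, 0 < g n) ∧ Antitone g ∧
      (∀ n, D * g n + g (n - 1) ≤ D * g (n - 1)) ∧
      (∀ k (Q : Bx ι), BX k Q → W.ta Q ≤ g (lev k Q)) ∧ ∀ e, 0 < e → ∃ n : ℕ, g n ≤ e := by
  have hα := (thN_bd (ι := ι)).1
  obtain ⟨q, hq⟩ : ∃ q : ℝ, q = 2 ^ (-alN ι) := ⟨_, rfl⟩
  have q0 : 0 < q := by rw [hq]; positivity
  have q1 : q < 1 := by
    rw [hq]; exact Real.rpow_lt_one_of_one_lt_of_neg one_lt_two (by linarith only [hα])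
  obtain ⟨M, hM⟩ : ∃ M, M = W.A1 * μ ^ thN ι := ⟨_, rfl⟩
  have M0 : 0 < M := by
    have := h.consts.2.2.1
    rw [hM]; positivity
  have q2 : 0 < 1 - q := by linarith only [q1]
  refine ⟨fun n => M * q ^ n, (1 - q)⁻¹, (one_le_inv₀ q2).2 (by linarith only [q0]), fun n => by positivity,
    fun n m hnm => mul_le_mul_of_nonneg_left (zpow_le_zpow_right_of_le_one₀ q0 q1.le hnm) M0.le,
    fun n => le_of_eq ?_, fun k Q hQ => ?_, fun e he => ?_⟩
  · have : q ^ n = q ^ (n - 1) * q := by rw [← zpow_add_one₀ q0.ne', sub_add_cancel]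
    simp only [this]
    field_simp
    ring
  · have h1 : W.nu Q ≤ μ := ENNReal.toReal_le_of_le_ofReal hμ.le ((measure_mono (subset_univ _)).trans hν)
    have h2 := h.ta_decay hQ.lb.pos h1
    have h3 : Q.vol ^ alN ι * q ^ lev k Q = 1 := by
      rw [hQ.vol, hq, ← Real.rpow_intCast, ← Real.rpow_intCast, ← Real.rpow_mul zero_le_two,
        ← Real.rpow_mul zero_le_two, ← Real.rpow_add two_pos]
      ring_nf
      exact Real.rpow_zero _
    calc W.ta Q = W.ta Q * Q.vol ^ alN ι * q ^ lev k Q := by rw [mul_assoc, h3, mul_one]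
      _ ≤ _ := mul_le_mul_of_nonneg_right (hM ▸ h2) (by positivity)
  · obtain ⟨n, hn⟩ := exists_pow_lt_of_lt_one (div_pos he M0) q1
    exact ⟨n, by simpa [mul_comm] using ((lt_div_iff₀ M0).1 hn).le⟩

/-- The invariant of the descent. -/
structure eoSt (W : EV ι) (j : ℤ) (g : ℤ → ℝ) (D : ℝ) (l1 : List (It ι)) (b : It ι)
    (l2 : List (It ι)) (n : ℤ) : Prop where
  ok : W.LOk (ball 0 (2 ^ j / 100)) (l1 ++ b :: l2)
  sub : (cubeAt j (0 : E ι)).set ⊆ b.Q.set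
  lv : lev b.k b.Q = n
  nu : ((l1 ++ l2).map fun b => W.nu b.Q).sum + W.nu b.Q ≤ (W.ν univ).toReal
  ts : W.ts l1 + W.ts l2 ≤ D * g n

theorem eo_lev {j k : ℤ} {Q : Bx ι} (hQ : BX k Q) (hs : (cubeAt j (0 : E ι)).set ⊆ Q.set) :
    Fintype.card ι * j ≤ lev k Q :=
  (mul_le_mul_of_nonneg_left (hQ.cube_le (cube_cubeAt j 0) hs).1 (by positivity)).trans
    hQ.lev_bd.1

theorem OK.eo_kids (h : W.OK) {j : ℤ} {g : ℤ → ℝ} {D : ℝ}
    (hg : ∀ k (Q : Bx ι), BX k Q → W.ta Q ≤ g (lev k Q)) {k : ℤ} {Q : Bx ι} (hQ : BX k Q)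
    {b1 b2 : It ι} (hk : Kids k Q b1 b2) (hs : (cubeAt j (0 : E ι)).set ⊆ Q.set) (hj : j ≤ nk k Q)
    {l1 l2 : List (It ι)} (hl : W.LOk (ball 0 (2 ^ j / 100)) (l1 ++ b1 :: b2 :: l2))
    (hn : ((l1 ++ l2).map fun b => W.nu b.Q).sum + W.nu Q ≤ (W.ν univ).toReal)
    (ht : W.ts l1 + W.ts l2 + g (lev k Q - 1) ≤ D * g (lev k Q - 1)) :
    ∃ l1' b l2', l1 ++ b1 :: b2 :: l2 = l1' ++ b :: l2' ∧ eoSt W j g D l1' b l2' (lev k Q - 1) := by
  obtain ⟨i, ε, hε, hi, e1, e2, k1, k2⟩ := hk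
  have n0 := h.nu_half hQ.lb.pos i hε
  rw [← e1, ← e2] at n0
  have v1 := hQ.H hi (-ε)
  have v2 := hQ.H hi ε
  rw [← e1, ← k1] at v1
  rw [← e2, ← k2] at v2
  have t1 := hg _ _ v1.1
  have t2 := hg _ _ v2.1
  rw [v1.2] at t1
  rw [v2.2] at t2
  have hc : (cubeAt j (0 : E ι)).set ⊆ b1.Q.set ∨ (cubeAt j (0 : E ι)).set ⊆ b2.Q.set := by
    have := hQ.cube_half hi (cube_cubeAt j 0) hj hs
    rw [e1, e2]
    rcases hε with rfl | rfl
    · simpa [Bx.H, not_lt.2 (zero_le_one' ℝ)] using this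
    · simpa [Bx.H, not_lt.2 (zero_le_one' ℝ)] using this.symm
  simp only [List.map_append, List.sum_append] at hn
  rcases hc with hc | hc
  · refine ⟨l1, b1, b2 :: l2, rfl, hl, hc, v1.2, ?_, ?_⟩
    · simp only [List.map_append, List.sum_append, List.map_cons, List.sum_cons]
      linarith only [hn, n0]
    · rw [ts_cons]; linarith only [ht, t2]
  · refine ⟨l1 ++ [b1], b2, l2, by simp, by simpa using hl, hc, v2.2, ?_, ?_⟩
    · simp only [List.map_append, List.sum_append, List.map_cons, List.sum_cons, List.map_nil,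
        List.sum_nil]
      linarith only [hn, n0]
    · rw [ts_append, ts_cons, ts_nil]; linarith only [ht, t1]

theorem eo_den {μ : ℝ} (h : W.OK) (hμ : 0 < μ) (hν : W.ν univ ≤ ENNReal.ofReal μ) {k : ℤ}
    {Q : Bx ι} (hQ : BX k Q) (hv : μ < 2 ^ lev k Q) : Q.den W.ν < 1 := by
  have h1 : W.nu Q ≤ μ := ENNReal.toReal_le_of_le_ofReal hμ.le ((measure_mono (subset_univ _)).trans hν)
  have h2 := (h.nu_bd hQ.lb.pos).2.1
  have h3 := hQ.lb.pos.vol_pos
  rw [← hQ.vol] at hv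
  by_contra hc
  linarith only [mul_le_mul_of_nonneg_right (not_lt.1 hc) h3.le, h1, h2, hv]

/-- Refining along the central cubes. -/
theorem OK.descend (h : W.OK) {μ : ℝ} (hμ : 0 < μ) (hν : W.ν univ ≤ ENNReal.ofReal μ) {δ : ℝ}
    (hδ : 0 < δ) : ∃ j0 : ℤ, ∀ j, j0 ≤ j → ∀ j', j < j' → ∀ (a : ℕ) (L c c' : ℝ), 2 * δ ≤ L →
      1 ≤ c' → c' < c → ∃ (l1 : List (It ι)) (b : It ι) (l2 : List (It ι)) (o : E ι),
        b.k = j ∧ b.Q = cubeAt j 0 ∧ W.LOk (ball 0 (2 ^ j / 100)) (l1 ++ b :: l2) ∧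
        W.cg (1 / 16) * W.ts (l1 ++ b :: l2) ≤ δ ∧
        ((l1 ++ l2).map fun b => W.nu b.Q).sum ≤ (W.ν (cubeAt j (0 : E ι)).setᶜ).toReal ∧
        Red W.U0 (ball 0 (2 ^ j / 100))
          (W.pbT a j' (cubeAt j' 0) (2 * W.tt (cubeAt j' 0)) (cubeC 0 L).gb c)
          {W.pbL (l1 ++ b :: l2) (cubeC o (L - δ)).gb c'} := by
  obtain ⟨g, D, hD, g0, ga, gD, hg, ge⟩ := h.eo_g hμ hν
  have hf : (0 : ℝ) < 1 / 16 := by norm_num
  have cg0 : 0 < W.cg (1 / 16) := by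
    have := h.consts.1
    have := h.consts.2.1
    unfold cg; positivity
  obtain ⟨n1, hn1⟩ := ge (δ / (W.cg (1 / 16) * (2 * D))) (by positivity)
  obtain ⟨n2, hn2⟩ := pow_unbounded_of_one_lt μ (one_lt_two (α := ℝ))
  refine ⟨max n1 n2, fun j hj j' hj' a L c c' hL hc1 hc2 => ?_⟩
  have j0 : 0 ≤ j := ((Int.natCast_nonneg n1).trans (le_max_left _ _)).trans hj
  have hN : j ≤ Fintype.card ι * j :=
    le_mul_of_one_le_left j0 (by exact_mod_cast Fintype.card_pos)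
  obtain ⟨n0, hn0⟩ : ∃ n0, n0 = Fintype.card ι * j := ⟨_, rfl⟩
  have D0 : 0 ≤ D := zero_le_one.trans hD
  have cD : 0 < W.cg (1 / 16) * (2 * D) := mul_pos cg0 (by linarith only [hD])
  have jn : j ≤ n0 := hn0 ▸ hN
  have hδ' : W.cg (1 / 16) * (2 * D) * g n0 ≤ δ := by
    have := (ga (((le_max_left _ _).trans hj).trans jn)).trans hn1
    rwa [le_div_iff₀' cD] at this
  have hden : ∀ k (Q : Bx ι), BX k Q → n0 ≤ lev k Q → Q.den W.ν < 1 := fun k Q hQ hk =>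
    eo_den h hμ hν hQ (hn2.trans_le (by
      rw [← zpow_natCast]
      exact two_le_g.2 ((((le_max_right _ _).trans hj).trans jn).trans hk)))
  obtain ⟨s, hs⟩ : ∃ s : ℤ → ℝ, ∀ n, s n = L - δ + W.cg (1 / 16) * (2 * D) * (g n0 - g n) :=
    ⟨_, fun _ => rfl⟩
  have s0 : ∀ n, n0 ≤ n → L - δ ≤ s n := fun n hn => by
    rw [hs]; exact le_add_of_nonneg_right (mul_nonneg cD.le (sub_nonneg.2 (ga hn)))
  have tsb : ∀ l1 b l2 n, eoSt W j g D l1 b l2 n → W.cg (1 / 16) * W.ts (l1 ++ b :: l2) ≤ δ := by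
    intro l1 b l2 n st
    have hb := (st.ok.1 b (by simp)).1.bx
    have e1 := hg _ _ hb
    have e2 := eo_lev hb st.sub
    rw [st.lv] at e1 e2
    have e3 := ga (hn0 ▸ e2)
    have e4 : W.ts (l1 ++ b :: l2) ≤ 2 * D * g n0 := by
      rw [ts_append, ts_cons]
      linarith only [st.ts, e1, e3, mul_le_mul_of_nonneg_left e3 D0,
        mul_le_mul_of_nonneg_right hD (g0 n0).le]
    linarith only [mul_le_mul_of_nonneg_left e4 cg0.le, hδ']
  have key : ∀ (m : ℕ) l1 b l2 n o c1, n ≤ n0 + m → c' < c1 → eoSt W j g D l1 b l2 n →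
      ∃ l1' b' l2' n' o', b'.Q = cubeAt j 0 ∧ eoSt W j g D l1' b' l2' n' ∧
        Red W.U0 (ball 0 (2 ^ j / 100)) (W.pbL (l1 ++ b :: l2) (cubeC o (s n)).gb c1)
          {W.pbL (l1' ++ b' :: l2') (cubeC o' (L - δ)).gb c'} := by
    have base : ∀ l1 b l2 n o c1, c' < c1 → eoSt W j g D l1 b l2 n → b.Q = cubeAt j 0 →
        Red W.U0 (ball 0 (2 ^ j / 100)) (W.pbL (l1 ++ b :: l2) (cubeC o (s n)).gb c1)
          {W.pbL (l1 ++ b :: l2) (cubeC o (L - δ)).gb c'} := by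
      intro l1 b l2 n o c1 hc st e
      have hb := (st.ok.1 b (by simp)).1.bx
      have hk : b.k = j := (cube_cubeAt j (0 : E ι)).level (by rw [e] at hb; exact hb)
      have e1 : n = n0 := by
        rw [← st.lv, hn0, hk, e, (cube_cubeAt j 0).lev]
      rw [e1, hs, sub_self, mul_zero, add_zero]
      exact Red.data (fun _ _ _ => rfl) (fun _ _ => Iff.rfl) hc.le
    have step : ∀ l1 b l2 n o c1, c' < c1 → eoSt W j g D l1 b l2 n → b.Q ≠ cubeAt j 0 →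
        ∃ l1' b' l2' o', n0 ≤ n - 1 ∧ eoSt W j g D l1' b' l2' (n - 1) ∧
          Red W.U0 (ball 0 (2 ^ j / 100)) (W.pbL (l1 ++ b :: l2) (cubeC o (s n)).gb c1)
            {W.pbL (l1' ++ b' :: l2') (cubeC o' (s (n - 1))).gb ((c1 + c') / 2)} := by
      intro l1 b l2 n o c1 hc st e
      have hb := (st.ok.1 b (by simp)).1.bx
      have e1 : j ≤ nk b.k b.Q :=
        (hb.cube_le (cube_cubeAt j 0) st.sub).2.resolve_left fun e' => e e'.symm
      have e2 : n0 ≤ n - 1 := by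
        have a1 := hb.L b.Q.long_sj
        have a2 := a1.1.lev_bd.1
        have a3 := mul_le_mul_of_nonneg_left e1 (Int.natCast_nonneg (Fintype.card ι))
        rw [a1.2, st.lv] at a2
        exact hn0 ▸ a3.trans a2
      have e0 : n - 1 ≤ n := sub_le_self n zero_le_one
      have e3 := s0 n (e2.trans e0)
      have e4 : 0 < s n := by linarith only [e3, hL, hδ]
      have e5 := hg _ _ hb
      rw [st.lv] at e5
      obtain ⟨b1, b2, R', hk, hl, hsim, hr⟩ := h.refine_red hf le_rfl st.ok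
        (hden _ _ hb (by rw [st.lv]; exact e2.trans e0)) (fo_ball e1)
        (cubeC_valid hf le_rfl o e4).2.1
        (L := s (n - 1)) ((tsb _ _ _ _ st).trans (by linarith only [s0 _ e2, hL])) (by
          rw [cubeC_sz o e4, hs, hs]
          linarith only [mul_le_mul_of_nonneg_left e5 cg0.le,
            mul_le_mul_of_nonneg_left (gD n) cg0.le,
            mul_le_mul_of_nonneg_left (ga e0) cg0.le, mul_pos cg0 (g0 (n - 1))])
        (c := c1) (c' := (c1 + c') / 2) (by linarith only [hc, hc1]) (by linarith only [hc])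
      obtain ⟨-, o', rfl⟩ := hsim.cube e4
      obtain ⟨l1', b', l2', e6, st'⟩ := h.eo_kids (D := D) hg hb hk st.sub e1 hl st.nu (by
        rw [st.lv]; linarith only [st.ts, gD n])
      rw [st.lv] at st'
      exact ⟨l1', b', l2', o', e2, st', e6 ▸ hr⟩
    intro m
    induction m with
    | zero =>
      intro l1 b l2 n o c1 hm hc st
      by_cases e : b.Q = cubeAt j 0
      · exact ⟨l1, b, l2, n, o, e, st, base _ _ _ _ _ _ hc st e⟩
      · obtain ⟨_, _, _, _, h1, -⟩ := step _ _ _ _ o _ hc st e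
        exact absurd h1 (not_le.2 (by push_cast at hm; linarith only [hm]))
    | succ m ih =>
      intro l1 b l2 n o c1 hm hc st
      by_cases e : b.Q = cubeAt j 0
      · exact ⟨l1, b, l2, n, o, e, st, base _ _ _ _ _ _ hc st e⟩
      · obtain ⟨l1', b', l2', o', -, st', hr⟩ := step _ _ _ _ o _ hc st e
        obtain ⟨l3, b3, l4, n', o3, e3, st3, hr'⟩ :=
          ih l1' b' l2' (n - 1) o' ((c1 + c') / 2) (by push_cast at hm; linarith only [hm])
            (by linarith only [hc]) st'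
        exact ⟨l3, b3, l4, n', o3, e3, st3, hr.trans1 hr'⟩
  have hC := cube_cubeAt j' (0 : E ι)
  have hQ := hC.bx
  have hnk : nk j' (cubeAt j' (0 : E ι)) = j' - 1 := if_pos hC
  have hsub : (cubeAt j (0 : E ι)).set ⊆ (cubeAt j' (0 : E ι)).set := by
    rw [Bx.subset_iff fun i => ((cube_cubeAt j (0 : E ι)).lb.pos i).le]
    intro i
    have a1 := (lat_fl j' 0).of_le hj'.le
    refine ⟨a1.le_fl_g (fl_le j' 0), ?_⟩
    exact (lat_fl j 0).gap ((lat_fl j' 0).add.of_le hj'.le) ((fl_le j 0).trans_lt (lt_fl j' 0))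
  have hlev : n0 ≤ lev j' (cubeAt j' (0 : E ι)) - 1 := by
    have a1 := hQ.L (cubeAt j' (0 : E ι)).long_sj
    have a2 := a1.1.lev_bd.1
    have a3 := mul_le_mul_of_nonneg_left (Int.le_sub_one_of_lt hj')
      (Int.natCast_nonneg (Fintype.card ι))
    rw [a1.2, hnk] at a2
    exact hn0 ▸ a3.trans a2
  have hjn : j ≤ nk j' (cubeAt j' (0 : E ι)) := hnk ▸ Int.le_sub_one_of_lt hj'
  have L0 : 0 < L := by linarith only [hL, hδ]
  have e5 := hg _ _ hQ
  have e6 := (h.tt_bd hQ.lb.pos).1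
  obtain ⟨n, hn⟩ : ∃ n, n = lev j' (cubeAt j' (0 : E ι)) := ⟨_, rfl⟩
  have a2 := ga (sub_le_self n zero_le_one)
  have a3 := ga (hn ▸ hlev)
  obtain ⟨b1, b2, R', hk, -, -, hl, hsim, hr⟩ := h.std_red hf le_rfl a hQ
    (hden _ _ hQ (hlev.trans (sub_le_self _ zero_le_one))) (fo_ball hj'.le) (fo_ball hjn)
    (cubeAt j' (0 : E ι)).long_sj (t := 2 * W.tt (cubeAt j' 0)) (by linarith only [e6])
    (cubeC_valid hf le_rfl 0 L0).2.1 (L := s (n - 1)) (by
      have := s0 _ (hn ▸ hlev)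
      rw [← hn] at e5
      linarith only [mul_le_mul_of_nonneg_left ((e5.trans a2).trans a3) cg0.le,
        mul_pos cg0 (g0 n0), mul_nonneg (mul_pos cg0 (g0 n0)).le (sub_nonneg.2 hD), this, hL,
        hδ']) (by
      rw [cubeC_sz 0 L0, hs, mul_assoc 2, ← ta]
      rw [← hn] at e5
      linarith only [mul_le_mul_of_nonneg_left (e5.trans a2) cg0.le,
        mul_nonneg (mul_pos cg0 (g0 (n - 1))).le (sub_nonneg.2 hD), hδ'])
    (c := c) (c' := (c + c') / 2) (by linarith only [hc1, hc2]) (by linarith only [hc2])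
  obtain ⟨-, o', rfl⟩ := hsim.cube L0
  have hfin : W.ν univ ≠ ∞ := ne_top_of_le_ne_top ENNReal.ofReal_ne_top hν
  obtain ⟨l1', b', l2', e7, st'⟩ := h.eo_kids (l1 := []) (l2 := []) (D := D) hg hQ hk hsub
    hjn hl (by
      rw [List.append_nil, List.map_nil, List.sum_nil, zero_add]
      exact ENNReal.toReal_mono hfin (measure_mono (subset_univ _))) (by
      rw [ts_nil, ← hn]; linarith only [mul_le_mul_of_nonneg_right hD (g0 (n - 1)).le])
  rw [← hn] at st'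
  obtain ⟨l3, b3, l4, n', o3, e3, st3, hr'⟩ := key (n - 1 - n0).toNat l1' b' l2' (n - 1) o'
    ((c + c') / 2) (by linarith only [Int.self_le_toNat (n - 1 - n0)]) (by linarith only [hc2]) st'
  have hb := (st3.ok.1 b3 (by simp)).1.bx
  refine ⟨l3, b3, l4, o3, (cube_cubeAt j (0 : E ι)).level (e3 ▸ hb), e3, st3.ok,
    tsb _ _ _ _ st3, ?_, hr.trans1 (by rw [← e7] at hr'; exact hr')⟩
  have a4 := st3.nu
  rw [e3, nu, ← measure_add_measure_compl (cubeAt j (0 : E ι)).isClosed_set.measurableSet,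
    ENNReal.toReal_add (ne_top_of_le_ne_top hfin (measure_mono (subset_univ _)))
      (ne_top_of_le_ne_top hfin (measure_mono (subset_univ _)))] at a4
  linarith only [a4]

theorem eo_seg {F0 : Set (E ι)} {l l' : List (It ι)} (hl : W.LOk F0 l) (h : l' <:+: l) :
    W.LOk F0 l' :=
  ⟨fun b hb => hl.1 b (h.subset hb), hl.2.sublist (h.sublist.map _)⟩

/-- A reduction all of whose sub-problems but one are solvable. -/
def eoR (U0 F0 : Set (E ι)) (p q : PE ι) : Prop :=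
  ∃ ps, Red U0 F0 p ps ∧ q ∈ ps ∧ ∀ q' ∈ ps, q' = q ∨ ∃ Z, Sol (UL U0) q' univ Z

theorem eoR.trans {U0 F0 : Set (E ι)} {p q r : PE ι} (h : eoR U0 F0 p q) (h' : eoR U0 F0 q r) :
    eoR U0 F0 p r := by
  classical
  obtain ⟨ps, h1, h2, h3⟩ := h
  obtain ⟨ps', k1, k2, k3⟩ := h'
  refine ⟨_, h1.trans (ch := fun q' => if q' = q then ps' else {q'}) fun q' _ => ?_,
    mem_iUnion₂.2 ⟨q, h2, by simpa using k2⟩, fun q'' hq => ?_⟩
  · by_cases e : q' = q
    · simpa [e] using k1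
    · simpa [e] using Red.refl q'
  · obtain ⟨q', a1, a2⟩ := mem_iUnion₂.1 hq
    by_cases e : q' = q
    · exact k3 _ (by simpa [e] using a2)
    · have e' : q'' = q' := by simpa [e] using a2
      exact Or.inr (e' ▸ (h3 q' a1).resolve_left e)

theorem eoR.of {U0 F0 : Set (E ι)} {p q : PE ι} (h : Red U0 F0 p {q}) : eoR U0 F0 p q :=
  ⟨_, h, rfl, fun _ e => Or.inl e⟩

theorem eo_sim {f ρ : ℝ} (hf : 0 < f) (hf' : f ≤ 1 / 16) {R R' : GB ι} (hR : R.Valid f)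
    (h : Sim f R R' (ρ * R.sz)) : R'.wmin = ρ * R.wmin ∧ R'.wmax = ρ * R.wmax := by
  have p := (hR.sz_pos hf hf').1
  exact ⟨mul_right_cancel₀ p.ne' (by rw [h.wmin]; ring),
    mul_right_cancel₀ p.ne' (by rw [h.wmax]; ring)⟩

theorem eo_w {Q : Bx ι} {x y : ℝ} (hs : ∀ i, x ≤ Q.sd i ∧ Q.sd i ≤ y) :
    x ≤ Q.gb.wmin ∧ Q.gb.wmax ≤ y ∧ x ≤ Q.gb.wmax := by
  obtain ⟨i, e⟩ := Q.gb.exists_wmin
  obtain ⟨j, e'⟩ := Q.gb.exists_wmax
  exact ⟨e ▸ (hs i).1, e' ▸ (hs j).2, e' ▸ (hs j).1⟩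

theorem eo_side {f ρ : ℝ} (hf : 0 < f) (hf' : f ≤ 1 / 16) (hρ : 0 ≤ ρ) {Q : Bx ι} {R' : GB ι}
    (hR : Q.gb.Valid f) (h : Sim f Q.gb R' (ρ * Q.gb.sz)) {x y : ℝ}
    (hs : ∀ i, x ≤ Q.sd i ∧ Q.sd i ≤ y) :
    ∃ Q' : Bx ι, R' = Q'.gb ∧ ∀ i, ρ * x ≤ Q'.sd i ∧ Q'.sd i ≤ ρ * y := by
  obtain ⟨Q', rfl⟩ := h.box Q rfl
  obtain ⟨e1, e2⟩ := eo_sim hf hf' hR h
  obtain ⟨a1, a2, -⟩ := eo_w hs
  refine ⟨Q', rfl, fun i => ⟨?_, ?_⟩⟩
  · exact (mul_le_mul_of_nonneg_left a1 hρ).trans (e1 ▸ Q'.gb.wmin_le i)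
  · exact le_trans (e2 ▸ Q'.gb.le_wmax i) (mul_le_mul_of_nonneg_left a2 hρ)

theorem eo_box {f L δ x : ℝ} (hf : 0 < f) (hf' : f ≤ 1 / 16) (hδ : 0 < δ) (hL : δ ≤ L)
    (hfL : f * L = δ / 20) (hx : L ≤ x) {Q : Bx ι} (hs : ∀ i, x ≤ Q.sd i ∧ Q.sd i ≤ L + δ) :
    Q.Pos ∧ (∀ i j, Q.sd i ≤ Mx f * Q.sd j) ∧ Q.gb.Valid f ∧ 0 < Q.gb.sz ∧
      f * δ / 4000 ≤ f / 5 * Q.gb.sz := by
  have c4 := (CutAux.cst (ι := ι) hf hf').2.2.2.1
  have p : Q.Pos := fun i => sub_pos.1 (show 0 < Q.sd i by linarith only [(hs i).1, hδ, hL, hx])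
  have a : ∀ i j, Q.sd i ≤ Mx f * Q.sd j := fun i j => by
    linarith only [(hs i).2, (hs j).1, hδ, hL, hx, mul_le_mul_of_nonneg_right c4
      (show 0 ≤ Q.sd j by linarith only [(hs j).1, hδ, hL, hx])]
  have v := Bx.gb_valid hf p a
  obtain ⟨s1, -, -, s2⟩ := v.sz_pos hf hf'
  refine ⟨p, a, v, s1, ?_⟩
  have a1 := mul_le_mul_of_nonneg_left (hx.trans (eo_w hs).2.2) hf.le
  linarith only [mul_le_mul_of_nonneg_left
    (show δ / 20 ≤ 40 * Q.gb.sz by linarith only [a1, s2, hfL]) hf.le]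

theorem OK.eo_cut (h : W.OK) {F0 : Set (E ι)} {f L δ x : ℝ} (hf : 0 < f) (hf' : f ≤ 1 / 16)
    (hδ : 0 < δ) (hL : δ ≤ L) (hfL : f * L = δ / 20) (hx : L ≤ x) {Q : Bx ι}
    (hs : ∀ i, x ≤ Q.sd i ∧ Q.sd i ≤ L + δ) {l1 l2 : List (It ι)} (e1 : l1 ≠ []) (e2 : l2 ≠ [])
    (hl : W.LOk F0 (l1 ++ l2)) (ht : W.cg f * W.ts (l1 ++ l2) ≤ f * δ / 4000) (sg : Bool)
    {c c' : ℝ} (c1 : 1 ≤ c') (c2 : c' < c) :
    ∃ (S : GB ι) (Q' : Bx ι), S.Valid f ∧ δ / 25 ≤ S.wmin ∧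
      (∀ i, x - 7 / 100 * δ ≤ Q'.sd i ∧ Q'.sd i ≤ L + δ) ∧
      Red W.U0 F0 (W.pbL (l1 ++ l2) Q.gb c)
        {W.pbL l1 (if sg then Q'.gb else S) c', W.pbL l2 (if sg then S else Q'.gb) c'} := by
  obtain ⟨p, a, v, s1, s2⟩ := eo_box hf hf' hδ hL hfL hx hs
  obtain ⟨i, hi⟩ : ∃ i, i = Q.sj := ⟨_, rfl⟩
  have b1 := hs i
  have b2 : f * Q.sd i ≤ δ / 10 := by
    linarith only [mul_le_mul_of_nonneg_left b1.2 hf.le, mul_le_mul_of_nonneg_left hL hf.le, hfL]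
  have b3 : Q.sd i = Q.hi i - Q.lo i := rfl
  have hc := Bx.isCut hf hf' p a (i := i) (hi ▸ Q.long_sj) (c := Q.lo i + δ / 20)
    (by linarith only [b1.1, b2, b3, hδ, hL, hx]) (by linarith only [b1.1, b2, b3, hδ, hL, hx])
  have r0 : 0 ≤ 1 - f / 5 := by linarith only [hf']
  obtain ⟨R1, R2, m1, m2, hr⟩ := h.cutl_red hf hf' e1 e2 hl v hc sg (L := (1 - f / 5) * Q.gb.sz)
    (by linarith only [ht, s2, mul_le_mul_of_nonneg_right hf' s1.le, s1])
    (by linarith only [ht, s2]) c1 c2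
  rw [mul_div_cancel_right₀ _ s1.ne'] at m1 m2
  have w1 : ∀ j, δ / 20 ≤ (⟨Q.lo, Function.update Q.hi i (Q.lo i + δ / 20)⟩ : Bx ι).sd j ∧
      (⟨Q.lo, Function.update Q.hi i (Q.lo i + δ / 20)⟩ : Bx ι).sd j ≤ L + δ := fun j => by
    have := hs j
    by_cases e : j = i
    · subst e
      simp only [Bx.sd, Function.update_self]
      constructor <;> linarith only [hδ, hL]
    · simp only [Bx.sd, Function.update_of_ne e] at this ⊢
      exact ⟨by linarith only [this.1, hδ, hL, hx], this.2⟩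
  have w2 : ∀ j, x - δ / 20 ≤ (⟨Function.update Q.lo i (Q.lo i + δ / 20), Q.hi⟩ : Bx ι).sd j ∧
      (⟨Function.update Q.lo i (Q.lo i + δ / 20), Q.hi⟩ : Bx ι).sd j ≤ L + δ := fun j => by
    have := hs j
    by_cases e : j = i
    · subst e
      simp only [Bx.sd, Function.update_self] at this ⊢
      exact ⟨by linarith only [this.1], by linarith only [this.2, hδ]⟩
    · simp only [Bx.sd, Function.update_of_ne e] at this ⊢
      exact ⟨by linarith only [this.1, hδ], this.2⟩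
  have key : ∀ S R' : GB ι,
      Sim f (⟨Q.lo, Function.update Q.hi i (Q.lo i + δ / 20)⟩ : Bx ι).gb S ((1 - f / 5) *
        (⟨Q.lo, Function.update Q.hi i (Q.lo i + δ / 20)⟩ : Bx ι).gb.sz) →
      Sim f (⟨Function.update Q.lo i (Q.lo i + δ / 20), Q.hi⟩ : Bx ι).gb R' ((1 - f / 5) *
        (⟨Function.update Q.lo i (Q.lo i + δ / 20), Q.hi⟩ : Bx ι).gb.sz) →
      ∃ Q' : Bx ι, R' = Q'.gb ∧ S.Valid f ∧ δ / 25 ≤ S.wmin ∧
        ∀ i, x - 7 / 100 * δ ≤ Q'.sd i ∧ Q'.sd i ≤ L + δ := by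
    intro S R' k1 k2
    obtain ⟨Q', e, k3⟩ := eo_side hf hf' r0 hc.v2 k2 w2
    refine ⟨Q', e, k1.valid, ?_, fun j => ⟨le_trans ?_ (k3 j).1, (k3 j).2.trans ?_⟩⟩
    · rw [(eo_sim hf hf' hc.v1 k1).1]
      linarith only [mul_le_mul_of_nonneg_left (eo_w w1).1 r0,
        mul_le_mul_of_nonneg_right hf' hδ.le, hδ]
    · linarith only [mul_le_mul_of_nonneg_left
        (show x - δ / 20 ≤ 2 * L by linarith only [b1.1, b1.2, hδ, hL]) hf.le, hfL]
    · linarith only [mul_pos hf hδ, hfL, hδ]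
  cases sg
  · obtain ⟨Q', rfl, k⟩ := key R1 R2 m1 m2
    exact ⟨R1, Q', k.1, k.2.1, k.2.2, hr⟩
  · obtain ⟨Q', rfl, k⟩ := key R2 R1 m2 m1
    exact ⟨R2, Q', k.1, k.2.1, k.2.2, hr⟩

theorem OK.eo_tail (h : W.OK) {μ : ℝ} (hν : W.ν univ ≤ ENNReal.ofReal μ) {e : ℝ} (he : 0 < e) :
    ∃ j0 : ℤ, ∀ j, j0 ≤ j → (W.ν (cubeAt j (0 : E ι)).setᶜ).toReal ≤ e := by
  have hfin : W.ν univ ≠ ∞ := ne_top_of_le_ne_top ENNReal.ofReal_ne_top hν
  have t := tendsto_measure_iInter_atTop (μ := W.ν)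
    (s := fun n : ℕ => (closedBall (0 : E ι) n)ᶜ)
    (fun n => isClosed_closedBall.measurableSet.compl.nullMeasurableSet)
    (fun n m hnm => compl_subset_compl.2 (closedBall_subset_closedBall (by exact_mod_cast hnm)))
    ⟨0, ne_top_of_le_ne_top hfin (measure_mono (subset_univ _))⟩
  rw [← compl_iUnion, iUnion_closedBall_nat, compl_univ, measure_empty] at t
  obtain ⟨n, hn⟩ := (t.eventually (gt_mem_nhds (ENNReal.ofReal_pos.2 he))).exists
  obtain ⟨m, hm⟩ := pow_unbounded_of_one_lt (3 * (n : ℝ)) (one_lt_two (α := ℝ))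
  refine ⟨m, fun j hj => ENNReal.toReal_le_of_le_ofReal he.le (le_trans (measure_mono ?_) hn.le)⟩
  refine compl_subset_compl.2 ((closedBall_subset_closedBall ?_).trans (ball_subset_cubeAt j))
  have : (2 : ℝ) ^ (m : ℤ) ≤ 2 ^ j := two_le_g.2 hj
  rw [zpow_natCast] at this
  linarith only [hm, this]

end EV

namespace EC

open EV

variable {C : EC} {W : EV ι}

theorem Good.eo_slab (h : W.OK) (hC : C.Good W) {F0 : Set (E ι)} {f δ : ℝ} (hf : 0 < f)
    (hf' : f ≤ 1 / 16) (hδ : 0 < δ) {l : List (It ι)} (e1 : l ≠ []) (hl : W.LOk F0 l) {S : GB ι}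
    (hS : S.Valid f) (hw : δ / 25 ≤ S.wmin) (ht : W.cg f * W.ts l ≤ f * δ / 4000)
    (hB : C.Bc * W.ts l ≤ δ / 100)
    (hn : 3 * C.C0 ι * (l.map fun b => W.nu b.Q).sum ≤ (δ / 50) ^ Fintype.card ι / 2) {c : ℝ}
    (hc : 1 < c) : ∃ Z, Sol (UL W.U0) (W.pbL l S c) univ Z := by
  obtain ⟨i, e⟩ := S.exists_wmin
  have a1 := (hS.sz_pos hf hf').2.2.2
  have a2 := mul_le_mul_of_nonneg_left (hw.trans (e ▸ S.le_wmax i)) hf.le
  have a3 := mul_pos hf hδ
  have w0 : 0 < S.wmin / 2 := by linarith only [hw, hδ]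
  have hN : 1 ≤ Fintype.card ι := Fintype.card_pos
  refine (h.cubeL_red hf hf' e1 hl hS (by linarith only [a1, a2, a3, ht]) (c' := (1 + c) / 2)
    (by linarith only [hc]) (by linarith only [hc])).sol ?_
  rintro q rfl
  obtain ⟨-, v1, v2, -⟩ := cubeC_valid (f := 1 / 16) (by norm_num) le_rfl S.o w0
  obtain ⟨-, -, -, -, k1, -, k2⟩ := hC.cred_bd h hl
  refine hC.solL h ⟨e1, hl.empty, v1, by linarith only [hc], ?_⟩
  rw [v2.phi, cubeC_sz _ w0, Vl, mul_zero, add_zero]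
  refine Nd.mono (V := (δ / 50) ^ Fintype.card ι / 2) (τ := δ / 100) (L := δ / 50) hN ?_ k1
    (k2.trans hn) (mul_nonneg (zero_le_one.trans (hC.consts h).2.1) (h.ts_bd hl).1) hB
    (by linarith only [hδ]) (by linarith only [hw])
  have : (δ / 50) ^ Fintype.card ι = δ / 50 * (δ / 50) ^ (Fintype.card ι - 1) := by
    rw [← pow_succ', Nat.sub_add_cancel hN]
  unfold Nd
  rw [this]
  linarith only

theorem Good.stage (h : W.OK) (hC : C.Good W) {μ : ℝ} (hμ : 0 < μ)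
    (hν : W.ν univ ≤ ENNReal.ofReal μ) {L δ : ℝ} (hδ : 0 < δ) (hL : δ ≤ L) :
    ∃ j0 : ℤ, ∀ j, j0 ≤ j → ∀ j', j < j' → ∀ c c' : ℝ, 1 < c → c < c' → ∃ (a : ℕ) (ps : Set (PE ι)),
      Red W.U0 (ball 0 (2 ^ j / 100))
        (W.pbT 0 j' (cubeAt j' 0) (2 * W.tt (cubeAt j' 0)) (cubeC 0 (L + δ)).gb c') ps ∧
      W.pbT a j (cubeAt j 0) (2 * W.tt (cubeAt j 0)) (cubeC 0 L).gb c ∈ ps ∧
      ∀ q ∈ ps, q = W.pbT a j (cubeAt j 0) (2 * W.tt (cubeAt j 0)) (cubeC 0 L).gb c ∨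
        ∃ Z, Sol (UL W.U0) q univ Z := by
  have L0 : 0 < L := hδ.trans_le hL
  obtain ⟨f, hfe⟩ : ∃ f, f = δ / (20 * L) := ⟨_, rfl⟩
  have hf : 0 < f := by rw [hfe]; positivity
  have hfL : f * L = δ / 20 := by rw [hfe]; field_simp
  have hf' : f ≤ 1 / 16 := le_of_mul_le_mul_right (by linarith only [hfL, hL, L0]) L0
  obtain ⟨K1, K2, -⟩ := h.consts
  obtain ⟨g1, B1, -, C1, -⟩ := hC.consts h
  have cgK : 100 * W.K ≤ W.cg f := by
    unfold cg
    rw [le_div_iff₀ (by positivity)]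
    linarith only [mul_le_mul_of_nonneg_left K2 (zero_le_one.trans K1), K1,
      mul_le_mul_of_nonneg_left (pow_le_one₀ (n := 2) hf.le (by linarith only [hf']))
        (zero_le_one.trans K1)]
  have cg0 : 0 < W.cg f := by linarith only [cgK, K1]
  obtain ⟨d, d0, d1, d2, d3⟩ : ∃ d : ℝ, 0 < d ∧ d ≤ δ / 20 ∧ W.cg f * (2 * d) ≤ f * δ / 4000 ∧
      C.Bc * d ≤ δ / 100 := by
    refine ⟨min (δ / 20) (min (f * δ / 4000 / (2 * W.cg f)) (δ / 100 / C.Bc)), by positivity,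
      min_le_left _ _, ?_, ?_⟩
    · have := (min_le_right (δ / 20) _).trans
        (min_le_left (f * δ / 4000 / (2 * W.cg f)) (δ / 100 / C.Bc))
      rw [le_div_iff₀ (by positivity)] at this
      linarith only [this]
    · have := (min_le_right (δ / 20) _).trans
        (min_le_right (f * δ / 4000 / (2 * W.cg f)) (δ / 100 / C.Bc))
      rw [le_div_iff₀ (by positivity)] at this
      linarith only [this]
  obtain ⟨j1, h1⟩ := h.descend hμ hν d0
  obtain ⟨j2, h2⟩ := h.eo_tail hν (e := (δ / 50) ^ Fintype.card ι / 2 / (3 * C.C0 ι))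
    (by positivity)
  refine ⟨max j1 j2, fun j hj j' hj' c c' c1 c2 => ?_⟩
  obtain ⟨u, hu⟩ : ∃ u, u = (c' - c) / 5 := ⟨_, rfl⟩
  have u0 : 0 < u := by linarith only [hu, c2]
  obtain ⟨l1, b, l2, o, bk, bQ, hl, t1, n1, r0⟩ := h1 j ((le_max_left _ _).trans hj) j' hj' 0
    (L + δ) c' (c + 4 * u) (by linarith only [d1, hδ, L0]) (by linarith only [c1, u0])
    (by linarith only [hu, u0])
  have n2 := n1.trans (h2 j ((le_max_right _ _).trans hj))
  have C3 : 0 < 3 * C.C0 ι := mul_pos three_pos C1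
  rw [le_div_iff₀' C3] at n2
  have i1 : l1 <:+: l1 ++ b :: l2 := (List.prefix_append _ _).isInfix
  have i2 : b :: l2 <:+: l1 ++ b :: l2 := (List.suffix_append _ _).isInfix
  have i3 : l2 <:+: l1 ++ b :: l2 := (List.suffix_cons b l2).isInfix.trans i2
  have i4 : [b] <:+: l1 ++ b :: l2 := (List.prefix_append [b] l2).isInfix.trans i2
  have p1 := (h.ts_bd (eo_seg hl i1)).1
  have p2 := (h.ts_bd (eo_seg hl i3)).1
  have hb := (hl.1 b (by simp)).1.bx
  have hF := (hl.1 b (by simp)).2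
  obtain ⟨p4, -, p3, -⟩ := h.tt_bd hb.lb.pos
  have t2 : W.ts l1 + (W.ta b.Q + W.ts l2) ≤ d := by
    rw [ts_append, ts_cons] at t1
    exact (le_mul_of_one_le_left (add_nonneg p1 (add_nonneg p3.le p2)) g1).trans t1
  have tt : ∀ x, x ≤ 2 * d → W.cg f * x ≤ f * δ / 4000 := fun x hx =>
    (mul_le_mul_of_nonneg_left hx cg0.le).trans d2
  have tB : ∀ x, x ≤ d → C.Bc * x ≤ δ / 100 := fun x hx =>
    (mul_le_mul_of_nonneg_left hx (zero_le_one.trans B1)).trans d3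
  have nn : ∀ l : List (It ι), 0 ≤ (l.map fun b => W.nu b.Q).sum := fun l =>
    List.sum_nonneg fun x hx => by
      obtain ⟨b, -, rfl⟩ := List.mem_map.1 hx
      exact ENNReal.toReal_nonneg
  rw [List.map_append, List.sum_append] at n2
  have s0 : ∀ i, L + 95 / 100 * δ ≤ (cubeC o (L + δ - d)).sd i ∧
      (cubeC o (L + δ - d)).sd i ≤ L + δ := fun i => by
    rw [(cubeC_valid hf hf' o (show 0 < L + δ - d by linarith only [d1, hδ, L0])).2.2.2.2.2.2.2.1]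
    exact ⟨by linarith only [d1], by linarith only [d0]⟩
  obtain ⟨Q1, s1, r1⟩ : ∃ Q1 : Bx ι, (∀ i, L + 88 / 100 * δ ≤ Q1.sd i ∧ Q1.sd i ≤ L + δ) ∧
      eoR W.U0 (ball 0 (2 ^ j / 100)) (W.pbL (l1 ++ b :: l2) (cubeC o (L + δ - d)).gb (c + 4 * u))
        (W.pbL (b :: l2) Q1.gb (c + 3 * u)) := by
    by_cases e : l1 = []
    · subst e
      exact ⟨_, fun i => ⟨by linarith only [(s0 i).1, hδ], (s0 i).2⟩,
        .of (Red.data (fun _ _ _ => rfl) (fun _ _ => Iff.rfl) (by linarith only [u0]))⟩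
    · obtain ⟨S, Q', v, w, s, r⟩ := h.eo_cut hf hf' hδ hL hfL (by linarith only [hδ]) s0 e
        (List.cons_ne_nil _ _) hl (tt _ (by rw [ts_append, ts_cons]; linarith only [t2, d0])) false
        (c := c + 4 * u) (c' := c + 3 * u) (by linarith only [c1, u0]) (by linarith only [u0])
      refine ⟨Q', fun i => ⟨by linarith only [(s i).1], (s i).2⟩, _, r, Or.inr rfl, ?_⟩
      rintro q (rfl | rfl)
      · exact Or.inr (hC.eo_slab h hf hf' hδ e (eo_seg hl i1) v w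
          (tt _ (by linarith only [t2, d0, p2, p3])) (tB _ (by linarith only [t2, p2, p3]))
          (by linarith only [n2, mul_nonneg C3.le (nn l2)]) (by linarith only [c1, u0]))
      · exact Or.inl rfl
  obtain ⟨Q2, s2, r2⟩ : ∃ Q2 : Bx ι, (∀ i, L + 81 / 100 * δ ≤ Q2.sd i ∧ Q2.sd i ≤ L + δ) ∧
      eoR W.U0 (ball 0 (2 ^ j / 100)) (W.pbL (b :: l2) Q1.gb (c + 3 * u))
        (W.pbL [b] Q2.gb (c + 2 * u)) := by
    by_cases e : l2 = []
    · subst e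
      exact ⟨_, fun i => ⟨by linarith only [(s1 i).1, hδ], (s1 i).2⟩,
        .of (Red.data (fun _ _ _ => rfl) (fun _ _ => Iff.rfl) (by linarith only [u0]))⟩
    · obtain ⟨S, Q', v, w, s, r⟩ := h.eo_cut (l1 := [b]) hf hf' hδ hL hfL (by linarith only [hδ])
        s1 (List.cons_ne_nil _ _) e (eo_seg hl i2)
        (tt _ (by rw [List.singleton_append, ts_cons]; linarith only [t2, d0, p1])) true
        (c := c + 3 * u) (c' := c + 2 * u) (by linarith only [c1, u0]) (by linarith only [u0])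
      refine ⟨Q', fun i => ⟨by linarith only [(s i).1], (s i).2⟩, _, r, Or.inl rfl, ?_⟩
      rintro q (rfl | rfl)
      · exact Or.inl rfl
      · exact Or.inr (hC.eo_slab h hf hf' hδ e (eo_seg hl i3) v w
          (tt _ (by linarith only [t2, d0, p1, p3])) (tB _ (by linarith only [t2, p1, p3]))
          (by linarith only [n2, mul_nonneg C3.le (nn l1)]) (by linarith only [c1, u0]))
  obtain ⟨-, -, v, z1, z2⟩ := eo_box hf hf' hδ hL hfL (by linarith only [hδ]) s2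
  have t3 : 2 * W.tt b.Q * b.Q.sc ≤ 2 * d := by
    rw [mul_assoc, ← ta]; linarith only [t2, p1, p2]
  have t4 := tt _ t3
  obtain ⟨R3, m3, r3⟩ := h.single_red hf hf' (eo_seg hl i4) (t := 2 * W.tt b.Q)
    (by linarith only [p4]) v (L := (1 - f / 5) * Q2.gb.sz)
    (by linarith only [t4, z2, mul_le_mul_of_nonneg_right hf' z1.le, z1])
    (by linarith only [t4, z2]) (c := c + 2 * u) (c' := c + u)
    (by linarith only [c1, u0]) (by linarith only [u0])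
  obtain ⟨Q3, rfl, s3⟩ := eo_side hf hf' (by linarith only [hf']) v m3 s2
  have fδ := mul_le_mul_of_nonneg_right hf' hδ.le
  have r4 := h.nestT_red b.a hb hF (t := 2 * W.tt b.Q) (by linarith only [p4]) (Q' := Q3) (L := L)
    (m := δ / 4) (m' := δ / 2) L0 (by linarith only [hδ]) (by linarith only [hδ, hL])
    (fun i => ⟨by linarith only [(s3 i).1, fδ, hfL, hδ],
      by linarith only [(s3 i).2, mul_pos hf hδ, hfL, hδ]⟩) (by
      have : 0 ≤ 2 * W.tt b.Q * b.Q.sc := by rw [mul_assoc, ← ta]; linarith only [p3]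
      linarith only [mul_le_mul_of_nonneg_right cgK this, t4, fδ, hδ]) (c := c + u) (c' := c) c1.le
    (by linarith only [u0])
  have r := (((eoR.of r0).trans r1).trans r2).trans (eoR.of (r3.trans1 r4))
  rw [bk, bQ] at r
  exact ⟨b.a, r⟩

end EC

end Pool.Agent.Lib.MP_ecd4e3_gt.NB
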