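import Pool.Agent.Lib.MP_ecd4e3_gt.NB.ELists

/-! After a refinement; leaving the martingale mode. -/

namespace Pool.Agent.Lib.MP_ecd4e3_gt.NB

open Set Filter Topology Metric MeasureTheory
open scoped NNReal ENNReal

theorem ep_imb {k1 k2 κ g Y Ya Yc Z S u1 u2 n1 n2 ca cc cb φ N V : ℝ} (hY : 0 ≤ Y) (ha : 0 ≤ Ya)
    (hc : 0 ≤ Yc) (p1 : 0 ≤ k1) (p2 : 0 ≤ k2) (hn1 : n1 ≤ 1) (hn2 : n2 ≤ 1)
    (q1 : u1 ≤ ca + (1 + n1) * (k1 * Ya)) (q2 : u2 ≤ cc + (1 + n2) * (k1 * Yc))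
    (hcr : ca + cc = cb - (Ya + Yc - Y)) (g1 : Y * (1 + g) ≤ Ya + Yc) (g2 : Ya + Yc ≤ 2 * Y)
    (himb : 4 * k1 + 16 * N * k2 + κ ≤ g) (hφ0 : 0 ≤ φ) (hφ : φ ≤ 8 * N)
    (hw : S + cb + k2 * Z * φ ≤ V) :
    S + u1 + u2 + k2 * (Z + Ya + Yc) * φ ≤ V - κ * Y := by
  have a1 := mul_le_mul_of_nonneg_left g2 p1
  have a2 := mul_le_mul_of_nonneg_left g2 (mul_nonneg p2 hφ0)
  have a3 := mul_le_mul_of_nonneg_left hφ (mul_nonneg p2 hY)
  have a4 := mul_le_mul_of_nonneg_left himb hY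
  have a5 := mul_le_mul_of_nonneg_right hn1 (mul_nonneg p1 ha)
  have a6 := mul_le_mul_of_nonneg_right hn2 (mul_nonneg p1 hc)
  linarith only [q1, q2, hcr, g1, hw, a1, a2, a3, a4, a5, a6]

theorem ep_side {k1 k2 κ Y Ya Z S1 S2 u n ca cb φ N V e : ℝ} (hY : 0 ≤ Y) (ha : 0 ≤ Ya)
    (hZ : 0 ≤ Z) (p1 : 0 ≤ k1) (h1 : k1 ≤ 1 / 1000) (p2 : 0 ≤ k2) (h2 : 8000 * N * k2 ≤ 1)
    (hκ : κ ≤ 1 / 4000) (hn : n ≤ 1) (q : u ≤ ca + n * (k1 * Ya)) (hca : ca ≤ cb / 2 + V / 100)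
    (g2 : Ya ≤ 2 * Y) (hφ : φ ≤ 8 * N) (z : Z / 10 ≤ S1) (s2 : 0 ≤ S2) (hYV : Y ≤ V)
    (hS : S1 + S2 ≤ 31 / 100 * V) (he : 0 ≤ e) (hw : S1 + S2 + cb + e ≤ V) :
    S1 + u + k2 * (Z + Ya) * φ ≤ 88 / 100 * (V - κ * Y) := by
  have a1 := mul_le_mul_of_nonneg_right hn (mul_nonneg p1 ha)
  have a2 := mul_le_mul_of_nonneg_right h1 ha
  have a3 := mul_le_mul_of_nonneg_left hφ (mul_nonneg p2 (add_nonneg hZ ha))
  have a4 := mul_le_mul_of_nonneg_right h2 (add_nonneg hZ ha)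
  have a5 := mul_le_mul_of_nonneg_right hκ hY
  linarith only [hZ, q, hca, g2, z, s2, hYV, hS, he, hw, a1, a2, a3, a4, a5]

theorem ep_bal {k1 k2 κ Y Ya Yc Z1 Z2 S u1 u2 n1 n2 ca cc cb φ dr φ1 φ2 N V e : ℝ}
    (hZ1 : 0 ≤ Z1) (hZ2 : 0 ≤ Z2) (p1 : 0 ≤ k1) (h1 : k1 ≤ 1 / 1000) (p2 : 0 ≤ k2)
    (h2 : 8000 * N * k2 ≤ 1) (hn1 : 0 ≤ n1) (hn1' : n1 ≤ 1) (hn2 : 0 ≤ n2) (hn2' : n2 ≤ 1)
    (q1 : u1 ≤ ca + n1 * (k1 * Ya)) (q2 : u2 ≤ cc + n2 * (k1 * Yc))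
    (hcr : ca + cc = cb - (Ya + Yc - Y)) (g1 : Y ≤ Ya + Yc) (b1 : Y / 4 ≤ Ya) (b2 : Y / 4 ≤ Yc)
    (hφ : φ ≤ 8 * N) (hdr : 0 ≤ dr)
    (hf : φ1 * (Z1 + Ya) + φ2 * (Z2 + Yc) ≤ (φ - dr) * (Z1 + Ya + (Z2 + Yc)))
    (hw : S + cb + (n1 + n2) * (k1 * Y) + k2 * (Z1 + Z2 + Y) * φ + e ≤ V)
    (hp : κ * Y ≤ e + (n1 + n2) * (k1 * Y) / 4 + k2 * Y * dr) :
    S + u1 + u2 + k2 * (Z1 + Ya) * φ1 + k2 * (Z2 + Yc) * φ2 ≤ V - κ * Y := by
  have D := sub_nonneg.2 g1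
  have a0 := mul_le_mul_of_nonneg_left hf p2
  have a1 := mul_le_mul_of_nonneg_left hφ (mul_nonneg p2 D)
  have a2 : 0 ≤ k2 * dr * (Z1 + Z2 + (Ya + Yc - Y)) := mul_nonneg (mul_nonneg p2 hdr)
    (by linarith only [hZ1, hZ2, D])
  have a3 := mul_le_mul_of_nonneg_left b1 (mul_nonneg hn2 p1)
  have a4 := mul_le_mul_of_nonneg_left b2 (mul_nonneg hn1 p1)
  have a5 := mul_le_mul_of_nonneg_right hn1' (mul_nonneg p1 D)
  have a6 := mul_le_mul_of_nonneg_right hn2' (mul_nonneg p1 D)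
  have a7 := mul_le_mul_of_nonneg_right h1 D
  have a8 := mul_le_mul_of_nonneg_right h2 D
  linarith only [q1, q2, hcr, hw, hp, D, a0, a1, a2, a3, a4, a5, a6, a7, a8]

variable {ι : Type} [Fintype ι] [DecidableEq ι] [Nonempty ι] [Nontrivial ι]

namespace EC

variable {C : EC} {W : EV ι}

omit [Nonempty ι] [Nontrivial ι] in
theorem ep_seg {F0 : Set (E ι)} {l l' : List (It ι)} (hl : W.LOk F0 l) (h : l' <:+: l) :
    W.LOk F0 l' :=
  ⟨fun b hb => hl.1 b (h.subset hb), hl.2.sublist (h.sublist.map _)⟩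

/-- The band of a box is short against the size given by its mass. -/
theorem Good.ep_small (h : W.OK) (hC : C.Good W) {Q : Bx ι} (hQ : Q.Pos) {L0 : ℝ} (hL0 : 0 < L0)
    (hlo : C.C0 ι * W.nu Q ≤ L0 ^ Fintype.card ι) :
    40000 * (C.Bc * W.ta Q) ≤ L0 ∧ 100 * (W.cg (1 / 16) * W.ta Q) ≤ C.Bc * W.ta Q := by
  obtain ⟨c1, c2, c3, c4, -, c6⟩ := hC.consts h
  obtain ⟨-, -, a1, -⟩ := h.consts
  obtain ⟨-, -, t0, -⟩ := h.tt_bd hQ
  have n0 := mul_pos c4 (h.nu_bd hQ).1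
  have h1 := h.ta_le hQ (s := C.sC) (by linarith only [c3]) hL0.le (by
    change C.C0 ι * W.nu Q / 10 ≤ _
    linarith only [hlo, n0])
  have h2 := mul_le_mul_of_nonneg_right c6 t0.le
  have hN : (1 : ℝ) ≤ Fintype.card ι := by exact_mod_cast Fintype.card_pos
  have h3 := mul_le_mul_of_nonneg_right hC.hB t0.le
  have h4 := mul_le_mul_of_nonneg_right hN (mul_nonneg
    (by linarith only [c1] : 0 ≤ W.cg (1 / 16)) t0.le)
  refine ⟨le_of_mul_le_mul_left (a := W.A1) (by linarith only [h1, h2]) (by linarith only [a1]),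
    by linarith only [h3, h4]⟩

theorem Good.ep_mul (h : W.OK) (hC : C.Good W) {Q : Bx ι} (hQ : Q.Pos) {L0 : ℝ} (hL0 : 0 < L0)
    (hhi : L0 ^ Fintype.card ι ≤ 5 * (C.C0 ι * W.nu Q)) :
    20 * (C.Bc * W.ta Q * L0 ^ (Fintype.card ι - 1)) ≤ C.κ * (C.C0 ι * W.xx Q) := by
  obtain ⟨c1, c2, c3, c4, -, c6⟩ := hC.consts h
  obtain ⟨-, -, a1, -⟩ := h.consts
  obtain ⟨-, -, t0, -⟩ := h.tt_bd hQ
  have h1 : C.sC * (W.ta Q * L0 ^ (Fintype.card ι - 1)) ≤ 5 * W.A1 * (C.C0 ι * W.xx Q) :=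
    h.ta_mul hQ c3 hL0.le hhi
  have h2 := mul_le_mul_of_nonneg_right hC.hs
    (show 0 ≤ W.ta Q * L0 ^ (Fintype.card ι - 1) by positivity)
  have h3 := mul_le_mul_of_nonneg_left h1 hC.pκ.le
  exact le_of_mul_le_mul_left (a := W.A1) (by linarith only [h2, h3]) (by linarith only [a1])

/-- After the refinement of the box `Q`: either the gain pays, or the list is cut at the new neck. -/
theorem Good.post_ref (h : W.OK) (hC : C.Good W) {l1 l2 : List (It ι)} {b1 b2 : It ι} {k : ℤ}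
    {Q : Bx ι} (hQ : BX k Q) (hk : EV.Kids k Q b1 b2) (hl : W.LOk ∅ (l1 ++ b1 :: b2 :: l2))
    {R : GB ι} (hR : R.Valid (1 / 16)) {c : ℝ} (hc : 1 < c) {V L0 : ℝ} (hL0 : 0 < L0)
    (hsz : L0 - 20 * W.cg (1 / 16) * W.ta Q ≤ R.sz)
    (hnd : Nd (Fintype.card ι) V (C.Bc * (W.ts l1 + W.ts l2)) L0)
    (hτ : C.Bc * (W.ts l1 + W.ts l2) * L0 ^ (Fintype.card ι - 1) ≤ V / 2)
    (hlo : C.C0 ι * W.nu Q ≤ V) (hhi : L0 ^ Fintype.card ι ≤ 5 * (C.C0 ι * W.nu Q))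
    (hS : C.Sl W l1 + C.Sr W l2 ≤ 31 / 100 * V)
    (hcase : (C.d0 * W.nu Q ≤ |W.nu b1.Q - W.nu b2.Q| ∧
        C.Sl W l1 + C.Sr W l2 + C.cr W Q
          + C.k2 * C.C0 ι * (W.xs l1 + W.xs l2) * R.phi (1 / 16) ≤ V) ∨
      (|W.nu b1.Q - W.nu b2.Q| ≤ C.d0 * W.nu Q ∧ ∃ e : ℝ, 0 ≤ e ∧
        C.Sl W l1 + C.Sr W l2 + C.cr W Q + (neL l1 + neL l2) * (C.k1 * C.C0 ι * W.xx Q)
          + C.k2 * C.C0 ι * (W.xs l1 + W.xs l2 + W.xx Q) * R.phi (1 / 16) + e ≤ V ∧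
        C.κ * C.C0 ι * W.xx Q ≤ e + (neL l1 + neL l2) * (C.k1 * C.C0 ι * W.xx Q) / 4
          + C.k2 * C.C0 ι * W.xx Q * R.drop (1 / 16))) :
    C.RedL W (W.pbL (l1 ++ b1 :: b2 :: l2) R c) (l1 ++ b1 :: b2 :: l2) := by
  obtain ⟨j, ε, hε, hj, e1, e2, -, -⟩ := hk
  have pQ := hQ.lb.pos
  have pa := (hl.1 b1 (by simp)).1.bx.lb.pos
  have pb := (hl.1 b2 (by simp)).1.bx.lb.pos
  have ol1 : W.LOk ∅ l1 := ep_seg hl ⟨[], b1 :: b2 :: l2, by simp⟩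
  have ol2 : W.LOk ∅ l2 := ep_seg hl ⟨l1 ++ [b1, b2], [], by simp⟩
  obtain ⟨c1, c2, c3, c4, c5, c6⟩ := hC.consts h
  have hN : 1 ≤ Fintype.card ι := Fintype.card_pos
  have hsum := h.nu_half pQ j hε
  obtain ⟨g1, g2, g3, g4⟩ := h.xx_gain pQ j hε
  have t1 := (h.tt_half pQ j (-ε)).2.1
  have t2 := (h.tt_half pQ j ε).2.1
  rw [← e1, ← e2] at hsum g1 g2 g3 g4
  rw [← e1] at t1
  rw [← e2] at t2
  have nQ := (h.nu_bd pQ).1
  obtain ⟨-, -, τ0, X0, Xν⟩ := h.tt_bd pQ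
  obtain ⟨-, -, τa, Xa, -⟩ := h.tt_bd pa
  obtain ⟨-, -, τb, Xb, -⟩ := h.tt_bd pb
  obtain ⟨-, -, -, -, ba⟩ := hC.cr_bd h pa
  obtain ⟨-, -, -, -, bb⟩ := hC.cr_bd h pb
  obtain ⟨x1, r1, r1', -, r0, -⟩ := hC.cred_bd h ol1
  obtain ⟨x2, r2, -, r2', r0', -⟩ := hC.cred_bd h ol2
  have s1 := (h.ts_bd ol1).1
  have s2 := (h.ts_bd ol2).1
  obtain ⟨n1, n1'⟩ := neL_bd l1
  obtain ⟨n2, n2'⟩ := neL_bd l2
  obtain ⟨ph0, ph1⟩ := hR.phi_bd (by norm_num) le_rfl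
  have dr0 := (R.drop_bd (f := 1 / 16) (by norm_num)).1
  have P0 : 0 < L0 ^ (Fintype.card ι - 1) := pow_pos hL0 _
  have BS : 0 ≤ C.Bc * (W.ts l1 + W.ts l2) * L0 ^ (Fintype.card ι - 1) :=
    mul_nonneg (mul_nonneg (by linarith only [c2]) (add_nonneg s1 s2)) P0.le
  have hnd' : V + C.Bc * (W.ts l1 + W.ts l2) * L0 ^ (Fintype.card ι - 1) ≤
    L0 ^ Fintype.card ι := hnd
  obtain ⟨m1, m2⟩ := hC.ep_small h pQ hL0 (by linarith only [hlo, BS, hnd'])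
  have m3 := hC.ep_mul h pQ hL0 hhi
  have gτ : 0 < W.cg (1 / 16) * W.ta Q := mul_pos (by linarith only [c1]) τ0
  have hY : 0 < C.C0 ι * W.xx Q := mul_pos c4 X0
  have hYa : 0 < C.C0 ι * W.xx b1.Q := mul_pos c4 Xa
  have hYb : 0 < C.C0 ι * W.xx b2.Q := mul_pos c4 Xb
  have hYV : C.C0 ι * W.xx Q ≤ V := (mul_le_mul_of_nonneg_left Xν c4.le).trans hlo
  have hκY := mul_le_mul_of_nonneg_right c5 hY.le
  have hts : W.ts (l1 ++ b1 :: b2 :: l2) = W.ts l1 + W.ts l2 + W.ta b1.Q + W.ta b2.Q := by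
    rw [W.ts_append, W.ts_cons, W.ts_cons]; ring
  have hxs : W.xs (l1 ++ b1 :: b2 :: l2) = W.xs l1 + W.xs l2 + W.xx b1.Q + W.xx b2.Q := by
    rw [W.xs_append, W.xs_cons, W.xs_cons]; ring
  have hL' : 0 < L0 - 20 * W.cg (1 / 16) * W.ta Q := by linarith only [m1, m2, gτ]
  have Bτ : 0 < C.Bc * W.ts (l1 ++ b1 :: b2 :: l2) := mul_pos (by linarith only [c2])
    (by linarith only [τa, τb, s1, s2, hts])
  have hT : ∀ L : ℝ, 0 < L → L ≤ L0 →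
      C.Bc * W.ts (l1 ++ b1 :: b2 :: l2) * L ^ (Fintype.card ι - 1) ≤
        C.Bc * (W.ts l1 + W.ts l2) * L0 ^ (Fintype.card ι - 1) +
          C.κ * (C.C0 ι * W.xx Q) / 5 := by
    intro L h0 h1
    have i1 := mul_le_mul_of_nonneg_left (pow_le_pow_left₀ h0.le h1 (Fintype.card ι - 1)) Bτ.le
    have i2 := mul_le_mul_of_nonneg_left (add_le_add t1 t2)
      (mul_nonneg (by linarith only [c2] : 0 ≤ C.Bc) P0.le)
    rw [hts] at i1 ⊢
    linarith only [m3, i1, i2]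
  have key : Nd (Fintype.card ι) (V - C.κ * (C.C0 ι * W.xx Q))
      (C.Bc * W.ts (l1 ++ b1 :: b2 :: l2)) (L0 - 20 * W.cg (1 / 16) * W.ta Q) := by
    have i1 := pow_sub_ge hN (L := L0) (d := 20 * W.cg (1 / 16) * W.ta Q) (by linarith only [gτ])
      (by linarith only [hL'])
    have i2 := hT _ hL' (by linarith only [gτ])
    have i3 := mul_le_mul_of_nonneg_right hC.hB (mul_pos τ0 P0).le
    have i4 := mul_pos hC.pκ hY
    unfold Nd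
    linarith only [hnd', m3, i1, i2, i3, i4]
  have hcr : C.cr W b1.Q + C.cr W b2.Q = C.cr W Q -
      (C.C0 ι * W.xx b1.Q + C.C0 ι * W.xx b2.Q - C.C0 ι * W.xx Q) := by
    simp only [cr]
    rw [hsum]; ring
  have G1 := mul_le_mul_of_nonneg_left g1 c4.le
  have G2 := mul_le_mul_of_nonneg_left g2 c4.le
  have hsp : l1 ++ b1 :: b2 :: l2 = (l1 ++ [b1]) ++ (b2 :: l2) := by simp
  rcases hcase with ⟨hd, hw⟩ | ⟨hd, e, he, hw, hp⟩
  · refine VL.redL ⟨by simp, hl, hR, hc, key.mono hN ?_ ?_ Bτ.le le_rfl hL' hsz⟩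
    · exact (hC.cred_bd h hl).2.2.2.2.1.trans (hC.Vl_bd h hl ph0 ph1).1
    · have i1 : C.d0 ≤ |(W.nu b1.Q - W.nu b2.Q) / W.nu Q| := by
        rw [abs_div, abs_of_pos nQ, le_div_iff₀ nQ]; exact hd
      have i2 : C.d0 ^ 2 ≤ ((W.nu b1.Q - W.nu b2.Q) / W.nu Q) ^ 2 := by
        rw [← sq_abs (_ / _)]; exact pow_le_pow_left₀ hC.pd.le i1 2
      have i3 := mul_le_mul_of_nonneg_left i2 (thN_bd (ι := ι)).1.le
      have := ep_imb (g := alN ι / 2 * ((W.nu b1.Q - W.nu b2.Q) / W.nu Q) ^ 2) (κ := C.κ)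
        (Z := C.C0 ι * (W.xs l1 + W.xs l2)) (S := C.Sl W l1 + C.Sr W l2) (V := V)
        hY.le hYa.le hYb.le hC.p1.le hC.p2.le n1' n2'
        (ba (1 + neL l1) (by linarith only [n1]) (by linarith only [n1']))
        (bb (1 + neL l2) (by linarith only [n2]) (by linarith only [n2'])) hcr
        (by linarith only [G1]) (by linarith only [G2])
        (by linarith only [i3, hC.imb]) ph0 ph1 (by linarith only [hw])
      rw [Vl, hxs, hsp, C.Cr_append W (by simp) (by simp), Sl_snoc, Sr_cons]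
      linarith only [this]
  · obtain ⟨L, h0, h1, h2⟩ := key.root hN (by linarith only [hY, hYV, hκY]) Bτ hL'
    have hX1 : W.xs (l1 ++ [b1]) = W.xs l1 + W.xx b1.Q := by
      rw [W.xs_append, W.xs_cons, W.xs_nil]; ring
    have hX2 : W.xs (b2 :: l2) = W.xs l2 + W.xx b2.Q := by rw [W.xs_cons]; ring
    have hC1 : C.Cr W (l1 ++ [b1]) = C.Sl W l1 + (C.base W b1.Q + neL l1 * C.bonus W b1.Q) := by
      rw [Cr_split, Sr_nil, neL_nil]; ring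
    have hC2 : C.Cr W (b2 :: l2) = C.Sr W l2 + (C.base W b2.Q + neL l2 * C.bonus W b2.Q) := by
      have := C.Cr_split W [] l2 b2
      rw [List.nil_append, Sl_nil, neL_nil] at this
      rw [this]; ring
    have q1 := ba _ n1 (by linarith only [n1'])
    have q2 := bb _ n2 (by linarith only [n2'])
    have hd2 : |W.nu b1.Q - W.nu b2.Q| ≤ W.nu Q / 100 := by
      have := mul_le_mul_of_nonneg_right hC.hd' nQ.le
      linarith only [hd, this]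
    obtain ⟨bl1, bl2⟩ := g3 hd2
    have B1 := mul_le_mul_of_nonneg_left bl1 c4.le
    have B2 := mul_le_mul_of_nonneg_left bl2 c4.le
    obtain ⟨cd1, cd2⟩ := abs_le.1 (g4.trans (mul_le_mul_of_nonneg_left hd2 zero_le_two))
    have CD1 := mul_le_mul_of_nonneg_left cd1 c4.le
    have CD2 := mul_le_mul_of_nonneg_left cd2 c4.le
    have ea : C.cr W b1.Q = C.C0 ι * (2 * W.nu b1.Q - W.xx b1.Q) := rfl
    have eb : C.cr W b2.Q = C.C0 ι * (2 * W.nu b2.Q - W.xx b2.Q) := rfl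
    have G1' : C.C0 ι * W.xx Q ≤ C.C0 ι * W.xx b1.Q + C.C0 ι * W.xx b2.Q := by
      have : 0 ≤ C.C0 ι * W.xx Q * (alN ι / 2 * ((W.nu b1.Q - W.nu b2.Q) / W.nu Q) ^ 2) :=
        mul_nonneg hY.le (mul_nonneg (by linarith only [(thN_bd (ι := ι)).1]) (sq_nonneg _))
      linarith only [G1, this]
    have z1 := mul_nonneg c4.le x1
    have z2 := mul_nonneg c4.le x2
    have he' : 0 ≤ (neL l1 + neL l2) * (C.k1 * C.C0 ι * W.xx Q)
        + C.k2 * C.C0 ι * (W.xs l1 + W.xs l2 + W.xx Q) * R.phi (1 / 16) + e :=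
      add_nonneg (add_nonneg
        (mul_nonneg (add_nonneg n1 n2) (mul_nonneg (mul_nonneg hC.p1.le c4.le) X0.le))
        (mul_nonneg (mul_nonneg (mul_nonneg hC.p2.le c4.le)
          (add_nonneg (add_nonneg x1 x2) X0.le)) ph0)) he
    have hT' := hT L h0 (by linarith only [gτ, h1])
    rw [hsp] at hl h2 hT' ⊢
    obtain ⟨R1, R2, c', v1, v2, hred⟩ := hC.cut_lists h (by simp) (by simp) hl hR hc h0
      (h1.trans hsz) h2 (by
        intro φ1 φ2 f1 f1' f2 f2' hφ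
        rw [hX1, hX2] at hφ
        have hφ' := mul_le_mul_of_nonneg_left hφ c4.le
        have N1 := ep_bal (κ := C.κ) (S := C.Sl W l1 + C.Sr W l2) (V := V) (e := e) (φ1 := φ1)
          (φ2 := φ2) z1 z2 hC.p1.le hC.h1 hC.p2.le hC.h2 n1 n1' n2 n2' q1 q2 hcr G1'
          (by linarith only [B1]) (by linarith only [B2]) ph1 dr0 (by linarith only [hφ'])
          (by linarith only [hw]) (by linarith only [hp])
        have N2 := ep_side (S1 := C.Sl W l1) (S2 := C.Sr W l2) (cb := C.cr W Q) hY.le hYa.le z1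
          hC.p1.le hC.h1 hC.p2.le hC.h2 c5 n1' q1 (by linarith only [hlo, hcr, CD2, ea, eb, G1'])
          (by linarith only [hYb, G2]) f1' (by linarith only [r1, r1'])
          (by linarith only [r2', r0']) hYV hS he' (by linarith only [hw])
        have N3 := ep_side (S1 := C.Sr W l2) (S2 := C.Sl W l1) (cb := C.cr W Q) hY.le hYb.le z2
          hC.p1.le hC.h1 hC.p2.le hC.h2 c5 n2' q2 (by linarith only [hlo, hcr, CD1, ea, eb, G1'])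
          (by linarith only [hYa, G2]) f2' (by linarith only [r2, r2'])
          (by linarith only [r1', r0]) hYV (by linarith only [hS]) he' (by linarith only [hw])
        rw [Vl, Vl, hC1, hC2, hX1, hX2]
        exact ⟨by linarith only [N1], .inl ⟨by linarith only [N2], by linarith only [N3],
          by linarith only [hτ, hY, hYV, hκY, hT']⟩⟩)
    refine ⟨{(l1 ++ [b1], R1, c'), (b2 :: l2, R2, c')}, ?_, by rwa [image_pair]⟩
    rintro σ (rfl | rfl)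
    · exact ⟨v1, [], b2 :: l2, by simp⟩
    · exact ⟨v2, l1 ++ [b1], [], by simp⟩

/-- From a standard problem with enough room to valid list states. -/
theorem Good.exit_step (h : W.OK) (hC : C.Good W) (a : ℕ) {k : ℤ} {Q : Bx ι} (hQ : BX k Q)
    (hd : Q.den W.ν < 1) {j : ι} (hj : Q.Long j) {t : ℝ} (ht : W.tt Q ≤ t) {R : GB ι}
    (hR : R.Valid (1 / 16)) {c : ℝ} (hc : 1 < c) {L0 : ℝ} (hL0 : 0 < L0) (hhi : L0 ^ Fintype.card ι ≤ 5 * (C.C0 ι * W.nu Q))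
    (hsz : L0 - 20 * W.cg (1 / 16) * W.ta Q + W.cg (1 / 16) * (t * Q.sc) ≤ R.sz)
    (hcase : (C.d0 * W.nu Q ≤ |W.nu (Q.L j) - W.nu (Q.R j)| ∧ C.cr W Q ≤ L0 ^ Fintype.card ι) ∨
      C.cr W Q + (16 * Fintype.card ι * C.k2 + C.κ) * (C.C0 ι * W.xx Q) ≤ L0 ^ Fintype.card ι) :
    ∃ b1 b2, EV.Kids k Q b1 b2 ∧ C.RedL W (W.pbT a k Q t R c) [b1, b2] := by
  have pQ := hQ.lb.pos
  obtain ⟨c1, c2, c3, c4, c5, c6⟩ := hC.consts h
  obtain ⟨-, -, τ0, X0, -⟩ := h.tt_bd pQ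
  have hY : 0 < C.C0 ι * W.xx Q := mul_pos c4 X0
  have p2 := hC.p2
  have pκ := hC.pκ
  have hcr : C.cr W Q ≤ L0 ^ Fintype.card ι := by
    rcases hcase with ⟨-, h1⟩ | h1
    · exact h1
    · have : 0 ≤ (16 * Fintype.card ι * C.k2 + C.κ) * (C.C0 ι * W.xx Q) := by positivity
      linarith only [h1, this]
  have hlo := (hC.cr_bd h pQ).1.trans hcr
  obtain ⟨m1, m2⟩ := hC.ep_small h pQ hL0 hlo
  have gτ : 0 < W.cg (1 / 16) * W.ta Q := mul_pos (by linarith only [c1]) τ0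
  obtain ⟨b1, b2, R', hk, e1, e2, hl, hs, hred⟩ := h.std_red (F0 := ∅) (f := 1 / 16)
    (by norm_num) le_rfl a hQ hd (fo_empty _) (fo_empty _) hj ht hR
    (L := L0 - 20 * W.cg (1 / 16) * W.ta Q) (by linarith only [m1, m2, gτ])
    hsz (c := c) (c' := (1 + c) / 2)
    (by linarith only [hc]) (by linarith only [hc])
  refine ⟨b1, b2, hk, RedL.trans1 hred ?_⟩
  obtain ⟨ph0, ph1⟩ := hs.valid.phi_bd (by norm_num) le_rfl
  have dr0 := (R'.drop_bd (f := 1 / 16) (by norm_num)).1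
  have V0 : 0 < L0 ^ Fintype.card ι := pow_pos hL0 _
  refine hC.post_ref h (l1 := []) (l2 := []) hQ hk hl hs.valid (by linarith only [hc])
    (V := L0 ^ Fintype.card ι) hL0 hs.sz.ge ?_ ?_ hlo hhi ?_ ?_
  · simp [Nd, EV.ts_nil]
  · simp only [EV.ts_nil, add_zero, mul_zero, zero_mul]
    linarith only [V0]
  · rw [Sl_nil, Sr_nil]
    linarith only [V0]
  · rw [Sl_nil, Sr_nil, neL_nil, EV.xs_nil, e1, e2]
    by_cases hb : C.d0 * W.nu Q ≤ |W.nu (Q.L j) - W.nu (Q.R j)|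
    · exact .inl ⟨hb, by linarith only [hcr]⟩
    · have h1 := hcase.resolve_left fun h1 => hb h1.1
      have i1 := mul_le_mul_of_nonneg_left ph1 (mul_pos p2 hY).le
      have i2 := mul_nonneg (mul_pos p2 hY).le dr0
      have i3 : 0 ≤ Fintype.card ι * (C.k2 * (C.C0 ι * W.xx Q)) := by positivity
      exact .inr ⟨(not_le.1 hb).le, (8 * Fintype.card ι * C.k2 + C.κ) * (C.C0 ι * W.xx Q),
        by positivity, by linarith only [h1, i1], by linarith only [i2, i3]⟩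

end EC

end Pool.Agent.Lib.MP_ecd4e3_gt.NB
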