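import Pool.Agent.Lib.MP_ecd4e3_gt.NB.EPost
import Pool.Agent.Lib.MP_ecd4e3_gt.NB.FStep

/-! The state machine of the efficient construction. -/

namespace Pool.Agent.Lib.MP_ecd4e3_gt.NB

open Set Filter Topology Metric MeasureTheory
open scoped NNReal ENNReal

theorem es_root {n : ℕ} (hn : 2 ≤ n) {x : ℝ} (hx : 0 < x) : ∃ L : ℝ, 0 < L ∧ L ^ n = x :=
  ⟨x ^ ((n : ℝ)⁻¹), Real.rpow_pos_of_pos hx _, Real.rpow_inv_natCast_pow hx.le (by omega)⟩

theorem es_le {n : ℕ} (hn : 2 ≤ n) {a b : ℝ} (hb : 0 ≤ b) (h : a ^ n ≤ b ^ n) : a ≤ b :=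
  le_of_pow_le_pow_left₀ (by omega) hb h

theorem es_rp {x y m p : ℝ} (hx : 0 ≤ x) (hy : 0 ≤ y) (hm : 1 ≤ m) (h : x ≤ m * y) (p0 : 0 ≤ p)
    (p1 : p ≤ 1) : x ^ p ≤ m * y ^ p := by
  have h1 : m ^ p ≤ m := by
    simpa using Real.rpow_le_rpow_of_exponent_le hm p1
  calc x ^ p ≤ (m * y) ^ p := Real.rpow_le_rpow hx h p0
    _ = m ^ p * y ^ p := Real.mul_rpow (by linarith only [hm]) hy
    _ ≤ m * y ^ p := mul_le_mul_of_nonneg_right h1 (Real.rpow_nonneg hy _)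

/-- A power of a multiple. -/
theorem es_mul_pow {n : ℕ} (hn : 2 ≤ n) {m a : ℝ} (hm : 1 ≤ m) (ha : 0 ≤ a) :
    m * a ^ n ≤ (m * a) ^ n := by
  rw [mul_pow]
  exact mul_le_mul_of_nonneg_right (le_self_pow₀ hm (by omega)) (pow_nonneg ha _)

/-- Three quarters of the volume leave a definite margin. -/
theorem es_margin {n : ℕ} (hn : 2 ≤ n) {L s : ℝ} (hs : 0 < s) (h : L ^ n ≤ 3 / 4 * s ^ n) :
    L + s / (4 * n) ≤ s := by
  have n2 : (2 : ℝ) ≤ n := by exact_mod_cast hn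
  have d0 : 0 ≤ s / (4 * n) := by positivity
  have d1 : s / (4 * n) ≤ s := div_le_self hs.le (by linarith only [n2])
  have h1 := pow_sub_ge (n := n) (by omega) d0 d1
  have e : (n : ℝ) * (s / (4 * n)) * s ^ (n - 1) = s ^ n / 4 := by
    rw [← pow_sub_one_mul (show n ≠ 0 by omega) s]
    field_simp
  have := es_le hn (sub_nonneg.2 d1) (a := L) (by linarith only [h, h1, e])
  linarith only [this]

/-- The gap between two sizes. -/
theorem es_gap {n : ℕ} (hn : 2 ≤ n) {L L1 τ : ℝ} (h1 : 0 < L1) (hL : 0 < L) (hτ : 0 ≤ τ)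
    (he : L1 ^ n + τ * L ^ (n - 1) = L ^ n) : τ ≤ n * (L - L1) := by
  have p : 0 < L ^ (n - 1) := pow_pos hL _
  have h2 : L1 ≤ L := es_le hn hL.le (by nlinarith only [he, hτ, p])
  have h3 := pow_sub_ge (n := n) (L := L) (d := L - L1) (by omega) (by linarith only [h2]) (by linarith only [h1])
  rw [sub_sub_cancel] at h3
  exact le_of_mul_le_mul_right (by linarith only [he, h3]) p

variable {ι : Type} [Fintype ι] [DecidableEq ι] [Nonempty ι] [Nontrivial ι]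

theorem es_card (ι : Type) [Fintype ι] [Nontrivial ι] : 2 ≤ Fintype.card ι :=
  Fintype.one_lt_card

theorem es_th (ι : Type) [Fintype ι] [DecidableEq ι] [Nonempty ι] [Nontrivial ι] :
    0 < alN ι ∧ alN ι ≤ 1 ∧ 0 < thN ι ∧ thN ι ≤ 1 := by
  obtain ⟨a, b, c, d⟩ := thN_bd (ι := ι)
  exact ⟨a, by linarith only [a, b], c, d inferInstance⟩

omit [Nonempty ι] [Nontrivial ι] in
theorem es_H (Q : Bx ι) (j : ι) : Q.H j (-1) = Q.L j ∧ Q.H j 1 = Q.R j := by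
  simp [Bx.H]

omit [Nontrivial ι] in
theorem es_seg {W : EV ι} {l l' : List (It ι)} (hl : W.LOk ∅ l) (h : l' <:+: l) : W.LOk ∅ l' :=
  ⟨fun b hb => hl.1 b (h.subset hb), hl.2.sublist (h.sublist.map _)⟩

namespace EC

variable {C : EC} {W : EV ι}

theorem Good.es_cg (h : W.OK) (hC : C.Good W) :
    0 < W.cg (1 / 16) ∧ 200 * W.cg (1 / 16) ≤ C.Bc ∧ 0 < W.A1 ∧ 0 < C.sC ∧ 0 < C.C0 ι ∧
      100 * Fintype.card ι * W.cg (1 / 16) * W.A1 ≤ C.sC ∧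
      200 * (W.cg (1 / 16) * W.A1) ≤ C.sC := by
  obtain ⟨c1, c2, c3, c4, c5, c6⟩ := hC.consts h
  have a1 := h.consts.2.2.1
  have n2 : (2 : ℝ) ≤ Fintype.card ι := by exact_mod_cast es_card ι
  have hB := hC.hB
  have q1 : 200 * W.cg (1 / 16) ≤ C.Bc := by nlinarith only [n2, hB, c1]
  have q2 := mul_le_mul_of_nonneg_right hB (show 0 ≤ W.A1 by linarith only [a1])
  have q3 := mul_le_mul_of_nonneg_right q1 (show 0 ≤ W.A1 by linarith only [a1])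
  have q4 : 0 ≤ C.Bc * W.A1 := by positivity
  exact ⟨by linarith only [c1], q1, by linarith only [a1], by linarith only [c3], c4, by linarith only [c3, c6, q2], by linarith only [c3, c6, q3]⟩

/-- What a state of the martingale mode gives. -/
theorem Good.es_vf (h : W.OK) (hC : C.Good W) {k : ℤ} {Q : Bx ι} {F : FD ι} {R : GB ι} {c : ℝ}
    (hv : C.VF W k Q F R c) : 0 < F.a0 Q ∧ F.a0 Q ≤ 2 * R.vol ∧ 0 < C.Jd Q F ∧
      F.a0 Q = C.Jd Q F * (C.C0 ι * Q.vol) ∧ C.C0 ι * W.nu Q ≤ 2 * F.a0 Q ∧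
      Q.den W.ν ≤ 2 * C.Jd Q F ∧ 0 ≤ NB.pot C.fc Q F ∧ 0 < C.et Q F ∧ C.cr W Q ≤ R.vol := by
  obtain ⟨hQ, hF, hR, -, -, hv⟩ := hv
  have hP : Q.Pos := hQ.two.1
  have a0 := FS.a0_pos hF.ph hP
  have v := hC.fc.vol Q F hF
  rw [← hR.vol] at v
  have c0 := (hC.es_cg h).2.2.2.2.1
  have cv := mul_pos c0 hP.vol_pos
  have J0 : 0 < C.Jd Q F := div_pos a0 cv
  have e : F.a0 Q = C.Jd Q F * (C.C0 ι * Q.vol) := (div_mul_cancel₀ _ cv.ne').symm
  have p0 := hC.fc.nonneg Q F hF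
  have e0 : 0 < C.et Q F := mul_pos hC.pe (Real.rpow_pos_of_pos J0 _)
  have r0 : 0 ≤ C.et Q F * F.a0 Q * NB.pot C.fc Q F := by positivity
  have c1 := (hC.cr_bd h hP).1
  have n1 : C.C0 ι * W.nu Q ≤ 2 * F.a0 Q := by linarith only [v.2, hv, v, r0, c1]
  refine ⟨a0, by linarith only [v.1, v], J0, e, n1, ?_, p0, e0, by linarith only [hv, r0]⟩
  rw [(h.nu_bd hP).2.1] at n1
  exact le_of_mul_le_mul_right (by linarith only [e, n1]) cv

theorem Good.tt_le_tF (h : W.OK) (hC : C.Good W) {k : ℤ} {Q : Bx ι} {F : FD ι} {R : GB ι} {c : ℝ}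
    (hv : C.VF W k Q F R c) : W.tt Q ≤ C.tF W Q F ∧ C.tF W Q F ≤ 4 * W.A1 := by
  obtain ⟨-, -, J0, -, -, d, -⟩ := hC.es_vf h hv
  obtain ⟨-, -, t0, t1⟩ := es_th ι
  have A := (hC.es_cg h).2.2.1
  have h1 := es_rp (h.nu_bd hv.1.two.1).2.2.1.le J0.le (by norm_num) d t0.le t1
  have h2 := es_rp (m := 2) J0.le zero_le_one (by norm_num) (by linarith only [hv.2.2.2.2.1]) t0.le t1
  rw [Real.one_rpow] at h2
  unfold EV.tt tF
  constructor <;> nlinarith only [A, h1, h2]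

/-- The terminal case of the martingale mode. -/
theorem Good.es_termF (h : W.OK) (hC : C.Good W) (a : ℕ) {k : ℤ} {Q : Bx ι} {F : FD ι} {R : GB ι}
    {c : ℝ} (hv : C.VF W k Q F R c) (hd : 1 ≤ Q.den W.ν) :
    Red W.U0 ∅ (W.pbT a k Q (C.tF W Q F) R c) ∅ := by
  obtain ⟨t0, t1⟩ := hC.tt_le_tF h hv
  have cr := (hC.es_vf h hv).2.2.2.2.2.2.2.2
  obtain ⟨g0, -, A, s0, c0, -, g1⟩ := hC.es_cg h
  have hP : Q.Pos := hv.1.two.1
  obtain ⟨z0, z1, -⟩ := hv.2.2.1.valid.sz_pos (by norm_num) le_rfl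
  obtain ⟨q0, q1⟩ := hP.sc_pow
  have c1 := (hC.cr_bd h hP).1
  rw [(h.nu_bd hP).2.1] at c1
  have cv := mul_pos c0 hP.vol_pos
  have e : (C.sC * Q.sc) ^ Fintype.card ι = C.C0 ι * Q.vol := by rw [mul_pow, q1]; rfl
  have h1 : C.sC * Q.sc ≤ R.sz := es_le (es_card ι) z0.le (by rw [e, z1]; nlinarith only [cr, c1, hd, cv])
  refine h.term_red (by norm_num) le_rfl a hv.1 t0 hv.2.2.1.valid ?_ hv.2.2.2.1
  have h2 : W.cg (1 / 16) * max (C.tF W Q F) (W.B ^ W.T) ≤ C.sC := by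
    have := hC.hs'
    have gA := mul_pos g0 A
    have gB := mul_pos g0 (lt_of_lt_of_le one_pos h.consts.2.2.2.2)
    rcases max_cases (C.tF W Q F) (W.B ^ W.T) with e | e <;> rw [e.1] <;> nlinarith only [g1, gA, t1, g0, this]
  nlinarith only [h1, q0, h2]

/-- The credit with its reserve. -/
theorem Good.es_res (h : W.OK) (hC : C.Good W) {Q : Bx ι} (hP : Q.Pos) :
    0 < C.cr W Q ∧ 0 ≤ (16 * Fintype.card ι * C.k2 + C.κ) * (C.C0 ι * W.xx Q) ∧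
      C.cr W Q + (16 * Fintype.card ι * C.k2 + C.κ) * (C.C0 ι * W.xx Q) ≤
        3 * (C.C0 ι * W.nu Q) := by
  obtain ⟨c1, c2, -⟩ := hC.cr_bd h hP
  obtain ⟨-, -, -, c0, k, -⟩ := hC.consts h
  obtain ⟨-, -, -, x0, x1⟩ := h.tt_bd hP
  have n0 := mul_pos c0 (h.nu_bd hP).1
  have p2 := hC.p2
  have pk := hC.pκ
  have h2 := hC.h2
  have x2 := mul_le_mul_of_nonneg_left x1 c0.le
  have x3 := mul_pos c0 x0
  refine ⟨by linarith only [c1, n0], by positivity, ?_⟩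
  have : (16 * Fintype.card ι * C.k2 + C.κ) * (C.C0 ι * W.xx Q) ≤ 1 * (C.C0 ι * W.xx Q) :=
    mul_le_mul_of_nonneg_right (by linarith only [k, pk, h2]) x3.le
  linarith only [c2, x2, this]

/-- Plenty of room: leave the martingale mode. -/
theorem Good.es_room (h : W.OK) (hC : C.Good W) (a : ℕ) {k : ℤ} {Q : Bx ι} {F : FD ι} {R : GB ι}
    {c : ℝ} (hv : C.VF W k Q F R c) (hd : Q.den W.ν < 1) (hr : 8 * (C.C0 ι * W.nu Q) ≤ F.a0 Q) :
    ∃ b1 b2, EV.Kids k Q b1 b2 ∧ C.RedL W (W.pbT a k Q (C.tF W Q F) R c) [b1, b2] := by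
  obtain ⟨a0, a1, J0, e, -⟩ := hC.es_vf h hv
  obtain ⟨g0, -, A, s0, c0, g2, -⟩ := hC.es_cg h
  have hP : Q.Pos := hv.1.two.1
  obtain ⟨z0, z1, -⟩ := hv.2.2.1.valid.sz_pos (by norm_num) le_rfl
  obtain ⟨q0, q1⟩ := hP.sc_pow
  obtain ⟨r0, r1, r2⟩ := hC.es_res h hP
  obtain ⟨L, L0, L1⟩ := es_root (es_card ι) (add_pos_of_pos_of_nonneg r0 r1)
  have n0 := mul_pos c0 (h.nu_bd hP).1
  have n2 : (2 : ℝ) ≤ Fintype.card ι := by exact_mod_cast es_card ι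
  refine hC.exit_step h a hv.1 hd Q.long_sj (hC.tt_le_tF h hv).1 hv.2.2.1.valid hv.2.2.2.1 L0
    (by linarith only [r2, L1, n0]) ?_ (.inr L1.ge)
  have m := es_margin (es_card ι) z0 (L := L) (by rw [L1, z1]; linarith only [hr, a1, r2])
  obtain ⟨b0, b1, -⟩ := es_th ι
  obtain ⟨M, M0, M1⟩ := es_root (es_card ι) J0
  have j1 : C.Jd Q F ^ thN ι ≤ 2 * M := by
    have e1 : thN ι = alN ι + 1 / Fintype.card ι := by unfold alN; ring
    have e2 : C.Jd Q F ^ (1 / Fintype.card ι : ℝ) = M := by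
      rw [← M1, one_div, Real.pow_rpow_inv_natCast M0.le (by have := es_card ι; omega)]
    have e3 := es_rp (m := 2) J0.le zero_le_one (by norm_num) (by linarith only [hv.2.2.2.2.1]) b0.le b1
    rw [Real.one_rpow] at e3
    rw [e1, Real.rpow_add J0, e2]
    nlinarith only [M0, e3]
  have j2 : M * (C.sC * Q.sc) ≤ 2 * R.sz := by
    refine es_le (es_card ι) (by linarith only [z0]) (le_trans ?_ (es_mul_pow (es_card ι) one_le_two z0.le))
    rw [mul_pow, mul_pow, M1, q1, z1]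
    exact e.ge.trans a1
  have j3 : C.tF W Q F * Q.sc * C.sC ≤ 8 * (W.A1 * R.sz) := by
    have u1 := mul_le_mul_of_nonneg_right j1 (mul_pos s0 q0).le
    have u2 := mul_le_mul_of_nonneg_left (u1.trans (show _ ≤ 4 * R.sz by linarith only [j2])) A.le
    unfold tF
    linarith only [u2]
  have j4 : W.cg (1 / 16) * (C.tF W Q F * Q.sc) ≤ R.sz / (4 * Fintype.card ι) := by
    rw [le_div_iff₀ (by positivity)]
    refine le_of_mul_le_mul_right ?_ s0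
    have u1 := mul_le_mul_of_nonneg_left j3
      (show 0 ≤ W.cg (1 / 16) * (4 * Fintype.card ι) by positivity)
    have u2 := mul_le_mul_of_nonneg_left g2 z0.le
    have u3 : 0 ≤ Fintype.card ι * W.cg (1 / 16) * W.A1 * R.sz := by positivity
    linarith only [u1, u2, u3]
  have := mul_pos g0 (h.tt_bd hP).2.2.1
  linarith only [m, j4, this]

/-- Without plenty of room the time is comparable with the time of the box. -/
theorem Good.es_exit (h : W.OK) (hC : C.Good W) (a : ℕ) {k : ℤ} {Q : Bx ι} {F : FD ι} {R : GB ι}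
    {c : ℝ} (hv : C.VF W k Q F R c) (hd : Q.den W.ν < 1) (hr : C.Jd Q F ≤ 8 * Q.den W.ν) {M : ℝ}
    (M0 : 0 < M) (M1 : M ≤ R.vol) (M2 : M ≤ 5 * (C.C0 ι * W.nu Q))
    (hcase : (C.d0 * W.nu Q ≤ |W.nu (Q.L Q.sj) - W.nu (Q.R Q.sj)| ∧ C.cr W Q ≤ M) ∨
      C.cr W Q + (16 * Fintype.card ι * C.k2 + C.κ) * (C.C0 ι * W.xx Q) ≤ M) :
    ∃ b1 b2, EV.Kids k Q b1 b2 ∧ C.RedL W (W.pbT a k Q (C.tF W Q F) R c) [b1, b2] := by
  obtain ⟨-, -, J0, -⟩ := hC.es_vf h hv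
  obtain ⟨g0, -, A, -⟩ := hC.es_cg h
  have hP : Q.Pos := hv.1.two.1
  obtain ⟨z0, z1, -⟩ := hv.2.2.1.valid.sz_pos (by norm_num) le_rfl
  obtain ⟨L, L0, rfl⟩ := es_root (es_card ι) M0
  refine hC.exit_step h a hv.1 hd Q.long_sj (hC.tt_le_tF h hv).1 hv.2.2.1.valid hv.2.2.2.1 L0
    M2 ?_ hcase
  have l1 : L ≤ R.sz := es_le (es_card ι) z0.le (by rwa [z1])
  obtain ⟨-, -, t0, t1⟩ := es_th ι
  have j1 := es_rp J0.le (h.nu_bd hP).2.2.1.le (by norm_num) hr t0.le t1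
  have j2 : C.tF W Q F * Q.sc ≤ 16 * W.ta Q := by
    have := mul_le_mul_of_nonneg_left j1 (mul_pos A hP.sc_pow.1).le
    unfold tF EV.ta EV.tt
    linarith only [this]
  have j3 := mul_le_mul_of_nonneg_left j2 g0.le
  have := mul_pos g0 (h.tt_bd hP).2.2.1
  linarith only [l1, j3, this]

/-- The reserve of a large potential. -/
theorem Good.es_pot (h : W.OK) (hC : C.Good W) {k : ℤ} {Q : Bx ι} {F : FD ι} {R : GB ι}
    {c : ℝ} (hv : C.VF W k Q F R c) (hp : C.fc.P1 / 4 ≤ NB.pot C.fc Q F) :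
    C.cr W Q + (16 * Fintype.card ι * C.k2 + C.κ) * (C.C0 ι * W.xx Q) ≤ R.vol := by
  obtain ⟨a0, -, J0, -, n1, d1, -, e0, -⟩ := hC.es_vf h hv
  have c0 := (hC.es_cg h).2.2.2.2.1
  have hP : Q.Pos := hv.1.two.1
  obtain ⟨b0, b1, -⟩ := es_th ι
  obtain ⟨n0, -, d0, -⟩ := h.nu_bd hP
  have j1 := es_rp d0.le J0.le (by norm_num) d1 b0.le b1
  have j2 : C.C0 ι * W.xx Q ≤ 2 * F.a0 Q * (2 * C.Jd Q F ^ alN ι) := by
    unfold EV.xx
    rw [← mul_assoc]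
    exact mul_le_mul n1 j1 (Real.rpow_nonneg d0.le _) (by linarith only [a0])
  have j3 := mul_le_mul hC.pot j2 (mul_pos c0 (h.tt_bd hP).2.2.2.1).le
    (by have := hC.pe; have := hC.fc.pP; positivity)
  have j4 := mul_le_mul_of_nonneg_left hp (mul_pos e0 a0).le
  have := hv.2.2.2.2.2
  unfold et at *
  linarith only [j3, j4, this]

/-- The hypotheses of the martingale step. -/
theorem Good.es_bal (h : W.OK) (hC : C.Good W) {k : ℤ} {Q : Bx ι} {F : FD ι} {R : GB ι}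
    {c : ℝ} (hv : C.VF W k Q F R c) (hr : C.Jd Q F ≤ 8 * Q.den W.ν)
    (hb : |W.nu (Q.L Q.sj) - W.nu (Q.R Q.sj)| ≤ C.d0 * W.nu Q) :
    C.et Q F ≤ C.fc.η0 ∧ |C.cr W (Q.L Q.sj) - C.cr W (Q.R Q.sj)| ≤ C.fc.d1 * F.a0 Q ∧
      C.cr W (Q.L Q.sj) + C.cr W (Q.R Q.sj)
        + C.et Q F * C.fc.Cq * (C.cr W (Q.L Q.sj) - C.cr W (Q.R Q.sj)) ^ 2 / F.a0 Q ≤
        C.cr W Q := by
  obtain ⟨a0, -, J0, -, n1, -, -, e0, -⟩ := hC.es_vf h hv
  have c0 := (hC.es_cg h).2.2.2.2.1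
  have hP : Q.Pos := hv.1.two.1
  obtain ⟨b0, b1, -⟩ := es_th ι
  obtain ⟨n0, -, d0, -⟩ := h.nu_bd hP
  obtain ⟨x1, -, -, x2⟩ := h.xx_gain hP Q.sj (.inl rfl)
  have nh := h.nu_half hP Q.sj (.inl rfl)
  rw [(es_H Q Q.sj).1, (es_H Q Q.sj).2] at x1 x2 nh
  have pe := hC.pe
  have pd := hC.pd
  have pC : 0 < C.fc.Cq := lt_of_lt_of_le one_pos hC.fc.pC
  set δ := W.nu (Q.L Q.sj) - W.nu (Q.R Q.sj) with hδ
  have y1 : |C.cr W (Q.L Q.sj) - C.cr W (Q.R Q.sj)| ≤ 2 * C.C0 ι * |δ| := by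
    unfold cr
    rw [← mul_sub, abs_mul, abs_of_pos c0]
    have := mul_le_mul_of_nonneg_left x2 c0.le
    linarith only [this]
  refine ⟨?_, ?_, ?_⟩
  · have e3 := es_rp (m := 2) J0.le zero_le_one (by norm_num) (by linarith only [hv.2.2.2.2.1]) b0.le b1
    rw [Real.one_rpow] at e3
    have := hC.he
    unfold et
    nlinarith only [this, pe, e3]
  · have u1 := mul_le_mul_of_nonneg_left hb c0.le
    have u2 := mul_le_mul_of_nonneg_left n1 pd.le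
    have u3 := mul_le_mul_of_nonneg_right hC.hd a0.le
    linarith only [y1, u1, u2, u3]
  · have j1 := es_rp J0.le d0.le (by norm_num) hr b0.le b1
    have r0 : 0 < Q.den W.ν ^ alN ι := Real.rpow_pos_of_pos d0 _
    have y2 : (C.cr W (Q.L Q.sj) - C.cr W (Q.R Q.sj)) ^ 2 ≤ (2 * C.C0 ι * δ) ^ 2 := by
      rw [sq_le_sq, abs_mul, abs_of_pos (by linarith only [c0] : 0 < 2 * C.C0 ι)]
      exact y1
    have y3 : C.et Q F * C.fc.Cq ≤ alN ι / 16 * Q.den W.ν ^ alN ι := by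
      have u1 := mul_le_mul_of_nonneg_left j1 (mul_pos pe pC).le
      have u2 := mul_le_mul_of_nonneg_right hC.he' r0.le
      unfold et
      linarith only [u1, u2]
    have y4 : C.et Q F * C.fc.Cq * (C.cr W (Q.L Q.sj) - C.cr W (Q.R Q.sj)) ^ 2 / F.a0 Q ≤
        alN ι / 16 * Q.den W.ν ^ alN ι * (2 * C.C0 ι * δ) ^ 2 / (C.C0 ι * W.nu Q / 2) :=
      div_le_div₀ (by positivity) (mul_le_mul y3 y2 (sq_nonneg _) (by positivity))
        (by positivity) (by linarith only [n1])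
    have y5 : alN ι / 16 * Q.den W.ν ^ alN ι * (2 * C.C0 ι * δ) ^ 2 / (C.C0 ι * W.nu Q / 2) =
        C.C0 ι * (W.xx Q * (alN ι / 2 * (δ / W.nu Q) ^ 2)) := by
      unfold EV.xx
      field_simp
      norm_num
    have y6 := mul_le_mul_of_nonneg_left x1 c0.le
    rw [y5] at y4
    have e1 : C.cr W Q = C.C0 ι * (2 * (W.nu (Q.L Q.sj) + W.nu (Q.R Q.sj)) - W.xx Q) := by
      rw [← nh]; rfl
    have e2 : C.cr W (Q.L Q.sj) + C.cr W (Q.R Q.sj) = C.C0 ι *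
        (2 * (W.nu (Q.L Q.sj) + W.nu (Q.R Q.sj)) - (W.xx (Q.L Q.sj) + W.xx (Q.R Q.sj))) := by
      unfold cr; ring
    rw [e1, e2]
    linarith only [y4, y6]

omit [Nontrivial ι] in
theorem es_Jd (C : EC) {Q : Bx ι} {F F' : FD ι} (hh : F'.h = F.h) (j : ι) :
    C.Jd (Q.L j) F' = C.Jd Q F ∧ C.Jd (Q.R j) F' = C.Jd Q F := by
  have e : F'.a0 Q = F.a0 Q := by unfold FD.a0; rw [hh]
  unfold Jd
  rw [(F'.a0_half Q j).1, (F'.a0_half Q j).2, Bx.vol_L, Bx.vol_R, e]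
  have : F.a0 Q / 2 / (C.C0 ι * (Q.vol / 2)) = F.a0 Q / (C.C0 ι * Q.vol) := by
    rw [← mul_div_assoc, div_div_div_cancel_right₀ two_ne_zero]
  exact ⟨this, this⟩

/-- One step from a state of the martingale mode. -/
theorem Good.stepF (h : W.OK) (hC : C.Good W) (a : ℕ) {k : ℤ} {Q : Bx ι} {F : FD ι} {R : GB ι}
    {c : ℝ} (hv : C.VF W k Q F R c) :
    Red W.U0 ∅ (W.pbT a k Q (C.tF W Q F) R c) ∅ ∨
    (Q.den W.ν < 1 ∧
      ((∃ b1 b2, EV.Kids k Q b1 b2 ∧ C.RedL W (W.pbT a k Q (C.tF W Q F) R c) [b1, b2]) ∨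
      ∃ F' R1 R2 c', C.VF W (nk k Q) (Q.L Q.sj) F' R1 c' ∧ C.VF W (nk k Q) (Q.R Q.sj) F' R2 c' ∧
        Red W.U0 ∅ (W.pbT a k Q (C.tF W Q F) R c)
          {W.pbT a (nk k Q) (Q.L Q.sj) (C.tF W (Q.L Q.sj) F') R1 c',
            W.pbT a (nk k Q) (Q.R Q.sj) (C.tF W (Q.R Q.sj) F') R2 c'})) := by
  rcases le_or_gt 1 (Q.den W.ν) with hd | hd
  · exact .inl (hC.es_termF h a hv hd)
  refine .inr ⟨hd, ?_⟩
  rcases le_or_gt (8 * (C.C0 ι * W.nu Q)) (F.a0 Q) with hr | hr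
  · exact .inl (hC.es_room h a hv hd hr)
  obtain ⟨a0, -, J0, e, -, -, p0, e0, cr⟩ := hC.es_vf h hv
  have c0 := (hC.es_cg h).2.2.2.2.1
  have hP : Q.Pos := hv.1.two.1
  obtain ⟨r0, r1, r2⟩ := hC.es_res h hP
  have n0 := mul_pos c0 (h.nu_bd hP).1
  have hr' : C.Jd Q F ≤ 8 * Q.den W.ν := by
    rw [(h.nu_bd hP).2.1, e] at hr
    exact le_of_mul_le_mul_right (by linarith only [hr]) (mul_pos c0 hP.vol_pos)
  rcases le_or_gt (C.d0 * W.nu Q) |W.nu (Q.L Q.sj) - W.nu (Q.R Q.sj)| with hb | hb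
  · exact .inl (hC.es_exit h a hv hd hr' r0 cr (by linarith only [r1, r2, n0]) (.inl ⟨hb, le_rfl⟩))
  rcases le_or_gt (C.fc.P1 / 4) (NB.pot C.fc Q F) with hp | hp
  · exact .inl (hC.es_exit h a hv hd hr' (add_pos_of_pos_of_nonneg r0 r1) (hC.es_pot h hv hp)
      (by linarith only [r2, n0]) (.inr le_rfl))
  obtain ⟨b1, b2, b3⟩ := hC.es_bal h hv hr' hb.le
  have t0 := (hC.tt_le_tF h hv).1
  obtain ⟨hQ, hF, hR, hc, hJ, hV⟩ := hv
  obtain ⟨F', ho, hh, f1, f2, hu, v1, v2⟩ := hC.fc.step Q F hF hF.two.L hF.two.R hp.le _ _ _ e0.le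
    b1 b2 (by rw [← hR.vol]; linarith only [b3, hV])
  obtain ⟨R1, q1⟩ := hC.fc.exit _ _ f1
  obtain ⟨R2, q2⟩ := hC.fc.exit _ _ f2
  obtain ⟨J1, J2⟩ := es_Jd C hh Q.sj
  have hc' : 1 < min c 2 := lt_min hc one_lt_two
  have w1 : C.VF W (nk k Q) (Q.L Q.sj) F' R1 (min c 2) :=
    ⟨(hQ.L Q.long_sj).1, f1, q1, hc', J1 ▸ hJ, by rw [q1.vol]; unfold et at v1 ⊢; rwa [J1]⟩
  have w2 : C.VF W (nk k Q) (Q.R Q.sj) F' R2 (min c 2) :=
    ⟨(hQ.R Q.long_sj).1, f2, q2, hc', J2 ▸ hJ, by rw [q2.vol]; unfold et at v2 ⊢; rwa [J2]⟩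
  have T1 : C.tF W (Q.L Q.sj) F' = C.tF W Q F := by unfold tF; rw [J1]
  have T2 : C.tF W (Q.R Q.sj) F' = C.tF W Q F := by unfold tF; rw [J2]
  have t1 := (hC.tt_le_tF h w1).1
  have t2 := (hC.tt_le_tF h w2).1
  refine .inr ⟨F', R1, R2, min c 2, w1, w2, ?_⟩
  rw [T1] at t1 ⊢
  rw [T2] at t2 ⊢
  exact (Red.data (fun _ _ => Ap.rfl) (fun _ _ => Iff.rfl) (min_le_left c 2)).trans1
    (h.fstep_red (by norm_num) le_rfl hC.fc a hQ Q.long_sj t0 t1 t2 hF f1 ho hh hu hR q1 q2 hc'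
      (min_le_right c 2))

/-- The cut of a list for the credit of the whole list. -/
theorem Good.es_cut (h : W.OK) (hC : C.Good W) {l1 l2 : List (It ι)} (e1 : l1 ≠ []) (e2 : l2 ≠ [])
    {R : GB ι} {c : ℝ} (hv : C.VL W (l1 ++ l2) R c) {L : ℝ} (hL : 0 < L) (hL' : L ≤ R.sz)
    (he : C.Vl W (l1 ++ l2) (R.phi (1 / 16)) + C.Bc * W.ts (l1 ++ l2) * L ^ (Fintype.card ι - 1)
      = L ^ Fintype.card ι)
    (hn : (C.Cr W l1 ≤ 85 / 100 * C.Cr W (l1 ++ l2) ∧ C.Cr W l2 ≤ 85 / 100 * C.Cr W (l1 ++ l2) ∧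
        C.Bc * W.ts (l1 ++ l2) * L ^ (Fintype.card ι - 1) ≤ C.Vl W (l1 ++ l2) (R.phi (1 / 16))) ∨
      (W.ts l1 ≤ 6 / 10 * W.ts (l1 ++ l2) ∧ W.ts l2 ≤ 6 / 10 * W.ts (l1 ++ l2) ∧
        C.Vl W (l1 ++ l2) (R.phi (1 / 16)) ≤
          2 * (C.Bc * W.ts (l1 ++ l2) * L ^ (Fintype.card ι - 1)))) :
    ∃ R1 R2 c', C.VL W l1 R1 c' ∧ C.VL W l2 R2 c' ∧
      Red W.U0 ∅ (W.pbL (l1 ++ l2) R c) {W.pbL l1 R1 c', W.pbL l2 R2 c'} := by
  obtain ⟨-, hl, hR, hc, -⟩ := hv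
  have o1 : W.LOk ∅ l1 := es_seg hl (List.prefix_append l1 l2).isInfix
  have o2 : W.LOk ∅ l2 := es_seg hl (List.suffix_append l1 l2).isInfix
  obtain ⟨x1, -, s1, -⟩ := hC.cred_bd h o1
  obtain ⟨x2, -, -, s2, -⟩ := hC.cred_bd h o2
  obtain ⟨f0, f1⟩ := hR.phi_bd (by norm_num) le_rfl
  have v := (hC.Vl_bd h hl f0 f1).1
  have r0 := (hC.cred_bd h hl).2.2.2.2.1
  refine hC.cut_lists h e1 e2 hl hR hc hL hL' he fun φ1 φ2 a1 a2 a3 a4 a5 => ⟨?_, ?_⟩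
  · have d := (GB.drop_bd (f := 1 / 16) (by norm_num) R).1
    have kc := mul_pos hC.p2 (hC.es_cg h).2.2.2.2.1
    have a6 : φ1 * W.xs l1 + φ2 * W.xs l2 ≤ R.phi (1 / 16) * (W.xs l1 + W.xs l2) := by
      nlinarith only [a5, x1, d, x2]
    have a7 := mul_le_mul_of_nonneg_left a6 kc.le
    unfold Vl
    rw [Cr_append C W e1 e2, EV.xs_append]
    linarith only [s1, s2, a7]
  · refine hn.imp (fun ⟨u1, u2, u3⟩ => ⟨?_, ?_, u3⟩) id
    · linarith [(hC.Vl_bd h o1 a1 a2).2]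
    · linarith [(hC.Vl_bd h o2 a3 a4).2]

/-- A long thin list is cut at the median of the length. -/
theorem Good.es_long (h : W.OK) (hC : C.Good W) {l : List (It ι)} {R : GB ι} {c : ℝ}
    (hv : C.VL W l R c) {L : ℝ} (hL : 0 < L) (hL' : L ≤ R.sz)
    (he : C.Vl W l (R.phi (1 / 16)) + C.Bc * W.ts l * L ^ (Fintype.card ι - 1)
      = L ^ Fintype.card ι)
    (hn : C.Vl W l (R.phi (1 / 16)) ≤ 2 * (C.Bc * W.ts l * L ^ (Fintype.card ι - 1))) :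
    ∃ l1 l2 R1 R2 c', l = l1 ++ l2 ∧ C.VL W l1 R1 c' ∧ C.VL W l2 R2 c' ∧
      Red W.U0 ∅ (W.pbL l R c) {W.pbL l1 R1 c', W.pbL l2 R2 c'} := by
  have S0 := (h.ts_bd hv.2.1).2.1 hv.1
  obtain ⟨l1, b, l2, rfl, m1, m2⟩ := exists_med W.ts W.ts (W.ts l) l hv.1
    (by rw [EV.ts_nil]; linarith only [S0]) (by rw [EV.ts_nil]; linarith only [S0])
    fun l1 l2 _ _ e => by rw [e, EV.ts_append]
  obtain ⟨f0, f1⟩ := hv.2.2.1.phi_bd (by norm_num) le_rfl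
  have v := (hC.Vl_bd h hv.2.1 f0 f1).1
  have mb : b ∈ l1 ++ b :: l2 := by simp
  have hP : b.Q.Pos := (hv.2.1.1 b mb).1.bx.two.1
  have r := (hC.cred_bd h hv.2.1).2.2.2.2.2.1 b mb
  obtain ⟨-, B1, -, -, -, s1⟩ := hC.consts h
  obtain ⟨-, -, A, s0, -⟩ := hC.es_cg h
  have p : 0 < L ^ (Fintype.card ι - 1) := pow_pos hL _
  have T0 : 0 < C.Bc * W.ts (l1 ++ b :: l2) * L ^ (Fintype.card ι - 1) := by positivity
  have a1 := h.ta_le hP s0 hL.le (show C.C0 ι * W.nu b.Q / 10 ≤ _ by linarith only [he, v, r, T0])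
  have a2 : L ≤ 3 * (C.Bc * W.ts (l1 ++ b :: l2)) := by
    refine le_of_mul_le_mul_right ?_ p
    rw [mul_comm L, pow_sub_one_mul (by have := es_card ι; omega)]
    linarith only [he, hn]
  have a3 : W.ta b.Q ≤ W.ts (l1 ++ b :: l2) / 10 := by
    refine le_of_mul_le_mul_left ?_ s0
    have u1 := mul_le_mul_of_nonneg_left a2 A.le
    have u2 := mul_le_mul_of_nonneg_right s1 S0.le
    have u3 : 0 ≤ C.Bc * W.A1 * W.ts (l1 ++ b :: l2) := by positivity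
    linarith only [a1, u1, u2, u3]
  have e := W.ts_append l1 (b :: l2)
  have e' := W.ts_cons b l2
  have e1 : l1 ≠ [] := by
    rintro rfl
    rw [EV.ts_nil] at e
    linarith only [e', S0, m2, a3, e]
  obtain ⟨R1, R2, c', w⟩ := hC.es_cut h e1 (List.cons_ne_nil b l2) hv hL hL' he
    (.inr ⟨by linarith only [S0, m1], by linarith only [m2, a3, e'], hn⟩)
  exact ⟨l1, b :: l2, R1, R2, c', rfl, w⟩

/-- The length is small against the size. -/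
theorem es_tau {n : ℕ} (hn : 2 ≤ n) {V τ L : ℝ} (hV : 0 ≤ V) (hL : 0 < L)
    (he : V + τ * L ^ (n - 1) = L ^ n) : τ ≤ L :=
  Nd.le (n := n) (by omega) he.le hV hL

/-- A single terminal item. -/
theorem Good.es_term (h : W.OK) (hC : C.Good W) {b : It ι} {R : GB ι} {c : ℝ}
    (hv : C.VL W [b] R c) {L : ℝ} (hL : 0 < L) (hL' : L ≤ R.sz)
    (he : C.Vl W [b] (R.phi (1 / 16)) + C.Bc * W.ts [b] * L ^ (Fintype.card ι - 1)
      = L ^ Fintype.card ι) (hd : 1 ≤ b.Q.den W.ν) : Red W.U0 ∅ (W.pbL [b] R c) ∅ := by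
  obtain ⟨-, hl, hR, hc, -⟩ := hv
  obtain ⟨f0, f1⟩ := hR.phi_bd (by norm_num) le_rfl
  have v := (hC.Vl_bd h hl f0 f1).1
  have hQ := (hl.1 b (by simp)).1.bx
  have hP : b.Q.Pos := hQ.two.1
  obtain ⟨-, -, -, -, r0, r, -⟩ := hC.cred_bd h hl
  have r1 := r b (by simp)
  obtain ⟨g0, g1, A, s0, c0, -⟩ := hC.es_cg h
  have t1 := es_tau (es_card ι) (by linarith only [v, r0]) hL he
  obtain ⟨t0, -, a0, -⟩ := h.tt_bd hP
  rw [EV.ts_cons, EV.ts_nil, add_zero] at t1 he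
  have ga := mul_pos g0 a0
  have t2 : 200 * (W.cg (1 / 16) * W.ta b.Q) ≤ L := by nlinarith only [t1, g1, a0]
  obtain ⟨q0, q1⟩ := hP.sc_pow
  have l1 : C.sC * b.Q.sc ≤ 10 * L := by
    refine es_le (es_card ι) (by linarith only [ga, t2]) (le_trans ?_ (es_mul_pow (es_card ι) (by norm_num) hL.le))
    have e : (C.sC * b.Q.sc) ^ Fintype.card ι = C.C0 ι * b.Q.vol := by rw [mul_pow, q1]; rfl
    have cv := mul_pos c0 hP.vol_pos
    have T0 : 0 ≤ C.Bc * W.ta b.Q * L ^ (Fintype.card ι - 1) := by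
      have : 0 < C.Bc := by linarith only [g0, g1]
      positivity
    rw [(h.nu_bd hP).2.1] at r1
    rw [e]
    nlinarith only [he, v, r1, T0, hd, cv]
  obtain ⟨R', s, red⟩ := h.single_red (F0 := ∅) (by norm_num) le_rfl hl le_rfl hR
    (L := L - W.cg (1 / 16) * W.ta b.Q) (c := c) (c' := (1 + c) / 2)
    (show W.cg (1 / 16) * W.ta b.Q ≤ _ by linarith only [ga, t2])
    (show _ + W.cg (1 / 16) * W.ta b.Q ≤ _ by linarith only [hL']) (by linarith only [hc]) (by linarith only [hc])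
  refine red.trans1 (h.term_red (by norm_num) le_rfl b.a hQ le_rfl s.valid ?_ (by linarith only [hc]))
  rw [s.sz]
  rcases max_cases (W.tt b.Q) (W.B ^ W.T) with e | e <;> rw [e.1]
  · show W.cg (1 / 16) * W.ta b.Q ≤ _
    linarith only [ga, t2]
  · have := mul_le_mul_of_nonneg_right hC.hs' q0.le
    linarith only [ga, t2, l1, this]

/-- A single item in a good region enters the martingale mode. -/
theorem Good.es_entry (h : W.OK) (hC : C.Good W) {b : It ι} {R : GB ι} {c : ℝ}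
    (hv : C.VL W [b] R c) {L : ℝ} (hL : 0 < L) (hL' : L ≤ R.sz)
    (he : C.cr W b.Q + C.Bc * W.ta b.Q * L ^ (Fintype.card ι - 1) = L ^ Fintype.card ι)
    (hn : C.Bc * W.ta b.Q * L ^ (Fintype.card ι - 1) ≤ C.cr W b.Q) (hf : R.Fin (1 / 16)) :
    ∃ F R' c', C.VF W b.k b.Q F R' c' ∧
      Red W.U0 ∅ (W.pbL [b] R c) {W.pbT b.a b.k b.Q (C.tF W b.Q F) R' c'} := by
  obtain ⟨-, hl, hR, hc, -⟩ := hv
  have hQ := (hl.1 b (by simp)).1.bx
  have hP : b.Q.Pos := hQ.two.1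
  obtain ⟨g0, g1, A, s0, c0, -⟩ := hC.es_cg h
  obtain ⟨t0, -, a0, -⟩ := h.tt_bd hP
  obtain ⟨n0, n1, d0, d1⟩ := h.nu_bd hP
  obtain ⟨c1, c2, -⟩ := hC.cr_bd h hP
  have r0 := (hC.es_res h hP).1
  have cv := mul_pos c0 hP.vol_pos
  obtain ⟨-, -, h0, h1⟩ := es_th ι
  set J := C.cr W b.Q / (C.C0 ι * b.Q.vol) with hJ
  have J1 : b.Q.den W.ν ≤ J := by rw [hJ, le_div_iff₀ cv]; rw [n1] at c1; linarith only [c1]
  have J2 : J ≤ 2 * b.Q.den W.ν := by rw [hJ, div_le_iff₀ cv]; rw [n1] at c2; linarith only [c2]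
  have j1 := Real.rpow_le_rpow d0.le J1 h0.le
  have j2 := es_rp (by linarith only [d0, J1]) d0.le (by norm_num) J2 h0.le h1
  set t := 2 * W.A1 * J ^ thN ι with ht
  have u1 : W.tt b.Q ≤ t := by
    have := mul_le_mul_of_nonneg_left j1 A.le
    unfold EV.tt at *
    linarith only [t0, this]
  have u2 : W.cg (1 / 16) * (t * b.Q.sc) ≤ 4 * (W.cg (1 / 16) * W.ta b.Q) := by
    have := mul_le_mul_of_nonneg_left j2 (mul_pos g0 (mul_pos A hP.sc_pow.1)).le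
    rw [ht]
    unfold EV.ta EV.tt
    linarith only [this]
  have u3 : 0 < W.cg (1 / 16) * (t * b.Q.sc) := mul_pos g0 (mul_pos (by linarith only [t0, u1]) hP.sc_pow.1)
  have t1 := es_tau (es_card ι) r0.le hL he
  have ga := mul_pos g0 a0
  have t2 : 200 * (W.cg (1 / 16) * W.ta b.Q) ≤ L := by nlinarith only [t1, g1, a0]
  obtain ⟨L1, l0, l1⟩ := es_root (es_card ι) r0
  have l2 : L ≤ 2 * L1 := es_le (es_card ι) (by linarith only [l0])
    (le_trans (by linarith only [he, hn, l1]) (es_mul_pow (es_card ι) one_le_two l0.le))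
  have n2 : (2 : ℝ) ≤ Fintype.card ι := by exact_mod_cast es_card ι
  have l3 := es_gap (es_card ι) l0 hL (by nlinarith only [ga, g1, a0]) (l1 ▸ he)
  have l4 : 100 * (W.cg (1 / 16) * W.ta b.Q) ≤ L - L1 := by
    have := mul_le_mul_of_nonneg_right hC.hB a0.le
    exact le_of_mul_le_mul_left (by linarith only [l3, this]) (show (0 : ℝ) < Fintype.card ι by linarith only [n2])
  obtain ⟨R', s, red⟩ := h.single_red (F0 := ∅) (by norm_num) le_rfl hl u1 hR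
    (L := L - W.cg (1 / 16) * (t * b.Q.sc)) (c := c) (c' := (1 + 2 * c) / 3)
    (by linarith only [u2, ga, t2]) (by linarith only [hL']) (by linarith only [hc]) (by linarith only [hc])
  obtain ⟨F, R'', w1, w2, w3, w4, w5, red'⟩ := h.entry_red (by norm_num) le_rfl hC.fc b.a hQ u1
    s.valid (s.fin.2 hf) (L := L1) (c := (1 + 2 * c) / 3) (c' := (2 + c) / 3) (by linarith only [u2, ga, t2, l2])
    (by rw [s.sz]; linarith only [u2, ga, l4]) (by linarith only [hc]) (by linarith only [hc])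
  have eJ : C.Jd b.Q F = J := by unfold Jd; rw [w4, l1]
  have eT : C.tF W b.Q F = t := by unfold tF; rw [eJ]
  refine ⟨F, R'', (2 + c) / 3, ⟨hQ, w1, w2, by linarith only [hc], by rw [eJ]; linarith only [d1, J2], ?_⟩, ?_⟩
  · rw [w3, w5, l1, mul_zero, add_zero]
  · rw [eT]
    exact red.trans1 red'

/-- The refinement of a heavy item. -/
theorem Good.es_ref (h : W.OK) (hC : C.Good W) {l1 l2 : List (It ι)} {b : It ι} {R : GB ι} {c : ℝ}
    (hv : C.VL W (l1 ++ b :: l2) R c) {L : ℝ} (hL : 0 < L) (hL' : L ≤ R.sz)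
    (he : C.Vl W (l1 ++ b :: l2) (R.phi (1 / 16))
      + C.Bc * W.ts (l1 ++ b :: l2) * L ^ (Fintype.card ι - 1) = L ^ Fintype.card ι)
    (hn : 2 * (C.Bc * W.ts (l1 ++ b :: l2) * L ^ (Fintype.card ι - 1)) ≤
      C.Vl W (l1 ++ b :: l2) (R.phi (1 / 16))) (hd : b.Q.den W.ν < 1)
    (hS : C.Sl W l1 + C.Sr W l2 ≤ 3 / 10 * C.Cr W (l1 ++ b :: l2))
    (hb : C.Cr W (l1 ++ b :: l2) ≤ 3 * (C.C0 ι * W.nu b.Q))
    (hf : l1 = [] → l2 = [] → ¬ R.Fin (1 / 16)) :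
    ∃ b1 b2, EV.Kids b.k b.Q b1 b2 ∧
      C.RedL W (W.pbL (l1 ++ b :: l2) R c) (l1 ++ b1 :: b2 :: l2) := by
  obtain ⟨hne, hl, hR, hc, -⟩ := hv
  obtain ⟨f0, f1⟩ := hR.phi_bd (by norm_num) le_rfl
  obtain ⟨v1, v2⟩ := hC.Vl_bd h hl f0 f1
  have mb : b ∈ l1 ++ b :: l2 := by simp
  have hQ := (hl.1 b mb).1.bx
  have hP : b.Q.Pos := hQ.two.1
  have o1 : W.LOk ∅ l1 := es_seg hl (List.prefix_append l1 _).isInfix
  have o2 : W.LOk ∅ l2 := es_seg hl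
    ((List.suffix_cons b l2).trans (List.suffix_append l1 _)).isInfix
  obtain ⟨x1, -, s1, -, z1, -⟩ := hC.cred_bd h o1
  obtain ⟨x2, -, -, s2, z2, -⟩ := hC.cred_bd h o2
  have r0 := (hC.cred_bd h hl).2.2.2.2.1
  obtain ⟨g0, g1, A, s0, c0, -⟩ := hC.es_cg h
  obtain ⟨-, -, a0, x0, -⟩ := h.tt_bd hP
  obtain ⟨S0, -, S1⟩ := h.ts_bd hl
  have t1 := es_tau (es_card ι) (by linarith only [v1, v2]) hL he
  have ga := mul_pos g0 a0
  have gs := mul_le_mul_of_nonneg_left (S1 b mb) g0.le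
  have t2 : 200 * (W.cg (1 / 16) * W.ts (l1 ++ b :: l2)) ≤ L := by nlinarith only [t1, g1, S0]
  obtain ⟨b1, b2, R', k, hl', s, red⟩ := h.refine_red (by norm_num) le_rfl hl hd (fo_empty _) hR
    (L := L - W.cg (1 / 16) * W.ta b.Q) (c := c) (c' := (1 + c) / 2) (by linarith only [ga, gs, t2]) (by linarith only [hL'])
    (by linarith only [hc]) (by linarith only [hc])
  have e := Cr_split C W l1 l2 b
  rw [base, bonus, if_neg (not_le.2 hd), if_neg (not_le.2 hd)] at e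
  have kx : 0 < C.k1 * C.C0 ι * W.xx b.Q := mul_pos (mul_pos hC.p1 c0) x0
  have nn : 0 ≤ neL l1 + neL l2 := add_nonneg (neL_bd l1).1 (neL_bd l2).1
  have nk := mul_nonneg nn kx.le
  have T1 : C.Bc * (W.ts l1 + W.ts l2) * L ^ (Fintype.card ι - 1) ≤
      C.Bc * W.ts (l1 ++ b :: l2) * L ^ (Fintype.card ι - 1) := by
    rw [EV.ts_append, EV.ts_cons]
    exact mul_le_mul_of_nonneg_right (mul_le_mul_of_nonneg_left (by linarith only [a0]) (by linarith only [g0, g1]))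
      (pow_pos hL _).le
  have eV : C.Vl W (l1 ++ b :: l2) (R.phi (1 / 16)) = C.Cr W (l1 ++ b :: l2)
      + C.k2 * C.C0 ι * (W.xs l1 + W.xs l2 + W.xx b.Q) * R.phi (1 / 16) := by
    unfold Vl
    rw [EV.xs_append, EV.xs_cons]
    ring
  have cx := mul_pos c0 x0
  have k2 : 0 ≤ C.k2 * C.C0 ι * W.xx b.Q * R.phi (1 / 16) := by have := hC.p2; positivity
  refine ⟨b1, b2, k, RedL.trans1 red (hC.post_ref h hQ k hl' s.valid (by linarith only [hc])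
    (V := C.Vl W (l1 ++ b :: l2) (R.phi (1 / 16))) hL (by rw [s.sz]; linarith only [ga])
    (show _ ≤ _ by linarith only [he, T1]) (by linarith only [hn, T1]) (by linarith only [(hC.cr_bd h hP).1, v1, s1, z1, s2, z2, e, nk]) (by linarith only [he, hn, hb, v1, v2])
    (by linarith only [hS, v1, v2]) ?_)⟩
  rw [s.phi, s.drop]
  rcases le_total (C.d0 * W.nu b.Q) |W.nu b1.Q - W.nu b2.Q| with u | u
  · exact .inl ⟨u, by linarith only [e, nk, eV, k2]⟩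
  refine .inr ⟨u, 0, le_rfl, by linarith only [e, eV], ?_⟩
  have d := (GB.drop_bd (f := 1 / 16) (by norm_num) R).1
  by_cases q : l1 = [] ∧ l2 = []
  · have e1 : R.drop (1 / 16) = drp ι (1 / 16) := if_neg (hf q.1 q.2)
    have := mul_le_mul_of_nonneg_right hC.κ2 cx.le
    rw [e1]
    linarith only [nk, this]
  · have n1 : 1 ≤ neL l1 + neL l2 := by
      rcases not_and_or.1 q with q | q
      · linarith only [neL_of q, (neL_bd l2).1, q]
      · linarith only [neL_of q, (neL_bd l1).1, q]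
    have u1 := mul_le_mul_of_nonneg_right n1 kx.le
    have u2 := mul_le_mul_of_nonneg_right hC.κ1 cx.le
    have u3 : 0 ≤ C.k2 * C.C0 ι * W.xx b.Q * R.drop (1 / 16) := by have := hC.p2; positivity
    linarith only [u1, u2, u3]

/-- One step from a list state. -/
theorem Good.stepL (h : W.OK) (hC : C.Good W) {l : List (It ι)} {R : GB ι} {c : ℝ}
    (hv : C.VL W l R c) :
    (∃ l1 l2 R1 R2 c', l = l1 ++ l2 ∧ C.VL W l1 R1 c' ∧ C.VL W l2 R2 c' ∧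
      Red W.U0 ∅ (W.pbL l R c) {W.pbL l1 R1 c', W.pbL l2 R2 c'}) ∨
    Red W.U0 ∅ (W.pbL l R c) ∅ ∨
    (∃ b F R' c', l = [b] ∧ C.VF W b.k b.Q F R' c' ∧
      Red W.U0 ∅ (W.pbL l R c) {W.pbT b.a b.k b.Q (C.tF W b.Q F) R' c'}) ∨
    ∃ l1 b l2 b1 b2, l = l1 ++ b :: l2 ∧ EV.Kids b.k b.Q b1 b2 ∧
      C.Cr W l ≤ 3 * (C.C0 ι * W.nu b.Q) ∧ C.RedL W (W.pbL l R c) (l1 ++ b1 :: b2 :: l2) := by
  have hl := hv.2.1
  obtain ⟨f0, f1⟩ := hv.2.2.1.phi_bd (by norm_num) le_rfl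
  have v1 := (hC.Vl_bd h hl f0 f1).1
  have r0 := (hC.cred_bd h hl).2.2.2.2.1
  have B0 : 0 < C.Bc := lt_of_lt_of_le one_pos (hC.consts h).2.1
  have τ0 := mul_pos B0 ((h.ts_bd hl).2.1 hv.1)
  obtain ⟨L, hL, hL', he⟩ := hv.2.2.2.2.root (by have := es_card ι; omega) (by linarith only [v1, r0]) τ0
    (hv.2.2.1.sz_pos (by norm_num) le_rfl).1
  rcases le_total (C.Vl W l (R.phi (1 / 16)))
    (2 * (C.Bc * W.ts l * L ^ (Fintype.card ι - 1))) with hn | hn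
  · exact .inl (hC.es_long h hv hL hL' he hn)
  have T0 := mul_pos τ0 (pow_pos hL (Fintype.card ι - 1))
  obtain ⟨l1, b, l2, rfl, m1, m2⟩ := exists_med (C.Sl W) (C.Sr W) (C.Cr W l) l hv.1
    (by rw [Sl_nil]; linarith only [r0]) (by rw [Sr_nil]; linarith only [r0])
    fun l1 l2 e1 e2 e => by rw [e, Cr_append C W e1 e2]
  have mb : b ∈ l1 ++ b :: l2 := by simp
  have hP : b.Q.Pos := (hl.1 b mb).1.bx.two.1
  have o1 : W.LOk ∅ l1 := es_seg hl (List.prefix_append l1 _).isInfix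
  have o2 : W.LOk ∅ l2 := es_seg hl
    ((List.suffix_cons b l2).trans (List.suffix_append l1 _)).isInfix
  obtain ⟨-, -, s1, -, z1, -⟩ := hC.cred_bd h o1
  obtain ⟨-, -, -, s2, z2, -⟩ := hC.cred_bd h o2
  obtain ⟨c1, c2, c3, c4, -⟩ := hC.cr_bd h hP
  have n0 := mul_pos (hC.es_cg h).2.2.2.2.1 (h.nu_bd hP).1
  have r1 := (hC.cred_bd h hl).2.2.2.2.2.1 b mb
  have e := Cr_split C W l1 l2 b
  by_cases q1 : l1 ≠ [] ∧ 15 / 100 * C.Cr W (l1 ++ b :: l2) ≤ C.Sl W l1 + C.bonus W b.Q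
  · have e' := Cr_split C W [] l2 b
    rw [Sl_nil, neL_nil, List.nil_append] at e'
    rw [neL_of q1.1] at e
    obtain ⟨R1, R2, c', w⟩ := hC.es_cut h q1.1 (List.cons_ne_nil b l2) hv hL hL' he
      (.inl ⟨by linarith only [m1, s1, n0, r1], by linarith only [q1.2, e, q1, e'], by linarith only [hn, T0]⟩)
    exact .inl ⟨l1, b :: l2, R1, R2, c', rfl, w⟩
  by_cases q2 : l2 ≠ [] ∧ 15 / 100 * C.Cr W (l1 ++ b :: l2) ≤ C.Sr W l2 + C.bonus W b.Q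
  · have e' := Cr_split C W l1 [] b
    rw [Sr_nil, neL_nil] at e'
    rw [neL_of q2.1] at e
    have ea : l1 ++ b :: l2 = (l1 ++ [b]) ++ l2 := by simp
    have q3 := q2.2
    rw [ea] at hv he hn e q3 m2 T0 r0 ⊢
    obtain ⟨R1, R2, c', w⟩ := hC.es_cut h (by simp) q2.1 hv hL hL' he
      (.inl ⟨by linarith only [e, e', q3], by linarith only [r0, m2, s2], by linarith only [hn, T0]⟩)
    exact .inl ⟨l1 ++ [b], l2, R1, R2, c', rfl, w⟩
  have y1 : C.Sl W l1 + neL l1 * C.bonus W b.Q ≤ 15 / 100 * C.Cr W (l1 ++ b :: l2) := by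
    by_cases q : l1 = []
    · rw [q, Sl_nil, neL_nil, ← q]; linarith only [n0, r1]
    · rw [neL_of q]; linarith only [not_le.1 fun u => q1 ⟨q, u⟩, q1, q]
  have y2 : C.Sr W l2 + neL l2 * C.bonus W b.Q ≤ 15 / 100 * C.Cr W (l1 ++ b :: l2) := by
    by_cases q : l2 = []
    · have u1 : neL l2 = 0 := by rw [q, neL_nil]
      have u2 : C.Sr W l2 = 0 := by rw [q, Sr_nil]
      rw [u1, u2]; linarith only [n0, r1]
    · rw [neL_of q]; linarith only [not_le.1 fun u => q2 ⟨q, u⟩, q2, q]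
  rcases le_or_gt 1 (b.Q.den W.ν) with hd | hd
  · have eb : C.bonus W b.Q = 2 * C.base W b.Q := by
      rw [base, bonus, if_pos hd, if_pos hd]; ring
    have e1 : l1 = [] := by
      by_contra q
      rw [neL_of q] at y1 e
      linarith only [s1, z1, c3, n0, e, y1, y2, eb]
    have e2 : l2 = [] := by
      by_contra q
      rw [neL_of q] at y2 e
      linarith only [s2, z2, c3, n0, e, y1, y2, eb]
    subst e1 e2
    exact .inr (.inl (hC.es_term h hv hL hL' he hd))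
  have eb : C.base W b.Q = C.cr W b.Q := if_neg (not_le.2 hd)
  by_cases q : l1 = [] ∧ l2 = [] ∧ R.Fin (1 / 16)
  · obtain ⟨rfl, rfl, hf⟩ := q
    have eV : C.Vl W ([] ++ [b]) (R.phi (1 / 16)) = C.cr W b.Q := by
      unfold Vl
      rw [hf.phi, e, Sl_nil, Sr_nil, neL_nil, eb]
      ring
    have eT : W.ts ([] ++ [b]) = W.ta b.Q := by
      rw [List.nil_append, EV.ts_cons, EV.ts_nil, add_zero]
    rw [eV, eT] at he hn
    rw [eT] at T0
    obtain ⟨F, R', c', w⟩ := hC.es_entry h hv hL hL' he (by linarith only [hn, T0]) hf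
    exact .inr (.inr (.inl ⟨b, F, R', c', rfl, w⟩))
  have hb : C.Cr W (l1 ++ b :: l2) ≤ 3 * (C.C0 ι * W.nu b.Q) := by linarith only [c2, n0, e, y1, y2, eb]
  have p1 := mul_nonneg (neL_bd l1).1 c4
  have p2 := mul_nonneg (neL_bd l2).1 c4
  obtain ⟨b1, b2, k, w⟩ := hC.es_ref h hv hL hL' he hn hd (by linarith only [y1, y2, p1, p2]) hb
    fun u1 u2 u3 => q ⟨u1, u2, u3⟩
  exact .inr (.inr (.inr ⟨l1, b, l2, b1, b2, rfl, k, hb, w⟩))

theorem exists_EC (B K A K1 : ℝ) (T : ℤ) : ∃ C : EC, ∀ W : EV ι, W.OK → W.B = B → W.K = K →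
    W.A = A → W.K1 = K1 → W.T = T → C.Good W := by
  obtain ⟨fc, hfc⟩ := exists_FC (ι := ι) (f := 1 / 16) (by norm_num) le_rfl
  have hN := en_card (ι := ι)
  have al0 := (thN_bd (ι := ι)).1
  have dr0 := (consts (ι := ι) (f := 1 / 16) (by norm_num) le_rfl).2.2.2.1
  have q0 : 0 < fc.Cq := by linarith only [hfc.pC]
  have e0 := hfc.pη
  have d1 := hfc.pd
  have P0 := hfc.pP
  obtain ⟨eta, eta0, eta1, eta2⟩ :
      ∃ x : ℝ, 0 < x ∧ 2 * x ≤ fc.η0 ∧ 128 * x * fc.Cq ≤ alN ι := by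
    refine ⟨min (fc.η0 / 2) (alN ι / (128 * fc.Cq)), by positivity,
      by linarith only [min_le_left (fc.η0 / 2) (alN ι / (128 * fc.Cq))], ?_⟩
    have := (le_div_iff₀ (by positivity)).1 (min_le_right (fc.η0 / 2) (alN ι / (128 * fc.Cq)))
    linarith only [this]
  obtain ⟨d0, d00, d01, d02⟩ : ∃ x : ℝ, 0 < x ∧ 4 * x ≤ fc.d1 ∧ x ≤ 1 / 100 :=
    ⟨min (fc.d1 / 4) (1 / 100), by positivity, by linarith only [min_le_left (fc.d1 / 4) (1 / 100)],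
      min_le_right _ _⟩
  obtain ⟨ρ, r0, r1, r2, r3⟩ :
      ∃ x : ℝ, 0 < x ∧ x ≤ alN ι / 2 * d0 ^ 2 ∧ x ≤ eta * fc.P1 / 16 ∧ x ≤ 1 / 1000 :=
    ⟨min (min (alN ι / 2 * d0 ^ 2) (eta * fc.P1 / 16)) (1 / 1000), by positivity,
      (min_le_left _ _).trans (min_le_left _ _), (min_le_left _ _).trans (min_le_right _ _),
      min_le_right _ _⟩
  obtain ⟨k2, k20, k21⟩ : ∃ x : ℝ, 0 < x ∧ Fintype.card ι * x = ρ / 64 :=
    ⟨ρ / 64 / Fintype.card ι, by positivity, mul_div_cancel₀ _ (by positivity)⟩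
  obtain ⟨κ, κ0, κ1, κ2⟩ : ∃ x : ℝ, 0 < x ∧ x ≤ ρ / 64 ∧ x ≤ k2 * drp ι (1 / 16) :=
    ⟨min (ρ / 64) (k2 * drp ι (1 / 16)), by positivity, min_le_left _ _, min_le_right _ _⟩
  set cg0 : ℝ := 10 ^ 10 * K * K1 / (1 / 16) ^ 2 with hcg
  set Bc : ℝ := 100 * Fintype.card ι * cg0 with hBc
  refine ⟨⟨max (100 * Bc * (4 ^ Fintype.card ι * A) / κ) (100 * cg0 * B ^ T), Bc, ρ / 16, k2, κ,
    eta, d0, fc⟩, fun W _ hB hK hA hK1 hT => ?_⟩
  have ecg : W.cg (1 / 16) = cg0 := by unfold EV.cg; rw [hK, hK1]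
  have eA : W.A1 = 4 ^ Fintype.card ι * A := by unfold EV.A1; rw [hA]
  refine ⟨hfc, by rw [ecg], eta0, eta1, eta2, d00, d01, d02, by positivity, ?_, k20, ?_, κ0, ?_,
    κ2, ?_, ?_, ?_, ?_⟩
  · simp only; linarith only [r3, κ0, κ1]
  · simp only; linarith only [r3, k21, κ0, κ1]
  · simp only; linarith only [κ1]
  · simp only; linarith only [r1, k21, κ0, κ1]
  · simp only; linarith only [r2, k21, κ0, κ1]
  · simp only
    rw [eA, mul_comm κ]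
    exact (div_le_iff₀ κ0).1 (le_max_left _ _)
  · simp only
    rw [ecg, hB, hT]
    exact le_max_right _ _

end EC

end Pool.Agent.Lib.MP_ecd4e3_gt.NB
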