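import Pool.Agent.Lib.MP_ecd4e3_gt.NB.FHaar

/-! The bump which moves volume from one half of a box to the other. -/

namespace Pool.Agent.Lib.MP_ecd4e3_gt.NB

open Set Filter Topology Metric MeasureTheory
open scoped NNReal ENNReal

variable {ι : Type} [Fintype ι] [DecidableEq ι] [Nonempty ι]

namespace FB

theorem lip_S : ∃ K : ℝ, 0 ≤ K ∧ ∀ a b : ℝ,
    |Real.smoothTransition a - Real.smoothTransition b| ≤ K * |a - b| := by
  obtain ⟨K, hK⟩ := (Real.smoothTransition.contDiff (n := 1)).contDiffOn.exists_lipschitzOnWith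
    (s := Icc (0 : ℝ) 1) (by simp) (convex_Icc _ _) isCompact_Icc
  refine ⟨K, K.2, fun a b => ?_⟩
  have h1 := hK.dist_le_mul _ (projIcc (0 : ℝ) 1 zero_le_one a).2 _
    (projIcc (0 : ℝ) 1 zero_le_one b).2
  rw [Real.smoothTransition.projIcc, Real.smoothTransition.projIcc, Real.dist_eq] at h1
  have h2 := (LipschitzWith.projIcc (zero_le_one' ℝ)).dist_le_mul a b
  rw [Subtype.dist_eq, NNReal.coe_one, one_mul, Real.dist_eq a b] at h2
  exact h1.trans (mul_le_mul_of_nonneg_left h2 K.2)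

theorem exists_tau : ∃ K : ℝ, 0 ≤ K ∧ ∀ w : ℝ, 0 < w → ∃ τ : ℝ → ℝ, ContDiff ℝ 2 τ ∧
    (∀ y, 0 ≤ τ y ∧ τ y ≤ 1) ∧ (∀ y, 1 ≤ |y| → τ y = 0) ∧ (∀ y, |y| ≤ 1 - w → τ y = 1) ∧
    ∀ a b, |τ a - τ b| ≤ K / w * |a - b| := by
  obtain ⟨K, hK0, hK⟩ := lip_S
  refine ⟨2 * K, by positivity, fun w hw => ⟨fun y => Real.smoothTransition ((1 - y) / w)
    * Real.smoothTransition ((1 + y) / w), ?_, fun y => ⟨?_, ?_⟩, fun y hy => ?_, fun y hy => ?_,
    fun a b => ?_⟩⟩
  · have hS : ContDiff ℝ 2 Real.smoothTransition := Real.smoothTransition.contDiff (n := 2)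
    exact (hS.comp (by fun_prop)).mul (hS.comp (by fun_prop))
  · exact mul_nonneg (Real.smoothTransition.nonneg _) (Real.smoothTransition.nonneg _)
  · exact mul_le_one₀ (Real.smoothTransition.le_one _) (Real.smoothTransition.nonneg _)
      (Real.smoothTransition.le_one _)
  · rcases le_abs.1 hy with h | h
    · show _ * _ = (0 : ℝ)
      rw [Real.smoothTransition.zero_of_nonpos (div_nonpos_of_nonpos_of_nonneg (by linarith only [h]) hw.le),
        zero_mul]
    · show _ * _ = (0 : ℝ)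
      rw [Real.smoothTransition.zero_of_nonpos (x := (1 + y) / w)
        (div_nonpos_of_nonpos_of_nonneg (by linarith only [h]) hw.le), mul_zero]
  · have := abs_le.1 hy
    show _ * _ = (1 : ℝ)
    rw [Real.smoothTransition.one_of_one_le ((one_le_div hw).2 (by linarith only [this])),
      Real.smoothTransition.one_of_one_le ((one_le_div hw).2 (by linarith only [this])), one_mul]
  · have h1 := hK ((1 - a) / w) ((1 - b) / w)
    have h2 := hK ((1 + a) / w) ((1 + b) / w)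
    have e1 : |(1 - a) / w - (1 - b) / w| = |a - b| / w := by
      rw [← sub_div, abs_div, abs_of_pos hw, abs_sub_comm a b]; congr 2; ring
    have e2 : |(1 + a) / w - (1 + b) / w| = |a - b| / w := by
      rw [← sub_div, abs_div, abs_of_pos hw]; congr 2; ring
    rw [e1] at h1
    rw [e2] at h2
    set p := Real.smoothTransition ((1 - a) / w)
    set p' := Real.smoothTransition ((1 - b) / w)
    set r := Real.smoothTransition ((1 + a) / w)
    set r' := Real.smoothTransition ((1 + b) / w)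
    have hr : |r| ≤ 1 := abs_le.2 ⟨by linarith only [Real.smoothTransition.nonneg ((1 + a) / w)],
      Real.smoothTransition.le_one _⟩
    have hp : |p'| ≤ 1 := abs_le.2 ⟨by linarith only [Real.smoothTransition.nonneg ((1 - b) / w)],
      Real.smoothTransition.le_one _⟩
    show |p * r - p' * r'| ≤ _
    calc |p * r - p' * r'| = |(p - p') * r + p' * (r - r')| := by congr 1; ring
      _ ≤ |p - p'| * |r| + |p'| * |r - r'| := by
          rw [← abs_mul, ← abs_mul]; exact abs_add_le _ _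
      _ ≤ |p - p'| * 1 + 1 * |r - r'| := by gcongr
      _ ≤ K * (|a - b| / w) + K * (|a - b| / w) := by linarith only [h1, h2]
      _ = 2 * K / w * |a - b| := by ring

theorem exists_h {τ : ℝ → ℝ} (hτ : ContDiff ℝ 2 τ) (h0 : ∀ y, 1 ≤ |y| → τ y = 0) :
    ∃ h : ℝ → ℝ, ContDiff ℝ 2 h ∧ (∀ x, deriv h x = τ (2 * x + 1) - τ (2 * x - 1)) ∧
      ∀ x, 1 ≤ |x| → h x = 0 := by
  have hc : Continuous τ := hτ.continuous
  set T : ℝ → ℝ := fun y => ∫ t in (0 : ℝ)..y, τ t with hT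
  have hT' : ∀ y, HasDerivAt T (τ y) y := fun y => (hc.integral_hasStrictDerivAt 0 y).hasDerivAt
  have hd : ∀ x, HasDerivAt (fun x => (T (2 * x + 1) - T (2 * x - 1)) / 2)
      (τ (2 * x + 1) - τ (2 * x - 1)) x := by
    intro x
    have a1 : HasDerivAt (fun x : ℝ => 2 * x + 1) 2 x :=
      (((hasDerivAt_id x).const_mul 2).add_const 1).congr_deriv (by simp)
    have a2 : HasDerivAt (fun x : ℝ => 2 * x - 1) 2 x :=
      (((hasDerivAt_id x).const_mul 2).sub_const 1).congr_deriv (by simp)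
    exact ((((hT' _).comp x a1).sub ((hT' _).comp x a2)).div_const 2).congr_deriv (by ring)
  refine ⟨fun x => (T (2 * x + 1) - T (2 * x - 1)) / 2, ?_, fun x => (hd x).deriv, fun x hx => ?_⟩
  · have e : deriv (fun x => (T (2 * x + 1) - T (2 * x - 1)) / 2)
        = fun x => τ (2 * x + 1) - τ (2 * x - 1) := funext fun x => (hd x).deriv
    rw [show (2 : WithTop ℕ∞) = 1 + 1 from rfl, contDiff_succ_iff_deriv]
    refine ⟨fun x => (hd x).differentiableAt, by simp, ?_⟩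
    rw [e]
    have h1 : ContDiff ℝ 1 τ := hτ.of_le (by norm_num)
    exact (h1.comp (by fun_prop)).sub (h1.comp (by fun_prop))
  · show (T (2 * x + 1) - T (2 * x - 1)) / 2 = 0
    have e : T (2 * x + 1) - T (2 * x - 1) = ∫ t in (2 * x - 1)..(2 * x + 1), τ t :=
      intervalIntegral.integral_interval_sub_left (hc.intervalIntegrable _ _)
        (hc.intervalIntegrable _ _)
    rw [e, intervalIntegral.integral_congr (g := fun _ => (0 : ℝ)) fun t ht => ?_]
    · simp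
    · rw [uIcc_of_le (by linarith only [])] at ht
      apply h0
      rcases le_abs.1 hx with h | h
      · exact le_abs.2 (Or.inl (by linarith only [ht.1, h]))
      · exact le_abs.2 (Or.inr (by linarith only [ht.2, h]))

theorem int_ge {τ : ℝ → ℝ} (hc : Continuous τ) (h01 : ∀ y, 0 ≤ τ y ∧ τ y ≤ 1) {w : ℝ}
    (hw : 0 < w) (hw1 : w ≤ 1) (h1 : ∀ y, |y| ≤ 1 - w → τ y = 1) :
    1 - w ≤ (∫ y in (-1 : ℝ)..1, τ y) / 2 := by
  have a : ∫ y in (-(1 - w))..(1 - w), τ y = 2 * (1 - w) := by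
    rw [intervalIntegral.integral_congr (g := fun _ => (1 : ℝ)) fun t ht => ?_]
    · simp; ring
    · rw [uIcc_of_le (by linarith only [hw1])] at ht
      exact h1 t (abs_le.2 ht)
  have b : ∫ y in (-(1 - w))..(1 - w), τ y ≤ ∫ y in (-1 : ℝ)..1, τ y :=
    intervalIntegral.integral_mono_interval (by linarith only [hw]) (by linarith only [hw1]) (by linarith only [hw])
      (Eventually.of_forall fun y => (h01 y).1) (hc.intervalIntegrable _ _)
  linarith only [a, b]

omit [Nonempty ι] [DecidableEq ι] in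
theorem avg_prod {Q : Bx ι} (hQ : Q.Pos) (f : ι → ℝ → ℝ) :
    (Q.avg fun x => ∏ i, f i (Q.nm x i)) = ∏ i, (∫ y in (-1 : ℝ)..1, f i y) / 2 := by
  have hsd : ∀ i, 0 < Q.sd i := fun i => sub_pos.2 (hQ i)
  unfold Bx.avg Bx.set Bx.vol
  rw [← Set.pi_univ_Icc, volume_pi, Measure.restrict_pi_pi]
  have := integral_fintype_prod_eq_prod (𝕜 := ℝ)
    (μ := fun i => (volume : Measure ℝ).restrict (Icc (Q.lo i) (Q.hi i)))
    (fun i t => f i ((2 * t - Q.lo i - Q.hi i) / Q.sd i))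
  simp only [Bx.nm]
  rw [this, ← Finset.prod_div_distrib]
  refine Finset.prod_congr rfl fun i _ => ?_
  rw [integral_Icc_eq_integral_Ioc, ← intervalIntegral.integral_of_le (hQ i).le]
  have hs := hsd i
  have e : (fun t => f i ((2 * t - Q.lo i - Q.hi i) / Q.sd i))
      = fun t => f i (2 / Q.sd i * t + (-(Q.lo i + Q.hi i) / Q.sd i)) := by
    funext t; congr 1; ring
  rw [e, intervalIntegral.integral_comp_mul_add (f i) (by positivity)]
  have e1 : 2 / Q.sd i * Q.lo i + -(Q.lo i + Q.hi i) / Q.sd i = -1 := by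
    field_simp; simp only [Bx.sd]; ring
  have e2 : 2 / Q.sd i * Q.hi i + -(Q.lo i + Q.hi i) / Q.sd i = 1 := by
    field_simp; simp only [Bx.sd]; ring
  rw [e1, e2, smul_eq_mul]
  field_simp

omit [Fintype ι] [Nonempty ι] in
theorem abs_prod_sub (s : Finset ι) (a b : ι → ℝ) (ha : ∀ i, |a i| ≤ 1) (hb : ∀ i, |b i| ≤ 1) :
    |∏ i ∈ s, a i - ∏ i ∈ s, b i| ≤ ∑ i ∈ s, |a i - b i| := by
  induction s using Finset.induction_on with
  | empty => simp
  | insert j s hj ih =>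
    rw [Finset.prod_insert hj, Finset.prod_insert hj, Finset.sum_insert hj]
    have hp : |∏ i ∈ s, a i| ≤ 1 := by
      rw [Finset.abs_prod]
      exact Finset.prod_le_one (fun i _ => abs_nonneg _) fun i _ => ha i
    calc |a j * ∏ i ∈ s, a i - b j * ∏ i ∈ s, b i|
        = |(a j - b j) * ∏ i ∈ s, a i + b j * (∏ i ∈ s, a i - ∏ i ∈ s, b i)| := by congr 1; ring
      _ ≤ |a j - b j| * |∏ i ∈ s, a i| + |b j| * |∏ i ∈ s, a i - ∏ i ∈ s, b i| := by
          rw [← abs_mul, ← abs_mul]; exact abs_add_le _ _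
      _ ≤ |a j - b j| * 1 + 1 * ∑ i ∈ s, |a i - b i| := by gcongr; exact hb j
      _ = _ := by ring

theorem nm_dist {Q : Bx ι} (hQ : Q.Two) (x x' : E ι) :
    dist (Q.nm x) (Q.nm x') ≤ 4 / Q.sc * dist x x' := by
  have h0 := (hQ.sc_bd (Classical.arbitrary ι)).1
  have := Bx.nm_lip (Q := Q) (s := Q.sc / 2) (by positivity)
    (fun i => by linarith only [(hQ.sc_bd i).2.2]) x x'
  refine this.trans (le_of_eq ?_)
  field_simp
  ring

omit [Fintype ι] [DecidableEq ι] [Nonempty ι] in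
theorem continuous_nm (Q : Bx ι) : Continuous Q.nm := by
  unfold Bx.nm
  fun_prop

theorem hs_G {Λ : ℝ} (h1 : 1 ≤ Λ) (h2 : Λ ^ (2 * Fintype.card ι) ≤ 2) {ζ : ℝ} (hζ : 0 < ζ)
    {K : ℝ} (hK : 0 ≤ K) : ∃ w : ℝ, 0 < w ∧ Fintype.card ι * w ≤ 1 / 2 ∧ ∀ τ : ℝ → ℝ,
      Continuous τ → (∀ y, 0 ≤ τ y ∧ τ y ≤ 1) → (∀ a b, |τ a - τ b| ≤ K / w * |a - b|) →
      1 - Fintype.card ι * w ≤ ((∫ y in (-1 : ℝ)..1, τ y) / 2) ^ Fintype.card ι →
      ∀ H : Bx ι, H.Two → ∀ m, hs Λ (fun x => ∏ i, τ (H.nm x i)) m H ≤ ζ := by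
  obtain ⟨C, q, hC, hq0, hq1, hl⟩ := hs_lip (ι := ι) h1 h2
  set N : ℝ := (Fintype.card ι : ℝ) with hN
  have hN1 : 1 ≤ N := by
    rw [hN]; exact_mod_cast Fintype.card_pos
  set c : ℝ := min (ζ / (8 * N)) (1 / (2 * N)) with hc
  have hc0 : 0 < c := lt_min (by positivity) (by positivity)
  have hc1 : 8 * N * c ≤ ζ := by
    have : c ≤ ζ / (8 * N) := min_le_left _ _
    rwa [le_div_iff₀ (by positivity), mul_comm] at this
  have hc2 : 2 * N * c ≤ 1 := by
    have : c ≤ 1 / (2 * N) := min_le_right _ _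
    rwa [le_div_iff₀ (by positivity), mul_comm] at this
  set D : ℝ := C * (4 * N * K / c) ^ 2 + 1 with hD
  have hD0 : 0 < D := by positivity
  obtain ⟨n, hn⟩ := exists_pow_lt_of_lt_one (x := ζ / (2 * D)) (y := (1 / 2 : ℝ))
    (by positivity) (by norm_num)
  have hp0 : (0 : ℝ) < (1 / 2) ^ n := by positivity
  have hp1 : ((1 : ℝ) / 2) ^ n ≤ 1 := pow_le_one₀ (by norm_num) (by norm_num)
  refine ⟨c * (1 / 2) ^ n, by positivity, by nlinarith only [mul_pos hc0 (zero_lt_one.trans_le hN1), hp1, hq0, hq1, hc2, hp0],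
    fun τ hτ h01 hL hμ H hH m => ?_⟩
  set w : ℝ := c * (1 / 2) ^ n with hw
  have hw0 : 0 < w := by positivity
  have hsc := (hH.sc_bd (Classical.arbitrary ι)).1
  have hGc : Continuous fun x => ∏ i, τ (H.nm x i) :=
    continuous_finsetProd _ fun i _ => hτ.comp ((continuous_apply i).comp (continuous_nm H))
  have habs : ∀ y, |τ y| ≤ 1 := fun y => abs_le.2 ⟨by linarith only [(h01 y).1, hq0, hq1], (h01 y).2⟩
  have hLip : ∀ x ∈ H.set, ∀ x' ∈ H.set, |∏ i, τ (H.nm x i) - ∏ i, τ (H.nm x' i)|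
      ≤ 4 * N * K / (w * H.sc) * dist x x' := by
    intro x _ x' _
    refine (abs_prod_sub _ _ _ (fun i => habs _) fun i => habs _).trans ?_
    have : ∀ i ∈ (Finset.univ : Finset ι), |τ (H.nm x i) - τ (H.nm x' i)|
        ≤ K / w * (4 / H.sc * dist x x') := fun i _ => (hL _ _).trans
      (mul_le_mul_of_nonneg_left ((dist_le_pi_dist (H.nm x) (H.nm x') i).trans (nm_dist hH x x'))
        (by positivity))
    refine (Finset.sum_le_card_nsmul _ _ _ this).trans (le_of_eq ?_)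
    rw [Finset.card_univ, nsmul_eq_mul, ← hN]
    field_simp
  obtain ⟨hb, hq⟩ := (hl H _ _ hH hGc (by positivity) hLip).2 1 (2 * Fintype.card ι * n) m
  have hav : (H.avg fun x => (∏ i, τ (H.nm x i) - 1) ^ 2) ≤ N * w := by
    have a1 : (H.avg fun x => (∏ i, τ (H.nm x i) - 1) ^ 2)
        ≤ H.avg fun x => 1 + (-1) * ∏ i, τ (H.nm x i) := by
      refine Bx.avg_mono hH.1 ((hGc.sub continuous_const).pow 2).continuousOn
        (continuous_const.add (continuous_const.mul hGc)).continuousOn fun x _ => ?_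
      have g0 : 0 ≤ ∏ i, τ (H.nm x i) := Finset.prod_nonneg fun i _ => (h01 _).1
      have g1 : ∏ i, τ (H.nm x i) ≤ 1 :=
        Finset.prod_le_one (fun i _ => (h01 _).1) fun i _ => (h01 _).2
      nlinarith only [hq0, hq1, g0, g1]
    rw [Bx.avg_add (g' := fun x => (-1) * ∏ i, τ (H.nm x i)) continuousOn_const
      (continuous_const.mul hGc).continuousOn, Bx.avg_const hH.1, Bx.avg_smul,
      avg_prod hH.1 fun _ => τ, Finset.prod_const, Finset.card_univ] at a1
    linarith only [hμ, a1]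
  have hΛ : Λ ^ (2 * Fintype.card ι * n) ≤ 2 ^ n := by
    rw [pow_mul]; exact pow_le_pow_left₀ (by positivity) h2 n
  have hqn : q ^ (2 * Fintype.card ι * n) ≤ ((1 / 2) ^ n) ^ 3 := by
    rw [pow_mul q, ← pow_mul (1 / 2 : ℝ), mul_comm n 3, pow_mul (1 / 2 : ℝ)]
    exact pow_le_pow_left₀ (pow_pos hq0 _).le (by linarith only [hq]) n
  have t1 : Λ ^ (2 * Fintype.card ι * n) * (4 * H.avg fun x => (∏ i, τ (H.nm x i) - 1) ^ 2)
      ≤ ζ / 2 := by
    calc _ ≤ Λ ^ (2 * Fintype.card ι * n) * (4 * (N * w)) := by gcongr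
      _ ≤ 2 ^ n * (4 * (N * w)) := by gcongr
      _ = 4 * N * c * (2 ^ n * (1 / 2) ^ n) := by rw [hw]; ring
      _ = 4 * N * c := by rw [← mul_pow]; simp
      _ ≤ ζ / 2 := by linarith only [hc1]
  have t2 : C * (4 * N * K / (w * H.sc) * H.sc) ^ 2 * q ^ (2 * Fintype.card ι * n) ≤ ζ / 2 := by
    calc _ ≤ C * (4 * N * K / (w * H.sc) * H.sc) ^ 2 * ((1 / 2) ^ n) ^ 3 := by gcongr
      _ = C * (4 * N * K / c) ^ 2 * (1 / 2) ^ n := by rw [hw]; field_simp
      _ ≤ D * (1 / 2) ^ n := by gcongr; linarith only [hq0, hq1]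
      _ ≤ D * (ζ / (2 * D)) := by gcongr
      _ = ζ / 2 := by field_simp
  linarith only [hb, t1, t2]

omit [Nonempty ι] in
theorem fderiv_prod {φ : ι → ℝ → ℝ} (hφ : ∀ i, Differentiable ℝ (φ i)) (y : E ι) :
    HasFDerivAt (fun y : E ι => ∏ i, φ i (y i))
      (∑ l, (∏ i ∈ Finset.univ.erase l, φ i (y i)) •
        (deriv (φ l) (y l) • (ContinuousLinearMap.proj l : E ι →L[ℝ] ℝ))) y :=
  HasFDerivAt.finsetProd fun l _ =>
    (hφ l (y l)).hasDerivAt.comp_hasFDerivAt y (hasFDerivAt_apply l y)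

omit [Nonempty ι] in
theorem fderiv_single {φ : ι → ℝ → ℝ} (hφ : ∀ i, Differentiable ℝ (φ i)) (y : E ι) (l : ι) :
    fderiv ℝ (fun y : E ι => ∏ i, φ i (y i)) y (Pi.single l 1)
      = ∏ i, Function.update φ l (deriv (φ l)) i (y i) := by
  rw [(fderiv_prod hφ y).fderiv, sum_apply, Finset.sum_eq_single l,
    ← Finset.mul_prod_erase _ _ (Finset.mem_univ l)]
  · simp only [smul_apply, ContinuousLinearMap.proj_apply, Pi.single_eq_same,
      smul_eq_mul, Function.update_self, mul_one]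
    rw [mul_comm]
    congr 1
    exact Finset.prod_congr rfl fun i hi => by
      rw [Function.update_of_ne (Finset.ne_of_mem_erase hi)]
  · intro b _ hb
    simp [Pi.single_eq_of_ne hb]
  · simp

omit [Nonempty ι] in
theorem prod_zero {φ : ι → ℝ → ℝ} (hφ : ∀ i, Differentiable ℝ (φ i))
    (h0 : ∀ i y, 1 ≤ |y| → φ i y = 0 ∧ deriv (φ i) y = 0) {y : E ι} (hy : 1 ≤ ‖y‖) :
    ∏ i, φ i (y i) = 0 ∧ fderiv ℝ (fun y : E ι => ∏ i, φ i (y i)) y = 0 := by
  obtain ⟨i, hi⟩ : ∃ i, 1 ≤ |y i| := by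
    by_contra hc
    push Not at hc
    exact absurd ((pi_norm_lt_iff zero_lt_one).2 hc) (not_lt.2 hy)
  refine ⟨Finset.prod_eq_zero (Finset.mem_univ i) (h0 i _ hi).1, ?_⟩
  rw [(fderiv_prod hφ y).fderiv]
  refine Finset.sum_eq_zero fun l _ => ?_
  by_cases hl : i = l
  · subst hl
    rw [(h0 i _ hi).2, zero_smul, smul_zero]
  · rw [Finset.prod_eq_zero (Finset.mem_erase.2 ⟨hl, Finset.mem_univ i⟩) (h0 i _ hi).1, zero_smul]

omit [Nonempty ι] in
theorem prod_bd {φ : ι → ℝ → ℝ} (hφ : ∀ i, ContDiff ℝ 2 (φ i))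
    (h0 : ∀ i y, 1 ≤ |y| → φ i y = 0 ∧ deriv (φ i) y = 0) :
    ∃ M : ℝ, 0 ≤ M ∧ Continuous (fderiv ℝ fun y : E ι => ∏ i, φ i (y i)) ∧
      (∀ y, ‖fderiv ℝ (fun y : E ι => ∏ i, φ i (y i)) y‖ ≤ M) ∧
      ∀ y y', ‖fderiv ℝ (fun y : E ι => ∏ i, φ i (y i)) y
        - fderiv ℝ (fun y : E ι => ∏ i, φ i (y i)) y'‖ ≤ M * dist y y' := by
  have hB : ContDiff ℝ 2 fun y : E ι => ∏ i, φ i (y i) :=
    contDiff_prod fun i _ => (hφ i).comp (contDiff_apply ℝ ℝ i)
  have hD : ContDiff ℝ 1 (fderiv ℝ fun y : E ι => ∏ i, φ i (y i)) :=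
    hB.fderiv_right (by norm_num)
  have hc : HasCompactSupport (fderiv ℝ fun y : E ι => ∏ i, φ i (y i)) := by
    refine HasCompactSupport.intro (isCompact_closedBall 0 1) fun y hy => ?_
    refine (prod_zero (fun i => (hφ i).differentiable (by norm_num)) h0 ?_).2
    rw [mem_closedBall_zero_iff, not_le] at hy
    exact hy.le
  obtain ⟨C, hC⟩ := hc.exists_bound_of_continuous hD.continuous
  obtain ⟨L, hL⟩ := hD.lipschitzWith_of_hasCompactSupport hc (by norm_num)
  refine ⟨max C L, le_max_of_le_right L.2, hD.continuous, fun y => (hC y).trans (le_max_left _ _),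
    fun y y' => ?_⟩
  rw [← dist_eq_norm]
  exact (hL.dist_le_mul y y').trans (mul_le_mul_of_nonneg_right (le_max_right _ _) dist_nonneg)

/-- The derivative of the chart. -/
noncomputable def dn (Q : Bx ι) : E ι →L[ℝ] E ι :=
  ContinuousLinearMap.pi fun i => (2 / Q.sd i) • ContinuousLinearMap.proj i

omit [DecidableEq ι] [Nonempty ι] in
theorem hasFDerivAt_nm (Q : Bx ι) (x : E ι) : HasFDerivAt Q.nm (dn Q) x := by
  refine hasFDerivAt_pi.2 fun i => ?_
  have := ((((hasFDerivAt_apply (𝕜 := ℝ) i x).const_mul 2).sub_const (Q.lo i)).sub_const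
    (Q.hi i)).mul_const (Q.sd i)⁻¹
  refine HasFDerivAt.congr_fderiv (f := fun x : E ι => (2 * x i - Q.lo i - Q.hi i) / Q.sd i)
    (by simpa only [div_eq_mul_inv] using this) ?_
  ext v
  simp only [smul_apply, ContinuousLinearMap.proj_apply, smul_eq_mul]
  ring

omit [Fintype ι] [Nonempty ι] in
theorem dn_single (Q : Bx ι) (l : ι) : dn Q (Pi.single l 1) = (2 / Q.sd l) • Pi.single l 1 := by
  funext i
  by_cases h : i = l
  · subst h; simp [dn]
  · simp [dn, Pi.single_eq_of_ne h]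

theorem norm_dn {Q : Bx ι} (hQ : Q.Two) : ‖dn Q‖ ≤ 4 / Q.sc := by
  have h0 := (hQ.sc_bd (Classical.arbitrary ι)).1
  refine ContinuousLinearMap.opNorm_le_bound _ (by positivity) fun v => ?_
  refine (pi_norm_le_iff_of_nonneg (by positivity)).2 fun i => ?_
  have hs : 0 < Q.sd i := sub_pos.2 (hQ.1 i)
  have e : dn Q v i = 2 / Q.sd i * v i := by simp [dn]
  rw [e, norm_mul, Real.norm_of_nonneg (by positivity)]
  refine mul_le_mul ?_ (norm_le_pi_norm v i) (norm_nonneg _) (by positivity)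
  rw [div_le_div_iff₀ hs h0]
  linarith only [(hQ.sc_bd i).2.2]

omit [Fintype ι] [Nonempty ι] in
theorem nm_L {Q : Bx ι} (hQ : Q.Pos) (j i : ι) (x : E ι) :
    (Q.L j).nm x i = if i = j then 2 * Q.nm x j + 1 else Q.nm x i := by
  split_ifs with h
  · subst h
    have : Q.hi i - Q.lo i ≠ 0 := (sub_pos.2 (hQ i)).ne'
    have h' : (Q.lo i + Q.hi i) / 2 - Q.lo i = (Q.hi i - Q.lo i) / 2 := by ring
    simp only [Bx.nm, Bx.L, Bx.sd, Bx.mid, Function.update_self, h']
    field_simp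
    ring
  · simp only [Bx.nm, Bx.L, Bx.sd, Function.update_of_ne h]

omit [Fintype ι] [Nonempty ι] in
theorem nm_R {Q : Bx ι} (hQ : Q.Pos) (j i : ι) (x : E ι) :
    (Q.R j).nm x i = if i = j then 2 * Q.nm x j - 1 else Q.nm x i := by
  split_ifs with h
  · subst h
    have : Q.hi i - Q.lo i ≠ 0 := (sub_pos.2 (hQ i)).ne'
    have h' : Q.hi i - (Q.lo i + Q.hi i) / 2 = (Q.hi i - Q.lo i) / 2 := by ring
    simp only [Bx.nm, Bx.R, Bx.sd, Bx.mid, Function.update_self, h']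
    field_simp
    ring
  · simp only [Bx.nm, Bx.R, Bx.sd, Function.update_of_ne h]

end FB

open FB in
theorem exists_bump {Λ : ℝ} (h1 : 1 ≤ Λ) (h2 : Λ ^ (2 * Fintype.card ι) ≤ 2) {ζ : ℝ}
    (hζ : 0 < ζ) : ∃ Cb : ℝ, 1 ≤ Cb ∧ ∀ Q : Bx ι, Q.Two →
      ∃ (b : E ι → E ι) (Db : E ι → E ι →L[ℝ] E ι), (∀ x, HasFDerivAt b (Db x) x) ∧
        Continuous Db ∧ (∀ x, x ∉ Q.set ∨ x ∈ Q.bd → b x = 0 ∧ Db x = 0) ∧
        (∀ x, ‖Db x‖ ≤ Cb) ∧ (∀ x x', ‖Db x - Db x'‖ ≤ Cb / Q.sc * dist x x') ∧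
        (∀ i l, (Q.avg fun x => Db x (Pi.single l 1) i) = 0) ∧
        ((Q.L Q.sj).avg fun x => ∑ i, Db x (Pi.single i 1) i)
          - ((Q.R Q.sj).avg fun x => ∑ i, Db x (Pi.single i 1) i) = 1 ∧
        ∀ m, hs Λ (fun x => ∑ i, Db x (Pi.single i 1) i) m (Q.L Q.sj) ≤ ζ ∧
          hs Λ (fun x => ∑ i, Db x (Pi.single i 1) i) m (Q.R Q.sj) ≤ ζ := by
  obtain ⟨K, hK, hτ⟩ := exists_tau
  obtain ⟨w, hw, hwN, hG⟩ := hs_G (ι := ι) h1 h2 hζ hK
  obtain ⟨τ, hτ2, h01, hτ0, hτ1, hτL⟩ := hτ w hw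
  obtain ⟨h, hh2, hh', hh0⟩ := exists_h hτ2 hτ0
  have hN1 : (1 : ℝ) ≤ Fintype.card ι := by exact_mod_cast Fintype.card_pos
  have hw1 : w ≤ 1 := by nlinarith only [hwN, hN1]
  set μ : ℝ := ((∫ y in (-1 : ℝ)..1, τ y) / 2) ^ Fintype.card ι with hμ
  have hμ1 : 1 - Fintype.card ι * w ≤ μ := by
    have a := one_add_mul_le_pow (a := -w) (by linarith only [hw1]) (Fintype.card ι)
    have b := pow_le_pow_left₀ (by linarith only [hw1]) (int_ge hτ2.continuous h01 hw hw1 hτ1)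
      (Fintype.card ι)
    rw [← sub_eq_add_neg] at a
    linarith only [a, b]
  have hμ2 : 1 / 2 ≤ μ := by linarith only [hwN, hμ1]
  have hG' := hG τ hτ2.continuous h01 hτL hμ1
  set φ : ι → ι → ℝ → ℝ := fun j => Function.update (fun _ => τ) j h with hφ
  have hφ2 : ∀ j i, ContDiff ℝ 2 (φ j i) := by
    intro j i
    by_cases hi : i = j
    · subst hi; simpa [hφ] using hh2
    · simpa [hφ, Function.update_of_ne hi] using hτ2
  have hφd : ∀ j i, Differentiable ℝ (φ j i) := fun j i => (hφ2 j i).differentiable (by norm_num)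
  have hφ0 : ∀ j i y, 1 ≤ |y| → φ j i y = 0 ∧ deriv (φ j i) y = 0 := by
    intro j i y hy
    by_cases hi : i = j
    · subst hi
      simp only [hφ, Function.update_self]
      refine ⟨hh0 y hy, ?_⟩
      rw [hh', hτ0, hτ0, sub_self]
      · rcases le_abs.1 hy with h | h
        · exact le_abs.2 (Or.inl (by linarith only [h]))
        · exact le_abs.2 (Or.inr (by linarith only [h]))
      · rcases le_abs.1 hy with h | h
        · exact le_abs.2 (Or.inl (by linarith only [h]))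
        · exact le_abs.2 (Or.inr (by linarith only [h]))
    · simp only [hφ, Function.update_of_ne hi]
      refine ⟨hτ0 y hy, IsLocalMin.deriv_eq_zero (Eventually.of_forall fun z => ?_)⟩
      rw [hτ0 y hy]
      exact (h01 z).1
  choose M hM0 hMc hMb hML using fun j => prod_bd (hφ2 j) (hφ0 j)
  set B : ι → E ι → ℝ := fun j y => ∏ i, φ j i (y i) with hB
  have hMs : ∀ j, M j ≤ ∑ j, M j := fun j =>
    Finset.single_le_sum (fun i _ => hM0 i) (Finset.mem_univ j)
  set A : ℝ := 1 / (4 * μ) with hA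
  have hA0 : 0 < A := by positivity
  have hA1 : A ≤ 1 / 2 := by
    rw [hA, div_le_div_iff₀ (by positivity) (by positivity)]; linarith only [hwN, hμ1]
  refine ⟨max 1 (16 * ∑ j, M j), le_max_left _ _, fun Q hQ => ?_⟩
  set j := Q.sj with hj
  obtain ⟨hsc, hsd1, -⟩ := hQ.sc_bd j
  have hsd : ∀ i, 0 < Q.sd i := fun i => sub_pos.2 (hQ.1 i)
  set T : (E ι →L[ℝ] ℝ) → E ι →L[ℝ] E ι := fun g =>
    (A * Q.sd j) • (g.comp (dn Q)).smulRight (Pi.single j (1 : ℝ) : E ι) with hT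
  have hTn : ∀ g, ‖T g‖ ≤ 4 * ‖g‖ := by
    intro g
    have a : ‖g.comp (dn Q)‖ ≤ ‖g‖ * (4 / Q.sc) :=
      (g.opNorm_comp_le _).trans (mul_le_mul_of_nonneg_left (norm_dn hQ) (norm_nonneg _))
    have hs := hsd j
    simp only [hT]
    rw [norm_smul, ContinuousLinearMap.norm_smulRight_apply, Pi.norm_single, norm_one, mul_one,
      Real.norm_of_nonneg (by positivity)]
    calc A * Q.sd j * ‖g.comp (dn Q)‖ ≤ 1 / 2 * (2 * Q.sc) * (‖g‖ * (4 / Q.sc)) := by gcongr
      _ = 4 * ‖g‖ := by field_simp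
  have hTs : ∀ g g', T g - T g' = T (g - g') := by
    intro g g'
    ext v i
    simp only [hT, sub_apply, smul_apply, ContinuousLinearMap.smulRight_apply,
      ContinuousLinearMap.comp_apply, Pi.sub_apply, Pi.smul_apply, smul_eq_mul]
    ring
  have hTe : ∀ g l i, T g (Pi.single l 1) i
      = if i = j then A * Q.sd j * (2 / Q.sd l) * g (Pi.single l 1) else 0 := by
    intro g l i
    simp only [hT, smul_apply, ContinuousLinearMap.smulRight_apply,
      ContinuousLinearMap.comp_apply, dn_single, map_smul, Pi.smul_apply, smul_eq_mul]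
    split_ifs with hi
    · subst hi; simp only [Pi.single_eq_same]; ring
    · simp [Pi.single_eq_of_ne hi]
  have hdiv : ∀ x, ∑ i, T (fderiv ℝ (B j) (Q.nm x)) (Pi.single i 1) i
      = 2 * A * ((τ (2 * Q.nm x j + 1) - τ (2 * Q.nm x j - 1))
        * ∏ i ∈ Finset.univ.erase j, τ (Q.nm x i)) := by
    intro x
    simp only [hTe]
    rw [Finset.sum_ite_eq' Finset.univ j, if_pos (Finset.mem_univ j), hB, fderiv_single (hφd j),
      ← Finset.mul_prod_erase _ _ (Finset.mem_univ j), Function.update_self]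
    have e1 : φ j j = h := by simp [hφ]
    have e2 : ∏ i ∈ Finset.univ.erase j, Function.update (φ j) j (deriv (φ j j)) i (Q.nm x i)
        = ∏ i ∈ Finset.univ.erase j, τ (Q.nm x i) := Finset.prod_congr rfl fun i hi => by
      simp only [hφ, Function.update_of_ne (Finset.ne_of_mem_erase hi)]
    rw [e2, e1, hh']
    have := hsd j
    field_simp
  have hcoord : ∀ {H : Bx ι}, H.Pos → ∀ x ∈ H.set, ∀ i, |H.nm x i| ≤ 1 := fun hH x hx i =>
    (norm_le_pi_norm _ i).trans (hH.nm_mem.1 hx)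
  have hL : EqOn (fun x => ∑ i, T (fderiv ℝ (B j) (Q.nm x)) (Pi.single i 1) i)
      (fun x => 2 * A * ∏ i, τ ((Q.L j).nm x i)) (Q.L j).set := by
    intro x hx
    have a := hcoord (hQ.1.L j) x hx j
    rw [nm_L hQ.1, if_pos rfl] at a
    beta_reduce
    rw [hdiv, hτ0 (2 * Q.nm x j - 1) (le_abs.2 (Or.inr (by linarith only [(abs_le.1 a).2, a]))), sub_zero,
      ← Finset.mul_prod_erase _ _ (Finset.mem_univ j), nm_L hQ.1, if_pos rfl]
    congr 2
    exact Finset.prod_congr rfl fun i hi => by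
      rw [nm_L hQ.1, if_neg (Finset.ne_of_mem_erase hi)]
  have hR : EqOn (fun x => ∑ i, T (fderiv ℝ (B j) (Q.nm x)) (Pi.single i 1) i)
      (fun x => -(2 * A) * ∏ i, τ ((Q.R j).nm x i)) (Q.R j).set := by
    intro x hx
    have a := hcoord (hQ.1.R j) x hx j
    rw [nm_R hQ.1, if_pos rfl] at a
    beta_reduce
    rw [hdiv, hτ0 (2 * Q.nm x j + 1) (le_abs.2 (Or.inl (by linarith only [(abs_le.1 a).1, a]))), zero_sub,
      ← Finset.mul_prod_erase _ _ (Finset.mem_univ j), nm_R hQ.1, if_pos rfl]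
    have e : ∏ i ∈ Finset.univ.erase j, τ ((Q.R j).nm x i)
        = ∏ i ∈ Finset.univ.erase j, τ (Q.nm x i) := Finset.prod_congr rfl fun i hi => by
      rw [nm_R hQ.1, if_neg (Finset.ne_of_mem_erase hi)]
    rw [e]
    ring
  refine ⟨fun x => (A * Q.sd j) • (B j (Q.nm x) • (Pi.single j (1 : ℝ) : E ι)),
    fun x => T (fderiv ℝ (B j) (Q.nm x)), fun x => ?_, ?_, fun x hx => ?_, fun x => ?_,
    fun x x' => ?_, fun i l => ?_, ?_, fun m => ⟨?_, ?_⟩⟩
  · have a : HasFDerivAt (B j) (fderiv ℝ (B j) (Q.nm x)) (Q.nm x) :=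
      (fderiv_prod (hφd j) _).differentiableAt.hasFDerivAt
    exact ((a.comp x (hasFDerivAt_nm Q x)).smul_const (Pi.single j (1 : ℝ) : E ι)).const_smul
      (A * Q.sd j)
  · have hTc : Continuous T := by
      refine (LipschitzWith.of_dist_le_mul (K := 4) fun g g' => ?_).continuous
      rw [dist_eq_norm, dist_eq_norm, hTs]
      exact hTn _
    exact hTc.comp ((hMc j).comp (continuous_nm Q))
  · have hx' : 1 ≤ ‖Q.nm x‖ := by
      rcases hx with hx | hx
      · rw [hQ.1.nm_mem, not_le] at hx; exact hx.le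
      · exact (hQ.1.nm_mem_bd.1 hx).ge
    obtain ⟨a, b⟩ := prod_zero (hφd j) (hφ0 j) hx'
    refine ⟨?_, ?_⟩
    · show (A * Q.sd j) • ((∏ i, φ j i (Q.nm x i)) • (Pi.single j (1 : ℝ) : E ι)) = 0
      rw [a, zero_smul, smul_zero]
    · have := hTn (fderiv ℝ (B j) (Q.nm x))
      rw [show fderiv ℝ (B j) (Q.nm x) = 0 from b, norm_zero, mul_zero] at this
      beta_reduce
      rw [show fderiv ℝ (B j) (Q.nm x) = 0 from b]
      exact norm_le_zero_iff.1 this
  · refine (hTn _).trans (le_max_of_le_right ?_)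
    have := hMb j (Q.nm x)
    linarith only [hMs j, hM0 j, this]
  · rw [hTs]
    refine (hTn _).trans ?_
    have a := (hML j (Q.nm x) (Q.nm x')).trans
      (mul_le_mul (hMs j) (nm_dist hQ x x') dist_nonneg ((hM0 j).trans (hMs j)))
    calc _ ≤ 4 * ((∑ j, M j) * (4 / Q.sc * dist x x')) := by linarith only [a]
      _ = 16 * (∑ j, M j) / Q.sc * dist x x' := by ring
      _ ≤ _ := by gcongr; exact le_max_right _ _
  · simp only [hTe]
    split_ifs with hi
    · rw [Bx.avg_smul]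
      simp only [hB, fderiv_single (hφd j)]
      rw [avg_prod hQ.1, Finset.prod_eq_zero (Finset.mem_univ l), mul_zero]
      rw [Function.update_self, intervalIntegral.integral_deriv_eq_sub (fun y _ => hφd j l y)
        (((hφ2 j l).continuous_deriv (by norm_num)).intervalIntegrable _ _),
        (hφ0 j l 1 (by simp)).1, (hφ0 j l (-1) (by simp)).1]
      simp
    · exact Bx.avg_const hQ.1 0
  · rw [Bx.avg_congr hL, Bx.avg_congr hR, Bx.avg_smul, Bx.avg_smul,
      avg_prod (hQ.1.L j) fun _ => τ, avg_prod (hQ.1.R j) fun _ => τ, Finset.prod_const,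
      Finset.card_univ, ← hμ, hA]
    field_simp
    ring
  · rw [hs_congr m (hQ.1.L j) hL, hs_smul]
    have a := hG' _ hQ.L m
    have b := hs_nonneg (zero_le_one.trans h1) (fun x => ∏ i, τ ((Q.L j).nm x i)) m (Q.L j)
    have c : (2 * A) ^ 2 ≤ 1 := by nlinarith only [hA1, hA0]
    nlinarith only [a, hζ, c]
  · rw [hs_congr m (hQ.1.R j) hR, hs_smul]
    have a := hG' _ hQ.R m
    have b := hs_nonneg (zero_le_one.trans h1) (fun x => ∏ i, τ ((Q.R j).nm x i)) m (Q.R j)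
    have c : (-(2 * A)) ^ 2 ≤ 1 := by nlinarith only [hA1, hA0]
    nlinarith only [a, hζ, c]

end Pool.Agent.Lib.MP_ecd4e3_gt.NB
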