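import Pool.Agent.Lib.MP_ecd4e3_gt.NB.LNum
import Pool.Agent.Lib.MP_ecd4e3_gt.NB.LOpB
import Pool.Agent.Lib.MP_ecd4e3_gt.NB.Rec

/-! The static tree. -/

namespace Pool.Agent.Lib.MP_ecd4e3_gt.NB

open Set Filter Topology Metric MeasureTheory
open scoped NNReal ENNReal

variable {ι : Type} [Fintype ι] [DecidableEq ι] [Nonempty ι] {Y : Type} [MetricSpace Y]

theorem lt_gs_mono {T X : Type} [MetricSpace T] [MetricSpace X] {U W S : Set Y} {J : Set T}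
    {R B : Set X} {β Z : T × X → Y} {a b c a' b' c' : ℝ}
    (h : Sol U (pbP J R B β S (gs a b) c) W Z) (ha : a ≤ a') (hb : b ≤ b') :
    Sol U (pbP J R B β S (gs a' b') c') W Z := by
  refine h.mono rfl Subset.rfl (fun _ _ => Ap.rfl) (fun _ _ _ => Iff.rfl)
    (fun z _ => Eventually.of_forall fun z' => ?_) Subset.rfl
  show a * _ + b * _ ≤ a' * _ + b' * _
  gcongr

omit [Nonempty ι] in
/-- An unfoldable reduction with the children taken from a family. -/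
theorem LOp.reindex {I J : Type} {U : Set Y} {p : PS ι Y} {ps : I → PS ι Y} (c : J → I)
    {m : J → E ι → E ι} {A : ℝ} (h : LOp U p (fun j => ps (c j)) m A) :
    ∃ G : (I → Unit × E ι → Y) → Unit × E ι → Y,
      IsRed U (fun σ => (ps σ).pb) p.pb (range c) G ∧
      ∀ (F : I → Unit × E ι → Y) (X : Unit × E ι → Y), (∀ j, Sol U (ps (c j)).pb univ (F (c j))) →
        Sol U p.pb univ X → (∀ z, Ap U (X z) (G F z)) →
        ∃ H, Sol U (pbM p.β p.S A) univ H ∧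
          (∀ z ∈ p.R.set, Ap U (H (0, p.R.th z)) (X ((), z))) ∧
          ∀ j, ∀ z ∈ (ps (c j)).R.set, Ap U (H (1, m j ((ps (c j)).R.th z))) (F (c j) ((), z)) := by
  obtain ⟨G, ⟨h1, h2⟩, h3⟩ := h
  refine ⟨fun F => G fun j => F (c j), ⟨fun z => ?_, fun o F hF => ?_⟩, fun F X hF hX he => ?_⟩
  · rcases h1 z with ⟨y, hy⟩ | ⟨j, -, z', φ, hφ, hy⟩
    · exact Or.inl ⟨y, fun F => hy _⟩
    · exact Or.inr ⟨c j, mem_range_self j, z', φ, hφ, fun F => hy _⟩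
  · exact h2 o _ fun j _ => hF (c j) (mem_range_self j)
  · exact h3 _ X hF hX fun z _ => he _

namespace LE

/-- The Lipschitz constant of the filling inside the layer. -/
noncomputable def ltA (L : LE ι Y) (rs : ℤ → Bx ι → ℝ) (k : ℤ) (G : Bx ι) : ℝ :=
  if L.a G < 0 then rs k G else 2 ^ k / 2

/-- The depth budget of the filling inside the layer. -/
noncomputable def ltC (L : LE ι Y) (G : Bx ι) : ℝ := if L.a G < 0 then cR (L.a G) else 1 / 2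

/-- The filling inside the layer. -/
noncomputable def ltZ (L : LE ι Y) (rt : ℤ → Bx ι → LS ι) (rs : ℤ → Bx ι → ℝ)
    (F : LS ι → Unit × E ι → Y) (k : ℤ) (G : Bx ι) (x : E ι) : Y :=
  if L.a G < 0 then F (rt k G) ((), (cubeC 0 (rs k G)).af x) else L.e (G.af x)

/-- The problem inside the layer. -/
noncomputable def ltP (L : LE ι Y) (k : ℤ) (G : Bx ι) (a : ℝ) : Pb Unit (E ι) Y :=
  pbP univ (closedBall 0 1) (sphere 0 1) (fun z => L.P k (L.tm (L.top G), G.af z.2))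
    (L.e '' G.set) (gs a 0) (L.ltC G)

/-- The layer operator of a cube. -/
structure LtN (L : LE ι Y) (k : ℤ) (G : Bx ι) (Nf : (E ι → Y) → ℝ × E ι → Y) : Prop where
  pw : ∀ z, (∃ y, ∀ Z, Nf Z z = y) ∨
    ∃ (x : E ι) (φ : Y → Y), (∀ y, φ y ∈ L.U ↔ y ∈ L.U) ∧ ∀ Z, Nf Z z = φ (Z x)
  sol : ∀ (o : Option ℝ≥0) (a : ℝ) (Z : E ι → Y), 0 ≤ a →
    Sol L.U (L.ltP k G a) (Wo L.U (L.ltC G) o) (fun z => Z z.2) →
    Sol L.U (pbP (Icc (L.B ^ (L.a G - 1)) (L.tm (L.top G))) G.set G.bd (L.P k) (L.e '' G.set)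
      (gs (50 * L.K * L.tm (L.top G) + 8 * a / 2 ^ k) (2 * L.K * 2 ^ k)) (cN (L.a G)))
      (Wo L.U (cN (L.a G)) o) (Nf Z)
  froz : ∀ (Z : E ι → Y) (i : ℤ) (t t' : ℝ), t ∈ Icc (L.B ^ (L.a G - 1)) (L.tm (L.top G)) →
    t' ∈ Icc (L.B ^ (L.a G - 1)) (L.tm (L.top G)) → t ∈ Icc (L.B ^ i * L.u) (L.B ^ (i + 1)) →
    t' ∈ Icc (L.B ^ i * L.u) (L.B ^ (i + 1)) → ∀ x ∈ G.set, Ap L.U (Nf Z (t, x)) (Nf Z (t', x))
  unf : ∀ (a : ℝ) (Z : E ι → Y), 0 ≤ a → Sol L.U (L.ltP k G a) univ (fun z => Z z.2) →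
    ∃ H, Sol L.U (pbM (fun x => L.P k (L.tm (L.top G), G.af x)) (L.e '' G.set)
        (25 * (50 * L.K * L.tm (L.top G) * 2 ^ k + 8 * a))) univ H ∧
      ∀ x ∈ closedBall (0 : E ι) 1, Ap L.U (H (0, x)) (Nf Z (L.tm (L.top G), G.af x)) ∧
        Ap L.U (H (1, x)) (Z x)

open Classical in
/-- The rank of a state. -/
noncomputable def ltM (L : LE ι Y) (σ : LS ι) : ℤ :=
  4 * lev σ.k σ.Q + if σ.ty ≤ 1 ∧ Cube σ.k σ.Q ∧ L.a σ.Q = σ.i + 1 then 3 else σ.ty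

variable {L : LE ι Y} {f C : ℝ} {V : Set (LS ι)} {rt : ℤ → Bx ι → LS ι} {rs : ℤ → Bx ι → ℝ}

theorem OK.lt_pow (h : L.OK) {i j : ℤ} (hij : i ≤ j) : L.B ^ i ≤ L.B ^ j :=
  zpow_le_zpow_right₀ (by linarith only [h.pB]) hij

theorem OK.lt_pos (h : L.OK) (i : ℤ) : 0 < L.B ^ i := zpow_pos (by linarith only [h.pB]) i

theorem OK.lt_C (h : L.OK) {k : ℤ} {G : Bx ι} (hk : L.ok k) (hG : Cube k G) :
    0 < L.ltC G ∧ L.ltC G < cN (L.a G) := by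
  unfold ltC
  split_ifs with ha
  · exact ⟨by linarith only [(cR_bd ha).1, (cN_bd (show L.a G + 1 ≤ 0 by omega)).1, ha], (cR_bd ha).2⟩
  · exact ⟨by norm_num, by linarith only [(cN_bd (h.a0 k G hk hG)).1]⟩

theorem OK.exists_ltN (h : L.OK) {k : ℤ} {G : Bx ι} (hk : L.ok k) (hG : Cube k G) :
    ∃ Nf, L.LtN k G Nf := by
  obtain ⟨c1, c2⟩ := h.lt_C hk hG
  have h1 : L.B ^ (L.a G - 1) ≤ L.tm (L.top G) :=
    (h.lt_pow (by linarith only [(h.top_bd hk hG).1])).trans (h.tm_bd _).1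
  have h2 : 0 < cN (L.a G) / L.ltC G - 1 := by
    rw [sub_pos, one_lt_div c1]
    exact c2
  obtain ⟨Nf, n1, n2, n3, n4⟩ := n_op h.hU h.hne h.he h.bd hk hG (h.hlo k G hk hG) h1 h2
  refine ⟨Nf, n1, fun o a Z ha hZ => n2 o a _ _ Z ha c1 (le_of_eq ?_) hZ, n3,
    fun a Z ha hZ => n4 a _ Z ha hZ⟩
  field_simp
  ring

theorem PT.lt_A (h : L.OK) (hC : 1 ≤ C) (hp : L.PT f C V rt rs) {k : ℤ} {G : Bx ι} (hk : L.ok k)
    (hG : Cube k G) : 0 ≤ L.ltA rs k G ∧ L.ltA rs k G ≤ C * L.B ^ L.top G * 2 ^ k := by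
  unfold ltA top
  split_ifs with ha
  · obtain ⟨-, -, -, -, -, -, -, r1, r2⟩ := hp.root k G hk hG ha
    exact ⟨r1.le, r2⟩
  · have h1 : 1 ≤ L.B ^ L.T := by simpa using h.lt_pow h.pT
    have h2 : (0 : ℝ) < 2 ^ k := by positivity
    refine ⟨by positivity, ?_⟩
    nlinarith only [mul_le_mul hC h1 zero_le_one (by linarith only [hC]), h2, hC, h1]

theorem PT.lt_Z (h : L.OK) (hf : 0 < f) (hf' : f ≤ 1 / 16) (hp : L.PT f C V rt rs) {k : ℤ}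
    {G : Bx ι} (hk : L.ok k) (hG : Cube k G) {W : Set Y} {F : LS ι → Unit × E ι → Y}
    (hF : L.a G < 0 → Sol L.U (L.ps (rt k G)).pb W (F (rt k G))) :
    Sol L.U (L.ltP k G (L.ltA rs k G)) W fun z => L.ltZ rt rs F k G z.2 := by
  unfold ltP ltA ltZ top
  by_cases ha : L.a G < 0
  · simp only [if_pos ha]
    obtain ⟨-, r1, r2, r3, -, r5, r6, r7, -⟩ := hp.root k G hk hG ha
    obtain ⟨q1, -, -, -, -, -, -, q8, -⟩ := cubeC_valid hf hf' (0 : E ι) r7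
    have h1 := hF ha
    unfold LE.ps PS.pb psB pbS at h1
    simp only [r1, r2, r3, r5, r6, Bx.gb_th] at h1
    have c1 : 0 ≤ cR (L.a G) := by
      linarith only [(cR_bd ha).1, (cN_bd (show L.a G + 1 ≤ 0 by omega)).1, hf, hf', ha, r1]
    have c2 : cR (L.a G) ≤ 2 := by linarith only [(cR_bd ha).2, (cN_bd ha.le).2, ha]
    refine h1.chart c1 (φ := (cubeC 0 (rs k G)).af) (by rw [Bx.gb_set]; exact q1.bijOn_af)
      (fun x hx => ?_)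
      (L := rs k G / 2) (fun x _ x' _ => Bx.af_lip q1 r7.le (fun i => (q8 i).le) x x')
      (fun x _ => ?_) (by nlinarith only [hf, hf', r7, c2])
      ⟨2 / rs k G, fun x _ x' _ => by
        have := Bx.nm_lip r7 (fun i => (q8 i).ge) ((cubeC 0 (rs k G)).af x)
          ((cubeC 0 (rs k G)).af x')
        rwa [q1.nm_af, q1.nm_af] at this⟩
    · have hx' : ‖x‖ = 1 := by simpa using hx
      refine ⟨by rw [Bx.gb_set]; exact q1.af_mem.2 hx'.le, ?_⟩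
      rw [Bx.gb_th, q1.nm_af, hx']
    · simp only [q1.nm_af]
      exact Ap.rfl
  · simp only [if_neg ha]
    have q1 := hG.lb.pos
    refine sol_of_bij (fun _ _ => ?_) (fun _ _ x hx => ?_) (fun z _ z' _ => ?_)
      fun _ _ _ => Dm.toR ((Dm.refl.uniso h.he).unaf q1)
    · exact (h.he.injective.injOn.bijOn_image).comp q1.bijOn_af
    · exact (h.bd.idn k G _ hk hG (h.tm_bd _).1 _ (q1.af_mem_bd.2 (by simpa using hx))).symm
    · rw [h.he.dist_eq]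
      have := Bx.af_lip q1 (S := 2 ^ k) (by positivity)
        (fun i => le_of_eq (by rw [Bx.sd, (hG i).2]; ring)) z'.2 z.2
      simpa [gs] using this

theorem PT.lt_wf (h : L.OK) (hp : L.PT f C V rt rs) {σ : LS ι} (hσ : σ ∈ V) :
    (L.ps σ).pb.WF L.U := by
  obtain ⟨-, b2, b3, b4, -, b6, -⟩ := hp.base σ hσ
  refine ⟨fun z hz => ⟨hz.1, hz.2.1⟩, fun z hz hU => ⟨mem_univ _, ?_⟩, zero_lt_one.trans_le b6⟩
  have h1 : σ.Q.af (σ.R.th z.2) ∈ σ.Q.bd := b3.lb.pos.af_mem_bd.2 hz.2.2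
  obtain ⟨x, hx, e, -⟩ := h.bd.img b2 b3.lb (h.anc_lo b2 b4 (h.tm_bd σ.i).1)
    (σ.Q.bd_subset h1) (b3.lb.bd_sk h1) hU
  exact ⟨x, hx, e.symm⟩

/-- The reduction at a state of type two. -/
theorem PT.lt_two (h : L.OK) (hf : 0 < f) (hf' : f ≤ 1 / 16) (hC : 1 ≤ C)
    (hp : L.PT f C V rt rs) {σ : LS ι} (hσ : σ ∈ V) (h2 : σ.ty = 2)
    {Nf : (E ι → Y) → ℝ × E ι → Y} (hN : L.LtN σ.k σ.Q Nf) :
    IsRed L.U (fun σ => (L.ps σ).pb) (L.ps σ).pb {q | L.a σ.Q < 0 ∧ q = rt σ.k σ.Q}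
      fun F z => Nf (L.ltZ rt rs F σ.k σ.Q) (L.tm σ.i, σ.Q.af (σ.R.th z.2)) := by
  obtain ⟨-, b2, b3, -, b5, b6, -⟩ := hp.base σ hσ
  obtain ⟨n1, n2, n3, o, l, n4, n5, n6, n7⟩ := hp.nst σ hσ h2
  refine ⟨fun z => ?_, fun w F hF => ?_⟩
  · rcases hN.pw (L.tm σ.i, σ.Q.af (σ.R.th z.2)) with ⟨y, hy⟩ | ⟨x, φ, hφ, hy⟩
    · exact Or.inl ⟨y, fun F => hy _⟩
    · by_cases ha : L.a σ.Q < 0
      · exact Or.inr ⟨_, ⟨ha, rfl⟩, _, φ, hφ, fun F => (hy _).trans (by rw [ltZ, if_pos ha])⟩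
      · exact Or.inl ⟨_, fun F => (hy _).trans (by rw [ltZ, if_neg ha])⟩
  · obtain ⟨a1, a2⟩ := hp.lt_A h hC b2 n1
    have s1 := hN.sol w _ _ a1 (hp.lt_Z h hf hf' b2 n1 (F := F) fun ha => by
      have e : (L.ps (rt σ.k σ.Q)).pb.c = L.ltC σ.Q := by
        rw [ltC, if_pos ha]
        exact (hp.root _ _ b2 n1 ha).2.2.2.2.2.1
      rw [← e]
      exact hF _ ⟨ha, rfl⟩)
    have t0 := h.top_bd b2 n1
    have t1 : L.tm σ.i ∈ Icc (L.B ^ (L.a σ.Q - 1)) (L.tm (L.top σ.Q)) := by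
      refine ⟨?_, mul_le_mul_of_nonneg_right (h.lt_pow (by omega)) (by linarith only [h.pu, hf, hf'])⟩
      rw [n2, add_sub_cancel_right]
      exact (h.tm_bd _).1
    have s2 := s1.slice (c' := 1)
      (a := 50 * L.K * L.tm (L.top σ.Q) + 8 * L.ltA rs σ.k σ.Q / 2 ^ σ.k) t1
      fun x _ x' _ => le_of_eq (by simp [gs])
    have q1 := b3.lb.pos
    have k0 : (0 : ℝ) < 2 ^ σ.k := by positivity
    have k1 := h.bd.pK
    have k2 : 0 < L.tm (L.top σ.Q) := (h.lt_pos _).trans_le (h.tm_bd _).1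
    have e : (L.ps σ).pb.c = cN (L.a σ.Q) := by rw [n2, ← n3]; rfl
    rw [e]
    refine s2.chart (by positivity) (φ := fun z => σ.Q.af (σ.R.th z))
      (q1.bijOn_af.comp (b5.bij_th hf hf')) (fun x hx => q1.af_mem_bd.2 hx.2)
      (L := 2 ^ σ.k / 2 * (2 / l)) (fun x _ x' _ => ?_) (fun x _ => Ap.rfl) (le_trans ?_ b6)
      ⟨l / 2 * (2 / 2 ^ σ.k), fun x _ x' _ => by
        obtain ⟨p1, -, -, -, -, -, -, p8, -⟩ := cubeC_valid hf hf' o n4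
        have d1 := Bx.af_lip p1 n4.le (fun i => (p8 i).le) ((cubeC o l).nm x) ((cubeC o l).nm x')
        rw [p1.af_nm, p1.af_nm] at d1
        have d2 := Bx.nm_lip (Q := σ.Q) k0 (fun i => le_of_eq (by rw [Bx.sd, (n1 i).2]; ring))
          (σ.Q.af (σ.R.th x)) (σ.Q.af (σ.R.th x'))
        rw [q1.nm_af, q1.nm_af] at d2
        refine d1.trans ?_
        rw [mul_assoc]
        refine mul_le_mul_of_nonneg_left (le_trans (le_of_eq ?_) d2) (by positivity)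
        rw [n5, Bx.gb_th]⟩
    · refine (Bx.af_lip q1 k0.le (fun i => le_of_eq (by rw [Bx.sd, (n1 i).2]; ring)) _ _).trans ?_
      rw [mul_assoc, n5, Bx.gb_th]
      exact mul_le_mul_of_nonneg_left
        (Bx.nm_lip n4 (fun i => ((cubeC_valid hf hf' o n4).2.2.2.2.2.2.2.1 i).ge) x x')
        (by positivity)
    · have e1 : (50 * L.K * L.tm (L.top σ.Q) + 8 * L.ltA rs σ.k σ.Q / 2 ^ σ.k) *
          (2 ^ σ.k / 2 * (2 / l)) =
          (50 * L.K * L.tm (L.top σ.Q) * 2 ^ σ.k + 8 * L.ltA rs σ.k σ.Q) / l := by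
        field_simp
      rw [e1, div_le_one n4]
      have e2 : 16 * L.ltA rs σ.k σ.Q ≤ l := by
        unfold ltA
        split_ifs with ha
        · linarith only [n7 ha, n4, ha]
        · have u1 : 1 ≤ L.tm (L.top σ.Q) := by
            refine le_trans ?_ (h.tm_bd _).1
            rw [top, if_neg ha]
            simpa using h.lt_pow h.pT
          have u2 := mul_le_mul k1 u1 zero_le_one (by linarith only [hf, hf', k1])
          nlinarith only [n6, hf, k0, hf', u2]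
      linarith only [n6, e2]

theorem PT.lt_rank (h : L.OK) (hp : L.PT f C V rt rs) {σ : LS ι} (hσ : σ ∈ V) {r : ℝ≥0}
    (hr : 0 < r) (hv : (L.ps σ).pb.NV L.U r) :
    4 * (Fintype.card ι * (Int.log 2 (r : ℝ) - 1)) ≤ L.ltM σ := by
  obtain ⟨b1, -, b3, b4, -, b6, -⟩ := hp.base σ hσ
  obtain ⟨_, y, hy, -, h1⟩ := hv
  have h2 := h.anc_deep b1 b4 hy.2
  have h3 : (r : ℝ) ≤ r * σ.c := le_mul_of_one_le_right r.2 b6
  have h4 := Int.zpow_log_le_self (R := ℝ) (b := 2) one_lt_two (r := r) hr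
  have h5 : (2 : ℝ) ^ Int.log 2 (r : ℝ) ≤ 2 ^ (σ.k + 1) := by
    rw [zpow_add_one₀ two_ne_zero]
    have h6 : (r : ℝ) * σ.c ≤ infDist y L.Uᶜ := h1
    push_cast at h4
    linarith only [h2, h3, h4, h6]
  have h6 := (zpow_le_zpow_iff_right₀ one_lt_two).1 h5
  have h7 := b3.lev_bd.1
  have h8 : (Fintype.card ι : ℤ) * (Int.log 2 (r : ℝ) - 1) ≤ Fintype.card ι * σ.k :=
    mul_le_mul_of_nonneg_left (by omega) (by positivity)
  unfold ltM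
  split_ifs <;> omega

/-- What the operator of a state of type at most one provides after the recursion. -/
def LtS (L : LE ι Y) (C : ℝ) (V : Set (LS ι)) (X : LS ι → Unit × E ι → Y) (σ : LS ι) : Prop :=
  ∃ H, Sol L.U (pbM (L.ps σ).β (L.e '' σ.Q.set) (C * L.B ^ σ.i * 2 ^ σ.k)) univ H ∧
    (∀ z ∈ σ.R.set, Ap L.U (H (0, σ.R.th z)) (X σ ((), z))) ∧
    ((Cube σ.k σ.Q ∧ L.a σ.Q = σ.i + 1 ∧ ∃ σ1 ∈ V, σ.Same σ1 ∧ σ1.ty = 2 ∧
        ∀ z ∈ σ1.R.set, Ap L.U (H (1, σ1.R.th z)) (X σ1 ((), z))) ∨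
      ((Cube σ.k σ.Q → L.a σ.Q ≤ σ.i) ∧
        ((∃ σ1 ∈ V, σ.Same σ1 ∧ σ1.ty < σ.ty ∧
          ∀ z ∈ σ1.R.set, Ap L.U (H (1, σ1.R.th z)) (X σ1 ((), z))) ∨
        ∃ σ1 ∈ V, ∃ σ2 ∈ V, σ.Half σ1 σ2 ∧ σ1.ty ≤ 1 ∧ σ2.ty ≤ 1 ∧
          (∀ z ∈ σ1.R.set, Ap L.U (H (1, hf σ.Q.sj (-1) (σ1.R.th z))) (X σ1 ((), z))) ∧
          ∀ z ∈ σ2.R.set, Ap L.U (H (1, hf σ.Q.sj 1 (σ2.R.th z))) (X σ2 ((), z)))))

/-- The reduction at a state of type at most one. -/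
theorem PT.lt_one (hp : L.PT f C V rt rs) {σ : LS ι} (hσ : σ ∈ V) (h1 : σ.ty ≤ 1) :
    ∃ (ch : Set (LS ι)) (G : (LS ι → Unit × E ι → Y) → Unit × E ι → Y), ch ⊆ V ∧
      IsRed L.U (fun σ => (L.ps σ).pb) (L.ps σ).pb ch G ∧ (∀ σ' ∈ ch, L.ltM σ' < L.ltM σ) ∧
      ∀ X : LS ι → Unit × E ι → Y, (∀ σ' ∈ V, Sol L.U (L.ps σ').pb univ (X σ')) →
        (∀ z, Ap L.U (X σ z) (G X z)) → L.LtS C V X σ := by
  rcases hp.step σ hσ h1 with ⟨a1, a2, σ1, a3, a4, a5, a6⟩ |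
    ⟨a1, ⟨σ1, a3, a4, a5, a6⟩ | ⟨σ1, a3, σ2, a4, a5, a6, a7, a8⟩⟩
  · obtain ⟨G, g1, g2⟩ := LOp.reindex (ps := L.ps) (fun _ : Unit => σ1) a6
    refine ⟨_, G, ?_, g1, ?_, fun X hX he => ?_⟩
    · rintro _ ⟨_, rfl⟩
      exact a3
    · rintro _ ⟨_, rfl⟩
      show L.ltM σ1 < _
      unfold ltM
      rw [if_neg (fun hh => by omega), if_pos ⟨h1, a1, a2⟩, a4.2.1, a4.2.2]
      omega
    · obtain ⟨H, k1, k2, k3⟩ := g2 X (X σ) (fun _ => hX _ a3) (hX _ hσ) he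
      exact ⟨H, k1, k2, Or.inl ⟨a1, a2, σ1, a3, a4, a5, k3 ()⟩⟩
  · obtain ⟨G, g1, g2⟩ := LOp.reindex (ps := L.ps) (fun _ : Unit => σ1) a6
    refine ⟨_, G, ?_, g1, ?_, fun X hX he => ?_⟩
    · rintro _ ⟨_, rfl⟩
      exact a3
    · rintro _ ⟨_, rfl⟩
      show L.ltM σ1 < _
      unfold ltM
      rw [a4.1, a4.2.1, a4.2.2, if_neg (fun hh => by have := a1 hh.2.1; omega),
        if_neg (fun hh => by have := a1 hh.2.1; omega)]
      omega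
    · obtain ⟨H, k1, k2, k3⟩ := g2 X (X σ) (fun _ => hX _ a3) (hX _ hσ) he
      exact ⟨H, k1, k2, Or.inr ⟨a1, Or.inl ⟨σ1, a3, a4, a5, k3 ()⟩⟩⟩
  · have e : (fun b : Bool => if b then L.ps σ2 else L.ps σ1) =
        fun b : Bool => L.ps (if b then σ2 else σ1) := by
      funext b
      cases b <;> rfl
    rw [e] at a8
    obtain ⟨G, g1, g2⟩ := LOp.reindex (ps := L.ps) (fun b : Bool => if b then σ2 else σ1) a8
    have b3 := (hp.base σ hσ).2.2.1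
    refine ⟨_, G, ?_, g1, ?_, fun X hX he => ?_⟩
    · rintro _ ⟨b, rfl⟩
      cases b
      · exact a3
      · exact a4
    · have l1 : lev σ1.k σ1.Q = lev σ.k σ.Q - 1 := by
        rw [a5.2.2.1, a5.2.2.2.2.1]
        exact (b3.L σ.Q.long_sj).2
      have l2 : lev σ2.k σ2.Q = lev σ.k σ.Q - 1 := by
        rw [a5.2.2.2.1, a5.2.2.2.2.2]
        exact (b3.R σ.Q.long_sj).2
      rintro _ ⟨b, rfl⟩
      cases b
      · show L.ltM σ1 < _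
        unfold ltM
        split_ifs <;> omega
      · show L.ltM σ2 < _
        unfold ltM
        split_ifs <;> omega
    · obtain ⟨H, k1, k2, k3⟩ := g2 X (X σ) (fun b => by
        cases b
        · exact hX _ a3
        · exact hX _ a4) (hX _ hσ) he
      exact ⟨H, k1, k2, Or.inr ⟨a1, Or.inr ⟨σ1, a3, σ2, a4, a5, a6, a7, k3 false, k3 true⟩⟩⟩

/-- The solutions of all states. -/
theorem PT.lt_rec (h : L.OK) (hf : 0 < f) (hf' : f ≤ 1 / 16) (hC : 1 ≤ C)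
    (hp : L.PT f C V rt rs) {Nf : ℤ → Bx ι → (E ι → Y) → ℝ × E ι → Y}
    (hN : ∀ k G, L.ok k → Cube k G → L.LtN k G (Nf k G)) :
    ∃ X : LS ι → Unit × E ι → Y, ∀ σ ∈ V, Sol L.U (L.ps σ).pb univ (X σ) ∧
      (σ.ty ≤ 1 → L.LtS C V X σ) ∧ (σ.ty = 2 → ∀ z, Ap L.U (X σ ((), z))
        (Nf σ.k σ.Q (L.ltZ rt rs X σ.k σ.Q) (L.tm σ.i, σ.Q.af (σ.R.th z)))) := by
  have : Nonempty Y := ⟨h.hne.some⟩
  have key : ∀ σ ∈ V, ∃ (ch : Set (LS ι)) (G : (LS ι → Unit × E ι → Y) → Unit × E ι → Y),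
      ch ⊆ V ∧ IsRed L.U (fun σ => (L.ps σ).pb) (L.ps σ).pb ch G ∧
      (∀ σ' ∈ ch, L.ltM σ' < L.ltM σ) ∧
      ∀ X : LS ι → Unit × E ι → Y, (∀ σ' ∈ V, Sol L.U (L.ps σ').pb univ (X σ')) →
        (∀ z, Ap L.U (X σ z) (G X z)) → (σ.ty ≤ 1 → L.LtS C V X σ) ∧
          (σ.ty = 2 → ∀ z, Ap L.U (X σ ((), z))
            (Nf σ.k σ.Q (L.ltZ rt rs X σ.k σ.Q) (L.tm σ.i, σ.Q.af (σ.R.th z)))) := by
    intro σ hσ
    by_cases h1 : σ.ty ≤ 1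
    · obtain ⟨ch, G, g1, g2, g3, g4⟩ := hp.lt_one hσ h1
      exact ⟨ch, G, g1, g2, g3, fun X hX he => ⟨fun _ => g4 X hX he, fun h2 => by omega⟩⟩
    · obtain ⟨-, b2, -, -, -, -, b7⟩ := hp.base σ hσ
      have h2 : σ.ty = 2 := by omega
      obtain ⟨n1, n2, -⟩ := hp.nst σ hσ h2
      refine ⟨_, _, ?_, hp.lt_two h hf hf' hC hσ h2 (hN _ _ b2 n1), ?_,
        fun X _ he => ⟨fun h3 => absurd h3 h1, fun _ z => he ((), z)⟩⟩
      · rintro _ ⟨ha, rfl⟩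
        exact (hp.root _ _ b2 n1 ha).1
      · rintro _ ⟨ha, rfl⟩
        obtain ⟨-, r1, r2, r3, r4, -⟩ := hp.root _ _ b2 n1 ha
        unfold ltM
        rw [r1, r2, r3, r4, if_neg (fun hh => by omega), if_neg (fun hh => h1 hh.1)]
        omega
  choose! ch G g1 g2 g3 g4 using key
  obtain ⟨X, hX⟩ := rec_sol h.hU h.hne V (fun σ => (L.ps σ).pb) ch G (fun σ hσ => hp.lt_wf h hσ)
    g1 g2 (fun r σ => (L.ltM σ - 4 * (Fintype.card ι * (Int.log 2 (r : ℝ) - 1))).toNat)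
    fun r hr σ hσ σ' hσ' _ hv => by
      have a1 := hp.lt_rank h (g1 σ hσ hσ') hr hv
      have a2 := g3 σ hσ σ' hσ'
      omega
  exact ⟨X, fun σ hσ => ⟨(hX σ hσ).1, g4 σ hσ X (fun σ' hσ' => (hX σ' hσ').1) (hX σ hσ).2⟩⟩

end LE

theorem LE.PT.lt {L : LE ι Y} (h : L.OK) {f C : ℝ} (hf : 0 < f) (hf' : f ≤ 1 / 16) (hC : 1 ≤ C)
    {V : Set (LS ι)} {rt : ℤ → Bx ι → LS ι} {rs : ℤ → Bx ι → ℝ} (hp : L.PT f C V rt rs) :
    ∃ W N, L.LT (2500 * (L.K + C)) {σ | σ ∈ V ∧ σ.ty ≤ 1} rt W N := by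
  have : Nonempty Y := ⟨h.hne.some⟩
  choose! Nf hN using fun k G (hk : L.ok k) (hG : Cube k G) => h.exists_ltN hk hG
  obtain ⟨X, hX⟩ := hp.lt_rec h hf hf' hC hN
  have hK := h.bd.pK
  have hi : ∀ σ ∈ V, ∀ x ∈ closedBall (0 : E ι) 1,
      Function.invFunOn σ.R.th σ.R.set x ∈ σ.R.set ∧
        σ.R.th (Function.invFunOn σ.R.th σ.R.set x) = x := fun σ hσ x hx =>
    Function.invFunOn_pos (((hp.base σ hσ).2.2.2.2.1.bij_th hf hf').surjOn hx)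
  have hw : ∀ σ ∈ V, ∀ {H : E ι → Y}, (∀ z ∈ σ.R.set, Ap L.U (H (σ.R.th z)) (X σ ((), z))) →
      ∀ x ∈ closedBall (0 : E ι) 1,
        Ap L.U (H x) (X σ ((), Function.invFunOn σ.R.th σ.R.set x)) := by
    intro σ hσ H hH x hx
    have := hH _ (hi σ hσ x hx).1
    rwa [(hi σ hσ x hx).2] at this
  have hZ : ∀ k G, L.ok k → Cube k G →
      Sol L.U (L.ltP k G (L.ltA rs k G)) univ fun z => L.ltZ rt rs X k G z.2 :=
    fun k G hk hG => hp.lt_Z h hf hf' hk hG fun ha => (hX _ (hp.root k G hk hG ha).1).1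
  refine ⟨fun σ x => X σ ((), Function.invFunOn σ.R.th σ.R.set x),
    fun k G => Nf k G (L.ltZ rt rs X k G), fun σ hσ => ?_, fun σ hσ => ?_,
    fun k G hk hG ha => ?_, fun k G hk hG => ?_,
    fun k G i t t' hk hG => (hN k G hk hG).froz _ i t t', fun k G hk hG => ?_⟩
  · obtain ⟨b1, b2, b3, b4, -⟩ := hp.base σ hσ.1
    exact ⟨b1, b2, b3, b4, hσ.2⟩
  · obtain ⟨H, k1, k2, k3⟩ := (hX σ hσ.1).2.1 hσ.2
    have p1 := h.lt_pos σ.i
    have m1 : C * L.B ^ σ.i * 2 ^ σ.k ≤ 2500 * (L.K + C) * L.B ^ σ.i * 2 ^ σ.k := by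
      gcongr
      linarith only [hf, hf', hC, hK]
    refine ⟨H, lt_gs_mono k1 m1 m1, hw σ hσ.1 (H := fun x => H (0, x)) k2, ?_⟩
    rcases k3 with ⟨a1, a2, σ1, a3, a4, a5, a6⟩ |
      ⟨a1, ⟨σ1, a3, a4, a5, a6⟩ | ⟨σ1, a3, σ2, a4, a5, a6, a7, a8, a9⟩⟩
    · refine Or.inl ⟨a1, a2, fun x hx => (hw σ1 a3 (H := fun x => H (1, x)) a6 x hx).trans ?_⟩
      have := (hX σ1 a3).2.2 a5 (Function.invFunOn σ1.R.th σ1.R.set x)
      rwa [(hi σ1 a3 x hx).2, a4.1, a4.2.1, a4.2.2] at this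
    · exact Or.inr ⟨a1, Or.inl ⟨σ1, ⟨a3, by have := hσ.2; omega⟩, a4, a5,
        hw σ1 a3 (H := fun x => H (1, x)) a6⟩⟩
    · exact Or.inr ⟨a1, Or.inr ⟨σ1, ⟨a3, a6⟩, σ2, ⟨a4, a7⟩, a5, fun x hx =>
        ⟨hw σ1 a3 (H := fun x => H (1, NB.hf σ.Q.sj (-1) x)) a8 x hx,
          hw σ2 a4 (H := fun x => H (1, NB.hf σ.Q.sj 1 x)) a9 x hx⟩⟩⟩
  · obtain ⟨r0, r1, r2, r3, r4, -⟩ := hp.root k G hk hG ha
    exact ⟨⟨r0, r4.le⟩, r1, r2, r3⟩
  · obtain ⟨a1, a2⟩ := hp.lt_A h hC hk hG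
    have s1 := (hN k G hk hG).sol (some 0) _ _ a1 (by rw [Wo_zero]; exact hZ k G hk hG)
    rw [Wo_zero] at s1
    have k0 : (0 : ℝ) < 2 ^ k := by positivity
    have p1 := h.lt_pos (L.top G)
    refine lt_gs_mono s1 ?_ (by nlinarith only [hf, k0, hf', hC, hK])
    have u1 : 8 * L.ltA rs k G / 2 ^ k ≤ 8 * (C * L.B ^ L.top G) := by
      rw [div_le_iff₀ k0]
      linarith only [a2]
    have u2 := mul_le_mul_of_nonneg_left (h.tm_bd (L.top G)).2.1 (zero_le_one.trans hK)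
    nlinarith only [mul_pos (zero_lt_one.trans_le hK) p1, mul_pos (zero_lt_one.trans_le hC) p1, u1, u2, hK, p1, hC]
  · obtain ⟨a1, a2⟩ := hp.lt_A h hC hk hG
    obtain ⟨H, k1, k2⟩ := (hN k G hk hG).unf _ _ a1 (hZ k G hk hG)
    have k0 : (0 : ℝ) < 2 ^ k := by positivity
    have p1 := h.lt_pos (L.top G)
    have m1 : 25 * (50 * L.K * L.tm (L.top G) * 2 ^ k + 8 * L.ltA rs k G) ≤
        2500 * (L.K + C) * L.B ^ L.top G * 2 ^ k := by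
      have u2 := mul_le_mul_of_nonneg_right
        (mul_le_mul_of_nonneg_left (h.tm_bd (L.top G)).2.1 (zero_le_one.trans hK)) k0.le
      nlinarith only [mul_pos (mul_pos (zero_lt_one.trans_le hC) p1) k0, a1, a2, u2]
    refine ⟨H, lt_gs_mono k1 m1 m1, fun x hx => ⟨(k2 x hx).1, (k2 x hx).2.trans (Ap.of_eq ?_)⟩⟩
    unfold LE.ltZ
    split_ifs with ha
    · obtain ⟨r0, -, -, -, -, -, r6, r7, -⟩ := hp.root k G hk hG ha
      have q1 := (cubeC_valid hf hf' (0 : E ι) r7).1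
      have u1 := ((hp.base _ r0).2.2.2.2.1.bij_th hf hf').injOn
      rw [u1 (hi _ r0 x hx).1 (x₂ := (cubeC 0 (rs k G)).af x) ?_ ?_]
      · rw [r6, Bx.gb_set]
        exact q1.af_mem.2 (by simpa using hx)
      · rw [(hi _ r0 x hx).2, r6, Bx.gb_th, q1.nm_af]
    · rfl

end Pool.Agent.Lib.MP_ecd4e3_gt.NB
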