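import Pool.Agent.Lib.MP_ecd4e3_gt.NB.LStep
import Pool.Agent.Lib.MP_ecd4e3_gt.NB.LTree
import Pool.Agent.Lib.MP_ecd4e3_gt.NB.LCas

/-! Walks in the cascade, and the lossy theorem. -/

namespace Pool.Agent.Lib.MP_ecd4e3_gt.NB

open Set Filter Topology Metric MeasureTheory
open scoped NNReal ENNReal

variable {ι : Type} [Fintype ι] [DecidableEq ι] [Nonempty ι] {Y : Type} [MetricSpace Y]

/-- A chain of nested cubes through a point. -/
def Chn (k : ℤ) (x : E ι) (ch : ℕ → Bx ι) : Prop :=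
  ∀ n : ℕ, Cube (k - n) (ch n) ∧ (ch (n + 1)).set ⊆ (ch n).set ∧ x ∈ (ch n).set

theorem exists_chn {k : ℤ} {G : Bx ι} (hG : Cube k G) {x : E ι} (hx : x ∈ G.set) :
    ∃ ch, Chn k x ch ∧ ch 0 = G := by
  have step : ∀ (n : ℕ) (Q : {Q : Bx ι // Cube (k - (n : ℕ)) Q ∧ x ∈ Q.set}),
      ∃ Q' : {Q : Bx ι // Cube (k - ((n + 1 : ℕ) : ℤ)) Q ∧ x ∈ Q.set}, Q'.1.set ⊆ Q.1.set := by
    intro n Q
    have h1 : LB (k - ((n + 1 : ℕ) : ℤ)) Q.1 := Q.2.1.lb.down (by push_cast; omega)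
    obtain ⟨G', h2, h3, h4⟩ := h1.exists_cube Q.2.2
    exact ⟨⟨G', h2, h4⟩, h3⟩
  choose f hf using step
  let c : ∀ n : ℕ, {Q : Bx ι // Cube (k - (n : ℕ)) Q ∧ x ∈ Q.set} := fun n =>
    Nat.rec (motive := fun n : ℕ => {Q : Bx ι // Cube (k - (n : ℕ)) Q ∧ x ∈ Q.set})
      ⟨G, by simpa using hG, hx⟩ f n
  exact ⟨fun n => (c n).1, fun n => ⟨(c n).2.1, hf n (c n), (c n).2.2⟩, rfl⟩

theorem Chn.sub {k : ℤ} {x : E ι} {ch : ℕ → Bx ι} (hc : Chn k x ch) {m n : ℕ} (hmn : m ≤ n) :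
    (ch n).set ⊆ (ch m).set := by
  induction n, hmn using Nat.le_induction with
  | base => exact Subset.rfl
  | succ n _ ih => exact (hc n).2.1.trans ih

theorem Chn.shift {k : ℤ} {x : E ι} {ch : ℕ → Bx ι} (hc : Chn k x ch) (m : ℕ) :
    Chn (k - m) x fun n => ch (m + n) := by
  intro n
  refine ⟨?_, (hc (m + n)).2.1, (hc (m + n)).2.2⟩
  have h1 := (hc (m + n)).1
  have h2 : k - ((m + n : ℕ) : ℤ) = k - m - n := by push_cast; ring
  rwa [h2] at h1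

theorem Chn.cons {k : ℤ} {x : E ι} {ch : ℕ → Bx ι} (hc : Chn (k - 1) x ch) {G : Bx ι}
    (hG : Cube k G) (hs : (ch 0).set ⊆ G.set) :
    ∃ ch', Chn k x ch' ∧ ch' 0 = G ∧ ch' 1 = ch 0 := by
  refine ⟨fun n => Nat.rec G (fun m _ => ch m) n, fun n => ?_, rfl, rfl⟩
  cases n with
  | zero => exact ⟨by simpa using hG, hs, hs (hc 0).2.2⟩
  | succ n =>
    refine ⟨?_, (hc n).2.1, (hc n).2.2⟩
    have h1 := (hc n).1
    have h2 : k - 1 - (n : ℤ) = k - ((n + 1 : ℕ) : ℤ) := by push_cast; ring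
    rwa [h2] at h1

/-- Descent in the tree of one round to a given cube of the chain. -/
theorem LE.LW.descend {L : LE ι Y} {K' : ℝ} {M : ℤ → Bx ι → ℝ × E ι → Y} {I : Type}
    {V : Set I} {st : I → LS ι} {Cc : I → ℝ × E ι → Y} (hw : L.LW K' M V st Cc) {k : ℤ}
    {x : E ι} {ch : ℕ → Bx ι} (hc : Chn k x ch) {i : ℤ} {t : ℝ} (ht : L.B ^ i * L.u' ≤ t) {n : ℕ}
    (hn : ∀ m < n, L.a (ch m) ≤ i) (μ : ℕ) :
    ∀ σ ∈ V, (st σ).i = i → (st σ).k ≤ k → (ch n).set ⊆ (st σ).Q.set →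
      2 * (lev (st σ).k (st σ).Q - Fintype.card ι * (k - n)) + (st σ).ty < μ →
      ∃ σ' ∈ V, (st σ').i = i ∧ (st σ').k = k - n ∧ (st σ').Q = ch n ∧
        Ap L.U (Cc σ (t, x)) (Cc σ' (t, x)) := by
  induction μ with
  | zero =>
    intro σ hσ hi hk hs hμ
    exfalso
    obtain ⟨-, hb, -⟩ := hw.base σ hσ
    have h1 := (hb.cube_le (hc n).1 hs).1
    have h2 := hb.lev_bd.1
    have h3 : (Fintype.card ι : ℤ) * (k - n) ≤ Fintype.card ι * (st σ).k :=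
      mul_le_mul_of_nonneg_left h1 (by positivity)
    have h4 : (0 : ℤ) ≤ (st σ).ty := by positivity
    push_cast at hμ
    omega
  | succ μ ih =>
    intro σ hσ hi hk hs hμ
    obtain ⟨-, hb, hty⟩ := hw.base σ hσ
    have hx : x ∈ (st σ).Q.set := hs (hc n).2.2
    obtain ⟨h1, h2⟩ := hb.cube_le (hc n).1 hs
    by_cases he : ch n = (st σ).Q
    · refine ⟨σ, hσ, hi, ?_, he.symm, Ap.rfl⟩
      exact (hc n).1.level (he ▸ hb)
    have h3 : k - n ≤ nk (st σ).k (st σ).Q := h2.resolve_left he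
    have ht' : L.B ^ (st σ).i * L.u' ≤ t := hi ▸ ht
    rcases hw.step σ hσ with ⟨hcu, ha, -⟩ | ⟨-, ⟨σ1, hσ1, hsame, hlt, hap⟩ |
      ⟨σ1, hσ1, σ2, hσ2, hh, hap⟩⟩
    · exfalso
      obtain ⟨m, hm⟩ : ∃ m : ℕ, (st σ).k = k - m := ⟨(k - (st σ).k).toNat, by omega⟩
      have hmn : m ≤ n := by omega
      have h4 : ch m = (st σ).Q :=
        (hc n).1.anc_unique (hc m).1 (hm ▸ hcu) (hc.sub hmn) hs
      have h5 : m < n := lt_of_le_of_ne hmn fun h => he (h ▸ h4)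
      have h6 := hn m h5
      rw [h4] at h6
      omega
    · obtain ⟨e1, e2, e3⟩ := hsame
      obtain ⟨σ', hσ', q1, q2, q3, q4⟩ := ih σ1 hσ1 (e1.trans hi) (e2 ▸ hk) (e3 ▸ hs)
        (by rw [e2, e3]; push_cast at hμ ⊢; omega)
      exact ⟨σ', hσ', q1, q2, q3, (hap t ht' x hx).trans q4⟩
    · obtain ⟨e1, e2, e3, e4, e5, e6⟩ := hh
      have hl := (st σ).Q.long_sj
      have hnk : nk (st σ).k (st σ).Q ≤ k := by
        rcases nk_le (st σ).k (st σ).Q with h | h <;> omega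
      rcases hb.cube_half hl (hc n).1 h3 hs with h4 | h4
      · have ty1 := (hw.base σ1 hσ1).2.2
        obtain ⟨σ', hσ', q1, q2, q3, q4⟩ := ih σ1 hσ1 (e1.trans hi) (e3 ▸ hnk) (e5 ▸ h4)
          (by rw [e3, e5, (hb.L hl).2]; push_cast at hμ ⊢; omega)
        exact ⟨σ', hσ', q1, q2, q3, ((hap t ht').1 x (e5 ▸ h4 (hc n).2.2)).trans q4⟩
      · have ty1 := (hw.base σ2 hσ2).2.2
        obtain ⟨σ', hσ', q1, q2, q3, q4⟩ := ih σ2 hσ2 (e2.trans hi) (e4 ▸ hnk) (e6 ▸ h4)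
          (by rw [e4, e6, (hb.R hl).2]; push_cast at hμ ⊢; omega)
        exact ⟨σ', hσ', q1, q2, q3, ((hap t ht').2 x (e6 ▸ h4 (hc n).2.2)).trans q4⟩

/-- A chain along which the exponents stay negative runs through a point outside `U`. -/
theorem LE.OK.not_mem_of_chn {L : LE ι Y} (h : L.OK) {k : ℤ} (hk : L.ok k) {x : E ι}
    {ch : ℕ → Bx ι} (hc : Chn k x ch) (ha : ∀ n, L.a (ch n) < 0) : L.e x ∉ L.U := by
  intro hx
  obtain ⟨k0, hk0⟩ := h.a_small hx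
  have h1 := hk0 (k - (k - k0).toNat) (ch (k - k0).toNat) (by omega)
    (h.bd.ok_le hk (by omega)) (hc _).1 (hc _).2.2
  have h2 := ha (k - k0).toNat
  omega

/-- The walk down the tree of one round. -/
theorem LE.LW.walk {L : LE ι Y} (h : L.OK) {K' : ℝ} {M : ℤ → Bx ι → ℝ × E ι → Y} {I : Type}
    {V : Set I} {st : I → LS ι} {Cc : I → ℝ × E ι → Y} (hw : L.LW K' M V st Cc) {k : ℤ}
    (hk : L.ok k) {x : E ι} {ch : ℕ → Bx ι} (hc : Chn k x ch) (ha : L.a (ch 0) < 0) {t : ℝ}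
    (ht : L.B ^ L.a (ch 0) * L.u' ≤ t) :
    (∀ n : ℕ, L.a (ch 0) < L.a (ch n) → (∀ m < n, L.a (ch m) ≤ L.a (ch 0)) →
      Ap L.U (M k (ch 0) (t, x)) (M (k - n) (ch n) (t, x))) ∧
    ((∀ n, L.a (ch n) ≤ L.a (ch 0)) → M k (ch 0) (t, x) ∉ L.U) := by
  have hc0 : Cube k (ch 0) := by simpa using (hc 0).1
  obtain ⟨σ, hσ, e1, e2, e3, hap⟩ := hw.root k (ch 0) hk hc0 ha
  have key : ∀ n : ℕ, (∀ m < n, L.a (ch m) ≤ L.a (ch 0)) →
      ∃ σ' ∈ V, (st σ').i = L.a (ch 0) ∧ (st σ').k = k - n ∧ (st σ').Q = ch n ∧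
        Ap L.U (M k (ch 0) (t, x)) (Cc σ' (t, x)) := by
    intro n hn
    obtain ⟨σ', hσ', q1, q2, q3, q4⟩ := hw.descend hc ht hn
      ((2 * (lev (st σ).k (st σ).Q - Fintype.card ι * (k - n)) + (st σ).ty).toNat + 1) σ hσ e1
      e2.le (e3 ▸ hc.sub (Nat.zero_le n)) (by push_cast; omega)
    exact ⟨σ', hσ', q1, q2, q3, (hap t ht x (hc 0).2.2).trans q4⟩
  refine ⟨fun n hn hm => ?_, fun hall hU => ?_⟩
  · obtain ⟨σ', hσ', q1, q2, q3, q4⟩ := key n hm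
    rcases hw.step σ' hσ' with ⟨-, -, h3⟩ | ⟨h3, -⟩
    · have h4 := h3 t (q1 ▸ ht) x (q3 ▸ (hc n).2.2)
      rw [q2, q3] at h4
      exact q4.trans h4
    · have h4 := h3 (by rw [q2, q3]; exact (hc n).1)
      rw [q1, q3] at h4
      omega
  · have hd : ∀ n : ℕ, dist (M k (ch 0) (t, x)) (L.e x) ≤ 2 ^ k * (1 / 2) ^ n := by
      intro n
      obtain ⟨σ', hσ', q1, q2, q3, q4⟩ := key n fun m _ => hall m
      have h1 := q4 (Or.inl hU)
      obtain ⟨x', hx', h2⟩ := hw.maps σ' hσ' t (q1 ▸ ht) x (q3 ▸ (hc n).2.2) (h1 ▸ hU)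
      rw [h1, ← h2, h.he.dist_eq]
      rw [q3] at hx'
      have h3 : (2 : ℝ) ^ (k - n) = 2 ^ k * (1 / 2) ^ n := by
        rw [zpow_sub₀ (by norm_num), zpow_natCast, one_div, inv_pow, div_eq_mul_inv]
      refine Bx.dist_le (by positivity) (fun i => ?_) hx' (hc n).2.2
      rw [← h3, Bx.sd, ((hc n).1 i).2]
      simp
    have hlim : Tendsto (fun n : ℕ => (2 : ℝ) ^ k * (1 / 2) ^ n) atTop (𝓝 (2 ^ k * 0)) :=
      (tendsto_pow_atTop_nhds_zero_of_lt_one (by norm_num) (by norm_num)).const_mul _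
    have h0 : dist (M k (ch 0) (t, x)) (L.e x) ≤ 2 ^ k * 0 := ge_of_tendsto' hlim hd
    have h1 : M k (ch 0) (t, x) = L.e x := by
      rw [mul_zero] at h0
      exact dist_le_zero.1 h0
    exact h.not_mem_of_chn hk hc (fun n => (hall n).trans_lt ha) (h1 ▸ hU)

/-- One round, started at an arbitrary index of the chain. -/
theorem LE.LW.round {L : LE ι Y} (h : L.OK) {K' : ℝ} {M : ℤ → Bx ι → ℝ × E ι → Y} {I : Type}
    {V : Set I} {st : I → LS ι} {Cc : I → ℝ × E ι → Y} (hw : L.LW K' M V st Cc) {k : ℤ}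
    (hk : L.ok k) {x : E ι} {ch : ℕ → Bx ι} (hc : Chn k x ch) {m : ℕ} (ha : L.a (ch m) < 0)
    {t : ℝ} (ht : L.B ^ L.a (ch m) * L.u' ≤ t) :
    (∃ n, m < n ∧ L.a (ch m) < L.a (ch n) ∧ (∀ j, m ≤ j → j < n → L.a (ch j) ≤ L.a (ch m)) ∧
      Ap L.U (M (k - m) (ch m) (t, x)) (M (k - n) (ch n) (t, x))) ∨
    ((∀ n, m ≤ n → L.a (ch n) ≤ L.a (ch m)) ∧ M (k - m) (ch m) (t, x) ∉ L.U) := by
  classical
  obtain ⟨w1, w2⟩ := hw.walk h (h.bd.ok_le hk (show k - m ≤ k by omega)) (hc.shift m)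
    (by simpa using ha) (t := t) (by simpa using ht)
  simp only [add_zero] at w1 w2
  by_cases hex : ∃ n, L.a (ch m) < L.a (ch (m + n))
  · left
    have h1 := Nat.find_spec hex
    have h2 : ∀ j < Nat.find hex, L.a (ch (m + j)) ≤ L.a (ch m) := fun j hj =>
      not_lt.1 (Nat.find_min hex hj)
    have h3 : Nat.find hex ≠ 0 := by
      intro h0
      rw [h0] at h1
      simp at h1
    refine ⟨m + Nat.find hex, by omega, h1, fun j hj hj' => ?_, ?_⟩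
    · have h4 := h2 (j - m) (by omega)
      rwa [show m + (j - m) = j by omega] at h4
    · have h4 := w1 _ h1 h2
      rwa [show k - m - (Nat.find hex : ℕ) = k - ((m + Nat.find hex : ℕ) : ℤ) by
        push_cast; ring] at h4
  · right
    have h1 : ∀ n, L.a (ch (m + n)) ≤ L.a (ch m) := fun n => not_lt.1 fun hn => hex ⟨n, hn⟩
    refine ⟨fun n hn => ?_, w2 h1⟩
    have h4 := h1 (n - m)
    rwa [show m + (n - m) = n by omega] at h4

/-- All rounds up to the round `A`. -/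
theorem LE.LW.reach {L : LE ι Y} (h : L.OK) {K' : ℝ} {M : ℤ → Bx ι → ℝ × E ι → Y} {I : Type}
    {V : Set I} {st : I → LS ι} {Cc : I → ℝ × E ι → Y} (hw : L.LW K' M V st Cc) {k : ℤ}
    (hk : L.ok k) {x : E ι} {ch : ℕ → Bx ι} (hc : Chn k x ch) {A : ℤ} (hA : A < 0)
    {t : ℝ} (ht : L.B ^ A * L.u' ≤ t) (μ : ℕ) : ∀ m : ℕ, L.a (ch m) ≤ A → A - L.a (ch m) < μ →
    (∃ n, m < n ∧ A < L.a (ch n) ∧ (∀ j, m ≤ j → j < n → L.a (ch j) ≤ A) ∧
      Ap L.U (M (k - m) (ch m) (t, x)) (M (k - n) (ch n) (t, x))) ∨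
    ((∀ n, m ≤ n → L.a (ch n) ≤ A) ∧ M (k - m) (ch m) (t, x) ∉ L.U) := by
  induction μ with
  | zero => intro m h1 h2; omega
  | succ μ ih =>
    intro m h1 h2
    have hB : (1 : ℝ) ≤ L.B := by linarith only [h.pB]
    have hu : 0 ≤ L.u' := by linarith only [h.pu, h.uu]
    have ht' : L.B ^ L.a (ch m) * L.u' ≤ t :=
      (mul_le_mul_of_nonneg_right (zpow_le_zpow_right₀ hB h1) hu).trans ht
    rcases hw.round h hk hc (h1.trans_lt hA) ht' with ⟨n, q1, q2, q3, q4⟩ | ⟨q1, q2⟩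
    · by_cases hn : A < L.a (ch n)
      · exact Or.inl ⟨n, q1, hn, fun j hj hj' => (q3 j hj hj').trans h1, q4⟩
      · rcases ih n (not_lt.1 hn) (by push_cast at h2; omega) with ⟨n', r1, r2, r3, r4⟩ | ⟨r1, r2⟩
        · refine Or.inl ⟨n', by omega, r2, fun j hj hj' => ?_, q4.trans r4⟩
          by_cases hjn : j < n
          · exact (q3 j hj hjn).trans h1
          · exact r3 j (not_lt.1 hjn) hj'
        · refine Or.inr ⟨fun j hj => ?_, fun hU => r2 (q4 (Or.inl hU) ▸ hU)⟩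
          by_cases hjn : j < n
          · exact (q3 j hj hjn).trans h1
          · exact r1 j (not_lt.1 hjn)
    · exact Or.inr ⟨fun n hn => (q1 n hn).trans h1, q2⟩

theorem LE.LW.reach' {L : LE ι Y} (h : L.OK) {K' : ℝ} {M : ℤ → Bx ι → ℝ × E ι → Y} {I : Type}
    {V : Set I} {st : I → LS ι} {Cc : I → ℝ × E ι → Y} (hw : L.LW K' M V st Cc) {k : ℤ}
    (hk : L.ok k) {x : E ι} {ch : ℕ → Bx ι} (hc : Chn k x ch) {A : ℤ} (hA : A < 0)
    {t : ℝ} (ht : L.B ^ A * L.u' ≤ t) {m : ℕ} (hm : L.a (ch m) ≤ A) :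
    (∃ n, m < n ∧ L.a (ch n) = A + 1 ∧ (∀ j, m ≤ j → j < n → L.a (ch j) ≤ A) ∧
      Ap L.U (M (k - m) (ch m) (t, x)) (M (k - n) (ch n) (t, x))) ∨
    ((∀ n, m ≤ n → L.a (ch n) ≤ A) ∧ M (k - m) (ch m) (t, x) ∉ L.U) := by
  rcases hw.reach h hk hc hA ht ((A - L.a (ch m)).toNat + 1) m hm (by push_cast; omega) with
    ⟨n, q1, q2, q3, q4⟩ | q
  · refine Or.inl ⟨n, q1, ?_, q3, q4⟩
    obtain ⟨n', rfl⟩ : ∃ n', n = n' + 1 := ⟨n - 1, by omega⟩
    have h1 := q3 n' (by omega) (by omega)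
    have h2 : Cube (k - n' - 1) (ch (n' + 1)) := by
      have h3 := (hc (n' + 1)).1
      rwa [show k - ((n' + 1 : ℕ) : ℤ) = k - n' - 1 by push_cast; ring] at h3
    have h4 := h.a_child (h.bd.ok_le hk (show k - n' ≤ k by omega)) (hc n').1 h2 (hc n').2.1
    omega
  · exact Or.inr q

/-- Frozen windows for a cube which is not yet subdivided. -/
theorem LE.LW.froz0 {L : LE ι Y} (h : L.OK) {K' : ℝ} {M : ℤ → Bx ι → ℝ × E ι → Y} {I : Type}
    {V : Set I} {st : I → LS ι} {Cc : I → ℝ × E ι → Y} (hw : L.LW K' M V st Cc) {k : ℤ}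
    (hk : L.ok k) {G : Bx ι} (hG : Cube k G) {i : ℤ} (hi : i < L.a G ∨ L.a G = 0) {t t' : ℝ}
    (h1 : L.B ^ (L.a G - 1) ≤ t) (h2 : L.B ^ (L.a G - 1) ≤ t')
    (h3 : t ∈ Icc (L.B ^ i * L.u') (L.B ^ (i + 1)))
    (h4 : t' ∈ Icc (L.B ^ i * L.u') (L.B ^ (i + 1))) {x : E ι} (hx : x ∈ G.set) :
    Ap L.U (M k G (t, x)) (M k G (t', x)) := by
  have hB : (1 : ℝ) ≤ L.B := by linarith only [h.pB]
  have hu : 0 ≤ L.u' := by linarith only [h.pu, h.uu]
  by_cases hc : i < L.top G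
  · have h5 : L.B ^ (i + 1) ≤ L.tm (L.top G) :=
      (zpow_le_zpow_right₀ hB (by omega)).trans (h.tm_bd _).1
    have h6 : L.B ^ i * L.u ≤ L.B ^ i * L.u' :=
      mul_le_mul_of_nonneg_left h.uu.le (zpow_nonneg (by linarith only [hB]) _)
    exact hw.froz k G i t t' hk hG ⟨h1, h3.2.trans h5⟩ ⟨h2, h4.2.trans h5⟩
      ⟨h6.trans h3.1, h3.2⟩ ⟨h6.trans h4.1, h4.2⟩ x hx
  · have h5 := (h.top_bd hk hG).1
    have h6 : L.a G = 0 := by omega
    have h7 : L.top G = L.T := by simp [LE.top, h6]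
    have h8 : L.B ^ L.T * L.u' ≤ L.B ^ i * L.u' :=
      mul_le_mul_of_nonneg_right (zpow_le_zpow_right₀ hB (by omega)) hu
    exact (hw.idn k G t hk hG h6 (h8.trans h3.1) x hx).trans
      (hw.idn k G t' hk hG h6 (h8.trans h4.1) x hx).symm

theorem LE.LW.out {L : LE ι Y} (h : L.OK) {K' : ℝ} {M : ℤ → Bx ι → ℝ × E ι → Y} {I : Type}
    {V : Set I} {st : I → LS ι} {Cc : I → ℝ × E ι → Y} (hw : L.LW K' M V st Cc) :
    L.Out K' M := by
  have hB : (1 : ℝ) ≤ L.B := by linarith only [h.pB]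
  have hu : 1 ≤ L.u' := by linarith only [h.pu, h.uu]
  refine ⟨hw.sol, ?_, ?_, ?_⟩
  · intro k G G' t hk hG hG' hs ha ht x hx
    obtain ⟨ch', hc', e0⟩ := exists_chn hG' hx
    obtain ⟨ch, hc, e1, e2⟩ := hc'.cons hG (e0 ▸ hs)
    rw [e0] at e2
    have ht' : L.B ^ L.a G * L.u' ≤ t := (h.tm_bd _).2.2.2.trans ht
    have r0 := hw.reach' h hk hc ha ht' (m := 0) (by rw [e1])
    simp only [Nat.cast_zero, sub_zero, e1] at r0
    by_cases hc1 : L.a (ch 1) ≤ L.a G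
    · have r1 := hw.reach' h hk hc ha ht' (m := 1) hc1
      simp only [Nat.cast_one, e2] at r1
      rcases r0 with ⟨n, q1, q2, q3, q4⟩ | ⟨q1, q2⟩
      · rcases r1 with ⟨n', p1, p2, p3, p4⟩ | ⟨p1, -⟩
        · have hnn : n = n' := by
            rcases lt_trichotomy n n' with hl | hl | hl
            · have := p3 n (by omega) hl
              omega
            · exact hl
            · have := q3 n' (by omega) hl
              omega
          subst hnn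
          exact q4.trans p4.symm
        · have := p1 n (by omega)
          omega
      · rcases r1 with ⟨n', p1, p2, -, -⟩ | ⟨-, p2⟩
        · have := q1 n' (by omega)
          omega
        · exact Ap.of_not q2 p2
    · rcases r0 with ⟨n, q1, q2, q3, q4⟩ | ⟨q1, q2⟩
      · have hn : n = 1 := by
          by_contra hn
          exact hc1 (q3 1 (by omega) (by omega))
        subst hn
        simpa only [Nat.cast_one, e2] using q4
      · exact absurd (q1 1 (by omega)) hc1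
  · intro k G i t t' hk hG h1 h2 h3 h4 x hx
    by_cases hi : i < L.a G ∨ L.a G = 0
    · exact hw.froz0 h hk hG hi h1 h2 h3 h4 hx
    have ha0 := h.a0 k G hk hG
    obtain ⟨ch, hc, e1⟩ := exists_chn hG hx
    have hA : min i (-1) < 0 := by omega
    have h5 : L.B ^ min i (-1) * L.u' ≤ L.B ^ i * L.u' :=
      mul_le_mul_of_nonneg_right (zpow_le_zpow_right₀ hB (min_le_left _ _)) (by linarith only [hu])
    have h6 : L.B ^ min i (-1) ≤ L.B ^ min i (-1) * L.u' :=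
      le_mul_of_one_le_right (zpow_nonneg (by linarith only [hB]) _) hu
    have r0 := hw.reach' h hk hc hA (h5.trans h3.1) (m := 0) (by rw [e1]; omega)
    have r1 := hw.reach' h hk hc hA (h5.trans h4.1) (m := 0) (by rw [e1]; omega)
    simp only [Nat.cast_zero, sub_zero, e1] at r0 r1
    rcases r0 with ⟨n, q1, q2, q3, q4⟩ | ⟨q1, q2⟩
    · rcases r1 with ⟨n', p1, p2, p3, p4⟩ | ⟨p1, -⟩
      · have hnn : n = n' := by
          rcases lt_trichotomy n n' with hl | hl | hl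
          · have := p3 n (by omega) hl
            omega
          · exact hl
          · have := q3 n' (by omega) hl
            omega
        subst hnn
        have e2 : L.a (ch n) - 1 = min i (-1) := by omega
        have h7 := hw.froz0 h (h.bd.ok_le hk (show k - n ≤ k by omega)) (hc n).1 (i := i)
          (by omega) (e2 ▸ h6.trans (h5.trans h3.1)) (e2 ▸ h6.trans (h5.trans h4.1)) h3 h4
          (hc n).2.2
        exact (q4.trans h7).trans p4.symm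
      · have := p1 n (by omega)
        omega
    · rcases r1 with ⟨n', p1, p2, -, -⟩ | ⟨-, p2⟩
      · have := q1 n' (by omega)
        omega
      · exact Ap.of_not q2 p2
  · intro k G t hk hG ht x hx
    have ht1 : L.B ^ L.T * L.u' ≤ t := (h.tm_bd _).2.2.2.trans ht
    by_cases ha : L.a G = 0
    · exact hw.idn k G t hk hG ha ht1 x hx
    have ha0 := h.a0 k G hk hG
    obtain ⟨ch, hc, e1⟩ := exists_chn hG hx
    have ht2 : L.B ^ (-1 : ℤ) * L.u' ≤ t :=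
      (mul_le_mul_of_nonneg_right (zpow_le_zpow_right₀ hB (by linarith only [h.pT]))
        (by linarith only [hu])).trans ht1
    have r0 := hw.reach' h hk hc (by norm_num) ht2 (m := 0) (by rw [e1]; omega)
    simp only [Nat.cast_zero, sub_zero, e1] at r0
    rcases r0 with ⟨n, -, q2, -, q4⟩ | ⟨q1, q2⟩
    · exact q4.trans (hw.idn (k - n) (ch n) t (h.bd.ok_le hk (by omega)) (hc n).1 (by omega) ht1 x
        (hc n).2.2)
    · refine Ap.of_not q2 (h.not_mem_of_chn hk hc fun n => ?_)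
      have := q1 n (Nat.zero_le n)
      omega

theorem lossy : ∃ B0 : ℝ, ∀ B : ℝ, B0 ≤ B → ∀ (K du : ℝ) (T : ℤ), 0 < du →
    ∃ K' : ℝ, K ≤ K' ∧ ∀ L : LE ι Y, L.OK → L.B = B → L.K = K → L.T = T → du ≤ L.u' - L.u →
      ∃ M, L.Out K' M := by
  obtain ⟨B0, f, hf, hf', hP⟩ := exists_PT (ι := ι) (Y := Y)
  refine ⟨B0, fun B hB K du T hdu => ?_⟩
  by_cases hK : 1 ≤ K
  · obtain ⟨C, hC, hP'⟩ := hP B hB K T
    obtain ⟨K', hK', hW⟩ := exists_LW (ι := ι) (Y := Y) (B := B) (C := 2500 * (K + C))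
      (by linarith only [hf, hf', hK, hC]) hdu K T
    refine ⟨K', hK', fun L hL e1 e2 e3 e4 => ?_⟩
    obtain ⟨V, rt, rs, hp⟩ := hP' L hL e1 e2 e3
    obtain ⟨W, N, hT⟩ := hp.lt hL hf hf' hC
    rw [e2] at hT
    obtain ⟨M, V', Cc, hw⟩ := hW L hL e1 e3 e4 _ rt W N hT
    exact ⟨M, hw.out hL⟩
  · exact ⟨K, le_rfl, fun L hL _ e2 _ _ => absurd (e2 ▸ hL.bd.pK) hK⟩

end Pool.Agent.Lib.MP_ecd4e3_gt.NB
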