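import Pool.Agent.Lib.MP_ecd4e3_gt.NB.XG

/-! The weights are compatible with the faces. -/

namespace Pool.Agent.Lib.MP_ecd4e3_gt.NB

open Set Filter Topology Metric MeasureTheory
open scoped NNReal ENNReal

variable {ι : Type} [Fintype ι] [DecidableEq ι] [Nonempty ι] {f : E ι → ℝ≥0∞}

set_option linter.unusedSectionVars false

theorem xh1_fl_self {k : ℤ} {x : ℝ} (h : Lat k x) : fl k x = x :=
  fl_eq h le_rfl (lt_add_of_pos_right _ (two_pos_g k))

theorem xh1_meas_lat (j : ℤ) : MeasurableSet {x : ℝ | Lat j x} := by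
  have : {x : ℝ | Lat j x} = {x | fl j x = x} :=
    Set.ext fun x => ⟨xh1_fl_self, fun h => (show fl j x = x from h) ▸ lat_fl j x⟩
  rw [this]
  exact measurableSet_eq_fun (measurable_fl j) measurable_id

theorem measurable_wX (hf : Measurable f) (γ : ℝ) (S : Finset ι) :
    Measurable fun w : Fm ι × E ι => wX f γ w.1 S w.2 := by
  classical
  refine (hf.comp measurable_lin).max (Measurable.iSup fun j => ?_)
  simp only [iSup_eq_if]
  refine Measurable.ite ?_ (Measurable.iSup fun i => Measurable.ite (MeasurableSet.const _)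
    (Measurable.iSup fun b => Measurable.pow_const ?_ _) measurable_const) measurable_const
  · simp only [ofPred_forall]
    exact MeasurableSet.iInter fun l => MeasurableSet.iInter fun _ =>
      (xh1_meas_lat j).preimage (f := fun w : Fm ι × E ι => w.2 l)
        ((measurable_pi_apply l).comp measurable_snd)
  · exact (measurable_rb hf _ _ j).comp (measurable_fst.prodMk (measurable_lin.comp
      (measurable_fst.prodMk (((measurable_flv j).comp measurable_snd).add_const _))))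

/-! ### The unit cube -/

theorem xh1_vol : volume (Icc (0 : E ι) 1) = 1 := by simp [Real.volume_Icc_pi]

theorem xh1_ae : ∀ᵐ t ∂volume.restrict (Icc (0 : E ι) 1), ∀ l, 0 ≤ t l ∧ t l < 1 := by
  have e : (univ.pi fun l : ι => Ico ((0 : E ι) l) ((1 : E ι) l)) =ᵐ[volume] Icc (0 : E ι) 1 :=
    Measure.univ_pi_Ico_ae_eq_Icc
  rw [← Measure.restrict_congr_set e]
  filter_upwards [ae_restrict_mem (MeasurableSet.univ_pi fun _ => measurableSet_Ico)] with t ht l
  exact ht l (mem_univ l)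

theorem xh1_const_le {c : ℝ≥0∞} {g : E ι → ℝ≥0∞}
    (h : ∀ t : E ι, (∀ l, 0 ≤ t l ∧ t l < 1) → c ≤ g t) : c ≤ ∫⁻ t in Icc (0 : E ι) 1, g t := by
  refine le_trans ?_ (lintegral_mono_ae (xh1_ae.mono h))
  rw [setLIntegral_const, xh1_vol, mul_one]

/-! ### Lattice identities -/

theorem xh1_fl_sn {k j : ℤ} {p : ℝ} (hp : Lat k p) (hj : j ≤ k) (s : ℝ) :
    fl j (p + 2 ^ k * s) = p + sn k j s := by
  refine fl_eq ?_ (by linarith only [(sn_bd k j s).1]) (by linarith only [(sn_bd k j s).2])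
  rw [sn, mul_comm]
  exact (hp.of_le hj).add_int _

theorem xh1_fl_up {k j : ℤ} {p s : ℝ} (hp : Lat k p) (hj : k ≤ j) (h0 : 0 ≤ s) (h1 : s < 1) :
    fl j (p + 2 ^ k * s) = fl j p := by
  have a1 := mul_nonneg (two_pos_g k).le h0
  have a2 := mul_lt_mul_of_pos_left h1 (two_pos_g k)
  have a3 := hp.gap ((lat_fl j p).add.of_le hj) (lt_fl j p)
  exact fl_eq (lat_fl j p) (by linarith only [fl_le j p, a1]) (by linarith only [a2, a3])

theorem xh1_sn_zero (j : ℤ) {s : ℝ} (h0 : 0 ≤ s) (h1 : s < 1) : sn j j s = 0 := by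
  rw [sn, mul_div_cancel_left₀ _ (two_pos_g j).ne', Int.floor_eq_zero_iff.2 ⟨h0, h1⟩]
  simp

theorem xh1_mem_fr {F : Bx ι} {i : ι} : i ∈ F.fr ↔ F.lo i ≠ F.hi i := by simp [Bx.fr]

theorem xh1_hi_in {k : ℤ} {F : Bx ι} (hF : Face k F) {l : ι} (hl : l ∈ F.fr) :
    F.hi l = F.lo l + 2 ^ k := (hF l).2.resolve_left (xh1_mem_fr.1 hl).symm

theorem xh1_hi_out {F : Bx ι} {l : ι} (hl : l ∉ F.fr) : F.hi l = F.lo l :=
  (not_not.1 fun h => hl (xh1_mem_fr.2 h)).symm

theorem xh1_pt_in {k : ℤ} {F : Bx ι} (hF : Face k F) (t : E ι) {l : ι} (hl : l ∈ F.fr) :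
    F.pt t l = F.lo l + 2 ^ k * t l := by
  rw [Bx.pt, xh1_hi_in hF hl]
  ring

theorem xh1_pt_out {F : Bx ι} (t : E ι) {l : ι} (hl : l ∉ F.fr) : F.pt t l = F.lo l := by
  rw [Bx.pt, xh1_hi_out hl]
  ring

theorem xh1_lin_fp (S : Finset ι) (v : Fm ι) (ψ : ι → ℝ → ℝ) (x t : E ι) {y : E ι}
    (h1 : ∀ l ∈ S, y l = x l + ψ l (t l)) (h2 : ∀ l ∉ S, y l = x l) :
    lin v y = fp S v ψ (lin v x) t := by
  rw [fp, lin, lin, ← Finset.sum_ite_mem_eq S, ← Finset.sum_add_distrib]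
  refine Finset.sum_congr rfl fun l _ => ?_
  split_ifs with hl
  · rw [h1 l hl, add_smul]
  · rw [h2 l hl, add_zero]

theorem xh1_e_apply (i l : ι) (b : Bool) (c : ℝ) :
    (if b = true then Pi.single i c else 0 : E ι) l = if l = i ∧ b = true then c else 0 := by
  cases b <;> simp [Pi.single_apply]

theorem xh1_lin_pt {k : ℤ} {F : Bx ι} (hF : Face k F) (v : Fm ι) (t : E ι) :
    lin v (F.pt t) = fpt F.fr v k (lin v F.lo) t :=
  xh1_lin_fp _ _ _ _ _ (fun _ hl => xh1_pt_in hF t hl) fun _ hl => xh1_pt_out t hl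

theorem xh1_lin_anc {k j : ℤ} {F : Bx ι} (hF : Face k F) (hj : j ≤ k) (v : Fm ι) (t : E ι) {i : ι}
    (hi : i ∈ F.fr) (b : Bool) :
    lin v (flv j (F.pt t) + if b = true then Pi.single i ((2 : ℝ) ^ j) else 0) =
      anc F.fr v k j i b (lin v F.lo) t := by
  refine xh1_lin_fp _ _ _ _ _ (fun l hl => ?_) fun l hl => ?_
  · rw [Pi.add_apply, xh1_e_apply, flv, xh1_pt_in hF t hl, xh1_fl_sn (hF l).1 hj, add_assoc]
  · rw [Pi.add_apply, xh1_e_apply, flv, xh1_pt_out t hl, xh1_fl_self ((hF l).1.of_le hj),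
      if_neg fun h : l = i ∧ b = true => hl (h.1 ▸ hi), add_zero]

theorem xh1_flv_up {k j : ℤ} {F : Bx ι} (hF : Face k F) (hj : k ≤ j) {t : E ι}
    (ht : ∀ l, 0 ≤ t l ∧ t l < 1) : flv j (F.pt t) = flv j F.lo := by
  funext l
  by_cases hl : l ∈ F.fr
  · rw [flv, flv, xh1_pt_in hF t hl, xh1_fl_up (hF l).1 hj (ht l).1 (ht l).2]
  · rw [flv, flv, xh1_pt_out t hl]

theorem xh1_le_wX (γ : ℝ) (v : Fm ι) {S : Finset ι} {x : E ι} {j : ℤ} (hj : ∀ l ∉ S, Lat j (x l))
    {i : ι} (hi : i ∈ S) (b : Bool) :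
    rb f γ v (S.card - 1) (S.erase i) j
      (lin v (flv j x + if b = true then Pi.single i ((2 : ℝ) ^ j) else 0)) ^ γ ≤ wX f γ v S x :=
  le_max_of_le_right (le_iSup₂_of_le j hj (le_iSup₂_of_le i hi (le_iSup_of_le b le_rfl)))

theorem rb_le_rho (hf : Measurable f) (γ : ℝ) (v : Fm ι) {k : ℤ} {F : Bx ι} (hF : Face k F)
    (hn : F.fr.Nonempty) : rb f γ v F.fr.card F.fr k (lin v F.lo) ≤ rho (wX f γ v) F := by
  obtain ⟨n, e⟩ : ∃ n, F.fr.card = n + 1 := Nat.exists_eq_succ_of_ne_zero hn.card_pos.ne'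
  rw [e, rb]
  refine lintegral_mono fun t => max_le ?_
    (iSup₂_le fun j hj => iSup₂_le fun i hi => iSup_le fun b => ?_)
  · rw [← xh1_lin_pt hF]
    exact le_max_left _ _
  · have := xh1_le_wX (f := f) γ v (x := F.pt t) (j := j)
      (fun l hl => by rw [xh1_pt_out t hl]; exact (hF l).1.of_le hj) hi b
    rwa [xh1_lin_anc hF hj v t hi, e, Nat.add_sub_cancel] at this

/-- A facet term is bounded by the mean weight of the face of the same level. -/
theorem xh1_term_le (γ : ℝ) (v : Fm ι) (n : ℕ) {S : Finset ι} (j : ℤ) (x : E ι) {i : ι}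
    (hi : i ∈ S) (b : Bool) :
    rb f γ v n (S.erase i) j (lin v (x + if b = true then Pi.single i ((2 : ℝ) ^ j) else 0)) ^ γ ≤
      rb f γ v (n + 1) S j (lin v x) := by
  rw [rb]
  refine xh1_const_le fun t ht => le_max_of_le_right
    (le_iSup₂_of_le j le_rfl (le_iSup₂_of_le i hi (le_iSup_of_le b (le_of_eq ?_))))
  congr 2
  refine xh1_lin_fp _ _ _ _ _ (fun l _ => ?_) fun l hl => ?_
  · rw [Pi.add_apply, xh1_e_apply, xh1_sn_zero j (ht l).1 (ht l).2, zero_add]
  · rw [Pi.add_apply, xh1_e_apply, if_neg fun h : l = i ∧ b = true => hl (h.1 ▸ hi), add_zero]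

/-- The position of a facet. -/
theorem xh1_facet {k : ℤ} {F F' : Bx ι} (hF : Face k F) (hF' : Face k F') (hs : F'.set ⊆ F.set)
    (hc : F'.fr.card + 1 = F.fr.card) : ∃ i ∈ F.fr, ∃ b : Bool, F'.fr = F.fr.erase i ∧
      F'.lo = F.lo + if b = true then Pi.single i ((2 : ℝ) ^ k) else 0 := by
  have h1 := (Bx.subset_iff hF'.le).1 hs
  have p := two_pos_g k
  have h2 : ∀ l ∈ F'.fr, l ∈ F.fr ∧ F'.lo l = F.lo l := fun l hl => by
    have a1 := xh1_hi_in hF' hl
    have a2 := h1 l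
    have a3 : l ∈ F.fr := xh1_mem_fr.2 (ne_of_lt (by linarith only [p, a1, a2]))
    have a4 := xh1_hi_in hF a3
    exact ⟨a3, by linarith only [a2, a1, a4]⟩
  have h3 : F'.fr ⊆ F.fr := fun l hl => (h2 l hl).1
  obtain ⟨i, hi, hi'⟩ := Finset.exists_mem_notMem_of_card_lt_card (s := F'.fr) (t := F.fr)
    (by omega)
  have h4 : F'.fr = F.fr.erase i := Finset.eq_of_subset_of_card_le
    (fun l hl => Finset.mem_erase.2 ⟨fun e => hi' (e ▸ hl), h3 hl⟩)
    (by rw [Finset.card_erase_of_mem hi]; omega)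
  have h5 : ∀ l, l ≠ i → F'.lo l = F.lo l := fun l hl => by
    by_cases a : l ∈ F.fr
    · exact (h2 l (h4 ▸ Finset.mem_erase.2 ⟨hl, a⟩)).2
    · have a1 := xh1_hi_out a
      have a2 := h1 l
      have a3 := hF'.le l
      linarith only [a2, a1, a3]
  have h6 : ∃ b : Bool, F'.lo i = F.lo i + if b = true then 2 ^ k else 0 := by
    rcases (h1 i).1.eq_or_lt with e | e
    · exact ⟨false, by simp [e]⟩
    · have a1 := (hF i).1.gap (hF' i).1 e
      have a2 := xh1_hi_in hF hi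
      have a3 := hF'.le i
      have a4 := (h1 i).2
      exact ⟨true, by rw [if_pos rfl]; linarith only [a1, a2, a3, a4]⟩
  obtain ⟨b, h6⟩ := h6
  refine ⟨i, hi, b, h4, funext fun l => ?_⟩
  rw [Pi.add_apply, xh1_e_apply]
  by_cases e : l = i
  · rw [e, h6]
    simp
  · rw [h5 l e, if_neg fun h => e h.1, add_zero]

/-- The faces of higher level which contain the facet are seen from the face. -/
theorem xh1_up (γ : ℝ) (v : Fm ι) {k j : ℤ} {F : Bx ι} (hF : Face k F) (hj : k ≤ j) {i : ι}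
    (hi : i ∈ F.fr) (b : Bool) {x : E ι}
    (hx : x = F.lo + if b = true then Pi.single i ((2 : ℝ) ^ k) else 0)
    (hl : ∀ l ∉ F.fr.erase i, Lat j (x l)) :
    rb f γ v (F.fr.card - 1) (F.fr.erase i) j (lin v (flv j x)) ^ γ ≤ rho (wX f γ v) F := by
  have h1 : ∀ l, l ≠ i → x l = F.lo l := fun l e => by
    rw [hx, Pi.add_apply, xh1_e_apply, if_neg fun h => e h.1, add_zero]
  have h2 : flv j x = flv j F.lo + if b = true then Pi.single i ((2 : ℝ) ^ j) else 0 := by
    funext l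
    rw [Pi.add_apply, xh1_e_apply, flv, flv]
    by_cases e : l = i
    · subst e
      have a1 := hl l (Finset.notMem_erase _ _)
      cases b
      · simp [hx]
      · have a2 : x l = F.lo l + 2 ^ k := by simp [hx]
        have a3 := two_le_g.2 hj
        have a4 := two_pos_g k
        have a5 : fl j (F.lo l) = x l + (-1 : ℤ) * 2 ^ j :=
          fl_eq (a1.add_int _) (by push_cast; linarith only [a2, a3]) (by push_cast; linarith only [a2, a4])
        rw [xh1_fl_self a1, a5, if_pos ⟨rfl, rfl⟩]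
        push_cast
        ring
    · rw [h1 l e, if_neg fun h => e h.1, add_zero]
  refine xh1_const_le fun t ht => ?_
  rw [h2, ← xh1_flv_up hF hj ht]
  refine xh1_le_wX γ v (fun l a => ?_) hi b
  have e : l ≠ i := fun e => a (e ▸ hi)
  rw [xh1_pt_out t a, ← h1 l e]
  exact hl l fun c => a (Finset.mem_of_mem_erase c)

theorem xh1_gam : 0 < gam ι ∧ gam ι ≤ 2 := by
  have h : (1 : ℝ) ≤ Fintype.card ι := by exact_mod_cast Fintype.card_pos
  unfold gam
  refine ⟨div_pos (by linarith only [h]) (by linarith only [h]), ?_⟩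
  rw [div_le_iff₀ (by linarith only [h])]
  linarith only [h]

theorem xh1_fac {γ : ℝ} (h0 : 0 < γ) (h2 : γ ≤ 2) (v : Fm ι) {k : ℤ} {F F' : Bx ι}
    (hF : Face k F) (hF' : Face k F') (hs : F'.set ⊆ F.set) (hc : F'.fr.card + 1 = F.fr.card)
    (hn : F'.fr.Nonempty) : rho (wX f γ v) F' ^ γ ≤ 4 * rho (wX f γ v) F := by
  obtain ⟨i, hi, b, e1, e2⟩ := xh1_facet hF hF' hs hc
  obtain ⟨n, e⟩ : ∃ n, F'.fr.card = n + 1 := Nat.exists_eq_succ_of_ne_zero hn.card_pos.ne'
  have up : ∀ j, k ≤ j → (∀ l ∉ F'.fr, Lat j (F'.lo l)) →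
      rb f γ v (n + 1) F'.fr j (lin v (flv j F'.lo)) ≤ rho (wX f γ v) F ^ γ⁻¹ := fun j hj hl => by
    have := xh1_up (f := f) γ v hF hj hi b e2 (e1 ▸ hl)
    rwa [← e1, show F.fr.card - 1 = n + 1 by omega, ← ENNReal.le_rpow_inv_iff h0] at this
  have a1 := up k le_rfl fun l _ => (hF' l).1
  rw [show flv k F'.lo = F'.lo from funext fun l => xh1_fl_self (hF' l).1] at a1
  have a2 : rho (wX f γ v) F' ≤
      rb f γ v (n + 1) F'.fr k (lin v F'.lo) + rho (wX f γ v) F ^ γ⁻¹ := by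
    rw [rb, ← mul_one (rho (wX f γ v) F ^ γ⁻¹), ← xh1_vol (ι := ι), ← setLIntegral_const,
      ← lintegral_add_right _ measurable_const]
    refine lintegral_mono_ae (xh1_ae.mono fun t ht => max_le ?_
      (iSup₂_le fun j hj => iSup₂_le fun i' hi' => iSup_le fun b' => ?_))
    · rw [xh1_lin_pt hF']
      exact le_add_right (le_max_left _ _)
    · rw [e, Nat.add_sub_cancel]
      rcases le_total j k with c | c
      · rw [xh1_lin_anc hF' c v t hi']
        exact le_add_right (le_max_of_le_right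
          (le_iSup₂_of_le j c (le_iSup₂_of_le i' hi' (le_iSup_of_le b' le_rfl))))
      · rw [xh1_flv_up hF' c ht]
        refine le_add_left ((xh1_term_le γ v n j _ hi' b').trans (up j c fun l hl => ?_))
        rw [← xh1_pt_out t hl]
        exact hj l hl
  have a3 : rho (wX f γ v) F' ≤ 2 * rho (wX f γ v) F ^ γ⁻¹ := by
    rw [two_mul]
    exact a2.trans (add_le_add a1 le_rfl)
  refine (ENNReal.rpow_le_rpow a3 h0.le).trans ?_
  rw [ENNReal.mul_rpow_of_nonneg _ _ h0.le, ENNReal.rpow_inv_rpow h0.ne']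
  refine mul_le_mul' ((ENNReal.rpow_le_rpow_of_exponent_le one_le_two h2).trans_eq ?_) le_rfl
  rw [ENNReal.rpow_two]
  norm_num

theorem wt_wX (hf : Measurable f) (h0 : ∀ x, 0 < f x) (h1 : ∀ x, f x ≤ 1) (v : Fm ι) :
    Wt {x | f (lin v x) = 1} (wX f (gam ι) v) := by
  have g := xh1_gam (ι := ι)
  have hle : ∀ S x, wX f (gam ι) v S x ≤ 1 := fun S x => max_le (h1 _)
    (iSup₂_le fun j _ => iSup₂_le fun i _ => iSup_le fun b =>
      ENNReal.rpow_le_one (rb_le_one g.1 h1 _ _ _ _ _) g.1.le)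
  exact ⟨fun S => (measurable_wX hf _ S).comp measurable_prodMk_left,
    fun S x => lt_max_of_lt_left (h0 _), hle,
    fun S x hx => (hle S x).antisymm (le_max_of_le_left (ge_of_eq hx)),
    fun k F F' hF hF' hs hc hn => xh1_fac g.1 g.2 v hF hF' hs hc hn⟩

theorem Wt.anti {V V' : Set (E ι)} {w : Finset ι → E ι → ℝ≥0∞} (h : Wt V w) (hV : V' ⊆ V) :
    Wt V' w := ⟨h.meas, h.pos, h.le, fun S x hx => h.one S x (hV hx), h.fac⟩

end Pool.Agent.Lib.MP_ecd4e3_gt.NB
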