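import Pool.Agent.Lib.MP_ecd4e3_gt.NB.XInd
import Pool.Agent.Lib.MP_ecd4e3_gt.NB.XH1

/-! The X-ray theorem. -/

namespace Pool.Agent.Lib.MP_ecd4e3_gt.NB

open Set Filter Topology Metric MeasureTheory
open scoped NNReal ENNReal

variable {ι : Type} [Fintype ι] [DecidableEq ι] [Nonempty ι]

namespace XHf

/-- The anchor of a facet of the cube of level `j` at `x`. -/
noncomputable def ap (j : ℤ) (i : ι) (b : Bool) (x : E ι) : E ι :=
  flv j x + if b = true then Pi.single i ((2 : ℝ) ^ j) else 0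

omit [Nonempty ι] in
theorem ap_dist (j : ℤ) (i : ι) (b : Bool) (x : E ι) : dist x (ap j i b x) ≤ 2 ^ j := by
  have h2 : (0 : ℝ) < 2 ^ j := by positivity
  refine (dist_pi_le_iff h2.le).2 fun l => ?_
  have a1 := fl_le j (x l)
  have a2 := lt_fl j (x l)
  rw [Real.dist_eq, abs_le]
  by_cases e : b = true ∧ l = i
  · simp only [ap, e.1, e.2, if_true, Pi.add_apply, flv, Pi.single_eq_same] at a1 a2 ⊢
    constructor <;> linarith
  · have a3 : (if b = true then Pi.single i ((2 : ℝ) ^ j) else 0 : E ι) l = 0 := by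
      split_ifs with c
      · exact Pi.single_eq_of_ne (fun d => e ⟨c, d⟩) _
      · rfl
    simp only [ap, Pi.add_apply, flv, a3]
    constructor <;> linarith

theorem measurable_ap (j : ℤ) (i : ι) (b : Bool) : Measurable (ap j i b : E ι → E ι) :=
  (measurable_flv j).add_const _

theorem meas_sh {p : E ι → E ι} (hp : Measurable p) :
    Measurable fun w : Fm ι × E ι => (w.1, lin w.1 (p w.2)) :=
  measurable_fst.prodMk (measurable_lin.comp (measurable_fst.prodMk (hp.comp measurable_snd)))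

theorem int_lin {G : Fm ι × E ι → ℝ≥0∞} (hG : Measurable G) :
    ∫⁻ w, G (w.1, lin w.1 w.2) ∂PZ ι ≤ 2 ^ Fintype.card ι * ∫⁻ w, G w ∂PZ ι := by
  rw [lintegral_PZ (F := fun w => G (w.1, lin w.1 w.2)) (hG.comp (meas_sh measurable_id)),
    lintegral_PZ hG, ← lintegral_const_mul' _ _ (by simp)]
  refine lintegral_mono_ae (PV_ae.mono fun v hv => ?_)
  exact lintegral_lin hv (F := fun y => G (v, y)) (hG.comp measurable_prodMk_left)

theorem PZ_ae : ∀ᵐ w ∂PZ ι, w.1 ∈ Sv ι :=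
  (Measure.quasiMeasurePreserving_fst (μ := PV ι) (ν := (volume : Measure (E ι)))).ae PV_ae

omit [DecidableEq ι] in
theorem one_lt_gam : 1 < gam ι := by
  have h : (1 : ℝ) ≤ Fintype.card ι := by exact_mod_cast Fintype.card_pos
  rw [gam, one_lt_div (by linarith)]
  linarith

end XHf

open XHf

theorem mean_wX {γ : ℝ} (hγ : 1 < γ) : ∃ C : ℝ≥0, ∀ f : E ι → ℝ≥0∞, Measurable f →
    (∀ x, f x ≤ 1) → ∫⁻ w, wX f γ w.1 Finset.univ w.2 ∂PZ ι ≤ C * ∫⁻ x, f x := by
  obtain ⟨C1, h1⟩ := rb_dom (ι := ι) hγ (Fintype.card ι - 1)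
  obtain ⟨C2, h2⟩ := smear (ι := ι)
  refine ⟨2 ^ Fintype.card ι + Fintype.card ι * (2 * ((C2 + 2 ^ Fintype.card ι) * C1)),
    fun f hf hle => ?_⟩
  have hd : ∀ i : ι, ∃ ζ Θ, Dom (fun k w => rb f γ w.1 (Fintype.card ι - 1)
      (Finset.univ.erase i) k w.2 ^ γ) (C1 * ∫⁻ x, f x) ζ Θ ∧ (∀ k, Ind i (ζ k)) ∧ Ind i Θ := by
    intro i
    obtain ⟨ζ, Θ, h⟩ := h1 (Finset.univ.erase i)
      (by rw [Finset.card_erase_of_mem (Finset.mem_univ i), Finset.card_univ]) f hf hle
    exact h.ind fun k v u y => congrArg (· ^ γ)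
      (rb_ind (f := f) (γ := γ) _ (Finset.notMem_erase i Finset.univ) k v u y)
  choose ζ Θ hD hI _ using hd
  have m1 : Measurable fun w : Fm ι × E ι => f (lin w.1 w.2) := hf.comp measurable_lin
  have m2 : ∀ i j b, Measurable fun w : Fm ι × E ι => ζ i j (w.1, lin w.1 (ap j i b w.2)) :=
    fun i j b => ((hD i).mζ j).comp (meas_sh (measurable_ap j i b))
  have m3 : ∀ i, Measurable fun w : Fm ι × E ι => Θ i (w.1, lin w.1 w.2) :=
    fun i => (hD i).mΘ.comp (meas_sh measurable_id)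
  have m4 : ∀ i b, Measurable fun w : Fm ι × E ι =>
      ∑' j, ζ i j (w.1, lin w.1 (ap j i b w.2)) + Θ i (w.1, lin w.1 w.2) :=
    fun i b => (Measurable.tsum fun j => m2 i j b).add (m3 i)
  have a1 : ∀ᵐ w ∂PZ ι, wX f γ w.1 Finset.univ w.2 ≤ f (lin w.1 w.2) + ∑ i, ∑ b : Bool,
      (∑' j, ζ i j (w.1, lin w.1 (ap j i b w.2)) + Θ i (w.1, lin w.1 w.2)) := by
    refine PZ_ae.mono fun w hw => max_le le_self_add (le_add_left ?_)
    refine iSup_le fun j => iSup_le fun _ => iSup_le fun i => iSup_le fun _ => iSup_le fun b => ?_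
    have b1 := (hD i).dom j w.1 hw (lin w.1 (ap j i b w.2)) (lin w.1 w.2) (by
      have c1 := (lin_dist hw w.2 (ap j i b w.2)).1
      have c2 := ap_dist j i b w.2
      have c3 : (0 : ℝ) < 2 ^ j := by positivity
      linarith)
    rw [Finset.card_univ]
    refine b1.trans (le_trans ?_ (Finset.single_le_sum (f := fun i => ∑ b : Bool,
      (∑' j, ζ i j (w.1, lin w.1 (ap j i b w.2)) + Θ i (w.1, lin w.1 w.2)))
      (fun _ _ => zero_le) (Finset.mem_univ i)))
    refine le_trans ?_ (Finset.single_le_sum (f := fun b : Bool =>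
      ∑' j, ζ i j (w.1, lin w.1 (ap j i b w.2)) + Θ i (w.1, lin w.1 w.2))
      (fun _ _ => zero_le) (Finset.mem_univ b))
    exact add_le_add_left (ENNReal.le_tsum (f := fun j => ζ i j (w.1, lin w.1 (ap j i b w.2))) j) _
  have a2 : ∫⁻ w, f (lin w.1 w.2) ∂PZ ι ≤ 2 ^ Fintype.card ι * ∫⁻ x, f x := by
    have := int_lin (G := fun w : Fm ι × E ι => f w.2) (hf.comp measurable_snd)
    rw [lintegral_PZ (F := fun w => f w.2) (hf.comp measurable_snd)] at this
    simpa only [lintegral_const, measure_univ, mul_one] using this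
  have a3 : ∀ i b, ∫⁻ w, (∑' j, ζ i j (w.1, lin w.1 (ap j i b w.2)) + Θ i (w.1, lin w.1 w.2))
      ∂PZ ι ≤ (C2 + 2 ^ Fintype.card ι) * C1 * ∫⁻ x, f x := by
    intro i b
    rw [lintegral_add_right _ (m3 i), lintegral_tsum fun j => (m2 i j b).aemeasurable, mul_assoc,
      add_mul]
    refine add_le_add ?_ ((int_lin (hD i).mΘ).trans (mul_le_mul_right (hD i).sΘ _))
    refine (ENNReal.tsum_le_tsum fun j => h2 i j b _ ((hD i).mζ j) (hI i j)).trans ?_
    rw [ENNReal.tsum_mul_left]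
    exact mul_le_mul_right (hD i).sζ _
  refine (lintegral_mono_ae a1).trans ?_
  rw [lintegral_add_left m1, lintegral_finsetSum _ fun i _ =>
    Finset.measurable_fun_sum _ fun b _ => m4 i b]
  push_cast
  rw [add_mul]
  refine add_le_add a2 ?_
  refine (Finset.sum_le_card_nsmul _ _ (2 * ((C2 + 2 ^ Fintype.card ι) * C1) * ∫⁻ x, f x)
    fun i _ => ?_).trans (by rw [Finset.card_univ, nsmul_eq_mul, ← mul_assoc])
  rw [lintegral_finsetSum _ fun b _ => m4 i b, Fintype.sum_bool, mul_assoc, two_mul]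
  exact add_le_add (a3 i _) (a3 i _)

/-- The X-ray theorem. -/
theorem exists_Wt : ∃ C : ℝ≥0, ∀ (U : Set (E ι)) (μ : ℝ≥0∞), MeasurableSet U → 0 < μ →
    volume U ≤ μ → ∃ v ∈ Sv ι, ∃ w, Wt (lin v ⁻¹' U) w ∧ ∫⁻ x, w Finset.univ x ≤ C * μ := by
  obtain ⟨C, hC⟩ := mean_wX (ι := ι) (one_lt_gam (ι := ι))
  refine ⟨C * 2, fun U μ hU h0 hμ => ?_⟩
  obtain ⟨g, g1, g2, g3⟩ := exists_floor (ι := ι) h0
  have m1 : Measurable (U.indicator (1 : E ι → ℝ≥0∞)) := measurable_one.indicator hU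
  set f : E ι → ℝ≥0∞ := fun x => max (U.indicator 1 x) (g x) with hf
  have f1 : Measurable f := m1.max g1
  have f2 : ∀ x, f x ≤ 1 := fun x => max_le (indicator_le_self' (fun _ _ => zero_le) x) (g2 x).2
  have f3 : ∫⁻ x, f x ≤ 2 * μ := by
    refine (lintegral_mono fun x => max_le_add_of_nonneg zero_le zero_le).trans ?_
    rw [lintegral_add_left m1, lintegral_indicator_one hU, two_mul]
    exact add_le_add hμ g3
  have m2 := measurable_wX f1 (gam ι) Finset.univ
  have a1 := hC f f1 f2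
  rw [lintegral_PZ m2] at a1
  obtain ⟨v, hv, a2⟩ := exists_notMem_null_le_lintegral (μ := PV ι) (N := (Sv ι)ᶜ)
    (m2.lintegral_prod_right' (ν := volume)).aemeasurable PV_ae
  refine ⟨v, not_not.1 hv, wX f (gam ι) v,
    (wt_wX f1 (fun x => lt_max_of_lt_right (g2 x).1) f2 v).anti fun x hx => ?_, ?_⟩
  · refine le_antisymm (f2 _) (le_max_of_le_left ?_)
    rw [indicator_of_mem (show lin v x ∈ U from hx), Pi.one_apply]
  · refine (a2.trans a1).trans ((mul_le_mul_right f3 _).trans_eq ?_)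
    push_cast
    rw [mul_assoc]

end Pool.Agent.Lib.MP_ecd4e3_gt.NB
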