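import Pool.Agent.Lib.MP_ecd4e3_gt.NB.Defs

/-! Lattices and boxes. -/

namespace Pool.Agent.Lib.MP_ecd4e3_gt.NB

open Set Filter Topology Metric MeasureTheory
open scoped NNReal ENNReal

theorem cl_mem {a b : ℝ} (h : a ≤ b) (x : ℝ) : cl a b x ∈ Icc a b :=
  ⟨le_max_left _ _, max_le h (min_le_left _ _)⟩
theorem cl_of_mem {a b x : ℝ} (h : x ∈ Icc a b) : cl a b x = x := by
  rw [cl, min_eq_right h.2, max_eq_right h.1]
theorem cl_lip (a b x y : ℝ) : |cl a b x - cl a b y| ≤ |x - y| := by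
  refine (abs_max_sub_max_le_max _ _ _ _).trans (max_le (by simp) ?_)
  exact (abs_min_sub_min_le_max _ _ _ _).trans (max_le (by simp) le_rfl)

theorem two_pos_g (k : ℤ) : (0 : ℝ) < 2 ^ k := by positivity
theorem two_succ_g (k : ℤ) : (2 : ℝ) ^ (k + 1) = 2 * 2 ^ k := by
  rw [zpow_add_one₀ two_ne_zero, mul_comm]
theorem two_pred_g (k : ℤ) : (2 : ℝ) ^ k = 2 * 2 ^ (k - 1) := by rw [← two_succ_g, sub_add_cancel]
theorem two_le_g {k j : ℤ} : (2 : ℝ) ^ k ≤ 2 ^ j ↔ k ≤ j := zpow_le_zpow_iff_right₀ one_lt_two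

theorem Lat.down {k : ℤ} {x : ℝ} (h : Lat k x) : Lat (k - 1) x := by
  obtain ⟨m, rfl⟩ := h
  rw [two_pred_g k]
  by_cases e : Even k
  · refine ⟨2 * m + 1, ?_⟩
    rw [if_pos e, if_neg (by simpa [Int.even_sub_one] using e)]
    push_cast
    ring
  · refine ⟨2 * m - 1, ?_⟩
    rw [if_neg e, if_pos (by simpa [Int.even_sub_one] using e)]
    push_cast
    ring
theorem Lat.of_le {k j : ℤ} {x : ℝ} (h : Lat k x) (hj : j ≤ k) : Lat j x := by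
  induction j, hj using Int.leInductionDown with
  | base => exact h
  | pred j _ ih => exact ih.down
theorem Lat.add_int {k : ℤ} {x : ℝ} (h : Lat k x) (m : ℤ) : Lat k (x + m * 2 ^ k) := by
  obtain ⟨n, rfl⟩ := h
  exact ⟨n + m, by push_cast; ring⟩
theorem Lat.add {k : ℤ} {x : ℝ} (h : Lat k x) : Lat k (x + 2 ^ k) := by
  simpa using h.add_int 1
theorem Lat.sub_int {k : ℤ} {x y : ℝ} (h : Lat k x) (h' : Lat k y) : ∃ m : ℤ, y = x + m * 2 ^ k := by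
  obtain ⟨n, rfl⟩ := h
  obtain ⟨m, rfl⟩ := h'
  exact ⟨m - n, by push_cast; ring⟩
theorem Lat.gap {k : ℤ} {x y : ℝ} (h : Lat k x) (h' : Lat k y) (hxy : x < y) : x + 2 ^ k ≤ y := by
  obtain ⟨m, rfl⟩ := h.sub_int h'
  have h1 : (0 : ℝ) < m := (mul_pos_iff_of_pos_right (two_pos_g k)).1 (by linarith only [hxy])
  have h2 : (1 : ℝ) ≤ m := by exact_mod_cast (Int.cast_pos.1 h1 : 0 < m)
  nlinarith only [two_pos_g k, hxy, h2, h1]
theorem Lat.abs_ge {k : ℤ} {x : ℝ} (h : Lat k x) : 2 ^ k / 3 ≤ |x| := by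
  obtain ⟨m, rfl⟩ := h
  rw [abs_mul, abs_of_pos (two_pos_g k), div_eq_mul_one_div]
  refine mul_le_mul_of_nonneg_left ?_ (two_pos_g k).le
  rcases lt_trichotomy m 0 with h | rfl | h
  · have : (m : ℝ) ≤ -1 := by exact_mod_cast (by omega : m ≤ -1)
    refine le_abs.2 (Or.inr ?_)
    split_ifs <;> linarith only [this]
  · split_ifs <;> norm_num [abs_div]
  · have : (1 : ℝ) ≤ m := by exact_mod_cast h
    refine le_abs.2 (Or.inl ?_)
    split_ifs <;> linarith only [this]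

/-- The lattice point below `x`. -/
noncomputable def fl (k : ℤ) (x : ℝ) : ℝ :=
  (2 : ℝ) ^ k * (⌊x / 2 ^ k - if Even k then 1 / 3 else -1 / 3⌋ + if Even k then 1 / 3 else -1 / 3)

theorem lat_fl (k : ℤ) (x : ℝ) : Lat k (fl k x) := ⟨_, rfl⟩
theorem fl_le (k : ℤ) (x : ℝ) : fl k x ≤ x := by
  rw [fl, ← le_div_iff₀' (two_pos_g k), ← le_sub_iff_add_le]
  exact Int.floor_le _
theorem lt_fl (k : ℤ) (x : ℝ) : x < fl k x + 2 ^ k := by
  rw [fl, ← mul_add_one, ← div_lt_iff₀' (two_pos_g k), add_right_comm, ← sub_lt_iff_lt_add]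
  exact Int.lt_floor_add_one _
theorem Lat.le_fl_g {k : ℤ} {l x : ℝ} (h : Lat k l) (h1 : l ≤ x) : l ≤ fl k x :=
  not_lt.1 fun h2 => by linarith only [(lat_fl k x).gap h h2, lt_fl k x, h1, h2]
theorem fl_eq {k : ℤ} {l x : ℝ} (h : Lat k l) (h1 : l ≤ x) (h2 : x < l + 2 ^ k) : fl k x = l :=
  le_antisymm (not_lt.1 fun h3 => by linarith only [h.gap (lat_fl k x) h3, fl_le k x, h2, h3]) (h.le_fl_g h1)
theorem measurable_fl (k : ℤ) : Measurable (fl k) :=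
  (((measurable_from_top (f := fun m : ℤ => (m : ℝ))).comp
    ((measurable_id.div_const _).sub_const _).floor).add_const _).const_mul _

theorem Lat.finite_g (k : ℤ) (a b : ℝ) : {x | Lat k x ∧ x ∈ Icc a b}.Finite := by
  refine ((finite_Icc (0 : ℤ) ⌈(b - fl k a) / 2 ^ k⌉).image
    fun m : ℤ => fl k a + m * 2 ^ k).subset fun x hx => ?_
  obtain ⟨m, rfl⟩ := (lat_fl k a).sub_int hx.1
  have h1 := (fl_le k a).trans hx.2.1
  refine ⟨m, ⟨Int.cast_nonneg_iff.1 (nonneg_of_mul_nonneg_left (by linarith only [h1]) (two_pos_g k)),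
    Int.cast_le.1 (le_trans ?_ (Int.le_ceil _))⟩, rfl⟩
  rw [le_div_iff₀ (two_pos_g k)]
  linarith only [hx.2.2]

variable {ι : Type} [Fintype ι] [DecidableEq ι]

/-- The cube of level `k` whose half-open version contains `x`. -/
noncomputable def cubeAt (k : ℤ) (x : E ι) : Bx ι := ⟨fun i => fl k (x i), fun i => fl k (x i) + 2 ^ k⟩

set_option linter.unusedSectionVars false

theorem cube_cubeAt (k : ℤ) (x : E ι) : Cube k (cubeAt k x) := fun _ => ⟨lat_fl _ _, rfl⟩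
theorem mem_cubeAt (k : ℤ) (x : E ι) : x ∈ (cubeAt k x).set :=
  ⟨fun _ => fl_le _ _, fun _ => (lt_fl _ _).le⟩

theorem Bx.ext' {Q Q' : Bx ι} (h1 : Q.lo = Q'.lo) (h2 : Q.hi = Q'.hi) : Q = Q' := by
  cases Q
  cases Q'
  congr
theorem Bx.mem_set {Q : Bx ι} {x : E ι} : x ∈ Q.set ↔ ∀ i, Q.lo i ≤ x i ∧ x i ≤ Q.hi i :=
  forall_and.symm
theorem Bx.subset_iff {Q Q' : Bx ι} (h : ∀ i, Q.lo i ≤ Q.hi i) :
    Q.set ⊆ Q'.set ↔ ∀ i, Q'.lo i ≤ Q.lo i ∧ Q.hi i ≤ Q'.hi i :=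
  (Icc_subset_Icc_iff h).trans forall_and.symm
theorem Bx.isCompact_set (Q : Bx ι) : IsCompact Q.set := isCompact_Icc
theorem Bx.isClosed_set (Q : Bx ι) : IsClosed Q.set := isClosed_Icc
theorem Bx.convex_set (Q : Bx ι) : Convex ℝ Q.set := convex_Icc _ _
theorem Bx.isClosed_bd (Q : Bx ι) : IsClosed Q.bd := by
  refine Q.isClosed_set.inter (s₂ := {x | ∃ i, x i = Q.lo i ∨ x i = Q.hi i}) ?_
  rw [ofPred_exists]
  exact isClosed_iUnion_of_finite fun i => (isClosed_eq (continuous_apply i)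
    continuous_const).union (isClosed_eq (continuous_apply i) continuous_const)
theorem Bx.bd_subset (Q : Bx ι) : Q.bd ⊆ Q.set := fun _ h => h.1
theorem Bx.dist_le {Q : Bx ι} {S : ℝ} (hS : 0 ≤ S) (h : ∀ i, Q.sd i ≤ S) {x y : E ι}
    (hx : x ∈ Q.set) (hy : y ∈ Q.set) : dist x y ≤ S :=
  (dist_pi_le_iff hS).2 fun i =>
    (Real.dist_le_of_mem_Icc ⟨hx.1 i, hx.2 i⟩ ⟨hy.1 i, hy.2 i⟩).trans (h i)
theorem Bx.Pos.sd_g {Q : Bx ι} (h : Q.Pos) (i : ι) : 0 < Q.sd i := sub_pos.2 (h i)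
theorem Bx.Pos.vol_pos {Q : Bx ι} (h : Q.Pos) : 0 < Q.vol := Finset.prod_pos fun i _ => h.sd_g i
theorem Bx.Pos.volume_set {Q : Bx ι} (h : Q.Pos) : volume Q.set = ENNReal.ofReal Q.vol := by
  rw [Bx.set, Real.volume_Icc_pi, Bx.vol, ENNReal.ofReal_prod_of_nonneg fun i _ => (h.sd_g i).le]
  rfl
theorem Bx.Pos.nm_af {Q : Bx ι} (h : Q.Pos) (x : E ι) : Q.nm (Q.af x) = x := by
  ext i
  rw [Bx.nm, Bx.af, div_eq_iff (h.sd_g i).ne', Bx.mid]
  ring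
theorem Bx.Pos.af_nm {Q : Bx ι} (h : Q.Pos) (x : E ι) : Q.af (Q.nm x) = x := by
  ext i
  have := (h.sd_g i).ne'
  rw [Bx.af, Bx.nm, Bx.mid]
  field_simp
  ring
theorem Bx.Pos.af_lo_g {Q : Bx ι} (h : Q.Pos) (x : E ι) (i : ι) :
    (Q.lo i ≤ Q.af x i ↔ -1 ≤ x i) ∧ (Q.af x i = Q.lo i ↔ x i = -1) := by
  have h1 : Q.af x i = Q.lo i + Q.sd i / 2 * (x i + 1) := by
    rw [Bx.af, Bx.mid, Bx.sd]
    ring
  have h2 := half_pos (h.sd_g i)
  rw [h1, le_add_iff_nonneg_right, mul_nonneg_iff_of_pos_left h2, add_eq_left, mul_eq_zero,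
    or_iff_right h2.ne', add_eq_zero_iff_eq_neg, neg_le_iff_add_nonneg]
  exact ⟨Iff.rfl, Iff.rfl⟩
theorem Bx.Pos.af_hi_g {Q : Bx ι} (h : Q.Pos) (x : E ι) (i : ι) :
    (Q.af x i ≤ Q.hi i ↔ x i ≤ 1) ∧ (Q.af x i = Q.hi i ↔ x i = 1) := by
  have h1 : Q.af x i = Q.hi i - Q.sd i / 2 * (1 - x i) := by
    rw [Bx.af, Bx.mid, Bx.sd]
    ring
  have h2 := half_pos (h.sd_g i)
  rw [h1, sub_le_self_iff, mul_nonneg_iff_of_pos_left h2, sub_eq_self, mul_eq_zero,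
    or_iff_right h2.ne', sub_eq_zero, sub_nonneg]
  exact ⟨Iff.rfl, eq_comm⟩
theorem Bx.Pos.af_mem {Q : Bx ι} (h : Q.Pos) {x : E ι} : Q.af x ∈ Q.set ↔ ‖x‖ ≤ 1 := by
  rw [Bx.mem_set, pi_norm_le_iff_of_nonneg zero_le_one]
  exact forall_congr' fun i => by rw [(h.af_lo_g x i).1, (h.af_hi_g x i).1, Real.norm_eq_abs, abs_le]
theorem Bx.Pos.af_mem_bd {Q : Bx ι} (h : Q.Pos) [Nonempty ι] {x : E ι} :
    Q.af x ∈ Q.bd ↔ ‖x‖ = 1 := by
  have e : ∀ i, (Q.af x i = Q.lo i ∨ Q.af x i = Q.hi i) ↔ ‖x i‖ = 1 := fun i => by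
    rw [(h.af_lo_g x i).2, (h.af_hi_g x i).2, Real.norm_eq_abs, abs_eq zero_le_one, or_comm]
  refine ⟨fun ⟨h1, i, h2⟩ => (h.af_mem.1 h1).antisymm ((e i).1 h2 ▸ norm_le_pi_norm x i),
    fun h1 => ⟨h.af_mem.2 h1.le, ?_⟩⟩
  obtain ⟨i, hi⟩ := Finite.exists_max fun i => ‖x i‖
  exact ⟨i, (e i).2 (((norm_le_pi_norm x i).trans h1.le).antisymm
    (h1 ▸ (pi_norm_le_iff_of_nonneg (norm_nonneg _)).2 hi))⟩
theorem Bx.Pos.nm_mem {Q : Bx ι} (h : Q.Pos) {x : E ι} : x ∈ Q.set ↔ ‖Q.nm x‖ ≤ 1 := by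
  rw [← h.af_mem, h.af_nm]
theorem Bx.Pos.nm_mem_bd {Q : Bx ι} (h : Q.Pos) [Nonempty ι] {x : E ι} :
    x ∈ Q.bd ↔ ‖Q.nm x‖ = 1 := by
  rw [← h.af_mem_bd, h.af_nm]
theorem Bx.Pos.bijOn_af {Q : Bx ι} (h : Q.Pos) : BijOn Q.af (closedBall 0 1) Q.set :=
  ⟨fun _ hx => h.af_mem.2 (mem_closedBall_zero_iff.1 hx),
    (Function.LeftInverse.injective h.nm_af).injOn,
    fun x hx => ⟨Q.nm x, mem_closedBall_zero_iff.2 (h.nm_mem.1 hx), h.af_nm x⟩⟩
theorem Bx.Pos.bijOn_af_bd {Q : Bx ι} (h : Q.Pos) [Nonempty ι] :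
    BijOn Q.af (sphere 0 1) Q.bd :=
  ⟨fun _ hx => h.af_mem_bd.2 (mem_sphere_zero_iff_norm.1 hx),
    (Function.LeftInverse.injective h.nm_af).injOn,
    fun x hx => ⟨Q.nm x, mem_sphere_zero_iff_norm.2 (h.nm_mem_bd.1 hx), h.af_nm x⟩⟩
theorem Bx.af_lip {Q : Bx ι} (h : Q.Pos) {S : ℝ} (hS : 0 ≤ S) (hs : ∀ i, Q.sd i ≤ S)
    (x y : E ι) : dist (Q.af x) (Q.af y) ≤ S / 2 * dist x y := by
  refine (dist_pi_le_iff (by positivity)).2 fun i => ?_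
  rw [Bx.af, Bx.af, dist_add_left, Real.dist_eq, ← mul_sub, abs_mul,
    abs_of_pos (half_pos (h.sd_g i))]
  exact mul_le_mul (by linarith only [hs i]) (dist_le_pi_dist x y i) (abs_nonneg _) (by positivity)
theorem Bx.nm_lip {Q : Bx ι} {s : ℝ} (h0 : 0 < s) (hs : ∀ i, s ≤ Q.sd i) (x y : E ι) :
    dist (Q.nm x) (Q.nm y) ≤ 2 / s * dist x y := by
  refine (dist_pi_le_iff (by positivity)).2 fun i => ?_
  have h1 := h0.trans_le (hs i)
  have e : Q.nm x i - Q.nm y i = 2 / Q.sd i * (x i - y i) := by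
    rw [Bx.nm, Bx.nm]
    ring
  rw [Real.dist_eq, e, abs_mul, abs_of_pos (by positivity)]
  exact mul_le_mul (div_le_div_of_nonneg_left two_pos.le h0 (hs i)) (dist_le_pi_dist x y i)
    (abs_nonneg _) (by positivity)
theorem Bx.long_sj [Nonempty ι] (Q : Bx ι) : Q.Long Q.sj := by
  have h : ∃ j, Q.Long j := Finite.exists_max Q.sd
  rw [Bx.sj, dif_pos h]
  exact h.choose_spec
theorem Bx.Pos.mid_g {Q : Bx ι} (h : Q.Pos) (j : ι) : Q.lo j < Q.mid j ∧ Q.mid j < Q.hi j :=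
  ⟨by rw [Bx.mid]; linarith only [h j], by rw [Bx.mid]; linarith only [h j]⟩
theorem Bx.Pos.L {Q : Bx ι} (h : Q.Pos) (j : ι) : (Q.L j).Pos := fun i => by
  by_cases e : i = j
  · simpa [Bx.L, e] using (h.mid_g j).1
  · simpa [Bx.L, e] using h i
theorem Bx.Pos.R {Q : Bx ι} (h : Q.Pos) (j : ι) : (Q.R j).Pos := fun i => by
  by_cases e : i = j
  · simpa [Bx.R, e] using (h.mid_g j).2
  · simpa [Bx.R, e] using h i
theorem Bx.Pos.set_L {Q : Bx ι} (h : Q.Pos) (j : ι) :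
    (Q.L j).set = Q.set ∩ {x | x j ≤ Q.mid j} := by
  ext x
  refine ⟨fun hx => ?_, fun hx => ⟨hx.1.1, le_update_iff.2 ⟨hx.2, fun i _ => hx.1.2 i⟩⟩⟩
  exact ⟨⟨hx.1, hx.2.trans (update_le_self_iff.2 (h.mid_g j).2.le)⟩, (le_update_iff.1 hx.2).1⟩
theorem Bx.Pos.set_R {Q : Bx ι} (h : Q.Pos) (j : ι) :
    (Q.R j).set = Q.set ∩ {x | Q.mid j ≤ x j} := by
  ext x
  refine ⟨fun hx => ?_, fun hx => ⟨update_le_iff.2 ⟨hx.2, fun i _ => hx.1.1 i⟩, hx.1.2⟩⟩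
  exact ⟨⟨(le_update_self_iff.2 (h.mid_g j).1.le).trans hx.1, hx.2⟩, (update_le_iff.1 hx.1).1⟩
theorem Bx.sd_L_g (Q : Bx ι) (j : ι) : (Q.L j).sd = Function.update Q.sd j (Q.sd j / 2) := by
  ext i
  by_cases e : i = j
  · simp only [Bx.L, Bx.sd, Bx.mid, e, Function.update_self]
    ring
  · simp [Bx.L, Bx.sd, e]
theorem Bx.sd_R_g (Q : Bx ι) (j : ι) : (Q.R j).sd = Function.update Q.sd j (Q.sd j / 2) := by
  ext i
  by_cases e : i = j
  · simp only [Bx.R, Bx.sd, Bx.mid, e, Function.update_self]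
    ring
  · simp [Bx.R, Bx.sd, e]
theorem Bx.sd_H_g (Q : Bx ι) (j : ι) (ε : ℝ) :
    (Q.H j ε).sd = Function.update Q.sd j (Q.sd j / 2) := by
  rw [Bx.H]
  split_ifs
  exacts [Q.sd_R_g j, Q.sd_L_g j]
theorem prod_half_g (s : ι → ℝ) (j : ι) : ∏ i, Function.update s j (s j / 2) i = (∏ i, s i) / 2 := by
  rw [Finset.prod_update_of_mem (Finset.mem_univ j),
    Finset.prod_eq_mul_prod_sdiff_singleton_of_mem (Finset.mem_univ j) s]
  ring
theorem Bx.vol_L (Q : Bx ι) (j : ι) : (Q.L j).vol = Q.vol / 2 := by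
  rw [Bx.vol, Q.sd_L_g, prod_half_g, Bx.vol]
theorem Bx.vol_R (Q : Bx ι) (j : ι) : (Q.R j).vol = Q.vol / 2 := by
  rw [Bx.vol, Q.sd_R_g, prod_half_g, Bx.vol]
theorem Bx.af_L (Q : Bx ι) (j : ι) (x : E ι) : (Q.L j).af x = Q.af (hf j (-1) x) := by
  ext i
  by_cases e : i = j
  · simp only [Bx.L, Bx.af, hf, Bx.sd, Bx.mid, e, Function.update_self]
    ring
  · simp [Bx.L, Bx.af, hf, Bx.sd, Bx.mid, e]
theorem Bx.af_R (Q : Bx ι) (j : ι) (x : E ι) : (Q.R j).af x = Q.af (hf j 1 x) := by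
  ext i
  by_cases e : i = j
  · simp only [Bx.R, Bx.af, hf, Bx.sd, Bx.mid, e, Function.update_self]
    ring
  · simp [Bx.R, Bx.af, hf, Bx.sd, Bx.mid, e]
theorem Bx.af_H (Q : Bx ι) (j : ι) {ε : ℝ} (hε : ε = 1 ∨ ε = -1) (x : E ι) :
    (Q.H j ε).af x = Q.af (hf j ε x) := by
  rcases hε with rfl | rfl
  · rw [Bx.H, if_pos one_pos, Q.af_R]
  · rw [Bx.H, if_neg (by norm_num), Q.af_L]
theorem Bx.meas_ne_g (Q : Bx ι) {ν : Measure (E ι)} (hν : ν ≤ volume) : ν Q.set ≠ ∞ :=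
  ((Measure.le_iff'.1 hν _).trans_lt Q.isCompact_set.measure_lt_top).ne
/-- Additivity of a measure dominated by Lebesgue measure. -/
theorem Bx.Pos.meas_half {Q : Bx ι} (h : Q.Pos) (j : ι) {ν : Measure (E ι)} (hν : ν ≤ volume) :
    (ν Q.set).toReal = (ν (Q.L j).set).toReal + (ν (Q.R j).set).toReal := by
  have h1 : (Q.L j).set ∪ (Q.R j).set = Q.set := by
    rw [h.set_L, h.set_R, ← inter_union_distrib_left]
    exact inter_eq_left.2 fun x _ => le_total (x j) _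
  have h2 : ν ((Q.L j).set ∩ (Q.R j).set) = 0 := by
    refine le_zero_iff.1 ((Measure.le_iff'.1 hν _).trans (le_of_eq (measure_mono_null
      (t := {x | x j = Q.mid j}) ?_ (Measure.pi_hyperplane _ j _))))
    rw [h.set_L, h.set_R]
    exact fun x hx => le_antisymm hx.1.2 hx.2.2
  rw [← ENNReal.toReal_add (Bx.meas_ne_g _ hν) (Bx.meas_ne_g _ hν),
    ← measure_union_add_inter _ (Q.R j).isClosed_set.measurableSet, h1, h2, add_zero]
theorem Bx.Pos.den_le_one {Q : Bx ι} (h : Q.Pos) {ν : Measure (E ι)} (hν : ν ≤ volume) :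
    0 ≤ Q.den ν ∧ Q.den ν ≤ 1 :=
  ⟨div_nonneg ENNReal.toReal_nonneg h.vol_pos.le, (div_le_one h.vol_pos).2
    (ENNReal.toReal_le_of_le_ofReal h.vol_pos.le (h.volume_set ▸ Measure.le_iff'.1 hν _))⟩
theorem Bx.meas_mono {Q Q' : Bx ι} (h : Q.set ⊆ Q'.set) {ν : Measure (E ι)} (hν : ν ≤ volume) :
    (ν Q.set).toReal ≤ (ν Q'.set).toReal :=
  ENNReal.toReal_mono (Q'.meas_ne_g hν) (measure_mono h)

theorem Cube.sd_g {k : ℤ} {G : Bx ι} (h : Cube k G) (i : ι) : G.sd i = 2 ^ k := by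
  rw [Bx.sd, (h i).2, add_sub_cancel_left]
theorem Cube.bx [Nonempty ι] {k : ℤ} {G : Bx ι} (h : Cube k G) : BX k G :=
  ⟨fun i => ⟨(h i).1, Or.inl (h i).2⟩, ⟨Classical.arbitrary ι, (h _).2⟩⟩
theorem Cube.lb {k : ℤ} {G : Bx ι} (h : Cube k G) : LB k G := fun i => by
  rw [(h i).2]
  exact ⟨(h i).1, (h i).1.add, lt_add_of_pos_right _ (two_pos_g k)⟩
theorem Cube.face {k : ℤ} {G : Bx ι} (h : Cube k G) : Face k G := fun i =>
  ⟨(h i).1, Or.inr (h i).2⟩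
theorem Cube.vol {k : ℤ} {G : Bx ι} (h : Cube k G) : G.vol = (2 ^ k) ^ Fintype.card ι := by
  simp [Bx.vol, h.sd_g]
theorem Cube.level [Nonempty ι] {k k' : ℤ} {G : Bx ι} (h : Cube k G) (h' : BX k' G) : k' = k := by
  obtain ⟨i, hi⟩ := h'.2
  have e := add_left_cancel (hi.symm.trans (h i).2)
  exact (two_le_g.1 e.le).antisymm (two_le_g.1 e.ge)
theorem Cube.lev {k : ℤ} {G : Bx ι} (h : Cube k G) : lev k G = Fintype.card ι * k := by
  simp [NB.lev, fun i => (h i).2]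
theorem Cube.sub_g {k : ℤ} {G Q : Bx ι} (h : Cube k G) (hs : G.set ⊆ Q.set) (i : ι) :
    Q.lo i ≤ G.lo i ∧ G.lo i + 2 ^ k ≤ Q.hi i :=
  (h i).2 ▸ (Bx.subset_iff fun i => (h.lb i).2.2.le).1 hs i
/-- Two nested cubes: the levels are ordered, and equal levels give equal cubes. -/
theorem Cube.le_of_subset [Nonempty ι] {k k' : ℤ} {G G' : Bx ι} (h : Cube k G) (h' : Cube k' G')
    (hs : G.set ⊆ G'.set) : k ≤ k' ∧ (k = k' → G = G') := by
  have h1 := h.sub_g hs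
  refine ⟨two_le_g.1 ?_, ?_⟩
  · have i := Classical.arbitrary ι
    linarith only [(h1 i).1, (h1 i).2, (h' i).2]
  · rintro rfl
    have e : ∀ i, G.lo i = G'.lo i := fun i => by linarith only [(h1 i).1, (h1 i).2, (h' i).2]
    exact Bx.ext' (funext e) (funext fun i => by rw [(h i).2, (h' i).2, e])
/-- The ancestor of a given level exists and is unique. -/
theorem Cube.exists_anc {k k' : ℤ} {G : Bx ι} (h : Cube k G) (hk : k ≤ k') :
    ∃ G', Cube k' G' ∧ G.set ⊆ G'.set :=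
  ⟨cubeAt k' G.lo, cube_cubeAt _ _, (Bx.subset_iff fun i => (h.lb i).2.2.le).2 fun i =>
    ⟨fl_le _ _, (h i).2.trans_le ((h i).1.gap ((lat_fl _ _).add.of_le hk) (lt_fl _ _))⟩⟩
theorem Cube.anc_unique {k k' : ℤ} {G G1 G2 : Bx ι} (h : Cube k G) (h1 : Cube k' G1)
    (h2 : Cube k' G2) (s1 : G.set ⊆ G1.set) (s2 : G.set ⊆ G2.set) : G1 = G2 := by
  have e : ∀ {G' : Bx ι}, Cube k' G' → G.set ⊆ G'.set → ∀ i, fl k' (G.lo i) = G'.lo i :=
    fun h' s i => fl_eq (h' i).1 (h.sub_g s i).1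
      (by linarith only [(h.sub_g s i).2, (h' i).2, two_pos_g k, s])
  have e1 : ∀ i, G1.lo i = G2.lo i := fun i => (e h1 s1 i).symm.trans (e h2 s2 i)
  exact Bx.ext' (funext e1) (funext fun i => by rw [(h1 i).2, (h2 i).2, e1])
theorem BX.sd_or_g {k : ℤ} {Q : Bx ι} (h : BX k Q) (i : ι) : Q.sd i = 2 ^ k ∨ Q.sd i = 2 * 2 ^ k :=
  (h.1 i).2.imp (fun e => by rw [Bx.sd, e, add_sub_cancel_left])
    fun e => by rw [Bx.sd, e, add_sub_cancel_left, two_succ_g]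
theorem BX.sd {k : ℤ} {Q : Bx ι} (h : BX k Q) (i : ι) : 2 ^ k ≤ Q.sd i ∧ Q.sd i ≤ 2 * 2 ^ k := by
  rcases h.sd_or_g i with e | e <;> constructor <;> linarith only [two_pos_g k, e]
theorem BX.lb {k : ℤ} {Q : Bx ι} (h : BX k Q) : LB k Q := fun i => by
  refine ⟨(h.1 i).1, ?_, sub_pos.1 ((two_pos_g k).trans_le (h.sd i).1)⟩
  rcases (h.1 i).2 with e | e <;> rw [e]
  · exact (h.1 i).1.add
  · simpa [two_succ_g] using (h.1 i).1.add_int 2
theorem BX.two {k : ℤ} {Q : Bx ι} (h : BX k Q) : Q.Two :=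
  ⟨fun i => (h.lb i).2.2, fun i j => by linarith only [(h.sd i).2, (h.sd j).1]⟩
theorem BX.vol {k : ℤ} {Q : Bx ι} (h : BX k Q) : Q.vol = 2 ^ lev k Q := by
  have e : ∀ i, Q.sd i = 2 ^ k * if Q.hi i ≠ Q.lo i + 2 ^ k then 2 else 1 := fun i => by
    split_ifs with h1
    · rw [Bx.sd, (h.1 i).2.resolve_left h1, add_sub_cancel_left, two_succ_g, mul_comm]
    · rw [Bx.sd, not_not.1 h1, add_sub_cancel_left, mul_one]
  rw [Bx.vol, Finset.prod_congr rfl fun i _ => e i, Finset.prod_mul_distrib, Finset.prod_ite,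
    lev, zpow_add₀ two_ne_zero, mul_comm _ k, zpow_mul]
  simp
theorem BX.vol_bd {k : ℤ} {Q : Bx ι} (h : BX k Q) :
    (2 ^ k) ^ Fintype.card ι ≤ Q.vol ∧ Q.vol ≤ (2 * 2 ^ k) ^ Fintype.card ι := by
  rw [← Finset.card_univ, ← Finset.prod_const, ← Finset.prod_const]
  exact ⟨Finset.prod_le_prod (fun _ _ => (two_pos_g k).le) fun i _ => (h.sd i).1,
    Finset.prod_le_prod (fun i _ => (h.two.1.sd_g i).le) fun i _ => (h.sd i).2⟩
theorem BX.lev_bd {k : ℤ} {Q : Bx ι} (h : BX k Q) :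
    Fintype.card ι * k ≤ lev k Q ∧ lev k Q < Fintype.card ι * (k + 1) := by
  obtain ⟨i, hi⟩ := h.2
  have h1 : (Finset.univ.filter fun i => Q.hi i ≠ Q.lo i + 2 ^ k).card < Fintype.card ι :=
    Finset.card_lt_card (Finset.filter_ssubset.2 ⟨i, Finset.mem_univ i, not_not.2 hi⟩)
  rw [lev, mul_add_one]
  omega
theorem nk_le (k : ℤ) (Q : Bx ι) : nk k Q = k ∨ (nk k Q = k - 1 ∧ Cube k Q) := by
  rw [nk]
  split_ifs with h
  exacts [Or.inr ⟨rfl, h⟩, Or.inl rfl]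
/-- the longest side has twice the length of the level of the halves -/
theorem BX.sd_long_g {k : ℤ} {Q : Bx ι} (h : BX k Q) {j : ι} (hj : Q.Long j) :
    Q.sd j = 2 * 2 ^ nk k Q := by
  rw [nk]
  split_ifs with h1
  · rw [h1.sd_g, two_pred_g]
  · obtain ⟨i, hi⟩ := not_forall.1 h1
    have h2 := (h.1 i).2.resolve_left fun e => hi ⟨(h.1 i).1, e⟩
    refine (h.sd j).2.antisymm (le_trans (le_of_eq ?_) (hj i))
    rw [Bx.sd, h2, add_sub_cancel_left, two_succ_g]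
theorem nk_le_g (k : ℤ) (Q : Bx ι) : nk k Q ≤ k := by rcases nk_le k Q with e | e <;> omega
theorem Bx.mid_eq_g (Q : Bx ι) (i : ι) : Q.mid i = Q.lo i + Q.sd i / 2 := by
  rw [Bx.mid, Bx.sd]
  ring
theorem BX.mid {k : ℤ} {Q : Bx ι} (h : BX k Q) {j : ι} (hj : Q.Long j) :
    Lat (nk k Q) (Q.mid j) := by
  rw [Q.mid_eq_g, h.sd_long_g hj, mul_div_cancel_left₀ _ two_ne_zero]
  exact ((h.1 j).1.of_le (nk_le_g k Q)).add
theorem BX.mid' {k : ℤ} {Q : Bx ι} (h : BX k Q) (i : ι) : Lat (k - 1) (Q.mid i) := by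
  rw [Q.mid_eq_g]
  rcases h.sd_or_g i with e | e <;> rw [e]
  · rw [two_pred_g, mul_div_cancel_left₀ _ two_ne_zero]
    exact (h.1 i).1.down.add
  · rw [mul_div_cancel_left₀ _ two_ne_zero]
    exact (h.1 i).1.add.down
/-- a box with lattice corner and one longest side halved -/
theorem BX.half_g {k : ℤ} {Q Q' : Bx ι} (h : BX k Q) {j : ι} (hj : Q.Long j)
    (hl : ∀ i, Lat (nk k Q) (Q'.lo i)) (hs : Q'.sd = Function.update Q.sd j (Q.sd j / 2))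
    (hv : Q'.vol = Q.vol / 2) : BX (nk k Q) Q' ∧ lev (nk k Q) Q' = lev k Q - 1 := by
  have e : ∀ i, Q'.hi i = Q'.lo i + Q'.sd i := fun i => (add_sub_cancel _ _).symm
  have ej : Q'.hi j = Q'.lo j + 2 ^ nk k Q := by
    rw [e, hs, Function.update_self, h.sd_long_g hj, mul_div_cancel_left₀ _ two_ne_zero]
  have h1 : BX (nk k Q) Q' := by
    refine ⟨fun i => ⟨hl i, ?_⟩, j, ej⟩
    by_cases hi : i = j
    · exact Or.inl (hi ▸ ej)
    · rw [e, hs, Function.update_of_ne hi, add_right_inj, add_right_inj, two_succ_g]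
      rcases nk_le k Q with h2 | h2
      · rw [h2]
        exact h.sd_or_g i
      · rw [h2.1, ← two_pred_g]
        exact Or.inr (h2.2.sd_g i)
  refine ⟨h1, zpow_right_injective₀ (a := (2 : ℝ)) two_pos (by norm_num) ?_⟩
  simp only
  rw [← h1.vol, hv, h.vol, zpow_sub_one₀ two_ne_zero, div_eq_mul_inv]
theorem BX.L {k : ℤ} {Q : Bx ι} (h : BX k Q) {j : ι} (hj : Q.Long j) :
    BX (nk k Q) (Q.L j) ∧ lev (nk k Q) (Q.L j) = lev k Q - 1 :=
  h.half_g hj (fun i => (h.1 i).1.of_le (nk_le_g k Q)) (Q.sd_L_g j) (Q.vol_L j)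
theorem BX.R {k : ℤ} {Q : Bx ι} (h : BX k Q) {j : ι} (hj : Q.Long j) :
    BX (nk k Q) (Q.R j) ∧ lev (nk k Q) (Q.R j) = lev k Q - 1 := by
  refine h.half_g hj (fun i => ?_) (Q.sd_R_g j) (Q.vol_R j)
  by_cases e : i = j
  · simpa [Bx.R, e] using h.mid hj
  · simpa [Bx.R, e] using (h.1 i).1.of_le (nk_le_g k Q)
theorem BX.H {k : ℤ} {Q : Bx ι} (h : BX k Q) {j : ι} (hj : Q.Long j) (ε : ℝ) :
    BX (nk k Q) (Q.H j ε) ∧ lev (nk k Q) (Q.H j ε) = lev k Q - 1 := by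
  rw [Bx.H]
  split_ifs
  exacts [h.R hj, h.L hj]
/-- After halving in direction `j` there is another longest direction. -/
theorem BX.long_ne [Nontrivial ι] {k : ℤ} {Q : Bx ι} (h : BX k Q) {j : ι} (hj : Q.Long j)
    (ε : ℝ) : ∃ j', j' ≠ j ∧ (Q.H j ε).Long j' := by
  have _ := hj
  obtain ⟨j', h1, h2⟩ := Set.exists_max_image {i | i ≠ j} Q.sd (toFinite _) (exists_ne j)
  refine ⟨j', h1, fun i => ?_⟩
  rw [Q.sd_H_g, Function.update_of_ne h1]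
  by_cases e : i = j
  · rw [e, Function.update_self]
    linarith only [h.two.2 j j']
  · rw [Function.update_of_ne e]
    exact h2 i e
/-- A smaller cube lies in one of the halves. -/
theorem BX.cube_half {k k' : ℤ} {Q G : Bx ι} (h : BX k Q) {j : ι} (hj : Q.Long j)
    (hG : Cube k' G) (hk : k' ≤ nk k Q) (hs : G.set ⊆ Q.set) :
    G.set ⊆ (Q.L j).set ∨ G.set ⊆ (Q.R j).set := by
  rw [h.two.1.set_L, h.two.1.set_R]
  refine (lt_or_ge (G.lo j) (Q.mid j)).imp (fun e x hx => ⟨hs hx, ?_⟩)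
    fun e x hx => ⟨hs hx, e.trans (hx.1 j)⟩
  exact (hx.2 j).trans ((hG j).2.trans_le ((hG j).1.gap ((h.mid hj).of_le hk) e))
/-- A cube inside a box of level `k` has level at most `k`, and it is the box or fits below. -/
theorem BX.cube_le {k k' : ℤ} {Q G : Bx ι} (h : BX k Q) (hG : Cube k' G) (hs : G.set ⊆ Q.set) :
    k' ≤ k ∧ (G = Q ∨ k' ≤ nk k Q) := by
  obtain ⟨i, hi⟩ := h.2
  have : Nonempty ι := ⟨i⟩
  have h1 : k' ≤ k := two_le_g.1 (by linarith only [(hG.sub_g hs i).1, (hG.sub_g hs i).2, hi, hs])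
  refine ⟨h1, ?_⟩
  rcases nk_le k Q with e | e
  · exact Or.inr (e.symm ▸ h1)
  · exact h1.eq_or_lt.imp (hG.le_of_subset e.2 hs).2 fun h2 => by omega
theorem LB.down {k j : ℤ} {Q : Bx ι} (h : LB k Q) (hj : j ≤ k) : LB j Q := fun i =>
  ⟨(h i).1.of_le hj, (h i).2.1.of_le hj, (h i).2.2⟩
theorem LB.pos {k : ℤ} {Q : Bx ι} (h : LB k Q) : Q.Pos := fun i => (h i).2.2
theorem LB.exists_cube {k : ℤ} {Q : Bx ι} (h : LB k Q) {x : E ι} (hx : x ∈ Q.set) :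
    ∃ G, Cube k G ∧ G.set ⊆ Q.set ∧ x ∈ G.set := by
  have h1 : ∀ i, ∃ l, Lat k l ∧ Q.lo i ≤ l ∧ l + 2 ^ k ≤ Q.hi i ∧ l ≤ x i ∧ x i ≤ l + 2 ^ k := by
    intro i
    rcases (hx.2 i).eq_or_lt with e | e
    · refine ⟨Q.hi i - 2 ^ k, by simpa [sub_eq_add_neg] using (h i).2.1.add_int (-1), ?_,
        by simp, ?_, by simp [e]⟩
      · linarith only [(h i).1.gap (h i).2.1 (h i).2.2]
      · linarith only [two_pos_g k, e]
    · exact ⟨fl k (x i), lat_fl _ _, (h i).1.le_fl_g (hx.1 i),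
        (lat_fl _ _).gap (h i).2.1 ((fl_le _ _).trans_lt e), fl_le _ _, (lt_fl _ _).le⟩
  choose l h1 h2 h3 h4 h5 using h1
  exact ⟨⟨l, fun i => l i + 2 ^ k⟩, fun i => ⟨h1 i, rfl⟩, Icc_subset_Icc h2 h3, h4, h5⟩
theorem Face.lat {k : ℤ} {F : Bx ι} (h : Face k F) (i : ι) : Lat k (F.lo i) ∧ Lat k (F.hi i) := by
  refine ⟨(h i).1, ?_⟩
  rcases (h i).2 with e | e <;> rw [e]
  exacts [(h i).1, (h i).1.add]
theorem Face.le {k : ℤ} {F : Bx ι} (h : Face k F) (i : ι) : F.lo i ≤ F.hi i := by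
  rcases (h i).2 with e | e <;> linarith only [two_pos_g k, e]
theorem LB.finite_faces {k : ℤ} (Q : Bx ι) : {F | Face k F ∧ F.set ⊆ Q.set}.Finite := by
  have h1 := Finite.pi' fun i => Lat.finite_g k (Q.lo i) (Q.hi i)
  refine ((h1.prod h1).preimage (f := fun F : Bx ι => (F.lo, F.hi))
    fun _ _ _ _ e => Bx.ext' (congrArg Prod.fst e) (congrArg Prod.snd e)).subset fun F hF => ?_
  have h2 := (Bx.subset_iff hF.1.le).1 hF.2
  exact ⟨fun i => ⟨(hF.1.lat i).1, (h2 i).1, (hF.1.le i).trans (h2 i).2⟩,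
    fun i => ⟨(hF.1.lat i).2, (h2 i).1.trans (hF.1.le i), (h2 i).2⟩⟩
theorem LB.finite_cubes {k : ℤ} (Q : Bx ι) : {G | Cube k G ∧ G.set ⊆ Q.set}.Finite :=
  (LB.finite_faces Q).subset fun _ h => ⟨h.1.face, h.2⟩
theorem LB.bd_sk {k : ℤ} {Q : Bx ι} (h : LB k Q) : Q.bd ⊆ Sk k := by
  rintro x ⟨-, i, e | e⟩
  exacts [⟨i, e ▸ (h i).1⟩, ⟨i, e ▸ (h i).2.1⟩]
theorem Cube.bd_eq {k : ℤ} {G : Bx ι} (h : Cube k G) : G.bd = G.set ∩ Sk k := by
  refine Subset.antisymm (subset_inter G.bd_subset h.lb.bd_sk) fun x ⟨hx, i, hi⟩ => ⟨hx, i, ?_⟩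
  exact (hx.1 i).eq_or_lt.imp Eq.symm fun e =>
    (hx.2 i).antisymm ((h i).2.trans_le ((h i).1.gap hi e))
theorem Sk.down {k j : ℤ} (hj : j ≤ k) : (Sk k : Set (E ι)) ⊆ Sk j := fun _ h =>
  h.imp fun _ hi => hi.of_le hj

/-- The smallest face of level `k` which contains `x`. -/
noncomputable def faceAt (k : ℤ) (x : E ι) : Bx ι :=
  ⟨fun i => fl k (x i), fun i => if fl k (x i) = x i then x i else fl k (x i) + 2 ^ k⟩

theorem face_faceAt (k : ℤ) (x : E ι) : Face k (faceAt k x) := fun i => by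
  refine ⟨lat_fl _ _, ?_⟩
  simp only [faceAt]
  split_ifs with e
  exacts [Or.inl e.symm, Or.inr rfl]
theorem mem_faceAt (k : ℤ) (x : E ι) : x ∈ (faceAt k x).set := by
  refine ⟨fun _ => fl_le _ _, fun i => ?_⟩
  simp only [faceAt]
  split_ifs
  exacts [le_rfl, (lt_fl _ _).le]
theorem faceAt_subset {k : ℤ} {x : E ι} {Q : Bx ι} (h : ∀ i, Lat k (Q.lo i) ∧ Lat k (Q.hi i))
    (hx : x ∈ Q.set) : (faceAt k x).set ⊆ Q.set := by
  refine Icc_subset_Icc (fun i => (h i).1.le_fl_g (hx.1 i)) fun i => ?_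
  simp only [faceAt]
  split_ifs with e
  exacts [hx.2 i, (lat_fl _ _).gap (h i).2 (((fl_le _ _).lt_of_ne e).trans_le (hx.2 i))]
theorem faceAt_lat {k : ℤ} {x y : E ι} (hy : y ∈ (faceAt k x).set) {i : ι} (hi : Lat k (x i)) :
    y i = x i := by
  have e := fl_eq hi le_rfl (lt_add_of_pos_right _ (two_pos_g k))
  exact le_antisymm (by simpa [faceAt, e] using hy.2 i) (by simpa [faceAt, e] using hy.1 i)

/-- Balls around the origin inside the central cubes. -/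
theorem ball_subset_cubeAt (k : ℤ) :
    closedBall (0 : E ι) (2 ^ k / 3) ⊆ (cubeAt k (0 : E ι)).set := by
  intro x hx
  have h1 := (lat_fl k 0).abs_ge
  have h2 := (lat_fl k 0).add.abs_ge
  rw [abs_of_nonpos (fl_le k 0)] at h1
  rw [abs_of_pos (lt_fl k 0)] at h2
  have h3 := fun i => abs_le.1 ((norm_le_pi_norm x i).trans (mem_closedBall_zero_iff.1 hx))
  exact ⟨fun i => (neg_le_neg h1).trans' (neg_neg _).ge |>.trans (h3 i).1,
    fun i => (h3 i).2.trans h2⟩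

end Pool.Agent.Lib.MP_ecd4e3_gt.NB
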