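import Mathlib

/-! The locally bi-Lipschitz statement implies the two earlier statements word for word. -/

namespace Pool.Agent.Lib.MP_ecd4e3_gt.NB

open Set Metric MeasureTheory

/-- The locally bi-Lipschitz statement. -/
def StBi : Prop := ∀ n : ℕ, 1 ≤ n → ∃ ε : ℝ, 0 < ε ∧ ∀ U : Set (EuclideanSpace ℝ (Fin n)),
    IsOpen U → MeasureTheory.volume U ≤ ENNReal.ofReal ε →
    ∃ f : EuclideanSpace ℝ (Fin n) → EuclideanSpace ℝ (Fin n),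
      Topology.IsEmbedding (U.domRestrict f) ∧ Set.MapsTo f U (Metric.closedBall 0 1) ∧
      (∀ x ∈ U, ∃ r > 0, ∃ L : ℝ, ∀ y ∈ Metric.ball x r, ∀ z ∈ Metric.ball x r,
        dist y z ≤ dist (f y) (f z) ∧ dist (f y) (f z) ≤ L * dist y z) ∧
      ∀ (γ : ℝ → EuclideanSpace ℝ (Fin n)) (a b : ℝ), ContinuousOn γ (Set.Icc a b) →
        Set.MapsTo γ (Set.Icc a b) U →
        eVariationOn γ (Set.Icc a b) ≤ eVariationOn (f ∘ γ) (Set.Icc a b) ∧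
        (BoundedVariationOn γ (Set.Icc a b) → BoundedVariationOn (f ∘ γ) (Set.Icc a b))

theorem StBi.full (h : StBi) :
    ∀ n : ℕ, 1 ≤ n → ∃ ε : ℝ, 0 < ε ∧ ∀ U : Set (EuclideanSpace ℝ (Fin n)),
    IsOpen U → MeasureTheory.volume U ≤ ENNReal.ofReal ε →
    ∃ f : EuclideanSpace ℝ (Fin n) → EuclideanSpace ℝ (Fin n),
      Topology.IsEmbedding (U.domRestrict f) ∧ Set.MapsTo f U (Metric.closedBall 0 1) ∧
      (∀ x ∈ U, ∃ r > 0, ∀ y ∈ Metric.ball x r, ∀ z ∈ Metric.ball x r,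
        dist y z ≤ dist (f y) (f z)) ∧
      ∀ (γ : ℝ → EuclideanSpace ℝ (Fin n)) (a b : ℝ), ContinuousOn γ (Set.Icc a b) →
        Set.MapsTo γ (Set.Icc a b) U →
        eVariationOn γ (Set.Icc a b) ≤ eVariationOn (f ∘ γ) (Set.Icc a b) := by
  intro n hn
  obtain ⟨ε, hε, h⟩ := h n hn
  refine ⟨ε, hε, fun U hU hv => ?_⟩
  obtain ⟨f, h1, h2, h3, h4⟩ := h U hU hv
  refine ⟨f, h1, h2, fun x hx => ?_, fun γ a b k1 k2 => (h4 γ a b k1 k2).1⟩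
  obtain ⟨r, hr, L, k⟩ := h3 x hx
  exact ⟨r, hr, fun y hy z hz => (k y hy z hz).1⟩

theorem StBi.planar (h : StBi) :
    ∃ ε : ℝ, 0 < ε ∧ ∀ U : Set (EuclideanSpace ℝ (Fin 2)), IsOpen U →
    Bornology.IsBounded U → MeasureTheory.volume (closure U) ≤ ENNReal.ofReal ε →
    ∃ f : EuclideanSpace ℝ (Fin 2) → EuclideanSpace ℝ (Fin 2),
      Topology.IsEmbedding (U.domRestrict f) ∧ Set.MapsTo f U (Metric.closedBall 0 1) ∧
      (∃ L : ℝ, ∀ x ∈ U, ∃ r > 0, ∀ y ∈ Metric.ball x r, ∀ z ∈ Metric.ball x r,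
        dist y z ≤ dist (f y) (f z) ∧ dist (f y) (f z) ≤ L * dist y z) ∧
      ∀ (γ : ℝ → EuclideanSpace ℝ (Fin 2)) (a b : ℝ), ContinuousOn γ (Set.Icc a b) →
        Set.MapsTo γ (Set.Icc a b) U →
        eVariationOn γ (Set.Icc a b) ≤ eVariationOn (f ∘ γ) (Set.Icc a b) := by
  obtain ⟨ε, hε, h⟩ := h 2 one_le_two
  refine ⟨ε / 2, by positivity, fun U _ hb hv => ?_⟩
  obtain ⟨V, v1, v2, v3⟩ := Set.exists_isOpen_lt_of_lt (closure U) (ENNReal.ofReal ε)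
    (hv.trans_lt ((ENNReal.ofReal_lt_ofReal_iff hε).2 (by linarith)))
  obtain ⟨f, h1, h2, h3, h4⟩ := h V v2 v3.le
  have hUV : U ⊆ V := subset_closure.trans v1
  choose! r hr L hL using h3
  obtain ⟨t, t1, t2⟩ := hb.isCompact_closure.elim_nhds_subcover (fun x => ball x (r x))
    fun x hx => ball_mem_nhds x (hr x (v1 hx))
  obtain ⟨M, hM⟩ := (t.image L).bddAbove
  refine ⟨f, h1.comp (Topology.IsEmbedding.inclusion hUV), h2.mono_left hUV, ⟨M, fun x hx => ?_⟩,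
    fun γ a b k1 k2 => (h4 γ a b k1 (k2.mono_right hUV)).1⟩
  obtain ⟨c, c1, c2⟩ := mem_iUnion₂.1 (t2 (subset_closure hx))
  obtain ⟨s, s1, s2⟩ := Metric.isOpen_iff.1 isOpen_ball x c2
  refine ⟨s, s1, fun y hy z hz => ?_⟩
  obtain ⟨k1, k2⟩ := hL c (v1 (t1 c c1)) y (s2 hy) z (s2 hz)
  exact ⟨k1, k2.trans (mul_le_mul_of_nonneg_right
    (hM (Finset.mem_coe.2 (Finset.mem_image_of_mem L c1))) dist_nonneg)⟩

end Pool.Agent.Lib.MP_ecd4e3_gt.NB
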