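import Pool.Agent.Lib.MP_ecd4e3_gt.NB.GBox

/-! Definitions for the lossy construction on the faces of the grid. -/

namespace Pool.Agent.Lib.MP_ecd4e3_gt.NB

open Set Filter Topology Metric MeasureTheory
open scoped NNReal ENNReal

variable {ι : Type} [Fintype ι] [DecidableEq ι] {Y : Type} [MetricSpace Y]

/-- A static problem on a graph box. -/
structure PS (ι Y : Type) where
  R : GB ι
  β : E ι → Y
  S : Set Y
  c : ℝ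

noncomputable def PS.pb (p : PS ι Y) : Pb Unit (E ι) Y := pbS p.R p.β p.S p.c

/-- Movies of fillings of the model cube with fixed boundary data. -/
def pbM (β : E ι → Y) (S : Set Y) (A : ℝ) : Pb ℝ (E ι) Y :=
  pbP (Icc (0 : ℝ) 1) (closedBall 0 1) (sphere 0 1) (fun z => β z.2) S (gs A A) 1

/-- A reduction of `p` to the problems `q j` which can be unfolded by a movie. -/
def LOp {J : Type} (U : Set Y) (p : PS ι Y) (q : J → PS ι Y) (m : J → E ι → E ι) (A : ℝ) : Prop :=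
  ∃ G : (J → Unit × E ι → Y) → Unit × E ι → Y, IsRed U (fun j => (q j).pb) p.pb univ G ∧
    ∀ (F : J → Unit × E ι → Y) (X : Unit × E ι → Y), (∀ j, Sol U (q j).pb univ (F j)) →
      Sol U p.pb univ X → (∀ z ∈ p.R.set, Ap U (X ((), z)) (G F ((), z))) →
      ∃ H, Sol U (pbM p.β p.S A) univ H ∧
        (∀ z ∈ p.R.set, Ap U (H (0, p.R.th z)) (X ((), z))) ∧
        ∀ j, ∀ z ∈ (q j).R.set, Ap U (H (1, m j ((q j).R.th z))) (F j ((), z))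

/-- The static problem of the box `Q` with the data of level `k` at time `t`. -/
noncomputable def psB (e : E ι → Y) (P : ℤ → ℝ × E ι → Y) (k : ℤ) (t : ℝ) (Q : Bx ι) (R : GB ι)
    (c : ℝ) : PS ι Y :=
  ⟨R, fun x => P k (t, Q.af x), e '' Q.set, c⟩

/-- The maps onto the two halves. -/
noncomputable def hf2 (j : ι) (b : Bool) : E ι → E ι := if b then hf j 1 else hf j (-1)

/-- The gauge of the squeezing maps. -/
def gK (K s : ℝ) (z z' : ℝ × E ι) : ℝ := K * (z.1 * dist z'.2 z.2 + s * |z'.1 - z.1|)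

/-- The input of the lossy construction. -/
structure LE (ι Y : Type) [Fintype ι] where
  U : Set Y
  e : E ι → Y
  ok : ℤ → Prop
  B : ℝ
  u : ℝ
  u' : ℝ
  K : ℝ
  T : ℤ
  lo : ℤ → Bx ι → ℝ
  sp : ℤ → Bx ι → ℝ
  P : ℤ → ℝ × E ι → Y
  ν : Measure (E ι)
  a : Bx ι → ℤ
  ρ0 : ℝ

namespace LE

/-- The density threshold of round `i`. -/
noncomputable def th (L : LE ι Y) (i : ℤ) : ℝ := L.ρ0 * (L.B ^ Fintype.card ι * √L.B) ^ i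

structure OK (L : LE ι Y) : Prop where
  hU : IsOpen L.U
  hne : L.Uᶜ.Nonempty
  he : Isometry L.e
  bd : BD L.U L.e L.ok L.B L.u L.K L.T L.lo L.sp L.P
  pu : 1 ≤ L.u
  uu : L.u < L.u'
  u2 : L.u' ≤ 2
  pB : 4 ≤ L.B
  pT : 0 ≤ L.T
  le : L.ν ≤ volume
  pρ : 0 < L.ρ0
  a0 : ∀ k G, L.ok k → Cube k G → L.a G ≤ 0
  ath : ∀ k G, L.ok k → Cube k G → ∀ i : ℤ, i < 0 → (L.a G ≤ i ↔ G.den L.ν ≤ L.th i)
  aU : ∀ k G, L.ok k → Cube k G → L.e '' G.set ⊆ L.U → L.a G = 0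
  hlo : ∀ k G, L.ok k → Cube k G → L.lo k G ≤ L.B ^ (L.a G - 1)
  hsp : ∀ k G, L.ok k → Cube k G → L.a G < 0 → L.sp k G ≤ L.B ^ L.a G

/-- The output of the lossy construction. -/
structure Out (L : LE ι Y) (K' : ℝ) (M : ℤ → Bx ι → ℝ × E ι → Y) : Prop where
  sol : ∀ k G, L.ok k → Cube k G →
    Sol L.U (pbP (Ici (L.B ^ (L.a G - 1))) G.set G.bd (L.P k) (L.e '' G.set) (gK K' (2 ^ k)) 1)
      univ (M k G)
  split : ∀ k G G' t, L.ok k → Cube k G → Cube (k - 1) G' → G'.set ⊆ G.set → L.a G < 0 →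
    L.B ^ (L.a G + 1) ≤ t → ∀ x ∈ G'.set, Ap L.U (M k G (t, x)) (M (k - 1) G' (t, x))
  froz : ∀ k G (i : ℤ) t t', L.ok k → Cube k G → L.B ^ (L.a G - 1) ≤ t → L.B ^ (L.a G - 1) ≤ t' →
    t ∈ Icc (L.B ^ i * L.u') (L.B ^ (i + 1)) → t' ∈ Icc (L.B ^ i * L.u') (L.B ^ (i + 1)) →
    ∀ x ∈ G.set, Ap L.U (M k G (t, x)) (M k G (t', x))
  idn : ∀ k G t, L.ok k → Cube k G → L.B ^ (L.T + 1) ≤ t →
    ∀ x ∈ G.set, Ap L.U (M k G (t, x)) (L.e x)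

/-- The time of round `i`. -/
noncomputable def tm (L : LE ι Y) (i : ℤ) : ℝ := L.B ^ i * L.u
/-- The window in which the cube is unfolded. -/
def top (L : LE ι Y) (G : Bx ι) : ℤ := if L.a G < 0 then L.a G else L.T
/-- The box lies in a cube of the same or the next level which is light in round `i`. -/
def Anc (L : LE ι Y) (i k : ℤ) (Q : Bx ι) : Prop :=
  ∃ k' G, L.ok k' ∧ Cube k' G ∧ k' ≤ k + 1 ∧ Q.set ⊆ G.set ∧ L.a G ≤ i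

end LE

/-- Depth budget of the layer of a cube. -/
noncomputable def cN (a : ℤ) : ℝ := 2 - 2 ^ a
/-- Depth budget of a root. -/
noncomputable def cR (a : ℤ) : ℝ := 2 - 5 / 4 * 2 ^ a

/-- A state of the static tree: round, level, box, target, budget, type, deformation. -/
structure LS (ι : Type) [Fintype ι] where
  i : ℤ
  k : ℤ
  Q : Bx ι
  R : GB ι
  c : ℝ
  ty : ℕ
  F : FD ι

noncomputable def LE.ps (L : LE ι Y) (σ : LS ι) : PS ι Y :=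
  psB L.e L.P σ.k (L.tm σ.i) σ.Q σ.R σ.c

/-- Same round, level and box. -/
def LS.Same (σ σ' : LS ι) : Prop := σ'.i = σ.i ∧ σ'.k = σ.k ∧ σ'.Q = σ.Q

/-- The states of the two halves. -/
def LS.Half [Nonempty ι] (σ σ1 σ2 : LS ι) : Prop :=
  σ1.i = σ.i ∧ σ2.i = σ.i ∧ σ1.k = nk σ.k σ.Q ∧ σ2.k = nk σ.k σ.Q ∧ σ1.Q = σ.Q.L σ.Q.sj ∧
    σ2.Q = σ.Q.R σ.Q.sj

/-- The static tree before the recursion. -/
structure LE.PT [Nonempty ι] (L : LE ι Y) (f C : ℝ) (V : Set (LS ι)) (rt : ℤ → Bx ι → LS ι)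
    (rs : ℤ → Bx ι → ℝ) : Prop where
  base : ∀ σ ∈ V, σ.i < 0 ∧ L.ok σ.k ∧ BX σ.k σ.Q ∧ L.Anc σ.i σ.k σ.Q ∧ σ.R.Valid f ∧ 1 ≤ σ.c ∧
    σ.ty ≤ 2
  step : ∀ σ ∈ V, σ.ty ≤ 1 →
    (Cube σ.k σ.Q ∧ L.a σ.Q = σ.i + 1 ∧ ∃ σ1 ∈ V, σ.Same σ1 ∧ σ1.ty = 2 ∧
      LOp L.U (L.ps σ) (fun _ : Unit => L.ps σ1) (fun _ x => x) (C * L.B ^ σ.i * 2 ^ σ.k)) ∨
    ((Cube σ.k σ.Q → L.a σ.Q ≤ σ.i) ∧
      ((∃ σ1 ∈ V, σ.Same σ1 ∧ σ1.ty < σ.ty ∧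
        LOp L.U (L.ps σ) (fun _ : Unit => L.ps σ1) (fun _ x => x) (C * L.B ^ σ.i * 2 ^ σ.k)) ∨
      ∃ σ1 ∈ V, ∃ σ2 ∈ V, σ.Half σ1 σ2 ∧ σ1.ty ≤ 1 ∧ σ2.ty ≤ 1 ∧
        LOp L.U (L.ps σ) (fun b : Bool => if b then L.ps σ2 else L.ps σ1) (hf2 σ.Q.sj)
          (C * L.B ^ σ.i * 2 ^ σ.k)))
  nst : ∀ σ ∈ V, σ.ty = 2 → Cube σ.k σ.Q ∧ L.a σ.Q = σ.i + 1 ∧ σ.c = cN (σ.i + 1) ∧
    ∃ o l, 0 < l ∧ σ.R = (cubeC o l).gb ∧ 100 * L.K * L.tm (L.top σ.Q) * 2 ^ σ.k ≤ l ∧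
      (L.a σ.Q < 0 → 32 * rs σ.k σ.Q ≤ l)
  root : ∀ k G, L.ok k → Cube k G → L.a G < 0 → rt k G ∈ V ∧ (rt k G).i = L.a G ∧
    (rt k G).k = k ∧ (rt k G).Q = G ∧ (rt k G).ty = 1 ∧ (rt k G).c = cR (L.a G) ∧
    (rt k G).R = (cubeC 0 (rs k G)).gb ∧ 0 < rs k G ∧ rs k G ≤ C * L.B ^ L.a G * 2 ^ k

/-- The static tree with its solutions and unfolding movies. -/
structure LE.LT [Nonempty ι] (L : LE ι Y) (C : ℝ) (V : Set (LS ι)) (rt : ℤ → Bx ι → LS ι)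
    (W : LS ι → E ι → Y) (N : ℤ → Bx ι → ℝ × E ι → Y) : Prop where
  base : ∀ σ ∈ V, σ.i < 0 ∧ L.ok σ.k ∧ BX σ.k σ.Q ∧ L.Anc σ.i σ.k σ.Q ∧ σ.ty ≤ 1
  step : ∀ σ ∈ V, ∃ H,
    Sol L.U (pbM (L.ps σ).β (L.e '' σ.Q.set) (C * L.B ^ σ.i * 2 ^ σ.k)) univ H ∧
    (∀ x ∈ closedBall (0 : E ι) 1, Ap L.U (H (0, x)) (W σ x)) ∧
    ((Cube σ.k σ.Q ∧ L.a σ.Q = σ.i + 1 ∧ ∀ x ∈ closedBall (0 : E ι) 1,
        Ap L.U (H (1, x)) (N σ.k σ.Q (L.tm σ.i, σ.Q.af x))) ∨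
      ((Cube σ.k σ.Q → L.a σ.Q ≤ σ.i) ∧
        ((∃ σ1 ∈ V, σ.Same σ1 ∧ σ1.ty < σ.ty ∧
          ∀ x ∈ closedBall (0 : E ι) 1, Ap L.U (H (1, x)) (W σ1 x)) ∨
        ∃ σ1 ∈ V, ∃ σ2 ∈ V, σ.Half σ1 σ2 ∧ ∀ x ∈ closedBall (0 : E ι) 1,
          Ap L.U (H (1, hf σ.Q.sj (-1) x)) (W σ1 x) ∧ Ap L.U (H (1, hf σ.Q.sj 1 x)) (W σ2 x))))
  root : ∀ k G, L.ok k → Cube k G → L.a G < 0 → rt k G ∈ V ∧ (rt k G).i = L.a G ∧
    (rt k G).k = k ∧ (rt k G).Q = G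
  nsol : ∀ k G, L.ok k → Cube k G →
    Sol L.U (pbP (Icc (L.B ^ (L.a G - 1)) (L.tm (L.top G))) G.set G.bd (L.P k) (L.e '' G.set)
      (gs (C * L.B ^ L.top G) (C * 2 ^ k)) 1) univ (N k G)
  nfroz : ∀ k G (i : ℤ) t t', L.ok k → Cube k G →
    t ∈ Icc (L.B ^ (L.a G - 1)) (L.tm (L.top G)) → t' ∈ Icc (L.B ^ (L.a G - 1)) (L.tm (L.top G)) →
    t ∈ Icc (L.B ^ i * L.u) (L.B ^ (i + 1)) → t' ∈ Icc (L.B ^ i * L.u) (L.B ^ (i + 1)) →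
    ∀ x ∈ G.set, Ap L.U (N k G (t, x)) (N k G (t', x))
  nunf : ∀ k G, L.ok k → Cube k G → ∃ H,
    Sol L.U (pbM (fun x => L.P k (L.tm (L.top G), G.af x)) (L.e '' G.set)
      (C * L.B ^ L.top G * 2 ^ k)) univ H ∧
    ∀ x ∈ closedBall (0 : E ι) 1, Ap L.U (H (0, x)) (N k G (L.tm (L.top G), G.af x)) ∧
      Ap L.U (H (1, x)) (if L.a G < 0 then W (rt k G) x else L.e (G.af x))

/-- The relations between the maps of the cubes and the maps of the cascade. -/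
structure LE.LW [Nonempty ι] (L : LE ι Y) (K' : ℝ) (M : ℤ → Bx ι → ℝ × E ι → Y) {I : Type}
    (V : Set I) (st : I → LS ι) (Cc : I → ℝ × E ι → Y) : Prop where
  sol : ∀ k G, L.ok k → Cube k G →
    Sol L.U (pbP (Ici (L.B ^ (L.a G - 1))) G.set G.bd (L.P k) (L.e '' G.set) (gK K' (2 ^ k)) 1)
      univ (M k G)
  froz : ∀ k G (i : ℤ) t t', L.ok k → Cube k G →
    t ∈ Icc (L.B ^ (L.a G - 1)) (L.tm (L.top G)) → t' ∈ Icc (L.B ^ (L.a G - 1)) (L.tm (L.top G)) →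
    t ∈ Icc (L.B ^ i * L.u) (L.B ^ (i + 1)) → t' ∈ Icc (L.B ^ i * L.u) (L.B ^ (i + 1)) →
    ∀ x ∈ G.set, Ap L.U (M k G (t, x)) (M k G (t', x))
  idn : ∀ k G t, L.ok k → Cube k G → L.a G = 0 → L.B ^ L.T * L.u' ≤ t →
    ∀ x ∈ G.set, Ap L.U (M k G (t, x)) (L.e x)
  root : ∀ k G, L.ok k → Cube k G → L.a G < 0 → ∃ σ ∈ V, (st σ).i = L.a G ∧ (st σ).k = k ∧
    (st σ).Q = G ∧ ∀ t, L.B ^ L.a G * L.u' ≤ t → ∀ x ∈ G.set, Ap L.U (M k G (t, x)) (Cc σ (t, x))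
  base : ∀ σ ∈ V, L.ok (st σ).k ∧ BX (st σ).k (st σ).Q ∧ (st σ).ty ≤ 1
  maps : ∀ σ ∈ V, ∀ t, L.B ^ (st σ).i * L.u' ≤ t → ∀ x ∈ (st σ).Q.set, Cc σ (t, x) ∈ L.U →
    Cc σ (t, x) ∈ L.e '' (st σ).Q.set
  step : ∀ σ ∈ V,
    (Cube (st σ).k (st σ).Q ∧ L.a (st σ).Q = (st σ).i + 1 ∧ ∀ t, L.B ^ (st σ).i * L.u' ≤ t →
      ∀ x ∈ (st σ).Q.set, Ap L.U (Cc σ (t, x)) (M (st σ).k (st σ).Q (t, x))) ∨
    ((Cube (st σ).k (st σ).Q → L.a (st σ).Q ≤ (st σ).i) ∧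
      ((∃ σ1 ∈ V, (st σ).Same (st σ1) ∧ (st σ1).ty < (st σ).ty ∧ ∀ t,
        L.B ^ (st σ).i * L.u' ≤ t → ∀ x ∈ (st σ).Q.set, Ap L.U (Cc σ (t, x)) (Cc σ1 (t, x))) ∨
      ∃ σ1 ∈ V, ∃ σ2 ∈ V, (st σ).Half (st σ1) (st σ2) ∧ ∀ t, L.B ^ (st σ).i * L.u' ≤ t →
        (∀ x ∈ (st σ1).Q.set, Ap L.U (Cc σ (t, x)) (Cc σ1 (t, x))) ∧
        ∀ x ∈ (st σ2).Q.set, Ap L.U (Cc σ (t, x)) (Cc σ2 (t, x))))

/-! ### Weights -/

/-- The exponent in the comparison of a face with its facets. -/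
noncomputable def gam (ι : Type) [Fintype ι] : ℝ :=
  (4 * Fintype.card ι - 1) / (4 * Fintype.card ι - 2)

/-- The exponent of the time of a cube of full dimension. -/
noncomputable def thN (ι : Type) [Fintype ι] : ℝ := 4 / (4 * Fintype.card ι - 1)

/-- The point of a face with relative coordinates `t`. -/
def Bx.pt (F : Bx ι) (t : E ι) : E ι := fun i => F.lo i + t i * (F.hi i - F.lo i)

/-- The mean weight of a face. -/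
noncomputable def rho (w : Finset ι → E ι → ℝ≥0∞) (F : Bx ι) : ℝ≥0∞ :=
  ∫⁻ t in Icc (0 : E ι) 1, w F.fr (F.pt t)

/-- A system of weights, one for every set of free coordinates. -/
structure Wt (V : Set (E ι)) (w : Finset ι → E ι → ℝ≥0∞) : Prop where
  meas : ∀ S, Measurable (w S)
  pos : ∀ S x, 0 < w S x
  le : ∀ S x, w S x ≤ 1
  one : ∀ S, ∀ x ∈ V, w S x = 1
  fac : ∀ k F F', Face k F → Face k F' → F'.set ⊆ F.set → F'.fr.card + 1 = F.fr.card →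
    F'.fr.Nonempty → rho w F' ^ gam ι ≤ 4 * rho w F

/-- The coordinate plane with free coordinates `S` through `b`. -/
def emb (S : Finset ι) (b : E ι) (x : E S) : E ι := fun i => if h : i ∈ S then x ⟨i, h⟩ else b i

/-- The measure on a plane. -/
noncomputable def nuP (w : Finset ι → E ι → ℝ≥0∞) (S : Finset ι) (b : E ι) : Measure (E S) :=
  volume.withDensity fun x => w S (emb S b x)

/-- The face of the ambient grid given by a box in a plane. -/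
def embB (S : Finset ι) (b : E ι) (G : Bx S) : Bx ι := ⟨emb S b G.lo, emb S b G.hi⟩

/-- Squeezing maps on all faces of dimension at most `d`. -/
structure PI (U : Set (E ι)) (d : ℕ) (B u K : ℝ) (T : ℤ) (al : Bx ι → ℝ)
    (P : ℤ → ℝ × E ι → E ι) : Prop where
  sol : ∀ k F, Face k F → F.fr.card ≤ d → Sol U (pbF id (al F / B) F.set K k) univ (P k)
  split : ∀ k F t, Face k F → F.fr.card ≤ d → al F < 1 → al F * B ≤ t → ∀ x ∈ F.set,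
    Ap U (P k (t, x)) (P (k - 1) (t, x))
  froz : ∀ k F (i : ℤ) t t', Face k F → F.fr.card ≤ d → al F / B ≤ t → al F / B ≤ t' →
    t ∈ Icc (B ^ i * u) (B ^ (i + 1)) → t' ∈ Icc (B ^ i * u) (B ^ (i + 1)) → ∀ x ∈ F.set,
    Ap U (P k (t, x)) (P k (t', x))
  idn : ∀ k F t, Face k F → F.fr.card ≤ d → B ^ T ≤ t → ∀ x ∈ F.set, Ap U (P k (t, x)) x

/-- The starting times of the faces, given by thresholds `r d` for the weights. -/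
structure AL (w : Finset ι → E ι → ℝ≥0∞) (B : ℝ) (r : ℕ → ℝ) (a : Bx ι → ℤ) (al : Bx ι → ℝ) :
    Prop where
  pr : ∀ d, 0 < r d ∧ r d ≤ 1
  vx : ∀ F, F.fr = ∅ → al F = 0
  eq : ∀ F, F.fr.Nonempty → al F = B ^ a F
  a0 : ∀ F, a F ≤ 0
  ath : ∀ k F, Face k F → ∀ i : ℤ, i < 0 →
    (a F ≤ i ↔ (rho w F).toReal ≤ r F.fr.card * (B ^ F.fr.card * √B) ^ i)
  sub : ∀ k F F', Face k F → Face k F' → F'.set ⊆ F.set → F'.fr.card < F.fr.card →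
    al F' ≤ al F ∧ (al F < 1 → al F' * B ≤ al F)

end Pool.Agent.Lib.MP_ecd4e3_gt.NB
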