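import Pool.Agent.Lib.MP_ecd4e3_gt.NB.LDefs
import Pool.Agent.Lib.MP_ecd4e3_gt.NB.SDm
import Pool.Agent.Lib.MP_ecd4e3_gt.NB.Cut
import Pool.Agent.Lib.MP_ecd4e3_gt.NB.Col
import Pool.Agent.Lib.MP_ecd4e3_gt.NB.Bdry

/-! Unfoldable reductions given by shells. -/

namespace Pool.Agent.Lib.MP_ecd4e3_gt.NB

open Set Filter Topology Metric MeasureTheory
open scoped NNReal ENNReal

variable {ι : Type} [Fintype ι] [DecidableEq ι] [Nonempty ι] {Y : Type} [MetricSpace Y]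
  {U : Set Y} {e : E ι → Y} {ok : ℤ → Prop} {B u K : ℝ} {T : ℤ} {lo sp : ℤ → Bx ι → ℝ}
  {P : ℤ → ℝ × E ι → Y} {f : ℝ}

theorem LOp.mono {J : Type} {p : PS ι Y} {q : J → PS ι Y} {m : J → E ι → E ι} {A A' : ℝ}
    (h : LOp U p q m A) (hA : A ≤ A') : LOp U p q m A' := by
  obtain ⟨G, h1, h2⟩ := h
  refine ⟨G, h1, fun F X hF hX he => ?_⟩
  obtain ⟨H, h3, h4⟩ := h2 F X hF hX he
  refine ⟨H, h3.mono rfl subset_rfl (fun _ _ => Ap.rfl) (fun _ _ _ => Iff.rfl)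
    (fun z _ => Eventually.of_forall fun z' => ?_) subset_rfl, h4⟩
  exact add_le_add (mul_le_mul_of_nonneg_right hA dist_nonneg)
    (mul_le_mul_of_nonneg_right hA dist_nonneg)

/-- A shell with constant data around a reducible inner problem. -/
theorem shell_lop (hU : IsOpen U) (hne : Uᶜ.Nonempty) (he : Isometry e) {Q : Bx ι} (hQ : Q.Pos)
    {R : GB ι} {Rr : ℝ → Set (E ι)} {Yc : ℝ → E ι → E ι} {ν : E ι → ℝ} {LY LT Lν Sz : ℝ}
    (hsd : SD Rr Yc ν LY LT Lν Sz) (h0 : Rr 0 = R.set) (h0' : ∀ z, Yc 0 z = R.th z) (hSz : 0 < Sz)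
    {β β0 : E ι → Y} {a1 : ℝ} (p1 : 0 ≤ a1)
    (hβ : Sol U (pbP (univ : Set Unit) (sphere 0 1) ∅ (fun z => β0 z.2) (e '' Q.bd) (gs a1 0) 1)
      univ fun z => β z.2)
    (hn : a1 * (LY + LT * Lν) ≤ 1 / 2) {c c' : ℝ} (h1 : 1 ≤ c') (h2 : c' < c) (h3 : c ≤ 2)
    {J : Type} {q : J → PS ι Y} {m : J → E ι → E ι}
    {G : (J → Unit × E ι → Y) → Unit × E ι → Y}
    (hG : IsRed U (fun j => (q j).pb)
      (pbP univ (Rr 1) {z | z ∈ Rr 1 ∧ ‖Yc 1 z‖ = 1} (fun z => β (Yc 1 z.2)) (e '' Q.set)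
        (gs c' 0) c') univ G)
    (hm : ∀ F : J → Unit × E ι → Y, (∀ j, Sol U (q j).pb univ (F j)) → ∀ j, ∀ z ∈ (q j).R.set,
      ∃ z' ∈ Rr 1, Yc 1 z' = m j ((q j).R.th z) ∧ Ap U (G F ((), z')) (F j ((), z))) :
    LOp U ⟨R, β, e '' Q.set, c⟩ q m (5 * Sz * (1 + LT)) := by
  have pν := hsd.pν
  have pT := hsd.pT
  have pc : 0 < c' := by linarith only [h1]
  obtain ⟨η, e0, e1, e2, e3, e4⟩ : ∃ η : ℝ, 0 < η ∧ η ≤ 1 / 2 ∧ η ≤ Sz ∧ (1 + η) * c' ≤ c ∧
      η * Lν ≤ 1 / 4 := by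
    refine ⟨min (min (1 / 2) Sz) (min ((c - c') / c') (1 / (4 * Lν + 1))), ?_,
      (min_le_left _ _).trans (min_le_left _ _), (min_le_left _ _).trans (min_le_right _ _),
      ?_, ?_⟩
    · have : 0 < c - c' := by linarith only [h2]
      positivity
    · have := (le_div_iff₀ pc).1 ((min_le_right (min (1 / 2) Sz) _).trans
        (min_le_left ((c - c') / c') (1 / (4 * Lν + 1))))
      linarith only [this]
    · have h4 := (le_div_iff₀ (show 0 < 4 * Lν + 1 by positivity)).1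
        ((min_le_right (min (1 / 2) Sz) _).trans (min_le_right ((c - c') / c') (1 / (4 * Lν + 1))))
      have h5 : 0 ≤ min (min (1 / 2) Sz) (min ((c - c') / c') (1 / (4 * Lν + 1))) := by
        have : 0 < c - c' := by linarith only [h2]
        positivity
      linarith only [h4, h5]
  obtain ⟨σ, ϱ, hc⟩ := col_box hU hne he hQ e0
  have hY : Yc 0 = R.th := funext h0'
  have hg : (gm a1 0 0 : (Unit × ℝ) × E ι → (Unit × ℝ) × E ι → ℝ) = gs a1 0 := by
    funext z z'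
    simp [gm, gs]
  have hβ' : Sol U (pbP ((univ : Set Unit) ×ˢ Icc (0 : ℝ) 1) (sphere 0 1) ∅ (fun z => β0 z.2)
      (e '' Q.bd) (gm a1 0 0) 1) univ fun w => β w.2 := by
    rw [hg]
    exact hβ.const _
  refine ⟨fun F => shOp ν Yc σ (fun w => β w.2) (G F), ⟨PW.shell hc hG.1 _ _ _, fun o F hF => ?_⟩,
    fun F X hF hX hXG => ?_⟩
  · have := shell_sol hU hsd e0.le hc p1 le_rfl le_rfl hβ' (a := c) (b := 0) (c := c)
      (by nlinarith only [hn, h1, h2, e1, e4, e0]) e3 (by simp) (by simp) e3 pc (hG.2 o F hF)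
    rw [h0, hY] at this
    exact this
  · have hZ := hG.2 (some 0) F fun j _ => by rw [Wo_zero]; exact hF j
    rw [Wo_zero] at hZ
    obtain ⟨H, a1, a2, a3⟩ := peel hU hne hsd e0.le hc (β := β)
      (fun x hx hx' => (hβ.maps ((), x) ⟨trivial, hx⟩ hx').2) (X := fun z => X ((), z))
      (Z := fun z => G F ((), z)) (a := c) (c := c) (by linarith only [h1, h2, e0, e1]) hZ
      (by rw [h0, hY]; exact hX) (by rw [h0]; exact hXG)
    rw [h0, hY] at a2
    refine ⟨H, a1.mono rfl subset_rfl (fun _ _ => Ap.rfl) (fun _ _ _ => Iff.rfl)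
      (fun z _ => Eventually.of_forall fun z' => ?_) subset_rfl, a2, fun j z hz => ?_⟩
    · have k1 : (1 + η) * c * Sz ≤ 3 * Sz := mul_le_mul_of_nonneg_right (by nlinarith only [h3, e1, h1, h2]) hSz.le
      have k2 := mul_le_mul_of_nonneg_right k1 pT
      have k3 := mul_nonneg hSz.le pT
      exact add_le_add (mul_le_mul_of_nonneg_right (by linarith only [hSz, k1, k3]) dist_nonneg)
        (mul_le_mul_of_nonneg_right (by linarith only [hSz, e2, k2, k3]) dist_nonneg)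
    · obtain ⟨z', b1, b2, b3⟩ := hm F hF j z hz
      rw [← b2]
      exact (a3 z' b1).trans b3

theorem lopa_pos (h : BD U e ok B u K T lo sp P) {k : ℤ} (hk : ok k) {Q : Bx ι} (hQ : LB k Q)
    {t : ℝ} (ht : ∀ G, Cube k G → G.set ⊆ Q.set → lo k G ≤ t) {S : ℝ} (hS : ∀ i, Q.sd i ≤ S) :
    0 ≤ K * t * S / 2 := by
  obtain ⟨G, g1, g2, -⟩ := hQ.exists_cube (x := Q.lo)
    (Bx.mem_set.2 fun i => ⟨le_rfl, (hQ.pos i).le⟩)
  have h1 := (h.pos k G hk g1).trans_le (ht G g1 g2)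
  have h2 : 0 < S := (sub_pos.2 (hQ.pos (Classical.arbitrary ι))).trans_le (hS _)
  have h3 := h.pK
  positivity

theorem lopa_data (he : Isometry e) (h : BD U e ok B u K T lo sp P) {k : ℤ} (hk : ok k)
    {Q : Bx ι} (hQ : LB k Q) {t : ℝ} (ht : ∀ G, Cube k G → G.set ⊆ Q.set → lo k G ≤ t) {S : ℝ}
    (hS : ∀ i, Q.sd i ≤ S) :
    Sol U (pbP (univ : Set Unit) (sphere 0 1) ∅ (fun z => e z.2) (e '' Q.bd)
      (gs (K * t * S / 2) 0) 1) univ fun z => P k (t, Q.af z.2) :=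
  (h.path1 he.injective hk hQ (t1 := t) hS ht (π := fun _ => t) (p2 := 0)
    (fun _ _ => ⟨le_rfl, le_rfl⟩) (fun _ _ _ _ => by simp) fun z => e z.2).slice
    (left_mem_Icc.2 zero_le_one) fun x _ x' _ => by simp [gs]

omit [Nonempty ι] [DecidableEq ι] in
theorem lopa_single {R : GB ι} {β : E ι → Y} {S : Set Y} {c : ℝ} {A : Set (E ι)}
    {y : E ι → E ι} (h1 : A = R.set) (h2 : y = R.th) :
    IsRed U (fun _ : Unit => (⟨R, β, S, c⟩ : PS ι Y).pb)
      (pbP univ A {z | z ∈ A ∧ ‖y z‖ = 1} (fun z => β (y z.2)) S (gs c 0) c) univ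
      fun F => F () := by
  subst h1 h2
  exact ⟨PW.single (mem_univ ()) id, fun o F hF => hF () trivial⟩

/-- The homothetic shell with a change of chart and a rotation. -/
theorem lopa_hom (hU : IsOpen U) (hne : Uᶜ.Nonempty) (he : Isometry e)
    (h : BD U e ok B u K T lo sp P) (hf : 0 < f) (hf' : f ≤ 1 / 16) {k : ℤ} (hk : ok k)
    {Q : Bx ι} (hQ : LB k Q) {t : ℝ} (ht : ∀ G, Cube k G → G.set ⊆ Q.set → lo k G ≤ t) {S : ℝ}
    (hS : ∀ i, Q.sd i ≤ S) {R : GB ι} (hR : R.Valid f) {Y1 : E ι → E ι} (hY : R.Ch (10 / f) Y1)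
    {O : ℝ → E ι → E ι} {K1 K2 : ℝ} (hO : Mv O K1 K2) (k1 : K1 ≤ 1000) (k2 : K2 ≤ 1000) {s : ℝ}
    (s0 : 0 < s) (s1 : s < 1) {c c' : ℝ} (h1 : 1 ≤ c') (h2 : c' < c) (h3 : c ≤ 2)
    (hn : 10 ^ 5 * K * t * S ≤ f * (1 - s) * s * R.wmin) {y : E ι → E ι}
    (hy : ∀ z, y z = O 1 (Y1 (R.o + s⁻¹ • (z - R.o)))) :
    BijOn y (R.hom s).set (closedBall 0 1) ∧
    ∀ {J : Type} {q : J → PS ι Y} {m : J → E ι → E ι}
      {G : (J → Unit × E ι → Y) → Unit × E ι → Y},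
      IsRed U (fun j => (q j).pb)
        (pbP univ (R.hom s).set {z | z ∈ (R.hom s).set ∧ ‖y z‖ = 1}
          (fun z => P k (t, Q.af (y z.2))) (e '' Q.set) (gs c' 0) c') univ G →
      (∀ F : J → Unit × E ι → Y, (∀ j, Sol U (q j).pb univ (F j)) → ∀ j, ∀ z ∈ (q j).R.set,
        ∃ z' ∈ (R.hom s).set, y z' = m j ((q j).R.th z) ∧ Ap U (G F ((), z')) (F j ((), z))) →
      LOp U (psB e P k t Q R c) q m (10 ^ 9 * R.wmax / (f * s)) := by
  have hw := hR.wmin_pos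
  have hW : 0 < R.wmax :=
    (hR.pos (Classical.arbitrary ι)).trans_le (R.le_wmax (Classical.arbitrary ι))
  have h0 : R.Ch (10 / f) R.th := (hR.ch_th hf hf').mono hR.pos (by
    rw [le_div_iff₀ hf]; linarith only [hf, hf'])
  obtain ⟨Rr, Yc, ν, hsd, r0, r1, y0, y1⟩ := sd_hom hf hf' hR (by positivity) h0 hY (l := 2)
    (by norm_num) (fun z hz => (dist_pi_le_iff (by norm_num)).2 fun i => by
      have a1 := abs_le.1 (h0.mem z hz i)
      have a2 := abs_le.1 (hY.mem z hz i)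
      rw [Real.dist_eq, abs_le]
      constructor <;> linarith only [a1, a2]) hO s0 s1
  have ey : Yc 1 = y := funext fun z => by rw [y1, hy]
  have t1 : 0 < 1 - s := by linarith only [s1]
  have p1 := hO.p1
  have p2 := hO.p2
  have hsd' : SD Rr Yc ν (10 ^ 4 / (f * s * R.wmin)) (10 ^ 4 / (f * s)) (4 / ((1 - s) * R.wmin))
      (2000 * R.wmax) := hsd.mono
    (by
      rw [div_le_div_iff₀ (by positivity) (by positivity)]
      have e : K1 * (10 / f) * (f * s * R.wmin) = 10 * K1 * (s * R.wmin) := by field_simp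
      rw [e]
      exact mul_le_mul_of_nonneg_right (by linarith only [k1]) (by positivity))
    (by
      rw [le_div_iff₀ (by positivity)]
      have e : (K1 * (10 / f * (1 - s) / s + 2) + K2) * (f * s) =
          K1 * (10 * (1 - s) + 2 * (f * s)) + K2 * (f * s) := by field_simp
      have a1 : f * s ≤ 1 / 16 * s := mul_le_mul_of_nonneg_right hf' s0.le
      have a2 : 0 < f * s := by positivity
      have a3 := mul_le_mul_of_nonneg_right k1 (show 0 ≤ 10 * (1 - s) + 2 * (f * s) by positivity)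
      have a4 := mul_le_mul_of_nonneg_right k2 a2.le
      rw [e]
      linarith only [a1, a2, a3, a4])
    le_rfl (mul_le_mul_of_nonneg_right (by linarith only [k1]) hW.le)
  refine ⟨by simpa only [ey, r1] using hsd.bij 1 (right_mem_Icc.2 zero_le_one),
    fun {J q m G} hG hm => ?_⟩
  have pa := lopa_pos h hk hQ ht hS
  refine (shell_lop hU hne he hQ.pos hsd' r0 y0 (by positivity) pa (lopa_data he h hk hQ ht hS)
    ?_ h1 h2 h3 (G := G) (by rw [ey, r1]; exact hG) (by rw [ey, r1]; exact hm)).mono ?_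
  · have e : 10 ^ 4 / (f * s * R.wmin) + 10 ^ 4 / (f * s) * (4 / ((1 - s) * R.wmin)) =
        10 ^ 4 * (5 - s) / (f * (1 - s) * s * R.wmin) := by
      field_simp
      ring
    rw [e, ← mul_div_assoc, div_le_iff₀ (by positivity)]
    nlinarith only [hn, pa, hf, hf', s0]
  · rw [le_div_iff₀ (by positivity)]
    have e : 5 * (2000 * R.wmax) * (1 + 10 ^ 4 / (f * s)) * (f * s) =
        10 ^ 4 * (f * s + 10 ^ 4) * R.wmax := by
      field_simp
      ring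
    have a1 : f * s ≤ 1 := by nlinarith only [hf', hf, s1]
    rw [e]
    exact mul_le_mul_of_nonneg_right (by linarith only [hf, hf', a1]) hW.le

open Classical in
/-- Gluing the two turned pieces. -/
theorem lopa_glue (he : Isometry e) (h : BD U e ok B u K T lo sp P) {k k' : ℤ} (hk' : ok k')
    {Q : Bx ι} (hQ' : LB k' Q) {j : ι} (hm : Lat k' (Q.mid j)) {t : ℝ}
    (ht' : ∀ G, Cube k' G → G.set ⊆ Q.set → lo k' G ≤ t)
    (hkk : ∀ x ∈ Q.bd, Ap U (P k (t, x)) (P k' (t, x))) {A A1 A2 : Set (E ι)} (hA : A = A1 ∪ A2)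
    (c1 : IsClosed A1) (c2 : IsClosed A2) {O y : E ι → E ι} (hO : IsSP O) {R1 R2 : GB ι}
    (v1 : R1.Valid f) (v2 : R2.Valid f) (s1 : R1.set = O '' A1) (s2 : R2.set = O '' A2)
    (hy : BijOn y A (closedBall 0 1)) (y1 : ∀ z ∈ A1, y z = hf j (-1) (R1.th (O z)))
    (y2 : ∀ z ∈ A2, y z = hf j 1 (R2.th (O z)))
    (m1 : ∀ z ∈ A, (z ∈ A1 ↔ y z j ≤ 0) ∧ (z ∈ A2 ↔ 0 ≤ y z j)) {c' : ℝ} (pc : 0 ≤ c') :
    IsRed U (fun b : Bool =>
        (if b then psB e P k' t (Q.R j) R2 c' else psB e P k' t (Q.L j) R1 c').pb)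
      (pbP univ A {z | z ∈ A ∧ ‖y z‖ = 1} (fun z => P k (t, Q.af (y z.2))) (e '' Q.set)
        (gs c' 0) c') univ
      (fun F z => if z.2 ∈ A1 then F false ((), O z.2) else F true ((), O z.2)) ∧
    ∀ F : Bool → Unit × E ι → Y, (∀ b : Bool, Sol U
        (if b then psB e P k' t (Q.R j) R2 c' else psB e P k' t (Q.L j) R1 c').pb univ (F b)) →
      ∀ b : Bool, ∀ z ∈ (if b then psB e P k' t (Q.R j) R2 c'
          else psB e P k' t (Q.L j) R1 c').R.set,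
        ∃ z' ∈ A, y z' = hf2 j b ((if b then psB e P k' t (Q.R j) R2 c'
          else psB e P k' t (Q.L j) R1 c').R.th z) ∧
          Ap U (if z' ∈ A1 then F false ((), O z') else F true ((), O z')) (F b ((), z)) := by
  have hP := hQ'.pos
  have inj : Function.Injective O := fun x x' hx => by
    rw [← dist_eq_zero, ← hO.dist, hx, dist_self]
  have u1 : A1 ⊆ A := hA ▸ subset_union_left
  have u2 : A2 ⊆ A := hA ▸ subset_union_right
  have f1 : ∀ z ∈ A1, Q.af (y z) = (Q.L j).af (R1.th (O z)) := fun z hz => by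
    rw [y1 z hz, Bx.af_L]
  have f2 : ∀ z ∈ A2, Q.af (y z) = (Q.R j).af (R2.th (O z)) := fun z hz => by
    rw [y2 z hz, Bx.af_R]
  have hsd : 0 < Q.sd j / 2 := half_pos (sub_pos.2 (hP j))
  constructor
  · refine ⟨PW.ite (PW.single (mem_univ false) fun z => ((), O z.2))
      (PW.single (mem_univ true) fun z => ((), O z.2)) fun z => z.2 ∈ A1, fun o F hF => ?_⟩
    have a1 := Sol.chart (hF false trivial) pc (R' := A1)
      (B' := {x | x ∈ A1 ∧ ‖R1.th (O x)‖ = 1}) (φ := O) (s1 ▸ inj.injOn.bijOn_image)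
      (fun x hx => ⟨s1 ▸ mem_image_of_mem O hx.1, hx.2⟩) (L := 1)
      (fun x _ x' _ => by rw [hO.dist, one_mul])
      (β' := fun z => P k' (t, (Q.L j).af (R1.th (O z.2)))) (fun _ _ => Ap.rfl) (a' := c')
      (c' := c') (mul_one _).le ⟨1, fun x _ x' _ => by rw [hO.dist, one_mul]⟩
    have a2 := Sol.chart (hF true trivial) pc (R' := A2)
      (B' := {x | x ∈ A2 ∧ ‖R2.th (O x)‖ = 1}) (φ := O) (s2 ▸ inj.injOn.bijOn_image)
      (fun x hx => ⟨s2 ▸ mem_image_of_mem O hx.1, hx.2⟩) (L := 1)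
      (fun x _ x' _ => by rw [hO.dist, one_mul])
      (β' := fun z => P k' (t, (Q.R j).af (R2.th (O z.2)))) (fun _ _ => Ap.rfl) (a' := c')
      (c' := c') (mul_one _).le ⟨1, fun x _ x' _ => by rw [hO.dist, one_mul]⟩
    refine h.glue_half he.injective hk' hQ' hm ht' (y := fun x => Q.af (y x))
      (Bd := {z | z ∈ A ∧ ‖y z‖ = 1}) (B1 := {x | x ∈ A1 ∧ ‖R1.th (O x)‖ = 1})
      (B2 := {x | x ∈ A2 ∧ ‖R2.th (O x)‖ = 1}) hA c1 c2
      (hP.bijOn_af.comp hy) (fun x hx => ?_) (fun x hx => ?_)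
      (fun x hx => ⟨hx.1, hP.af_mem_bd.2 hx.2⟩)
      (fun x hx hb => ⟨hx, (hP.L j).af_mem_bd.1 (f1 x hx ▸ hb)⟩)
      (fun x hx hb => ⟨hx, (hP.R j).af_mem_bd.1 (f2 x hx ▸ hb)⟩)
      (fun z hz => hkk _ (hP.af_mem_bd.2 hz.2.2))
      (fun z hz => Ap.of_eq (by rw [f1 z.2 hz.2.2])) (fun z hz => Ap.of_eq (by rw [f2 z.2 hz.2.2]))
      a1 a2
    · rw [(m1 x hx).1, hP.set_L]
      have b1 := (hP.bijOn_af.comp hy).mapsTo hx
      refine ⟨fun h0 => ⟨b1, ?_⟩, fun h0 => ?_⟩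
      · change Q.mid j + Q.sd j / 2 * y x j ≤ Q.mid j
        nlinarith only [hsd, h0]
      · have b2 : Q.mid j + Q.sd j / 2 * y x j ≤ Q.mid j := h0.2
        by_contra b3
        nlinarith
    · rw [(m1 x hx).2, hP.set_R]
      have b1 := (hP.bijOn_af.comp hy).mapsTo hx
      refine ⟨fun h0 => ⟨b1, ?_⟩, fun h0 => ?_⟩
      · change Q.mid j ≤ Q.mid j + Q.sd j / 2 * y x j
        nlinarith only [hsd, h0]
      · have b2 : Q.mid j ≤ Q.mid j + Q.sd j / 2 * y x j := h0.2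
        by_contra b3
        nlinarith
  · intro F hF b z hz
    cases b
    · obtain ⟨x, hx, rfl⟩ : z ∈ O '' A1 := s1 ▸ hz
      exact ⟨x, u1 hx, y1 x hx, Ap.of_eq (if_pos hx)⟩
    · obtain ⟨x, hx, rfl⟩ : z ∈ O '' A2 := s2 ▸ hz
      refine ⟨x, u2 hx, y2 x hx, ?_⟩
      by_cases hx1 : x ∈ A1
      · rw [if_pos hx1]
        have z0 : y x j = 0 := le_antisymm ((m1 x (u1 hx1)).1.1 hx1) ((m1 x (u1 hx1)).2.1 hx)
        have n1 : O x ∈ R1.set := s1 ▸ mem_image_of_mem O hx1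
        have n2 : O x ∈ R2.set := s2 ▸ mem_image_of_mem O hx
        have d1 : ‖R1.th (O x)‖ = 1 := by
          refine le_antisymm (v1.th_norm n1) (le_trans ?_ (norm_le_pi_norm _ j))
          rw [y1 x hx1, hf, Function.update_self] at z0
          rw [show R1.th (O x) j = 1 by linarith only [z0], norm_one]
        have d2 : ‖R2.th (O x)‖ = 1 := by
          refine le_antisymm (v2.th_norm n2) (le_trans ?_ (norm_le_pi_norm _ j))
          rw [y2 x hx, hf, Function.update_self] at z0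
          rw [show R2.th (O x) j = -1 by linarith only [z0], norm_neg, norm_one]
        have g1 : Ap U (F false ((), O x)) (P k' (t, (Q.L j).af (R1.th (O x)))) :=
          (hF false).ap ((), O x) ⟨trivial, n1, d1⟩
        have g2 : Ap U (F true ((), O x)) (P k' (t, (Q.R j).af (R2.th (O x)))) :=
          (hF true).ap ((), O x) ⟨trivial, n2, d2⟩
        rw [← f1 x hx1] at g1
        rw [← f2 x hx] at g2
        exact g1.trans g2.symm
      · exact Ap.of_eq (if_neg hx1)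

omit [Fintype ι] [DecidableEq ι] [Nonempty ι] in
theorem lopa_aff (o : E ι) {s : ℝ} (hs : 0 < s) (z : E ι) :
    s • (o + s⁻¹ • (z - o)) + (1 - s) • o = z := by
  funext i
  simp only [Pi.add_apply, Pi.smul_apply, Pi.sub_apply, smul_eq_mul]
  field_simp
  ring

/-- Shrink, turn and cut. -/
theorem cut_op (hU : IsOpen U) (hne : Uᶜ.Nonempty) (he : Isometry e)
    (h : BD U e ok B u K T lo sp P) (hf : 0 < f) (hf' : f ≤ 1 / 16) {k k' : ℤ} (hk : ok k)
    (hk' : ok k') {Q : Bx ι} (hQ : LB k Q) (hQ' : LB k' Q) {j : ι} (hm : Lat k' (Q.mid j)) {t : ℝ}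
    (ht : ∀ G, Cube k G → G.set ⊆ Q.set → lo k G ≤ t)
    (ht' : ∀ G, Cube k' G → G.set ⊆ Q.set → lo k' G ≤ t)
    (hkk : ∀ x ∈ Q.bd, Ap U (P k (t, x)) (P k' (t, x))) {S : ℝ} (hS : ∀ i, Q.sd i ≤ S)
    {R R1 R2 : GB ι} (hR : R.Valid f) {i : ι} {c0 : ℝ} (hc : GB.IsCut f R i c0 R1 R2) {sg : Bool}
    (hs : sg = true → Nontrivial ι) {s : ℝ} (s0 : 0 < s) (s1 : s < 1) {c c' : ℝ} (h1 : 1 ≤ c')
    (h2 : c' < c) (h3 : c ≤ 2) (hn : 10 ^ 5 * K * t * S ≤ f * (1 - s) * s * R.wmin) :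
    ∃ R1' R2' : GB ι, R1'.Valid f ∧ R2'.Valid f ∧
      R1'.phi f = (if sg then R2 else R1).phi f ∧ R2'.phi f = (if sg then R1 else R2).phi f ∧
      R1'.vol = s ^ Fintype.card ι * (if sg then R2 else R1).vol ∧
      R2'.vol = s ^ Fintype.card ι * (if sg then R1 else R2).vol ∧
      LOp U (psB e P k t Q R c)
        (fun b : Bool => if b then psB e P k' t (Q.R j) R2' c' else psB e P k' t (Q.L j) R1' c')
        (hf2 j) (10 ^ 9 * R.wmax / (f * s)) := by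
  have hε : (if sg then (-1 : ℝ) else 1) = 1 ∨ (if sg then (-1 : ℝ) else 1) = -1 := by
    cases sg <;> simp
  obtain ⟨O, hO, hsp, hj⟩ := exists_mv i j hε (by
    cases sg
    · simp
    · exact Or.inr (hs rfl))
  have hc' := hc.map s0 ((1 - s) • R.o)
  have hRh := hR.map s0 ((1 - s) • R.o)
  obtain ⟨hy, hL⟩ := lopa_hom hU hne he h hf hf' hk hQ ht hS hR (hc.ch_spl hf hf' hR) hO le_rfl
    le_rfl s0 s1 h1 h2 h3 hn
    (y := fun z => O 1 ((R.hom s).spl i (s * c0 + ((1 - s) • R.o) i) z)) fun z => by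
      rw [← R.map_spl s0 ((1 - s) • R.o) i c0, lopa_aff R.o s0]
      rfl
  obtain ⟨A1, a1, a2, a3, a4, a5, -⟩ := hc'.v1.sp hsp
  obtain ⟨A2, b1, b2, b3, b4, b5, -⟩ := hc'.v2.sp hsp
  rw [GB.map_phi _ s0] at a4 b4
  rw [GB.map_vol _ s0] at a5 b5
  have k1 := fun z hz => (congrArg (O 1) (hc'.spl1 hf hRh (z := z) hz)).trans (hsp.hf hε hj _ _)
  have k2 := fun z hz => (congrArg (O 1) (hc'.spl2 hf hRh (z := z) hz)).trans (hsp.hf hε hj _ _)
  cases sg
  · obtain ⟨g1, g2⟩ := lopa_glue he h hk' hQ' hm ht' hkk hc'.union hc'.v1.isClosed hc'.v2.isClosed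
      hsp a1 b1 a2 b2 hy (fun z hz => by rw [a3]; exact (k1 z hz).trans (by simp))
      (fun z hz => by rw [b3]; exact (k2 z hz).trans (by simp))
      (fun z hz => by simpa [hj, GB.hom] using hc'.spl_sign hf hRh hz) (c' := c') (by linarith only [hf, hf', h1])
    exact ⟨A1, A2, a1, b1, a4, b4, a5, b5, hL g1 g2⟩
  · obtain ⟨g1, g2⟩ := lopa_glue he h hk' hQ' hm ht' hkk (hc'.union.trans (union_comm _ _))
      hc'.v2.isClosed hc'.v1.isClosed hsp b1 a1 b2 a2 hy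
      (fun z hz => by rw [b3]; exact (k2 z hz).trans (by simp))
      (fun z hz => by rw [a3]; exact (k1 z hz).trans (by simp))
      (fun z hz => by simpa [hj, GB.hom] using (hc'.spl_sign hf hRh hz).symm) (c' := c')
      (by linarith only [hf, hf', h1])
    exact ⟨A2, A1, b1, a1, b4, a4, b5, a5, hL g1 g2⟩

/-- Shrink and replace the chart of a rectangular region by the affine chart. -/
theorem entry_op (hU : IsOpen U) (hne : Uᶜ.Nonempty) (he : Isometry e)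
    (h : BD U e ok B u K T lo sp P) (hf : 0 < f) (hf' : f ≤ 1 / 16) {k : ℤ} (hk : ok k)
    {Q : Bx ι} (hQ : LB k Q) {t : ℝ} (ht : ∀ G, Cube k G → G.set ⊆ Q.set → lo k G ≤ t) {S : ℝ}
    (hS : ∀ i, Q.sd i ≤ S) {R : GB ι} (hR : R.Valid f) (hr : R.Rect) {s : ℝ} (s0 : 0 < s)
    (s1 : s < 1) {c c' : ℝ} (h1 : 1 ≤ c') (h2 : c' < c) (h3 : c ≤ 2)
    (hn : 10 ^ 5 * K * t * S ≤ f * (1 - s) * s * R.wmin) :
    ∃ Q' : Bx ι, Q'.Pos ∧ Q'.vol = s ^ Fintype.card ι * R.vol ∧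
      (∀ i, (1 - epw ι f) * (s * R.w i) ≤ Q'.sd i ∧ Q'.sd i ≤ (1 + 2 * epw ι f) * (s * R.w i)) ∧
      LOp U (psB e P k t Q R c) (fun _ : Unit => psB e P k t Q Q'.gb c') (fun _ x => x)
        (10 ^ 9 * R.wmax / (f * s)) := by
  obtain ⟨Q0, q1, q2, q3, q4⟩ := hR.rect_box hf hf' hr
  have e1 := Q0.gb_map s0 ((1 - s) • R.o)
  set Q' : Bx ι := ⟨s • Q0.lo + (1 - s) • R.o, s • Q0.hi + (1 - s) • R.o⟩ with hQ'
  have esd : ∀ i, Q'.sd i = s * Q0.sd i := fun i => by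
    simp only [hQ', Bx.sd, Pi.add_apply, Pi.smul_apply, smul_eq_mul]
    ring
  have hp : Q'.Pos := fun i => by
    have a1 : 0 < Q0.sd i := sub_pos.2 (q1 i)
    have a2 : 0 < Q'.sd i := by rw [esd]; positivity
    exact sub_pos.1 a2
  have eset : (R.hom s).set = Q'.gb.set := by
    rw [← e1, GB.map_set _ s0, Bx.gb_set, q2]
    exact GB.map_set _ s0 _
  obtain ⟨-, hL⟩ := lopa_hom hU hne he h hf hf' hk hQ ht hS hR
    ((hR.ch_rect hf hf' q1 q2 q3 q4).mono hR.pos (by rw [le_div_iff₀ hf]; linarith only [hf, hf'])) mv_id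
    (by norm_num) (by norm_num) s0 s1 h1 h2 h3 hn (y := Q'.gb.th) fun z => by
      rw [← Bx.gb_th, ← GB.map_th Q0.gb s0 ((1 - s) • R.o), lopa_aff R.o s0, e1]
  refine ⟨Q', hp, ?_, fun i => ?_, hL (lopa_single eset rfl) fun F _ _ z hz =>
    ⟨z, eset ▸ hz, rfl, Ap.rfl⟩⟩
  · rw [← Bx.gb_vol hp, ← e1, GB.map_vol _ s0, GB.vol, GB.vol, Bx.gb_set, q2]
  · rw [esd]
    have a1 := mul_le_mul_of_nonneg_left (q3 i).1 s0.le
    have a2 := mul_le_mul_of_nonneg_left (q3 i).2 s0.le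
    constructor <;> linarith only [a1, a2]

/-- Pass to a cube around the centre. -/
theorem stop_op (hU : IsOpen U) (hne : Uᶜ.Nonempty) (he : Isometry e)
    (h : BD U e ok B u K T lo sp P) (hf : 0 < f) (hf' : f ≤ 1 / 16) {k : ℤ} (hk : ok k)
    {Q : Bx ι} (hQ : LB k Q) {t : ℝ} (ht : ∀ G, Cube k G → G.set ⊆ Q.set → lo k G ≤ t) {S : ℝ}
    (hS : ∀ i, Q.sd i ≤ S) {R : GB ι} (hR : R.Valid f) {c c' : ℝ} (h1 : 1 ≤ c') (h2 : c' < c)
    (h3 : c ≤ 2) (hn : 10 ^ 5 * K * t * S ≤ f * R.wmin) :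
    LOp U (psB e P k t Q R c) (fun _ : Unit => psB e P k t Q (cubeC R.o (R.wmin / 2)).gb c')
      (fun _ x => x) (10 ^ 9 * R.wmax / f) := by
  have hw := hR.wmin_pos
  have hW : 0 < R.wmax :=
    (hR.pos (Classical.arbitrary ι)).trans_le (R.le_wmax (Classical.arbitrary ι))
  obtain ⟨Rr, Yc, ν, hsd, r0, r1, y0, y1⟩ := sd_cube hf hf' hR (half_pos hw) le_rfl
  have hsd' : SD Rr Yc ν (8 / R.wmin) (800 / f) (10 / R.wmin) (3 * R.wmax) := hsd.mono
    (le_of_eq (by field_simp; norm_num))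
    (by
      have a1 := hR.wmax_le
      have e : 800 / f * (R.wmin / 2) = 20 * (Mx f * R.wmin) := by
        unfold Mx
        field_simp
        norm_num
      rw [div_le_iff₀ (half_pos hw), e]
      linarith only [a1]) le_rfl le_rfl
  have pa := lopa_pos h hk hQ ht hS
  have e1 : Rr 1 = (cubeC R.o (R.wmin / 2)).gb.set := by rw [r1, Bx.gb_set]
  have e2 : Yc 1 = (cubeC R.o (R.wmin / 2)).gb.th := by rw [y1, Bx.gb_th]
  refine (shell_lop hU hne he hQ.pos hsd' r0 (congrFun y0) (by positivity) pa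
    (lopa_data he h hk hQ ht hS) ?_ h1 h2 h3 (lopa_single e1 e2) fun F _ _ z hz =>
      ⟨z, e1 ▸ hz, congrFun e2 z, Ap.rfl⟩).mono ?_
  · have e : 8 / R.wmin + 800 / f * (10 / R.wmin) = (8 * f + 8000) / (f * R.wmin) := by
      field_simp
      ring
    rw [e, ← mul_div_assoc, div_le_iff₀ (by positivity)]
    nlinarith only [hn, hf, hw, hf', pa]
  · rw [le_div_iff₀ hf]
    have e : 5 * (3 * R.wmax) * (1 + 800 / f) * f = 15 * (f + 800) * R.wmax := by
      field_simp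
      ring
    rw [e]
    exact mul_le_mul_of_nonneg_right (by linarith only [hf, hf']) hW.le

end Pool.Agent.Lib.MP_ecd4e3_gt.NB
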