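import Pool.Agent.Lib.MP_ecd4e3_gt.NB.XDefs

/-! Random frames. -/

namespace Pool.Agent.Lib.MP_ecd4e3_gt.NB

open Set Filter Topology Metric MeasureTheory
open scoped NNReal ENNReal

variable {ι : Type} [Fintype ι] [DecidableEq ι] [Nonempty ι]

omit [DecidableEq ι] in
theorem etX_bd : 0 < etX ι ∧ etX ι ≤ 1 / 4 ∧ Fintype.card ι * etX ι = 1 / 4 := by
  have h : (1 : ℝ) ≤ Fintype.card ι := by exact_mod_cast Fintype.card_pos
  refine ⟨by unfold etX; positivity, one_div_le_one_div_of_le (by norm_num) (by linarith), ?_⟩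
  unfold etX
  field_simp

instance pv_prob (i : ι) : IsProbabilityMeasure (pv i) :=
  ProbabilityTheory.cond_isProbabilityMeasure_of_finite
    (measure_closedBall_pos volume _ etX_bd.1).ne' measure_closedBall_lt_top.ne

instance PV_prob : IsProbabilityMeasure (PV ι) := by unfold PV; infer_instance

instance PZ_sfinite : SigmaFinite (PZ ι) := by unfold PZ; infer_instance

theorem pv_ae (i : ι) : ∀ᵐ u ∂pv i, u ∈ closedBall (Pi.single i 1 : E ι) (etX ι) :=
  ProbabilityTheory.ae_cond_mem (μ := volume) measurableSet_closedBall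

theorem measurableSet_Sv : MeasurableSet (Sv ι) := by
  have : Sv ι = Set.pi univ fun i => closedBall (Pi.single i 1 : E ι) (etX ι) := by
    ext v
    simp only [Sv, mem_ofPred_eq, mem_univ_pi]
  rw [this]
  exact MeasurableSet.univ_pi fun _ => measurableSet_closedBall

theorem PV_ae : ∀ᵐ v ∂PV ι, v ∈ Sv ι :=
  eventually_all.2 fun i => (Measure.tendsto_eval_ae_ae (μ := pv) (i := i)).eventually (pv_ae i)

theorem Sv_update {v : Fm ι} (hv : v ∈ Sv ι) {i : ι} {u : E ι}
    (hu : u ∈ closedBall (Pi.single i 1 : E ι) (etX ι)) : Function.update v i u ∈ Sv ι := by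
  intro l
  rcases eq_or_ne l i with rfl | h
  · rwa [Function.update_self]
  · rw [Function.update_of_ne h]
    exact hv l

/-- Resampling one direction. -/
theorem lintegral_PV_update (i : ι) {F : Fm ι → ℝ≥0∞} (hF : Measurable F) :
    ∫⁻ v, F v ∂PV ι = ∫⁻ v, ∫⁻ u, F (Function.update v i u) ∂pv i ∂PV ι := by
  have hG : Measurable fun v : Fm ι => ∫⁻ u, F (Function.update v i u) ∂pv i :=
    (hF.comp measurable_update').lintegral_prod_right'
  unfold PV
  rw [lintegral_eq_lmarginal_univ 0, lintegral_eq_lmarginal_univ 0,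
    lmarginal_erase' _ hF (Finset.mem_univ i), lmarginal_erase' _ hG (Finset.mem_univ i)]
  simp only [Function.update_idem, lintegral_const, measure_univ, mul_one]

theorem lintegral_PZ {F : Fm ι × E ι → ℝ≥0∞} (hF : Measurable F) :
    ∫⁻ w, F w ∂PZ ι = ∫⁻ v, ∫⁻ y, F (v, y) ∂volume ∂PV ι := lintegral_prod F hF.aemeasurable

/-- Invariance under translations which depend on the frame. -/
theorem lintegral_PZ_add {F : Fm ι × E ι → ℝ≥0∞} (hF : Measurable F) {c : Fm ι → E ι}
    (hc : Measurable c) : ∫⁻ w, F (w.1, w.2 + c w.1) ∂PZ ι = ∫⁻ w, F w ∂PZ ι := by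
  rw [lintegral_PZ hF, lintegral_PZ (F := fun w => F (w.1, w.2 + c w.1))
    (hF.comp (measurable_fst.prodMk (measurable_snd.add (hc.comp measurable_fst))))]
  exact lintegral_congr fun v => lintegral_add_right_eq_self (fun y => F (v, y)) (c v)

theorem lin_sub {v : Fm ι} (hv : v ∈ Sv ι) (x : E ι) : ‖lin v x - x‖ ≤ 1 / 4 * ‖x‖ := by
  have e : lin v x - x = ∑ i, x i • (v i - Pi.single i 1) := by
    simp only [lin, smul_sub, Finset.sum_sub_distrib, ← Pi.single_smul', smul_eq_mul, mul_one,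
      Finset.univ_sum_single]
  rw [e, ← etX_bd (ι := ι).2.2, mul_assoc, ← nsmul_eq_mul]
  refine (norm_sum_le _ _).trans (Finset.sum_le_card_nsmul _ _ _ fun i _ => ?_)
  rw [norm_smul, mul_comm]
  exact mul_le_mul (mem_closedBall_iff_norm.1 (hv i)) (norm_le_pi_norm x i) (norm_nonneg _)
    etX_bd.1.le

theorem fp_dist {v : Fm ι} (hv : v ∈ Sv ι) (S : Finset ι) {ψ ψ' : ι → ℝ → ℝ} (z t : E ι) {d : ℝ}
    (hd : 0 ≤ d) (h : ∀ l ∈ S, |ψ l (t l) - ψ' l (t l)| ≤ d) :
    dist (fp S v ψ z t) (fp S v ψ' z t) ≤ 2 * d := by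
  set a : E ι := fun l => if l ∈ S then ψ l (t l) - ψ' l (t l) else 0 with ha
  have e : fp S v ψ z t - fp S v ψ' z t = lin v a := by
    simp only [fp, lin, ha, add_sub_add_left_eq_sub, ite_smul, zero_smul, Finset.sum_ite_mem,
      Finset.univ_inter, sub_smul, Finset.sum_sub_distrib]
  have h1 : ‖a‖ ≤ d := (pi_norm_le_iff_of_nonneg hd).2 fun l => by
    simp only [ha]
    split_ifs with hl
    · exact h l hl
    · simpa using hd
  have h2 := lin_sub hv a
  have h3 := norm_le_norm_add_norm_sub' (lin v a) a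
  rw [dist_eq_norm, e]
  linarith

theorem fpt_dist {v : Fm ι} (hv : v ∈ Sv ι) (S : Finset ι) (k : ℤ) (z : E ι) {t : E ι}
    (ht : t ∈ Icc (0 : E ι) 1) : dist (fpt S v k z t) z ≤ 2 * 2 ^ k := by
  have hk : (0 : ℝ) < 2 ^ k := by positivity
  have h := fp_dist hv S (ψ := fun _ s => 2 ^ k * s) (ψ' := fun _ _ => 0) z t hk.le fun l _ => by
    rw [sub_zero, abs_of_nonneg (mul_nonneg hk.le (ht.1 l))]
    exact mul_le_of_le_one_right hk.le (ht.2 l)
  simpa only [fp, fpt, zero_smul, Finset.sum_const_zero, add_zero] using h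

theorem sn_bd (k j : ℤ) (s : ℝ) : sn k j s ≤ 2 ^ k * s ∧ 2 ^ k * s < sn k j s + 2 ^ j := by
  have hj : (0 : ℝ) < 2 ^ j := by positivity
  have h1 := (le_div_iff₀ hj).1 (Int.floor_le (2 ^ k * s / 2 ^ j))
  have h2 := (div_lt_iff₀ hj).1 (Int.lt_floor_add_one (2 ^ k * s / 2 ^ j))
  unfold sn
  constructor <;> linarith

theorem measurable_sn (k j : ℤ) : Measurable (sn k j) :=
  measurable_const.mul ((measurable_of_countable (Int.cast : ℤ → ℝ)).comp
    (Int.measurable_floor.comp ((measurable_const.mul measurable_id).div_const _)))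

theorem anc_dist {v : Fm ι} (hv : v ∈ Sv ι) (S : Finset ι) (k j : ℤ) (i : ι) (b : Bool)
    (z t : E ι) : dist (fpt S v k z t) (anc S v k j i b z t) ≤ 2 * 2 ^ j := by
  refine fp_dist hv S z t (by positivity) fun l _ => ?_
  obtain ⟨h1, h2⟩ := sn_bd k j (t l)
  rw [abs_le]
  split_ifs <;> constructor <;> linarith

theorem measurable_fp (S : Finset ι) {ψ : ι → ℝ → ℝ} (hψ : ∀ l, Measurable (ψ l)) :
    Measurable fun w : (Fm ι × E ι) × E ι => fp S w.1.1 ψ w.1.2 w.2 :=
  measurable_fst.snd.add (Finset.measurable_sum S fun l _ =>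
    ((hψ l).comp ((measurable_pi_apply l).comp measurable_snd)).smul
      ((measurable_pi_apply l).comp measurable_fst.fst))

variable {f : E ι → ℝ≥0∞} {γ : ℝ}

theorem measurable_rb (hf : Measurable f) (n : ℕ) (S : Finset ι) (k : ℤ) :
    Measurable fun w : Fm ι × E ι => rb f γ w.1 n S k w.2 := by
  induction n generalizing S k with
  | zero => exact measurable_const
  | succ n ih =>
    refine Measurable.lintegral_prod_right' (ν := volume.restrict (Icc (0 : E ι) 1))
      (f := fun w : (Fm ι × E ι) × E ι => max (f (fpt S w.1.1 k w.1.2 w.2))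
        (⨆ (j : ℤ) (_ : j ≤ k) (i : ι) (_ : i ∈ S) (b : Bool),
          rb f γ w.1.1 n (S.erase i) j (anc S w.1.1 k j i b w.1.2 w.2) ^ γ))
      ((hf.comp (measurable_fp S fun _ => measurable_const.mul measurable_id)).max
        (Measurable.iSup fun j => Measurable.iSup fun _ => Measurable.iSup fun i =>
          Measurable.iSup fun _ => Measurable.iSup fun b => ?_))
    exact ((ih (S.erase i) j).comp (measurable_fst.fst.prodMk
      (measurable_fp S fun _ => (measurable_sn k j).add measurable_const))).pow_const γ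

theorem rb_le_one (hγ : 0 < γ) (hf : ∀ x, f x ≤ 1) (v : Fm ι) (n : ℕ) (S : Finset ι) (k : ℤ)
    (z : E ι) : rb f γ v n S k z ≤ 1 := by
  induction n generalizing S k z with
  | zero => exact zero_le_one
  | succ n ih =>
    refine (lintegral_mono fun t => max_le (hf _) (iSup_le fun j => iSup_le fun _ =>
      iSup_le fun i => iSup_le fun _ => iSup_le fun b =>
        ENNReal.rpow_le_one (ih _ _ _) hγ.le)).trans (le_of_eq ?_)
    simp [Real.volume_Icc_pi]

omit [Fintype ι] [Nonempty ι] in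
theorem fp_update {S : Finset ι} {i : ι} (hi : i ∉ S) (v : Fm ι) (u : E ι) (ψ : ι → ℝ → ℝ)
    (z t : E ι) : fp S (Function.update v i u) ψ z t = fp S v ψ z t :=
  congrArg (z + ·) (Finset.sum_congr rfl fun l hl => by
    rw [Function.update_of_ne (ne_of_mem_of_not_mem hl hi)])

theorem rb_ind (n : ℕ) {S : Finset ι} {i : ι} (hi : i ∉ S) (k : ℤ) :
    Ind i fun w : Fm ι × E ι => rb f γ w.1 n S k w.2 := by
  intro v u y
  induction n generalizing S k y with
  | zero => rfl
  | succ n ih =>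
    have h : ∀ l j y, rb f γ (Function.update v i u) n (S.erase l) j y =
        rb f γ v n (S.erase l) j y := fun l j y =>
      ih (fun h => hi (Finset.mem_of_mem_erase h)) j y
    simp only [rb, fpt, anc, fp_update hi, h]

end Pool.Agent.Lib.MP_ecd4e3_gt.NB
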