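import Pool.Agent.Lib.MP_ecd4e3_gt.NB.XDefs

/-! Markov and Chebyshev for an array of functions. -/

namespace Pool.Agent.Lib.MP_ecd4e3_gt.NB

open Set Filter Topology Metric MeasureTheory
open scoped NNReal ENNReal

/-- One Markov inequality for a majorant of the array. -/
theorem xr_markov {X : Type} [MeasurableSpace X] (ν : Measure X) {d Y : ℤ → ℕ → X → ℝ≥0∞}
    (hY : ∀ k g, Measurable (Y k g)) {μ : ℤ → ℝ≥0∞} {A c : ℕ → ℝ≥0∞} {t : ℝ≥0∞} (t0 : t ≠ 0)
    (t1 : t ≠ ∞) (hA : ∑' g, A g ≤ t) (hd : ∀ k g x, d k g x ≤ A g + Y k g x)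
    (h1 : ∀ k g, ∫⁻ x, Y k g x ∂ν ≤ c g * μ (k - g)) :
    ∑' k, ν {x | t + t < ∑' g, d k g x} ≤ (∑' g, c g) * (∑' m, μ m) / t := by
  have key : ∀ k, ν {x | t + t < ∑' g, d k g x} ≤ (∑' g : ℕ, c g * μ (k - g)) / t := fun k => by
    have sub : {x | t + t < ∑' g, d k g x} ⊆ {x | t ≤ ∑' g, Y k g x} := fun x hx => by
      have h2 : ∑' g, d k g x ≤ t + ∑' g, Y k g x :=
        (ENNReal.tsum_le_tsum fun g => hd k g x).trans
          (by rw [ENNReal.tsum_add]; gcongr)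
      exact ((ENNReal.add_lt_add_iff_left t1).1 (lt_of_lt_of_le hx h2)).le
    refine (measure_mono sub).trans ((meas_ge_le_lintegral_div
      (Measurable.tsum (hY k)).aemeasurable t0 t1).trans ?_)
    rw [lintegral_tsum fun g => (hY k g).aemeasurable]
    exact ENNReal.div_le_div_right (ENNReal.tsum_le_tsum (h1 k)) t
  refine (ENNReal.tsum_le_tsum key).trans (le_of_eq ?_)
  simp only [div_eq_mul_inv]
  rw [ENNReal.tsum_mul_right, ENNReal.tsum_comm]
  congr 1
  rw [← ENNReal.tsum_mul_right]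
  refine tsum_congr fun g => ?_
  rw [ENNReal.tsum_mul_left]
  congr 1
  exact (Equiv.subRight (g : ℤ)).tsum_eq μ

theorem xr_le {d a b : ℝ≥0∞} (h : a * b = 1) : d ≤ a + d ^ 2 * b := by
  rcases le_total d a with u | u
  · exact u.trans le_self_add
  · refine le_trans ?_ le_add_self
    calc d = d * a * b := by rw [mul_assoc, h, mul_one]
      _ ≤ d * d * b := by gcongr
      _ = d ^ 2 * b := by rw [sq]

theorem xr_geo {a q : ℝ} (ha : 0 ≤ a) (h0 : 0 ≤ q) (h1 : q < 1) :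
    ∑' g : ℕ, ENNReal.ofReal (a * q ^ g) = ENNReal.ofReal (a * (1 - q)⁻¹) := by
  rw [← ENNReal.ofReal_tsum_of_nonneg (fun _ => by positivity)
    ((summable_geometric_of_lt_one h0 h1).mul_left a), tsum_mul_left,
    tsum_geometric_of_lt_one h0 h1]

theorem xr_num {n g : ℕ} (h : 10 * n ≤ g) :
    (3 / 4 : ℝ) ^ g * (((2 : ℝ) ^ (n + 1))⁻¹ / 8 * (7 / 8) ^ g)⁻¹ ≤ 16 * (13 / 14) ^ g := by
  have h1 : (12 / 13 : ℝ) ^ g * 2 ^ n ≤ 1 := by
    have u1 : (12 / 13 : ℝ) ^ g ≤ (12 / 13) ^ (10 * n) :=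
      pow_le_pow_of_le_one (by norm_num) (by norm_num) h
    have u2 : ((12 / 13 : ℝ) ^ 10 * 2) ^ n ≤ 1 := pow_le_one₀ (by norm_num) (by norm_num)
    rw [mul_pow, ← pow_mul] at u2
    exact (mul_le_mul_of_nonneg_right u1 (by positivity)).trans u2
  have e : (3 / 4 : ℝ) ^ g = (13 / 14) ^ g * (12 / 13) ^ g * (7 / 8) ^ g := by
    rw [← mul_pow, ← mul_pow]
    norm_num
  have e' : (3 / 4 : ℝ) ^ g * (((2 : ℝ) ^ (n + 1))⁻¹ / 8 * (7 / 8) ^ g)⁻¹ =
      16 * (13 / 14) ^ g * ((12 / 13) ^ g * 2 ^ n) := by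
    rw [e]
    field_simp
    ring
  rw [e']
  exact mul_le_of_le_one_right (by positivity) h1

/-- Markov for small gaps, Chebyshev for large gaps. -/
theorem array_bound {X : Type} [MeasurableSpace X] (ν : Measure X) {d : ℤ → ℕ → X → ℝ≥0∞}
    (hd : ∀ k g, Measurable (d k g)) {μ : ℤ → ℝ≥0∞} (h1 : ∀ k g, ∫⁻ x, d k g x ∂ν ≤ μ (k - g))
    (h2 : ∀ k g, ∫⁻ x, d k g x ^ 2 ∂ν ≤ (3 / 4) ^ g * μ (k - g)) (n : ℕ) :
    ∑' k, ν {x | (2 ^ n)⁻¹ < ∑' g, d k g x} ≤ 10 ^ 6 * (∑' m, μ m) * (n + 1) * 2 ^ n := by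
  set t : ℝ := ((2 : ℝ) ^ (n + 1))⁻¹ with ht
  have t0 : 0 < t := by positivity
  have e1 : ENNReal.ofReal t = (2 ^ (n + 1))⁻¹ := by
    rw [ht, ENNReal.ofReal_inv_of_pos (by positivity), ENNReal.ofReal_pow (by norm_num)]
    norm_num
  have e2 : ENNReal.ofReal t + ENNReal.ofReal t = (2 ^ n)⁻¹ := by
    rw [← ENNReal.ofReal_add t0.le t0.le, show t + t = ((2 : ℝ) ^ n)⁻¹ by rw [ht]; field_simp; ring,
      ENNReal.ofReal_inv_of_pos (by positivity), ENNReal.ofReal_pow (by norm_num)]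
    norm_num
  have key := xr_markov ν (d := d) (μ := μ) (t := ENNReal.ofReal t)
    (Y := fun k g x => if g < 10 * n then d k g x
      else d k g x ^ 2 * ENNReal.ofReal (t / 8 * (7 / 8) ^ g)⁻¹)
    (A := fun g => ENNReal.ofReal (t / 8 * (7 / 8) ^ g))
    (c := fun g => (if g < 10 * n then 1 else 0) + ENNReal.ofReal (16 * (13 / 14) ^ g))
    (fun k g => by
      by_cases u : g < 10 * n
      · simpa [u] using hd k g
      · simpa [u] using ((hd k g).pow_const 2).mul_const _)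
    (ENNReal.ofReal_pos.2 t0).ne' ENNReal.ofReal_ne_top
    (by rw [xr_geo (by positivity) (by norm_num) (by norm_num)]; exact le_of_eq (by congr 1; ring))
    (fun k g x => by
      split_ifs
      · exact le_add_self
      · refine xr_le ?_
        rw [← ENNReal.ofReal_mul (by positivity), mul_inv_cancel₀ (by positivity),
          ENNReal.ofReal_one])
    fun k g => by
      by_cases u : g < 10 * n
      · simp only [u, if_true]
        exact (h1 k g).trans (le_mul_of_one_le_left' le_self_add)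
      · simp only [u, if_false, zero_add]
        rw [lintegral_mul_const _ ((hd k g).pow_const 2)]
        refine (mul_le_mul_left (h2 k g) _).trans ?_
        rw [mul_right_comm]
        refine mul_le_mul_left ?_ _
        have e3 : (3 / 4 : ℝ≥0∞) = ENNReal.ofReal (3 / 4) := by
          rw [ENNReal.ofReal_div_of_pos (by norm_num)]
          norm_num
        rw [e3, ← ENNReal.ofReal_pow (by norm_num), ← ENNReal.ofReal_mul (by positivity)]
        exact ENNReal.ofReal_le_ofReal (xr_num (not_lt.1 u))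
  rw [e2, e1, ENNReal.tsum_add, xr_geo (by norm_num) (by norm_num) (by norm_num),
    tsum_eq_sum (s := Finset.range (10 * n)) fun g hg => if_neg (by simpa using hg),
    Finset.sum_congr rfl fun g hg => if_pos (Finset.mem_range.1 hg), div_eq_mul_inv, inv_inv,
    show (16 : ℝ) * (1 - 13 / 14)⁻¹ = (224 : ℕ) by norm_num, ENNReal.ofReal_natCast] at key
  refine key.trans ?_
  have h3 : ((10 * n + 224) * 2 : ℕ) ≤ 10 ^ 6 * (n + 1) := by omega
  have h4 : ((10 * n + 224) * 2 : ℝ≥0∞) ≤ 10 ^ 6 * (n + 1) := by exact_mod_cast h3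
  calc _ = (10 * n + 224) * 2 * ((∑' m, μ m) * 2 ^ n) := by simp; ring
    _ ≤ 10 ^ 6 * (n + 1) * ((∑' m, μ m) * 2 ^ n) := mul_le_mul_left h4 _
    _ = _ := by ring

end Pool.Agent.Lib.MP_ecd4e3_gt.NB
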