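import Pool.Agent.Lib.MP_ecd4e3_gt.NB.XC

/-! Maximal cubes. -/

namespace Pool.Agent.Lib.MP_ecd4e3_gt.NB

open Set Filter Topology Metric MeasureTheory
open scoped NNReal ENNReal

variable {ι : Type} [Fintype ι] [DecidableEq ι] [Nonempty ι]

theorem xc2_measurable_Em (m : ℤ) {F : E ι → ℝ≥0∞} (hF : Measurable F) : Measurable (Em m F) := by
  have h : Measurable fun w : Unit × E ι => Em m F w.2 :=
    measurable_Em (X := Unit) m (F := fun w : Unit × E ι => F w.2) (hF.comp measurable_snd)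
  have h2 : Measurable fun y : E ι => (((), y) : Unit × E ι) := measurable_prodMk_left
  exact (h.comp h2 :)

omit [Nonempty ι] in
theorem xc2_cube_eq (m : ℤ) (y : E ι) :
    (cubeAt m y).set = closedBall (fun i => fl m (y i) + 2 ^ m / 2) (2 ^ m / 2) := by
  have h0 : (0 : ℝ) ≤ 2 ^ m / 2 := by have := two_pos_g m; positivity
  ext x
  rw [Bx.mem_set, mem_closedBall, dist_pi_le_iff h0]
  refine forall_congr' fun i => ?_
  rw [Real.dist_eq, abs_le]
  simp only [cubeAt]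
  constructor
  · rintro ⟨h1, h2⟩
    constructor <;> linarith
  · rintro ⟨h1, h2⟩
    constructor <;> linarith

/-- A function with small means on all cubes at almost every point of a set is small there. -/
theorem ae_le_of_Em {F : E ι → ℝ≥0∞} (hF : Measurable F) (hi : ∫⁻ y, F y ≠ ∞) (α : ℝ≥0∞) :
    ∀ᵐ y, (∀ m, Em m F y ≤ α) → F y ≤ α := by
  filter_upwards [(IsUnifLocDoublingMeasure.vitaliFamily (volume : Measure (E ι))
    1).ae_tendsto_lintegral_div hF.aemeasurable hi] with y hy h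
  have hδ : Tendsto (fun n : ℕ => (2 : ℝ) ^ (-(n : ℤ)) / 2) atTop (𝓝[>] 0) := by
    refine tendsto_nhdsWithin_iff.2 ⟨?_, Eventually.of_forall fun n => ?_⟩
    · have h1 : Tendsto (fun n : ℕ => ((2 : ℝ)⁻¹) ^ n) atTop (𝓝 0) :=
        tendsto_pow_atTop_nhds_zero_of_lt_one (by norm_num) (by norm_num)
      have h2 := h1.div_const 2
      rw [zero_div] at h2
      refine h2.congr fun n => ?_
      rw [zpow_neg, zpow_natCast, inv_pow]
    · have := two_pos_g (-(n : ℤ))
      exact mem_Ioi.2 (by positivity)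
  have h3 := IsUnifLocDoublingMeasure.tendsto_closedBall_filterAt (volume : Measure (E ι))
    (K := 1) (x := y) (l := atTop)
    (fun n : ℕ => fun i => fl (-(n : ℤ)) (y i) + 2 ^ (-(n : ℤ)) / 2)
    (fun n : ℕ => (2 : ℝ) ^ (-(n : ℤ)) / 2) hδ
    (Eventually.of_forall fun n => by rw [one_mul, ← xc2_cube_eq]; exact mem_cubeAt _ _)
  refine le_of_tendsto' (hy.comp h3) fun n => ?_
  have h0 : (0 : ℝ) < 2 ^ (-(n : ℤ)) := two_pos_g _
  simp only [Function.comp]
  rw [Real.volume_pi_closedBall _ (by positivity), ← xc2_cube_eq, ← Em_eq _ hF,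
    mul_div_cancel₀ _ (two_ne_zero), ENNReal.mul_div_cancel_right
      (ENNReal.ofReal_pos.2 (by positivity)).ne' ENNReal.ofReal_ne_top]
  exact h _

/-- The maximal cubes on which the mean of `F m` exceeds `α`. -/
def CZ (F : ℤ → E ι → ℝ≥0∞) (α : ℝ≥0∞) (m : ℤ) : Set (E ι) :=
  {y | α < Em m (F m) y ∧ ∀ m', m < m' → Em m' (F m') y ≤ α}

theorem CZ_congr {F : ℤ → E ι → ℝ≥0∞} {α : ℝ≥0∞} {m : ℤ} {y y' : E ι} (h : flv m y = flv m y') :
    y ∈ CZ F α m ↔ y' ∈ CZ F α m := by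
  have h1 : ∀ m', m ≤ m' → Em m' (F m') y = Em m' (F m') y' := fun m' hm =>
    Em_congr (by rw [← flv_flv hm y, h, flv_flv hm]) _
  simp only [CZ, mem_ofPred_eq]
  rw [h1 m le_rfl]
  exact and_congr Iff.rfl (forall_congr' fun m' => forall_congr' fun hm => by rw [h1 m' hm.le])

set_option linter.unusedSectionVars false in
theorem CZ_disj {F : ℤ → E ι → ℝ≥0∞} {α : ℝ≥0∞} {m m' : ℤ} {y : E ι} (h : y ∈ CZ F α m)
    (h' : y ∈ CZ F α m') : m = m' := by
  rcases lt_trichotomy m m' with e | e | e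
  · exact absurd (h.2 m' e) (not_le.2 h'.1)
  · exact e
  · exact absurd (h'.2 m e) (not_le.2 h.1)

theorem measurableSet_CZ {X : Type} [MeasurableSpace X] {F : ℤ → X × E ι → ℝ≥0∞}
    (hF : ∀ m, Measurable (F m)) (α : ℝ≥0∞) (m : ℤ) :
    MeasurableSet {w : X × E ι | w.2 ∈ CZ (fun m y => F m (w.1, y)) α m} := by
  have e : {w : X × E ι | w.2 ∈ CZ (fun m y => F m (w.1, y)) α m} =
      {w : X × E ι | α < Em m (fun y => F m (w.1, y)) w.2} ∩
        ⋂ (m' : ℤ) (_ : m < m'), {w : X × E ι | Em m' (fun y => F m' (w.1, y)) w.2 ≤ α} := by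
    ext w
    simp only [CZ, mem_ofPred_eq, mem_inter_iff, mem_iInter]
  rw [e]
  exact (measurableSet_lt measurable_const (measurable_Em m (hF m))).inter
    (MeasurableSet.iInter fun m' => MeasurableSet.iInter fun _ =>
      measurableSet_le (measurable_Em m' (hF m')) measurable_const)

theorem xc2_measurableSet_CZ {F : ℤ → E ι → ℝ≥0∞} (hF : ∀ m, Measurable (F m)) (α : ℝ≥0∞)
    (m : ℤ) : MeasurableSet (CZ F α m) := by
  have h := measurableSet_CZ (X := Unit) (F := fun m (w : Unit × E ι) => F m w.2)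
    (fun m => (hF m).comp measurable_snd) α m
  exact (measurable_prodMk_left (x := ())) h

theorem CZ_exists {F : ℤ → E ι → ℝ≥0∞} (hF : ∀ m, Measurable (F m)) {G : E ι → ℝ≥0∞}
    (hG : ∀ m y, F m y ≤ G y) (hi : ∫⁻ y, G y ≠ ∞) {α : ℝ≥0∞} (hα : 0 < α) {m : ℤ} {y : E ι}
    (h : α < Em m (F m) y) : ∃ m', m ≤ m' ∧ y ∈ CZ F α m' := by
  obtain ⟨n, hn⟩ := ENNReal.exists_nat_mul_gt hα.ne' hi
  have hb : ∀ z : ℤ, α < Em z (F z) y → z ≤ n := by
    intro z hz
    by_contra hc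
    have hz0 : (n : ℤ) ≤ z := (not_le.1 hc).le
    have h1 : (n : ℝ) ≤ (2 ^ z) ^ Fintype.card ι := by
      have a1 : (n : ℝ) ≤ 2 ^ n := by exact_mod_cast (Nat.lt_two_pow_self (n := n)).le
      have a2 : (2 : ℝ) ^ n ≤ 2 ^ z := by
        rw [← zpow_natCast]
        exact two_le_g.2 hz0
      have a3 : (1 : ℝ) ≤ 2 ^ z := le_trans (one_le_pow₀ one_le_two) a2
      exact a1.trans (a2.trans (le_self_pow₀ a3 Fintype.card_ne_zero))
    have h2 : (n : ℝ≥0∞) ≤ ENNReal.ofReal ((2 ^ z) ^ Fintype.card ι) := by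
      rw [← ENNReal.ofReal_natCast]
      exact ENNReal.ofReal_le_ofReal h1
    have h3 : (n : ℝ≥0∞) * α ≤ ∫⁻ y, G y :=
      calc (n : ℝ≥0∞) * α = α * n := mul_comm _ _
        _ ≤ Em z (F z) y * ENNReal.ofReal ((2 ^ z) ^ Fintype.card ι) := mul_le_mul' hz.le h2
        _ = ∫⁻ x in (cubeAt z y).set, F z x := Em_eq z (hF z) y
        _ ≤ ∫⁻ x, F z x := setLIntegral_le_lintegral _ _
        _ ≤ ∫⁻ y, G y := lintegral_mono fun x => hG z x
    exact absurd hn (not_lt.2 h3)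
  obtain ⟨u, hu, hu'⟩ := Int.exists_greatest_of_bdd (P := fun z => α < Em z (F z) y) ⟨n, hb⟩ ⟨m, h⟩
  exact ⟨u, hu' m h, hu, fun m' hm' => not_lt.1 fun hc => absurd (hu' m' hc) (not_le.2 hm')⟩

/-- The mean preserves integrals over unions of cubes. -/
theorem xc2_setLIntegral_Em (m : ℤ) {F : E ι → ℝ≥0∞} (hF : Measurable F) {A : Set (E ι)}
    (hA : MeasurableSet A) (hc : ∀ y y', flv m y = flv m y' → (y ∈ A ↔ y' ∈ A)) :
    ∫⁻ x in A, Em m F x = ∫⁻ x in A, F x := by
  have h := lintegral_mul_Em m hF (G := A.indicator 1) (measurable_one.indicator hA)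
    (fun y y' e => by
      by_cases hy : y ∈ A
      · rw [indicator_of_mem hy, indicator_of_mem ((hc y y' e).1 hy)]; rfl
      · rw [indicator_of_notMem hy, indicator_of_notMem (fun h' => hy ((hc y y' e).2 h'))])
  have e : ∀ H : E ι → ℝ≥0∞, ∫⁻ x, A.indicator 1 x * H x = ∫⁻ x in A, H x := fun H => by
    rw [← lintegral_indicator hA]
    refine lintegral_congr fun x => ?_
    by_cases hx : x ∈ A
    · rw [indicator_of_mem hx, indicator_of_mem hx, Pi.one_apply, one_mul]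
    · rw [indicator_of_notMem hx, indicator_of_notMem hx, zero_mul]
  rw [← e, ← e, h]

theorem CZ_meas {F : ℤ → E ι → ℝ≥0∞} (hF : ∀ m, Measurable (F m)) {G : E ι → ℝ≥0∞}
    (hG : ∀ m y, F m y ≤ G y) (α : ℝ≥0∞) : α * ∑' m, volume (CZ F α m) ≤ ∫⁻ y, G y := by
  have hm := xc2_measurableSet_CZ hF α
  have h1 : ∀ m, α * volume (CZ F α m) ≤ ∫⁻ y in CZ F α m, G y := fun m =>
    calc α * volume (CZ F α m) = ∫⁻ _ in CZ F α m, α := (setLIntegral_const _ _).symm
      _ ≤ ∫⁻ y in CZ F α m, Em m (F m) y := setLIntegral_mono' (hm m) fun y hy => hy.1.le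
      _ = ∫⁻ y in CZ F α m, F m y :=
          xc2_setLIntegral_Em m (hF m) (hm m) fun _ _ e => CZ_congr e
      _ ≤ ∫⁻ y in CZ F α m, G y := lintegral_mono fun y => hG m y
  calc α * ∑' m, volume (CZ F α m) = ∑' m, α * volume (CZ F α m) := ENNReal.tsum_mul_left.symm
    _ ≤ ∑' m, ∫⁻ y in CZ F α m, G y := ENNReal.tsum_le_tsum h1
    _ = ∫⁻ y in ⋃ m, CZ F α m, G y :=
        (lintegral_iUnion hm (fun m m' hne => disjoint_left.2 fun y h h' => hne (CZ_disj h h'))
          G).symm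
    _ ≤ ∫⁻ y, G y := setLIntegral_le_lintegral _ _

/-- The neighbourhood of the maximal cubes of level at least `k`. -/
def CZn (F : ℤ → E ι → ℝ≥0∞) (α : ℝ≥0∞) (r : ℕ) (k : ℤ) : Set (E ι) :=
  {y | ∃ m, k ≤ m ∧ ∃ o : ι → ℤ, (∀ i, |o i| ≤ r) ∧
    (y + (2 : ℝ) ^ m • fun i => (o i : ℝ)) ∈ CZ F α m}

theorem CZn_of_near {F : ℤ → E ι → ℝ≥0∞} {α : ℝ≥0∞} {r : ℕ} {k m : ℤ} (hm : k ≤ m) {y y' : E ι}
    (h : y' ∈ CZ F α m) (hd : dist y' y ≤ r * 2 ^ m) : y ∈ CZn F α r k := by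
  obtain ⟨o, ho, e⟩ := flv_near hd
  exact ⟨m, hm, o, ho, (CZ_congr e).1 h⟩

theorem CZn_near {F : ℤ → E ι → ℝ≥0∞} {α : ℝ≥0∞} {r r' : ℕ} {k : ℤ} {y y' : E ι}
    (h : y' ∈ CZn F α r k) (hd : dist y' y ≤ r' * 2 ^ k) : y ∈ CZn F α (r + r') k := by
  obtain ⟨m, hm, o, ho, h⟩ := h
  refine CZn_of_near hm h ?_
  have h0 := two_pos_g m
  have h1 : dist (y' + (2 : ℝ) ^ m • fun i => (o i : ℝ)) y' ≤ r * 2 ^ m := by
    rw [dist_pi_le_iff (by positivity)]
    intro i
    have a : |(o i : ℝ)| ≤ r := by exact_mod_cast ho i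
    rw [Real.dist_eq, Pi.add_apply, Pi.smul_apply, add_sub_cancel_left, smul_eq_mul, abs_mul,
      abs_of_pos h0, mul_comm]
    exact mul_le_mul_of_nonneg_right a h0.le
  have h2 : (r' : ℝ) * 2 ^ k ≤ r' * 2 ^ m :=
    mul_le_mul_of_nonneg_left (two_le_g.2 hm) (Nat.cast_nonneg _)
  calc dist (y' + (2 : ℝ) ^ m • fun i => (o i : ℝ)) y
      ≤ dist (y' + (2 : ℝ) ^ m • fun i => (o i : ℝ)) y' + dist y' y := dist_triangle _ _ _
    _ ≤ r * 2 ^ m + r' * 2 ^ m := add_le_add h1 (hd.trans h2)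
    _ = ((r + r' : ℕ) : ℝ) * 2 ^ m := by push_cast; ring

theorem measurableSet_CZn {X : Type} [MeasurableSpace X] {F : ℤ → X × E ι → ℝ≥0∞}
    (hF : ∀ m, Measurable (F m)) (α : ℝ≥0∞) (r : ℕ) (k : ℤ) :
    MeasurableSet {w : X × E ι | w.2 ∈ CZn (fun m y => F m (w.1, y)) α r k} := by
  have e : {w : X × E ι | w.2 ∈ CZn (fun m y => F m (w.1, y)) α r k} =
      ⋃ (m : ℤ) (_ : k ≤ m) (o : ι → ℤ) (_ : ∀ i, |o i| ≤ r),
        (fun w : X × E ι => (w.1, w.2 + (2 : ℝ) ^ m • fun i => (o i : ℝ))) ⁻¹'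
          {w : X × E ι | w.2 ∈ CZ (fun m y => F m (w.1, y)) α m} := by
    ext w
    simp only [CZn, mem_ofPred_eq, mem_iUnion, mem_preimage, exists_prop]
  rw [e]
  exact MeasurableSet.iUnion fun m => MeasurableSet.iUnion fun _ => MeasurableSet.iUnion fun o =>
    MeasurableSet.iUnion fun _ =>
      (measurable_fst.prodMk (measurable_snd.add_const _)) (measurableSet_CZ hF α m)

theorem CZn_meas {F : ℤ → E ι → ℝ≥0∞} (hF : ∀ m, Measurable (F m)) {G : E ι → ℝ≥0∞}
    (hG : ∀ m y, F m y ≤ G y) (α : ℝ≥0∞) (r : ℕ) :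
    α * volume (⋃ k, CZn F α r k) ≤ (2 * r + 1) ^ Fintype.card ι * ∫⁻ y, G y := by
  set T : Finset (ι → ℤ) := Fintype.piFinset fun _ => Finset.Icc (-(r : ℤ)) r with hT
  have hcard : (T.card : ℝ≥0∞) = (2 * r + 1) ^ Fintype.card ι := by
    have e : (r : ℤ) + 1 - -(r : ℤ) = ((2 * r + 1 : ℕ) : ℤ) := by push_cast; ring
    rw [hT, Fintype.card_piFinset, Finset.prod_const, Int.card_Icc, e, Int.toNat_natCast,
      Finset.card_univ]
    push_cast
    rfl
  have hsub : (⋃ k, CZn F α r k) ⊆ ⋃ m : ℤ, ⋃ o ∈ T,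
      (fun y => y + (2 : ℝ) ^ m • fun i => (o i : ℝ)) ⁻¹' CZ F α m := by
    intro y hy
    obtain ⟨k, m, -, o, ho, h⟩ := mem_iUnion.1 hy
    refine mem_iUnion.2 ⟨m, mem_iUnion₂.2 ⟨o, ?_, h⟩⟩
    rw [hT, Fintype.mem_piFinset]
    exact fun i => Finset.mem_Icc.2 (abs_le.1 (ho i))
  have h1 : volume (⋃ k, CZn F α r k) ≤ T.card * ∑' m, volume (CZ F α m) := by
    refine (measure_mono hsub).trans ((measure_iUnion_le _).trans ?_)
    rw [← ENNReal.tsum_mul_left]
    refine ENNReal.tsum_le_tsum fun m => (measure_biUnion_finset_le _ _).trans ?_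
    simp only [measure_preimage_add_right, Finset.sum_const, nsmul_eq_mul, le_refl]
  calc α * volume (⋃ k, CZn F α r k) ≤ α * (T.card * ∑' m, volume (CZ F α m)) :=
        mul_le_mul' le_rfl h1
    _ = T.card * (α * ∑' m, volume (CZ F α m)) := mul_left_comm _ _ _
    _ ≤ (2 * r + 1) ^ Fintype.card ι * ∫⁻ y, G y := mul_le_mul' hcard.le (CZ_meas hF hG α)

theorem xc2_enorm_le (a b : ℝ≥0∞) : ‖a.toReal - b.toReal‖ₑ ≤ max a b := by
  have ha := @ENNReal.toReal_nonneg a
  have hb := @ENNReal.toReal_nonneg b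
  rw [Real.enorm_eq_ofReal_abs]
  rcases le_total a.toReal b.toReal with h | h
  · refine le_trans ?_ (le_max_right _ _)
    refine (ENNReal.ofReal_le_ofReal ?_).trans ENNReal.ofReal_toReal_le
    rw [abs_le]
    constructor <;> linarith
  · refine le_trans ?_ (le_max_left _ _)
    refine (ENNReal.ofReal_le_ofReal ?_).trans ENNReal.ofReal_toReal_le
    rw [abs_le]
    constructor <;> linarith

theorem xc2_enorm_le_add (a b : ℝ≥0∞) : ‖a.toReal - b.toReal‖ₑ ≤ a + b :=
  (xc2_enorm_le a b).trans (max_le le_self_add le_add_self)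

theorem xc2_enorm_sq_le (a b : ℝ≥0∞) : ‖a.toReal - b.toReal‖ₑ ^ 2 ≤ a ^ 2 + b ^ 2 := by
  refine (pow_le_pow_left' (xc2_enorm_le a b) 2).trans ?_
  rcases le_total a b with h | h
  · rw [max_eq_right h]; exact le_add_self
  · rw [max_eq_left h]; exact le_self_add

omit [DecidableEq ι] [Nonempty ι] in
theorem xc2_vol_unit : volume (Icc (0 : E ι) 1) = 1 := by
  rw [Real.volume_Icc_pi]
  simp

omit [Fintype ι] [DecidableEq ι] [Nonempty ι] in
theorem xc2_measurable_pt (m : ℤ) (y : E ι) :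
    Measurable fun t : E ι => flv m y + (2 : ℝ) ^ m • t := by
  fun_prop

/-- The centred part of a function on a union of cubes. -/
theorem centred {m : ℤ} {F : E ι → ℝ≥0∞} (hF : Measurable F) {A : Set (E ι)} (hA : MeasurableSet A)
    (hc : ∀ y y', flv m y = flv m y' → (y ∈ A ↔ y' ∈ A)) (h1 : ∀ y ∈ A, Em m F y ≤ 1) :
    (∀ y, Er m (A.indicator fun x => (F x).toReal - (Em m F x).toReal) y = 0) ∧
    (∀ y, Em m (fun x => ‖A.indicator (fun x => (F x).toReal - (Em m F x).toReal) x‖ₑ) y ≤ 2) ∧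
    ∫⁻ x, ‖A.indicator (fun x => (F x).toReal - (Em m F x).toReal) x‖ₑ ≤ 2 * ∫⁻ x in A, F x ∧
    ∫⁻ x, ‖A.indicator (fun x => (F x).toReal - (Em m F x).toReal) x‖ₑ ^ 2 ≤
      4 * ∫⁻ x in A, F x ^ 2 := by
  have hin : ∀ y ∈ A, ∀ᵐ t ∂volume.restrict (Icc (0 : E ι) 1),
      A.indicator (fun x => (F x).toReal - (Em m F x).toReal) (flv m y + (2 : ℝ) ^ m • t) =
        (F (flv m y + (2 : ℝ) ^ m • t)).toReal - (Em m F y).toReal := fun y hy => by
    filter_upwards [flv_ae m y] with t ht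
    rw [indicator_of_mem ((hc _ _ ht).2 hy), Em_congr ht]
  have hout : ∀ y ∉ A, ∀ᵐ t ∂volume.restrict (Icc (0 : E ι) 1),
      A.indicator (fun x => (F x).toReal - (Em m F x).toReal) (flv m y + (2 : ℝ) ^ m • t) = 0 :=
    fun y hy => by
      filter_upwards [flv_ae m y] with t ht
      rw [indicator_of_notMem (fun h => hy ((hc _ _ ht).1 h))]
  have hmF : ∀ y : E ι, Measurable fun t : E ι => F (flv m y + (2 : ℝ) ^ m • t) := fun y =>
    hF.comp (xc2_measurable_pt m y)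
  have : IsFiniteMeasure (volume.restrict (Icc (0 : E ι) 1)) :=
    ⟨by rw [Measure.restrict_apply_univ, xc2_vol_unit]; exact ENNReal.one_lt_top⟩
  refine ⟨fun y => ?_, fun y => ?_, ?_, ?_⟩
  · by_cases hy : y ∈ A
    · have hfin : ∫⁻ t in Icc (0 : E ι) 1, F (flv m y + (2 : ℝ) ^ m • t) ≠ ∞ :=
        ne_top_of_le_ne_top ENNReal.one_ne_top (h1 y hy)
      unfold Er
      rw [integral_congr_ae (hin y hy), integral_sub
        (integrable_toReal_of_lintegral_ne_top (hmF y).aemeasurable hfin) (integrable_const _),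
        integral_toReal (hmF y).aemeasurable (ae_lt_top (hmF y) hfin), integral_const,
        Measure.real, Measure.restrict_apply_univ, xc2_vol_unit, ENNReal.toReal_one, one_smul]
      exact sub_self _
    · unfold Er
      rw [integral_congr_ae (hout y hy), integral_zero]
  · by_cases hy : y ∈ A
    · calc Em m (fun x => ‖A.indicator (fun x => (F x).toReal - (Em m F x).toReal) x‖ₑ) y
          ≤ ∫⁻ t in Icc (0 : E ι) 1, (F (flv m y + (2 : ℝ) ^ m • t) + Em m F y) := by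
            refine lintegral_mono_ae ?_
            filter_upwards [hin y hy] with t ht
            rw [ht]
            exact xc2_enorm_le_add _ _
        _ = Em m F y + Em m F y := by
            rw [lintegral_add_left (hmF y), setLIntegral_const, xc2_vol_unit, mul_one]
            rfl
        _ ≤ 1 + 1 := add_le_add (h1 y hy) (h1 y hy)
        _ = 2 := one_add_one_eq_two
    · calc Em m (fun x => ‖A.indicator (fun x => (F x).toReal - (Em m F x).toReal) x‖ₑ) y
          ≤ ∫⁻ _ in Icc (0 : E ι) 1, 0 := by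
            refine lintegral_mono_ae ?_
            filter_upwards [hout y hy] with t ht
            rw [ht, enorm_zero]
        _ ≤ 2 := by rw [lintegral_zero]; exact zero_le
  · calc ∫⁻ x, ‖A.indicator (fun x => (F x).toReal - (Em m F x).toReal) x‖ₑ
        ≤ ∫⁻ x, A.indicator (fun x => F x + Em m F x) x := by
          refine lintegral_mono fun x => ?_
          by_cases hx : x ∈ A
          · rw [indicator_of_mem hx, indicator_of_mem hx]
            exact xc2_enorm_le_add _ _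
          · rw [indicator_of_notMem hx, indicator_of_notMem hx, enorm_zero]
      _ = 2 * ∫⁻ x in A, F x := by
          rw [lintegral_indicator hA, lintegral_add_left hF, xc2_setLIntegral_Em m hF hA hc,
            two_mul]
  · have hF2 : Measurable fun x => F x ^ 2 := hF.pow_const 2
    calc ∫⁻ x, ‖A.indicator (fun x => (F x).toReal - (Em m F x).toReal) x‖ₑ ^ 2
        ≤ ∫⁻ x, A.indicator (fun x => F x ^ 2 + Em m (fun x => F x ^ 2) x) x := by
          refine lintegral_mono fun x => ?_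
          by_cases hx : x ∈ A
          · rw [indicator_of_mem hx, indicator_of_mem hx]
            exact (xc2_enorm_sq_le _ _).trans (add_le_add le_rfl (Em_sq_le m hF x))
          · rw [indicator_of_notMem hx, indicator_of_notMem hx, enorm_zero, zero_pow two_ne_zero]
      _ = 2 * ∫⁻ x in A, F x ^ 2 := by
          rw [lintegral_indicator hA, lintegral_add_left hF2, xc2_setLIntegral_Em m hF2 hA hc,
            two_mul]
      _ ≤ 4 * ∫⁻ x in A, F x ^ 2 := mul_le_mul' (by norm_num) le_rfl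

end Pool.Agent.Lib.MP_ecd4e3_gt.NB
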