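import Pool.Agent.Lib.MP_ecd4e3_gt.NB.LDefs

/-! Definitions for the X-ray estimate with random directions. -/

namespace Pool.Agent.Lib.MP_ecd4e3_gt.NB

open Set Filter Topology Metric MeasureTheory
open scoped NNReal ENNReal

variable {ι : Type} [Fintype ι] [DecidableEq ι]

/-- The size of the random perturbation of the coordinate directions. -/
noncomputable def etX (ι : Type) [Fintype ι] : ℝ := 1 / (4 * Fintype.card ι)

/-- The uniform distribution on a small cube around the coordinate vector. -/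
noncomputable def pv (i : ι) : Measure (E ι) :=
  (volume (closedBall (Pi.single i 1 : E ι) (etX ι)))⁻¹ •
    volume.restrict (closedBall (Pi.single i 1 : E ι) (etX ι))

/-- Frames of directions. -/
abbrev Fm (ι : Type) := ι → E ι

/-- The distribution of the frame. -/
noncomputable def PV (ι : Type) [Fintype ι] [DecidableEq ι] : Measure (Fm ι) := Measure.pi pv

/-- The joint measure of frame and point. -/
noncomputable def PZ (ι : Type) [Fintype ι] [DecidableEq ι] : Measure (Fm ι × E ι) :=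
  (PV ι).prod volume

/-- Admissible frames. -/
def Sv (ι : Type) [Fintype ι] [DecidableEq ι] : Set (Fm ι) :=
  {v | ∀ i, v i ∈ closedBall (Pi.single i 1 : E ι) (etX ι)}

/-- The linear map of a frame. -/
noncomputable def lin (v : Fm ι) (x : E ι) : E ι := ∑ i, x i • v i

/-- A point of a sheared face, with reparametrised coordinates. -/
noncomputable def fp (S : Finset ι) (v : Fm ι) (ψ : ι → ℝ → ℝ) (z t : E ι) : E ι :=
  z + ∑ l ∈ S, ψ l (t l) • v l

/-- The point with relative coordinates `t` of the face of size `2 ^ k` anchored at `z`. -/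
noncomputable def fpt (S : Finset ι) (v : Fm ι) (k : ℤ) (z t : E ι) : E ι :=
  fp S v (fun _ s => 2 ^ k * s) z t

/-- Rounding down to the grid of size `2 ^ j`. -/
noncomputable def sn (k j : ℤ) (s : ℝ) : ℝ := 2 ^ j * ⌊2 ^ k * s / 2 ^ j⌋

/-- The anchor of a facet, normal to `i`, of the subface of size `2 ^ j` at `t`. -/
noncomputable def anc (S : Finset ι) (v : Fm ι) (k j : ℤ) (i : ι) (b : Bool) (z t : E ι) : E ι :=
  fp S v (fun l s => sn k j s + if l = i ∧ b = true then 2 ^ j else 0) z t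

/-- The recursive mean weight of a sheared face. -/
noncomputable def rb (f : E ι → ℝ≥0∞) (γ : ℝ) (v : Fm ι) : ℕ → Finset ι → ℤ → E ι → ℝ≥0∞
  | 0, _, _, _ => 0
  | n + 1, S, k, z => ∫⁻ t in Icc (0 : E ι) 1, max (f (fpt S v k z t))
      (⨆ (j : ℤ) (_ : j ≤ k) (i : ι) (_ : i ∈ S) (b : Bool),
        rb f γ v n (S.erase i) j (anc S v k j i b z t) ^ γ)

/-- The lower corner of the cube of level `m` at `y`. -/
noncomputable def flv (m : ℤ) (y : E ι) : E ι := fun i => fl m (y i)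

/-- The mean over the cube of level `m` at `y`. -/
noncomputable def Em (m : ℤ) (F : E ι → ℝ≥0∞) (y : E ι) : ℝ≥0∞ :=
  ∫⁻ t in Icc (0 : E ι) 1, F (flv m y + (2 : ℝ) ^ m • t)

/-- The mean of a real function over the cube of level `m` at `y`. -/
noncomputable def Er (m : ℤ) (b : E ι → ℝ) (y : E ι) : ℝ :=
  ∫ t in Icc (0 : E ι) 1, b (flv m y + (2 : ℝ) ^ m • t)

/-- Independence of the direction `i`. -/
def Ind {α : Type} (i : ι) (F : Fm ι × E ι → α) : Prop :=
  ∀ v u y, F (Function.update v i u, y) = F (v, y)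

/-- Weak type bound with thick exceptional sets. -/
def WT (a : ℤ → Fm ι × E ι → ℝ≥0∞) (M : ℝ≥0∞) : Prop :=
  ∃ (Th : ℕ → ℤ → Set (Fm ι × E ι)) (Bad : ℕ → Set (Fm ι × E ι)),
    (∀ n k, MeasurableSet (Th n k)) ∧ (∀ n, MeasurableSet (Bad n)) ∧
    (∀ n, PZ ι (Bad n) ≤ M * 2 ^ n) ∧ (∀ n : ℕ, ∑' k, PZ ι (Th n k) ≤ M * (n + 1) * 2 ^ n) ∧
    ∀ (n : ℕ) (k : ℤ), ∀ v ∈ Sv ι, ∀ z x : E ι, dist x z ≤ 2 * 2 ^ k → (2 ^ n)⁻¹ < a k (v, z) →
      (v, z) ∈ Th n k ∨ (v, x) ∈ Bad n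

/-- Domination by a summable family and a function of a nearby point. -/
structure Dom (a : ℤ → Fm ι × E ι → ℝ≥0∞) (M : ℝ≥0∞) (ζ : ℤ → Fm ι × E ι → ℝ≥0∞)
    (Θ : Fm ι × E ι → ℝ≥0∞) : Prop where
  mζ : ∀ k, Measurable (ζ k)
  mΘ : Measurable Θ
  lζ : ∀ k w, ζ k w ≤ 1
  lΘ : ∀ w, Θ w ≤ 1
  sζ : ∑' k, ∫⁻ w, ζ k w ∂PZ ι ≤ M
  sΘ : ∫⁻ w, Θ w ∂PZ ι ≤ M
  dom : ∀ (k : ℤ), ∀ v ∈ Sv ι, ∀ z x : E ι, dist x z ≤ 2 * 2 ^ k → a k (v, z) ≤ ζ k (v, z) + Θ (v, x)

open Classical in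
/-- The weights on the coordinate planes. -/
noncomputable def wX (f : E ι → ℝ≥0∞) (γ : ℝ) (v : Fm ι) (S : Finset ι) (x : E ι) : ℝ≥0∞ :=
  max (f (lin v x))
    (⨆ (j : ℤ) (_ : ∀ l ∉ S, Lat j (x l)) (i : ι) (_ : i ∈ S) (b : Bool),
      rb f γ v (S.card - 1) (S.erase i) j
        (lin v (flv j x + if b = true then Pi.single i ((2 : ℝ) ^ j) else 0)) ^ γ)

end Pool.Agent.Lib.MP_ecd4e3_gt.NB
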