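import Pool.Agent.Lib.MP_ecd4e3_gt.NB.XB

/-! Averages over random faces. -/

namespace Pool.Agent.Lib.MP_ecd4e3_gt.NB

open Set Filter Topology Metric MeasureTheory
open scoped NNReal ENNReal

variable {ι : Type} [Fintype ι] [DecidableEq ι] [Nonempty ι]

namespace XF

omit [DecidableEq ι] [Nonempty ι] in
theorem prob_cube : IsProbabilityMeasure (volume.restrict (Icc (0 : E ι) 1)) :=
  ⟨by simp [Real.volume_Icc_pi]⟩

theorem prob_seg : IsProbabilityMeasure (volume.restrict (Icc (0 : ℝ) 1)) := ⟨by simp⟩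

theorem meas_map (S : Finset ι) {ψ : ι → ℝ → ℝ} (hψ : ∀ l, Measurable (ψ l)) :
    Measurable fun p : (Fm ι × E ι) × E ι => ((p.1.1, fp S p.1.1 ψ p.1.2 p.2) : Fm ι × E ι) :=
  measurable_fst.fst.prodMk (measurable_fp S hψ)

omit [Nonempty ι] in
/-- Resampling one coordinate of a point of the cube. -/
theorem mp_update (i : ι) :
    MeasurePreserving (fun p : E ι × ℝ => (Function.update p.1 i p.2 : E ι))
      ((volume.restrict (Icc (0 : E ι) 1)).prod (volume.restrict (Icc (0 : ℝ) 1)))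
      (volume.restrict (Icc (0 : E ι) 1)) := by
  have h0 : volume.restrict (Icc (0 : E ι) 1) =
      Measure.pi fun _ : ι => volume.restrict (Icc (0 : ℝ) 1) := by
    rw [← Set.pi_univ_Icc, volume_pi, Measure.restrict_pi_pi]
    rfl
  have := prob_seg
  refine ⟨measurable_update', ?_⟩
  rw [h0]
  refine (Measure.pi_eq fun s hs => ?_).symm
  have h1 : (fun p : E ι × ℝ => (Function.update p.1 i p.2 : E ι)) ⁻¹' Set.pi univ s =
      Set.pi univ (Function.update s i univ) ×ˢ s i := by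
    ext p
    simp only [mem_preimage, Set.mem_pi, mem_univ, true_imp_iff, mem_prod]
    constructor
    · refine fun h => ⟨fun l => ?_, by simpa using h i⟩
      by_cases hl : l = i
      · subst hl
        simp
      · simpa [Function.update_of_ne hl] using h l
    · intro h l
      by_cases hl : l = i
      · subst hl
        simpa using h.2
      · simpa [Function.update_of_ne hl] using h.1 l
  rw [Measure.map_apply measurable_update' (MeasurableSet.univ_pi hs), h1, Measure.prod_prod,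
    Measure.pi_pi, ← Finset.mul_prod_erase _ _ (Finset.mem_univ i),
    ← Finset.mul_prod_erase _ _ (Finset.mem_univ i), Function.update_self, measure_univ, one_mul,
    mul_comm]
  congr 1
  exact Finset.prod_congr rfl fun l hl => by
    rw [Function.update_of_ne (Finset.ne_of_mem_erase hl)]

theorem sq_lintegral {α : Type} [MeasurableSpace α] (μ : Measure α) [IsProbabilityMeasure μ]
    {f : α → ℝ≥0∞} (hf : AEMeasurable f μ) : (∫⁻ x, f x ∂μ) ^ 2 ≤ ∫⁻ x, f x ^ 2 ∂μ := by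
  have h := ENNReal.lintegral_mul_le_Lp_mul_Lq μ Real.HolderConjugate.two_two hf
    (g := fun _ => 1) aemeasurable_const
  simp only [Pi.mul_apply, mul_one, ENNReal.one_rpow, lintegral_const, measure_univ,
    ENNReal.rpow_two, one_pow] at h
  refine (pow_le_pow_left' h 2).trans_eq ?_
  rw [← ENNReal.rpow_two, ← ENNReal.rpow_mul]
  norm_num

omit [Nonempty ι] in
/-- Jensen: the mean over the cube is a mean of means over segments. -/
theorem jensen (i : ι) {G : E ι → ℝ} (hG : Measurable G) :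
    ‖∫ t in Icc (0 : E ι) 1, G t‖ₑ ^ 2 ≤
      ∫⁻ t in Icc (0 : E ι) 1, ‖∫ s in Icc (0 : ℝ) 1, G (Function.update t i s)‖ₑ ^ 2 := by
  by_cases h : Integrable G (volume.restrict (Icc (0 : E ι) 1))
  · have := prob_cube (ι := ι)
    have h1 := mp_update i
    have h2 : Measurable fun p : E ι × ℝ => G (Function.update p.1 i p.2) := hG.comp h1.measurable
    have h3 : ∫ t in Icc (0 : E ι) 1, G t =
        ∫ t in Icc (0 : E ι) 1, ∫ s in Icc (0 : ℝ) 1, G (Function.update t i s) := by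
      refine Eq.trans ?_ (integral_prod _ (h1.integrable_comp_of_integrable h))
      conv_lhs => rw [← h1.map_eq]
      exact integral_map h1.measurable.aemeasurable hG.aestronglyMeasurable
    rw [h3]
    refine (pow_le_pow_left' (enorm_integral_le_lintegral_enorm _) 2).trans (sq_lintegral _ ?_)
    exact h2.stronglyMeasurable.integral_prod_right'.measurable.enorm.aemeasurable
  · rw [integral_undef h]
    simp

theorem split {α : Type} [MeasurableSpace α] (μ : Measure α) {f g : α → ℝ≥0∞}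
    (hf : Measurable f) (hg : Measurable g) (h1 : ∫⁻ x, f x ∂μ ≠ ∞) (h2 : ∫⁻ x, g x ∂μ ≠ ∞) :
    ∫⁻ x, f x ∂μ ≤ ∫⁻ x, g x ∂μ + ‖∫ x, ((f x).toReal - (g x).toReal) ∂μ‖ₑ := by
  rw [integral_sub (integrable_toReal_of_lintegral_ne_top hf.aemeasurable h1)
    (integrable_toReal_of_lintegral_ne_top hg.aemeasurable h2),
    integral_toReal hf.aemeasurable (ae_lt_top hf h1),
    integral_toReal hg.aemeasurable (ae_lt_top hg h2), Real.enorm_eq_ofReal_abs]
  generalize ∫⁻ x, f x ∂μ = a at h1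
  generalize ∫⁻ x, g x ∂μ = b at h2
  conv_lhs => rw [← ENNReal.ofReal_toReal h1]
  conv_rhs => enter [1]; rw [← ENNReal.ofReal_toReal h2]
  rw [← ENNReal.ofReal_add ENNReal.toReal_nonneg (abs_nonneg _)]
  exact ENNReal.ofReal_le_ofReal (by linarith [le_abs_self (a.toReal - b.toReal)])

end XF

/-- The total mass of a face average. -/
theorem face_mass (S : Finset ι) {ψ : ι → ℝ → ℝ} (hψ : ∀ l, Measurable (ψ l))
    {F : Fm ι × E ι → ℝ≥0∞} (hF : Measurable F) :
    Measurable (fun w : Fm ι × E ι => ∫⁻ t in Icc (0 : E ι) 1, F (w.1, fp S w.1 ψ w.2 t)) ∧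
      ∫⁻ w, (∫⁻ t in Icc (0 : E ι) 1, F (w.1, fp S w.1 ψ w.2 t)) ∂PZ ι = ∫⁻ w, F w ∂PZ ι := by
  have h1 := hF.comp (XF.meas_map S hψ)
  have := XF.prob_cube (ι := ι)
  refine ⟨h1.lintegral_prod_right', ?_⟩
  rw [lintegral_lintegral_swap (f := fun (w : Fm ι × E ι) (t : E ι) => F (w.1, fp S w.1 ψ w.2 t))
    h1.aemeasurable]
  have h2 : ∀ t : E ι, ∫⁻ w, F (w.1, fp S w.1 ψ w.2 t) ∂PZ ι = ∫⁻ w, F w ∂PZ ι := fun t =>
    lintegral_PZ_add hF (c := fun v => ∑ l ∈ S, ψ l (t l) • v l)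
      (Finset.measurable_sum _ fun l _ => (measurable_pi_apply l).fun_const_smul _)
  simp only [h2, lintegral_const, measure_univ, mul_one]

/-- A property of almost all points holds at almost all points of almost all faces. -/
theorem face_ae (S : Finset ι) {ψ : ι → ℝ → ℝ} (hψ : ∀ l, Measurable (ψ l))
    {A : Set (Fm ι × E ι)} (hA : MeasurableSet A) (h : ∀ᵐ w ∂PZ ι, w ∈ A) :
    ∀ᵐ w ∂PZ ι, ∀ᵐ t ∂volume.restrict (Icc (0 : E ι) 1), (w.1, fp S w.1 ψ w.2 t) ∈ A := by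
  have h0 : Measurable (Aᶜ.indicator (1 : Fm ι × E ι → ℝ≥0∞)) := measurable_one.indicator hA.compl
  obtain ⟨h1, h2⟩ := face_mass S hψ h0
  rw [lintegral_indicator_one hA.compl, (show PZ ι Aᶜ = 0 from h), lintegral_eq_zero_iff h1] at h2
  filter_upwards [h2] with w hw
  have h3 := (h0.comp (XF.meas_map S hψ)).comp (measurable_prodMk_left (x := w))
  filter_upwards [(lintegral_eq_zero_iff h3).1 hw] with t ht
  by_contra h4
  simp [h4] at ht

/-- Face averages of centred functions. -/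
theorem face_sq : ∃ C : ℝ≥0, ∀ (S : Finset ι) (i : ι), i ∈ S → ∀ (k : ℤ) (g : ℕ)
    (b : Fm ι × E ι → ℝ), Measurable b → Ind i b → (∀ v y, Er (k - g) (fun x => b (v, x)) y = 0) →
      (∀ v y, Em (k - g) (fun x => ‖b (v, x)‖ₑ) y ≤ 2) → ∀ ψ : ι → ℝ → ℝ,
      (∀ l, Measurable (ψ l)) → (∀ s, |ψ i s - 2 ^ k * s| ≤ 2 ^ (k - g)) →
      Measurable (fun w : Fm ι × E ι => ‖∫ t in Icc (0 : E ι) 1, b (w.1, fp S w.1 ψ w.2 t)‖ₑ) ∧
      ∫⁻ w, ‖∫ t in Icc (0 : E ι) 1, b (w.1, fp S w.1 ψ w.2 t)‖ₑ ∂PZ ι ≤ ∫⁻ w, ‖b w‖ₑ ∂PZ ι ∧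
      ∫⁻ w, ‖∫ t in Icc (0 : E ι) 1, b (w.1, fp S w.1 ψ w.2 t)‖ₑ ^ 2 ∂PZ ι ≤
        C * (3 / 4) ^ g * (∫⁻ w, ‖b w‖ₑ ^ 2 ∂PZ ι + ∫⁻ w, ‖b w‖ₑ ∂PZ ι) := by
  obtain ⟨C, hC⟩ := line_sq (ι := ι)
  refine ⟨C, fun S i hi k g b hb hind h0 h2 ψ hψ hs => ?_⟩
  have hm := hb.comp (XF.meas_map S hψ)
  refine ⟨hm.stronglyMeasurable.integral_prod_right'.measurable.enorm,
    (lintegral_mono fun w => enorm_integral_le_lintegral_enorm _).trans_eq
      (face_mass S hψ hb.enorm).2, ?_⟩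
  let K : Fm ι × E ι → ℝ≥0∞ := fun w =>
    ‖∫ s in Icc (0 : ℝ) 1, b (w.1, w.2 + ψ i s • w.1 i)‖ₑ ^ 2
  have hK : Measurable K := by
    have h3 : Measurable fun p : (Fm ι × E ι) × ℝ => b (p.1.1, p.1.2 + ψ i p.2 • p.1.1 i) :=
      hb.comp (measurable_fst.fst.prodMk (measurable_fst.snd.add
        (((hψ i).comp measurable_snd).smul ((measurable_pi_apply i).comp measurable_fst.fst))))
    exact h3.stronglyMeasurable.integral_prod_right'.measurable.enorm.pow_const 2
  have h4 : ∀ (v : Fm ι) (z t : E ι) (s : ℝ), fp S v ψ z (Function.update t i s) =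
      fp (S.erase i) v ψ z t + ψ i s • v i := fun v z t s => by
    rw [fp, fp, ← Finset.sum_erase_add _ _ hi, Function.update_self, add_assoc]
    congr 2
    exact Finset.sum_congr rfl fun l hl => by
      rw [Function.update_of_ne (Finset.ne_of_mem_erase hl)]
  have hv : ∀ v : Fm ι, Measurable fun x : E ι => b (v, x) := fun v =>
    hb.comp measurable_prodMk_left
  calc _ ≤ ∫⁻ w, (∫⁻ t in Icc (0 : E ι) 1, K (w.1, fp (S.erase i) w.1 ψ w.2 t)) ∂PZ ι := by
        refine lintegral_mono fun w => ?_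
        refine (XF.jensen i (hm.comp (measurable_prodMk_left (x := w)))).trans_eq ?_
        simp only [Function.comp_apply, h4, K]
    _ = ∫⁻ v, ∫⁻ u, ∫⁻ z, K (Function.update v i u, z) ∂volume ∂pv i ∂PV ι := by
        rw [(face_mass _ hψ hK).2, lintegral_PZ hK,
          lintegral_PV_update i (F := fun v => ∫⁻ z, K (v, z)) hK.lintegral_prod_right']
    _ ≤ ∫⁻ v, C * (3 / 4) ^ g * ((∫⁻ x, ‖b (v, x)‖ₑ ^ 2) + ∫⁻ x, ‖b (v, x)‖ₑ) ∂PV ι := by
        refine lintegral_mono fun v => ?_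
        refine le_of_eq_of_le ?_ (hC k g _ (hv v) (h0 v) (h2 v) i (ψ i) (hψ i) hs)
        simp only [K, Function.update_self, hind v]
    _ = _ := by
        have h5 := hb.enorm.pow_const 2
        rw [lintegral_const_mul _ (h5.lintegral_prod_right'.fun_add hb.enorm.lintegral_prod_right'),
          lintegral_add_left h5.lintegral_prod_right', lintegral_PZ h5, lintegral_PZ hb.enorm]

/-- The mean of a function over a face, compared with the mean of its cube averages. -/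
theorem face_split (S : Finset ι) {ψ : ι → ℝ → ℝ} (hψ : ∀ l, Measurable (ψ l)) (m : ℤ)
    {F : Fm ι × E ι → ℝ≥0∞} (hF : Measurable F) (hi : ∫⁻ w, F w ∂PZ ι ≠ ∞)
    {A : Set (Fm ι × E ι)} (hA : MeasurableSet A) :
    ∀ᵐ w ∂PZ ι, ∫⁻ t in Icc (0 : E ι) 1, A.indicator F (w.1, fp S w.1 ψ w.2 t) ≤
      (∫⁻ t in Icc (0 : E ι) 1,
        A.indicator (fun x => Em m (fun y => F (x.1, y)) x.2) (w.1, fp S w.1 ψ w.2 t)) +
      ‖∫ t in Icc (0 : E ι) 1, A.indicator
        (fun x => (F x).toReal - (Em m (fun y => F (x.1, y)) x.2).toReal)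
          (w.1, fp S w.1 ψ w.2 t)‖ₑ := by
  have hG := measurable_Em m hF
  have hG' : ∫⁻ w, Em m (fun y => F (w.1, y)) w.2 ∂PZ ι = ∫⁻ w, F w ∂PZ ι := by
    rw [lintegral_PZ hG, lintegral_PZ hF]
    exact lintegral_congr fun v => lintegral_Em m (hF.comp measurable_prodMk_left)
  have key : ∀ {H : Fm ι × E ι → ℝ≥0∞}, Measurable H → ∫⁻ w, H w ∂PZ ι ≠ ∞ → ∀ᵐ w ∂PZ ι,
      ∫⁻ t in Icc (0 : E ι) 1, A.indicator H (w.1, fp S w.1 ψ w.2 t) ≠ ∞ := fun hH h => by
    obtain ⟨h1, h2⟩ := face_mass S hψ hH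
    filter_upwards [ae_lt_top h1 (h2 ▸ h)] with w hw
    exact ((lintegral_mono fun t => indicator_le_self _ _ _).trans_lt hw).ne
  filter_upwards [key hF hi, key hG (hG' ▸ hi)] with w h1 h2
  have h3 := (XF.meas_map S hψ).comp (measurable_prodMk_left (x := w))
  refine (XF.split _ ((hF.indicator hA).comp h3) ((hG.indicator hA).comp h3) h1 h2).trans_eq ?_
  congr 3
  funext t
  by_cases h : (w.1, fp S w.1 ψ w.2 t) ∈ A <;> simp [h]

end Pool.Agent.Lib.MP_ecd4e3_gt.NB
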