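import Pool.Agent.Lib.MP_ecd4e3_gt.NB.XF
import Pool.Agent.Lib.MP_ecd4e3_gt.NB.XC2
import Pool.Agent.Lib.MP_ecd4e3_gt.NB.XW
import Pool.Agent.Lib.MP_ecd4e3_gt.NB.XArr

/-! Weak type bound for plain face averages. -/

namespace Pool.Agent.Lib.MP_ecd4e3_gt.NB

open Set Filter Topology Metric MeasureTheory
open scoped NNReal ENNReal

variable {ι : Type} [Fintype ι] [DecidableEq ι] [Nonempty ι]

namespace XT1

theorem tsum_ind {I X : Type} {A : I → Set X} {h : I → X → ℝ≥0∞} {x : X} {c : ℝ≥0∞}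
    (hd : ∀ g g', x ∈ A g → x ∈ A g' → g = g') (hc : ∀ g, x ∈ A g → h g x ≤ c) :
    ∑' g, (A g).indicator (h g) x ≤ c := by
  by_cases e : ∃ g, x ∈ A g
  · obtain ⟨g, hg⟩ := e
    rw [tsum_eq_single g fun g' h' => indicator_of_notMem (fun h1 => h' (hd _ _ h1 hg)) _,
      indicator_of_mem hg]
    exact hc g hg
  · simp [fun g => indicator_of_notMem (fun h1 => e ⟨g, h1⟩) (h g)]

/-- the maximal cubes of level `m` -/
def Om (F : Fm ι × E ι → ℝ≥0∞) (α : ℝ≥0∞) (m : ℤ) : Set (Fm ι × E ι) :=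
  {w | w.2 ∈ CZ (fun _ y => F (w.1, y)) α m}

/-- their neighbourhoods -/
def On (F : Fm ι × E ι → ℝ≥0∞) (α : ℝ≥0∞) (r : ℕ) (k : ℤ) : Set (Fm ι × E ι) :=
  {w | w.2 ∈ CZn (fun _ y => F (w.1, y)) α r k}

/-- the centred part on the maximal cubes -/
noncomputable def cb (F : Fm ι × E ι → ℝ≥0∞) (α : ℝ≥0∞) (m : ℤ) : Fm ι × E ι → ℝ :=
  (Om F α m).indicator fun x => (F x).toReal - (Em m (fun y => F (x.1, y)) x.2).toReal

variable {F : Fm ι × E ι → ℝ≥0∞} {α : ℝ≥0∞}

theorem mOm (hF : Measurable F) (m : ℤ) : MeasurableSet (Om F α m) :=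
  measurableSet_CZ (F := fun _ => F) (fun _ => hF) α m

theorem mOn (hF : Measurable F) (r : ℕ) (k : ℤ) : MeasurableSet (On F α r k) :=
  measurableSet_CZn (F := fun _ => F) (fun _ => hF) α r k

theorem mcb (hF : Measurable F) (m : ℤ) : Measurable (cb F α m) :=
  (hF.ennreal_toReal.sub (measurable_Em m hF).ennreal_toReal).indicator (mOm hF m)

omit [Nonempty ι] in
theorem cb_ind {i : ι} (hI : Ind i F) (m : ℤ) : Ind i (cb F α m) := fun v u y =>
  congrArg (fun G : E ι → ℝ≥0∞ => (CZ (fun _ => G) α m).indicator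
    (fun x => (G x).toReal - (Em m G x).toReal) y) (funext (hI v u))

theorem Em_le (hF : Measurable F) {m : ℤ} {w : Fm ι × E ι} (h : w ∈ Om F α m) :
    Em m (fun y => F (w.1, y)) w.2 ≤ 2 ^ Fintype.card ι * α :=
  (Em_le_parent m (hF.comp measurable_prodMk_left) _).trans
    (mul_le_mul_right (h.2 _ (lt_add_one m)) _)

theorem sum_Om (hF : Measurable F) {G : Fm ι × E ι → ℝ≥0∞} (hG : Measurable G) :
    ∑' m, ∫⁻ w, (Om F α m).indicator G w ∂PZ ι ≤ ∫⁻ w, G w ∂PZ ι := by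
  rw [← lintegral_tsum fun m => (hG.indicator (mOm hF m)).aemeasurable]
  exact lintegral_mono fun w => tsum_ind (fun _ _ a b => CZ_disj (F := fun _ y => F (w.1, y)) a b)
    fun _ _ => le_rfl

theorem cb_spec (hF : Measurable F) (hα : 2 ^ Fintype.card ι * α ≤ 1) (m : ℤ) :
    (∀ v y, Er m (fun x => cb F α m (v, x)) y = 0) ∧
    (∀ v y, Em m (fun x => ‖cb F α m (v, x)‖ₑ) y ≤ 2) ∧
    ∫⁻ w, ‖cb F α m w‖ₑ ∂PZ ι ≤ 2 * ∫⁻ w, (Om F α m).indicator F w ∂PZ ι ∧
    ∫⁻ w, ‖cb F α m w‖ₑ ^ 2 ∂PZ ι ≤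
      4 * ∫⁻ w, (Om F α m).indicator (fun x => F x ^ 2) w ∂PZ ι := by
  have hA : ∀ v, MeasurableSet (CZ (fun _ y => F (v, y)) α m) := fun v =>
    measurable_prodMk_left (mOm hF m)
  have h := fun v => centred (m := m) (F := fun y => F (v, y)) (hF.comp measurable_prodMk_left)
    (hA v) (fun _ _ => CZ_congr) fun y hy => (Em_le hF (w := (v, y)) hy).trans hα
  refine ⟨fun v => (h v).1, fun v => (h v).2.1, ?_, ?_⟩
  · rw [lintegral_PZ (mcb hF m).enorm, lintegral_PZ (hF.indicator (mOm hF m)),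
      ← lintegral_const_mul' _ _ ENNReal.ofNat_ne_top]
    refine lintegral_mono fun v => (h v).2.2.1.trans (le_of_eq ?_)
    rw [← lintegral_indicator (hA v)]
    rfl
  · rw [lintegral_PZ ((mcb hF m).enorm.pow_const 2),
      lintegral_PZ ((hF.pow_const 2).indicator (mOm hF m)),
      ← lintegral_const_mul' _ _ ENNReal.ofNat_ne_top]
    refine lintegral_mono fun v => (h v).2.2.2.trans (le_of_eq ?_)
    rw [← lintegral_indicator (hA v)]
    rfl

theorem bad_le (hF : Measurable F) : α * PZ ι (⋃ k, On F α 4 k) ≤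
    9 ^ Fintype.card ι * ∫⁻ w, F w ∂PZ ι := by
  have hm := MeasurableSet.iUnion fun k => mOn (α := α) hF 4 k
  rw [PZ, Measure.prod_apply hm, ← lintegral_const_mul _ (measurable_measure_prodMk_left hm), ← PZ,
    lintegral_PZ hF, ← lintegral_const_mul' _ _ (by simp)]
  refine lintegral_mono fun v => ?_
  have := CZn_meas (F := fun _ y => F (v, y)) (fun _ => hF.comp measurable_prodMk_left)
    (fun _ _ => le_rfl) α 4
  rw [preimage_iUnion]
  refine le_trans this (le_of_eq ?_)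
  norm_num

theorem small_ae (hF : Measurable F) (hi : ∫⁻ w, F w ∂PZ ι ≠ ∞) (hα : 0 < α) :
    ∀ᵐ w ∂PZ ι, w ∈ {w | F w ≤ α} ∪ ⋃ m, Om F α m := by
  rw [lintegral_PZ hF] at hi
  refine (Measure.ae_prod_mem_iff_ae_ae_mem ((measurableSet_le hF measurable_const).union
    (MeasurableSet.iUnion (mOm hF)))).2 ?_
  filter_upwards [ae_lt_top hF.lintegral_prod_right' hi] with v hv
  filter_upwards [ae_le_of_Em (F := fun y => F (v, y)) (hF.comp measurable_prodMk_left) hv.ne α]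
    with y hy
  by_cases h : ∀ m, Em m (fun y => F (v, y)) y ≤ α
  · exact Or.inl (hy h)
  · obtain ⟨m, hm⟩ := not_forall.1 h
    obtain ⟨m', -, h'⟩ := CZ_exists (F := fun _ y => F (v, y))
      (fun _ => hF.comp measurable_prodMk_left) (fun _ _ => le_rfl) hv.ne hα (not_le.1 hm)
    exact Or.inr (mem_iUnion.2 ⟨m', h'⟩)

theorem avg_le (hF : Measurable F) (hi : ∫⁻ w, F w ∂PZ ι ≠ ∞) (hα : 0 < α) (S : Finset ι)
    (k : ℤ) : ∀ᵐ w ∂PZ ι, w ∉ On F α 2 k →
      ∫⁻ t in Icc (0 : E ι) 1, F (w.1, fpt S w.1 k w.2 t) ≤ α + 2 ^ Fintype.card ι * α +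
        ∑' g : ℕ, ‖∫ t in Icc (0 : E ι) 1, cb F α (k - g) (w.1, fpt S w.1 k w.2 t)‖ₑ := by
  have hψ : ∀ _ : ι, Measurable fun s : ℝ => (2 : ℝ) ^ k * s := fun _ => measurable_id.const_mul _
  have h1 : ∀ᵐ w ∂PZ ι, w.1 ∈ Sv ι := Measure.quasiMeasurePreserving_fst.ae PV_ae
  filter_upwards [h1, face_ae S hψ ((measurableSet_le hF measurable_const).union
    (MeasurableSet.iUnion (mOm hF))) (small_ae hF hi hα), ae_all_iff.2 fun g : ℕ =>
      face_split S hψ (k - g) hF hi (mOm (α := α) hF (k - g))] with w w1 w2 w3 w4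
  have hp : Measurable fun t : E ι => (w.1, fpt S w.1 k w.2 t) :=
    measurable_prodMk_left.comp ((measurable_fp S hψ).comp measurable_prodMk_left)
  have hv : volume (Icc (0 : E ι) 1) = 1 := by simp [Real.volume_Icc_pi]
  have e1 : ∫⁻ t in Icc (0 : E ι) 1, F (w.1, fpt S w.1 k w.2 t) ≤ ∫⁻ t in Icc (0 : E ι) 1,
      α + ∑' g : ℕ, (Om F α (k - g)).indicator F (w.1, fpt S w.1 k w.2 t) := by
    refine lintegral_mono_ae ?_
    filter_upwards [w2, ae_restrict_mem measurableSet_Icc] with t t1 t2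
    rcases t1 with t1 | t1
    · exact le_add_right t1
    obtain ⟨m, hm⟩ := mem_iUnion.1 t1
    have h2 : m < k := not_le.1 fun h => w4 (CZn_of_near h hm ((fpt_dist w1 S k w.2 t2).trans (by
      exact_mod_cast mul_le_mul_of_nonneg_left (two_le_g.2 h) zero_le_two)))
    refine le_add_left (le_trans (le_of_eq ?_) (ENNReal.le_tsum (k - m).toNat))
    rw [show k - ((k - m).toNat : ℤ) = m by omega]
    exact (indicator_of_mem hm F).symm
  have e2 : ∑' g : ℕ, ∫⁻ t in Icc (0 : E ι) 1, (Om F α (k - g)).indicator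
      (fun x => Em (k - g) (fun y => F (x.1, y)) x.2) (w.1, fpt S w.1 k w.2 t) ≤
      2 ^ Fintype.card ι * α := by
    rw [← lintegral_tsum fun g : ℕ =>
      (((measurable_Em (k - g) hF).indicator (mOm hF (k - g))).fun_comp hp).aemeasurable]
    refine (lintegral_mono fun t => tsum_ind (A := fun g : ℕ => Om F α (k - g))
      (fun g g' a b => by have := CZ_disj (F := fun _ y => F (w.1, y)) a b; omega)
      fun g a => Em_le hF a).trans ?_
    rw [setLIntegral_const, hv, mul_one]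
  rw [lintegral_add_left measurable_const, setLIntegral_const, hv, mul_one,
    lintegral_tsum fun g : ℕ => ((hF.indicator (mOm hF (k - g))).fun_comp hp).aemeasurable] at e1
  refine e1.trans ?_
  rw [add_assoc]
  refine add_le_add_right ((ENNReal.tsum_le_tsum w3).trans ?_) _
  rw [ENNReal.tsum_add]
  exact add_le_add_left e2 _

end XT1

open XT1 in
theorem wt_plain : ∃ C : ℝ≥0, ∀ (S : Finset ι) (i : ι), i ∈ S → ∀ (F : Fm ι × E ι → ℝ≥0∞)
    (M : ℝ≥0∞), Measurable F → Ind i F → ∫⁻ w, F w ∂PZ ι ≤ M → ∫⁻ w, F w ^ 2 ∂PZ ι ≤ M →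
      WT (fun k w => ∫⁻ t in Icc (0 : E ι) 1, F (w.1, fpt S w.1 k w.2 t)) (C * M) := by
  obtain ⟨C, hC⟩ := face_sq (ι := ι)
  refine ⟨9 ^ Fintype.card ι * (4 * 2 ^ Fintype.card ι) + 10 ^ 6 * (32 * (C + 1)),
    fun S i hi F M hF hI h1 h2 => ?_⟩
  push_cast
  by_cases hM : M = ∞
  · refine ⟨fun _ _ => ∅, fun _ => univ, fun _ _ => .empty, fun _ => .univ, fun n => ?_,
      fun n => by simp, fun _ _ _ _ _ _ _ _ => Or.inr trivial⟩
    rw [hM, ENNReal.mul_top (by simp), ENNReal.top_mul (by simp)]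
    exact le_top
  have hfin : ∫⁻ w, F w ∂PZ ι ≠ ∞ := ne_top_of_le_ne_top hM h1
  have hψ : ∀ (k : ℤ) (_ : ι), Measurable fun s : ℝ => (2 : ℝ) ^ k * s := fun k _ =>
    measurable_id.const_mul _
  let α : ℕ → ℝ≥0∞ := fun n => (4 * 2 ^ Fintype.card ι * 2 ^ n)⁻¹
  have a1 : ∀ n, 0 < α n := fun n => ENNReal.inv_pos.2 (by finiteness)
  have a2 : ∀ n, 4 * 2 ^ Fintype.card ι * 2 ^ n * α n = 1 := fun n =>
    ENNReal.mul_inv_cancel (by simp) (by finiteness)
  have a3 : ∀ n, 2 ^ Fintype.card ι * α n ≤ 1 := fun n => by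
    rw [← a2 n]
    gcongr
    calc (2 : ℝ≥0∞) ^ Fintype.card ι = 1 * 2 ^ Fintype.card ι * 1 := by ring
      _ ≤ _ := by
        gcongr
        · norm_num
        · exact one_le_pow₀ one_le_two
  have a4 : ∀ n, α n + 2 ^ Fintype.card ι * α n ≤ (2 ^ (n + 1))⁻¹ := fun n => by
    rw [ENNReal.le_inv_iff_mul_le, ← a2 n]
    calc _ ≤ (2 ^ Fintype.card ι * α n + 2 ^ Fintype.card ι * α n) * 2 ^ (n + 1) := by
          gcongr
          exact le_mul_of_one_le_left' (one_le_pow₀ one_le_two)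
      _ = _ := by ring
  refine ⟨fun n k => {w | (2 ^ n)⁻¹ < ∫⁻ t in Icc (0 : E ι) 1, F (w.1, fpt S w.1 k w.2 t)} \
    On F (α n) 2 k, fun n => ⋃ k, On F (α n) 4 k, fun n k => (measurableSet_lt measurable_const
      (face_mass S (hψ k) hF).1).diff (mOn hF 2 k), fun n => .iUnion (mOn hF 4), fun n => ?_,
    fun n => ?_, fun n k v _ z x hd ha => ?_⟩
  · calc _ = 4 * 2 ^ Fintype.card ι * 2 ^ n * (α n * PZ ι (⋃ k, On F (α n) 4 k)) := by
          rw [← mul_assoc, a2, one_mul]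
      _ ≤ 4 * 2 ^ Fintype.card ι * 2 ^ n * (9 ^ Fintype.card ι * M) :=
          mul_le_mul_right ((bad_le hF).trans (by gcongr)) _
      _ = 9 ^ Fintype.card ι * (4 * 2 ^ Fintype.card ι) * M * 2 ^ n := by ring
      _ ≤ _ := by
          gcongr
          exact le_self_add
  · have f := fun (k : ℤ) (g : ℕ) => hC S i hi k g (cb F (α n) (k - g)) (mcb hF _) (cb_ind hI _)
      (cb_spec hF (a3 n) _).1 (cb_spec hF (a3 n) _).2.1 _ (hψ k) fun s => by
        rw [sub_self, abs_zero]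
        positivity
    have key := array_bound (PZ ι) (fun k g => (f k g).1)
      (μ := fun m => 4 * (C + 1) * (∫⁻ w, (Om F (α n) m).indicator F w ∂PZ ι +
        ∫⁻ w, (Om F (α n) m).indicator (fun x => F x ^ 2) w ∂PZ ι))
      (fun k g => (f k g).2.1.trans ((cb_spec hF (a3 n) _).2.2.1.trans (by
        gcongr
        · calc (2 : ℝ≥0∞) ≤ 4 * 1 := by norm_num
            _ ≤ _ := by gcongr; exact le_add_self
        · exact le_self_add)))
      (fun k g => (f k g).2.2.trans (by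
        have b1 := (cb_spec hF (a3 n) (k - g)).2.2.1
        have b2 := (cb_spec hF (a3 n) (k - g)).2.2.2
        generalize ∫⁻ w, (Om F (α n) (k - g)).indicator F w ∂PZ ι = I at b1 ⊢
        generalize ∫⁻ w, (Om F (α n) (k - g)).indicator (fun x => F x ^ 2) w ∂PZ ι = J at b2 ⊢
        calc _ ≤ (C + 1) * (3 / 4) ^ g * (4 * J + 4 * I) := by
              gcongr
              · exact le_self_add
              · exact b1.trans (by gcongr; norm_num)
          _ = _ := by ring)) (n + 1)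
    rw [ENNReal.tsum_mul_left, ENNReal.tsum_add] at key
    refine le_trans (ENNReal.tsum_le_tsum fun k => measure_mono_ae ?_) (key.trans ?_)
    · filter_upwards [avg_le hF hfin (a1 n) S k] with w hw h
      have h3 := (h.1.trans_le (hw h.2)).trans_le (add_le_add_left (a4 n) _)
      have h4 : ((2 : ℝ≥0∞) ^ n)⁻¹ = (2 ^ (n + 1))⁻¹ + (2 ^ (n + 1))⁻¹ := by
        rw [pow_succ, ENNReal.mul_inv (by simp) (by simp), ← mul_add, ENNReal.inv_two_add_inv_two,
          mul_one]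
      rw [h4] at h3
      exact lt_of_add_lt_add_left h3
    · calc _ ≤ 10 ^ 6 * (4 * ((C : ℝ≥0∞) + 1) * (M + M)) * (2 * (n + 1)) * 2 ^ (n + 1) := by
            gcongr
            · exact (sum_Om hF hF).trans h1
            · exact (sum_Om hF (hF.pow_const 2)).trans h2
            · push_cast
              calc (n : ℝ≥0∞) + 1 + 1 ≤ n + 1 + (n + 1) := by gcongr; exact le_add_self
                _ = _ := by ring
        _ = 10 ^ 6 * (32 * (C + 1)) * M * (n + 1) * 2 ^ n := by ring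
        _ ≤ _ := by
            gcongr
            exact le_add_self
  · by_cases h : (v, z) ∈ On F (α n) 2 k
    · exact Or.inr (mem_iUnion.2 ⟨k, CZn_near (r := 2) (r' := 2) h (by
        rw [dist_comm]; exact_mod_cast hd)⟩)
    · exact Or.inl ⟨ha, h⟩

end Pool.Agent.Lib.MP_ecd4e3_gt.NB
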