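import Pool.Agent.Lib.MP_ecd4e3_gt.NB.XT1
import Pool.Agent.Lib.MP_ecd4e3_gt.NB.XCar

/-! Weak type bound for sums over the anchors of all smaller scales. -/

namespace Pool.Agent.Lib.MP_ecd4e3_gt.NB

open Set Filter Topology Metric MeasureTheory
open scoped NNReal ENNReal

variable {ι : Type} [Fintype ι] [DecidableEq ι] [Nonempty ι]

namespace XT2

/-- The sum over the scales up to `m`. -/
noncomputable def FF (ζ : ℤ → Fm ι × E ι → ℝ≥0∞) (m : ℤ) (w : Fm ι × E ι) : ℝ≥0∞ :=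
  ∑' j, if j ≤ m then ζ j w else 0

/-- Bad frames, and points near the heavy cubes. -/
def Hv (ζ : ℤ → Fm ι × E ι → ℝ≥0∞) (r : ℕ) (k : ℤ) : Set (Fm ι × E ι) :=
  {w | ∫⁻ y, ∑' j, ζ j (w.1, y) = ∞ ∨ w.2 ∈ CZn (fun m y => FF ζ m (w.1, y)) 1 r k}

/-- The family away from the heavy cubes. -/
noncomputable def zt (ζ : ℤ → Fm ι × E ι → ℝ≥0∞) (j : ℤ) : Fm ι × E ι → ℝ≥0∞ :=
  (Hv ζ 0 j)ᶜ.indicator (ζ j)

/-- The sum of the means over neighbouring cubes. -/
noncomputable def hh (ζ : ℤ → Fm ι × E ι → ℝ≥0∞) (j : ℤ) (w : Fm ι × E ι) : ℝ≥0∞ :=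
  ∑ o ∈ Fintype.piFinset fun _ : ι => Finset.Icc (-2 : ℤ) 2,
    Em j (fun y => ζ j (w.1, y)) (w.2 + (2 : ℝ) ^ j • fun i => (o i : ℝ))

/-- The centred part. -/
noncomputable def cc (F : Fm ι × E ι → ℝ≥0∞) (j : ℤ) (w : Fm ι × E ι) : ℝ :=
  (F w).toReal - (Em j (fun y => F (w.1, y)) w.2).toReal

variable {ζ : ℤ → Fm ι × E ι → ℝ≥0∞} {i : ι}

omit [Fintype ι] [DecidableEq ι] [Nonempty ι] in
theorem FF_meas (h : ∀ j, Measurable (ζ j)) (m : ℤ) : Measurable (FF ζ m) :=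
  Measurable.tsum fun j => by
    split_ifs
    exacts [h j, measurable_const]

omit [Fintype ι] [DecidableEq ι] [Nonempty ι] in
theorem FF_le (m : ℤ) (w : Fm ι × E ι) : FF ζ m w ≤ ∑' j, ζ j w :=
  ENNReal.tsum_le_tsum fun j => by
    split_ifs
    exacts [le_rfl, zero_le]

theorem Hv_meas (h : ∀ j, Measurable (ζ j)) (r : ℕ) (k : ℤ) : MeasurableSet (Hv ζ r k) :=
  ((((Measurable.tsum h).lintegral_prod_right').comp measurable_fst)
    (measurableSet_singleton ∞)).union (measurableSet_CZn (FF_meas h) 1 r k)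

omit [Nonempty ι] in
theorem Hv_ind (h : ∀ j, Ind i (ζ j)) (r : ℕ) (k : ℤ) (v : Fm ι) (u y : E ι) :
    (Function.update v i u, y) ∈ Hv ζ r k ↔ (v, y) ∈ Hv ζ r k := by
  simp only [Hv, FF, mem_ofPred_eq, fun j y => h j v u y]

theorem Hv_vol (h : ∀ j, Measurable (ζ j)) :
    PZ ι (⋃ k, Hv ζ 2 k) ≤ 5 ^ Fintype.card ι * ∑' j, ∫⁻ w, ζ j w ∂PZ ι := by
  rw [PZ, Measure.prod_apply (.iUnion (Hv_meas h 2)), ← PZ,
    ← lintegral_tsum fun j => (h j).aemeasurable, lintegral_PZ (.tsum h),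
    ← lintegral_const_mul' _ _ (by simp)]
  refine lintegral_mono fun v => ?_
  by_cases c : ∫⁻ y, ∑' j, ζ j (v, y) = ∞
  · simp [c]
  · have := CZn_meas (F := fun m y => FF ζ m (v, y))
      (fun m => (FF_meas h m).comp measurable_prodMk_left) (fun m y => FF_le m _) 1 2
    norm_num at this
    simpa [Hv, c, preimage_iUnion] using this

theorem zt_meas (h : ∀ j, Measurable (ζ j)) (j : ℤ) : Measurable (zt ζ j) :=
  (h j).indicator (Hv_meas h 0 j).compl

omit [DecidableEq ι] [Nonempty ι] in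
theorem zt_le (j : ℤ) (w : Fm ι × E ι) : zt ζ j w ≤ ζ j w := indicator_le_self _ _ w

omit [Nonempty ι] in
theorem zt_ind (h : ∀ j, Ind i (ζ j)) (j : ℤ) : Ind i (zt ζ j) := fun v u y => by
  classical
  simp only [zt, indicator_apply, mem_compl_iff, Hv_ind h, h j v u y]

theorem zt_car (h : ∀ j, Measurable (ζ j)) (v : Fm ι) (m : ℤ) (y : E ι) :
    Em m (fun x => ∑' j, if j ≤ m then zt ζ j (v, x) else 0) y ≤ 1 := by
  by_cases c : Em m (fun x => FF ζ m (v, x)) y ≤ 1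
  · refine (Em_mono m (fun x => ENNReal.tsum_le_tsum fun j => ?_) y).trans c
    split_ifs
    exacts [zt_le j _, le_rfl]
  refine le_trans (le_of_eq ((lintegral_congr_ae ?_).trans lintegral_zero)) zero_le
  filter_upwards [flv_ae m y] with t ht
  refine ENNReal.tsum_eq_zero.2 fun j => ite_eq_right_iff.2 fun hj =>
    indicator_of_notMem (not_not.2 (or_iff_not_imp_left.2 fun d => ?_)) _
  obtain ⟨m', a1, a2⟩ := CZ_exists (F := fun m y => FF ζ m (v, y))
    (fun m => (FF_meas h m).comp measurable_prodMk_left) (fun m y => FF_le m _) d one_pos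
    (not_le.1 c)
  exact CZn_of_near (y' := flv m y + (2 : ℝ) ^ m • t) (hj.trans a1)
    ((CZ_congr ((flv_flv a1 _).symm.trans (by rw [ht, flv_flv a1]))).2 a2) (by simp)

theorem hh_meas (h : ∀ j, Measurable (ζ j)) (j : ℤ) : Measurable (hh ζ j) :=
  Finset.measurable_sum _ fun _ _ =>
    (measurable_Em j (h j)).comp (measurable_fst.prodMk (measurable_snd.add_const _))

theorem hh_int (h : ∀ j, Measurable (ζ j)) :
    ∫⁻ w, ∑' j, hh ζ j w ∂PZ ι = 5 ^ Fintype.card ι * ∑' j, ∫⁻ w, ζ j w ∂PZ ι := by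
  rw [lintegral_tsum fun j => (hh_meas h j).aemeasurable, ← ENNReal.tsum_mul_left]
  refine tsum_congr fun j => ?_
  have e : ∫⁻ w, Em j (fun y => ζ j (w.1, y)) w.2 ∂PZ ι = ∫⁻ w, ζ j w ∂PZ ι := by
    rw [lintegral_PZ (measurable_Em j (h j)), lintegral_PZ (h j)]
    exact lintegral_congr fun v => lintegral_Em j ((h j).comp measurable_prodMk_left)
  refine (lintegral_finsetSum _ fun o _ => (measurable_Em j (h j)).comp
    (measurable_fst.prodMk (measurable_snd.add_const _))).trans ?_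
  refine (Finset.sum_congr rfl fun o _ =>
    (lintegral_PZ_add (measurable_Em j (h j)) measurable_const).trans e).trans ?_
  simp

theorem hh_sq (h : ∀ j, Measurable (ζ j)) : ∫⁻ w, (∑' j, hh (zt ζ) j w) ^ 2 ∂PZ ι ≤
    2 * 125 ^ Fintype.card ι * ∑' j, ∫⁻ w, zt ζ j w ∂PZ ι := by
  have h' := zt_meas h
  rw [lintegral_PZ ((Measurable.tsum (hh_meas h')).pow_const 2),
    ← lintegral_tsum fun j => (h' j).aemeasurable, lintegral_PZ (.tsum h'),
    ← lintegral_const_mul' _ _ (by finiteness)]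
  refine lintegral_mono fun v => ?_
  rw [lintegral_tsum (f := fun j y => zt ζ j (v, y))
    fun j => ((h' j).comp measurable_prodMk_left).aemeasurable]
  exact carleson (fun j => (h' j).comp measurable_prodMk_left) (zt_car h v)

theorem cc_meas {F : Fm ι × E ι → ℝ≥0∞} (h : Measurable F) (j : ℤ) : Measurable (cc F j) :=
  h.ennreal_toReal.sub (measurable_Em j h).ennreal_toReal

theorem cc_bd {F : Fm ι × E ι → ℝ≥0∞} (h : Measurable F) (h1 : ∀ w, F w ≤ 1) (j : ℤ) :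
    (∀ v y, Er j (fun x => cc F j (v, x)) y = 0) ∧
      (∀ v y, Em j (fun x => ‖cc F j (v, x)‖ₑ) y ≤ 2) ∧
      ∫⁻ w, ‖cc F j w‖ₑ ∂PZ ι ≤ 2 * ∫⁻ w, F w ∂PZ ι ∧
      ∫⁻ w, ‖cc F j w‖ₑ ^ 2 ∂PZ ι ≤ 4 * ∫⁻ w, F w ∂PZ ι := by
  have key := fun v => centred (m := j) (F := fun y => F (v, y)) (h.comp measurable_prodMk_left)
    .univ (by simp) fun y _ => (Em_mono j (fun x => h1 _) y).trans_eq (Em_const j 1 y)
  simp only [indicator_univ, Measure.restrict_univ] at key
  rw [lintegral_PZ (cc_meas h j).enorm, lintegral_PZ ((cc_meas h j).enorm.pow_const 2),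
    lintegral_PZ h, ← lintegral_const_mul' _ _ (by simp), ← lintegral_const_mul' _ _ (by simp)]
  refine ⟨fun v => (key v).1, fun v => (key v).2.1, lintegral_mono fun v => (key v).2.2.1,
    lintegral_mono fun v => (key v).2.2.2.trans ?_⟩
  gcongr with y
  exact pow_le_of_le_one zero_le (h1 _) two_ne_zero

end XT2

open XT2 in
theorem wt_anc : ∃ C : ℝ≥0, ∀ (S : Finset ι) (i : ι), i ∈ S → ∀ (b : Bool)
    (ζ : ℤ → Fm ι × E ι → ℝ≥0∞) (M : ℝ≥0∞), (∀ j, Measurable (ζ j)) → (∀ j, Ind i (ζ j)) →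
      (∀ j w, ζ j w ≤ 1) → ∑' j, ∫⁻ w, ζ j w ∂PZ ι ≤ M →
      WT (fun k w => ∫⁻ t in Icc (0 : E ι) 1,
        min 1 (∑' g : ℕ, ζ (k - g) (w.1, anc S w.1 k (k - g) i b w.2 t))) (C * M) := by
  obtain ⟨C1, hC1⟩ := wt_plain (ι := ι)
  obtain ⟨C2, hC2⟩ := face_sq (ι := ι)
  refine ⟨4 * (8 * C1 * (2 * 125 ^ Fintype.card ι) + 10 ^ 6 * (6 * C2 + 2)),
    fun S i hi b ζ M hm hI h1 hM => ?_⟩
  rcases eq_or_ne M ∞ with rfl | hM'
  · rw [ENNReal.mul_top (by positivity)]
    exact ⟨fun _ _ => univ, fun _ => univ, fun _ _ => .univ, fun _ => .univ, by simp, by simp,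
      fun _ _ _ _ _ _ _ _ => .inl trivial⟩
  have hz := zt_meas hm
  have z1 : ∀ j w, zt ζ j w ≤ 1 := fun j w => (zt_le j w).trans (h1 j w)
  have zM : ∑' j, ∫⁻ w, zt ζ j w ∂PZ ι ≤ M :=
    (ENNReal.tsum_le_tsum fun j => lintegral_mono (zt_le j)).trans hM
  have c5 : (5 : ℝ≥0∞) ^ Fintype.card ι ≤ 2 * 125 ^ Fintype.card ι :=
    (pow_le_pow_left' (by norm_num) _).trans (le_mul_of_one_le_left' one_le_two)
  have mV : MeasurableSet (⋃ k, Hv ζ 2 k) := .iUnion (Hv_meas hm 2)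
  have mH : Measurable fun w => ∑' j, hh (zt ζ) j w := .tsum (hh_meas hz)
  have vol : ∫⁻ w, (⋃ k, Hv ζ 2 k).indicator 1 w ∂PZ ι ≤ 2 * 125 ^ Fintype.card ι * M :=
    ((lintegral_indicator_one mV).trans_le (Hv_vol hm)).trans (mul_le_mul' c5 hM)
  have w1 := hC1 S i hi _ _ (measurable_one.indicator mV) (fun v u y => by
    classical
    simp only [indicator_apply, mem_iUnion, Hv_ind hI, Pi.one_apply]) vol
    (le_trans (lintegral_mono fun w => pow_le_of_le_one zero_le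
      (indicator_le_self' (fun _ _ => zero_le) w) two_ne_zero) vol)
  have w2 := hC1 S i hi _ (2 * 125 ^ Fintype.card ι * M) mH
    (fun v u y => by simp only [hh, fun j y => zt_ind hI j v u y])
    ((hh_int hz).trans_le (mul_le_mul' c5 zM)) ((hh_sq hm).trans (mul_le_mul' le_rfl zM))
  let ψ : ℤ → ℤ → ι → ℝ → ℝ := fun k j l s => sn k j s + if l = i ∧ b = true then 2 ^ j else 0
  have mψ : ∀ k j l, Measurable (ψ k j l) := fun k j l => (measurable_sn k j).add_const _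
  let d : ℤ → ℕ → Fm ι × E ι → ℝ≥0∞ := fun k g w =>
    ‖∫ t in Icc (0 : E ι) 1, cc (zt ζ (k - g)) (k - g) (w.1, fp S w.1 (ψ k (k - g)) w.2 t)‖ₑ
  have hd : ∀ k g, Measurable (d k g) ∧
      ∫⁻ w, d k g w ∂PZ ι ≤ (6 * C2 + 2) * ∫⁻ w, zt ζ (k - g) w ∂PZ ι ∧
      ∫⁻ w, d k g w ^ 2 ∂PZ ι ≤ (3 / 4) ^ g * ((6 * C2 + 2) * ∫⁻ w, zt ζ (k - g) w ∂PZ ι) := by
    intro k g
    obtain ⟨a1, a2, a3, a4⟩ := cc_bd (hz (k - g)) (z1 _) (k - g)
    obtain ⟨b1, b2, b3⟩ := hC2 S i hi k g _ (cc_meas (hz _) _)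
      (fun v u y => by simp only [cc, fun y => zt_ind hI (k - g) v u y]) a1 a2 _ (mψ k (k - g))
      fun s => by
        have := sn_bd k (k - g) s
        have := two_pos_g (k - g)
        simp only [ψ, abs_le]
        split_ifs <;> constructor <;> linarith
    refine ⟨b1, (b2.trans a3).trans (mul_le_mul' le_add_self le_rfl),
      (b3.trans (mul_le_mul' le_rfl (add_le_add a4 a3))).trans ?_⟩
    rw [← add_mul, mul_comm (C2 : ℝ≥0∞), mul_assoc, ← mul_assoc (C2 : ℝ≥0∞)]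
    gcongr
    exact (show _ = 6 * (C2 : ℝ≥0∞) by ring).trans_le le_self_add
  have ae : ∀ᵐ w ∂PZ ι, ∀ (k : ℤ) (g : ℕ),
      ∫⁻ t in Icc (0 : E ι) 1, zt ζ (k - g) (w.1, anc S w.1 k (k - g) i b w.2 t) ≤
        (∫⁻ t in Icc (0 : E ι) 1, Em (k - g) (fun y => zt ζ (k - g) (w.1, y))
          (anc S w.1 k (k - g) i b w.2 t)) + d k g w :=
    ae_all_iff.2 fun k => ae_all_iff.2 fun g => by
      have := face_split S (mψ k (k - g)) (k - g) (hz (k - g))
        (ne_top_of_le_ne_top hM' ((ENNReal.le_tsum (k - g)).trans zM)) .univ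
      simp only [indicator_univ] at this
      exact this
  obtain ⟨N, n1, n2, n3⟩ := exists_measurable_superset_of_null (ae_iff.1 ae)
  have w3 : WT (fun k w => ∑' g, d k g w + N.indicator (fun _ => ∞) w)
      (10 ^ 6 * ((6 * C2 + 2) * M)) := by
    refine WT.of_meas (fun k => (Measurable.tsum fun g => (hd k g).1).add
      (measurable_const.indicator n2)) fun n => le_trans (ENNReal.tsum_le_tsum fun k =>
        measure_mono_ae ?_) ((array_bound (PZ ι) (fun k g => (hd k g).1)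
          (μ := fun m => (6 * C2 + 2) * ∫⁻ w, zt ζ m w ∂PZ ι) (fun k g => (hd k g).2.1)
          (fun k g => (hd k g).2.2) n).trans ?_)
    · filter_upwards [measure_eq_zero_iff_ae_notMem.1 n3] with w hw a
      have a' : (2 ^ n)⁻¹ < ∑' g, d k g w + N.indicator (fun _ => ∞) w := a
      rwa [indicator_of_notMem hw, add_zero] at a'
    · rw [ENNReal.tsum_mul_left]
      gcongr
  refine ((w1.add w2).add w3).mono (fun k v hv z => ?_) (le_of_eq (by push_cast; ring))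
  by_cases c : (v, z) ∈ N
  · simp [indicator_of_mem c]
  have c' := not_not.1 (mt (@n1 (v, z)) c) k
  have mf : ∀ {φ : ι → ℝ → ℝ}, (∀ l, Measurable (φ l)) →
      Measurable fun t => (v, fp S v φ z t) := fun hφ =>
    measurable_const.prodMk ((measurable_fp S hφ).comp (measurable_prodMk_left (x := (v, z))))
  have mt' : Measurable fun t => (v, fpt S v k z t) := mf fun _ => measurable_id.const_mul _
  rw [indicator_of_notMem c, add_zero, add_assoc]
  calc _ ≤ ∫⁻ t in Icc (0 : E ι) 1, (⋃ k, Hv ζ 2 k).indicator 1 (v, fpt S v k z t) +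
        ∑' g : ℕ, zt ζ (k - g) (v, anc S v k (k - g) i b z t) := lintegral_mono fun t => ?_
    _ ≤ _ := ?_
  · by_cases e : (v, fpt S v k z t) ∈ ⋃ k, Hv ζ 2 k
    · rw [indicator_of_mem e]
      exact (min_le_left _ _).trans le_self_add
    · refine (min_le_right _ _).trans (le_add_left (le_of_eq (tsum_congr fun g =>
        (indicator_of_mem (s := (Hv ζ 0 (k - g))ᶜ) (show (v, anc S v k (k - g) i b z t) ∉ _ from
          fun a => e (mem_iUnion.2 ⟨k - g, Or.imp_right (fun a => ?_) a⟩)) _).symm)))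
      exact CZn_near (r' := 2) a (by simpa [dist_comm] using anc_dist hv S k (k - g) i b z t)
  · have m1 : Measurable fun t => (⋃ k, Hv ζ 2 k).indicator (1 : Fm ι × E ι → ℝ≥0∞)
        (v, fpt S v k z t) := (measurable_one.indicator mV).comp mt'
    have m2 : ∀ g : ℕ, Measurable fun t => zt ζ (k - g) (v, anc S v k (k - g) i b z t) :=
      fun g => (hz (k - g)).comp (mf (mψ k (k - g)))
    have m3 : ∀ g : ℕ, Measurable fun t =>
        Em (k - g) (fun y => zt ζ (k - g) (v, y)) (anc S v k (k - g) i b z t) :=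
      fun g => (measurable_Em (k - g) (hz (k - g))).comp (mf (mψ k (k - g)))
    rw [lintegral_add_left m1, lintegral_tsum fun g => (m2 g).aemeasurable]
    refine add_le_add le_rfl ((ENNReal.tsum_le_tsum c').trans ?_)
    rw [ENNReal.tsum_add, ← lintegral_tsum fun g => (m3 g).aemeasurable]
    refine add_le_add (lintegral_mono fun t => le_trans (ENNReal.tsum_le_tsum fun g => ?_)
      (ENNReal.tsum_comp_le_tsum_of_injective (f := fun g : ℕ => k - g)
        (fun _ _ a => by simpa using a) _)) le_rfl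
    obtain ⟨o, o1, o2⟩ := flv_near (m := k - g) (r := 2) (y := fpt S v k z t)
      (y' := anc S v k (k - g) i b z t)
      (by simpa [dist_comm] using anc_dist hv S k (k - g) i b z t)
    exact (Em_congr o2 _).trans_le (Finset.single_le_sum (f := fun o : ι → ℤ =>
      Em (k - g) (fun y => zt ζ (k - g) (v, y))
        (fpt S v k z t + (2 : ℝ) ^ (k - g) • fun i => (o i : ℝ))) (fun _ _ => zero_le)
      (Fintype.mem_piFinset.2 fun l => Finset.mem_Icc.2 (abs_le.1 (o1 l))))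

end Pool.Agent.Lib.MP_ecd4e3_gt.NB
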